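import Pool.Agent.Lib_helper42.JO1.Defs
import Pool.Agent.Lib_helper45.JO.Defs2

/-! JO, Maass frame, weight 1, block A1 -/

set_option autoImplicit false

namespace Pool.Agent.JO.FM1

open Complex Filter Topology MeasureTheory Set
open UpperHalfPlane hiding I
open Pool.Agent.JO.FM
open scoped MatrixGroups ComplexConjugate

theorem f1_a1_open : IsOpen {z : ℂ | 0 < z.im} := isOpen_lt continuous_const Complex.continuous_im

/-- the Moebius transformation -/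
noncomputable def f1_a1_m (σ : SL(2, ℤ)) (w : ℂ) : ℂ :=
  ((σ 0 0 : ℤ) * w + (σ 0 1 : ℤ)) / ((σ 1 0 : ℤ) * w + (σ 1 1 : ℤ))

/-- the automorphy factor -/
noncomputable def f1_a1_j (σ : SL(2, ℤ)) (w : ℂ) : ℂ := (σ 1 0 : ℤ) * w + (σ 1 1 : ℤ)

theorem f1_a1_coe (σ : SL(2, ℤ)) (z : ℍ) : ((σ • z : ℍ) : ℂ) = f1_a1_m σ z := by
  rw [coe_specialLinearGroup_apply]
  unfold f1_a1_m
  simp

theorem f1_a1_denom (σ : SL(2, ℤ)) (z : ℍ) : denom σ z = f1_a1_j σ z := by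
  rw [ModularGroup.denom_apply]
  rfl

theorem f1_a1_den (σ : SL(2, ℤ)) (z : ℍ) : f1_a1_j σ z ≠ 0 := by
  rw [← f1_a1_denom]
  exact UpperHalfPlane.denom_ne_zero (σ : GL (Fin 2) ℝ) z

theorem f1_a1_den' (σ : SL(2, ℤ)) {w : ℂ} (hw : 0 < w.im) : f1_a1_j σ w ≠ 0 :=
  f1_a1_den σ ⟨w, hw⟩

theorem f1_a1_der (σ : SL(2, ℤ)) {w : ℂ} (hw : 0 < w.im) :
    HasDerivAt (f1_a1_m σ) (1 / f1_a1_j σ w ^ 2) w := by
  have h1 : HasDerivAt (fun w : ℂ => ((σ 0 0 : ℤ) : ℂ) * w + (σ 0 1 : ℤ)) (σ 0 0 : ℤ) w := by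
    simpa using ((hasDerivAt_id w).const_mul ((σ 0 0 : ℤ) : ℂ)).add_const ((σ 0 1 : ℤ) : ℂ)
  have h2 : HasDerivAt (fun w : ℂ => ((σ 1 0 : ℤ) : ℂ) * w + (σ 1 1 : ℤ)) (σ 1 0 : ℤ) w := by
    simpa using ((hasDerivAt_id w).const_mul ((σ 1 0 : ℤ) : ℂ)).add_const ((σ 1 1 : ℤ) : ℂ)
  refine (h1.div h2 (f1_a1_den' σ hw)).congr_deriv ?_
  unfold f1_a1_j
  congr 1
  have hdet := σ.det_coe
  rw [Matrix.det_fin_two] at hdet
  have hdet' : ((σ 0 0 : ℤ) : ℂ) * (σ 1 1 : ℤ) - (σ 0 1 : ℤ) * (σ 1 0 : ℤ) = 1 := by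
    exact_mod_cast hdet
  linear_combination hdet'

theorem f1_a1_comp (f : ℍ → ℂ) (σ : SL(2, ℤ)) {w : ℂ} (hw : 0 < w.im) :
    f (σ • ofComplex w) = f (ofComplex (f1_a1_m σ w)) := by
  congr 1
  have h1 : w = ((ofComplex w : ℍ) : ℂ) := by
    rw [ofComplex_apply_of_im_pos hw]
  conv_rhs => rw [h1, ← f1_a1_coe, ofComplex_apply]

theorem f1_a1_sl (f : ℍ → ℂ) (σ : SL(2, ℤ)) {w : ℂ} (hw : 0 < w.im) :
    sl σ f (ofComplex w) = f (ofComplex (f1_a1_m σ w)) *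
      (((‖f1_a1_j σ w‖ : ℝ) : ℂ) * (f1_a1_j σ w)⁻¹) := by
  unfold sl
  rw [f1_a1_comp f σ hw, f1_a1_denom, ofComplex_apply_of_im_pos hw, inv_div]
  rfl

theorem f1_a1_maps (σ : SL(2, ℤ)) {w : ℂ} (hw : 0 < w.im) : 0 < (f1_a1_m σ w).im := by
  have h := (σ • (⟨w, hw⟩ : ℍ)).im_pos
  have h2 := f1_a1_coe σ ⟨w, hw⟩
  rw [← UpperHalfPlane.coe_im, h2] at h
  exact h

theorem sl_mul_pr (σ τ : SL(2, ℤ)) (f : ℍ → ℂ) : sl (σ * τ) f = sl τ (sl σ f) := by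
  funext z
  unfold sl
  have h1 : denom (σ * τ : SL(2, ℤ)) z = denom σ ((τ • z : ℍ) : ℂ) * denom τ z := by
    rw [f1_a1_denom, f1_a1_denom, f1_a1_denom, f1_a1_coe]
    unfold f1_a1_m
    have h2 := f1_a1_den τ z
    unfold f1_a1_j at h2 ⊢
    rw [Matrix.SpecialLinearGroup.coe_mul]
    simp only [Matrix.mul_apply, Fin.sum_univ_two]
    push_cast
    field_simp
    ring
  rw [mul_smul, h1, norm_mul, mul_assoc, ← mul_inv]
  congr 2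
  push_cast
  rw [mul_div_mul_comm]

theorem f1_a1_U (σ : SL(2, ℤ)) : ContDiffOn ℝ 2
    (fun w : ℂ => ((‖f1_a1_j σ w‖ : ℝ) : ℂ) * (f1_a1_j σ w)⁻¹) {z | 0 < z.im} := by
  have hj : ContDiffOn ℝ 2 (f1_a1_j σ) {z | 0 < z.im} := by
    unfold f1_a1_j
    exact ContDiff.contDiffOn (by fun_prop)
  have h1 : ContDiffOn ℝ 2 (fun w : ℂ => ‖f1_a1_j σ w‖) {z | 0 < z.im} :=
    hj.norm ℝ fun w hw => f1_a1_den' σ hw
  have h2 : ContDiffOn ℝ 2 (fun w : ℂ => ((‖f1_a1_j σ w‖ : ℝ) : ℂ)) {z | 0 < z.im} :=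
    Complex.ofRealCLM.contDiff.comp_contDiffOn h1
  exact h2.mul (hj.inv fun w hw => f1_a1_den' σ hw)

theorem sl_smooth_pr {f : ℍ → ℂ}
    (hf : ContDiffOn ℝ 2 (fun z : ℂ => f (ofComplex z)) {z | 0 < z.im})
    (σ : SL(2, ℤ)) : ContDiffOn ℝ 2 (fun z : ℂ => sl σ f (ofComplex z)) {z | 0 < z.im} := by
  have h0 : DifferentiableOn ℂ (f1_a1_m σ) {z | 0 < z.im} := fun w hw =>
    (f1_a1_der σ hw).differentiableAt.differentiableWithinAt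
  have h1 : ContDiffOn ℝ 2 (f1_a1_m σ) {z | 0 < z.im} :=
    (h0.contDiffOn (n := 2) f1_a1_open).restrict_scalars ℝ
  have h2 := (hf.comp h1 (fun w hw => f1_a1_maps σ hw)).mul (f1_a1_U σ)
  exact h2.congr (fun w hw => f1_a1_sl f σ hw)

/-- the derivative of the norm along a line -/
theorem f1_a1_norm {j₀ : ℂ} (hj : j₀ ≠ 0) (a : ℂ) :
    HasDerivAt (fun t : ℝ => ‖j₀ + t * a‖) ((conj j₀ * a).re / ‖j₀‖) 0 := by
  have h1 : HasDerivAt (fun t : ℝ => (j₀.re + t * a.re) ^ 2 + (j₀.im + t * a.im) ^ 2)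
      (2 * (conj j₀ * a).re) 0 := by
    have h2 : HasDerivAt (fun t : ℝ => j₀.re + t * a.re) a.re 0 := by
      simpa using ((hasDerivAt_id (0 : ℝ)).mul_const a.re).const_add j₀.re
    have h3 : HasDerivAt (fun t : ℝ => j₀.im + t * a.im) a.im 0 := by
      simpa using ((hasDerivAt_id (0 : ℝ)).mul_const a.im).const_add j₀.im
    refine ((h2.pow 2).add (h3.pow 2)).congr_deriv ?_
    simp
    ring
  have h4 : (j₀.re + 0 * a.re) ^ 2 + (j₀.im + 0 * a.im) ^ 2 = ‖j₀‖ ^ 2 := by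
    rw [← Complex.normSq_eq_norm_sq, Complex.normSq_apply]
    ring
  have hn : 0 < ‖j₀‖ := norm_pos_iff.2 hj
  have h5 := h1.sqrt (by rw [h4]; positivity)
  rw [h4, Real.sqrt_sq hn.le] at h5
  have h6 : (fun t : ℝ => ‖j₀ + t * a‖) =
      fun t : ℝ => √((j₀.re + t * a.re) ^ 2 + (j₀.im + t * a.im) ^ 2) := by
    funext t
    rw [Complex.norm_eq_sqrt_sq_add_sq]
    simp
  rw [h6]
  refine h5.congr_deriv ?_
  field_simp

/-- the derivative of the slash along a line -/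
theorem f1_a1_line {f : ℍ → ℂ} {σ : SL(2, ℤ)} {z : ℍ} {D : ℂ →L[ℝ] ℂ}
    (hD : HasFDerivAt (fun z : ℂ => f (ofComplex z)) D ((σ • z : ℍ) : ℂ)) (v : ℂ) :
    HasDerivAt (fun t : ℝ => sl σ f (ofComplex ((z : ℂ) + t * v)))
      (D (1 / f1_a1_j σ z ^ 2 * v) * (((‖f1_a1_j σ z‖ : ℝ) : ℂ) * (f1_a1_j σ z)⁻¹) +
        f (σ • z) * ((((conj (f1_a1_j σ z) * ((σ 1 0 : ℤ) * v)).re / ‖f1_a1_j σ z‖ : ℝ) : ℂ) *
          (f1_a1_j σ z)⁻¹ + ((‖f1_a1_j σ z‖ : ℝ) : ℂ) *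
          (-((σ 1 0 : ℤ) * v) / f1_a1_j σ z ^ 2))) 0 := by
  have hj := f1_a1_den σ z
  have h0 : (z : ℂ) + (0 : ℝ) * v = z := by simp
  have hl : HasDerivAt (fun t : ℝ => (z : ℂ) + t * v) v 0 := by
    simpa using ((Complex.ofRealCLM.hasDerivAt (x := 0)).mul_const v).const_add (z : ℂ)
  -- the first factor
  have hm : HasDerivAt (f1_a1_m σ) (1 / f1_a1_j σ z ^ 2) ((z : ℂ) + (0 : ℝ) * v) := by
    rw [h0]
    exact f1_a1_der σ z.im_pos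
  have hmf : HasFDerivAt (f1_a1_m σ) ((ContinuousLinearMap.toSpanSingleton ℂ
      (1 / f1_a1_j σ z ^ 2)).restrictScalars ℝ) ((z : ℂ) + (0 : ℝ) * v) :=
    hm.hasFDerivAt.restrictScalars ℝ
  have h1 : HasDerivAt (fun t : ℝ => f1_a1_m σ ((z : ℂ) + t * v)) (1 / f1_a1_j σ z ^ 2 * v) 0 := by
    have h1' := hmf.comp_hasDerivAt (0 : ℝ) hl
    exact h1'.congr_deriv (by simp [mul_comm])
  have h2 : HasDerivAt (fun t : ℝ => f (ofComplex (f1_a1_m σ ((z : ℂ) + t * v))))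
      (D (1 / f1_a1_j σ z ^ 2 * v)) 0 := by
    have hD' : HasFDerivAt (fun z : ℂ => f (ofComplex z)) D (f1_a1_m σ ((z : ℂ) + (0 : ℝ) * v)) := by
      rw [h0, ← f1_a1_coe]
      exact hD
    exact hD'.comp_hasDerivAt (0 : ℝ) h1
  -- the automorphy factor
  have hjl : ∀ t : ℝ, f1_a1_j σ ((z : ℂ) + t * v) = f1_a1_j σ z + t * ((σ 1 0 : ℤ) * v) := by
    intro t
    unfold f1_a1_j
    ring
  have h3 : HasDerivAt (fun t : ℝ => f1_a1_j σ ((z : ℂ) + t * v)) ((σ 1 0 : ℤ) * v) 0 := by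
    simp only [hjl]
    simpa using ((Complex.ofRealCLM.hasDerivAt (x := 0)).mul_const
      (((σ 1 0 : ℤ) : ℂ) * v)).const_add (f1_a1_j σ z)
  have h4 : HasDerivAt (fun t : ℝ => (f1_a1_j σ ((z : ℂ) + t * v))⁻¹)
      (-((σ 1 0 : ℤ) * v) / f1_a1_j σ z ^ 2) 0 := by
    have h5 := h3.inv (by rw [h0]; exact hj)
    rw [h0] at h5
    exact h5
  have h5 : HasDerivAt (fun t : ℝ => ((‖f1_a1_j σ ((z : ℂ) + t * v)‖ : ℝ) : ℂ))
      (((conj (f1_a1_j σ z) * ((σ 1 0 : ℤ) * v)).re / ‖f1_a1_j σ z‖ : ℝ) : ℂ) 0 := by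
    simp only [hjl]
    exact (f1_a1_norm hj _).ofReal_comp
  have h6 := h2.mul (h5.mul h4)
  have h7 : (fun t : ℝ => sl σ f (ofComplex ((z : ℂ) + t * v))) =ᶠ[𝓝 0]
      (fun t : ℝ => f (ofComplex (f1_a1_m σ ((z : ℂ) + t * v)))) *
        ((fun t : ℝ => ((‖f1_a1_j σ ((z : ℂ) + t * v)‖ : ℝ) : ℂ)) *
          fun t : ℝ => (f1_a1_j σ ((z : ℂ) + t * v))⁻¹) := by
    have h8 : ContinuousAt (fun t : ℝ => (z : ℂ) + t * v) 0 := hl.continuousAt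
    have h9 : {w : ℂ | 0 < w.im} ∈ 𝓝 ((z : ℂ) + (0 : ℝ) * v) := by
      rw [h0]
      exact f1_a1_open.mem_nhds z.im_pos
    filter_upwards [h8.preimage_mem_nhds h9] with t ht
    exact f1_a1_sl f σ ht
  refine (h6.congr_of_eventuallyEq h7).congr_deriv ?_
  simp only [Pi.mul_apply, h0]
  rw [← f1_a1_coe, ofComplex_apply]

theorem f1_a1_lin (D : ℂ →L[ℝ] ℂ) (μ : ℂ) : I * D μ - D (μ * I) = conj μ * (I * D 1 - D I) := by
  have h1 : D μ = μ.re * D 1 + μ.im * D I := by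
    have h : μ = μ.re • (1 : ℂ) + μ.im • I := by
      apply Complex.ext <;> simp
    conv_lhs => rw [h]
    rw [map_add, map_smul, map_smul]
    simp
  have h2 : D (μ * I) = -(μ.im * D 1) + μ.re * D I := by
    have h : μ * I = -(μ.im • (1 : ℂ)) + μ.re • I := by
      apply Complex.ext <;> simp
    conv_lhs => rw [h]
    rw [map_add, map_neg, map_smul, map_smul]
    simp
  have h3 : conj μ = μ.re - μ.im * I := by
    apply Complex.ext <;> simp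
  rw [h1, h2, h3]
  linear_combination (μ.im : ℂ) * D 1 * Complex.I_mul_I

theorem Lo_sl_pr {f : ℍ → ℂ} (hf : ContDiffOn ℝ 2 (fun z : ℂ => f (ofComplex z)) {z | 0 < z.im})
    (σ : SL(2, ℤ)) (z : ℍ) : Lo (sl σ f) z = Lo f (σ • z) * (denom σ z / ‖denom σ z‖) := by
  have hd : DifferentiableAt ℝ (fun z : ℂ => f (ofComplex z)) ((σ • z : ℍ) : ℂ) :=
    (hf.differentiableOn (by norm_num)).differentiableAt (f1_a1_open.mem_nhds (σ • z).im_pos)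
  set D := fderiv ℝ (fun z : ℂ => f (ofComplex z)) ((σ • z : ℍ) : ℂ) with hDd
  have hD : HasFDerivAt (fun z : ℂ => f (ofComplex z)) D ((σ • z : ℍ) : ℂ) := hd.hasFDerivAt
  set w : ℍ := σ • z with hw
  have hX : dX f w = D 1 := by
    unfold dX
    have h2 : HasDerivAt (fun t : ℝ => (w : ℂ) + t) 1 0 :=
      (Complex.ofRealCLM.hasDerivAt (x := 0)).const_add (w : ℂ)
    have h3 : HasFDerivAt (fun z : ℂ => f (ofComplex z)) D ((w : ℂ) + (0 : ℝ)) := by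
      simpa using hD
    exact (h3.comp_hasDerivAt (0 : ℝ) h2).deriv
  have hY : dY f w = D I := by
    unfold dY
    have h2 : HasDerivAt (fun t : ℝ => (w : ℂ) + t * I) I 0 := by
      simpa using ((Complex.ofRealCLM.hasDerivAt (x := 0)).mul_const I).const_add (w : ℂ)
    have h3 : HasFDerivAt (fun z : ℂ => f (ofComplex z)) D ((w : ℂ) + (0 : ℝ) * I) := by
      simpa using hD
    exact (h3.comp_hasDerivAt (0 : ℝ) h2).deriv
  have hX' := (f1_a1_line hD 1).deriv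
  have hY' := (f1_a1_line hD I).deriv
  have eX : dX (sl σ f) z = deriv (fun t : ℝ => sl σ f (ofComplex ((z : ℂ) + t * 1))) 0 := by
    unfold dX
    simp only [mul_one]
  have eY : dY (sl σ f) z = deriv (fun t : ℝ => sl σ f (ofComplex ((z : ℂ) + t * I))) 0 := rfl
  set j := f1_a1_j σ z with hjd
  have hj : j ≠ 0 := f1_a1_den σ z
  have hn : 0 < ‖j‖ := norm_pos_iff.2 hj
  have hn' : ((‖j‖ : ℝ) : ℂ) ≠ 0 := by exact_mod_cast hn.ne'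
  have hcj : conj j ≠ 0 := by simpa using hj
  have hsq : ((‖j‖ : ℝ) : ℂ) ^ 2 = conj j * j := by
    rw [mul_comm, Complex.mul_conj, Complex.normSq_eq_norm_sq]
    push_cast
    rfl
  have him : ((w.im : ℝ) : ℂ) = z.im / (conj j * j) := by
    rw [hw, ModularGroup.im_smul_eq_div_normSq, f1_a1_denom, ← hjd, ← hsq,
      Complex.normSq_eq_norm_sq]
    push_cast
    rfl
  have hji : j - conj j = 2 * I * ((σ 1 0 : ℤ) * z.im) := by
    rw [hjd]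
    unfold f1_a1_j
    apply Complex.ext <;> simp
    ring
  have hL := f1_a1_lin D (1 / j ^ 2)
  have hc : conj (1 / j ^ 2) = 1 / (conj j) ^ 2 := by simp
  rw [hc] at hL
  have hz : sl σ f z = f w * (((‖j‖ : ℝ) : ℂ) * j⁻¹) := by
    unfold sl
    rw [f1_a1_denom, inv_div]
    rfl
  have hr1 : ((conj j * ((σ 1 0 : ℤ) * (1 : ℂ))).re : ℝ) = (σ 1 0 : ℤ) * j.re := by
    simp
    ring
  have hr2 : ((conj j * ((σ 1 0 : ℤ) * I)).re : ℝ) = (σ 1 0 : ℤ) * j.im := by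
    simp
    ring
  rw [hr1] at hX'
  rw [hr2] at hY'
  have hjj : j = j.re + j.im * I := (Complex.re_add_im j).symm
  unfold Lo
  rw [eX, eY, hX', hY', hX, hY, hz, him, f1_a1_denom, ← hjd, mul_one]
  have key : I * (D (1 / j ^ 2) * (((‖j‖ : ℝ) : ℂ) * j⁻¹) +
        f w * ((((σ 1 0 : ℤ) * j.re / ‖j‖ : ℝ) : ℂ) * j⁻¹ + ((‖j‖ : ℝ) : ℂ) *
          (-((σ 1 0 : ℤ) * (1 : ℂ)) / j ^ 2))) -
      (D (1 / j ^ 2 * I) * (((‖j‖ : ℝ) : ℂ) * j⁻¹) +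
        f w * ((((σ 1 0 : ℤ) * j.im / ‖j‖ : ℝ) : ℂ) * j⁻¹ + ((‖j‖ : ℝ) : ℂ) *
          (-((σ 1 0 : ℤ) * I) / j ^ 2))) =
      1 / (conj j) ^ 2 * (I * D 1 - D I) * (((‖j‖ : ℝ) : ℂ) * j⁻¹) +
        f w * (I * (σ 1 0 : ℤ) / ‖j‖) := by
    rw [← hL]
    have e1 : I * (j.re : ℂ) - j.im = I * j := by
      conv_rhs => rw [hjj]
      linear_combination (-(j.im : ℂ)) * Complex.I_mul_I
    push_cast
    have e2 : I * (((σ 1 0 : ℤ) : ℂ) * j.re / ‖j‖ * j⁻¹) - ((σ 1 0 : ℤ) : ℂ) * j.im / ‖j‖ * j⁻¹ =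
        I * (σ 1 0 : ℤ) / ‖j‖ := by
      have : I * (((σ 1 0 : ℤ) : ℂ) * j.re / ‖j‖ * j⁻¹) - ((σ 1 0 : ℤ) : ℂ) * j.im / ‖j‖ * j⁻¹ =
          ((σ 1 0 : ℤ) : ℂ) * (I * (j.re : ℂ) - j.im) / ‖j‖ * j⁻¹ := by ring
      rw [this, e1]
      field_simp
    linear_combination f w * e2
  rw [key]
  have hcj2 : conj j = j - 2 * I * ((σ 1 0 : ℤ) * z.im) := by
    rw [← hji]; ring
  have e3 : ((‖j‖ : ℝ) : ℂ) * j⁻¹ = conj j / ‖j‖ := by
    field_simp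
    rw [hsq]
    exact mul_comm _ _
  rw [e3]
  have e4 : f w * (conj j / ‖j‖) / 2 + z.im * (f w * (I * (σ 1 0 : ℤ) / ‖j‖)) =
      f w / 2 * (j / ‖j‖) := by
    rw [hcj2]
    field_simp
    ring
  have e5 : (z.im : ℂ) * (1 / (conj j) ^ 2 * (I * D 1 - D I) * (conj j / ‖j‖)) =
      z.im / (conj j * j) * (I * D 1 - D I) * (j / ‖j‖) := by
    field_simp
  linear_combination e4 + e5

/-- the reflection -/
theorem f1_a1_r (z : ℍ) : ((pz (-z.re) z.im : ℍ) : ℂ) = -conj (z : ℂ) := by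
  unfold pz
  rw [ofComplex_apply_of_im_pos (by simpa using z.im_pos)]
  apply Complex.ext <;> simp

theorem Qo_sl_pr {f : ℍ → ℂ} (hf : ContDiffOn ℝ 2 (fun z : ℂ => f (ofComplex z)) {z | 0 < z.im})
    (σ : SL(2, ℤ)) : ∃ τ : SL(2, ℤ), τ 0 0 = σ 0 0 ∧ τ 0 1 = -σ 0 1 ∧ τ 1 0 = -σ 1 0 ∧
      τ 1 1 = σ 1 1 ∧ ∀ z, sl σ (Qo f) z = Qo (sl τ f) z := by
  have hdet := σ.det_coe
  rw [Matrix.det_fin_two] at hdet
  obtain ⟨τ, h00, h01, h10, h11⟩ : ∃ τ : SL(2, ℤ), τ 0 0 = σ 0 0 ∧ τ 0 1 = -σ 0 1 ∧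
      τ 1 0 = -σ 1 0 ∧ τ 1 1 = σ 1 1 :=
    ⟨⟨!![σ 0 0, -σ 0 1; -σ 1 0, σ 1 1], by
      rw [Matrix.det_fin_two_of]
      linarith⟩, rfl, rfl, rfl, rfl⟩
  refine ⟨τ, h00, h01, h10, h11, fun z => ?_⟩
  set r : ℍ := pz (-z.re) z.im with hr
  have hrc : (r : ℂ) = -conj (z : ℂ) := f1_a1_r z
  have hden : denom τ r = conj (denom σ z) := by
    rw [f1_a1_denom, f1_a1_denom, hrc]
    unfold f1_a1_j
    rw [h10, h11]
    simp
  have hsm : τ • r = pz (-(σ • z).re) (σ • z).im := by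
    apply UpperHalfPlane.ext
    rw [f1_a1_r, f1_a1_coe, f1_a1_coe, hrc]
    unfold f1_a1_m
    rw [h00, h01, h10, h11]
    simp only [map_div₀, map_add, map_mul]
    push_cast
    simp only [map_intCast]
    rw [← neg_div]
    congr 1 <;> ring
  have h1 : Qo (sl τ f) z = Lo (sl τ f) r := rfl
  rw [h1, Lo_sl_pr hf, hsm, hden]
  have h2 : sl σ (Qo f) z = Lo f (pz (-(σ • z).re) (σ • z).im) * (denom σ z / ‖denom σ z‖)⁻¹ := rfl
  rw [h2]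
  congr 1
  have h3 : denom σ z ≠ 0 := denom_ne_zero σ z
  set j := denom σ z with hj
  have hn : ((‖j‖ : ℝ) : ℂ) ≠ 0 := by exact_mod_cast (norm_pos_iff.2 h3).ne'
  have hsq : ((‖j‖ : ℝ) : ℂ) ^ 2 = conj j * j := by
    rw [mul_comm, Complex.mul_conj, Complex.normSq_eq_norm_sq]
    push_cast
    rfl
  rw [RCLike.norm_conj, inv_div, div_eq_div_iff h3 hn, ← hsq]
  ring


end Pool.Agent.JO.FM1

namespace Pool.Agent.JO.FM1

theorem sl_mul : type_of% @sl_mul_pr := @sl_mul_pr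
theorem sl_smooth : type_of% @sl_smooth_pr := @sl_smooth_pr
theorem Lo_sl : type_of% @Lo_sl_pr := @Lo_sl_pr
theorem Qo_sl : type_of% @Qo_sl_pr := @Qo_sl_pr

end Pool.Agent.JO.FM1
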