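import Pool.Agent.Lib_helper42.JO1.Defs
import Pool.Agent.Lib_helper45.JO.Defs2
import Pool.Agent.Lib_helper42.JO1F.A1

/-! Project JO, part FM1, block A2: the Laplacian of weight 1 and the slash operator. -/

set_option autoImplicit false

namespace Pool.Agent.JO.FM1

open Complex Filter Topology MeasureTheory Set
open UpperHalfPlane hiding I
open Pool.Agent.JO.FM
open scoped MatrixGroups ComplexConjugate

theorem f1_A2_open : IsOpen {z : ℂ | 0 < z.im} := isOpen_lt continuous_const Complex.continuous_im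

/-- the Moebius transformation -/
noncomputable def f1_A2_m (σ : SL(2, ℤ)) (w : ℂ) : ℂ :=
  ((σ 0 0 : ℤ) * w + (σ 0 1 : ℤ)) / ((σ 1 0 : ℤ) * w + (σ 1 1 : ℤ))

/-- the automorphy factor -/
noncomputable def f1_A2_j (σ : SL(2, ℤ)) (w : ℂ) : ℂ := (σ 1 0 : ℤ) * w + (σ 1 1 : ℤ)

theorem f1_A2_coe (σ : SL(2, ℤ)) (z : ℍ) : ((σ • z : ℍ) : ℂ) = f1_A2_m σ z := by
  rw [coe_specialLinearGroup_apply]
  unfold f1_A2_m
  simp

theorem f1_A2_denom (σ : SL(2, ℤ)) (z : ℍ) : denom σ z = f1_A2_j σ z := by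
  rw [ModularGroup.denom_apply]
  rfl

theorem f1_A2_den (σ : SL(2, ℤ)) (z : ℍ) : f1_A2_j σ z ≠ 0 := by
  rw [← f1_A2_denom]
  exact UpperHalfPlane.denom_ne_zero (σ : GL (Fin 2) ℝ) z

theorem f1_A2_den' (σ : SL(2, ℤ)) {w : ℂ} (hw : 0 < w.im) : f1_A2_j σ w ≠ 0 :=
  f1_A2_den σ ⟨w, hw⟩

theorem f1_A2_der (σ : SL(2, ℤ)) {w : ℂ} (hw : 0 < w.im) :
    HasDerivAt (f1_A2_m σ) (1 / f1_A2_j σ w ^ 2) w := by
  have h1 : HasDerivAt (fun w : ℂ => ((σ 0 0 : ℤ) : ℂ) * w + (σ 0 1 : ℤ)) (σ 0 0 : ℤ) w := by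
    simpa using ((hasDerivAt_id w).const_mul ((σ 0 0 : ℤ) : ℂ)).add_const ((σ 0 1 : ℤ) : ℂ)
  have h2 : HasDerivAt (fun w : ℂ => ((σ 1 0 : ℤ) : ℂ) * w + (σ 1 1 : ℤ)) (σ 1 0 : ℤ) w := by
    simpa using ((hasDerivAt_id w).const_mul ((σ 1 0 : ℤ) : ℂ)).add_const ((σ 1 1 : ℤ) : ℂ)
  refine (h1.div h2 (f1_A2_den' σ hw)).congr_deriv ?_
  unfold f1_A2_j
  congr 1
  have hdet := σ.det_coe
  rw [Matrix.det_fin_two] at hdet
  have hdet' : ((σ 0 0 : ℤ) : ℂ) * (σ 1 1 : ℤ) - (σ 0 1 : ℤ) * (σ 1 0 : ℤ) = 1 := by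
    exact_mod_cast hdet
  linear_combination hdet'

theorem f1_A2_comp (f : ℍ → ℂ) (σ : SL(2, ℤ)) {w : ℂ} (hw : 0 < w.im) :
    f (σ • ofComplex w) = f (ofComplex (f1_A2_m σ w)) := by
  congr 1
  have h1 : w = ((ofComplex w : ℍ) : ℂ) := by
    rw [ofComplex_apply_of_im_pos hw]
  conv_rhs => rw [h1, ← f1_A2_coe, ofComplex_apply]

theorem f1_A2_sl (f : ℍ → ℂ) (σ : SL(2, ℤ)) {w : ℂ} (hw : 0 < w.im) :
    sl σ f (ofComplex w) = f (ofComplex (f1_A2_m σ w)) *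
      (((‖f1_A2_j σ w‖ : ℝ) : ℂ) * (f1_A2_j σ w)⁻¹) := by
  unfold sl
  rw [f1_A2_comp f σ hw, f1_A2_denom, ofComplex_apply_of_im_pos hw, inv_div]
  rfl

theorem f1_A2_maps (σ : SL(2, ℤ)) {w : ℂ} (hw : 0 < w.im) : 0 < (f1_A2_m σ w).im := by
  have h := (σ • (⟨w, hw⟩ : ℍ)).im_pos
  have h2 := f1_A2_coe σ ⟨w, hw⟩
  rw [← UpperHalfPlane.coe_im, h2] at h
  exact h

/-- the derivative of the norm along a line -/
theorem f1_A2_norm {j₀ : ℂ} (hj : j₀ ≠ 0) (a : ℂ) :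
    HasDerivAt (fun t : ℝ => ‖j₀ + t * a‖) ((conj j₀ * a).re / ‖j₀‖) 0 := by
  have h1 : HasDerivAt (fun t : ℝ => (j₀.re + t * a.re) ^ 2 + (j₀.im + t * a.im) ^ 2)
      (2 * (conj j₀ * a).re) 0 := by
    have h2 : HasDerivAt (fun t : ℝ => j₀.re + t * a.re) a.re 0 := by
      simpa using ((hasDerivAt_id (0 : ℝ)).mul_const a.re).const_add j₀.re
    have h3 : HasDerivAt (fun t : ℝ => j₀.im + t * a.im) a.im 0 := by
      simpa using ((hasDerivAt_id (0 : ℝ)).mul_const a.im).const_add j₀.im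
    refine ((h2.pow 2).add (h3.pow 2)).congr_deriv ?_
    simp
    ring
  have h4 : (j₀.re + 0 * a.re) ^ 2 + (j₀.im + 0 * a.im) ^ 2 = ‖j₀‖ ^ 2 := by
    rw [← Complex.normSq_eq_norm_sq, Complex.normSq_apply]
    ring
  have hn : 0 < ‖j₀‖ := norm_pos_iff.2 hj
  have h5 := h1.sqrt (by rw [h4]; positivity)
  rw [h4, Real.sqrt_sq hn.le] at h5
  have h6 : (fun t : ℝ => ‖j₀ + t * a‖) =
      fun t : ℝ => √((j₀.re + t * a.re) ^ 2 + (j₀.im + t * a.im) ^ 2) := by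
    funext t
    rw [Complex.norm_eq_sqrt_sq_add_sq]
    simp
  rw [h6]
  refine h5.congr_deriv ?_
  field_simp

/-- the derivative of the slash along a line -/
theorem f1_A2_line {f : ℍ → ℂ} {σ : SL(2, ℤ)} {z : ℍ} {D : ℂ →L[ℝ] ℂ}
    (hD : HasFDerivAt (fun z : ℂ => f (ofComplex z)) D ((σ • z : ℍ) : ℂ)) (v : ℂ) :
    HasDerivAt (fun t : ℝ => sl σ f (ofComplex ((z : ℂ) + t * v)))
      (D (1 / f1_A2_j σ z ^ 2 * v) * (((‖f1_A2_j σ z‖ : ℝ) : ℂ) * (f1_A2_j σ z)⁻¹) +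
        f (σ • z) * ((((conj (f1_A2_j σ z) * ((σ 1 0 : ℤ) * v)).re / ‖f1_A2_j σ z‖ : ℝ) : ℂ) *
          (f1_A2_j σ z)⁻¹ + ((‖f1_A2_j σ z‖ : ℝ) : ℂ) *
          (-((σ 1 0 : ℤ) * v) / f1_A2_j σ z ^ 2))) 0 := by
  have hj := f1_A2_den σ z
  have h0 : (z : ℂ) + (0 : ℝ) * v = z := by simp
  have hl : HasDerivAt (fun t : ℝ => (z : ℂ) + t * v) v 0 := by
    simpa using ((Complex.ofRealCLM.hasDerivAt (x := 0)).mul_const v).const_add (z : ℂ)
  -- the first factor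
  have hm : HasDerivAt (f1_A2_m σ) (1 / f1_A2_j σ z ^ 2) ((z : ℂ) + (0 : ℝ) * v) := by
    rw [h0]
    exact f1_A2_der σ z.im_pos
  have hmf : HasFDerivAt (f1_A2_m σ) ((ContinuousLinearMap.toSpanSingleton ℂ
      (1 / f1_A2_j σ z ^ 2)).restrictScalars ℝ) ((z : ℂ) + (0 : ℝ) * v) :=
    hm.hasFDerivAt.restrictScalars ℝ
  have h1 : HasDerivAt (fun t : ℝ => f1_A2_m σ ((z : ℂ) + t * v)) (1 / f1_A2_j σ z ^ 2 * v) 0 := by
    have h1' := hmf.comp_hasDerivAt (0 : ℝ) hl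
    exact h1'.congr_deriv (by simp [mul_comm])
  have h2 : HasDerivAt (fun t : ℝ => f (ofComplex (f1_A2_m σ ((z : ℂ) + t * v))))
      (D (1 / f1_A2_j σ z ^ 2 * v)) 0 := by
    have hD' : HasFDerivAt (fun z : ℂ => f (ofComplex z)) D (f1_A2_m σ ((z : ℂ) + (0 : ℝ) * v)) := by
      rw [h0, ← f1_A2_coe]
      exact hD
    exact hD'.comp_hasDerivAt (0 : ℝ) h1
  -- the automorphy factor
  have hjl : ∀ t : ℝ, f1_A2_j σ ((z : ℂ) + t * v) = f1_A2_j σ z + t * ((σ 1 0 : ℤ) * v) := by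
    intro t
    unfold f1_A2_j
    ring
  have h3 : HasDerivAt (fun t : ℝ => f1_A2_j σ ((z : ℂ) + t * v)) ((σ 1 0 : ℤ) * v) 0 := by
    simp only [hjl]
    simpa using ((Complex.ofRealCLM.hasDerivAt (x := 0)).mul_const
      (((σ 1 0 : ℤ) : ℂ) * v)).const_add (f1_A2_j σ z)
  have h4 : HasDerivAt (fun t : ℝ => (f1_A2_j σ ((z : ℂ) + t * v))⁻¹)
      (-((σ 1 0 : ℤ) * v) / f1_A2_j σ z ^ 2) 0 := by
    have h5 := h3.inv (by rw [h0]; exact hj)
    rw [h0] at h5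
    exact h5
  have h5 : HasDerivAt (fun t : ℝ => ((‖f1_A2_j σ ((z : ℂ) + t * v)‖ : ℝ) : ℂ))
      (((conj (f1_A2_j σ z) * ((σ 1 0 : ℤ) * v)).re / ‖f1_A2_j σ z‖ : ℝ) : ℂ) 0 := by
    simp only [hjl]
    exact (f1_A2_norm hj _).ofReal_comp
  have h6 := h2.mul (h5.mul h4)
  have h7 : (fun t : ℝ => sl σ f (ofComplex ((z : ℂ) + t * v))) =ᶠ[𝓝 0]
      (fun t : ℝ => f (ofComplex (f1_A2_m σ ((z : ℂ) + t * v)))) *
        ((fun t : ℝ => ((‖f1_A2_j σ ((z : ℂ) + t * v)‖ : ℝ) : ℂ)) *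
          fun t : ℝ => (f1_A2_j σ ((z : ℂ) + t * v))⁻¹) := by
    have h8 : ContinuousAt (fun t : ℝ => (z : ℂ) + t * v) 0 := hl.continuousAt
    have h9 : {w : ℂ | 0 < w.im} ∈ 𝓝 ((z : ℂ) + (0 : ℝ) * v) := by
      rw [h0]
      exact f1_A2_open.mem_nhds z.im_pos
    filter_upwards [h8.preimage_mem_nhds h9] with t ht
    exact f1_A2_sl f σ ht
  refine (h6.congr_of_eventuallyEq h7).congr_deriv ?_
  simp only [Pi.mul_apply, h0]
  rw [← f1_A2_coe, ofComplex_apply]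

theorem f1_A2_lin (D : ℂ →L[ℝ] ℂ) (μ : ℂ) : I * D μ - D (μ * I) = conj μ * (I * D 1 - D I) := by
  have h1 : D μ = μ.re * D 1 + μ.im * D I := by
    have h : μ = μ.re • (1 : ℂ) + μ.im • I := by
      apply Complex.ext <;> simp
    conv_lhs => rw [h]
    rw [map_add, map_smul, map_smul]
    simp
  have h2 : D (μ * I) = -(μ.im * D 1) + μ.re * D I := by
    have h : μ * I = -(μ.im • (1 : ℂ)) + μ.re • I := by
      apply Complex.ext <;> simp
    conv_lhs => rw [h]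
    rw [map_add, map_neg, map_smul, map_smul]
    simp
  have h3 : conj μ = μ.re - μ.im * I := by
    apply Complex.ext <;> simp
  rw [h1, h2, h3]
  linear_combination (μ.im : ℂ) * D 1 * Complex.I_mul_I

theorem f1_A2_Lo {f : ℍ → ℂ} (σ : SL(2, ℤ)) (z : ℍ)
    (hd : DifferentiableAt ℝ (fun z : ℂ => f (ofComplex z)) ((σ • z : ℍ) : ℂ)) : Lo (sl σ f) z = Lo f (σ • z) * (denom σ z / ‖denom σ z‖) := by
  set D := fderiv ℝ (fun z : ℂ => f (ofComplex z)) ((σ • z : ℍ) : ℂ) with hDd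
  have hD : HasFDerivAt (fun z : ℂ => f (ofComplex z)) D ((σ • z : ℍ) : ℂ) := hd.hasFDerivAt
  set w : ℍ := σ • z with hw
  have hX : dX f w = D 1 := by
    unfold dX
    have h2 : HasDerivAt (fun t : ℝ => (w : ℂ) + t) 1 0 :=
      (Complex.ofRealCLM.hasDerivAt (x := 0)).const_add (w : ℂ)
    have h3 : HasFDerivAt (fun z : ℂ => f (ofComplex z)) D ((w : ℂ) + (0 : ℝ)) := by
      simpa using hD
    exact (h3.comp_hasDerivAt (0 : ℝ) h2).deriv
  have hY : dY f w = D I := by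
    unfold dY
    have h2 : HasDerivAt (fun t : ℝ => (w : ℂ) + t * I) I 0 := by
      simpa using ((Complex.ofRealCLM.hasDerivAt (x := 0)).mul_const I).const_add (w : ℂ)
    have h3 : HasFDerivAt (fun z : ℂ => f (ofComplex z)) D ((w : ℂ) + (0 : ℝ) * I) := by
      simpa using hD
    exact (h3.comp_hasDerivAt (0 : ℝ) h2).deriv
  have hX' := (f1_A2_line hD 1).deriv
  have hY' := (f1_A2_line hD I).deriv
  have eX : dX (sl σ f) z = deriv (fun t : ℝ => sl σ f (ofComplex ((z : ℂ) + t * 1))) 0 := by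
    unfold dX
    simp only [mul_one]
  have eY : dY (sl σ f) z = deriv (fun t : ℝ => sl σ f (ofComplex ((z : ℂ) + t * I))) 0 := rfl
  set j := f1_A2_j σ z with hjd
  have hj : j ≠ 0 := f1_A2_den σ z
  have hn : 0 < ‖j‖ := norm_pos_iff.2 hj
  have hn' : ((‖j‖ : ℝ) : ℂ) ≠ 0 := by exact_mod_cast hn.ne'
  have hcj : conj j ≠ 0 := by simpa using hj
  have hsq : ((‖j‖ : ℝ) : ℂ) ^ 2 = conj j * j := by
    rw [mul_comm, Complex.mul_conj, Complex.normSq_eq_norm_sq]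
    push_cast
    rfl
  have him : ((w.im : ℝ) : ℂ) = z.im / (conj j * j) := by
    rw [hw, ModularGroup.im_smul_eq_div_normSq, f1_A2_denom, ← hjd, ← hsq,
      Complex.normSq_eq_norm_sq]
    push_cast
    rfl
  have hji : j - conj j = 2 * I * ((σ 1 0 : ℤ) * z.im) := by
    rw [hjd]
    unfold f1_A2_j
    apply Complex.ext <;> simp
    ring
  have hL := f1_A2_lin D (1 / j ^ 2)
  have hc : conj (1 / j ^ 2) = 1 / (conj j) ^ 2 := by simp
  rw [hc] at hL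
  have hz : sl σ f z = f w * (((‖j‖ : ℝ) : ℂ) * j⁻¹) := by
    unfold sl
    rw [f1_A2_denom, inv_div]
    rfl
  have hr1 : ((conj j * ((σ 1 0 : ℤ) * (1 : ℂ))).re : ℝ) = (σ 1 0 : ℤ) * j.re := by
    simp
    ring
  have hr2 : ((conj j * ((σ 1 0 : ℤ) * I)).re : ℝ) = (σ 1 0 : ℤ) * j.im := by
    simp
    ring
  rw [hr1] at hX'
  rw [hr2] at hY'
  have hjj : j = j.re + j.im * I := (Complex.re_add_im j).symm
  unfold Lo
  rw [eX, eY, hX', hY', hX, hY, hz, him, f1_A2_denom, ← hjd, mul_one]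
  have key : I * (D (1 / j ^ 2) * (((‖j‖ : ℝ) : ℂ) * j⁻¹) +
        f w * ((((σ 1 0 : ℤ) * j.re / ‖j‖ : ℝ) : ℂ) * j⁻¹ + ((‖j‖ : ℝ) : ℂ) *
          (-((σ 1 0 : ℤ) * (1 : ℂ)) / j ^ 2))) -
      (D (1 / j ^ 2 * I) * (((‖j‖ : ℝ) : ℂ) * j⁻¹) +
        f w * ((((σ 1 0 : ℤ) * j.im / ‖j‖ : ℝ) : ℂ) * j⁻¹ + ((‖j‖ : ℝ) : ℂ) *
          (-((σ 1 0 : ℤ) * I) / j ^ 2))) =
      1 / (conj j) ^ 2 * (I * D 1 - D I) * (((‖j‖ : ℝ) : ℂ) * j⁻¹) +
        f w * (I * (σ 1 0 : ℤ) / ‖j‖) := by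
    rw [← hL]
    have e1 : I * (j.re : ℂ) - j.im = I * j := by
      conv_rhs => rw [hjj]
      linear_combination (-(j.im : ℂ)) * Complex.I_mul_I
    push_cast
    have e2 : I * (((σ 1 0 : ℤ) : ℂ) * j.re / ‖j‖ * j⁻¹) - ((σ 1 0 : ℤ) : ℂ) * j.im / ‖j‖ * j⁻¹ =
        I * (σ 1 0 : ℤ) / ‖j‖ := by
      have : I * (((σ 1 0 : ℤ) : ℂ) * j.re / ‖j‖ * j⁻¹) - ((σ 1 0 : ℤ) : ℂ) * j.im / ‖j‖ * j⁻¹ =
          ((σ 1 0 : ℤ) : ℂ) * (I * (j.re : ℂ) - j.im) / ‖j‖ * j⁻¹ := by ring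
      rw [this, e1]
      field_simp
    linear_combination f w * e2
  rw [key]
  have hcj2 : conj j = j - 2 * I * ((σ 1 0 : ℤ) * z.im) := by
    rw [← hji]; ring
  have e3 : ((‖j‖ : ℝ) : ℂ) * j⁻¹ = conj j / ‖j‖ := by
    field_simp
    rw [hsq]
    exact mul_comm _ _
  rw [e3]
  have e4 : f w * (conj j / ‖j‖) / 2 + z.im * (f w * (I * (σ 1 0 : ℤ) / ‖j‖)) =
      f w / 2 * (j / ‖j‖) := by
    rw [hcj2]
    field_simp
    ring
  have e5 : (z.im : ℂ) * (1 / (conj j) ^ 2 * (I * D 1 - D I) * (conj j / ‖j‖)) =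
      z.im / (conj j * j) * (I * D 1 - D I) * (j / ‖j‖) := by
    field_simp
  linear_combination e4 + e5

/-- the derivatives in terms of the real differential -/
theorem f1_A2_dir {h : ℍ → ℂ} {H : ℂ → ℂ} (he : ∀ w : ℍ, h w = H w) {z : ℍ}
    (hH : DifferentiableAt ℝ H (z : ℂ)) :
    dX h z = fderiv ℝ H z 1 ∧ dY h z = fderiv ℝ H z I := by
  have key : ∀ w : ℂ, 0 < w.im → h (ofComplex w) = H w := by
    intro w hw
    rw [he, ofComplex_apply_of_im_pos hw]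
  constructor
  · unfold dX
    have h2 : HasDerivAt (fun t : ℝ => (z : ℂ) + t) 1 0 :=
      (Complex.ofRealCLM.hasDerivAt (x := 0)).const_add (z : ℂ)
    have h3 : HasFDerivAt H (fderiv ℝ H (z : ℂ)) ((z : ℂ) + (0 : ℝ)) := by
      simpa using hH.hasFDerivAt
    have h4 := h3.comp_hasDerivAt (0 : ℝ) h2
    have h5 : (fun t : ℝ => h (ofComplex ((z : ℂ) + t))) =ᶠ[𝓝 0] H ∘ fun t : ℝ => (z : ℂ) + t := by
      filter_upwards with t
      apply key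
      simp [z.im_pos]
    exact (h4.congr_of_eventuallyEq h5).deriv
  · unfold dY
    have h2 : HasDerivAt (fun t : ℝ => (z : ℂ) + t * I) I 0 := by
      simpa using ((Complex.ofRealCLM.hasDerivAt (x := 0)).mul_const I).const_add (z : ℂ)
    have h3 : HasFDerivAt H (fderiv ℝ H (z : ℂ)) ((z : ℂ) + (0 : ℝ) * I) := by
      simpa using hH.hasFDerivAt
    have h4 := h3.comp_hasDerivAt (0 : ℝ) h2
    have h5 : (fun t : ℝ => h (ofComplex ((z : ℂ) + t * I))) =ᶠ[𝓝 0]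
        H ∘ fun t : ℝ => (z : ℂ) + t * I := by
      have h6 : Ioi (-z.im) ∈ 𝓝 (0 : ℝ) := Ioi_mem_nhds (by simp [z.im_pos])
      filter_upwards [h6] with t ht
      apply key
      have ht' : -z.im < t := ht
      have : 0 < z.im + t := by linarith
      simpa using this
    exact (h4.congr_of_eventuallyEq h5).deriv

theorem f1_A2_conj (g : ℍ → ℂ) (z : ℍ) : Lo (fun w => conj (g w)) z = -conj (Ra g z) := by
  have h1 : dX (fun w => conj (g w)) z = conj (dX g z) := by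
    unfold dX
    exact deriv.star (f := fun t : ℝ => g (ofComplex ((z : ℂ) + t))) (x := 0)
  have h2 : dY (fun w => conj (g w)) z = conj (dY g z) := by
    unfold dY
    exact deriv.star (f := fun t : ℝ => g (ofComplex ((z : ℂ) + t * I))) (x := 0)
  unfold Lo Ra
  rw [h1, h2]
  simp only [map_add, map_neg, map_mul, map_div₀, Complex.conj_I, Complex.conj_ofReal]
  have h3 : conj (2 : ℂ) = 2 := Complex.conj_ofNat 2
  rw [h3]
  ring

theorem f1_A2_unit (σ : SL(2, ℤ)) (z : ℍ) :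
    conj (denom σ z / ‖denom σ z‖) = (denom σ z / ‖denom σ z‖)⁻¹ := by
  have h3 : denom σ z ≠ 0 := denom_ne_zero σ z
  set j := denom σ z with hj
  have hn : ((‖j‖ : ℝ) : ℂ) ≠ 0 := by exact_mod_cast (norm_pos_iff.2 h3).ne'
  have hsq : ((‖j‖ : ℝ) : ℂ) ^ 2 = conj j * j := by
    rw [mul_comm, Complex.mul_conj, Complex.normSq_eq_norm_sq]
    push_cast
    rfl
  rw [map_div₀, Complex.conj_ofReal, inv_div, div_eq_div_iff hn h3, ← hsq]
  ring

theorem f1_A2_Ra {g : ℍ → ℂ} (σ : SL(2, ℤ)) (z : ℍ)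
    (hd : DifferentiableAt ℝ (fun z : ℂ => g (ofComplex z)) ((σ • z : ℍ) : ℂ)) :
    Ra (fun w => g (σ • w) * (denom σ w / ‖denom σ w‖)) z =
      Ra g (σ • z) * (denom σ z / ‖denom σ z‖)⁻¹ := by
  have h1 : (fun w => conj (g (σ • w) * (denom σ w / ‖denom σ w‖))) =
      sl σ (fun w => conj (g w)) := by
    funext w
    unfold sl
    rw [map_mul, f1_A2_unit]
  have h2 := f1_A2_conj (fun w => g (σ • w) * (denom σ w / ‖denom σ w‖)) z
  rw [h1] at h2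
  have h3 : DifferentiableAt ℝ (fun z : ℂ => (fun w => conj (g w)) (ofComplex z))
      ((σ • z : ℍ) : ℂ) := hd.star
  rw [f1_A2_Lo σ z h3, f1_A2_conj] at h2
  have h4 := congrArg conj h2
  rw [map_mul, f1_A2_unit, map_neg, map_neg, Complex.conj_conj, Complex.conj_conj] at h4
  linear_combination h4

theorem f1_A2_RaLo {f : ℍ → ℂ}
    (hf : ContDiffOn ℝ 2 (fun z : ℂ => f (ofComplex z)) {z | 0 < z.im}) (z : ℍ) :
    DifferentiableAt ℝ (fun z : ℂ => Lo f (ofComplex z)) (z : ℂ) ∧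
      Ra (Lo f) z = -lap 1 f z - f z / 4 := by
  set F : ℂ → ℂ := fun z : ℂ => f (ofComplex z) with hF
  have h1 : ∀ w : ℍ, DifferentiableAt ℝ F (w : ℂ) := fun w =>
    (hf.differentiableOn (by norm_num)).differentiableAt (f1_A2_open.mem_nhds w.im_pos)
  have h2 : ∀ w : ℍ, f w = F w := fun w => by rw [hF]; simp
  have h3 : DifferentiableAt ℝ (fderiv ℝ F) (z : ℂ) := by
    have := (hf.fderiv_of_isOpen f1_A2_open (m := 1) (by norm_num)).differentiableOn (by norm_num)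
    exact this.differentiableAt (f1_A2_open.mem_nhds z.im_pos)
  have h4 : ∀ v : ℂ, HasFDerivAt (fun w => fderiv ℝ F w v)
      ((fderiv ℝ (fderiv ℝ F) (z : ℂ)).flip v) (z : ℂ) := fun v => by
    have := h3.hasFDerivAt.clm_apply (hasFDerivAt_const v (z : ℂ))
    refine this.congr_fderiv ?_
    ext w
    simp
  have hsymm : fderiv ℝ (fderiv ℝ F) (z : ℂ) I 1 = fderiv ℝ (fderiv ℝ F) (z : ℂ) 1 I := by
    have h5 : ContDiffAt ℝ 2 F (z : ℂ) := hf.contDiffAt (f1_A2_open.mem_nhds z.im_pos)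
    exact (h5.isSymmSndFDerivAt (by simp)) I 1
  set B := fderiv ℝ (fderiv ℝ F) (z : ℂ) with hB
  set H : ℂ → ℂ := fun w => F w / 2 + (w.im : ℂ) * (I * fderiv ℝ F w 1 - fderiv ℝ F w I) with hH
  have h5 : ∀ w : ℍ, Lo f w = H w := by
    intro w
    have h6 := f1_A2_dir h2 (h1 w)
    unfold Lo
    rw [h6.1, h6.2, h2 w]
    rfl
  have him : HasFDerivAt (fun w : ℂ => (w.im : ℂ)) (Complex.ofRealCLM.comp Complex.imCLM)
      (z : ℂ) := (Complex.ofRealCLM.comp Complex.imCLM).hasFDerivAt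
  have h7 : HasFDerivAt H ((2 : ℝ)⁻¹ • fderiv ℝ F (z : ℂ) +
      (((z : ℂ).im : ℂ) • (I • B.flip 1 - B.flip I) +
        (I * fderiv ℝ F (z : ℂ) 1 - fderiv ℝ F (z : ℂ) I) •
          (Complex.ofRealCLM.comp Complex.imCLM))) (z : ℂ) := by
    have e1 : HasFDerivAt (fun w => F w / 2) ((2 : ℝ)⁻¹ • fderiv ℝ F (z : ℂ)) (z : ℂ) := by
      have e2 : (fun w => F w / 2) = fun w => (2 : ℝ)⁻¹ • F w := by
        funext w
        rw [Complex.real_smul]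
        push_cast
        ring
      rw [e2]
      exact (h1 z).hasFDerivAt.const_smul ((2 : ℝ)⁻¹)
    exact e1.add (him.mul (((h4 1).const_mul I).sub (h4 I)))
  have h8 : (fun w : ℂ => Lo f (ofComplex w)) =ᶠ[𝓝 (z : ℂ)] H := by
    filter_upwards [f1_A2_open.mem_nhds z.im_pos] with w hw
    rw [h5, ofComplex_apply_of_im_pos hw]
  refine ⟨(h7.congr_of_eventuallyEq h8).differentiableAt, ?_⟩
  have h9 := f1_A2_dir h5 h7.differentiableAt
  have hx := f1_A2_dir (h := dX f) (H := fun w => fderiv ℝ F w 1)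
    (fun w => (f1_A2_dir h2 (h1 w)).1) (h4 1).differentiableAt
  have hy := f1_A2_dir (h := dY f) (H := fun w => fderiv ℝ F w I)
    (fun w => (f1_A2_dir h2 (h1 w)).2) (h4 I).differentiableAt
  have hz := f1_A2_dir h2 (h1 z)
  unfold Ra lap
  rw [h9.1, h9.2, h7.fderiv, hx.1, hy.2, (h4 1).fderiv, (h4 I).fderiv, hz.1, h5 z, h2 z]
  simp only [hH]
  simp only [add_apply, sub_apply, smul_apply, ContinuousLinearMap.flip_apply,
    ContinuousLinearMap.comp_apply, Complex.imCLM_apply, Complex.ofRealCLM_apply, Complex.one_im,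
    Complex.I_im, Complex.ofReal_zero, Complex.ofReal_one, smul_eq_mul, Complex.real_smul,
    coe_im, hsymm]
  push_cast
  linear_combination ((z.im : ℂ) ^ 2 * B 1 1) * Complex.I_sq

theorem lap1_sl_pr {f : ℍ → ℂ}
    (hf : ContDiffOn ℝ 2 (fun z : ℂ => f (ofComplex z)) {z | 0 < z.im})
    (σ : SL(2, ℤ)) (z : ℍ) :
    lap 1 (sl σ f) z = lap 1 f (σ • z) * (denom σ z / ‖denom σ z‖)⁻¹ := by
  have h1 := (f1_A2_RaLo (sl_smooth hf σ) z).2
  have h2 : Lo (sl σ f) = fun w => Lo f (σ • w) * (denom σ w / ‖denom σ w‖) :=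
    funext fun w => Lo_sl hf σ w
  obtain ⟨h3, h4⟩ := f1_A2_RaLo hf (σ • z)
  rw [h2, f1_A2_Ra σ z h3, h4] at h1
  have h5 : sl σ f z = f (σ • z) * (denom σ z / ‖denom σ z‖)⁻¹ := rfl
  rw [h5] at h1
  linear_combination h1


end Pool.Agent.JO.FM1

namespace Pool.Agent.JO.FM1

theorem lap1_sl : type_of% @lap1_sl_pr := @lap1_sl_pr

end Pool.Agent.JO.FM1
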