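import Pool.Agent.Lib_helper42.JO1.Defs
import Pool.Agent.Lib_helper45.JO.Defs2
import Pool.Agent.Lib_helper42.JO1F.A1
import Pool.Agent.Lib_helper42.JO1F.A2

/-! Project JO, weight 1: block A3, the slashed form has a period (adapted from the weight 0
block A2 by helper21) -/

set_option autoImplicit false

namespace Pool.Agent.JO.FM1

open Complex Filter Topology MeasureTheory Set
open UpperHalfPlane hiding I
open Pool.Agent.JO.FM
open scoped MatrixGroups ComplexConjugate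

theorem f1_a3_pz {x y : ℝ} (hy : 0 < y) : ((pz x y : ℍ) : ℂ) = x + y * I := by
  unfold pz
  rw [ofComplex_apply_of_im_pos (by simpa using hy)]

theorem f1_a3_shift (n : ℤ) {x y : ℝ} (hy : 0 < y) :
    pz (x + n) y = ModularGroup.T ^ n • pz x y := by
  apply UpperHalfPlane.ext_re_im
  · rw [ModularGroup.re_T_zpow_smul]
    rw [← UpperHalfPlane.coe_re, ← UpperHalfPlane.coe_re, f1_a3_pz hy, f1_a3_pz hy]
    simp
  · rw [ModularGroup.im_T_zpow_smul]
    rw [← UpperHalfPlane.coe_im, ← UpperHalfPlane.coe_im, f1_a3_pz hy, f1_a3_pz hy]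
    simp

theorem f1_a3_norm (σ : SL(2, ℤ)) (z : ℍ) : ‖(denom σ z / ‖denom σ z‖ : ℂ)⁻¹‖ = 1 := by
  have h : denom (σ : GL (Fin 2) ℝ) z ≠ 0 := UpperHalfPlane.denom_ne_zero _ z
  rw [norm_inv, norm_div, Complex.norm_real, norm_norm, div_self (norm_ne_zero_iff.2 h), inv_one]

theorem f1_a3_T (n : ℤ) (g : ℍ → ℂ) (z : ℍ) :
    sl (ModularGroup.T ^ n) g z = g (ModularGroup.T ^ n • z) := by
  unfold sl
  have h1 : denom ((ModularGroup.T ^ n : SL(2, ℤ)) : GL (Fin 2) ℝ) z = 1 := by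
    rw [ModularGroup.denom_apply, ModularGroup.coe_T_zpow]
    simp
  rw [h1]
  simp

theorem f1_a3_conj (N : ℕ) (σ : SL(2, ℤ)) :
    (σ * ModularGroup.T ^ (N : ℤ) * σ⁻¹ : SL(2, ℤ)) 1 0 = -(N * (σ 1 0) ^ 2) ∧
    (σ * ModularGroup.T ^ (N : ℤ) * σ⁻¹ : SL(2, ℤ)) 1 1 = 1 + N * (σ 0 0 * σ 1 0) := by
  constructor
  · rw [Matrix.SpecialLinearGroup.coe_mul, Matrix.SpecialLinearGroup.coe_mul,
      ModularGroup.coe_T_zpow, Matrix.SpecialLinearGroup.coe_inv, Matrix.adjugate_fin_two]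
    simp [Matrix.mul_apply, Fin.sum_univ_two]
    ring
  · have hdet := σ.det_coe
    rw [Matrix.det_fin_two] at hdet
    rw [Matrix.SpecialLinearGroup.coe_mul, Matrix.SpecialLinearGroup.coe_mul,
      ModularGroup.coe_T_zpow, Matrix.SpecialLinearGroup.coe_inv, Matrix.adjugate_fin_two]
    simp [Matrix.mul_apply, Fin.sum_univ_two]
    linear_combination hdet

theorem perEig_sl_pr {N : ℕ} [NeZero N] {χ : DirichletCharacter ℂ N} {ev : ℝ} {f : ℍ → ℂ}
    (h : IsMaassForm N χ 1 ev f) (σ : SL(2, ℤ)) : PerEig N 1 ev (sl σ f) where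
  smooth := sl_smooth h.smooth σ
  eigen z := by
    rw [lap1_sl h.smooth σ z, h.eigen]
    unfold sl
    ring
  per x y hy := by
    have h1 := f1_a3_shift N (x := x) hy
    push_cast at h1
    rw [h1]
    set w := pz x y
    obtain ⟨e10, e11⟩ := f1_a3_conj N σ
    set γ : SL(2, ℤ) := σ * ModularGroup.T ^ (N : ℤ) * σ⁻¹ with hγ
    have h2 : sl γ f = f := by
      funext z
      unfold sl
      have hd : denom (γ : GL (Fin 2) ℝ) z ≠ 0 := UpperHalfPlane.denom_ne_zero _ z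
      have hn : (denom (γ : GL (Fin 2) ℝ) z / ‖denom (γ : GL (Fin 2) ℝ) z‖ : ℂ) ≠ 0 := by
        refine div_ne_zero hd ?_
        exact_mod_cast (norm_ne_zero_iff.2 hd)
      rw [h.automorphic γ (by rw [e10]; exact ⟨-(σ 1 0) ^ 2, by ring⟩) z, e11, pow_one]
      have hχ : χ (((1 + N * (σ 0 0 * σ 1 0) : ℤ)) : ZMod N) = 1 := by simp
      rw [hχ, one_mul, mul_comm, ← mul_assoc, inv_mul_cancel₀ hn, one_mul]
    have h3 : γ * σ = σ * ModularGroup.T ^ (N : ℤ) := by
      rw [hγ, inv_mul_cancel_right]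
    calc sl σ f (ModularGroup.T ^ (N : ℤ) • w) = sl (ModularGroup.T ^ (N : ℤ)) (sl σ f) w :=
          (f1_a3_T N (sl σ f) w).symm
      _ = sl (σ * ModularGroup.T ^ (N : ℤ)) f w := by rw [sl_mul]
      _ = sl (γ * σ) f w := by rw [h3]
      _ = sl σ (sl γ f) w := by rw [sl_mul]
      _ = sl σ f w := by rw [h2]
  cusp := by
    have h1 := h.cusp σ
    rw [tendsto_zero_iff_norm_tendsto_zero] at h1 ⊢
    refine h1.congr (fun z => ?_)
    unfold sl
    rw [norm_mul, f1_a3_norm, mul_one]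


end Pool.Agent.JO.FM1

namespace Pool.Agent.JO.FM1

theorem perEig_sl : type_of% @perEig_sl_pr := @perEig_sl_pr

end Pool.Agent.JO.FM1
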