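import Pool.Agent.Lib_helper42.JO1.Defs
import Pool.Agent.Lib_helper45.JO.Defs2
import Pool.Agent.Lib_helper45.JOM.KKA

/-! # JO, part FM, weight 1, block K1 (helper93) -/

set_option autoImplicit false

namespace Pool.Agent.JO.FM1

open Complex Filter Topology MeasureTheory Set
open UpperHalfPlane hiding I
open Pool.Agent.JO.FM
open scoped MatrixGroups ComplexConjugate

theorem f1_K1_cosh (z : ℂ) : Complex.cosh z = (cexp z + cexp (-z)) / 2 := rfl

theorem f1_K1_sinh (z : ℂ) : Complex.sinh z = (cexp z - cexp (-z)) / 2 := rfl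

theorem f1_K1_term (μ : ℂ) (x u : ℝ) : cexp (-(x : ℂ) * (Real.cosh u : ℝ)) * cexp (μ * u) =
    cexp (-(x : ℂ) * (Real.cosh u : ℝ) + μ * u) := by
  rw [← Complex.exp_add]

theorem f1_K1_int2 (μ : ℂ) (x : ℝ) :
    ∫ u : ℝ, cexp (-(x : ℂ) * (Real.cosh u : ℝ) + μ * u) = 2 * KK μ x := by
  unfold KK
  ring

/-- the integrand of `Wp` is a sum of four exponentials -/
theorem f1_K1_p4 (ν : ℂ) (x u : ℝ) : cexp (-(x : ℂ) * (Real.cosh u : ℝ)) *
      (Complex.cosh (ν * u) * (Real.cosh (u / 2) : ℝ)) =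
    (1 / 4) * ((cexp (-(x : ℂ) * (Real.cosh u : ℝ) + (ν + 1 / 2) * u) +
      cexp (-(x : ℂ) * (Real.cosh u : ℝ) + (-(ν + 1 / 2)) * u)) +
      (cexp (-(x : ℂ) * (Real.cosh u : ℝ) + (ν - 1 / 2) * u) +
      cexp (-(x : ℂ) * (Real.cosh u : ℝ) + (-(ν - 1 / 2)) * u))) := by
  rw [← f1_K1_term, ← f1_K1_term, ← f1_K1_term, ← f1_K1_term, Complex.ofReal_cosh (u / 2),
    f1_K1_cosh (ν * u), f1_K1_cosh ((u / 2 : ℝ) : ℂ)]
  have e1 : cexp ((ν + 1 / 2) * u) = cexp (ν * u) * cexp (((u / 2 : ℝ) : ℂ)) := by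
    rw [← Complex.exp_add]
    congr 1
    push_cast
    ring
  have e2 : cexp (-(ν + 1 / 2) * u) = cexp (-(ν * u)) * cexp (-((u / 2 : ℝ) : ℂ)) := by
    rw [← Complex.exp_add]
    congr 1
    push_cast
    ring
  have e3 : cexp ((ν - 1 / 2) * u) = cexp (ν * u) * cexp (-((u / 2 : ℝ) : ℂ)) := by
    rw [← Complex.exp_add]
    congr 1
    push_cast
    ring
  have e4 : cexp (-(ν - 1 / 2) * u) = cexp (-(ν * u)) * cexp (((u / 2 : ℝ) : ℂ)) := by
    rw [← Complex.exp_add]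
    congr 1
    push_cast
    ring
  rw [e1, e2, e3, e4]
  ring

/-- the integrand of `ν Vm` is a sum of four exponentials -/
theorem f1_K1_m4 (ν : ℂ) (x u : ℝ) : cexp (-(x : ℂ) * (Real.cosh u : ℝ)) *
      (Complex.sinh (ν * u) * (Real.sinh (u / 2) : ℝ)) =
    (1 / 4) * ((cexp (-(x : ℂ) * (Real.cosh u : ℝ) + (ν + 1 / 2) * u) +
      cexp (-(x : ℂ) * (Real.cosh u : ℝ) + (-(ν + 1 / 2)) * u)) -
      (cexp (-(x : ℂ) * (Real.cosh u : ℝ) + (ν - 1 / 2) * u) +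
      cexp (-(x : ℂ) * (Real.cosh u : ℝ) + (-(ν - 1 / 2)) * u))) := by
  rw [← f1_K1_term, ← f1_K1_term, ← f1_K1_term, ← f1_K1_term, Complex.ofReal_sinh (u / 2),
    f1_K1_sinh (ν * u), f1_K1_sinh ((u / 2 : ℝ) : ℂ)]
  have e1 : cexp ((ν + 1 / 2) * u) = cexp (ν * u) * cexp (((u / 2 : ℝ) : ℂ)) := by
    rw [← Complex.exp_add]
    congr 1
    push_cast
    ring
  have e2 : cexp (-(ν + 1 / 2) * u) = cexp (-(ν * u)) * cexp (-((u / 2 : ℝ) : ℂ)) := by
    rw [← Complex.exp_add]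
    congr 1
    push_cast
    ring
  have e3 : cexp ((ν - 1 / 2) * u) = cexp (ν * u) * cexp (-((u / 2 : ℝ) : ℂ)) := by
    rw [← Complex.exp_add]
    congr 1
    push_cast
    ring
  have e4 : cexp (-(ν - 1 / 2) * u) = cexp (-(ν * u)) * cexp (((u / 2 : ℝ) : ℂ)) := by
    rw [← Complex.exp_add]
    congr 1
    push_cast
    ring
  rw [e1, e2, e3, e4]
  ring

theorem Wp_eq_pr (ν : ℂ) {x : ℝ} (hx : 0 < x) :
    Integrable (fun u : ℝ => cexp (-(x : ℂ) * (Real.cosh u : ℝ)) *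
      (Complex.cosh (ν * u) * (Real.cosh (u / 2) : ℝ))) ∧
    Wp ν x = x * ∫ u : ℝ, cexp (-(x : ℂ) * (Real.cosh u : ℝ)) *
      (Complex.cosh (ν * u) * (Real.cosh (u / 2) : ℝ)) := by
  have i1 := KK_int (ν + 1 / 2) hx
  have i2 := KK_int (-(ν + 1 / 2)) hx
  have i3 := KK_int (ν - 1 / 2) hx
  have i4 := KK_int (-(ν - 1 / 2)) hx
  have hf : (fun u : ℝ => cexp (-(x : ℂ) * (Real.cosh u : ℝ)) *
      (Complex.cosh (ν * u) * (Real.cosh (u / 2) : ℝ))) = fun u : ℝ =>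
      (1 / 4) * ((cexp (-(x : ℂ) * (Real.cosh u : ℝ) + (ν + 1 / 2) * u) +
      cexp (-(x : ℂ) * (Real.cosh u : ℝ) + (-(ν + 1 / 2)) * u)) +
      (cexp (-(x : ℂ) * (Real.cosh u : ℝ) + (ν - 1 / 2) * u) +
      cexp (-(x : ℂ) * (Real.cosh u : ℝ) + (-(ν - 1 / 2)) * u))) :=
    funext fun u => f1_K1_p4 ν x u
  rw [hf]
  have j1 : Integrable (fun u : ℝ => cexp (-(x : ℂ) * (Real.cosh u : ℝ) + (ν + 1 / 2) * u) +
      cexp (-(x : ℂ) * (Real.cosh u : ℝ) + (-(ν + 1 / 2)) * u)) := i1.add i2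
  have j2 : Integrable (fun u : ℝ => cexp (-(x : ℂ) * (Real.cosh u : ℝ) + (ν - 1 / 2) * u) +
      cexp (-(x : ℂ) * (Real.cosh u : ℝ) + (-(ν - 1 / 2)) * u)) := i3.add i4
  refine ⟨(j1.add j2).const_mul _, ?_⟩
  rw [integral_const_mul, integral_add j1 j2, integral_add i1 i2,
    integral_add i3 i4, f1_K1_int2, f1_K1_int2, f1_K1_int2, f1_K1_int2, KK_neg, KK_neg]
  unfold Wp
  ring

theorem f1_K1_sinhint (ν : ℂ) {x : ℝ} (hx : 0 < x) :
    Integrable (fun u : ℝ => cexp (-(x : ℂ) * (Real.cosh u : ℝ)) *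
      (Complex.sinh (ν * u) * (Real.sinh (u / 2) : ℝ))) ∧
    ∫ u : ℝ, cexp (-(x : ℂ) * (Real.cosh u : ℝ)) *
      (Complex.sinh (ν * u) * (Real.sinh (u / 2) : ℝ)) = KK (ν + 1 / 2) x - KK (ν - 1 / 2) x := by
  have i1 := KK_int (ν + 1 / 2) hx
  have i2 := KK_int (-(ν + 1 / 2)) hx
  have i3 := KK_int (ν - 1 / 2) hx
  have i4 := KK_int (-(ν - 1 / 2)) hx
  have hf : (fun u : ℝ => cexp (-(x : ℂ) * (Real.cosh u : ℝ)) *
      (Complex.sinh (ν * u) * (Real.sinh (u / 2) : ℝ))) = fun u : ℝ =>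
      (1 / 4) * ((cexp (-(x : ℂ) * (Real.cosh u : ℝ) + (ν + 1 / 2) * u) +
      cexp (-(x : ℂ) * (Real.cosh u : ℝ) + (-(ν + 1 / 2)) * u)) -
      (cexp (-(x : ℂ) * (Real.cosh u : ℝ) + (ν - 1 / 2) * u) +
      cexp (-(x : ℂ) * (Real.cosh u : ℝ) + (-(ν - 1 / 2)) * u))) :=
    funext fun u => f1_K1_m4 ν x u
  rw [hf]
  have j1 : Integrable (fun u : ℝ => cexp (-(x : ℂ) * (Real.cosh u : ℝ) + (ν + 1 / 2) * u) +
      cexp (-(x : ℂ) * (Real.cosh u : ℝ) + (-(ν + 1 / 2)) * u)) := i1.add i2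
  have j2 : Integrable (fun u : ℝ => cexp (-(x : ℂ) * (Real.cosh u : ℝ) + (ν - 1 / 2) * u) +
      cexp (-(x : ℂ) * (Real.cosh u : ℝ) + (-(ν - 1 / 2)) * u)) := i3.add i4
  refine ⟨(j1.sub j2).const_mul _, ?_⟩
  rw [integral_const_mul, integral_sub j1 j2, integral_add i1 i2,
    integral_add i3 i4, f1_K1_int2, f1_K1_int2, f1_K1_int2, f1_K1_int2, KK_neg, KK_neg]
  ring

theorem f1_K1_abs (u : ℝ) : |u * Real.sinh (u / 2)| ≤ Real.cosh (2 * u) := by
  have h1 : |u / 2| ≤ Real.sinh |u / 2| := Real.self_le_sinh_iff.2 (abs_nonneg _)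
  have h2 : |Real.sinh (u / 2)| = Real.sinh |u / 2| := Real.abs_sinh _
  have h3 : 0 ≤ Real.sinh |u / 2| := h2 ▸ abs_nonneg _
  have h4 : |u| = 2 * |u / 2| := by
    rw [abs_div, abs_two]
    ring
  rw [abs_mul, h2, h4]
  have h5 : Real.cosh (u / 2) ^ 2 - Real.sinh |u / 2| ^ 2 = 1 := by
    rw [← h2, sq_abs]
    exact Real.cosh_sq_sub_sinh_sq _
  have h6 : Real.cosh u = Real.cosh (u / 2) ^ 2 + Real.sinh |u / 2| ^ 2 := by
    rw [← h2, sq_abs, ← Real.cosh_two_mul]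
    congr 1
    ring
  have h7 : Real.cosh (2 * u) = 2 * Real.cosh u ^ 2 - 1 := by
    rw [Real.cosh_two_mul]
    have := Real.cosh_sq_sub_sinh_sq u
    linarith
  have h8 : 1 ≤ Real.cosh u := Real.one_le_cosh u
  nlinarith

/-- integrability against `exp (-x cosh u)` of functions bounded by `cosh (2 u)` -/
theorem f1_K1_dom {x : ℝ} (hx : 0 < x) {g : ℝ → ℂ} (hg : Continuous g) {C : ℝ}
    (hC : ∀ u, ‖g u‖ ≤ C * Real.cosh (2 * u)) :
    Integrable (fun u : ℝ => cexp (-(x : ℂ) * (Real.cosh u : ℝ)) * g u) := by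
  have i1 := (KK_int 2 hx).norm
  have i2 := (KK_int (-2) hx).norm
  have hcont : Continuous (fun u : ℝ => cexp (-(x : ℂ) * (Real.cosh u : ℝ)) * g u) := by
    refine Continuous.mul ?_ hg
    refine Complex.continuous_exp.comp (continuous_const.mul ?_)
    exact Complex.continuous_ofReal.comp Real.continuous_cosh
  refine ((i1.add i2).const_mul (C / 2)).mono' hcont.aestronglyMeasurable
    (Eventually.of_forall fun u => ?_)
  rw [norm_mul]
  have e0 : ‖cexp (-(x : ℂ) * (Real.cosh u : ℝ))‖ = Real.exp (-(x * Real.cosh u)) := by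
    rw [Complex.norm_exp]
    congr 1
    rw [← Complex.ofReal_neg, ← Complex.ofReal_mul, Complex.ofReal_re]
    ring
  have e1 : ‖cexp (-(x : ℂ) * (Real.cosh u : ℝ) + 2 * u)‖ =
      Real.exp (-(x * Real.cosh u)) * Real.exp (2 * u) := by
    rw [Complex.exp_add, norm_mul, e0, Complex.norm_exp]
    congr 2
    rw [← Complex.ofReal_ofNat, ← Complex.ofReal_mul, Complex.ofReal_re]
  have e2 : ‖cexp (-(x : ℂ) * (Real.cosh u : ℝ) + (-2) * u)‖ =
      Real.exp (-(x * Real.cosh u)) * Real.exp (-(2 * u)) := by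
    rw [Complex.exp_add, norm_mul, e0, Complex.norm_exp]
    congr 2
    rw [← Complex.ofReal_ofNat, ← Complex.ofReal_neg, ← Complex.ofReal_mul, Complex.ofReal_re]
    ring
  rw [e0]
  refine (mul_le_mul_of_nonneg_left (hC u) (Real.exp_pos _).le).trans (le_of_eq ?_)
  change _ = C / 2 * (‖cexp (-(x : ℂ) * (Real.cosh u : ℝ) + 2 * u)‖ +
    ‖cexp (-(x : ℂ) * (Real.cosh u : ℝ) + (-2) * u)‖)
  rw [e1, e2, Real.cosh_eq (2 * u)]
  ring

theorem Vm_eq_pr (ν : ℂ) {x : ℝ} (hx : 0 < x) :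
    Integrable (fun u : ℝ => cexp (-(x : ℂ) * (Real.cosh u : ℝ)) *
      (SS ν u * (Real.sinh (u / 2) : ℝ))) ∧
    ν * Vm ν x = x * (KK (ν + 1 / 2) x - KK (ν - 1 / 2) x) := by
  rcases eq_or_ne ν 0 with hν | hν
  · subst hν
    constructor
    · have hS : ∀ u : ℝ, SS 0 u = (u : ℂ) := fun u => if_pos rfl
      simp only [hS]
      refine f1_K1_dom hx (g := fun u : ℝ => (u : ℂ) * (Real.sinh (u / 2) : ℝ)) (C := 1) ?_ ?_
      · exact Complex.continuous_ofReal.mul (Complex.continuous_ofReal.comp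
          (Real.continuous_sinh.comp (continuous_id.div_const 2)))
      · intro u
        rw [← Complex.ofReal_mul, Complex.norm_real, Real.norm_eq_abs, one_mul]
        exact f1_K1_abs u
    · rw [zero_mul, zero_add, zero_sub, KK_neg, sub_self, mul_zero]
  · have hS : ∀ u : ℝ, SS ν u = Complex.sinh (ν * u) / ν := fun u => if_neg hν
    obtain ⟨h1, h2⟩ := f1_K1_sinhint ν hx
    have hf : (fun u : ℝ => cexp (-(x : ℂ) * (Real.cosh u : ℝ)) *
        (SS ν u * (Real.sinh (u / 2) : ℝ))) = fun u : ℝ => ν⁻¹ *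
        (cexp (-(x : ℂ) * (Real.cosh u : ℝ)) *
        (Complex.sinh (ν * u) * (Real.sinh (u / 2) : ℝ))) := by
      funext u
      rw [hS]
      field_simp
    constructor
    · rw [hf]
      exact h1.const_mul _
    · unfold Vm
      rw [hf, integral_const_mul, h2]
      field_simp

theorem f1_K1_conj (μ : ℂ) (x : ℝ) : conj (KK μ x) = KK (conj μ) x := by
  unfold KK
  rw [map_mul, ← integral_conj]
  congr 1
  · rw [map_div₀, map_one, Complex.conj_ofNat]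
  · refine integral_congr_ae (Eventually.of_forall fun u => ?_)
    change conj (cexp (-(x : ℂ) * (Real.cosh u : ℝ) + μ * u)) = _
    rw [← Complex.exp_conj, map_add, map_mul, map_mul, map_neg, Complex.conj_ofReal,
      Complex.conj_ofReal, Complex.conj_ofReal]

theorem f1_K1_nu {ν : ℂ} (hν : ν.re = 0) : conj ν = -ν := by
  apply Complex.ext
  · rw [Complex.conj_re, Complex.neg_re, hν, neg_zero]
  · rw [Complex.conj_im, Complex.neg_im]

theorem f1_K1_SS {ν : ℂ} (hν : ν.re = 0) (u : ℝ) : conj (SS ν u) = SS ν u := by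
  unfold SS
  split_ifs with h
  · exact Complex.conj_ofReal u
  · rw [map_div₀, ← Complex.sinh_conj, map_mul, Complex.conj_ofReal, f1_K1_nu hν, neg_mul,
      Complex.sinh_neg, neg_div_neg_eq]

theorem W_real_pr {ν : ℂ} (hν : ν.re = 0) (x : ℝ) : (Wp ν x).im = 0 ∧ (Vm ν x).im = 0 := by
  constructor
  · apply Complex.conj_eq_iff_im.1
    unfold Wp
    rw [map_mul, map_add, Complex.conj_ofReal, f1_K1_conj, f1_K1_conj, map_add, map_sub,
      f1_K1_nu hν, map_div₀, map_one, Complex.conj_ofNat]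
    have e1 : (-ν + 1 / 2 : ℂ) = -(ν - 1 / 2) := by ring
    have e2 : (-ν - 1 / 2 : ℂ) = -(ν + 1 / 2) := by ring
    rw [e1, e2, KK_neg, KK_neg, add_comm]
  · apply Complex.conj_eq_iff_im.1
    unfold Vm
    rw [map_mul, Complex.conj_ofReal, ← integral_conj]
    congr 1
    refine integral_congr_ae (Eventually.of_forall fun u => ?_)
    change conj (cexp (-(x : ℂ) * (Real.cosh u : ℝ)) * (SS ν u * (Real.sinh (u / 2) : ℝ))) = _
    rw [map_mul, map_mul, f1_K1_SS hν, Complex.conj_ofReal, ← Complex.exp_conj, map_mul, map_neg,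
      Complex.conj_ofReal, Complex.conj_ofReal]

end Pool.Agent.JO.FM1

namespace Pool.Agent.JO.FM1

theorem Wp_eq : type_of% @Wp_eq_pr := @Wp_eq_pr
theorem Vm_eq : type_of% @Vm_eq_pr := @Vm_eq_pr
theorem W_real : type_of% @W_real_pr := @W_real_pr

end Pool.Agent.JO.FM1
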