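import Pool.Agent.Lib_helper42.JO1.Defs
import Pool.Agent.Lib_helper45.JO.Defs2
import Pool.Agent.Lib_helper42.JO1F.K1
import Pool.Agent.Lib_helper45.JOM.KKA

/-! # JO, part FM, weight 1, block K2 (helper93) -/

set_option autoImplicit false

namespace Pool.Agent.JO.FM1

open Complex Filter Topology MeasureTheory Set
open UpperHalfPlane hiding I
open Pool.Agent.JO.FM
open scoped MatrixGroups ComplexConjugate

/-- `K_{ν+1/2}' = -K_{ν-1/2} - ((ν+1/2)/x) K_{ν+1/2}` -/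
theorem f1_K2_plus (ν : ℂ) {x : ℝ} (hx : 0 < x) :
    HasDerivAt (KK (ν + 1 / 2)) (-KK (ν - 1 / 2) x - (ν + 1 / 2) / x * KK (ν + 1 / 2) x) x := by
  have h := KK_deriv (ν + 1 / 2) hx
  have hr := KK_rec (ν + 1 / 2) hx
  have e0 : (ν + 1 / 2 - 1 : ℂ) = ν - 1 / 2 := by ring
  rw [e0] at h hr
  have e : -(KK (ν + 1 / 2 + 1) x + KK (ν - 1 / 2) x) / 2 =
      -KK (ν - 1 / 2) x - (ν + 1 / 2) / x * KK (ν + 1 / 2) x := by
    linear_combination (-1 / 2 : ℂ) * hr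
  rw [← e]
  exact h

/-- `K_{ν-1/2}' = -K_{ν+1/2} + ((ν-1/2)/x) K_{ν-1/2}` -/
theorem f1_K2_minus (ν : ℂ) {x : ℝ} (hx : 0 < x) :
    HasDerivAt (KK (ν - 1 / 2)) (-KK (ν + 1 / 2) x + (ν - 1 / 2) / x * KK (ν - 1 / 2) x) x := by
  have h := KK_deriv (ν - 1 / 2) hx
  have hr := KK_rec (ν - 1 / 2) hx
  have e0 : (ν - 1 / 2 + 1 : ℂ) = ν + 1 / 2 := by ring
  rw [e0] at h hr
  have e : -(KK (ν + 1 / 2) x + KK (ν - 1 / 2 - 1) x) / 2 =
      -KK (ν + 1 / 2) x + (ν - 1 / 2) / x * KK (ν - 1 / 2) x := by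
    linear_combination (1 / 2 : ℂ) * hr
  rw [← e]
  exact h

theorem f1_K2_x (x : ℝ) : HasDerivAt (fun y : ℝ => (y : ℂ)) 1 x := by
  have := (hasDerivAt_id x).ofReal_comp
  simpa using this

theorem Wp_deriv_pr (ν : ℂ) {x : ℝ} (hx : 0 < x) :
    HasDerivAt (Wp ν) (-Wp ν x + Wp ν x / (2 * x) - ν ^ 2 / x * Vm ν x) x := by
  have hxc : (x : ℂ) ≠ 0 := ofReal_ne_zero.2 hx.ne'
  have h := (f1_K2_x x).mul ((f1_K2_plus ν hx).add (f1_K2_minus ν hx))
  have hV := (Vm_eq ν hx).2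
  have e : 1 * (KK (ν + 1 / 2) x + KK (ν - 1 / 2) x) +
      (x : ℂ) * ((-KK (ν - 1 / 2) x - (ν + 1 / 2) / x * KK (ν + 1 / 2) x) +
        (-KK (ν + 1 / 2) x + (ν - 1 / 2) / x * KK (ν - 1 / 2) x)) =
      -Wp ν x + Wp ν x / (2 * x) - ν ^ 2 / x * Vm ν x := by
    have e1 : ν ^ 2 / x * Vm ν x = ν * (KK (ν + 1 / 2) x - KK (ν - 1 / 2) x) := by
      have : ν ^ 2 / x * Vm ν x = ν / x * (ν * Vm ν x) := by ring
      rw [this, hV]
      field_simp
    rw [e1]
    unfold Wp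
    field_simp
    ring
  rw [← e]
  exact h

theorem f1_K2_abs0 (u : ℝ) : |u * Real.sinh (u / 2)| ≤ Real.cosh (2 * u) := by
  have h1 : |u / 2| ≤ Real.sinh |u / 2| := Real.self_le_sinh_iff.2 (abs_nonneg _)
  have h2 : |Real.sinh (u / 2)| = Real.sinh |u / 2| := Real.abs_sinh _
  have h3 : 0 ≤ Real.sinh |u / 2| := h2 ▸ abs_nonneg _
  have h4 : |u| = 2 * |u / 2| := by
    rw [abs_div, abs_two]
    ring
  rw [abs_mul, h2, h4]
  have h5 : Real.cosh (u / 2) ^ 2 - Real.sinh |u / 2| ^ 2 = 1 := by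
    rw [← h2, sq_abs]
    exact Real.cosh_sq_sub_sinh_sq _
  have h6 : Real.cosh u = Real.cosh (u / 2) ^ 2 + Real.sinh |u / 2| ^ 2 := by
    rw [← h2, sq_abs, ← Real.cosh_two_mul]
    congr 1
    ring
  have h7 : Real.cosh (2 * u) = 2 * Real.cosh u ^ 2 - 1 := by
    rw [Real.cosh_two_mul]
    have := Real.cosh_sq_sub_sinh_sq u
    linarith
  have h8 : 1 ≤ Real.cosh u := Real.one_le_cosh u
  nlinarith

/-- integrability against `exp (-x cosh u)` of functions bounded by `cosh (2 u)` -/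
theorem f1_K2_dom {x : ℝ} (hx : 0 < x) {g : ℝ → ℂ} (hg : Continuous g) {C : ℝ}
    (hC : ∀ u, ‖g u‖ ≤ C * Real.cosh (2 * u)) :
    Integrable (fun u : ℝ => cexp (-(x : ℂ) * (Real.cosh u : ℝ)) * g u) := by
  have i1 := (KK_int 2 hx).norm
  have i2 := (KK_int (-2) hx).norm
  have hcont : Continuous (fun u : ℝ => cexp (-(x : ℂ) * (Real.cosh u : ℝ)) * g u) := by
    refine Continuous.mul ?_ hg
    refine Complex.continuous_exp.comp (continuous_const.mul ?_)
    exact Complex.continuous_ofReal.comp Real.continuous_cosh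
  refine ((i1.add i2).const_mul (C / 2)).mono' hcont.aestronglyMeasurable
    (Eventually.of_forall fun u => ?_)
  rw [norm_mul]
  have e0 : ‖cexp (-(x : ℂ) * (Real.cosh u : ℝ))‖ = Real.exp (-(x * Real.cosh u)) := by
    rw [Complex.norm_exp]
    congr 1
    rw [← Complex.ofReal_neg, ← Complex.ofReal_mul, Complex.ofReal_re]
    ring
  have e1 : ‖cexp (-(x : ℂ) * (Real.cosh u : ℝ) + 2 * u)‖ =
      Real.exp (-(x * Real.cosh u)) * Real.exp (2 * u) := by
    rw [Complex.exp_add, norm_mul, e0, Complex.norm_exp]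
    congr 2
    rw [← Complex.ofReal_ofNat, ← Complex.ofReal_mul, Complex.ofReal_re]
  have e2 : ‖cexp (-(x : ℂ) * (Real.cosh u : ℝ) + (-2) * u)‖ =
      Real.exp (-(x * Real.cosh u)) * Real.exp (-(2 * u)) := by
    rw [Complex.exp_add, norm_mul, e0, Complex.norm_exp]
    congr 2
    rw [← Complex.ofReal_ofNat, ← Complex.ofReal_neg, ← Complex.ofReal_mul, Complex.ofReal_re]
    ring
  rw [e0]
  refine (mul_le_mul_of_nonneg_left (hC u) (Real.exp_pos _).le).trans (le_of_eq ?_)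
  change _ = C / 2 * (‖cexp (-(x : ℂ) * (Real.cosh u : ℝ) + 2 * u)‖ +
    ‖cexp (-(x : ℂ) * (Real.cosh u : ℝ) + (-2) * u)‖)
  rw [e1, e2, Real.cosh_eq (2 * u)]
  ring

/-- the integrand for `ν = 0` -/
noncomputable def f1_K2_F (x u : ℝ) : ℂ :=
  cexp (-(x : ℂ) * (Real.cosh u : ℝ)) * ((u : ℂ) * (Real.sinh (u / 2) : ℝ))

theorem f1_K2_cont : Continuous (fun u : ℝ => (u : ℂ) * ((Real.sinh (u / 2) : ℝ) : ℂ)) :=
  Complex.continuous_ofReal.mul (Complex.continuous_ofReal.comp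
    (Real.continuous_sinh.comp (continuous_id.div_const 2)))

theorem f1_K2_Vm0 (x : ℝ) : Vm 0 x = x * ∫ u : ℝ, f1_K2_F x u := by
  have hS : ∀ u : ℝ, SS 0 u = (u : ℂ) := fun u => if_pos rfl
  unfold Vm f1_K2_F
  simp only [hS]

theorem f1_K2_abs (u : ℝ) : |u * Real.sinh (u / 2)| ≤ Real.cosh u := by
  have h1 : |u / 2| ≤ Real.sinh |u / 2| := Real.self_le_sinh_iff.2 (abs_nonneg _)
  have h2 : |Real.sinh (u / 2)| = Real.sinh |u / 2| := Real.abs_sinh _
  have h3 : 0 ≤ Real.sinh |u / 2| := h2 ▸ abs_nonneg _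
  have h4 : |u| = 2 * |u / 2| := by
    rw [abs_div, abs_two]
    ring
  rw [abs_mul, h2, h4]
  have h5 : Real.cosh (u / 2) ^ 2 - Real.sinh |u / 2| ^ 2 = 1 := by
    rw [← h2, sq_abs]
    exact Real.cosh_sq_sub_sinh_sq _
  have h6 : Real.cosh u = Real.cosh (u / 2) ^ 2 + Real.sinh |u / 2| ^ 2 := by
    rw [← h2, sq_abs, ← Real.cosh_two_mul]
    congr 1
    ring
  nlinarith

theorem f1_K2_abs2 (u : ℝ) : |u * Real.cosh (u / 2)| ≤ Real.cosh u := by
  have h1 : |u / 2| ≤ Real.sinh |u / 2| := Real.self_le_sinh_iff.2 (abs_nonneg _)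
  have h2 : |Real.sinh (u / 2)| = Real.sinh |u / 2| := Real.abs_sinh _
  have h3 : 0 ≤ Real.sinh |u / 2| := h2 ▸ abs_nonneg _
  have h4 : |u| = 2 * |u / 2| := by
    rw [abs_div, abs_two]
    ring
  have h7 : 0 < Real.cosh (u / 2) := Real.cosh_pos _
  rw [abs_mul, abs_of_pos h7, h4]
  have h6 : Real.cosh u = Real.cosh (u / 2) ^ 2 + Real.sinh |u / 2| ^ 2 := by
    rw [← h2, sq_abs, ← Real.cosh_two_mul]
    congr 1
    ring
  nlinarith [mul_le_mul_of_nonneg_right h1 h7.le, sq_nonneg (Real.cosh (u / 2) - Real.sinh |u / 2|)]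

theorem f1_K2_cc (u : ℝ) : Real.cosh u ^ 2 ≤ Real.cosh (2 * u) := by
  have h7 : Real.cosh (2 * u) = 2 * Real.cosh u ^ 2 - 1 := by
    rw [Real.cosh_two_mul]
    have := Real.cosh_sq_sub_sinh_sq u
    linarith
  have h8 : 1 ≤ Real.cosh u := Real.one_le_cosh u
  nlinarith

theorem f1_K2_cc1 (u : ℝ) : Real.cosh u ≤ Real.cosh (2 * u) := by
  have h8 : 1 ≤ Real.cosh u := Real.one_le_cosh u
  nlinarith [f1_K2_cc u]

theorem f1_K2_enorm (x u : ℝ) :
    ‖cexp (-(x : ℂ) * (Real.cosh u : ℝ))‖ = Real.exp (-(x * Real.cosh u)) := by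
  rw [Complex.norm_exp]
  congr 1
  rw [← Complex.ofReal_neg, ← Complex.ofReal_mul, Complex.ofReal_re]
  ring

/-- the derivative under the integral -/
theorem f1_K2_D {x : ℝ} (hx : 0 < x) :
    HasDerivAt (fun y : ℝ => ∫ u : ℝ, f1_K2_F y u)
      (∫ u : ℝ, -(((Real.cosh u : ℝ) : ℂ) * f1_K2_F x u)) x := by
  have hx2 : 0 < x / 2 := by positivity
  have hc : Continuous (fun u : ℝ => ((Real.cosh u : ℝ) : ℂ)) :=
    Complex.continuous_ofReal.comp Real.continuous_cosh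
  have hcF : ∀ y : ℝ, Continuous (f1_K2_F y) := fun y =>
    (Complex.continuous_exp.comp (continuous_const.mul hc)).mul f1_K2_cont
  have hbd : Integrable (fun u : ℝ => ‖cexp (-((x / 2 : ℝ) : ℂ) * (Real.cosh u : ℝ)) *
      ((Real.cosh (2 * u) : ℝ) : ℂ)‖) := by
    refine (f1_K2_dom hx2 (g := fun u : ℝ => ((Real.cosh (2 * u) : ℝ) : ℂ)) (C := 1) ?_ ?_).norm
    · exact Complex.continuous_ofReal.comp (Real.continuous_cosh.comp
        (continuous_const.mul continuous_id))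
    · intro u
      rw [Complex.norm_real, Real.norm_of_nonneg (Real.cosh_pos _).le, one_mul]
  have key := hasDerivAt_integral_of_dominated_loc_of_deriv_le (μ := volume)
    (F := fun (y : ℝ) (u : ℝ) => f1_K2_F y u)
    (F' := fun (y : ℝ) (u : ℝ) => -(((Real.cosh u : ℝ) : ℂ) * f1_K2_F y u))
    (x₀ := x) (s := Ioi (x / 2)) (Ioi_mem_nhds (by linarith))
    (Eventually.of_forall fun y => (hcF y).aestronglyMeasurable)
    ?_ ?_ (bound := fun u : ℝ => ‖cexp (-((x / 2 : ℝ) : ℂ) * (Real.cosh u : ℝ)) *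
      ((Real.cosh (2 * u) : ℝ) : ℂ)‖) ?_ hbd ?_
  · exact key.2
  · refine f1_K2_dom hx (g := fun u : ℝ => (u : ℂ) * (Real.sinh (u / 2) : ℝ)) (C := 1) f1_K2_cont ?_
    intro u
    rw [← Complex.ofReal_mul, Complex.norm_real, Real.norm_eq_abs, one_mul]
    exact f1_K2_abs0 u
  · exact (hc.mul (hcF x)).neg.aestronglyMeasurable
  · refine Eventually.of_forall fun u y hy => ?_
    have hy' : x / 2 < y := hy
    have h8 : 1 ≤ Real.cosh u := Real.one_le_cosh u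
    rw [norm_neg, norm_mul, norm_mul]
    unfold f1_K2_F
    rw [norm_mul, f1_K2_enorm, f1_K2_enorm, ← Complex.ofReal_mul, Complex.norm_real,
      Complex.norm_real, Complex.norm_real, Real.norm_eq_abs, Real.norm_eq_abs, Real.norm_eq_abs,
      abs_of_pos (Real.cosh_pos u), abs_of_pos (Real.cosh_pos (2 * u))]
    have h1 : Real.exp (-(y * Real.cosh u)) ≤ Real.exp (-(x / 2 * Real.cosh u)) := by
      apply Real.exp_le_exp.2
      nlinarith
    calc Real.cosh u * (Real.exp (-(y * Real.cosh u)) * |u * Real.sinh (u / 2)|) ≤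
        Real.cosh u * (Real.exp (-(x / 2 * Real.cosh u)) * Real.cosh u) := by
          have := f1_K2_abs u
          gcongr
      _ = Real.exp (-(x / 2 * Real.cosh u)) * Real.cosh u ^ 2 := by ring
      _ ≤ Real.exp (-(x / 2 * Real.cosh u)) * Real.cosh (2 * u) :=
          mul_le_mul_of_nonneg_left (f1_K2_cc u) (Real.exp_pos _).le
  · refine Eventually.of_forall fun u y hy => ?_
    have h1 : HasDerivAt (fun y : ℝ => -(y : ℂ) * (Real.cosh u : ℝ)) (-1 * (Real.cosh u : ℝ)) y :=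
      (f1_K2_x y).neg.mul_const _
    have h2 := h1.cexp.mul_const ((u : ℂ) * (Real.sinh (u / 2) : ℝ))
    have h3 : HasDerivAt (fun y : ℝ => f1_K2_F y u) _ y := h2
    refine h3.congr_deriv ?_
    unfold f1_K2_F
    ring

/-- integration by parts -/
theorem f1_K2_parts {x : ℝ} (hx : 0 < x) :
    (x : ℂ) * (∫ u : ℝ, -(((Real.cosh u : ℝ) : ℂ) * f1_K2_F x u)) - x * (∫ u : ℝ, f1_K2_F x u) +
      (∫ u : ℝ, cexp (-(x : ℂ) * (Real.cosh u : ℝ)) *
        (Complex.cosh (0 * u) * (Real.cosh (u / 2) : ℝ))) + (1 / 2) * ∫ u : ℝ, f1_K2_F x u = 0 := by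
  have hc : Continuous (fun u : ℝ => ((Real.cosh u : ℝ) : ℂ)) :=
    Complex.continuous_ofReal.comp Real.continuous_cosh
  have hI : Integrable (f1_K2_F x) := by
    refine f1_K2_dom hx (g := fun u : ℝ => (u : ℂ) * (Real.sinh (u / 2) : ℝ)) (C := 1) f1_K2_cont ?_
    intro u
    rw [← Complex.ofReal_mul, Complex.norm_real, Real.norm_eq_abs, one_mul]
    exact f1_K2_abs0 u
  have hI2 : Integrable (fun u : ℝ => -(((Real.cosh u : ℝ) : ℂ) * f1_K2_F x u)) := by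
    have h := f1_K2_dom hx (g := fun u : ℝ => -(((Real.cosh u : ℝ) : ℂ) *
      ((u : ℂ) * (Real.sinh (u / 2) : ℝ)))) (C := 1) (hc.mul f1_K2_cont).neg ?_
    · refine h.congr (Eventually.of_forall fun u => ?_)
      unfold f1_K2_F
      ring
    · intro u
      rw [norm_neg, norm_mul, ← Complex.ofReal_mul, Complex.norm_real, Complex.norm_real,
        Real.norm_eq_abs, Real.norm_eq_abs, one_mul, abs_of_pos (Real.cosh_pos u)]
      have := f1_K2_abs u
      have h2 := f1_K2_cc u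
      have h3 := Real.cosh_pos u
      nlinarith
  have hS := (Wp_eq 0 hx).1
  set φ : ℝ → ℂ := fun u => cexp (-(x : ℂ) * (Real.cosh u : ℝ)) *
    ((u : ℂ) * (Real.cosh (u / 2) : ℝ)) with hφ
  have hφI : Integrable φ := by
    refine f1_K2_dom hx (g := fun u : ℝ => (u : ℂ) * (Real.cosh (u / 2) : ℝ)) (C := 1) ?_ ?_
    · exact Complex.continuous_ofReal.mul (Complex.continuous_ofReal.comp
        (Real.continuous_cosh.comp (continuous_id.div_const 2)))
    · intro u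
      rw [← Complex.ofReal_mul, Complex.norm_real, Real.norm_eq_abs, one_mul]
      exact (f1_K2_abs2 u).trans (f1_K2_cc1 u)
  set ψ : ℝ → ℂ := fun u => ((x : ℂ) * -(((Real.cosh u : ℝ) : ℂ) * f1_K2_F x u) -
    x * f1_K2_F x u) + (cexp (-(x : ℂ) * (Real.cosh u : ℝ)) *
        (Complex.cosh (0 * u) * (Real.cosh (u / 2) : ℝ)) + (1 / 2) * f1_K2_F x u) with hψ
  have hd : ∀ u, HasDerivAt φ (ψ u) u := by
    intro u
    have h1 : HasDerivAt (fun u : ℝ => ((Real.cosh u : ℝ) : ℂ)) ((Real.sinh u : ℝ) : ℂ) u :=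
      (Real.hasDerivAt_cosh u).ofReal_comp
    have h2 := (h1.const_mul (-(x : ℂ))).cexp
    have h3 : HasDerivAt (fun u : ℝ => ((Real.cosh (u / 2) : ℝ) : ℂ))
        (((Real.sinh (u / 2) * (1 / 2) : ℝ)) : ℂ) u := by
      have h4 : HasDerivAt (fun u : ℝ => u / 2) (1 / 2) u := (hasDerivAt_id u).div_const 2
      exact ((Real.hasDerivAt_cosh (u / 2)).comp u h4).ofReal_comp
    have h5 : HasDerivAt φ _ u := h2.mul ((f1_K2_x u).mul h3)
    refine h5.congr_deriv ?_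
    change _ = ((x : ℂ) * -(((Real.cosh u : ℝ) : ℂ) * f1_K2_F x u) -
      x * f1_K2_F x u) + (cexp (-(x : ℂ) * (Real.cosh u : ℝ)) *
        (Complex.cosh (0 * u) * (Real.cosh (u / 2) : ℝ)) + (1 / 2) * f1_K2_F x u)
    unfold f1_K2_F
    rw [zero_mul, Complex.cosh_zero]
    have e1 : Real.sinh u = 2 * Real.sinh (u / 2) * Real.cosh (u / 2) := by
      rw [← Real.sinh_two_mul]
      congr 1
      ring
    have e2 : Real.cosh u = 2 * Real.cosh (u / 2) ^ 2 - 1 := by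
      have h6 : Real.cosh u = Real.cosh (u / 2) ^ 2 + Real.sinh (u / 2) ^ 2 := by
        rw [← Real.cosh_two_mul]
        congr 1
        ring
      have h7 := Real.cosh_sq_sub_sinh_sq (u / 2)
      linarith
    have e3 : ((Real.sinh u : ℝ) : ℂ) * ((Real.cosh (u / 2) : ℝ) : ℂ) =
        ((Real.sinh (u / 2) : ℝ) : ℂ) * (((Real.cosh u : ℝ) : ℂ) + 1) := by
      have e4 : Real.sinh u * Real.cosh (u / 2) = Real.sinh (u / 2) * (Real.cosh u + 1) := by
        rw [e1, e2]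
        ring
      exact_mod_cast congrArg (fun t : ℝ => (t : ℂ)) e4
    push_cast at e3 ⊢
    linear_combination (-(x * cexp (-(x : ℂ) * Complex.cosh u) * u)) * e3
  have hψI : Integrable ψ := by
    refine ((hI2.const_mul (x : ℂ)).sub (hI.const_mul (x : ℂ))).add (hS.add (hI.const_mul _))
  have h0 := integral_eq_zero_of_hasDerivAt_of_integrable hd hψI hφI
  have j1 : Integrable (fun u : ℝ => (x : ℂ) * -(((Real.cosh u : ℝ) : ℂ) * f1_K2_F x u)) :=
    hI2.const_mul (x : ℂ)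
  have j2 : Integrable (fun u : ℝ => (x : ℂ) * f1_K2_F x u) := hI.const_mul (x : ℂ)
  have j3 : Integrable (fun u : ℝ => (1 / 2 : ℂ) * f1_K2_F x u) := hI.const_mul _
  have j4 : Integrable (fun u : ℝ => (x : ℂ) * -(((Real.cosh u : ℝ) : ℂ) * f1_K2_F x u) -
    x * f1_K2_F x u) := j1.sub j2
  have j5 : Integrable (fun u : ℝ => cexp (-(x : ℂ) * (Real.cosh u : ℝ)) *
        (Complex.cosh (0 * u) * (Real.cosh (u / 2) : ℝ)) + (1 / 2) * f1_K2_F x u) := hS.add j3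
  rw [hψ, integral_add j4 j5, integral_sub j1 j2, integral_add hS j3, integral_const_mul,
    integral_const_mul, integral_const_mul] at h0
  linear_combination h0

theorem Vm_deriv_pr (ν : ℂ) {x : ℝ} (hx : 0 < x) :
    HasDerivAt (Vm ν) (Vm ν x + Vm ν x / (2 * x) - Wp ν x / x) x := by
  have hxc : (x : ℂ) ≠ 0 := ofReal_ne_zero.2 hx.ne'
  rcases eq_or_ne ν 0 with hν | hν
  · subst hν
    have h := (f1_K2_x x).mul (f1_K2_D hx)
    have hV : Vm 0 = fun y : ℝ => (y : ℂ) * ∫ u : ℝ, f1_K2_F y u := funext fun y => f1_K2_Vm0 y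
    have hW := (Wp_eq 0 hx).2
    have hp := f1_K2_parts hx
    rw [hV]
    have h' : HasDerivAt (fun y : ℝ => (y : ℂ) * ∫ u : ℝ, f1_K2_F y u) _ x := h
    refine h'.congr_deriv ?_
    change _ = (x : ℂ) * (∫ u : ℝ, f1_K2_F x u) + (x : ℂ) * (∫ u : ℝ, f1_K2_F x u) / (2 * x) -
      Wp 0 x / x
    rw [hW]
    generalize (∫ u : ℝ, cexp (-(x : ℂ) * (Real.cosh u : ℝ)) *
      (Complex.cosh (0 * u) * (Real.cosh (u / 2) : ℝ))) = S at hp ⊢
    generalize (∫ u : ℝ, f1_K2_F x u) = D at hp ⊢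
    generalize (∫ u : ℝ, -(((Real.cosh u : ℝ) : ℂ) * f1_K2_F x u)) = D' at hp ⊢
    field_simp
    linear_combination (2 : ℂ) * hp
  · have h := ((f1_K2_x x).mul ((f1_K2_plus ν hx).sub (f1_K2_minus ν hx))).const_mul ν⁻¹
    have hV : Vm ν =ᶠ[𝓝 x] fun y : ℝ => ν⁻¹ * ((y : ℂ) * (KK (ν + 1 / 2) y - KK (ν - 1 / 2) y)) := by
      filter_upwards [Ioi_mem_nhds hx] with y hy
      rw [← (Vm_eq ν hy).2]
      field_simp
    refine (HasDerivAt.congr_of_eventuallyEq h hV).congr_deriv ?_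
    have hVx : Vm ν x = ν⁻¹ * ((x : ℂ) * (KK (ν + 1 / 2) x - KK (ν - 1 / 2) x)) := hV.eq_of_nhds
    rw [hVx, Pi.sub_apply]
    unfold Wp
    field_simp
    ring

end Pool.Agent.JO.FM1

namespace Pool.Agent.JO.FM1

theorem Wp_deriv : type_of% @Wp_deriv_pr := @Wp_deriv_pr
theorem Vm_deriv : type_of% @Vm_deriv_pr := @Vm_deriv_pr

end Pool.Agent.JO.FM1
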