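import Pool.Agent.Lib_helper42.JO1.Defs
import Pool.Agent.Lib_helper45.JO.Defs2
import Pool.Agent.Lib_helper42.JO1F.K2

/-! # Block K3 (weight 1): the second order differential equations -/

set_option autoImplicit false

namespace Pool.Agent.JO.FM1

open Complex Filter Topology MeasureTheory Set
open UpperHalfPlane hiding I
open Pool.Agent.JO.FM
open scoped MatrixGroups ComplexConjugate

theorem f1_k3_inv {x : ℝ} (hx : x ≠ 0) :
    HasDerivAt (fun y : ℝ => ((y : ℂ))⁻¹) (-(((x : ℂ)) ^ 2)⁻¹) x := by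
  have hx' : (x : ℂ) ≠ 0 := by exact_mod_cast hx
  exact (hasDerivAt_inv hx').comp_ofReal

theorem Wp_deriv2_pr (ν : ℂ) {x : ℝ} (hx : 0 < x) :
    HasDerivAt (Wp ν) (deriv (Wp ν) x) x ∧
    HasDerivAt (deriv (Wp ν)) ((1 - 1 / (x : ℂ) + (ν ^ 2 - 1 / 4) / (x : ℂ) ^ 2) * Wp ν x) x := by
  have h1 := Wp_deriv ν hx
  have h2 := Vm_deriv ν hx
  have hx' : (x : ℂ) ≠ 0 := by exact_mod_cast hx.ne'
  refine ⟨h1.differentiableAt.hasDerivAt, ?_⟩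
  have h3 : deriv (Wp ν) =ᶠ[𝓝 x]
      fun y : ℝ => -Wp ν y + Wp ν y / 2 * ((y : ℂ))⁻¹ - ν ^ 2 * Vm ν y * ((y : ℂ))⁻¹ := by
    filter_upwards [lt_mem_nhds hx] with y hy
    rw [(Wp_deriv ν hy).deriv]
    have hy' : (y : ℂ) ≠ 0 := by exact_mod_cast hy.ne'
    field_simp
  have hi := f1_k3_inv hx.ne'
  have h4 := (h1.fun_neg.fun_add ((h1.div_const 2).fun_mul hi)).fun_sub
    ((h2.const_mul (ν ^ 2)).fun_mul hi)
  refine (h4.congr_of_eventuallyEq h3).congr_deriv ?_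
  field_simp
  ring

theorem Vm_deriv2_pr (ν : ℂ) {x : ℝ} (hx : 0 < x) :
    HasDerivAt (Vm ν) (deriv (Vm ν) x) x ∧
    HasDerivAt (deriv (Vm ν)) ((1 + 1 / (x : ℂ) + (ν ^ 2 - 1 / 4) / (x : ℂ) ^ 2) * Vm ν x) x := by
  have h1 := Wp_deriv ν hx
  have h2 := Vm_deriv ν hx
  have hx' : (x : ℂ) ≠ 0 := by exact_mod_cast hx.ne'
  refine ⟨h2.differentiableAt.hasDerivAt, ?_⟩
  have h3 : deriv (Vm ν) =ᶠ[𝓝 x]
      fun y : ℝ => Vm ν y + Vm ν y / 2 * ((y : ℂ))⁻¹ - Wp ν y * ((y : ℂ))⁻¹ := by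
    filter_upwards [lt_mem_nhds hx] with y hy
    rw [(Vm_deriv ν hy).deriv]
    have hy' : (y : ℂ) ≠ 0 := by exact_mod_cast hy.ne'
    field_simp
  have hi := f1_k3_inv hx.ne'
  have h4 := (h2.fun_add ((h2.div_const 2).fun_mul hi)).fun_sub (h1.fun_mul hi)
  refine (h4.congr_of_eventuallyEq h3).congr_deriv ?_
  field_simp
  ring

end Pool.Agent.JO.FM1

namespace Pool.Agent.JO.FM1

theorem Wp_deriv2 : type_of% @Wp_deriv2_pr := @Wp_deriv2_pr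
theorem Vm_deriv2 : type_of% @Vm_deriv2_pr := @Vm_deriv2_pr

end Pool.Agent.JO.FM1
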