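import Pool.Agent.Lib_helper42.JO1.Defs
import Pool.Agent.Lib_helper45.JO.Defs2
import Pool.Agent.Lib_helper42.JO1F.K1

/-!
-/

set_option autoImplicit false

namespace Pool.Agent.JO.FM1

open Complex Filter Topology MeasureTheory Set
open UpperHalfPlane hiding I
open Pool.Agent.JO.FM
open scoped MatrixGroups ComplexConjugate

theorem f1_K4_gauss (x : ℝ) :
    ∫ u : ℝ, Real.exp (-x * Real.cosh u) * Real.cosh (u / 2) =
      2 * Real.exp (-x) * √(Real.pi / (2 * x)) := by
  have h1 := integral_gaussian (2 * x)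
  have h2 := MeasureTheory.integral_image_eq_integral_abs_deriv_smul (s := (univ : Set ℝ))
    (f := fun u : ℝ => Real.sinh (u / 2)) (f' := fun u : ℝ => Real.cosh (u / 2) * (1 / 2))
    MeasurableSet.univ
    (fun u _ => by
      have h3 : HasDerivAt (fun u : ℝ => u / 2) (1 / 2) u := (hasDerivAt_id u).div_const 2
      exact ((Real.hasDerivAt_sinh (u / 2)).comp u h3).hasDerivWithinAt)
    (by
      intro a _ b _ hab
      have h3 : a / 2 = b / 2 := Real.sinh_injective hab
      linarith)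
    (fun w : ℝ => Real.exp (-(2 * x) * w ^ 2))
  have h4 : (fun u : ℝ => Real.sinh (u / 2)) '' (univ : Set ℝ) = univ := by
    apply Set.eq_univ_of_forall
    intro w
    refine ⟨2 * Real.arsinh w, trivial, ?_⟩
    simp only
    rw [mul_div_cancel_left₀ _ (two_ne_zero)]
    exact Real.sinh_arsinh w
  rw [h4] at h2
  simp only [Measure.restrict_univ] at h2
  rw [h1] at h2
  rw [h2, ← integral_const_mul]
  congr 1
  ext u
  have h5 : |Real.cosh (u / 2) * (1 / 2)| = Real.cosh (u / 2) * (1 / 2) :=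
    abs_of_pos (by positivity)
  rw [h5, smul_eq_mul]
  have h6 : Real.cosh u = 1 + 2 * Real.sinh (u / 2) ^ 2 := by
    have h7 := Real.cosh_two_mul (u / 2)
    have h8 := Real.cosh_sq (u / 2)
    rw [show 2 * (u / 2) = u by ring] at h7
    rw [h7, h8]
    ring
  have h9 : Real.exp (-x * Real.cosh u) =
      Real.exp (-x) * Real.exp (-(2 * x) * Real.sinh (u / 2) ^ 2) := by
    rw [← Real.exp_add, h6]
    congr 1
    ring
  rw [h9]
  ring

theorem f1_K4_val {x : ℝ} (hx : 0 < x) :
    x * (2 * Real.exp (-x) * √(Real.pi / (2 * x))) =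
      √(2 * Real.pi * x) * Real.exp (-x) := by
  have h1 : x * 2 * √(Real.pi / (2 * x)) = √(2 * Real.pi * x) := by
    have h2 : x * 2 = √((x * 2) ^ 2) := (Real.sqrt_sq (by positivity)).symm
    rw [h2, ← Real.sqrt_mul (by positivity)]
    congr 1
    field_simp
  calc x * (2 * Real.exp (-x) * √(Real.pi / (2 * x)))
      = (x * 2 * √(Real.pi / (2 * x))) * Real.exp (-x) := by ring
    _ = _ := by rw [h1]

theorem f1_K4_pt (x u : ℝ) : ‖cexp (-(x : ℂ) * (Real.cosh u : ℝ))‖ =
    Real.exp (-x * Real.cosh u) := by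
  rw [Complex.norm_exp]
  congr 1
  rw [← Complex.ofReal_neg, ← Complex.ofReal_mul, Complex.ofReal_re]

theorem f1_K4_int {x : ℝ} (hx : 0 < x) :
    Integrable (fun u : ℝ => Real.exp (-x * Real.cosh u) * Real.cosh (u / 2)) := by
  have h1 := (Wp_eq 0 hx).1.norm
  refine h1.congr (Eventually.of_forall fun u => ?_)
  simp only
  rw [norm_mul, f1_K4_pt, zero_mul, Complex.cosh_zero, one_mul, Complex.norm_real,
    Real.norm_of_nonneg (Real.cosh_pos _).le]

/-- K4: the closed form for `ν = 0` -/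
theorem Wp_zero_pr {x : ℝ} (hx : 0 < x) :
    Wp 0 x = ((√(2 * Real.pi * x) * Real.exp (-x) : ℝ) : ℂ) := by
  rw [(Wp_eq 0 hx).2, ← f1_K4_val hx, ← f1_K4_gauss x, Complex.ofReal_mul]
  congr 1
  refine Eq.trans ?_ integral_ofReal
  congr 1
  ext u
  have h1 : cexp (-(x : ℂ) * (Real.cosh u : ℝ)) = ((Real.exp (-x * Real.cosh u) : ℝ) : ℂ) := by
    rw [Complex.ofReal_exp]
    congr 1
    rw [Complex.ofReal_mul, Complex.ofReal_neg]
  rw [h1]
  rw [zero_mul, Complex.cosh_zero, one_mul]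
  exact (Complex.ofReal_mul _ _).symm

theorem f1_K4_im {ν : ℂ} (hν : ν.re = 0) (u : ℝ) :
    ν * u = ((ν.im * u : ℝ) : ℂ) * I := by
  apply Complex.ext <;> simp [hν]

/-- K4 -/
theorem Wp_le_pr {ν : ℂ} (hν : ν.re = 0) {x : ℝ} (hx : 0 < x) :
    ‖Wp ν x‖ ≤ √(2 * Real.pi * x) * Real.exp (-x) ∧
    ‖ν * Vm ν x‖ ≤ √(2 * Real.pi * x) * Real.exp (-x) := by
  rw [← f1_K4_val hx, ← f1_K4_gauss x]
  have hc : ∀ u : ℝ, ‖Complex.cosh (ν * u)‖ ≤ 1 := by
    intro u
    rw [f1_K4_im hν, Complex.cosh_mul_I, ← Complex.ofReal_cos, Complex.norm_real]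
    exact Real.abs_cos_le_one _
  have hs : ∀ u : ℝ, ‖Complex.sinh (ν * u)‖ ≤ 1 := by
    intro u
    rw [f1_K4_im hν, Complex.sinh_mul_I, norm_mul, Complex.norm_I, mul_one,
      ← Complex.ofReal_sin, Complex.norm_real]
    exact Real.abs_sin_le_one _
  constructor
  · rw [(Wp_eq ν hx).2, norm_mul, Complex.norm_real, Real.norm_of_nonneg hx.le]
    apply mul_le_mul_of_nonneg_left _ hx.le
    refine norm_integral_le_of_norm_le (f1_K4_int hx) (Eventually.of_forall fun u => ?_)
    rw [norm_mul, f1_K4_pt, norm_mul, Complex.norm_real,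
      Real.norm_of_nonneg (Real.cosh_pos _).le]
    apply mul_le_mul_of_nonneg_left _ (Real.exp_pos _).le
    calc ‖Complex.cosh (ν * u)‖ * Real.cosh (u / 2) ≤ 1 * Real.cosh (u / 2) :=
          mul_le_mul_of_nonneg_right (hc u) (Real.cosh_pos _).le
      _ = _ := one_mul _
  · by_cases h0 : ν = 0
    · rw [h0, zero_mul, norm_zero]
      apply mul_nonneg hx.le
      apply integral_nonneg
      intro u
      exact mul_nonneg (Real.exp_pos _).le (Real.cosh_pos _).le
    · unfold Vm
      rw [mul_left_comm, norm_mul, Complex.norm_real, Real.norm_of_nonneg hx.le,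
        ← integral_const_mul]
      apply mul_le_mul_of_nonneg_left _ hx.le
      refine norm_integral_le_of_norm_le (f1_K4_int hx) (Eventually.of_forall fun u => ?_)
      have h1 : ν * (cexp (-(x : ℂ) * (Real.cosh u : ℝ)) * (SS ν u * (Real.sinh (u / 2) : ℝ))) =
          cexp (-(x : ℂ) * (Real.cosh u : ℝ)) * (Complex.sinh (ν * u) * (Real.sinh (u / 2) : ℝ)) := by
        unfold SS
        rw [if_neg h0]
        field_simp
      rw [h1, norm_mul, f1_K4_pt, norm_mul, Complex.norm_real]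
      apply mul_le_mul_of_nonneg_left _ (Real.exp_pos _).le
      have h2 : ‖Real.sinh (u / 2)‖ ≤ Real.cosh (u / 2) := by
        rw [Real.norm_eq_abs]
        have h3 := Real.cosh_sq (u / 2)
        apply abs_le_of_sq_le_sq _ (Real.cosh_pos _).le
        rw [h3]
        linarith
      calc ‖Complex.sinh (ν * u)‖ * ‖Real.sinh (u / 2)‖ ≤ 1 * Real.cosh (u / 2) :=
            mul_le_mul (hs u) h2 (norm_nonneg _) zero_le_one
        _ = _ := one_mul _

end Pool.Agent.JO.FM1

namespace Pool.Agent.JO.FM1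

theorem Wp_zero : type_of% @Wp_zero_pr := @Wp_zero_pr
theorem Wp_le : type_of% @Wp_le_pr := @Wp_le_pr

end Pool.Agent.JO.FM1
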