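import Pool.Agent.Lib_helper42.JO1.Defs
import Pool.Agent.Lib_helper45.JO.Defs2
import Pool.Agent.Lib_helper42.JO1F.K2
import Pool.Agent.Lib_helper42.JO1F.K3
import Pool.Agent.Lib_helper42.JO1F.K4
import Pool.Agent.Lib_helper45.JOM.KKA

/-! JO, Maass frame of weight 1, block K5 (helper47) -/

set_option autoImplicit false

namespace Pool.Agent.JO.FM1

open Complex Filter Topology MeasureTheory Set
open UpperHalfPlane hiding I
open Pool.Agent.JO.FM
open scoped MatrixGroups ComplexConjugate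

theorem f1_k5_SS {ν : ℂ} (hν : ν.re = 0) (u : ℝ) : ‖SS ν u‖ ≤ |u| := by
  unfold SS
  split_ifs with h
  · simp
  · have e : ν = ((ν.im : ℝ) : ℂ) * I := by
      apply Complex.ext <;> simp [hν]
    have him : ν.im ≠ 0 := by
      intro h0
      apply h
      rw [e, h0]
      simp
    have e2 : ν * (u : ℂ) = ((ν.im * u : ℝ) : ℂ) * I := by
      rw [e]
      simp
      ring
    rw [e2, Complex.sinh_mul_I, norm_div, norm_mul, Complex.norm_I, mul_one,
      ← Complex.ofReal_sin, Complex.norm_real]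
    have e3 : ‖ν‖ = |ν.im| := by
      rw [e]
      simp
    rw [e3, Real.norm_eq_abs, div_le_iff₀ (abs_pos.mpr him)]
    have h1 : |Real.sin (ν.im * u)| ≤ |ν.im * u| := Real.abs_sin_le_abs
    rw [abs_mul] at h1
    linarith

theorem f1_k5_u {b : ℝ} (hb : 0 < b) (u : ℝ) :
    |u| * |Real.sinh (u / 2)| ≤ 1 / b *
      (Real.exp ((1 / 2 + b) * u) + Real.exp (-((1 / 2 + b) * u))) := by
  have h1 : |Real.sinh (u / 2)| ≤ Real.exp (|u| / 2) := by
    rw [Real.abs_sinh]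
    have e : |u / 2| = |u| / 2 := by rw [abs_div]; norm_num
    rw [e, Real.sinh_eq]
    have := Real.exp_pos (-(|u| / 2))
    have := Real.exp_pos ((|u| / 2))
    linarith
  have h2 : |u| ≤ 1 / b * Real.exp (b * |u|) := by
    have := Real.add_one_le_exp (b * |u|)
    rw [div_mul_eq_mul_div, le_div_iff₀ hb]
    nlinarith
  have h3 : Real.exp (b * |u|) * Real.exp (|u| / 2) ≤
      Real.exp ((1 / 2 + b) * u) + Real.exp (-((1 / 2 + b) * u)) := by
    rw [← Real.exp_add]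
    rcases abs_cases u with ⟨h, -⟩ | ⟨h, -⟩
    · rw [h]
      have : b * u + u / 2 = (1 / 2 + b) * u := by ring
      rw [this]
      have := Real.exp_pos (-((1 / 2 + b) * u))
      linarith
    · rw [h]
      have : b * -u + -u / 2 = -((1 / 2 + b) * u) := by ring
      rw [this]
      have := Real.exp_pos (((1 / 2 + b) * u))
      linarith
  calc |u| * |Real.sinh (u / 2)| ≤ (1 / b * Real.exp (b * |u|)) * Real.exp (|u| / 2) := by
        gcongr
    _ = 1 / b * (Real.exp (b * |u|) * Real.exp (|u| / 2)) := by ring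
    _ ≤ _ := by gcongr

theorem f1_k5_KK (μ : ℝ) {x : ℝ} (hx : 0 < x) :
    Integrable (fun u : ℝ => Real.exp (-x * Real.cosh u + μ * u)) ∧
    ∫ u : ℝ, Real.exp (-x * Real.cosh u + μ * u) = 2 * ‖KK (μ : ℂ) x‖ := by
  have e : (fun u : ℝ => cexp (-(x : ℂ) * (Real.cosh u : ℝ) + (μ : ℂ) * u)) =
      fun u : ℝ => ((Real.exp (-x * Real.cosh u + μ * u) : ℝ) : ℂ) := by
    funext u
    push_cast
    rfl
  have hi := KK_int (μ : ℂ) hx
  rw [e] at hi
  have hi' : Integrable (fun u : ℝ => Real.exp (-x * Real.cosh u + μ * u)) := by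
    exact hi.re.congr (Eventually.of_forall fun u => Complex.ofReal_re _)
  refine ⟨hi', ?_⟩
  unfold KK
  rw [e, integral_complex_ofReal, norm_mul, Complex.norm_real, Real.norm_eq_abs,
    abs_of_nonneg (integral_nonneg fun u => (Real.exp_pos _).le)]
  have h2 : ‖(1 / 2 : ℂ)‖ = 1 / 2 := by norm_num
  rw [h2]
  ring

theorem Vm_bound_pr {ν : ℂ} (hν : ν.re = 0) {b : ℝ} (hb : 0 < b) :
    ∃ C : ℝ, ∀ x : ℝ, 0 < x → ‖Vm ν x‖ ≤ C * x ^ (1 / 2 - b) * Real.exp (-(x / 2)) := by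
  have hμ : (0 : ℝ) < 1 / 2 + b := by linarith
  obtain ⟨C, hC⟩ := KK_bound_real hμ
  refine ⟨1 / b * (4 * C), fun x hx => ?_⟩
  obtain ⟨hi1, he1⟩ := f1_k5_KK (1 / 2 + b) hx
  obtain ⟨hi2, he2⟩ := f1_k5_KK (-(1 / 2 + b)) hx
  have hneg : ‖KK ((-(1 / 2 + b) : ℝ) : ℂ) x‖ = ‖KK ((1 / 2 + b : ℝ) : ℂ) x‖ := by
    rw [Complex.ofReal_neg, KK_neg]
  rw [hneg] at he2
  have hb1 : ‖∫ u : ℝ, cexp (-(x : ℂ) * (Real.cosh u : ℝ)) *
      (SS ν u * (Real.sinh (u / 2) : ℝ))‖ ≤ 1 / b * (4 * ‖KK ((1 / 2 + b : ℝ) : ℂ) x‖) := by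
    calc ‖∫ u : ℝ, cexp (-(x : ℂ) * (Real.cosh u : ℝ)) * (SS ν u * (Real.sinh (u / 2) : ℝ))‖
        ≤ ∫ u : ℝ, 1 / b * (Real.exp (-x * Real.cosh u + (1 / 2 + b) * u) +
            Real.exp (-x * Real.cosh u + (-(1 / 2 + b)) * u)) := by
          refine norm_integral_le_of_norm_le ((hi1.add hi2).const_mul (1 / b)) ?_
          refine Eventually.of_forall fun u => ?_
          have h1 : ‖cexp (-(x : ℂ) * (Real.cosh u : ℝ))‖ = Real.exp (-x * Real.cosh u) := by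
            rw [Complex.norm_exp]
            congr 1
            simp
          rw [norm_mul, norm_mul, h1, Complex.norm_real, Real.norm_eq_abs]
          have h2 := f1_k5_SS hν u
          have h3 := f1_k5_u hb u
          have h4 : ‖SS ν u‖ * |Real.sinh (u / 2)| ≤ 1 / b *
              (Real.exp ((1 / 2 + b) * u) + Real.exp (-((1 / 2 + b) * u))) :=
            (mul_le_mul_of_nonneg_right h2 (abs_nonneg _)).trans h3
          calc Real.exp (-x * Real.cosh u) * (‖SS ν u‖ * |Real.sinh (u / 2)|)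
              ≤ Real.exp (-x * Real.cosh u) * (1 / b *
                (Real.exp ((1 / 2 + b) * u) + Real.exp (-((1 / 2 + b) * u)))) := by gcongr
            _ = _ := by
              rw [Real.exp_add, Real.exp_add, neg_mul ((1 / 2 + b)) u]
              ring
      _ = _ := by
          rw [integral_const_mul]
          have e5 := integral_add hi1 hi2
          rw [e5, he1, he2]
          ring
  unfold Vm
  rw [norm_mul, Complex.norm_real, Real.norm_eq_abs, abs_of_pos hx]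
  have hCx := hC x hx
  have e6 : x * x ^ (-(1 / 2 + b)) = x ^ (1 / 2 - b) := by
    nth_rewrite 1 [← Real.rpow_one x]
    rw [← Real.rpow_add hx]
    congr 1
    ring
  calc x * ‖∫ u : ℝ, cexp (-(x : ℂ) * (Real.cosh u : ℝ)) * (SS ν u * (Real.sinh (u / 2) : ℝ))‖
      ≤ x * (1 / b * (4 * (C * x ^ (-(1 / 2 + b)) * Real.exp (-(x / 2))))) := by
        gcongr
        refine hb1.trans ?_
        gcongr
    _ = 1 / b * (4 * C) * (x * x ^ (-(1 / 2 + b))) * Real.exp (-(x / 2)) := by ring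
    _ = _ := by rw [e6]

theorem f1_k5_pow {b : ℝ} (hb : 0 < b) {x : ℝ} (hx : 0 < x) :
    x ^ b ≤ (2 * b) ^ b * Real.exp (x / 2) := by
  have h1 : x = 2 * b * (x / (2 * b)) := by field_simp
  have h2 : (x / (2 * b)) ^ b ≤ Real.exp (x / 2) := by
    rw [Real.rpow_def_of_pos (by positivity)]
    apply Real.exp_le_exp.mpr
    have h3 := Real.log_le_sub_one_of_pos (show 0 < x / (2 * b) by positivity)
    have h4 : Real.log (x / (2 * b)) ≤ x / (2 * b) := by linarith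
    calc Real.log (x / (2 * b)) * b ≤ x / (2 * b) * b := by gcongr
      _ = x / 2 := by field_simp
  calc x ^ b = (2 * b * (x / (2 * b))) ^ b := by rw [← h1]
    _ = (2 * b) ^ b * (x / (2 * b)) ^ b := Real.mul_rpow (by positivity) (by positivity)
    _ ≤ _ := by gcongr

theorem f1_k5_Wp {ν : ℂ} (hν : ν.re = 0) {b : ℝ} (hb : 0 < b) {x : ℝ} (hx : 0 < x) :
    ‖Wp ν x‖ ≤ √(2 * Real.pi) * (2 * b) ^ b * x ^ (1 / 2 - b) * Real.exp (-(x / 2)) := by
  refine (Wp_le hν hx).1.trans ?_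
  have h1 : √(2 * Real.pi * x) = √(2 * Real.pi) * (x ^ (1 / 2 - b) * x ^ b) := by
    rw [Real.sqrt_mul (by positivity), ← Real.rpow_add hx, Real.sqrt_eq_rpow x]
    congr 2
    ring
  have h2 := f1_k5_pow hb hx
  have h3 : Real.exp (-x) = Real.exp (-(x / 2)) * Real.exp (-(x / 2)) := by
    rw [← Real.exp_add]
    congr 1
    ring
  have h4 : Real.exp (x / 2) * Real.exp (-(x / 2)) = 1 := by
    rw [← Real.exp_add]
    simp
  rw [h1, h3]
  calc √(2 * Real.pi) * (x ^ (1 / 2 - b) * x ^ b) * (Real.exp (-(x / 2)) * Real.exp (-(x / 2)))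
      ≤ √(2 * Real.pi) * (x ^ (1 / 2 - b) * ((2 * b) ^ b * Real.exp (x / 2))) *
        (Real.exp (-(x / 2)) * Real.exp (-(x / 2))) := by gcongr
    _ = √(2 * Real.pi) * (2 * b) ^ b * x ^ (1 / 2 - b) * Real.exp (-(x / 2)) *
        (Real.exp (x / 2) * Real.exp (-(x / 2))) := by ring
    _ = _ := by rw [h4, mul_one]

theorem f1_k5_exp (c : ℝ) (hc : 0 ≤ c) {x : ℝ} (hx : 0 < x) :
    (x ^ 2 + x + c) * Real.exp (-(x / 2)) ≤ (36 + c) * Real.exp (-(x / 4)) := by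
  have h1 : x ^ 2 ≤ 32 * Real.exp (x / 4) := by
    have := Real.quadratic_le_exp_of_nonneg (show 0 ≤ x / 4 by positivity)
    nlinarith
  have h2 : x ≤ 4 * Real.exp (x / 4) := by
    have := Real.add_one_le_exp (x / 4)
    linarith
  have h3 : (1 : ℝ) ≤ Real.exp (x / 4) := Real.one_le_exp (by positivity)
  have h4 : x ^ 2 + x + c ≤ (36 + c) * Real.exp (x / 4) := by nlinarith
  have h5 : Real.exp (-(x / 2)) = Real.exp (-(x / 4)) * Real.exp (-(x / 4)) := by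
    rw [← Real.exp_add]
    congr 1
    ring
  have h6 : Real.exp (x / 4) * Real.exp (-(x / 4)) = 1 := by
    rw [← Real.exp_add]
    simp
  rw [h5]
  calc (x ^ 2 + x + c) * (Real.exp (-(x / 4)) * Real.exp (-(x / 4)))
      ≤ ((36 + c) * Real.exp (x / 4)) * (Real.exp (-(x / 4)) * Real.exp (-(x / 4))) := by gcongr
    _ = (36 + c) * Real.exp (-(x / 4)) * (Real.exp (x / 4) * Real.exp (-(x / 4))) := by ring
    _ = _ := by rw [h6, mul_one]

/-- both functions at once: `W' = σ W + W/(2x) - c V/x`, `W'' = (1 ± 1/x + d/x²) W` -/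
theorem f1_k5_core {W V : ℝ → ℂ} {C e₁ : ℝ} {d₁ d₂ d₃ : ℂ} (hC : 0 ≤ C)
    (hd₁ : ‖d₁‖ = 1) (hd₃ : ‖d₃‖ = 1) {cV : ℂ}
    (hW : ∀ x : ℝ, 0 < x → ‖W x‖ ≤ C * x ^ e₁ * Real.exp (-(x / 2)))
    (hV : ∀ x : ℝ, 0 < x → ‖V x‖ ≤ C * x ^ e₁ * Real.exp (-(x / 2))) {x : ℝ} (hx : 0 < x) :
    x * ‖d₁ * W x + W x / (2 * x) - cV / x * V x‖ ≤
      ((36 + (1 + ‖cV‖)) * C) * x ^ e₁ * Real.exp (-(x / 4)) ∧
    x ^ 2 * ‖(1 + d₃ / (x : ℂ) + d₂ / (x : ℂ) ^ 2) * W x‖ ≤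
      ((36 + ‖d₂‖) * C) * x ^ e₁ * Real.exp (-(x / 4)) := by
  have hWx := hW x hx
  have hVx := hV x hx
  have hp : 0 ≤ C * x ^ e₁ := mul_nonneg hC (Real.rpow_nonneg hx.le _)
  have nx : ‖(x : ℂ)‖ = x := by rw [Complex.norm_real, Real.norm_eq_abs, abs_of_pos hx]
  constructor
  · have h1 : ‖d₁ * W x + W x / (2 * x) - cV / x * V x‖ ≤
        ‖W x‖ + ‖W x‖ / (2 * x) + ‖cV‖ / x * ‖V x‖ := by
      refine (norm_sub_le _ _).trans ?_
      gcongr
      · refine (norm_add_le _ _).trans ?_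
        rw [norm_mul, hd₁, one_mul, norm_div, norm_mul, nx]
        simp
      · rw [norm_mul, norm_div, nx]
    calc x * ‖d₁ * W x + W x / (2 * x) - cV / x * V x‖
        ≤ x * (‖W x‖ + ‖W x‖ / (2 * x) + ‖cV‖ / x * ‖V x‖) := by gcongr
      _ = x * ‖W x‖ + ‖W x‖ / 2 + ‖cV‖ * ‖V x‖ := by field_simp
      _ ≤ x * (C * x ^ e₁ * Real.exp (-(x / 2))) + (C * x ^ e₁ * Real.exp (-(x / 2))) / 2 +
          ‖cV‖ * (C * x ^ e₁ * Real.exp (-(x / 2))) := by gcongr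
      _ = (C * x ^ e₁) * ((x + 1 / 2 + ‖cV‖) * Real.exp (-(x / 2))) := by ring
      _ ≤ (C * x ^ e₁) * ((x ^ 2 + x + (1 + ‖cV‖)) * Real.exp (-(x / 2))) := by
          refine mul_le_mul_of_nonneg_left ?_ hp
          refine mul_le_mul_of_nonneg_right ?_ (Real.exp_pos _).le
          nlinarith [sq_nonneg x]
      _ ≤ (C * x ^ e₁) * ((36 + (1 + ‖cV‖)) * Real.exp (-(x / 4))) := by
          refine mul_le_mul_of_nonneg_left ?_ hp
          exact f1_k5_exp _ (by positivity) hx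
      _ = _ := by ring
  · have h1 : ‖(1 + d₃ / (x : ℂ) + d₂ / (x : ℂ) ^ 2)‖ ≤ 1 + 1 / x + ‖d₂‖ / x ^ 2 := by
      refine (norm_add₃_le).trans ?_
      rw [norm_div, norm_div, norm_pow, nx, hd₃, norm_one]
    calc x ^ 2 * ‖(1 + d₃ / (x : ℂ) + d₂ / (x : ℂ) ^ 2) * W x‖
        ≤ x ^ 2 * ((1 + 1 / x + ‖d₂‖ / x ^ 2) * (C * x ^ e₁ * Real.exp (-(x / 2)))) := by
          rw [norm_mul]
          gcongr
      _ = (C * x ^ e₁) * ((x ^ 2 + x + ‖d₂‖) * Real.exp (-(x / 2))) := by field_simp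
      _ ≤ (C * x ^ e₁) * ((36 + ‖d₂‖) * Real.exp (-(x / 4))) := by
          refine mul_le_mul_of_nonneg_left ?_ hp
          exact f1_k5_exp _ (norm_nonneg _) hx
      _ = _ := by ring

theorem Wz_bound_pr {ν : ℂ} (hν : ν.re = 0) {b : ℝ} (hb : 0 < b) :
    ∃ C : ℝ, ∀ (m : ℤ) (x : ℝ), 0 < x → ‖Wz ν m x‖ ≤ C * x ^ (1 / 2 - b) * Real.exp (-(x / 2)) ∧
      x * ‖deriv (Wz ν m) x‖ ≤ C * x ^ (1 / 2 - b) * Real.exp (-(x / 4)) ∧
      x ^ 2 * ‖deriv (deriv (Wz ν m)) x‖ ≤ C * x ^ (1 / 2 - b) * Real.exp (-(x / 4)) := by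
  obtain ⟨C₁, hC₁⟩ := Vm_bound_pr hν hb
  set C₀ : ℝ := max |C₁| (√(2 * Real.pi) * (2 * b) ^ b) with hC₀
  have hC₀0 : 0 ≤ C₀ := (abs_nonneg _).trans (le_max_left _ _)
  have hV : ∀ x : ℝ, 0 < x → ‖Vm ν x‖ ≤ C₀ * x ^ (1 / 2 - b) * Real.exp (-(x / 2)) := by
    intro x hx
    refine (hC₁ x hx).trans ?_
    have h1 := Real.rpow_nonneg hx.le (1 / 2 - b)
    have h2 : C₁ ≤ C₀ := (le_abs_self _).trans (le_max_left _ _)
    gcongr
  have hW : ∀ x : ℝ, 0 < x → ‖Wp ν x‖ ≤ C₀ * x ^ (1 / 2 - b) * Real.exp (-(x / 2)) := by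
    intro x hx
    refine (f1_k5_Wp hν hb hx).trans ?_
    have h1 := Real.rpow_nonneg hx.le (1 / 2 - b)
    have h2 : √(2 * Real.pi) * (2 * b) ^ b ≤ C₀ := le_max_right _ _
    gcongr
  set D : ℝ := (36 + (1 + ‖ν ^ 2‖) + 1 + ‖ν ^ 2 - 1 / 4‖) * C₀ with hD
  have hn1 := norm_nonneg (ν ^ 2)
  have hn2 := norm_nonneg (ν ^ 2 - 1 / 4)
  have hD0 : C₀ ≤ D := by
    rw [hD]
    nlinarith
  have hD1 : (36 + (1 + ‖ν ^ 2‖)) * C₀ ≤ D := by
    rw [hD]
    refine mul_le_mul_of_nonneg_right ?_ hC₀0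
    linarith
  have hD2 : (36 + (1 + ‖(1 : ℂ)‖)) * C₀ ≤ D := by
    rw [hD, norm_one]
    refine mul_le_mul_of_nonneg_right ?_ hC₀0
    linarith
  have hD3 : (36 + ‖ν ^ 2 - 1 / 4‖) * C₀ ≤ D := by
    rw [hD]
    refine mul_le_mul_of_nonneg_right ?_ hC₀0
    linarith
  have hwk : ∀ {A x y : ℝ}, 0 < x → A ≤ D →
      A * x ^ (1 / 2 - b) * Real.exp y ≤ D * x ^ (1 / 2 - b) * Real.exp y := by
    intro A x y hx h
    have h1 := Real.rpow_nonneg hx.le (1 / 2 - b)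
    gcongr
  refine ⟨D, fun m x hx => ?_⟩
  by_cases hm : 0 < m
  · have e : Wz ν m = Wp ν := by
      funext y
      unfold Wz
      rw [if_pos hm]
    rw [e]
    refine ⟨(hW x hx).trans (hwk hx hD0), ?_, ?_⟩
    · rw [(Wp_deriv ν hx).deriv]
      have h := (f1_k5_core (W := Wp ν) (V := Vm ν) (d₁ := -1) (d₂ := 0) (d₃ := 1) (cV := ν ^ 2)
        hC₀0 (by simp) (by simp) hW hV hx).1
      rw [neg_one_mul] at h
      exact h.trans (hwk hx hD1)
    · rw [(Wp_deriv2 ν hx).2.deriv]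
      have h := (f1_k5_core (W := Wp ν) (V := Vm ν) (d₁ := -1) (d₂ := ν ^ 2 - 1 / 4) (d₃ := -1)
        (cV := ν ^ 2) hC₀0 (by simp) (by simp) hW hV hx).2
      have e2 : (1 : ℂ) + (-1) / (x : ℂ) = 1 - 1 / (x : ℂ) := by ring
      rw [e2] at h
      exact h.trans (hwk hx hD3)
  · have e : Wz ν m = Vm ν := by
      funext y
      unfold Wz
      rw [if_neg hm]
    rw [e]
    refine ⟨(hV x hx).trans (hwk hx hD0), ?_, ?_⟩
    · rw [(Vm_deriv ν hx).deriv]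
      have h := (f1_k5_core (W := Vm ν) (V := Wp ν) (d₁ := 1) (d₂ := 0) (d₃ := 1) (cV := 1)
        hC₀0 (by simp) (by simp) hV hW hx).1
      rw [one_mul] at h
      have e2 : (1 : ℂ) / (x : ℂ) * Wp ν x = Wp ν x / x := by ring
      rw [e2] at h
      exact h.trans (hwk hx hD2)
    · rw [(Vm_deriv2 ν hx).2.deriv]
      have h := (f1_k5_core (W := Vm ν) (V := Wp ν) (d₁ := 1) (d₂ := ν ^ 2 - 1 / 4) (d₃ := 1)
        (cV := 1) hC₀0 (by simp) (by simp) hV hW hx).2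
      exact h.trans (hwk hx hD3)


end Pool.Agent.JO.FM1

namespace Pool.Agent.JO.FM1

theorem Vm_bound : type_of% @Vm_bound_pr := @Vm_bound_pr
theorem Wz_bound : type_of% @Wz_bound_pr := @Wz_bound_pr

end Pool.Agent.JO.FM1
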