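import Pool.Agent.Lib_helper42.JO1.Defs
import Pool.Agent.Lib_helper45.JO.Defs2
import Pool.Agent.Lib_helper42.JO1F.K2
import Pool.Agent.Lib_helper42.JO1F.K5
import Pool.Agent.Lib_helper45.JOM.KKA

/-! # Block K6 (weight 1): lower bounds for the Whittaker functions -/

set_option autoImplicit false

namespace Pool.Agent.JO.FM1

open Complex Filter Topology MeasureTheory Set
open UpperHalfPlane hiding I
open Pool.Agent.JO.FM
open scoped MatrixGroups ComplexConjugate

/-- K6 -/
theorem Wp_low_pr {ν : ℂ} (hν : ν.re = 0) :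
    ∃ x₀ : ℝ, 1 ≤ x₀ ∧ ∀ x : ℝ, x₀ ≤ x → Real.exp (-x) ≤ (Wp ν x).re := by
  have h1 := (KK_asymp (ν + 1 / 2)).add (KK_asymp (ν - 1 / 2))
  have h2 := (Complex.continuous_re.tendsto _).comp h1
  have h3 : (1 : ℝ) < (((√(Real.pi / 2) : ℝ) : ℂ) + ((√(Real.pi / 2) : ℝ) : ℂ)).re := by
    have h4 : (1 : ℝ) ≤ √(Real.pi / 2) := by
      rw [Real.one_le_sqrt]
      have := Real.two_le_pi
      linarith
    simp only [Complex.add_re, Complex.ofReal_re]
    linarith
  have h4 := h2.eventually (lt_mem_nhds h3)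
  obtain ⟨x₁, hx₁⟩ := eventually_atTop.1 h4
  refine ⟨max x₁ 1, le_max_right _ _, fun x hx => ?_⟩
  have hx1 : 1 ≤ x := (le_max_right _ _).trans hx
  have hx0 : 0 < x := by linarith
  have h5 := hx₁ x ((le_max_left _ _).trans hx)
  have h6 : ((((√x * Real.exp x : ℝ) : ℂ) * KK (ν + 1 / 2) x +
      ((√x * Real.exp x : ℝ) : ℂ) * KK (ν - 1 / 2) x)).re =
      √x * Real.exp x * (KK (ν + 1 / 2) x + KK (ν - 1 / 2) x).re := by
    rw [← mul_add, Complex.re_ofReal_mul]
  have h7 : 1 < √x * Real.exp x * (KK (ν + 1 / 2) x + KK (ν - 1 / 2) x).re := by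
    rw [← h6]
    exact h5
  have h8 : (Wp ν x).re = x * (KK (ν + 1 / 2) x + KK (ν - 1 / 2) x).re := by
    unfold Wp
    rw [Complex.re_ofReal_mul]
  rw [h8]
  set c := (KK (ν + 1 / 2) x + KK (ν - 1 / 2) x).re
  have hs1 : 1 ≤ √x := by rw [Real.one_le_sqrt]; exact hx1
  have hss : √x * √x = x := Real.mul_self_sqrt hx0.le
  have h9 : Real.exp (-x) * Real.exp x = 1 := by rw [← Real.exp_add]; simp
  have hc : 0 < c := by
    by_contra hcon
    push Not at hcon
    have : √x * Real.exp x * c ≤ 0 := mul_nonpos_of_nonneg_of_nonpos (by positivity) hcon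
    linarith
  have h10 : √x * Real.exp x * c ≤ x * Real.exp x * c := by
    have : √x ≤ x := by nlinarith
    gcongr
  have h11 : Real.exp (-x) * 1 ≤ Real.exp (-x) * (x * Real.exp x * c) := by
    apply mul_le_mul_of_nonneg_left (h7.le.trans h10) (Real.exp_pos _).le
  calc Real.exp (-x) = Real.exp (-x) * 1 := by ring
    _ ≤ Real.exp (-x) * (x * Real.exp x * c) := h11
    _ = (Real.exp (-x) * Real.exp x) * (x * c) := by ring
    _ = x * c := by rw [h9]; ring

/-- K6 -/
theorem Vm_low_pr {ν : ℂ} (hν : ν.re = 0) :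
    ∃ x₀ : ℝ, 1 ≤ x₀ ∧ ∀ x : ℝ, x₀ ≤ x → Real.exp (-(2 * x)) ≤ (Vm ν x).re := by
  obtain ⟨x₁, hx₁, hW⟩ := Wp_low_pr hν
  obtain ⟨C, hC⟩ := Vm_bound hν (b := 1 / 2) (by norm_num)
  let k : ℝ → ℝ := fun x => Real.exp (-x - Real.log x / 2)
  let h : ℝ → ℝ := fun x => (Vm ν x).re * k x
  have hder : ∀ x : ℝ, 0 < x → HasDerivAt h (-((Wp ν x).re * k x / x)) x := by
    intro x hx
    have h1 : HasDerivAt (fun x : ℝ => (Vm ν x).re)
        (Vm ν x + Vm ν x / (2 * x) - Wp ν x / x).re x :=
      Complex.reCLM.hasFDerivAt.comp_hasDerivAt x (Vm_deriv ν hx)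
    have h2 : (Vm ν x + Vm ν x / (2 * x) - Wp ν x / x).re =
        (Vm ν x).re + (Vm ν x).re / (2 * x) - (Wp ν x).re / x := by
      have e1 : (2 * (x : ℂ)) = ((2 * x : ℝ) : ℂ) := by push_cast; ring
      rw [e1, Complex.sub_re, Complex.add_re, Complex.div_ofReal_re, Complex.div_ofReal_re]
    rw [h2] at h1
    have h3 : HasDerivAt k (k x * (-1 - 1 / x / 2)) x := by
      have := (((hasDerivAt_id x).neg).sub ((Real.hasDerivAt_log hx.ne').div_const 2)).exp
      have e : x⁻¹ = 1 / x := by rw [one_div]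
      rw [e] at this
      exact this
    have h4 := h1.mul h3
    refine HasDerivAt.congr_deriv h4 ?_
    have hx' : x ≠ 0 := hx.ne'
    field_simp
    ring
  have hk0 : ∀ x, 0 < k x := fun x => Real.exp_pos _
  have hanti : AntitoneOn h (Ici x₁) := by
    apply antitoneOn_of_deriv_nonpos (convex_Ici x₁)
    · intro x hx
      have hx0 : 0 < x := by have : x₁ ≤ x := hx; linarith
      exact (hder x hx0).continuousAt.continuousWithinAt
    · intro x hx
      rw [interior_Ici] at hx
      have hx0 : 0 < x := by have : x₁ < x := hx; linarith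
      exact (hder x hx0).differentiableAt.differentiableWithinAt
    · intro x hx
      rw [interior_Ici] at hx
      have hx1 : x₁ < x := hx
      have hx0 : 0 < x := by linarith
      rw [(hder x hx0).deriv]
      have : 0 ≤ (Wp ν x).re * k x / x := by
        have h5 := hW x hx1.le
        have h6 : 0 ≤ (Wp ν x).re := (Real.exp_pos _).le.trans h5
        have := hk0 x
        positivity
      linarith
  have hlim : Tendsto h atTop (𝓝 0) := by
    have h1 : Tendsto (fun x : ℝ => |C| * Real.exp (-(x / 2))) atTop (𝓝 0) := by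
      have : Tendsto (fun x : ℝ => Real.exp (-(x / 2))) atTop (𝓝 0) := by
        apply Real.tendsto_exp_neg_atTop_nhds_zero.comp
        exact tendsto_id.atTop_div_const (by norm_num)
      simpa using this.const_mul |C|
    apply squeeze_zero_norm' _ h1
    filter_upwards [eventually_ge_atTop (1 : ℝ)] with x hx
    have hx0 : 0 < x := by linarith
    have h2 := hC x hx0
    have h3 : k x ≤ 1 := by
      apply Real.exp_le_one_iff.2
      have := Real.log_nonneg hx
      linarith
    have h4 : x ^ ((1 : ℝ) / 2 - 1 / 2) = 1 := by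
      rw [sub_self, Real.rpow_zero]
    rw [h4, mul_one] at h2
    have h5 : |(Vm ν x).re| ≤ ‖Vm ν x‖ := Complex.abs_re_le_norm _
    show ‖(Vm ν x).re * k x‖ ≤ _
    rw [norm_mul, Real.norm_eq_abs, Real.norm_eq_abs, abs_of_pos (hk0 x)]
    calc |(Vm ν x).re| * k x ≤ |(Vm ν x).re| * 1 := by
          apply mul_le_mul_of_nonneg_left h3 (abs_nonneg _)
      _ = |(Vm ν x).re| := mul_one _
      _ ≤ C * Real.exp (-(x / 2)) := h5.trans h2
      _ ≤ |C| * Real.exp (-(x / 2)) := by
          apply mul_le_mul_of_nonneg_right (le_abs_self _) (Real.exp_pos _).le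
  have hnn : ∀ x, x₁ ≤ x → 0 ≤ h x := by
    intro x hx
    apply le_of_tendsto hlim
    filter_upwards [eventually_ge_atTop x] with z hz
    exact hanti (by exact hx) (by exact hx.trans hz) hz
  refine ⟨max x₁ 8, hx₁.trans (le_max_left _ _), fun x hx => ?_⟩
  have hxx : x₁ ≤ x := (le_max_left _ _).trans hx
  have hx8 : 8 ≤ x := (le_max_right _ _).trans hx
  have hx0 : 0 < x := by linarith
  obtain ⟨ξ, hξ, hm⟩ := exists_hasDerivAt_eq_slope h (fun x => -((Wp ν x).re * k x / x))
    (show x < x + 1 by linarith)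
    (fun y hy => (hder y (by linarith [hy.1])).continuousAt.continuousWithinAt)
    (fun y hy => hder y (by linarith [hy.1]))
  have hξ0 : 0 < ξ := by linarith [hξ.1]
  have h1 : h x = h (x + 1) + (Wp ν ξ).re * k ξ / ξ := by
    have : x + 1 - x = 1 := by ring
    rw [this, div_one] at hm
    linarith
  have h2 : Real.exp (-ξ) * k ξ / ξ ≤ h x := by
    have h3 := hnn (x + 1) (by linarith)
    have h4 := hW ξ (by linarith [hξ.1])
    have h5 : Real.exp (-ξ) * k ξ / ξ ≤ (Wp ν ξ).re * k ξ / ξ := by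
      have := (hk0 ξ).le
      gcongr
    linarith
  have h3 : Real.exp (-ξ) * k ξ / ξ = Real.exp (-(2 * ξ) - 3 / 2 * Real.log ξ) := by
    show Real.exp (-ξ) * Real.exp (-ξ - Real.log ξ / 2) / ξ = _
    rw [← Real.exp_add]
    nth_rewrite 4 [← Real.exp_log hξ0]
    rw [← Real.exp_sub]
    congr 1
    ring
  have h4 : Real.log ξ ≤ Real.log (x + 1) := Real.log_le_log hξ0 hξ.2.le
  have h5 : 3 / 2 * Real.log (x + 1) ≤ x - 2 := by
    have hs : Real.log (x + 1) = 2 * Real.log (√(x + 1)) := by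
      rw [Real.log_sqrt (by linarith)]
      ring
    have h6 : Real.log (√(x + 1)) ≤ √(x + 1) - 1 := by
      apply Real.log_le_sub_one_of_pos
      apply Real.sqrt_pos.2
      linarith
    have h7 : 3 ≤ √(x + 1) := by
      rw [show (3 : ℝ) = √9 by
        rw [show (9 : ℝ) = 3 ^ 2 by norm_num, Real.sqrt_sq (by norm_num)]]
      apply Real.sqrt_le_sqrt
      linarith
    have h8 : √(x + 1) * √(x + 1) = x + 1 := Real.mul_self_sqrt (by linarith)
    nlinarith
  have hV : (Vm ν x).re = h x * Real.exp (x + Real.log x / 2) := by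
    show _ = (Vm ν x).re * Real.exp (-x - Real.log x / 2) * Real.exp (x + Real.log x / 2)
    rw [mul_assoc, ← Real.exp_add]
    have : -x - Real.log x / 2 + (x + Real.log x / 2) = 0 := by ring
    rw [this, Real.exp_zero, mul_one]
  rw [hV]
  have hlx : 0 ≤ Real.log x := Real.log_nonneg (by linarith)
  calc Real.exp (-(2 * x)) ≤ Real.exp ((-(2 * ξ) - 3 / 2 * Real.log ξ) + (x + Real.log x / 2)) := by
        apply Real.exp_le_exp.2
        have := hξ.2
        linarith
    _ = Real.exp (-(2 * ξ) - 3 / 2 * Real.log ξ) * Real.exp (x + Real.log x / 2) := Real.exp_add _ _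
    _ ≤ h x * Real.exp (x + Real.log x / 2) := by
        rw [← h3]
        exact mul_le_mul_of_nonneg_right h2 (Real.exp_pos _).le

end Pool.Agent.JO.FM1

namespace Pool.Agent.JO.FM1

theorem Wp_low : type_of% @Wp_low_pr := @Wp_low_pr
theorem Vm_low : type_of% @Vm_low_pr := @Vm_low_pr

end Pool.Agent.JO.FM1
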