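import Pool.Agent.Lib_helper42.JO1.Defs
import Pool.Agent.Lib_helper45.JO.Defs2
import Pool.Agent.Lib_helper42.JO1F.K3
import Pool.Agent.Lib_helper42.JO1F.K5
import Pool.Agent.Lib_helper42.JO1F.K6

/-!
-/

set_option autoImplicit false

namespace Pool.Agent.JO.FM1

open Complex Filter Topology MeasureTheory Set
open UpperHalfPlane hiding I
open Pool.Agent.JO.FM
open scoped MatrixGroups ComplexConjugate

/-- uniqueness for linear equations of second order -/
lemma f1_o2_uniq {α β : ℝ} {q : ℝ → ℂ} (hq : ContinuousOn q (Ioo α β))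
    {y₁ y₁' y₂ y₂' : ℝ → ℂ} (h1 : ∀ t ∈ Ioo α β, HasDerivAt y₁ (y₁' t) t)
    (h1' : ∀ t ∈ Ioo α β, HasDerivAt y₁' (q t * y₁ t) t)
    (h2 : ∀ t ∈ Ioo α β, HasDerivAt y₂ (y₂' t) t)
    (h2' : ∀ t ∈ Ioo α β, HasDerivAt y₂' (q t * y₂ t) t) {x : ℝ} (hx : x ∈ Ioo α β)
    (e : y₁ x = y₂ x) (e' : y₁' x = y₂' x) : ∀ t ∈ Ioo α β, y₁ t = y₂ t := by
  intro t ht
  obtain ⟨c, hc1, hc2⟩ : ∃ c, α < c ∧ c < min x t := exists_between (lt_min hx.1 ht.1)
  obtain ⟨d, hd1, hd2⟩ : ∃ d, max x t < d ∧ d < β := exists_between (max_lt hx.2 ht.2)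
  have hsub : Icc c d ⊆ Ioo α β := fun s hs => ⟨hc1.trans_le hs.1, hs.2.trans_lt hd2⟩
  obtain ⟨M, hM⟩ := isCompact_Icc.exists_bound_of_continuousOn (hq.mono hsub)
  let v : ℝ → ℂ × ℂ → ℂ × ℂ := fun s p => (p.2, q s * p.1)
  have hM0 : ∀ s ∈ Icc c d, ‖q s‖ ≤ max M 1 := fun s hs => (hM s hs).trans (le_max_left _ _)
  have hv : ∀ s ∈ Ioo c d, LipschitzOnWith (Real.toNNReal (max M 1)) (v s) univ := by
    intro s hs
    refine LipschitzWith.lipschitzOnWith ?_
    refine LipschitzWith.of_dist_le_mul fun p p' => ?_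
    rw [Real.coe_toNNReal _ (le_trans zero_le_one (le_max_right _ _)), Prod.dist_eq, Prod.dist_eq]
    refine max_le ?_ ?_
    · show dist p.2 p'.2 ≤ _
      calc dist p.2 p'.2 ≤ 1 * max (dist p.1 p'.1) (dist p.2 p'.2) := by
            rw [one_mul]; exact le_max_right _ _
        _ ≤ _ := by
          gcongr
          exact le_max_right _ _
    · show dist (q s * p.1) (q s * p'.1) ≤ _
      rw [dist_eq_norm, ← mul_sub, norm_mul, ← dist_eq_norm]
      exact mul_le_mul (hM0 s ⟨hs.1.le, hs.2.le⟩) (le_max_left _ _) dist_nonneg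
        (le_trans zero_le_one (le_max_right _ _))
  have hxcd : x ∈ Ioo c d := ⟨hc2.trans_le (min_le_left _ _), (le_max_left _ _).trans_lt hd1⟩
  have htcd : t ∈ Ioo c d := ⟨hc2.trans_le (min_le_right _ _), (le_max_right _ _).trans_lt hd1⟩
  have key := ODE_solution_unique_of_mem_Ioo (v := v) (s := fun _ => univ)
    (f := fun s => (y₁ s, y₁' s)) (g := fun s => (y₂ s, y₂' s)) hv hxcd
    (fun s hs => ⟨(h1 s (hsub ⟨hs.1.le, hs.2.le⟩)).prodMk (h1' s (hsub ⟨hs.1.le, hs.2.le⟩)),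
      mem_univ _⟩)
    (fun s hs => ⟨(h2 s (hsub ⟨hs.1.le, hs.2.le⟩)).prodMk (h2' s (hsub ⟨hs.1.le, hs.2.le⟩)),
      mem_univ _⟩)
    (by simp only [e, e']) htcd
  exact congrArg Prod.fst key

/-- the scaled function -/
lemma f1_o2_w {W : ℝ → ℂ} {σ ev κ : ℝ}
    (hW : ∀ x, 0 < x → HasDerivAt W (deriv W x) x ∧
      HasDerivAt (deriv W) (((1 + σ / x - ev / x ^ 2 : ℝ) : ℂ) * W x) x)
    (hκ : 0 < κ) {y : ℝ} (hy : 0 < y) :
    HasDerivAt (fun y => W (κ * y)) (κ * deriv W (κ * y)) y ∧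
    HasDerivAt (fun y => κ * deriv W (κ * y))
      (((κ ^ 2 + σ * κ / y - ev / y ^ 2 : ℝ) : ℂ) * W (κ * y)) y := by
  obtain ⟨h1, h2⟩ := hW (κ * y) (mul_pos hκ hy)
  have h3 : HasDerivAt (fun y : ℝ => κ * y) κ y := by
    simpa using (hasDerivAt_id y).const_mul κ
  have hκ' : (κ : ℂ) ≠ 0 := by exact_mod_cast hκ.ne'
  have hy' : (y : ℂ) ≠ 0 := by exact_mod_cast hy.ne'
  constructor
  · have h4 := HasDerivAt.scomp y h1 h3
    rw [Complex.real_smul] at h4
    exact h4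
  · have h4 := (HasDerivAt.scomp y h2 h3).const_mul (κ : ℂ)
    have h5 : HasDerivAt (fun y : ℝ => (κ : ℂ) * deriv W (κ * y))
        ((κ : ℂ) * (κ • (((1 + σ / (κ * y) - ev / (κ * y) ^ 2 : ℝ) : ℂ) * W (κ * y)))) y := h4
    refine h5.congr_deriv ?_
    rw [Complex.real_smul]
    push_cast
    field_simp

lemma f1_o2_gen {W : ℝ → ℂ} {σ ev κ C x₀ : ℝ} (hκ : 0 < κ)
    (hW : ∀ x, 0 < x → HasDerivAt W (deriv W x) x ∧
      HasDerivAt (deriv W) (((1 + σ / x - ev / x ^ 2 : ℝ) : ℂ) * W x) x)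
    (hC : ∀ x, 0 < x → ‖W x‖ ≤ C * Real.exp (-(x / 2)) ∧
      x * ‖deriv W x‖ ≤ C * Real.exp (-(x / 4)))
    (hx₀' : 0 < x₀) (hne : W x₀ ≠ 0)
    {b b' : ℝ → ℂ} (h1 : ∀ y, 0 < y → HasDerivAt b (b' y) y)
    (h2 : ∀ y, 0 < y → HasDerivAt b' (((κ ^ 2 + σ * κ / y - ev / y ^ 2 : ℝ) : ℂ) * b y) y)
    (h3 : Tendsto b atTop (𝓝 0)) :
    ∃ c : ℂ, ∀ y, 0 < y → b y = c * W (κ * y) := by
  set w : ℝ → ℂ := fun y => W (κ * y) with hw
  set w' : ℝ → ℂ := fun y => κ * deriv W (κ * y) with hw'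
  have dw : ∀ y, 0 < y → HasDerivAt w (w' y) y := fun y hy => (f1_o2_w hW hκ hy).1
  have dw' : ∀ y, 0 < y → HasDerivAt w' (((κ ^ 2 + σ * κ / y - ev / y ^ 2 : ℝ) : ℂ) * w y) y :=
    fun y hy => (f1_o2_w hW hκ hy).2
  -- the Wronskian is constant
  have hWr : ∀ y, 0 < y → HasDerivAt (fun y => b y * w' y - b' y * w y) 0 y := by
    intro y hy
    have h5 := ((h1 y hy).mul (dw' y hy)).sub ((h2 y hy).mul (dw y hy))
    refine h5.congr_deriv ?_
    ring
  have hconst : ∀ x ∈ Ioi (0 : ℝ), ∀ y ∈ Ioi (0 : ℝ),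
      b x * w' x - b' x * w x = b y * w' y - b' y * w y := by
    intro x hx y hy
    exact isOpen_Ioi.is_const_of_deriv_eq_zero isPreconnected_Ioi
      (f := fun y => b y * w' y - b' y * w y)
      (fun z hz => (hWr z hz).differentiableAt.differentiableWithinAt)
      (fun z hz => (hWr z hz).deriv) hx hy
  -- `b'` grows at most linearly
  obtain ⟨Y, hY1, hY⟩ : ∃ Y : ℝ, 1 ≤ Y ∧ ∀ y, Y ≤ y → ‖b y‖ ≤ 1 := by
    have h5 : ∀ᶠ y in atTop, ‖b y‖ < 1 := by
      have h6 := h3.norm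
      rw [norm_zero] at h6
      exact h6.eventually (gt_mem_nhds one_pos)
    obtain ⟨Y, hY⟩ := eventually_atTop.1 h5
    exact ⟨max Y 1, le_max_right _ _, fun y hy => (hY y ((le_max_left _ _).trans hy)).le⟩
  have hY0 : 0 < Y := lt_of_lt_of_le one_pos hY1
  set M := κ ^ 2 + |σ * κ| + |ev| with hM
  have hM0 : 0 ≤ M := by positivity
  have hlin : ∀ y, Y ≤ y → ‖b' y‖ ≤ ‖b' Y‖ + M * y := by
    intro y hy
    have h5 : ‖b' y - b' Y‖ ≤ M * ‖y - Y‖ := by
      refine (convex_Ici Y).norm_image_sub_le_of_norm_hasDerivWithin_le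
        (f' := fun y => (((κ ^ 2 + σ * κ / y - ev / y ^ 2 : ℝ) : ℂ) * b y)) ?_ ?_ (self_mem_Ici : Y ∈ Ici Y) hy
      · intro z hz
        exact (h2 z (lt_of_lt_of_le hY0 hz)).hasDerivWithinAt
      · intro z hz
        have hz1 : 1 ≤ z := hY1.trans hz
        rw [norm_mul]
        have h6 : ‖((κ ^ 2 + σ * κ / z - ev / z ^ 2 : ℝ) : ℂ)‖ ≤ M := by
          rw [Complex.norm_real, Real.norm_eq_abs]
          refine (abs_sub _ _).trans ?_
          refine add_le_add ((abs_add_le _ _).trans ?_) ?_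
          · rw [abs_of_nonneg (sq_nonneg κ), abs_div, abs_of_nonneg (zero_le_one.trans hz1)]
            exact add_le_add le_rfl (div_le_self (abs_nonneg _) hz1)
          · rw [abs_div, abs_of_nonneg (sq_nonneg z)]
            refine div_le_self (abs_nonneg _) ?_
            nlinarith
        calc ‖((κ ^ 2 + σ * κ / z - ev / z ^ 2 : ℝ) : ℂ)‖ * ‖b z‖ ≤ M * 1 :=
              mul_le_mul h6 (hY z hz) (norm_nonneg _) hM0
          _ = M := mul_one M
    have h6 : ‖b' y‖ ≤ ‖b' Y‖ + ‖b' y - b' Y‖ := by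
      have := norm_add_le (b' Y) (b' y - b' Y)
      rwa [add_sub_cancel] at this
    rw [Real.norm_of_nonneg (sub_nonneg.2 hy)] at h5
    nlinarith
  -- bounds for the Bessel function
  have hwb : ∀ y, 0 < y → ‖w y‖ ≤ C * Real.exp (-(κ / 2) * y) := by
    intro y hy
    have h5 := (hC (κ * y) (mul_pos hκ hy)).1
    refine h5.trans (le_of_eq ?_)
    congr 2
    ring
  have hwb' : ∀ y, 1 ≤ y → ‖w' y‖ ≤ C * Real.exp (-(κ / 4) * y) := by
    intro y hy
    have hy0 : 0 < y := lt_of_lt_of_le one_pos hy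
    have h5 := (hC (κ * y) (mul_pos hκ hy0)).2
    rw [hw']
    simp only
    rw [norm_mul, Complex.norm_real, Real.norm_of_nonneg hκ.le]
    have h6 : κ * ‖deriv W (κ * y)‖ ≤ κ * y * ‖deriv W (κ * y)‖ := by
      have h7 := norm_nonneg (deriv W (κ * y))
      have : κ ≤ κ * y := by nlinarith
      exact mul_le_mul_of_nonneg_right this h7
    refine (h6.trans h5).trans (le_of_eq ?_)
    congr 2
    ring
  have hlim : Tendsto (fun y => b y * w' y - b' y * w y) atTop (𝓝 0) := by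
    have t1 : Tendsto (fun y : ℝ => C * Real.exp (-(κ / 4) * y)) atTop (𝓝 0) := by
      have := (tendsto_rpow_mul_exp_neg_mul_atTop_nhds_zero 0 (κ / 4) (by positivity)).const_mul C
      simpa using this
    have t2 : Tendsto (fun y : ℝ => ‖b' Y‖ * (C * Real.exp (-(κ / 2) * y))) atTop (𝓝 0) := by
      have := ((tendsto_rpow_mul_exp_neg_mul_atTop_nhds_zero 0 (κ / 2)
        (by positivity)).const_mul C).const_mul ‖b' Y‖
      simpa using this
    have t3 : Tendsto (fun y : ℝ => M * C * (y * Real.exp (-(κ / 2) * y))) atTop (𝓝 0) := by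
      have := (tendsto_rpow_mul_exp_neg_mul_atTop_nhds_zero 1 (κ / 2)
        (by positivity)).const_mul (M * C)
      simpa using this
    have t4 := (t1.add t2).add t3
    rw [add_zero, add_zero] at t4
    refine squeeze_zero_norm' ?_ t4
    filter_upwards [eventually_ge_atTop Y] with y hy
    have hy0 : 0 < y := lt_of_lt_of_le hY0 hy
    have a1 := hwb y hy0
    have a2 := hwb' y (hY1.trans hy)
    have a3 := hlin y hy
    have a4 := hY y hy
    calc ‖b y * w' y - b' y * w y‖ ≤ ‖b y‖ * ‖w' y‖ + ‖b' y‖ * ‖w y‖ := by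
          rw [← norm_mul, ← norm_mul]
          exact norm_sub_le _ _
      _ ≤ 1 * (C * Real.exp (-(κ / 4) * y)) +
          (‖b' Y‖ + M * y) * (C * Real.exp (-(κ / 2) * y)) := by
        refine add_le_add (mul_le_mul a4 a2 (norm_nonneg _) zero_le_one)
          (mul_le_mul a3 a1 (norm_nonneg _) ?_)
        positivity
      _ = _ := by ring
  have hzero : ∀ y, 0 < y → b y * w' y - b' y * w y = 0 := by
    intro y hy
    have h5 : Tendsto (fun _ : ℝ => b y * w' y - b' y * w y) atTop (𝓝 0) := by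
      refine hlim.congr' ?_
      filter_upwards [eventually_gt_atTop 0] with z hz
      exact hconst z hz y hy
    exact tendsto_nhds_unique tendsto_const_nhds h5
  -- a point where `w` is not zero
  set y₀ := x₀ / κ with hy₀
  have hy₀' : 0 < y₀ := div_pos hx₀' hκ
  have hwy₀ : w y₀ ≠ 0 := by
    intro h5
    have h7 : κ * y₀ = x₀ := by rw [hy₀]; field_simp
    apply hne
    rw [← h7]
    exact h5
  refine ⟨b y₀ / w y₀, fun y hy => ?_⟩
  have hq : ContinuousOn (fun y : ℝ => ((κ ^ 2 + σ * κ / y - ev / y ^ 2 : ℝ) : ℂ)) (Ioo 0 (y + y₀ + 1)) := by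
    refine Complex.continuous_ofReal.comp_continuousOn ?_
    refine (continuousOn_const.add (continuousOn_const.div continuousOn_id
      fun z hz => hz.1.ne')).sub (continuousOn_const.div (continuousOn_pow 2) fun z hz => ?_)
    exact pow_ne_zero 2 hz.1.ne'
  refine f1_o2_uniq hq (y₁ := b) (y₁' := b') (y₂ := fun z => b y₀ / w y₀ * w z)
    (y₂' := fun z => b y₀ / w y₀ * w' z) (fun t ht => h1 t ht.1) (fun t ht => h2 t ht.1)
    (fun t ht => (dw t ht.1).const_mul _) (fun t ht => ?_) (x := y₀) ?_ ?_ ?_ y ?_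
  · have h5 := (dw' t ht.1).const_mul (b y₀ / w y₀)
    refine h5.congr_deriv ?_
    ring
  · exact ⟨hy₀', by linarith⟩
  · field_simp
  · have h5 := hzero y₀ hy₀'
    field_simp
    linear_combination -h5
  · exact ⟨hy, by linarith⟩

theorem ode_m_pr {ν : ℂ} (hν : ν.re = 0) {ev κ : ℝ} (hev : ν ^ 2 = 1 / 4 - ev) (hκ : 0 < κ)
    {b b' : ℝ → ℂ} (h1 : ∀ y, 0 < y → HasDerivAt b (b' y) y)
    (h2 : ∀ y, 0 < y → HasDerivAt b' (((κ ^ 2 + κ / y - ev / y ^ 2 : ℝ) : ℂ) * b y) y)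
    (h3 : Tendsto b atTop (𝓝 0)) :
    ∃ c : ℂ, ∀ y, 0 < y → b y = c * Vm ν (κ * y) := by
  obtain ⟨C, hC⟩ := Wz_bound hν (b := 1 / 2) (by norm_num)
  obtain ⟨x₀, hx₀, hlow⟩ := Vm_low hν
  have hz : Wz ν (-1) = Vm ν := by
    funext x
    simp [Wz]
  have hx₀' : 0 < x₀ := lt_of_lt_of_le one_pos hx₀
  refine f1_o2_gen (W := Vm ν) (σ := 1) (ev := ev) (C := C) (x₀ := x₀) hκ ?_ ?_ hx₀' ?_ h1 ?_ h3
  · intro x hx
    obtain ⟨a1, a2⟩ := Vm_deriv2 ν hx
    refine ⟨a1, a2.congr_deriv ?_⟩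
    rw [hev]
    push_cast
    ring
  · intro x hx
    have h5 := hC (-1) x hx
    rw [hz] at h5
    rw [sub_self, Real.rpow_zero, mul_one] at h5
    exact ⟨h5.1, h5.2.1⟩
  · intro h0
    have h6 := hlow x₀ le_rfl
    rw [h0] at h6
    simp only [Complex.zero_re] at h6
    exact absurd h6 (not_le.2 (Real.exp_pos _))
  · intro y hy
    refine (h2 y hy).congr_deriv ?_
    push_cast
    ring

end Pool.Agent.JO.FM1

namespace Pool.Agent.JO.FM1

theorem ode_m : type_of% @ode_m_pr := @ode_m_pr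

end Pool.Agent.JO.FM1
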