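import Pool.Agent.Lib_helper42.JO1.Defs
import Pool.Agent.Lib_helper45.JO.Defs2
import Pool.Agent.Lib_helper42.JO1F.K5
import Pool.Agent.Lib_helper42.JO1F.K6
import Pool.Agent.Lib_helper42.JO1F.O1
import Pool.Agent.Lib_helper42.JO1F.O2
import Pool.Agent.Lib_helper45.JOM.A1
import Pool.Agent.Lib_helper45.JOM.O3

/-! Project JO, part FM1 (weight 1), block A4 (helper89, after the weight 0 file of helper14). -/

set_option autoImplicit false
set_option linter.unusedSectionVars false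

namespace Pool.Agent.JO.FM1

open Complex Filter Topology MeasureTheory Set
open UpperHalfPlane hiding I
open Pool.Agent.JO.FM
open scoped MatrixGroups ComplexConjugate

theorem f1_a4_cont {P k : ℕ} {ev : ℝ} {F : ℍ → ℂ} (h : PerEig P k ev F) {y : ℝ} (hy : 0 < y) :
    Continuous (fun x : ℝ => F (pz x y)) := by
  have h1 := h.smooth.continuousOn
  have h2 : Continuous (fun x : ℝ => (x : ℂ) + y * I) := by fun_prop
  exact h1.comp_continuous h2 (fun x => by simpa using hy)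

theorem f1_a4_per {P k : ℕ} {ev : ℝ} {F : ℍ → ℂ} (h : PerEig P k ev F) {y : ℝ} (hy : 0 < y) :
    Function.Periodic (fun x : ℝ => F (pz x y)) (P : ℝ) := fun x => h.per x y hy

/-- the restriction to a horizontal line, as a function on the circle -/
noncomputable def f1_a4_circ {P k : ℕ} {ev : ℝ} {F : ℍ → ℂ} (h : PerEig P k ev F) {y : ℝ}
    (hy : 0 < y) : C(AddCircle (P : ℝ), ℂ) :=
  ⟨(f1_a4_per h hy).lift, continuous_coinduced_dom.mpr (f1_a4_cont h hy)⟩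

theorem f1_a4_circ_coe {P k : ℕ} {ev : ℝ} {F : ℍ → ℂ} (h : PerEig P k ev F) {y : ℝ}
    (hy : 0 < y) (x : ℝ) : f1_a4_circ h hy (x : AddCircle (P : ℝ)) = F (pz x y) :=
  Function.Periodic.lift_coe (f1_a4_per h hy) x

theorem f1_a4_coeff {P k : ℕ} [Fact (0 < (P : ℝ))] {ev : ℝ} {F : ℍ → ℂ} (h : PerEig P k ev F) {y : ℝ}
    (hy : 0 < y) (n : ℤ) : fourierCoeff (f1_a4_circ h hy) n = fc P F n y := by
  rw [fourierCoeff_eq_intervalIntegral _ n 0, zero_add, fc, Complex.real_smul, one_div]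
  congr 1
  refine intervalIntegral.integral_congr fun x _ => ?_
  simp only [smul_eq_mul]
  rw [f1_a4_circ_coe, fourier_coe_apply, mul_comm]
  congr 2
  push_cast
  ring

theorem f1_a4_bessel {P k : ℕ} [Fact (0 < (P : ℝ))] {ev : ℝ} {F : ℍ → ℂ} (h : PerEig P k ev F) {y : ℝ}
    (hy : 0 < y) {C : ℝ} (hC : ∀ z, ‖F z‖ ≤ C) (S : Finset ℤ) :
    ∑ n ∈ S, ‖fc P F n y‖ ^ 2 ≤ C ^ 2 := by
  have hs := hasSum_sq_fourierCoeff
    (ContinuousMap.toLp (E := ℂ) 2 AddCircle.haarAddCircle ℂ (f1_a4_circ h hy))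
  simp_rw [fourierCoeff_toLp, f1_a4_coeff] at hs
  refine (sum_le_hasSum S (fun _ _ => sq_nonneg _) hs).trans ?_
  have h1 : ∀ᵐ t ∂(AddCircle.haarAddCircle (T := (P : ℝ))),
      ‖‖(ContinuousMap.toLp (E := ℂ) 2 AddCircle.haarAddCircle ℂ (f1_a4_circ h hy)) t‖ ^ 2‖ ≤ C ^ 2 := by
    filter_upwards [ContinuousMap.coeFn_toLp (E := ℂ) (p := 2) (𝕜 := ℂ)
      (AddCircle.haarAddCircle (T := (P : ℝ))) (f1_a4_circ h hy)] with t ht
    rw [ht, norm_pow, norm_norm]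
    have h2 : ‖f1_a4_circ h hy t‖ ≤ C := by
      induction t using QuotientAddGroup.induction_on with
      | H x =>
        have h3 := f1_a4_circ_coe h hy x
        rw [h3]
        exact hC _
    exact pow_le_pow_left₀ (norm_nonneg _) h2 2
  have h2 := norm_integral_le_of_norm_le_const h1
  rw [probReal_univ, mul_one] at h2
  exact (le_abs_self _).trans h2

theorem f1_a4_summ {c : ℝ} (hc : 0 < c) : Summable (fun m : ℤ => Real.exp (-(c * |(m : ℝ)|))) := by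
  have h1 : Summable (fun n : ℕ => Real.exp (-(c * (n : ℝ)))) := by
    have h3 : (fun n : ℕ => Real.exp (-(c * (n : ℝ)))) = fun n : ℕ => Real.exp (-c) ^ n := by
      funext n
      rw [← Real.exp_nat_mul]
      congr 1
      ring
    rw [h3]
    exact summable_geometric_of_lt_one (Real.exp_nonneg _) (by rw [Real.exp_lt_one_iff]; linarith)
  refine Summable.of_nat_of_neg ?_ ?_
  · simpa using h1
  · simpa using h1

theorem f1_a4_W {ν : ℂ} (hν : ν.re = 0) : ∃ C : ℝ, 0 ≤ C ∧ ∀ (m : ℤ) (x : ℝ), 0 < x →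
    ‖Wz ν m x‖ ≤ C * Real.exp (-(x / 2)) := by
  obtain ⟨C, hC⟩ := Wz_bound hν (b := 1 / 2) (by norm_num)
  refine ⟨|C|, abs_nonneg _, fun m x hx => ?_⟩
  have h1 := (hC m x hx).1
  rw [sub_self, Real.rpow_zero, mul_one] at h1
  exact h1.trans (mul_le_mul_of_nonneg_right (le_abs_self _) (Real.exp_nonneg _))

theorem f1_a4_ev {ν : ℂ} {ev : ℝ} (hν : ν.re = 0) (hev : ν ^ 2 = 1 / 4 - ev) : 0 < ev := by
  have h1 := congrArg Complex.re hev
  rw [sq, Complex.mul_re, hν] at h1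
  have h2 : ((1 / 4 : ℂ) - (ev : ℂ)).re = 1 / 4 - ev := by
    rw [Complex.sub_re, Complex.ofReal_re]
    norm_num
  rw [h2] at h1
  nlinarith [mul_self_nonneg ν.im]

theorem f1_a4_coeffs {P : ℕ} {ν : ℂ} {ev : ℝ} {F : ℍ → ℂ} (hP : 0 < P) (hν : ν.re = 0)
    (hev : ν ^ 2 = 1 / 4 - ev) (h : PerEig P 1 ev F) :
    ∃ β : ℤ → ℂ, β 0 = 0 ∧ ∀ (n : ℤ) (y : ℝ), 0 < y →
      fc P F n y = β n * Wz ν n (2 * Real.pi * |(n : ℝ)| * y / P) := by
  have hP' : (0 : ℝ) < P := by exact_mod_cast hP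
  have hpi := Real.pi_pos
  have key : ∀ n : ℤ, ∃ c : ℂ, (n = 0 → c = 0) ∧ ∀ y : ℝ, 0 < y →
      fc P F n y = c * Wz ν n (2 * Real.pi * |(n : ℝ)| * y / P) := by
    intro n
    obtain ⟨b', hb'⟩ := fc_ode hP h n
    rcases lt_trichotomy n 0 with hn | rfl | hn
    · have hn' : (0 : ℝ) < |(n : ℝ)| := abs_pos.2 (by exact_mod_cast hn.ne)
      have hna : |(n : ℝ)| = -(n : ℝ) := abs_of_neg (by exact_mod_cast hn)
      have hκ : 0 < 2 * Real.pi * |(n : ℝ)| / P := by positivity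
      obtain ⟨c, hc⟩ := ode_m hν hev hκ (b := fc P F n) (b' := b')
        (fun y hy => (hb' y hy).1) (fun y hy => by
          have h1 := (hb' y hy).2
          have h2 : ((2 * Real.pi * (n : ℝ) / P) ^ 2 - ((1 : ℕ) : ℝ) *
              (2 * Real.pi * (n : ℝ) / P) / y - ev / y ^ 2 : ℝ) =
              (2 * Real.pi * |(n : ℝ)| / P) ^ 2 + (2 * Real.pi * |(n : ℝ)| / P) / y -
                ev / y ^ 2 := by
            rw [hna, Nat.cast_one]
            ring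
          rw [h2] at h1
          exact h1) (fc_tendsto hP h n)
      refine ⟨c, fun h => absurd h hn.ne, fun y hy => ?_⟩
      rw [hc y hy, Wz, if_neg (not_lt.mpr hn.le)]
      congr 2
      ring
    · refine ⟨0, fun _ => rfl, fun y hy => ?_⟩
      rw [zero_mul]
      refine ode_zero (f1_a4_ev hν hev) (b := fc P F 0) (b' := b') (fun y hy => (hb' y hy).1)
        (fun y hy => ?_) (fc_tendsto hP h 0) y hy
      have h1 := (hb' y hy).2
      have h2 : ((2 * Real.pi * ((0 : ℤ) : ℝ) / P) ^ 2 - ((1 : ℕ) : ℝ) *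
          (2 * Real.pi * ((0 : ℤ) : ℝ) / P) / y - ev / y ^ 2 : ℝ) = -(ev / y ^ 2) := by
        simp
      rw [h2] at h1
      exact h1
    · have hn' : (0 : ℝ) < |(n : ℝ)| := abs_pos.2 (by exact_mod_cast hn.ne')
      have hna : |(n : ℝ)| = (n : ℝ) := abs_of_pos (by exact_mod_cast hn)
      have hκ : 0 < 2 * Real.pi * |(n : ℝ)| / P := by positivity
      obtain ⟨c, hc⟩ := ode_p hν hev hκ (b := fc P F n) (b' := b')
        (fun y hy => (hb' y hy).1) (fun y hy => by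
          have h1 := (hb' y hy).2
          have h2 : ((2 * Real.pi * (n : ℝ) / P) ^ 2 - ((1 : ℕ) : ℝ) *
              (2 * Real.pi * (n : ℝ) / P) / y - ev / y ^ 2 : ℝ) =
              (2 * Real.pi * |(n : ℝ)| / P) ^ 2 - (2 * Real.pi * |(n : ℝ)| / P) / y -
                ev / y ^ 2 := by
            rw [hna, Nat.cast_one, one_mul]
          rw [h2] at h1
          exact h1) (fc_tendsto hP h n)
      refine ⟨c, fun h => absurd h hn.ne', fun y hy => ?_⟩
      rw [hc y hy, Wz, if_pos hn]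
      congr 2
      ring
  choose β hβ using key
  exact ⟨β, (hβ 0).1 rfl, fun n => (hβ n).2⟩

theorem f1_a4_low {ν : ℂ} (hν : ν.re = 0) : ∃ x₀ : ℝ, 1 ≤ x₀ ∧ ∀ (m : ℤ) (x : ℝ), x₀ ≤ x →
    Real.exp (-(2 * x)) ≤ ‖Wz ν m x‖ := by
  obtain ⟨x₁, hx₁, h1⟩ := Wp_low hν
  obtain ⟨x₂, hx₂, h2⟩ := Vm_low hν
  refine ⟨max x₁ x₂, hx₁.trans (le_max_left _ _), fun m x hx => ?_⟩
  have hx1 : x₁ ≤ x := (le_max_left _ _).trans hx
  have hx2 : x₂ ≤ x := (le_max_right _ _).trans hx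
  unfold Wz
  split_ifs
  · exact ((Real.exp_le_exp.2 (by linarith)).trans (h1 x hx1)).trans (Complex.re_le_norm _)
  · exact (h2 x hx2).trans (Complex.re_le_norm _)

/-- A4 -/
theorem expn1_of_perEig_pr {P : ℕ} {ν : ℂ} {ev : ℝ} {F : ℍ → ℂ} (hP : 0 < P) (hν : ν.re = 0)
    (hev : ν ^ 2 = 1 / 4 - ev) (h : PerEig P 1 ev F)
    (hb : ∃ C : ℝ, ∀ z, ‖F z‖ ≤ C) : ∃ β : ℤ → ℂ, Expn1 P ν β F := by
  have hP' : (0 : ℝ) < P := by exact_mod_cast hP
  have hfact : Fact (0 < (P : ℝ)) := ⟨hP'⟩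
  obtain ⟨B, hB⟩ := hb
  obtain ⟨β, hβ0, hβ⟩ := f1_a4_coeffs hP hν hev h
  obtain ⟨x₀, hx₀, hW⟩ := f1_a4_low hν
  have hx₀' : 0 < x₀ := lt_of_lt_of_le one_pos hx₀
  have hdy : ∀ M : ℕ, 0 < M → ∑ m ∈ Finset.Icc M (2 * M),
      (‖β (m : ℤ)‖ ^ 2 + ‖β (-(m : ℤ))‖ ^ 2) ≤ Real.exp (8 * x₀) * (B ^ 2 + B ^ 2) := by
    intro M hM
    have hM' : (0 : ℝ) < M := by exact_mod_cast hM
    set y : ℝ := x₀ * P / (2 * Real.pi * M) with hy
    have hy0 : 0 < y := by positivity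
    have hle : ∀ n : ℤ, (M : ℝ) ≤ |(n : ℝ)| → |(n : ℝ)| ≤ 2 * M →
        ‖β n‖ ^ 2 ≤ Real.exp (8 * x₀) * ‖fc P F n y‖ ^ 2 := by
      intro n h1 h2
      have h3 : 2 * Real.pi * |(n : ℝ)| * y / P = x₀ * (|(n : ℝ)| / M) := by
        rw [hy]
        have := Real.pi_pos
        field_simp
      have h4 : 1 ≤ |(n : ℝ)| / M := by rwa [one_le_div hM']
      have h5 : |(n : ℝ)| / M ≤ 2 := by rwa [div_le_iff₀ hM']
      have h6 : x₀ ≤ x₀ * (|(n : ℝ)| / M) := by nlinarith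
      have h7 : x₀ * (|(n : ℝ)| / M) ≤ 2 * x₀ := by nlinarith
      have h8 : Real.exp (-(4 * x₀)) ≤ ‖Wz ν n (x₀ * (|(n : ℝ)| / M))‖ :=
        (Real.exp_le_exp.2 (by linarith)).trans (hW n _ h6)
      rw [hβ n y hy0, h3, norm_mul, mul_pow]
      have h9 : 1 ≤ Real.exp (8 * x₀) * ‖Wz ν n (x₀ * (|(n : ℝ)| / M))‖ ^ 2 := by
        have h10 : Real.exp (8 * x₀) * Real.exp (-(4 * x₀)) ^ 2 = 1 := by
          rw [← Real.exp_nat_mul, ← Real.exp_add]
          simp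
          ring
        rw [← h10]
        exact mul_le_mul_of_nonneg_left (pow_le_pow_left₀ (Real.exp_nonneg _) h8 2)
          (Real.exp_nonneg _)
      nlinarith [sq_nonneg ‖β n‖]
    have hb1 := f1_a4_bessel h hy0 hB ((Finset.Icc M (2 * M)).map
      ⟨fun m : ℕ => (m : ℤ), Nat.cast_injective⟩)
    have hb2 := f1_a4_bessel h hy0 hB ((Finset.Icc M (2 * M)).map
      ⟨fun m : ℕ => -(m : ℤ), fun a b hab => by simpa using hab⟩)
    rw [Finset.sum_map] at hb1 hb2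
    simp only [Function.Embedding.coeFn_mk] at hb1 hb2
    calc ∑ m ∈ Finset.Icc M (2 * M), (‖β (m : ℤ)‖ ^ 2 + ‖β (-(m : ℤ))‖ ^ 2)
        ≤ ∑ m ∈ Finset.Icc M (2 * M), (Real.exp (8 * x₀) * ‖fc P F (m : ℤ) y‖ ^ 2 +
            Real.exp (8 * x₀) * ‖fc P F (-(m : ℤ)) y‖ ^ 2) := by
          refine Finset.sum_le_sum fun m hm => ?_
          rw [Finset.mem_Icc] at hm
          have h1 : (M : ℝ) ≤ m := by exact_mod_cast hm.1
          have h2 : (m : ℝ) ≤ 2 * M := by exact_mod_cast hm.2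
          have h3 : |(((m : ℤ)) : ℝ)| = m := by simp
          have h4 : |((-(m : ℤ) : ℤ) : ℝ)| = m := by simp
          exact add_le_add (hle _ (by rw [h3]; exact h1) (by rw [h3]; exact h2))
            (hle _ (by rw [h4]; exact h1) (by rw [h4]; exact h2))
      _ = Real.exp (8 * x₀) * (∑ m ∈ Finset.Icc M (2 * M), ‖fc P F (m : ℤ) y‖ ^ 2 +
            ∑ m ∈ Finset.Icc M (2 * M), ‖fc P F (-(m : ℤ)) y‖ ^ 2) := by
          rw [Finset.sum_add_distrib, ← Finset.mul_sum, ← Finset.mul_sum, mul_add]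
      _ ≤ _ := mul_le_mul_of_nonneg_left (add_le_add hb1 hb2) (Real.exp_nonneg _)
  set D : ℝ := Real.exp (8 * x₀) * (B ^ 2 + B ^ 2) with hD
  have hbd : ∀ n : ℤ, ‖β n‖ ≤ √D := by
    intro n
    rcases eq_or_ne n 0 with rfl | hn
    · rw [hβ0, norm_zero]
      exact Real.sqrt_nonneg _
    · have hM : 0 < n.natAbs := Int.natAbs_pos.2 hn
      have h1 := (Finset.single_le_sum (f := fun m : ℕ => ‖β (m : ℤ)‖ ^ 2 + ‖β (-(m : ℤ))‖ ^ 2)
        (fun m _ => by positivity)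
        (Finset.mem_Icc.2 ⟨le_rfl, by omega⟩ : n.natAbs ∈ Finset.Icc n.natAbs (2 * n.natAbs))).trans
        (hdy _ hM)
      refine Real.le_sqrt_of_sq_le ?_
      rcases Int.natAbs_eq n with h2 | h2
      · rw [← h2] at h1
        nlinarith [sq_nonneg ‖β (-n)‖]
      · have h3 : -((n.natAbs : ℕ) : ℤ) = n := h2.symm
        rw [h3] at h1
        nlinarith [sq_nonneg ‖β ((n.natAbs : ℕ) : ℤ)‖]
  refine ⟨β, hβ0, ⟨_, hdy⟩, fun x y hy => ?_⟩
  obtain ⟨C₁, hC₁, hW₁⟩ := f1_a4_W hν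
  have hsum : Summable (fourierCoeff (f1_a4_circ h hy)) := by
    have h1 := ((f1_a4_summ (c := Real.pi * y / P) (by
      have := Real.pi_pos
      positivity)).mul_left (√D * C₁))
    refine Summable.of_norm_bounded h1 fun n => ?_
    rw [f1_a4_coeff, hβ n y hy, norm_mul]
    rcases eq_or_ne n 0 with rfl | hn
    · rw [hβ0, norm_zero, zero_mul]
      have := Real.sqrt_nonneg D
      positivity
    · have hn' : (0 : ℝ) < |(n : ℝ)| := abs_pos.2 (by exact_mod_cast hn)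
      have hX : 0 < 2 * Real.pi * |(n : ℝ)| * y / P := by
        have := Real.pi_pos
        positivity
      have h2 := hW₁ n _ hX
      have h3 : -(2 * Real.pi * |(n : ℝ)| * y / P / 2) = -(Real.pi * y / P * |(n : ℝ)|) := by
        ring
      rw [h3] at h2
      rw [mul_assoc (√D)]
      exact mul_le_mul (hbd n) h2 (norm_nonneg _) (Real.sqrt_nonneg _)
  have h2 := has_pointwise_sum_fourier_series_of_summable hsum (x : AddCircle (P : ℝ))
  rw [f1_a4_circ_coe] at h2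
  have h3 : (fun m : ℤ => β m * Wz ν m (2 * Real.pi * |(m : ℝ)| * y / P) *
      cexp ((2 * Real.pi * m * x / P : ℝ) * I)) =
      fun i => fourierCoeff (f1_a4_circ h hy) i • fourier i (x : AddCircle (P : ℝ)) := by
    funext m
    rw [f1_a4_coeff, hβ m y hy, smul_eq_mul, fourier_coe_apply]
    congr 2
    push_cast
    ring
  rw [h3]
  exact h2

end Pool.Agent.JO.FM1

namespace Pool.Agent.JO.FM1

theorem expn1_of_perEig : type_of% @expn1_of_perEig_pr := @expn1_of_perEig_pr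

end Pool.Agent.JO.FM1
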