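import Pool.Agent.Lib_helper42.JO1.Defs
import Pool.Agent.Lib_helper45.JO.Defs2
import Pool.Agent.Lib_helper42.JO1F.K5

/-!
-/

set_option autoImplicit false

namespace Pool.Agent.JO.FM1

open Complex Filter Topology MeasureTheory Set
open UpperHalfPlane hiding I
open Pool.Agent.JO.FM
open scoped MatrixGroups ComplexConjugate

theorem f1_A6_sum {c : ℝ} (hc : 0 < c) :
    Summable (fun m : ℤ => Real.exp (-(c * |(m : ℝ)|))) := by
  have h1 : Summable (fun n : ℕ => Real.exp (-(c * (n : ℝ)))) := by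
    have h2 : (fun n : ℕ => Real.exp (-(c * (n : ℝ)))) = fun n : ℕ => (Real.exp (-c)) ^ n := by
      funext n
      rw [← Real.exp_nat_mul]
      congr 1
      ring
    rw [h2]
    exact summable_geometric_of_lt_one (Real.exp_pos _).le (Real.exp_lt_one_iff.2 (by linarith))
  refine Summable.of_nat_of_neg ?_ ?_
  · refine h1.congr fun n => ?_
    simp
  · refine h1.congr fun n => ?_
    simp

theorem f1_A6_W {ν : ℂ} (hν : ν.re = 0) : ∃ K : ℝ, 0 ≤ K ∧ ∀ (m : ℤ) (x : ℝ), 0 < x →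
    ‖Wz ν m x‖ ≤ K * Real.exp (-(x / 4)) := by
  obtain ⟨C, hC⟩ := Wz_bound hν (b := 1 / 4) (by norm_num)
  have hC0 : 0 ≤ C := by
    have h1 := (hC 1 1 one_pos).1
    rw [Real.one_rpow, mul_one] at h1
    by_contra hneg
    push Not at hneg
    have h3 := mul_neg_of_neg_of_pos hneg (Real.exp_pos (-((1 : ℝ) / 2)))
    linarith [norm_nonneg (Wz ν 1 1)]
  refine ⟨4 * C, by positivity, fun m x hx => ?_⟩
  have h1 := (hC m x hx).1
  have hxa : x ^ ((1 : ℝ) / 2 - 1 / 4) ≤ 1 + x := by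
    calc x ^ ((1 : ℝ) / 2 - 1 / 4) ≤ (1 + x) ^ ((1 : ℝ) / 2 - 1 / 4) :=
          Real.rpow_le_rpow hx.le (by linarith) (by norm_num)
      _ ≤ (1 + x) ^ (1 : ℝ) := Real.rpow_le_rpow_of_exponent_le (by linarith) (by norm_num)
      _ = 1 + x := Real.rpow_one _
  have he : 1 + x ≤ 4 * Real.exp (x / 4) := by
    have := Real.add_one_le_exp (x / 4)
    linarith
  calc ‖Wz ν m x‖ ≤ C * x ^ ((1 : ℝ) / 2 - 1 / 4) * Real.exp (-(x / 2)) := h1
    _ ≤ C * (4 * Real.exp (x / 4)) * Real.exp (-(x / 2)) := by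
        apply mul_le_mul_of_nonneg_right _ (Real.exp_pos _).le
        exact mul_le_mul_of_nonneg_left (hxa.trans he) hC0
    _ = 4 * C * Real.exp (x / 4 + -(x / 2)) := by rw [Real.exp_add]; ring
    _ = 4 * C * Real.exp (-(x / 4)) := by
        congr 2
        ring

theorem f1_A6_coef {P : ℕ} {ν : ℂ} {β : ℤ → ℂ} {F : ℍ → ℂ} (h : Expn1 P ν β F) :
    ∃ B : ℝ, 0 ≤ B ∧ ∀ m, ‖β m‖ ≤ B := by
  obtain ⟨C, hC⟩ := h.dyad
  refine ⟨√C, Real.sqrt_nonneg _, fun m => ?_⟩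
  rcases eq_or_ne m 0 with rfl | hm
  · rw [h.zero, norm_zero]
    exact Real.sqrt_nonneg _
  · apply Real.le_sqrt_of_sq_le
    have hpos : 0 < m.natAbs := Int.natAbs_pos.2 hm
    have h1 := hC m.natAbs hpos
    have h2 : ‖β (m.natAbs : ℤ)‖ ^ 2 + ‖β (-(m.natAbs : ℤ))‖ ^ 2 ≤
        ∑ j ∈ Finset.Icc m.natAbs (2 * m.natAbs), (‖β (j : ℤ)‖ ^ 2 + ‖β (-(j : ℤ))‖ ^ 2) :=
      Finset.single_le_sum (f := fun j : ℕ => ‖β (j : ℤ)‖ ^ 2 + ‖β (-(j : ℤ))‖ ^ 2)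
        (fun j _ => by positivity) (Finset.mem_Icc.2 ⟨le_rfl, by omega⟩)
    rcases Int.natAbs_eq m with h3 | h3
    · rw [h3]
      have : 0 ≤ ‖β (-(m.natAbs : ℤ))‖ ^ 2 := by positivity
      linarith
    · rw [h3]
      have : 0 ≤ ‖β (m.natAbs : ℤ)‖ ^ 2 := by positivity
      linarith

/-- the bound for the terms -/
theorem f1_A6_terms {P : ℕ} {ν : ℂ} {β : ℤ → ℂ} {F : ℍ → ℂ} (hP : 0 < P) (hν : ν.re = 0)
    (h : Expn1 P ν β F) : ∃ K c d : ℝ, 0 < c ∧ 0 < d ∧ ∀ (m : ℤ) (y : ℝ), 1 / 4 ≤ y →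
      ‖β m‖ * ‖Wz ν m (2 * Real.pi * |(m : ℝ)| * y / P)‖ ≤
        K * Real.exp (-(c * y)) * Real.exp (-(d * |(m : ℝ)|)) := by
  obtain ⟨K₁, hK0, hK⟩ := f1_A6_W hν
  obtain ⟨B, hB0, hB⟩ := f1_A6_coef h
  have hPr : (0 : ℝ) < P := by exact_mod_cast hP
  have hpi := Real.pi_pos
  set c₀ : ℝ := Real.pi / (2 * P) with hc₀
  have hc0 : 0 < c₀ := by positivity
  refine ⟨B * K₁, c₀ / 2, c₀ / 8, by positivity, by positivity, fun m y hy => ?_⟩
  have hy0 : 0 < y := by linarith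
  rcases eq_or_ne m 0 with rfl | hm
  · rw [h.zero, norm_zero]
    simp only [zero_mul]
    positivity
  · have hm1 : (1 : ℝ) ≤ |(m : ℝ)| := by
      have : 1 ≤ |m| := Int.one_le_abs hm
      exact_mod_cast this
    set x : ℝ := 2 * Real.pi * |(m : ℝ)| * y / P with hx
    have hx0 : 0 < x := by positivity
    have g1 := hK m x hx0
    have hxe : Real.exp (-(x / 4)) ≤
        Real.exp (-(c₀ / 2 * y)) * Real.exp (-(c₀ / 8 * |(m : ℝ)|)) := by
      rw [← Real.exp_add]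
      apply Real.exp_le_exp.2
      have e1 : x / 4 = c₀ * (|(m : ℝ)| * y) := by
        rw [hx, hc₀]
        field_simp
        ring
      have e2 : y / 2 + |(m : ℝ)| / 8 ≤ |(m : ℝ)| * y := by nlinarith
      have e3 := mul_le_mul_of_nonneg_left e2 hc0.le
      rw [e1]
      linarith
    calc ‖β m‖ * ‖Wz ν m x‖ ≤ B * (K₁ * Real.exp (-(x / 4))) :=
          mul_le_mul (hB m) g1 (norm_nonneg _) hB0
      _ ≤ B * (K₁ * (Real.exp (-(c₀ / 2 * y)) * Real.exp (-(c₀ / 8 * |(m : ℝ)|)))) :=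
          mul_le_mul_of_nonneg_left (mul_le_mul_of_nonneg_left hxe hK0) hB0
      _ = _ := by ring

/-- A6: exponential decay at `i∞` -/
theorem expn1_decay_pr {P : ℕ} {ν : ℂ} {β : ℤ → ℂ} {F : ℍ → ℂ} (hP : 0 < P) (hν : ν.re = 0)
    (h : Expn1 P ν β F) : ∃ C c : ℝ, 0 < c ∧ ∀ z : ℍ, 1 / 2 ≤ z.im →
      ‖F z‖ ≤ C * Real.exp (-(c * z.im)) := by
  obtain ⟨K, c, d, hc, hd, hK⟩ := f1_A6_terms hP hν h
  have hS := f1_A6_sum hd
  set S : ℝ := ∑' m : ℤ, Real.exp (-(d * |(m : ℝ)|)) with hSdef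
  have hexp : ∀ t : ℝ, ‖cexp ((t : ℂ) * I)‖ = 1 := fun t => Complex.norm_exp_ofReal_mul_I t
  have hpz : ∀ z : ℍ, pz z.re z.im = z := by
    intro z
    unfold pz
    have : ((z.re : ℂ) + z.im * I) = (z : ℂ) := Complex.re_add_im (z : ℂ)
    rw [this, UpperHalfPlane.ofComplex_apply]
  refine ⟨K * S, c, hc, fun z hz => ?_⟩
  have hz0 : 0 < z.im := by linarith
  have hu : Summable (fun m : ℤ => K * Real.exp (-(c * z.im)) * Real.exp (-(d * |(m : ℝ)|))) :=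
    hS.mul_left _
  have hus : ∑' m : ℤ, K * Real.exp (-(c * z.im)) * Real.exp (-(d * |(m : ℝ)|)) =
      K * S * Real.exp (-(c * z.im)) := by
    rw [tsum_mul_left]
    ring
  have hz4 : 1 / 4 ≤ z.im := by linarith
  have h1 := (h.hasSum z.re z.im hz0).tsum_eq
  rw [hpz] at h1
  rw [← h1, ← hus]
  refine tsum_of_norm_bounded hu.hasSum fun m => ?_
  rw [norm_mul, norm_mul, hexp, mul_one]
  exact hK m z.im hz4

end Pool.Agent.JO.FM1

namespace Pool.Agent.JO.FM1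

theorem expn1_decay : type_of% @expn1_decay_pr := @expn1_decay_pr

end Pool.Agent.JO.FM1
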