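import Pool.Agent.Lib_helper42.JO1.Defs
import Pool.Agent.Lib_helper45.JO.Defs2
import Pool.Agent.Lib_helper42.JO1F.A3
import Pool.Agent.Lib_helper42.JO1F.A4
import Pool.Agent.Lib_helper42.JO1F.A6
import Pool.Agent.Lib_helper45.JOM.A3

/-!
-/

set_option autoImplicit false

namespace Pool.Agent.JO.FM1

open Complex Filter Topology MeasureTheory Set
open UpperHalfPlane hiding I
open Pool.Agent.JO.FM
open scoped MatrixGroups ComplexConjugate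

theorem f1_A11_unit (γ : SL(2, ℤ)) (z : ℍ) : ‖denom γ z / ‖denom γ z‖‖ = 1 := by
  have h : denom γ z ≠ 0 := denom_ne_zero γ z
  rw [norm_div, Complex.norm_real, norm_norm, div_self (norm_ne_zero_iff.mpr h)]

theorem f1_A11_sl (σ : SL(2, ℤ)) (f : ℍ → ℂ) (z : ℍ) : ‖sl σ f z‖ = ‖f (σ • z)‖ := by
  unfold sl
  rw [norm_mul, norm_inv, f1_A11_unit, inv_one, mul_one]

theorem maass_cusp1_pr {N : ℕ} [NeZero N] {χ : DirichletCharacter ℂ N} {ev : ℝ} {f : ℍ → ℂ}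
    (h : IsMaassForm N χ 1 ev f) {ν : ℂ} (hν : ν.re = 0) (hev : ν ^ 2 = 1 / 4 - ev) :
    Cusp1 N ν f := by
  intro σ
  obtain ⟨C, hC⟩ := maass_bdd h
  refine expn1_of_perEig (Nat.pos_of_ne_zero (NeZero.ne N)) hν hev (perEig_sl h σ) ⟨C, fun z => ?_⟩
  rw [f1_A11_sl]
  exact hC _

theorem f1_A11_chi {N : ℕ} [NeZero N] (χ : DirichletCharacter ℂ N) (γ : SL(2, ℤ))
    (hγ : (N : ℤ) ∣ γ 1 0) : ‖χ ((γ 1 1 : ℤ) : ZMod N)‖ = 1 := by
  have hdet : (γ 0 0 : ℤ) * γ 1 1 - γ 0 1 * γ 1 0 = 1 := by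
    have := γ.det_coe
    rwa [Matrix.det_fin_two] at this
  have h0 : ((γ 1 0 : ℤ) : ZMod N) = 0 := by
    rw [ZMod.intCast_zmod_eq_zero_iff_dvd]; exact hγ
  have h1 : ((γ 0 0 : ℤ) : ZMod N) * ((γ 1 1 : ℤ) : ZMod N) = 1 := by
    have h2 := congrArg (fun k : ℤ => (k : ZMod N)) hdet
    push_cast at h2
    rw [h0, mul_zero, sub_zero] at h2
    exact h2
  have hu : IsUnit ((γ 1 1 : ℤ) : ZMod N) := IsUnit.of_mul_eq_one _ (by rw [mul_comm]; exact h1)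
  obtain ⟨u, hu⟩ := hu
  rw [← hu]
  exact DirichletCharacter.unit_norm_eq_one χ u

theorem wform_cusp1_pr {N : ℕ} [NeZero N] {χ : DirichletCharacter ℂ N} {ν : ℂ} (hν : ν.re = 0)
    {u : ℍ → ℂ} {a : ℕ → ℂ} (hc : Continuous u)
    (haut : ∀ γ : SL(2, ℤ), (N : ℤ) ∣ γ 1 0 → ∀ z : ℍ,
      u (γ • z) = χ ((γ 1 1 : ℤ) : ZMod N) * (denom γ z / ‖denom γ z‖) ^ 1 * u z)
    (hcusp : Cusp1 N ν u)
    (hh : ∀ p : ℕ, p.Prime → ¬ p ∣ N → ∀ z : ℍ, heckeT χ p u z = a p * u z) :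
    WForm N χ 1 a u := by
  classical
  refine ⟨hc, haut, ?_, hh⟩
  -- the norm depends on the class modulo `N` only
  have hnorm : ∀ γ₀ γ : SL(2, ℤ), red N γ₀ = red N γ → ∀ z : ℍ, ‖u (γ • z)‖ = ‖u (γ₀ • z)‖ := by
    intro γ₀ γ hγ z
    have h1 : red N (γ * γ₀⁻¹) = 1 := by
      unfold red at hγ ⊢
      rw [map_mul, map_inv, hγ, mul_inv_cancel]
    have h2 : (N : ℤ) ∣ (γ * γ₀⁻¹) 1 0 := by
      rw [← ZMod.intCast_zmod_eq_zero_iff_dvd]
      have h3 := congrArg (fun M : QN N => M 1 0) h1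
      simp only [Matrix.SpecialLinearGroup.coe_one] at h3
      have h4 : (red N (γ * γ₀⁻¹)) 1 0 = (((γ * γ₀⁻¹) 1 0 : ℤ) : ZMod N) := rfl
      rw [h4] at h3
      rw [h3]
      rfl
    have h5 : γ • z = (γ * γ₀⁻¹) • (γ₀ • z) := by
      rw [← mul_smul, inv_mul_cancel_right]
    rw [h5, haut _ h2, norm_mul, norm_mul, f1_A11_chi χ _ h2, pow_one, f1_A11_unit, one_mul,
      one_mul]
  have hclass : ∀ s : QN N, ∃ C c : ℝ, 0 < c ∧ ∀ γ : SL(2, ℤ), red N γ = s → ∀ z : ℍ,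
      1 / 2 ≤ z.im → ‖u (γ • z)‖ ≤ C * Real.exp (-(c * z.im)) := by
    intro s
    by_cases hs : ∃ γ₀, red N γ₀ = s
    · obtain ⟨γ₀, hγ₀⟩ := hs
      obtain ⟨β, hβ⟩ := hcusp γ₀
      obtain ⟨C, c, hc0, hd⟩ := expn1_decay (Nat.pos_of_ne_zero (NeZero.ne N)) hν hβ
      refine ⟨C, c, hc0, fun γ hγ z hz => ?_⟩
      rw [hnorm γ₀ γ (by rw [hγ₀, hγ]) z, ← f1_A11_sl]
      exact hd z hz
    · exact ⟨0, 1, one_pos, fun γ hγ => absurd ⟨γ, hγ⟩ hs⟩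
  choose C c hc0 hCc using hclass
  have hfin : Finite (QN N) := inferInstance
  have : Fintype (QN N) := Fintype.ofFinite _
  refine ⟨∑ s, |C s|, Finset.univ.inf' ⟨1, Finset.mem_univ _⟩ c, ?_, ?_⟩
  · rw [Finset.lt_inf'_iff]
    intro s _
    exact hc0 s
  · intro γ z hz
    refine (hCc (red N γ) γ rfl z hz).trans ?_
    have h1 : C (red N γ) ≤ ∑ s, |C s| := (le_abs_self _).trans
      (Finset.single_le_sum (f := fun s => |C s|) (fun s _ => abs_nonneg _)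
        (Finset.mem_univ (red N γ)))
    have h2 : Finset.univ.inf' ⟨1, Finset.mem_univ _⟩ c ≤ c (red N γ) :=
      Finset.inf'_le _ (Finset.mem_univ _)
    have h3 : Real.exp (-(c (red N γ) * z.im)) ≤
        Real.exp (-(Finset.univ.inf' ⟨1, Finset.mem_univ _⟩ c) * z.im) := by
      apply Real.exp_le_exp.mpr
      have := z.im_pos
      nlinarith
    calc C (red N γ) * Real.exp (-(c (red N γ) * z.im)) ≤
          (∑ s, |C s|) * Real.exp (-(c (red N γ) * z.im)) :=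
          mul_le_mul_of_nonneg_right h1 (Real.exp_pos _).le
      _ ≤ _ := mul_le_mul_of_nonneg_left h3 (Finset.sum_nonneg fun s _ => abs_nonneg _)

end Pool.Agent.JO.FM1

namespace Pool.Agent.JO.FM1

theorem wform_cusp1 : type_of% @wform_cusp1_pr := @wform_cusp1_pr
theorem maass_cusp1 : type_of% @maass_cusp1_pr := @maass_cusp1_pr

end Pool.Agent.JO.FM1
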