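import Pool.Agent.Lib_helper42.JO1.Defs
import Pool.Agent.Lib_helper45.JO.Defs2
import Pool.Agent.Lib_helper42.JO1F.K2
import Pool.Agent.Lib_helper42.JO1F.K5

/-!
-/

set_option autoImplicit false

namespace Pool.Agent.JO.FM1

open Complex Filter Topology MeasureTheory Set
open UpperHalfPlane hiding I
open Pool.Agent.JO.FM
open scoped MatrixGroups ComplexConjugate

theorem f1_A7_sum {c : ℝ} (hc : 0 < c) :
    Summable (fun m : ℤ => Real.exp (-(c * |(m : ℝ)|))) := by
  have h1 : Summable (fun n : ℕ => Real.exp (-(c * (n : ℝ)))) := by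
    have h2 : (fun n : ℕ => Real.exp (-(c * (n : ℝ)))) = fun n : ℕ => (Real.exp (-c)) ^ n := by
      funext n
      rw [← Real.exp_nat_mul]
      congr 1
      ring
    rw [h2]
    exact summable_geometric_of_lt_one (Real.exp_pos _).le (Real.exp_lt_one_iff.2 (by linarith))
  refine Summable.of_nat_of_neg ?_ ?_
  · refine h1.congr fun n => ?_
    simp
  · refine h1.congr fun n => ?_
    simp

theorem f1_A7_Wz {ν : ℂ} (hν : ν.re = 0) : ∃ K : ℝ, 0 ≤ K ∧ ∀ (m : ℤ) (x : ℝ), 0 < x →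
    ‖Wz ν m x‖ ≤ K * Real.exp (-(x / 8)) ∧ x * ‖Wz ν m x‖ ≤ K * Real.exp (-(x / 8)) ∧
      x * ‖deriv (Wz ν m) x‖ ≤ K * Real.exp (-(x / 8)) := by
  obtain ⟨C, hC⟩ := Wz_bound hν (b := 1 / 4) (by norm_num)
  have hC0 : 0 ≤ C := by
    have h1 := (hC 1 1 one_pos).1
    have h2 : 0 < Real.exp (-(1 / 2) : ℝ) := Real.exp_pos _
    rw [Real.one_rpow, mul_one] at h1
    by_contra hneg
    push Not at hneg
    have h3 := mul_neg_of_neg_of_pos hneg h2
    linarith [norm_nonneg (Wz ν 1 1)]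
  refine ⟨1024 * C, by positivity, fun m x hx => ?_⟩
  obtain ⟨h1, h2, -⟩ := hC m x hx
  set a : ℝ := 1 / 2 - 1 / 4 with ha
  have ha0 : 0 ≤ a := by rw [ha]; norm_num
  have ha1 : a ≤ 1 := by rw [ha]; norm_num
  have hxa : x ^ a ≤ 1 + x := by
    calc x ^ a ≤ (1 + x) ^ a := Real.rpow_le_rpow hx.le (by linarith) ha0
      _ ≤ (1 + x) ^ (1 : ℝ) := Real.rpow_le_rpow_of_exponent_le (by linarith) ha1
      _ = 1 + x := Real.rpow_one _
  have he : 1 + x ≤ 32 * Real.exp (x / 32) := by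
    have := Real.add_one_le_exp (x / 32)
    linarith
  have hxa2 : x ^ a ≤ 32 * Real.exp (x / 32) := hxa.trans he
  have hmul : ∀ u v : ℝ, Real.exp u * Real.exp v = Real.exp (u + v) := fun u v =>
    (Real.exp_add u v).symm
  have hpos : 0 ≤ x ^ a := by positivity
  have g1 : ‖Wz ν m x‖ ≤ 32 * C * Real.exp (-(x / 4)) := by
    calc ‖Wz ν m x‖ ≤ C * x ^ a * Real.exp (-(x / 2)) := h1
      _ ≤ C * (32 * Real.exp (x / 32)) * Real.exp (-(x / 2)) := by
          apply mul_le_mul_of_nonneg_right _ (Real.exp_pos _).le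
          exact mul_le_mul_of_nonneg_left hxa2 hC0
      _ = 32 * C * Real.exp (x / 32 + -(x / 2)) := by rw [← hmul]; ring
      _ ≤ 32 * C * Real.exp (-(x / 4)) := by
          apply mul_le_mul_of_nonneg_left _ (by positivity)
          exact Real.exp_le_exp.2 (by linarith)
  refine ⟨?_, ?_, ?_⟩
  · refine g1.trans ?_
    apply mul_le_mul (by linarith) (Real.exp_le_exp.2 (by linarith)) (Real.exp_pos _).le
      (by positivity)
  · calc x * ‖Wz ν m x‖ ≤ (32 * Real.exp (x / 32)) * (32 * C * Real.exp (-(x / 4))) := by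
          apply mul_le_mul (by linarith) g1 (norm_nonneg _) (by positivity)
      _ = 1024 * C * Real.exp (x / 32 + -(x / 4)) := by rw [← hmul]; ring
      _ ≤ 1024 * C * Real.exp (-(x / 8)) := by
          apply mul_le_mul_of_nonneg_left _ (by positivity)
          exact Real.exp_le_exp.2 (by linarith)
  · calc x * ‖deriv (Wz ν m) x‖ ≤ C * x ^ a * Real.exp (-(x / 4)) := h2
      _ ≤ C * (32 * Real.exp (x / 32)) * Real.exp (-(x / 4)) := by
          apply mul_le_mul_of_nonneg_right _ (Real.exp_pos _).le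
          exact mul_le_mul_of_nonneg_left hxa2 hC0
      _ = 32 * C * Real.exp (x / 32 + -(x / 4)) := by rw [← hmul]; ring
      _ ≤ 1024 * C * Real.exp (-(x / 8)) := by
          apply mul_le_mul (by linarith) (Real.exp_le_exp.2 (by linarith)) (Real.exp_pos _).le
            (by positivity)

theorem f1_A7_coef {P : ℕ} {ν : ℂ} {β : ℤ → ℂ} {F : ℍ → ℂ} (h : Expn1 P ν β F) :
    ∃ B : ℝ, 0 ≤ B ∧ ∀ m, ‖β m‖ ≤ B := by
  obtain ⟨C, hC⟩ := h.dyad
  refine ⟨√C, Real.sqrt_nonneg _, fun m => ?_⟩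
  rcases eq_or_ne m 0 with rfl | hm
  · rw [h.zero, norm_zero]
    exact Real.sqrt_nonneg _
  · apply Real.le_sqrt_of_sq_le
    have hpos : 0 < m.natAbs := Int.natAbs_pos.2 hm
    have h1 := hC m.natAbs hpos
    have h2 : ‖β (m.natAbs : ℤ)‖ ^ 2 + ‖β (-(m.natAbs : ℤ))‖ ^ 2 ≤
        ∑ j ∈ Finset.Icc m.natAbs (2 * m.natAbs), (‖β (j : ℤ)‖ ^ 2 + ‖β (-(j : ℤ))‖ ^ 2) :=
      Finset.single_le_sum (f := fun j : ℕ => ‖β (j : ℤ)‖ ^ 2 + ‖β (-(j : ℤ))‖ ^ 2)
        (fun j _ => by positivity) (Finset.mem_Icc.2 ⟨le_rfl, by omega⟩)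
    rcases Int.natAbs_eq m with h3 | h3
    · rw [h3]
      have : 0 ≤ ‖β (-(m.natAbs : ℤ))‖ ^ 2 := by positivity
      linarith
    · rw [h3]
      have : 0 ≤ ‖β (m.natAbs : ℤ)‖ ^ 2 := by positivity
      linarith

/-- the three bounds for the terms -/
theorem f1_A7_terms {P : ℕ} {ν : ℂ} {β : ℤ → ℂ} {F : ℍ → ℂ} (hP : 0 < P) (hν : ν.re = 0)
    (h : Expn1 P ν β F) {y₁ : ℝ} (hy₁ : 0 < y₁) : ∃ K d : ℝ, 0 < d ∧ ∀ (m : ℤ) (y : ℝ), y₁ ≤ y →
      ‖β m‖ * (2 * Real.pi * |(m : ℝ)| / P) * ‖Wz ν m (2 * Real.pi * |(m : ℝ)| * y / P)‖ ≤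
        K * Real.exp (-(d * |(m : ℝ)|)) ∧
      ‖β m‖ * (2 * Real.pi * |(m : ℝ)| / P) *
        ‖deriv (Wz ν m) (2 * Real.pi * |(m : ℝ)| * y / P)‖ ≤
        K * Real.exp (-(d * |(m : ℝ)|)) := by
  obtain ⟨K₁, hK0, hK⟩ := f1_A7_Wz hν
  obtain ⟨B, hB0, hB⟩ := f1_A7_coef h
  have hPr : (0 : ℝ) < P := by exact_mod_cast hP
  have hpi := Real.pi_pos
  set d : ℝ := Real.pi * y₁ / (4 * P) with hd
  have hd0 : 0 < d := by positivity
  refine ⟨B * (y₁⁻¹ * K₁), d, hd0, fun m y hy => ?_⟩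
  have hy0 : 0 < y := by linarith
  rcases eq_or_ne m 0 with rfl | hm
  · rw [h.zero, norm_zero]
    simp only [zero_mul]
    refine ⟨by positivity, by positivity⟩
  · have hm1 : (1 : ℝ) ≤ |(m : ℝ)| := by
      have : 1 ≤ |m| := Int.one_le_abs hm
      exact_mod_cast this
    set x : ℝ := 2 * Real.pi * |(m : ℝ)| * y / P with hx
    have hx0 : 0 < x := by positivity
    obtain ⟨g1, g2, g3⟩ := hK m x hx0
    have hxe : Real.exp (-(x / 8)) ≤ Real.exp (-(d * |(m : ℝ)|)) := by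
      apply Real.exp_le_exp.2
      have e1 : x / 8 = Real.pi * |(m : ℝ)| * y / (4 * P) := by
        rw [hx]
        field_simp
        ring
      have e2 : d * |(m : ℝ)| = Real.pi * |(m : ℝ)| * y₁ / (4 * P) := by
        rw [hd]
        ring
      rw [e1, e2]
      apply neg_le_neg
      apply div_le_div_of_nonneg_right _ (by positivity)
      exact mul_le_mul_of_nonneg_left hy (by positivity)
    have hxy : 2 * Real.pi * |(m : ℝ)| / P ≤ y₁⁻¹ * x := by
      have e4 : 2 * Real.pi * |(m : ℝ)| / P = y⁻¹ * x := by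
        rw [hx]
        field_simp
      rw [e4]
      exact mul_le_mul_of_nonneg_right (inv_anti₀ hy₁ hy) hx0.le
    have hfin : ∀ t : ℝ, 0 ≤ t → x * t ≤ K₁ * Real.exp (-(x / 8)) →
        ‖β m‖ * (2 * Real.pi * |(m : ℝ)| / P) * t ≤
        B * (y₁⁻¹ * K₁) * Real.exp (-(d * |(m : ℝ)|)) := by
      intro t ht0 ht
      calc ‖β m‖ * (2 * Real.pi * |(m : ℝ)| / P) * t
          ≤ ‖β m‖ * (y₁⁻¹ * x) * t := by
            apply mul_le_mul_of_nonneg_right _ ht0
            exact mul_le_mul_of_nonneg_left hxy (norm_nonneg _)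
        _ = ‖β m‖ * (y₁⁻¹ * (x * t)) := by ring
        _ ≤ B * (y₁⁻¹ * (K₁ * Real.exp (-(d * |(m : ℝ)|)))) := by
            apply mul_le_mul (hB m) _ (by positivity) hB0
            apply mul_le_mul_of_nonneg_left _ (by positivity)
            exact ht.trans (mul_le_mul_of_nonneg_left hxe hK0)
        _ = _ := by ring
    exact ⟨hfin _ (norm_nonneg _) g2, hfin _ (norm_nonneg _) g3⟩

theorem f1_A7_deriv (ν : ℂ) (m : ℤ) {x : ℝ} (hx : 0 < x) :
    HasDerivAt (Wz ν m) (deriv (Wz ν m) x) x ∧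
    (0 < m → (x : ℂ) * deriv (Wz ν m) x = -(x * Wp ν x) + Wp ν x / 2 - ν ^ 2 * Vm ν x) ∧
    (¬ 0 < m → (x : ℂ) * deriv (Wz ν m) x = x * Vm ν x + Vm ν x / 2 - Wp ν x) := by
  have hx0 : (x : ℂ) ≠ 0 := by exact_mod_cast hx.ne'
  by_cases hm : 0 < m
  · have e : Wz ν m = Wp ν := by
      funext t
      unfold Wz
      rw [if_pos hm]
    have h1 := Wp_deriv ν hx
    rw [e, h1.deriv]
    refine ⟨h1, fun _ => ?_, fun h => absurd hm h⟩
    field_simp
  · have e : Wz ν m = Vm ν := by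
      funext t
      unfold Wz
      rw [if_neg hm]
    have h1 := Vm_deriv ν hx
    rw [e, h1.deriv]
    refine ⟨h1, fun h => absurd h hm, fun _ => ?_⟩
    field_simp

theorem f1_A7_pz {x y : ℝ} (hy : 0 < y) : ((pz x y : ℍ) : ℂ) = x + y * I ∧ (pz x y).re = x ∧
    (pz x y).im = y := by
  have h1 : ((pz x y : ℍ) : ℂ) = x + y * I := by
    unfold pz
    rw [ofComplex_apply_of_im_pos (by simpa using hy)]
  refine ⟨h1, ?_, ?_⟩
  · rw [← coe_re, h1]
    simp
  · rw [← coe_im, h1]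
    simp

/-- the derivatives of `F` are sums of the derivatives of the terms -/
theorem f1_A7_dXY {P : ℕ} {ν : ℂ} {β : ℤ → ℂ} {F : ℍ → ℂ} (hP : 0 < P) (hν : ν.re = 0)
    (h : Expn1 P ν β F) {x y : ℝ} (hy : 0 < y) :
    HasSum (fun m : ℤ => β m * Wz ν m (2 * Real.pi * |(m : ℝ)| * y / P) *
      (cexp ((2 * Real.pi * m * x / P : ℝ) * I) * ((2 * Real.pi * m / P : ℝ) * I)))
      (dX F (pz x y)) ∧
    HasSum (fun m : ℤ => β m * ((2 * Real.pi * |(m : ℝ)| / P : ℝ) *
      deriv (Wz ν m) (2 * Real.pi * |(m : ℝ)| * y / P)) *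
      cexp ((2 * Real.pi * m * x / P : ℝ) * I)) (dY F (pz x y)) := by
  have hy2 : 0 < y / 2 := by linarith
  obtain ⟨K, d, hd, hK⟩ := f1_A7_terms hP hν h hy2
  have hS := f1_A7_sum hd
  have hPr : (0 : ℝ) < P := by exact_mod_cast hP
  have hpi := Real.pi_pos
  have hexp : ∀ t : ℝ, ‖cexp ((t : ℂ) * I)‖ = 1 := fun t => Complex.norm_exp_ofReal_mul_I t
  obtain ⟨hz, -, -⟩ := f1_A7_pz (x := x) hy
  have hu : Summable (fun m : ℤ => K * Real.exp (-(d * |(m : ℝ)|))) := hS.mul_left _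
  constructor
  · -- the derivative in `x`
    set g : ℤ → ℝ → ℂ := fun m t => β m * Wz ν m (2 * Real.pi * |(m : ℝ)| * y / P) *
      cexp ((2 * Real.pi * m * (x + t) / P : ℝ) * I) with hg
    set g' : ℤ → ℝ → ℂ := fun m t => β m * Wz ν m (2 * Real.pi * |(m : ℝ)| * y / P) *
      (cexp ((2 * Real.pi * m * (x + t) / P : ℝ) * I) * ((2 * Real.pi * m / P : ℝ) * I)) with hg'
    have hF : ∀ t : ℝ, F (ofComplex (((pz x y : ℍ) : ℂ) + t)) = ∑' m, g m t := by
      intro t
      rw [hg, (h.hasSum (x + t) y hy).tsum_eq]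
      unfold pz
      rw [ofComplex_apply_of_im_pos (z := (x : ℂ) + y * I) (by simpa using hy)]
      congr 2
      push_cast
      ring
    have hder : ∀ (m : ℤ) (t : ℝ), HasDerivAt (g m) (g' m t) t := by
      intro m t
      have h3 : HasDerivAt (fun t : ℝ => ((2 * Real.pi * m * (x + t) / P : ℝ) : ℂ) * I)
          ((2 * Real.pi * m / P : ℝ) * I) t := by
        have h4 : HasDerivAt (fun t : ℝ => (2 * Real.pi * m * (x + t) / P : ℝ))
            (2 * Real.pi * m / P) t := by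
          have h5 := (((hasDerivAt_id t).const_add x).const_mul (2 * Real.pi * m)).div_const
            (P : ℝ)
          simpa using h5
        exact h4.ofReal_comp.mul_const I
      exact (h3.cexp).const_mul _
    have hb : ∀ (m : ℤ) (t : ℝ), ‖g' m t‖ ≤ K * Real.exp (-(d * |(m : ℝ)|)) := by
      intro m t
      show ‖β m * Wz ν m (2 * Real.pi * |(m : ℝ)| * y / P) *
        (cexp ((2 * Real.pi * m * (x + t) / P : ℝ) * I) * ((2 * Real.pi * m / P : ℝ) * I))‖ ≤ _
      rw [norm_mul, norm_mul, norm_mul, hexp, norm_mul, Complex.norm_I, mul_one, one_mul,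
        Complex.norm_real, Real.norm_eq_abs]
      have h6 : |2 * Real.pi * (m : ℝ) / P| = 2 * Real.pi * |(m : ℝ)| / P := by
        rw [abs_div, abs_mul, abs_of_pos (by positivity : (0 : ℝ) < 2 * Real.pi), abs_of_pos hPr]
      rw [h6]
      have h7 := (hK m y (by linarith)).1
      linarith
    have hsum0 : Summable (fun m => g m 0) := (h.hasSum (x + 0) y hy).summable
    have hD := hasDerivAt_tsum_of_isPreconnected hu isOpen_univ isPreconnected_univ
      (fun m t _ => hder m t) (fun m t _ => hb m t) (mem_univ (0 : ℝ)) hsum0 (mem_univ (0 : ℝ))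
    have hdX : dX F (pz x y) = ∑' m, g' m 0 := by
      unfold dX
      simp only [hF]
      exact hD.deriv
    rw [hdX]
    have hsm : Summable (fun m => g' m 0) := Summable.of_norm_bounded hu fun m => hb m 0
    have e := hsm.hasSum
    simp only [hg', add_zero] at e ⊢
    exact e
  · -- the derivative in `y`
    set g : ℤ → ℝ → ℂ := fun m t => β m * Wz ν m (2 * Real.pi * |(m : ℝ)| * (y + t) / P) *
      cexp ((2 * Real.pi * m * x / P : ℝ) * I) with hg
    set g' : ℤ → ℝ → ℂ := fun m t => β m * ((2 * Real.pi * |(m : ℝ)| / P : ℝ) *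
      deriv (Wz ν m) (2 * Real.pi * |(m : ℝ)| * (y + t) / P)) *
      cexp ((2 * Real.pi * m * x / P : ℝ) * I) with hg'
    set U : Set ℝ := Ioi (y / 2 - y) with hU
    have hU0 : (0 : ℝ) ∈ U := by
      rw [hU, mem_Ioi]
      linarith
    have hF : ∀ t ∈ U, F (ofComplex (((pz x y : ℍ) : ℂ) + t * I)) = ∑' m, g m t := by
      intro t ht
      rw [hU, mem_Ioi] at ht
      rw [hg, (h.hasSum x (y + t) (by linarith)).tsum_eq]
      unfold pz
      rw [ofComplex_apply_of_im_pos (z := (x : ℂ) + y * I) (by simpa using hy)]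
      congr 2
      push_cast
      ring
    have hder : ∀ (m : ℤ) (t : ℝ), t ∈ U → HasDerivAt (g m) (g' m t) t := by
      intro m t ht
      rw [hU, mem_Ioi] at ht
      rcases eq_or_ne m 0 with rfl | hm
      · have h3 : g 0 = fun _ => 0 := by
          funext t
          rw [hg]
          simp [h.zero]
        have h4 : g' 0 t = 0 := by
          rw [hg']
          simp [h.zero]
        rw [h3, h4]
        exact hasDerivAt_const t 0
      · have hm0 : (0 : ℝ) < |(m : ℝ)| := abs_pos.2 (by exact_mod_cast hm)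
        have hx : 0 < 2 * Real.pi * |(m : ℝ)| * (y + t) / P := by
          have : 0 < y + t := by linarith
          positivity
        have h4 : HasDerivAt (fun t : ℝ => (2 * Real.pi * |(m : ℝ)| * (y + t) / P : ℝ))
            (2 * Real.pi * |(m : ℝ)| / P) t := by
          have h5 := (((hasDerivAt_id t).const_add y).const_mul
            (2 * Real.pi * |(m : ℝ)|)).div_const (P : ℝ)
          simpa using h5
        have h6 := HasDerivAt.scomp (𝕜 := ℝ) t (f1_A7_deriv ν m hx).1 h4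
        have h7 := (h6.const_mul (β m)).mul_const (cexp ((2 * Real.pi * m * x / P : ℝ) * I))
        rw [Complex.real_smul] at h7
        exact h7
    have hb : ∀ (m : ℤ) (t : ℝ), t ∈ U → ‖g' m t‖ ≤ K * Real.exp (-(d * |(m : ℝ)|)) := by
      intro m t ht
      rw [hU, mem_Ioi] at ht
      show ‖β m * ((2 * Real.pi * |(m : ℝ)| / P : ℝ) *
        deriv (Wz ν m) (2 * Real.pi * |(m : ℝ)| * (y + t) / P)) *
        cexp ((2 * Real.pi * m * x / P : ℝ) * I)‖ ≤ _
      rw [norm_mul, norm_mul, norm_mul, hexp, mul_one, Complex.norm_real, Real.norm_eq_abs,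
        abs_of_nonneg (by positivity), ← mul_assoc]
      exact (hK m (y + t) (by linarith)).2
    have hsum0 : Summable (fun m => g m 0) := by
      have h9 := (h.hasSum x (y + 0) (by linarith)).summable
      exact h9
    have hD := hasDerivAt_tsum_of_isPreconnected hu (isOpen_Ioi (a := y / 2 - y))
      isPreconnected_Ioi (fun m t ht => hder m t ht) (fun m t ht => hb m t ht) hU0 hsum0 hU0
    have hdY : dY F (pz x y) = ∑' m, g' m 0 := by
      unfold dY
      have h10 : (fun t : ℝ => F (ofComplex (((pz x y : ℍ) : ℂ) + t * I))) =ᶠ[𝓝 0]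
          fun t => ∑' m, g m t := by
        filter_upwards [(isOpen_Ioi (a := y / 2 - y)).mem_nhds hU0] with t ht
        exact hF t ht
      rw [h10.deriv_eq]
      exact hD.deriv
    rw [hdY]
    have hsm : Summable (fun m => g' m 0) := Summable.of_norm_bounded hu fun m => hb m 0 hU0
    have e := hsm.hasSum
    simp only [hg', add_zero] at e ⊢
    exact e

/-- A7 -/
theorem Qo_expn_pr {P : ℕ} {ν : ℂ} {β : ℤ → ℂ} {F : ℍ → ℂ} (hP : 0 < P) (hν : ν.re = 0)
    (h : Expn1 P ν β F) :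
    Expn1 P ν (fun m => if 0 < m then β (-m) else ν ^ 2 * β (-m)) (Qo F) := by
  have hPr : (0 : ℝ) < P := by exact_mod_cast hP
  have hpi := Real.pi_pos
  constructor
  · simp [h.zero]
  · obtain ⟨C, hC⟩ := h.dyad
    refine ⟨max 1 (‖ν ^ 2‖ ^ 2) * C, fun M hM => ?_⟩
    calc ∑ m ∈ Finset.Icc M (2 * M), (‖(if 0 < ((m : ℕ) : ℤ) then β (-(m : ℤ)) else
            ν ^ 2 * β (-(m : ℤ)))‖ ^ 2 + ‖(if 0 < -((m : ℕ) : ℤ) then β (-(-(m : ℤ))) else
            ν ^ 2 * β (-(-(m : ℤ))))‖ ^ 2)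
        ≤ ∑ m ∈ Finset.Icc M (2 * M), max 1 (‖ν ^ 2‖ ^ 2) *
            (‖β (m : ℤ)‖ ^ 2 + ‖β (-(m : ℤ))‖ ^ 2) := by
          refine Finset.sum_le_sum fun m hm => ?_
          have hm1 : 0 < m := lt_of_lt_of_le hM (Finset.mem_Icc.mp hm).1
          rw [if_pos (by exact_mod_cast hm1), if_neg (by omega), neg_neg, norm_mul, mul_pow]
          have e1 : ‖β (-(m : ℤ))‖ ^ 2 ≤ max 1 (‖ν ^ 2‖ ^ 2) * ‖β (-(m : ℤ))‖ ^ 2 := by
            nlinarith [le_max_left 1 (‖ν ^ 2‖ ^ 2), sq_nonneg ‖β (-(m : ℤ))‖]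
          have e2 : ‖ν ^ 2‖ ^ 2 * ‖β (m : ℤ)‖ ^ 2 ≤ max 1 (‖ν ^ 2‖ ^ 2) * ‖β (m : ℤ)‖ ^ 2 :=
            mul_le_mul_of_nonneg_right (le_max_right _ _) (by positivity)
          linarith
      _ = max 1 (‖ν ^ 2‖ ^ 2) * ∑ m ∈ Finset.Icc M (2 * M),
            (‖β (m : ℤ)‖ ^ 2 + ‖β (-(m : ℤ))‖ ^ 2) := by rw [Finset.mul_sum]
      _ ≤ max 1 (‖ν ^ 2‖ ^ 2) * C := mul_le_mul_of_nonneg_left (hC M hM) (by positivity)
  · intro x y hy
    obtain ⟨hz, hre, him⟩ := f1_A7_pz (x := x) hy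
    obtain ⟨hz', hre', him'⟩ := f1_A7_pz (x := -x) hy
    have hQ : Qo F (pz x y) = F (pz (-x) y) / 2 +
        y * (I * dX F (pz (-x) y) - dY F (pz (-x) y)) := by
      unfold Qo Lo
      rw [hre, him, him']
    rw [hQ]
    obtain ⟨hX, hY⟩ := f1_A7_dXY hP hν h (x := -x) hy
    have hF := h.hasSum (-x) y hy
    have hs := (hF.div_const 2).add (((hX.mul_left I).sub hY).mul_left (y : ℂ))
    rw [← (Equiv.neg ℤ).hasSum_iff] at hs
    have key : (fun m : ℤ => (if 0 < m then β (-m) else ν ^ 2 * β (-m)) *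
        Wz ν m (2 * Real.pi * |(m : ℝ)| * y / P) * cexp ((2 * Real.pi * m * x / P : ℝ) * I)) =
        (fun m : ℤ => β m * Wz ν m (2 * Real.pi * |(m : ℝ)| * y / P) *
          cexp ((2 * Real.pi * m * (-x) / P : ℝ) * I) / 2 +
          y * (I * (β m * Wz ν m (2 * Real.pi * |(m : ℝ)| * y / P) *
            (cexp ((2 * Real.pi * m * (-x) / P : ℝ) * I) * ((2 * Real.pi * m / P : ℝ) * I))) -
            β m * ((2 * Real.pi * |(m : ℝ)| / P : ℝ) *
              deriv (Wz ν m) (2 * Real.pi * |(m : ℝ)| * y / P)) *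
              cexp ((2 * Real.pi * m * (-x) / P : ℝ) * I))) ∘ (Equiv.neg ℤ) := by
      funext m
      show (if 0 < m then β (-m) else ν ^ 2 * β (-m)) *
        Wz ν m (2 * Real.pi * |(m : ℝ)| * y / P) * cexp ((2 * Real.pi * m * x / P : ℝ) * I) =
        β (-m) * Wz ν (-m) (2 * Real.pi * |((-m : ℤ) : ℝ)| * y / P) *
          cexp ((2 * Real.pi * (-m : ℤ) * (-x) / P : ℝ) * I) / 2 +
          y * (I * (β (-m) * Wz ν (-m) (2 * Real.pi * |((-m : ℤ) : ℝ)| * y / P) *
            (cexp ((2 * Real.pi * (-m : ℤ) * (-x) / P : ℝ) * I) *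
              ((2 * Real.pi * (-m : ℤ) / P : ℝ) * I))) -
            β (-m) * ((2 * Real.pi * |((-m : ℤ) : ℝ)| / P : ℝ) *
              deriv (Wz ν (-m)) (2 * Real.pi * |((-m : ℤ) : ℝ)| * y / P)) *
              cexp ((2 * Real.pi * (-m : ℤ) * (-x) / P : ℝ) * I))
      have e1 : ((-m : ℤ) : ℝ) = -(m : ℝ) := by push_cast; ring
      have e2 : (2 * Real.pi * -(m : ℝ) * -x / P : ℝ) = 2 * Real.pi * m * x / P := by ring
      rw [e1, abs_neg, e2]
      rcases eq_or_ne m 0 with rfl | hm0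
      · simp [h.zero]
      have hm1 : (0 : ℝ) < |(m : ℝ)| := abs_pos.2 (by exact_mod_cast hm0)
      set X : ℝ := 2 * Real.pi * |(m : ℝ)| * y / P with hX
      have hX0 : 0 < X := by positivity
      obtain ⟨-, d1, d2⟩ := f1_A7_deriv ν (-m) hX0
      have hXy : ((2 * Real.pi * |(m : ℝ)| / P : ℝ) : ℂ) * y = X := by
        rw [hX]
        push_cast
        ring
      rcases lt_or_gt_of_ne hm0 with hm | hm
      · -- negative frequency
        have d3 := d1 (by omega)
        have w1 : Wz ν (-m) X = Wp ν X := by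
          unfold Wz
          rw [if_pos (by omega)]
        have w2 : Wz ν m X = Vm ν X := by
          unfold Wz
          rw [if_neg (by omega)]
        have e3 : |(m : ℝ)| = -(m : ℝ) := abs_of_neg (by exact_mod_cast hm)
        have e4 : (2 * Real.pi * -(m : ℝ) / P : ℝ) = 2 * Real.pi * |(m : ℝ)| / P := by rw [e3]
        rw [if_neg (by omega), w1, w2, e4]
        set e := cexp ((2 * Real.pi * m * x / P : ℝ) * I) with he
        set k : ℂ := ((2 * Real.pi * |(m : ℝ)| / P : ℝ) : ℂ) with hk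
        have hI : I * I = -1 := Complex.I_mul_I
        linear_combination (β (-m) * e) * d3 +
          (β (-m) * e * deriv (Wz ν (-m)) X + β (-m) * e * Wp ν X) * hXy -
          (y * β (-m) * Wp ν X * e * k) * hI
      · -- positive frequency
        have d3 := d2 (by omega)
        have w1 : Wz ν (-m) X = Vm ν X := by
          unfold Wz
          rw [if_neg (by omega)]
        have w2 : Wz ν m X = Wp ν X := by
          unfold Wz
          rw [if_pos (by omega)]
        have e3 : |(m : ℝ)| = (m : ℝ) := abs_of_pos (by exact_mod_cast hm)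
        have e4 : ((2 * Real.pi * -(m : ℝ) / P : ℝ) : ℂ) =
            -((2 * Real.pi * |(m : ℝ)| / P : ℝ) : ℂ) := by
          rw [e3]
          push_cast
          ring
        rw [if_pos hm, w1, w2, e4]
        set e := cexp ((2 * Real.pi * m * x / P : ℝ) * I) with he
        set k : ℂ := ((2 * Real.pi * |(m : ℝ)| / P : ℝ) : ℂ) with hk
        have hI : I * I = -1 := Complex.I_mul_I
        linear_combination (β (-m) * e) * d3 +
          (β (-m) * e * deriv (Wz ν (-m)) X - β (-m) * e * Vm ν X) * hXy +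
          (y * β (-m) * Vm ν X * e * k) * hI
    rw [key]
    exact hs

theorem f1_A7_fd {f : ℍ → ℂ}
    (hf : ContDiffOn ℝ 2 (fun z : ℂ => f (ofComplex z)) {z | 0 < z.im}) (z : ℍ) :
    dX f z = fderiv ℝ (fun z : ℂ => f (ofComplex z)) (z : ℂ) 1 ∧
      dY f z = fderiv ℝ (fun z : ℂ => f (ofComplex z)) (z : ℂ) I := by
  have hopen : IsOpen {z : ℂ | 0 < z.im} := isOpen_lt continuous_const Complex.continuous_im
  have h1 : DifferentiableAt ℝ (fun z : ℂ => f (ofComplex z)) (z : ℂ) :=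
    (hf.differentiableOn (by norm_num)).differentiableAt (hopen.mem_nhds z.im_pos)
  constructor
  · unfold dX
    have h2 : HasDerivAt (fun t : ℝ => (z : ℂ) + t) 1 0 :=
      (Complex.ofRealCLM.hasDerivAt (x := 0)).const_add (z : ℂ)
    have h3 : HasFDerivAt (fun z : ℂ => f (ofComplex z))
        (fderiv ℝ (fun z : ℂ => f (ofComplex z)) (z : ℂ)) ((z : ℂ) + (0 : ℝ)) := by
      simpa using h1.hasFDerivAt
    exact (h3.comp_hasDerivAt (0 : ℝ) h2).deriv
  · unfold dY
    have h2 : HasDerivAt (fun t : ℝ => (z : ℂ) + t * I) I 0 := by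
      simpa using ((Complex.ofRealCLM.hasDerivAt (x := 0)).mul_const I).const_add (z : ℂ)
    have h3 : HasFDerivAt (fun z : ℂ => f (ofComplex z))
        (fderiv ℝ (fun z : ℂ => f (ofComplex z)) (z : ℂ)) ((z : ℂ) + (0 : ℝ) * I) := by
      simpa using h1.hasFDerivAt
    exact (h3.comp_hasDerivAt (0 : ℝ) h2).deriv

theorem f1_A7_Lo {f : ℍ → ℂ}
    (hf : ContDiffOn ℝ 2 (fun z : ℂ => f (ofComplex z)) {z | 0 < z.im}) :
    Continuous (Lo f) := by
  have hopen : IsOpen {z : ℂ | 0 < z.im} := isOpen_lt continuous_const Complex.continuous_im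
  have hmem : ∀ z : ℍ, (z : ℂ) ∈ {z : ℂ | 0 < z.im} := fun z => z.im_pos
  have hc : Continuous f := by
    have h1 : Continuous (fun z : ℍ => (fun z : ℂ => f (ofComplex z)) (z : ℂ)) :=
      hf.continuousOn.comp_continuous continuous_coe hmem
    simpa using h1
  have hD : ContinuousOn (fderiv ℝ (fun z : ℂ => f (ofComplex z))) {z | 0 < z.im} :=
    hf.continuousOn_fderiv_of_isOpen hopen (by norm_num)
  have hD2 : Continuous (fun z : ℍ => fderiv ℝ (fun z : ℂ => f (ofComplex z)) (z : ℂ)) :=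
    hD.comp_continuous continuous_coe hmem
  have hX : Continuous (dX f) := by
    have : dX f = fun z : ℍ => fderiv ℝ (fun z : ℂ => f (ofComplex z)) (z : ℂ) 1 :=
      funext fun z => (f1_A7_fd hf z).1
    rw [this]
    exact hD2.clm_apply continuous_const
  have hY : Continuous (dY f) := by
    have : dY f = fun z : ℍ => fderiv ℝ (fun z : ℂ => f (ofComplex z)) (z : ℂ) I :=
      funext fun z => (f1_A7_fd hf z).2
    rw [this]
    exact hD2.clm_apply continuous_const
  have him : Continuous (fun z : ℍ => ((z.im : ℝ) : ℂ)) :=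
    Complex.continuous_ofReal.comp UpperHalfPlane.continuous_im
  unfold Lo
  exact (hc.div_const 2).add (him.mul ((continuous_const.mul hX).sub hY))

/-- A7 -/
theorem Qo_cont_pr {f : ℍ → ℂ}
    (hf : ContDiffOn ℝ 2 (fun z : ℂ => f (ofComplex z)) {z | 0 < z.im}) :
    Continuous (Qo f) := by
  have h1 : Continuous (fun z : ℍ => pz (-z.re) z.im) := by
    rw [UpperHalfPlane.isOpenEmbedding_coe.isInducing.continuous_iff]
    have h2 : ((fun z : ℍ => (z : ℂ)) ∘ fun z : ℍ => pz (-z.re) z.im) =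
        fun z : ℍ => ((-z.re : ℝ) : ℂ) + ((z.im : ℝ) : ℂ) * I := by
      funext z
      exact (f1_A7_pz z.im_pos).1
    rw [h2]
    exact (Complex.continuous_ofReal.comp UpperHalfPlane.continuous_re.neg).add
      ((Complex.continuous_ofReal.comp UpperHalfPlane.continuous_im).mul continuous_const)
  exact (f1_A7_Lo hf).comp h1

end Pool.Agent.JO.FM1

namespace Pool.Agent.JO.FM1

theorem Qo_expn : type_of% @Qo_expn_pr := @Qo_expn_pr
theorem Qo_cont : type_of% @Qo_cont_pr := @Qo_cont_pr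

end Pool.Agent.JO.FM1
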