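import Pool.Agent.Lib_helper42.JO1.Defs
import Pool.Agent.Lib_helper45.JO.Defs2
import Pool.Agent.Lib_helper42.JO1F.A1
import Pool.Agent.Lib_helper42.JO1F.A11
import Pool.Agent.Lib_helper42.JO1F.A7

/-!
-/

set_option autoImplicit false

namespace Pool.Agent.JO.FM1

open Complex Filter Topology MeasureTheory Set
open UpperHalfPlane hiding I
open Pool.Agent.JO.FM
open scoped MatrixGroups ComplexConjugate

/-! ### the reflection -/

theorem f1_a12_pz {x y : ℝ} (hy : 0 < y) : ((pz x y : ℍ) : ℂ) = (x : ℂ) + y * I := by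
  unfold pz
  have h : 0 < ((x : ℂ) + y * I).im := by simpa using hy
  rw [ofComplex_apply_of_im_pos h]

/-- the reflection `-z̄` -/
noncomputable def f1_a12_r (z : ℍ) : ℍ := pz (-z.re) z.im

theorem f1_a12_coe (z : ℍ) : (f1_a12_r z : ℂ) = -conj (z : ℂ) := by
  unfold f1_a12_r
  rw [f1_a12_pz z.im_pos]
  apply Complex.ext <;> simp

theorem f1_a12_of {w : ℂ} (hw : 0 < w.im) : f1_a12_r (ofComplex w) = ofComplex (-conj w) := by
  rw [← ofComplex_apply (f1_a12_r (ofComplex w)), f1_a12_coe, ofComplex_apply_of_im_pos hw]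

/-! ### the maps `z ↦ α z + β` -/

/-- the map `z ↦ α z + β` -/
noncomputable def f1_a12_m (α β : ℝ) (z : ℍ) : ℍ := ofComplex ((α : ℂ) * z + β)

theorem f1_a12_mpos {α : ℝ} (hα : 0 < α) (β : ℝ) {w : ℂ} (hw : 0 < w.im) :
    0 < ((α : ℂ) * w + β).im := by
  simp only [add_im, im_ofReal_mul, ofReal_im, add_zero]
  exact mul_pos hα hw

theorem f1_a12_mcoe {α : ℝ} (hα : 0 < α) (β : ℝ) (z : ℍ) :
    ((f1_a12_m α β z : ℍ) : ℂ) = (α : ℂ) * z + β := by
  unfold f1_a12_m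
  rw [ofComplex_apply_of_im_pos (f1_a12_mpos hα β z.im_pos)]

theorem f1_a12_mim {α : ℝ} (hα : 0 < α) (β : ℝ) (z : ℍ) :
    (f1_a12_m α β z).im = α * z.im := by
  have := congrArg Complex.im (f1_a12_mcoe hα β z)
  simpa using this

/-- differentiable along lines -/
def f1_a12_D (g : ℍ → ℂ) : Prop := ∀ z : ℍ,
  DifferentiableAt ℝ (fun t : ℝ => g (ofComplex ((z : ℂ) + t))) 0 ∧
    DifferentiableAt ℝ (fun t : ℝ => g (ofComplex ((z : ℂ) + t * I))) 0

theorem f1_a12_lineX {α : ℝ} (hα : 0 < α) (β : ℝ) (g : ℍ → ℂ) (z : ℍ) :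
    (fun t : ℝ => g (f1_a12_m α β (ofComplex ((z : ℂ) + t)))) =
      fun t : ℝ => (fun u : ℝ => g (ofComplex ((f1_a12_m α β z : ℂ) + u))) (α * t) := by
  ext t
  have h : 0 < ((z : ℂ) + t).im := by simpa using z.im_pos
  simp only
  rw [f1_a12_mcoe hα]
  unfold f1_a12_m
  rw [ofComplex_apply_of_im_pos h]
  congr 2
  push_cast
  ring

theorem f1_a12_lineY {α : ℝ} (hα : 0 < α) (β : ℝ) (g : ℍ → ℂ) (z : ℍ) :
    (fun t : ℝ => g (f1_a12_m α β (ofComplex ((z : ℂ) + t * I)))) =ᶠ[𝓝 0]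
      fun t : ℝ => (fun u : ℝ => g (ofComplex ((f1_a12_m α β z : ℂ) + u * I))) (α * t) := by
  have h1 : ∀ᶠ t : ℝ in 𝓝 0, -z.im < t := lt_mem_nhds (by linarith [z.im_pos])
  filter_upwards [h1] with t ht
  have h : 0 < ((z : ℂ) + t * I).im := by
    simp
    linarith
  rw [f1_a12_mcoe hα]
  unfold f1_a12_m
  rw [ofComplex_apply_of_im_pos h]
  congr 2
  push_cast
  ring

theorem f1_a12_dX {α : ℝ} (hα : 0 < α) (β : ℝ) (g : ℍ → ℂ) (z : ℍ) :
    dX (fun z => g (f1_a12_m α β z)) z = α * dX g (f1_a12_m α β z) := by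
  unfold dX
  have h1 := deriv_comp_mul_left α (fun u : ℝ => g (ofComplex ((f1_a12_m α β z : ℂ) + u))) (0 : ℝ)
  rw [mul_zero] at h1
  rw [f1_a12_lineX hα, h1, Complex.real_smul]

theorem f1_a12_dY {α : ℝ} (hα : 0 < α) (β : ℝ) (g : ℍ → ℂ) (z : ℍ) :
    dY (fun z => g (f1_a12_m α β z)) z = α * dY g (f1_a12_m α β z) := by
  unfold dY
  have h1 := deriv_comp_mul_left α
    (fun u : ℝ => g (ofComplex ((f1_a12_m α β z : ℂ) + u * I))) (0 : ℝ)
  rw [mul_zero] at h1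
  rw [(f1_a12_lineY hα β g z).deriv_eq, h1, Complex.real_smul]

theorem f1_a12_Dm {α : ℝ} (hα : 0 < α) (β : ℝ) {g : ℍ → ℂ} (hg : f1_a12_D g) :
    f1_a12_D (fun z => g (f1_a12_m α β z)) := by
  intro z
  constructor
  · rw [f1_a12_lineX hα]
    have h1 : DifferentiableAt ℝ (fun u : ℝ => g (ofComplex ((f1_a12_m α β z : ℂ) + u)))
        (α * 0) := by
      rw [mul_zero]; exact (hg _).1
    exact DifferentiableAt.comp (f := fun t : ℝ => α * t) (0 : ℝ) h1 (by fun_prop)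
  · rw [(f1_a12_lineY hα β g z).differentiableAt_iff]
    have h1 : DifferentiableAt ℝ (fun u : ℝ => g (ofComplex ((f1_a12_m α β z : ℂ) + u * I)))
        (α * 0) := by
      rw [mul_zero]; exact (hg _).2
    exact DifferentiableAt.comp (f := fun t : ℝ => α * t) (0 : ℝ) h1 (by fun_prop)

/-- `Λ` commutes with the maps -/
theorem f1_a12_Lom {α : ℝ} (hα : 0 < α) (β : ℝ) (g : ℍ → ℂ) (z : ℍ) :
    Lo (fun z => g (f1_a12_m α β z)) z = Lo g (f1_a12_m α β z) := by
  unfold Lo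
  rw [f1_a12_dX hα, f1_a12_dY hα, f1_a12_mim hα]
  push_cast
  ring

theorem f1_a12_Locm (c : ℂ) (g : ℍ → ℂ) (z : ℍ) : Lo (fun z => c * g z) z = c * Lo g z := by
  unfold Lo dX dY
  rw [deriv_const_mul_field, deriv_const_mul_field]
  ring

theorem f1_a12_Dcm (c : ℂ) {g : ℍ → ℂ} (hg : f1_a12_D g) : f1_a12_D (fun z => c * g z) :=
  fun z => ⟨(hg z).1.const_mul c, (hg z).2.const_mul c⟩

theorem f1_a12_Dsum {ι : Type*} (s : Finset ι) {F : ι → ℍ → ℂ} (hF : ∀ i ∈ s, f1_a12_D (F i)) :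
    f1_a12_D (fun z => ∑ i ∈ s, F i z) := by
  intro z
  exact ⟨DifferentiableAt.fun_sum fun i hi => (hF i hi z).1,
    DifferentiableAt.fun_sum fun i hi => (hF i hi z).2⟩

theorem f1_a12_Losum {ι : Type*} (s : Finset ι) {F : ι → ℍ → ℂ} (hF : ∀ i ∈ s, f1_a12_D (F i))
    (z : ℍ) : Lo (fun z => ∑ i ∈ s, F i z) z = ∑ i ∈ s, Lo (F i) z := by
  unfold Lo dX dY
  rw [deriv_fun_sum fun i hi => (hF i hi z).1, deriv_fun_sum fun i hi => (hF i hi z).2,
    Finset.sum_div, Finset.mul_sum, ← Finset.sum_sub_distrib, Finset.mul_sum,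
    ← Finset.sum_add_distrib]

/-! ### smooth functions -/

theorem f1_a12_smooth {f : ℍ → ℂ}
    (hs : ContDiffOn ℝ 2 (fun z : ℂ => f (ofComplex z)) {z | 0 < z.im}) : f1_a12_D f := by
  intro z
  have hopen : IsOpen {z : ℂ | 0 < z.im} := isOpen_lt continuous_const continuous_im
  have hc : ContDiffAt ℝ 2 (fun z : ℂ => f (ofComplex z)) z :=
    hs.contDiffAt (hopen.mem_nhds z.im_pos)
  have hd := hc.differentiableAt (by norm_num)
  have key : ∀ v : ℂ, DifferentiableAt ℝ (fun t : ℝ => f (ofComplex ((z : ℂ) + t * v))) 0 := by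
    intro v
    have h1 : HasDerivAt (fun t : ℝ => (z : ℂ) + (t : ℂ) * v) v 0 := by
      have h2 : HasDerivAt (fun t : ℝ => (t : ℂ)) 1 0 := Complex.ofRealCLM.hasDerivAt
      simpa using (h2.mul_const v).const_add (z : ℂ)
    have h3 : HasFDerivAt (fun z : ℂ => f (ofComplex z))
        (fderiv ℝ (fun z : ℂ => f (ofComplex z)) z) ((z : ℂ) + ((0 : ℝ) : ℂ) * v) := by
      simpa using hd.hasFDerivAt
    exact (h3.comp_hasDerivAt (0 : ℝ) h1).differentiableAt
  refine ⟨?_, key I⟩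
  have := key 1
  simpa using this

/-! ### the Hecke operators -/

theorem f1_a12_sum {E : Type*} [AddCommMonoid E] (F : ℤ → E) (d : ℕ)
    (hF : ∀ m, F (m + d) = F m) :
    ∑ b ∈ Finset.range d, F (-(b : ℤ)) = ∑ b ∈ Finset.range d, F b := by
  rcases d with _ | d
  · simp
  rw [Finset.sum_range_succ', Finset.sum_range_succ' (fun b : ℕ => F (b : ℤ))]
  congr 1
  rw [← Finset.sum_range_reflect]
  refine Finset.sum_congr rfl fun b hb => ?_
  rw [Finset.mem_range] at hb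
  rw [← hF]
  congr 1
  omega

/-- the maps of the Hecke operator -/
theorem f1_a12_hm {a d : ℕ} (z : ℍ) (b : ℤ) :
    (ofComplex (((a : ℂ) * z + b) / d) : ℍ) = f1_a12_m ((a : ℝ) / d) ((b : ℝ) / d) z := by
  unfold f1_a12_m
  congr 1
  push_cast
  ring

theorem f1_a12_heckeLo {N : ℕ} (χ : DirichletCharacter ℂ N) (n : ℕ) {f : ℍ → ℂ}
    (hf : f1_a12_D f) (z : ℍ) : Lo (fun z => heckeT χ n f z) z = heckeT χ n (Lo f) z := by
  have hpos : ∀ p ∈ n.divisorsAntidiagonal, 0 < ((p.1 : ℝ) / p.2) := by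
    intro p hp
    have hp' := Nat.mem_divisorsAntidiagonal.1 hp
    have hp1 : 0 < p.1 := Nat.pos_of_ne_zero fun h0 => hp'.2 (by rw [← hp'.1, h0, zero_mul])
    have hp2 : 0 < p.2 := Nat.pos_of_ne_zero fun h0 => hp'.2 (by rw [← hp'.1, h0, mul_zero])
    positivity
  have e1 : ∀ g : ℍ → ℂ, (fun z => heckeT χ n g z) = fun z => ((√(n : ℝ) : ℝ) : ℂ)⁻¹ *
      ∑ p ∈ n.divisorsAntidiagonal, χ (p.1 : ZMod N) *
        ∑ b ∈ Finset.range p.2, g (f1_a12_m ((p.1 : ℝ) / p.2) (((b : ℕ) : ℤ) / p.2 : ℝ) z) := by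
    intro g
    funext z
    unfold heckeT
    congr 1
    refine Finset.sum_congr rfl fun p _ => ?_
    congr 1
    refine Finset.sum_congr rfl fun b _ => ?_
    rw [← f1_a12_hm]
    simp
  have hD1 : ∀ p ∈ n.divisorsAntidiagonal, ∀ b ∈ Finset.range p.2, f1_a12_D
      (fun z => f (f1_a12_m ((p.1 : ℝ) / p.2) (((b : ℕ) : ℤ) / p.2 : ℝ) z)) :=
    fun p hp b _ => f1_a12_Dm (hpos p hp) _ hf
  have hD2 : ∀ p ∈ n.divisorsAntidiagonal, f1_a12_D (fun z => χ (p.1 : ZMod N) *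
      ∑ b ∈ Finset.range p.2, f (f1_a12_m ((p.1 : ℝ) / p.2) (((b : ℕ) : ℤ) / p.2 : ℝ) z)) :=
    fun p hp => f1_a12_Dcm _ (f1_a12_Dsum _ (hD1 p hp))
  have e2 : heckeT χ n (Lo f) z = (fun z => heckeT χ n (Lo f) z) z := rfl
  rw [e2, e1 f, e1 (Lo f), f1_a12_Locm, f1_a12_Losum _ hD2]
  simp only
  congr 1
  refine Finset.sum_congr rfl fun p hp => ?_
  rw [f1_a12_Locm, f1_a12_Losum _ (hD1 p hp)]
  congr 1
  refine Finset.sum_congr rfl fun b _ => ?_
  rw [f1_a12_Lom (hpos p hp)]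

/-- reflection and the Hecke operators -/
theorem f1_a12_heckeR {N : ℕ} (χ : DirichletCharacter ℂ N) (n : ℕ) {g : ℍ → ℂ}
    (hT : ∀ (w : ℂ), 0 < w.im → g (ofComplex (w + 1)) = g (ofComplex w)) (z : ℍ) :
    heckeT χ n (fun z => g (f1_a12_r z)) z = heckeT χ n g (f1_a12_r z) := by
  unfold heckeT
  congr 1
  refine Finset.sum_congr rfl fun p hp => ?_
  congr 1
  have hp' := Nat.mem_divisorsAntidiagonal.1 hp
  have hp1 : 0 < p.1 := Nat.pos_of_ne_zero fun h0 => hp'.2 (by rw [← hp'.1, h0, zero_mul])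
  have hp2 : 0 < p.2 := Nat.pos_of_ne_zero fun h0 => hp'.2 (by rw [← hp'.1, h0, mul_zero])
  have hp1r : (0 : ℝ) < p.1 := by exact_mod_cast hp1
  have hp2r : (0 : ℝ) < p.2 := by exact_mod_cast hp2
  have hp2c : (p.2 : ℂ) ≠ 0 := by exact_mod_cast hp2.ne'
  have him : ∀ (w : ℍ) (m : ℤ), 0 < (((p.1 : ℂ) * w + m) / p.2).im := by
    intro w m
    have e1 : (((p.1 : ℂ) * w + m) / p.2) = (((p.1 : ℝ) / p.2 : ℝ) : ℂ) * w +
        ((m / p.2 : ℝ) : ℂ) := by
      push_cast; field_simp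
    rw [e1]
    simp only [add_im, im_ofReal_mul, ofReal_im, add_zero]
    exact mul_pos (div_pos hp1r hp2r) w.im_pos
  have hs := f1_a12_sum
    (fun m : ℤ => g (ofComplex (((p.1 : ℂ) * (f1_a12_r z : ℍ) + m) / p.2))) p.2
    (by
      intro m
      have e1 : (((p.1 : ℂ) * (f1_a12_r z : ℍ) + ((m + p.2 : ℤ) : ℂ)) / p.2) =
          (((p.1 : ℂ) * (f1_a12_r z : ℍ) + m) / p.2) + 1 := by
        push_cast; field_simp; ring
      rw [e1, hT _ (him _ _)])
  have hl : ∀ b : ℕ, g (f1_a12_r (ofComplex (((p.1 : ℂ) * z + b) / p.2))) =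
      g (ofComplex (((p.1 : ℂ) * (f1_a12_r z : ℍ) + ((-(b : ℤ) : ℤ) : ℂ)) / p.2)) := by
    intro b
    have e2 := him z b
    simp only [Int.cast_natCast] at e2
    rw [f1_a12_of e2, f1_a12_coe]
    congr 2
    simp only [map_div₀, map_add, map_mul, Complex.conj_natCast]
    push_cast
    rw [← neg_div]
    congr 1
    ring
  simp only [hl]
  rw [hs]
  simp only [Int.cast_natCast]

/-- A12: `Q f` is again a form -/
theorem wform_Q_pr {N : ℕ} [NeZero N] {χ : DirichletCharacter ℂ N} {ev : ℝ} {f : ℍ → ℂ}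
    {a : ℕ → ℂ} (h : IsHeckeMaass N χ 1 ev f a) {ν : ℂ} (hν : ν.re = 0)
    (hev : ν ^ 2 = 1 / 4 - ev) : Cusp1 N ν (Qo f) ∧ WForm N χ 1 a (Qo f) := by
  have hN : 0 < N := Nat.pos_of_ne_zero (NeZero.ne N)
  have hD := f1_a12_smooth h.smooth
  have hcusp : Cusp1 N ν (Qo f) := by
    intro σ
    obtain ⟨τ, -, -, -, -, hτ⟩ := Qo_sl h.smooth σ
    obtain ⟨β, hβ⟩ := maass_cusp1 h.toIsMaassForm hν hev τ
    have e1 : sl σ (Qo f) = Qo (sl τ f) := funext hτ
    rw [e1]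
    exact ⟨_, Qo_expn hN hν hβ⟩
  refine ⟨hcusp, wform_cusp1 hν (Qo_cont h.smooth) ?_ hcusp ?_⟩
  · intro γ hγ z
    obtain ⟨τ, -, -, h10, h11, hτ⟩ := Qo_sl h.smooth γ
    have hτN : (N : ℤ) ∣ τ 1 0 := by
      rw [h10]
      exact (dvd_neg).2 hγ
    have e1 : sl τ f = fun z => χ ((γ 1 1 : ℤ) : ZMod N) * f z := by
      funext w
      unfold sl
      rw [h.automorphic τ hτN w, h11, pow_one]
      have hd : denom τ w / ‖denom τ w‖ ≠ 0 := by
        have h0 := denom_ne_zero τ w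
        have h2 : ((‖denom τ w‖ : ℝ) : ℂ) ≠ 0 := by exact_mod_cast (norm_ne_zero_iff.2 h0)
        exact div_ne_zero h0 h2
      field_simp
    have e2 : sl γ (Qo f) z = χ ((γ 1 1 : ℤ) : ZMod N) * Qo f z := by
      rw [hτ z, e1]
      unfold Qo
      rw [f1_a12_Locm]
    unfold sl at e2
    have hd : denom γ z / ‖denom γ z‖ ≠ 0 := by
      have h0 := denom_ne_zero γ z
      have h2 : ((‖denom γ z‖ : ℝ) : ℂ) ≠ 0 := by exact_mod_cast (norm_ne_zero_iff.2 h0)
      exact div_ne_zero h0 h2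
    rw [pow_one]
    rw [mul_inv_eq_iff_eq_mul₀ hd] at e2
    rw [e2]
    ring
  · intro p hp _ z
    -- period `1`
    have hT : ∀ (w : ℂ), 0 < w.im → f (ofComplex (w + 1)) = f (ofComplex w) := by
      intro w hw
      have h1 := h.automorphic ModularGroup.T (by simp [ModularGroup.T]) (ofComplex w)
      have h2 : ModularGroup.T • (ofComplex w) = ofComplex (w + 1) := by
        apply UpperHalfPlane.ext
        have hw1 : 0 < (w + 1).im := by simpa using hw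
        rw [coe_specialLinearGroup_apply, ofComplex_apply_of_im_pos hw,
          ofComplex_apply_of_im_pos hw1]
        simp [ModularGroup.T]
      have h3 : denom ModularGroup.T (ofComplex w : ℍ) = 1 := by
        rw [ModularGroup.denom_apply]
        simp [ModularGroup.T]
      rw [h2, h3] at h1
      simpa [ModularGroup.T] using h1
    have hTL : ∀ (w : ℂ), 0 < w.im → Lo f (ofComplex (w + 1)) = Lo f (ofComplex w) := by
      intro w hw
      have e1 : (fun z : ℍ => f (f1_a12_m 1 1 z)) = f := by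
        funext z
        unfold f1_a12_m
        have := hT z z.im_pos
        rw [ofComplex_apply] at this
        rw [← this]
        simp
      have e2 := f1_a12_Lom (α := 1) one_pos 1 f (ofComplex w)
      rw [e1] at e2
      rw [e2]
      unfold f1_a12_m
      rw [ofComplex_apply_of_im_pos hw]
      simp
    have e1 : Qo f = fun z => Lo f (f1_a12_r z) := rfl
    rw [e1, f1_a12_heckeR χ p hTL, ← f1_a12_heckeLo χ p hD]
    have e2 : (fun z => heckeT χ p f z) = fun z => a p * f z := by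
      funext w
      exact h.hecke p hp.pos w
    rw [e2, f1_a12_Locm]

end Pool.Agent.JO.FM1

namespace Pool.Agent.JO.FM1

theorem wform_Q : type_of% @wform_Q_pr := @wform_Q_pr

end Pool.Agent.JO.FM1
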