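import Pool.Agent.Lib_helper42.JO1.Defs
import Pool.Agent.Lib_helper45.JO.Defs2

/-! JO, Maass frame, weight 1, block A13 -/

set_option autoImplicit false

namespace Pool.Agent.JO.FM1

open Complex Filter Topology MeasureTheory Set
open UpperHalfPlane hiding I
open Pool.Agent.JO.FM
open scoped MatrixGroups ComplexConjugate

theorem f1_a13_pz (z : ℍ) : pz z.re z.im = z := by
  unfold pz
  have h : (z.re : ℂ) + z.im * I = (z : ℂ) := Complex.re_add_im (z : ℂ)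
  rw [h, ofComplex_apply]

theorem f1_a13_smul (γ : SL(2, ℤ)) (z : ℍ) : toR γ • z = γ • z := rfl

theorem f1_a13_gg (z : ℍ) : gg z 0 • UpperHalfPlane.I = z := by
  have hy : (0 : ℝ) < √z.im := Real.sqrt_pos.2 z.im_pos
  have hs : √z.im * √z.im = z.im := Real.mul_self_sqrt z.im_pos.le
  have hy' : ((√z.im : ℝ) : ℂ) ≠ 0 := by exact_mod_cast hy.ne'
  have hs' : ((√z.im : ℝ) : ℂ) * ((√z.im : ℝ) : ℂ) = (z.im : ℂ) := by exact_mod_cast hs
  apply UpperHalfPlane.ext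
  rw [UpperHalfPlane.specialLinearGroup_apply]
  have h : ((z : ℍ) : ℂ) = (z.re : ℂ) + z.im * I := (Complex.re_add_im (z : ℂ)).symm
  simp [gg]
  field_simp
  rw [h, ← hs']
  ring

theorem f1_a13_ju (σ : SL(2, ℤ)) (z : ℍ) :
    juI (toR σ * gg z 0) = denom σ z / ‖denom σ z‖ := by
  have hy : (0 : ℝ) < √z.im := Real.sqrt_pos.2 z.im_pos
  have hs : √z.im * √z.im = z.im := Real.mul_self_sqrt z.im_pos.le
  have hy' : ((√z.im : ℝ) : ℂ) ≠ 0 := by exact_mod_cast hy.ne'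
  have hs' : ((√z.im : ℝ) : ℂ) * ((√z.im : ℝ) : ℂ) = (z.im : ℂ) := by exact_mod_cast hs
  have h : ((z : ℍ) : ℂ) = (z.re : ℂ) + z.im * I := (Complex.re_add_im (z : ℂ)).symm
  have h1 : jI (toR σ * gg z 0) = denom σ z / ((√z.im : ℝ) : ℂ) := by
    rw [ModularGroup.denom_apply]
    unfold jI
    simp [toR, gg, Matrix.mul_apply, Fin.sum_univ_two]
    field_simp
    rw [h, ← hs']
    ring
  unfold juI
  rw [h1, norm_div, Complex.norm_real, Real.norm_eq_abs, abs_of_pos hy]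
  have h2 : denom σ z ≠ 0 := denom_ne_zero σ z
  have h3 : ((‖denom σ z‖ : ℝ) : ℂ) ≠ 0 := by
    exact_mod_cast (norm_pos_iff.2 h2).ne'
  push_cast
  field_simp

theorem f1_a13_lift {N : ℕ} (f : ℍ → ℂ) (s : QN N) (z : ℍ) :
    liftK 1 f s (gg z 0) = sl (lft s)⁻¹ f z := by
  unfold liftK sl
  have h1 : (toR (lft s))⁻¹ = toR (lft s)⁻¹ := (map_inv _ _).symm
  rw [pow_one, mul_smul, f1_a13_gg, h1, f1_a13_smul, f1_a13_ju]

theorem hasExp1_pr {N : ℕ} [NeZero N] {ν : ℂ} (hν : ν.re = 0) {u : ℍ → ℂ} (h : Cusp1 N ν u) :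
    HasExp (N := N) (fun y => Wp ν (2 * Real.pi * y)) (fun y => Vm ν (2 * Real.pi * y))
      (liftK 1 u) := by
  intro s
  obtain ⟨β, hβ⟩ := h (lft s)⁻¹
  have harg : ∀ (n : ℤ) (y : ℝ), (if 0 < n then Wp ν (2 * Real.pi * (|(n : ℝ)| * y / N)) else
      Vm ν (2 * Real.pi * (|(n : ℝ)| * y / N))) = Wz ν n (2 * Real.pi * |(n : ℝ)| * y / N) := by
    intro n y
    have e1 : 2 * Real.pi * (|(n : ℝ)| * y / N) = 2 * Real.pi * |(n : ℝ)| * y / N := by ring
    unfold Wz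
    rw [e1]
  refine ⟨β, hβ.zero, fun y hy => ?_, fun z => ?_⟩
  · refine ((hβ.hasSum 0 y hy).summable.norm).congr fun n => ?_
    beta_reduce
    rw [harg, norm_mul, Complex.norm_exp_ofReal_mul_I, mul_one]
  · rw [f1_a13_lift]
    have h1 := (hβ.hasSum z.re z.im z.im_pos).tsum_eq
    rw [f1_a13_pz] at h1
    rw [← h1]
    refine tsum_congr fun n => ?_
    beta_reduce
    rw [harg]
    congr 2
    push_cast
    ring


end Pool.Agent.JO.FM1

namespace Pool.Agent.JO.FM1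

theorem hasExp1 : type_of% @hasExp1_pr := @hasExp1_pr

end Pool.Agent.JO.FM1
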