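import Pool.Agent.Lib_helper42.JO1.Defs
import Pool.Agent.Lib_helper45.JO.Defs2
import Pool.Agent.Lib_helper42.JO1F.K6

/-! JO, Maass frame of weight 1, block A5 (helper47; model: A5 of helper95) -/

set_option autoImplicit false

namespace Pool.Agent.JO.FM1

open Complex Filter Topology MeasureTheory Set
open UpperHalfPlane hiding I
open Pool.Agent.JO.FM
open scoped MatrixGroups ComplexConjugate

theorem f1_a5_int {P : ℕ} (hP : 0 < P) (k : ℤ) :
    ∫ x in (0 : ℝ)..P, cexp ((2 * Real.pi * k * x / P : ℝ) * I) = if k = 0 then (P : ℂ) else 0 := by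
  have hPr : (P : ℂ) ≠ 0 := by exact_mod_cast hP.ne'
  split_ifs with h
  · subst h
    simp
  · have hk : (k : ℂ) ≠ 0 := by exact_mod_cast h
    have hc : (2 * Real.pi * k / P * I : ℂ) ≠ 0 := by
      have := Real.pi_ne_zero
      have h2 : (Real.pi : ℂ) ≠ 0 := by exact_mod_cast this
      refine mul_ne_zero (div_ne_zero (mul_ne_zero (mul_ne_zero two_ne_zero h2) hk) hPr) I_ne_zero
    have e1 : (fun x : ℝ => cexp ((2 * Real.pi * k * x / P : ℝ) * I)) =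
        fun x : ℝ => cexp ((2 * Real.pi * k / P * I : ℂ) * x) := by
      funext x
      congr 1
      push_cast
      ring
    rw [e1, integral_exp_mul_complex hc]
    have e2 : (2 * Real.pi * k / P * I : ℂ) * ((P : ℝ) : ℂ) = k * (2 * Real.pi * I) := by
      push_cast
      field_simp
    rw [e2, Complex.exp_int_mul_two_pi_mul_I]
    simp

theorem expn1_fc_pr {P : ℕ} {ν : ℂ} {β : ℤ → ℂ} {F : ℍ → ℂ} (hP : 0 < P) (hν : ν.re = 0)
    (h : Expn1 P ν β F) (n : ℤ) {y : ℝ} (hy : 0 < y) :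
    fc P F n y = β n * Wz ν n (2 * Real.pi * |(n : ℝ)| * y / P) := by
  have hPr : (P : ℂ) ≠ 0 := by exact_mod_cast hP.ne'
  set w : ℤ → ℂ := fun m => β m * Wz ν m (2 * Real.pi * |(m : ℝ)| * y / P) with hw
  have hn1 : ∀ r : ℝ, ‖cexp ((r : ℝ) * I)‖ = 1 := fun r => Complex.norm_exp_ofReal_mul_I r
  have hn2 : ∀ r : ℝ, ‖cexp (-(r : ℝ) * I)‖ = 1 := by
    intro r
    have := Complex.norm_exp_ofReal_mul_I (-r)
    rwa [Complex.ofReal_neg] at this
  have hsw : Summable fun m => ‖w m‖ := by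
    have h1 := (h.hasSum 0 y hy).summable.norm
    refine h1.congr fun m => ?_
    rw [norm_mul, hn1, mul_one]
  have hS : HasSum (fun m : ℤ => ∫ x in (0 : ℝ)..P,
      (w m * cexp ((2 * Real.pi * m * x / P : ℝ) * I)) * cexp (-(2 * Real.pi * n * x / P : ℝ) * I))
      (∫ x in (0 : ℝ)..P, F (pz x y) * cexp (-(2 * Real.pi * n * x / P : ℝ) * I)) := by
    refine intervalIntegral.hasSum_integral_of_dominated_convergence (fun m _ => ‖w m‖) ?_ ?_ ?_ ?_ ?_
    · intro m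
      refine Continuous.aestronglyMeasurable ?_
      fun_prop
    · intro m
      refine Eventually.of_forall fun x _ => ?_
      rw [norm_mul, norm_mul, hn1, hn2]
      simp
    · exact Eventually.of_forall fun x _ => hsw
    · exact intervalIntegrable_const
    · exact Eventually.of_forall fun x _ => (h.hasSum x y hy).mul_right _
  have hT : ∀ m : ℤ, ∫ x in (0 : ℝ)..P,
      (w m * cexp ((2 * Real.pi * m * x / P : ℝ) * I)) * cexp (-(2 * Real.pi * n * x / P : ℝ) * I) =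
      if m = n then w n * P else 0 := by
    intro m
    have e1 : (fun x : ℝ => (w m * cexp ((2 * Real.pi * m * x / P : ℝ) * I)) *
        cexp (-(2 * Real.pi * n * x / P : ℝ) * I)) =
        fun x : ℝ => w m * cexp ((2 * Real.pi * (m - n : ℤ) * x / P : ℝ) * I) := by
      funext x
      rw [mul_assoc, ← Complex.exp_add]
      congr 2
      push_cast
      ring
    rw [e1, intervalIntegral.integral_const_mul, f1_a5_int hP]
    by_cases hmn : m = n
    · subst hmn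
      simp
    · rw [if_neg hmn, if_neg (sub_ne_zero.mpr hmn), mul_zero]
  simp_rw [hT] at hS
  have hU : HasSum (fun m : ℤ => if m = n then w n * P else 0) (w n * P) := hasSum_ite_eq n _
  have hE := hS.unique hU
  unfold fc
  rw [hE, hw]
  push_cast
  field_simp

theorem f1_a5_ne {ν : ℂ} (hν : ν.re = 0) (n : ℤ) : ∃ x₀ : ℝ, 1 ≤ x₀ ∧ Wz ν n x₀ ≠ 0 := by
  unfold Wz
  by_cases hn : 0 < n
  · obtain ⟨x₀, hx₀, hW⟩ := Wp_low hν
    refine ⟨x₀, hx₀, ?_⟩
    rw [if_pos hn]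
    intro h0
    have := hW x₀ le_rfl
    rw [h0, Complex.zero_re] at this
    linarith [Real.exp_pos (-x₀)]
  · obtain ⟨x₀, hx₀, hW⟩ := Vm_low hν
    refine ⟨x₀, hx₀, ?_⟩
    rw [if_neg hn]
    intro h0
    have := hW x₀ le_rfl
    rw [h0, Complex.zero_re] at this
    linarith [Real.exp_pos (-(2 * x₀))]

theorem expn1_unique_pr {P : ℕ} {ν : ℂ} {β β' : ℤ → ℂ} {F : ℍ → ℂ} (hP : 0 < P) (hν : ν.re = 0)
    (h : Expn1 P ν β F) (h' : Expn1 P ν β' F) : β = β' := by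
  funext n
  by_cases hn : n = 0
  · subst hn
    rw [h.zero, h'.zero]
  · obtain ⟨x₀, hx₀, hne⟩ := f1_a5_ne hν n
    have hPr : (0 : ℝ) < P := by exact_mod_cast hP
    have hnr : 0 < |(n : ℝ)| := abs_pos.mpr (by exact_mod_cast hn)
    set y : ℝ := x₀ * P / (2 * Real.pi * |(n : ℝ)|) with hy
    have hy0 : 0 < y := by
      have := Real.pi_pos
      positivity
    have hx : 2 * Real.pi * |(n : ℝ)| * y / P = x₀ := by
      rw [hy]
      have := Real.pi_ne_zero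
      field_simp
    have h1 := expn1_fc_pr hP hν h n hy0
    have h2 := expn1_fc_pr hP hν h' n hy0
    rw [h1, hx] at h2
    exact mul_right_cancel₀ hne h2

theorem f1_a5_sq (c c' a b : ℂ) :
    ‖c * a + c' * b‖ ^ 2 ≤ 2 * ‖c‖ ^ 2 * ‖a‖ ^ 2 + 2 * ‖c'‖ ^ 2 * ‖b‖ ^ 2 := by
  have h1 : ‖c * a + c' * b‖ ≤ ‖c‖ * ‖a‖ + ‖c'‖ * ‖b‖ := by
    refine (norm_add_le _ _).trans ?_
    rw [norm_mul, norm_mul]
  have h2 : ‖c * a + c' * b‖ ^ 2 ≤ (‖c‖ * ‖a‖ + ‖c'‖ * ‖b‖) ^ 2 :=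
    pow_le_pow_left₀ (norm_nonneg _) h1 2
  nlinarith [sq_nonneg (‖c‖ * ‖a‖ - ‖c'‖ * ‖b‖)]

theorem expn1_lin_pr {P : ℕ} {ν : ℂ} {β β' : ℤ → ℂ} {F F' : ℍ → ℂ}
    (h : Expn1 P ν β F) (h' : Expn1 P ν β' F') (c c' : ℂ) :
    Expn1 P ν (fun m => c * β m + c' * β' m) (fun z => c * F z + c' * F' z) := by
  refine ⟨?_, ?_, ?_⟩
  · simp [h.zero, h'.zero]
  · obtain ⟨C, hC⟩ := h.dyad
    obtain ⟨C', hC'⟩ := h'.dyad
    refine ⟨2 * ‖c‖ ^ 2 * C + 2 * ‖c'‖ ^ 2 * C', fun M hM => ?_⟩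
    calc ∑ m ∈ Finset.Icc M (2 * M), (‖c * β (m : ℤ) + c' * β' (m : ℤ)‖ ^ 2 +
          ‖c * β (-(m : ℤ)) + c' * β' (-(m : ℤ))‖ ^ 2)
        ≤ ∑ m ∈ Finset.Icc M (2 * M), (2 * ‖c‖ ^ 2 * (‖β (m : ℤ)‖ ^ 2 + ‖β (-(m : ℤ))‖ ^ 2) +
          2 * ‖c'‖ ^ 2 * (‖β' (m : ℤ)‖ ^ 2 + ‖β' (-(m : ℤ))‖ ^ 2)) := by
          refine Finset.sum_le_sum fun m _ => ?_
          have h1 := f1_a5_sq c c' (β (m : ℤ)) (β' (m : ℤ))
          have h2 := f1_a5_sq c c' (β (-(m : ℤ))) (β' (-(m : ℤ)))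
          linarith
      _ = 2 * ‖c‖ ^ 2 * ∑ m ∈ Finset.Icc M (2 * M), (‖β (m : ℤ)‖ ^ 2 + ‖β (-(m : ℤ))‖ ^ 2) +
          2 * ‖c'‖ ^ 2 * ∑ m ∈ Finset.Icc M (2 * M), (‖β' (m : ℤ)‖ ^ 2 + ‖β' (-(m : ℤ))‖ ^ 2) := by
          rw [Finset.sum_add_distrib, ← Finset.mul_sum, ← Finset.mul_sum]
      _ ≤ _ := by
          gcongr
          · exact hC M hM
          · exact hC' M hM
  · intro x y hy
    have h1 := ((h.hasSum x y hy).mul_left c).add ((h'.hasSum x y hy).mul_left c')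
    have e : (fun m : ℤ => (c * β m + c' * β' m) * Wz ν m (2 * Real.pi * |(m : ℝ)| * y / P) *
        cexp ((2 * Real.pi * m * x / P : ℝ) * I)) =
        fun m : ℤ => c * (β m * Wz ν m (2 * Real.pi * |(m : ℝ)| * y / P) *
          cexp ((2 * Real.pi * m * x / P : ℝ) * I)) +
        c' * (β' m * Wz ν m (2 * Real.pi * |(m : ℝ)| * y / P) *
          cexp ((2 * Real.pi * m * x / P : ℝ) * I)) := by
      funext m
      ring
    show HasSum (fun m : ℤ => (c * β m + c' * β' m) * Wz ν m (2 * Real.pi * |(m : ℝ)| * y / P) *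
        cexp ((2 * Real.pi * m * x / P : ℝ) * I)) (c * F (pz x y) + c' * F' (pz x y))
    rw [e]
    exact h1


end Pool.Agent.JO.FM1

namespace Pool.Agent.JO.FM1

theorem expn1_fc : type_of% @expn1_fc_pr := @expn1_fc_pr
theorem expn1_unique : type_of% @expn1_unique_pr := @expn1_unique_pr
theorem expn1_lin : type_of% @expn1_lin_pr := @expn1_lin_pr

end Pool.Agent.JO.FM1
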