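import Pool.Agent.Lib_helper42.JO1.Defs
import Pool.Agent.Lib_helper45.JO.Defs2
import Pool.Agent.Lib_helper42.JO1F.A5
import Pool.Agent.Lib_helper42.JO1F.K6

/-! JO, weight 1, block A8: Hecke eigenvalues and Fourier coefficients (after the block A9 of
weight 0 by helper8) -/

set_option autoImplicit false

namespace Pool.Agent.JO.FM1

open Complex Filter Topology MeasureTheory Set
open UpperHalfPlane hiding I
open Pool.Agent.JO.FM
open scoped MatrixGroups ComplexConjugate

theorem f1_a8_coe {x y : ℝ} (hy : 0 < y) : ((pz x y : ℍ) : ℂ) = x + y * I := by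
  unfold pz
  rw [ofComplex_apply_of_im_pos (by simpa using hy)]

theorem f1_a8_cont {f : ℍ → ℂ} (hf : ContDiffOn ℝ 2 (fun z : ℂ => f (ofComplex z)) {z | 0 < z.im})
    {u : ℝ → ℝ} (hu : Continuous u) {Y : ℝ} (hY : 0 < Y) : Continuous (fun x => f (pz (u x) Y)) := by
  have h1 : ContinuousOn (fun z : ℂ => f (ofComplex z)) {z | 0 < z.im} := hf.continuousOn
  have h2 : Continuous (fun x : ℝ => ((u x : ℝ) : ℂ) + Y * I) := by fun_prop
  exact h1.comp_continuous h2 (fun x => by simpa using hY)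

theorem f1_a8_geom (d : ℕ) (hd : 0 < d) (m : ℤ) :
    ∑ b ∈ Finset.range d, cexp ((2 * Real.pi * m * (b : ℝ) / d : ℝ) * I) =
      if (d : ℤ) ∣ m then (d : ℂ) else 0 := by
  have hd0 : (d : ℂ) ≠ 0 := by exact_mod_cast hd.ne'
  set ζ : ℂ := cexp (2 * Real.pi * I * (m / d)) with hζ
  have h1 : ∀ b : ℕ, cexp ((2 * Real.pi * m * (b : ℝ) / d : ℝ) * I) = ζ ^ b := by
    intro b
    rw [hζ, ← Complex.exp_nat_mul]
    congr 1
    push_cast
    ring
  simp_rw [h1]
  split_ifs with h
  · obtain ⟨k, rfl⟩ := h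
    have h2 : ζ = 1 := by
      rw [hζ, Complex.exp_eq_one_iff]
      refine ⟨k, ?_⟩
      push_cast
      field_simp
    simp [h2]
  · have h2 : ζ ≠ 1 := by
      intro h3
      rw [hζ, Complex.exp_eq_one_iff] at h3
      obtain ⟨k, hk⟩ := h3
      apply h
      refine ⟨k, ?_⟩
      have hpi : (2 * Real.pi * I : ℂ) ≠ 0 := Complex.two_pi_I_ne_zero
      have h4 : ((m : ℂ) / d) = k := by
        have : (2 * Real.pi * I : ℂ) * (m / d) = 2 * Real.pi * I * k := by rw [hk]; ring
        exact mul_left_cancel₀ hpi this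
      rw [div_eq_iff hd0] at h4
      have : (m : ℂ) = ((d * k : ℤ) : ℂ) := by push_cast; rw [h4]; ring
      exact_mod_cast this
    have h3 : ζ ^ d = 1 := by
      rw [hζ, ← Complex.exp_nat_mul, Complex.exp_eq_one_iff]
      refine ⟨m, ?_⟩
      field_simp
    rw [geom_sum_eq h2, h3, sub_self, zero_div]

theorem f1_a8_int (k : ℤ) : ∫ x in (0 : ℝ)..1, cexp ((2 * Real.pi * k * x : ℝ) * I) =
    if k = 0 then 1 else 0 := by
  split_ifs with h
  · subst h
    simp
  · have h1 : ∀ x : ℝ, cexp ((2 * Real.pi * k * x : ℝ) * I) = cexp ((2 * Real.pi * k * I) * x) := by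
      intro x
      congr 1
      push_cast
      ring
    simp_rw [h1]
    have hc : (2 * Real.pi * k * I : ℂ) ≠ 0 := by
      have := Complex.two_pi_I_ne_zero
      have hk : (k : ℂ) ≠ 0 := by exact_mod_cast h
      intro h0
      have : (2 * Real.pi * I : ℂ) * k = 0 := by rw [← h0]; ring
      rcases mul_eq_zero.1 this with h5 | h5
      · exact Complex.two_pi_I_ne_zero h5
      · exact hk h5
    rw [integral_exp_mul_complex hc]
    have : cexp (2 * Real.pi * k * I * ((1 : ℝ) : ℂ)) = 1 := by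
      rw [Complex.exp_eq_one_iff]
      exact ⟨k, by push_cast; ring⟩
    rw [this]
    simp

theorem f1_a8_Wz (ν : ℂ) {d : ℕ} (hd : 0 < d) (m : ℤ) (x : ℝ) :
    Wz ν (d * m) x = Wz ν m x := by
  have hd' : (0 : ℤ) < d := by exact_mod_cast hd
  unfold Wz
  by_cases h : 0 < m
  · rw [if_pos h, if_pos (mul_pos hd' h)]
  · rw [if_neg h, if_neg (by rwa [mul_pos_iff_of_pos_left hd'])]

/-- a height at which the Whittaker functions do not vanish -/
theorem f1_a8_ne {ν : ℂ} (hν : ν.re = 0) (m : ℤ) :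
    ∃ x : ℝ, 0 < x ∧ Wz ν m (2 * Real.pi * x) ≠ 0 := by
  have hpi := Real.pi_gt_three
  by_cases h : 0 < m
  · obtain ⟨x₀, hx₀, hlow⟩ := Wp_low hν
    refine ⟨x₀, by linarith, fun h3 => ?_⟩
    have h2 := hlow (2 * Real.pi * x₀) (by nlinarith)
    unfold Wz at h3
    rw [if_pos h] at h3
    rw [h3] at h2
    have := Real.exp_pos (-(2 * Real.pi * x₀))
    simp at h2
    linarith
  · obtain ⟨x₀, hx₀, hlow⟩ := Vm_low hν
    refine ⟨x₀, by linarith, fun h3 => ?_⟩
    have h2 := hlow (2 * Real.pi * x₀) (by nlinarith)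
    unfold Wz at h3
    rw [if_neg h] at h3
    rw [h3] at h2
    have := Real.exp_pos (-(2 * (2 * Real.pi * x₀)))
    simp at h2
    linarith

/-- the Fourier coefficient `n₀ = ±1` of one term of the Hecke operator -/
theorem f1_a8_term {ν : ℂ} {β : ℤ → ℂ} {f : ℍ → ℂ} (hβ : Expn1 1 ν β f) {a d : ℕ} (ha : 0 < a)
    (hd : 0 < d) {n₀ : ℤ} (hn₀ : n₀ = 1 ∨ n₀ = -1) {y : ℝ} (hy : 0 < y) :
    ∫ x in (0 : ℝ)..1, (∑ b ∈ Finset.range d, f (pz ((a * x + b) / d) (a * y / d))) *
      cexp (-(2 * Real.pi * n₀ * x : ℝ) * I) =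
    if a = 1 then (d : ℂ) * β (d * n₀) * Wz ν n₀ (2 * Real.pi * y) else 0 := by
  have hd0 : (0 : ℝ) < d := by exact_mod_cast hd
  have ha0 : (0 : ℝ) < a := by exact_mod_cast ha
  have hY : 0 < a * y / d := by positivity
  set w : ℤ → ℂ := fun m => (if (d : ℤ) ∣ m then (d : ℂ) else 0) * (β m *
    Wz ν m (2 * Real.pi * |(m : ℝ)| * (a * y / d) / (1 : ℕ))) with hw
  have h1 : ∀ x : ℝ, HasSum (fun m : ℤ => w m * cexp ((2 * Real.pi * m * (a * x) / d : ℝ) * I))
      (∑ b ∈ Finset.range d, f (pz ((a * x + b) / d) (a * y / d))) := by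
    intro x
    have h2 : HasSum (fun m : ℤ => ∑ b ∈ Finset.range d, β m *
        Wz ν m (2 * Real.pi * |(m : ℝ)| * (a * y / d) / (1 : ℕ)) *
        cexp ((2 * Real.pi * m * ((a * x + b) / d) / (1 : ℕ) : ℝ) * I))
        (∑ b ∈ Finset.range d, f (pz ((a * x + b) / d) (a * y / d))) :=
      hasSum_sum fun b _ => hβ.hasSum _ _ hY
    convert h2 using 2 with m
    rw [hw, ← Finset.mul_sum]
    simp only
    rw [← f1_a8_geom d hd m, Finset.mul_sum, Finset.sum_mul, Finset.sum_mul]
    refine Finset.sum_congr rfl fun b _ => ?_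
    have : cexp ((2 * Real.pi * m * ((a * x + b) / d) / (1 : ℕ) : ℝ) * I) =
        cexp ((2 * Real.pi * m * (b : ℝ) / d : ℝ) * I) *
          cexp ((2 * Real.pi * m * (a * x) / d : ℝ) * I) := by
      rw [← Complex.exp_add]
      congr 1
      push_cast
      ring
    rw [this]
    ring
  have hsum : Summable (fun m => ‖w m‖) := by
    have := (h1 0).summable
    simp only [mul_zero, zero_div, Complex.ofReal_zero, zero_mul, Complex.exp_zero, mul_one] at this
    exact this.norm
  have h2 : HasSum (fun m : ℤ => ∫ x in (0 : ℝ)..1,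
      w m * cexp ((2 * Real.pi * m * (a * x) / d : ℝ) * I) * cexp (-(2 * Real.pi * n₀ * x : ℝ) * I))
      (∫ x in (0 : ℝ)..1, (∑ b ∈ Finset.range d, f (pz ((a * x + b) / d) (a * y / d))) *
        cexp (-(2 * Real.pi * n₀ * x : ℝ) * I)) := by
    refine intervalIntegral.hasSum_integral_of_dominated_convergence (fun m _ => ‖w m‖)
      (fun m => ?_) (fun m => ?_) ?_ ?_ ?_
    · exact Continuous.aestronglyMeasurable (by fun_prop)
    · refine Eventually.of_forall fun x _ => ?_
      rw [norm_mul, norm_mul, Complex.norm_exp_ofReal_mul_I, ← Complex.ofReal_neg,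
        Complex.norm_exp_ofReal_mul_I, mul_one, mul_one]
    · exact Eventually.of_forall fun x _ => hsum
    · exact intervalIntegrable_const
    · exact Eventually.of_forall fun x _ => (h1 x).mul_right _
  refine h2.unique ?_
  have h3 : ∀ m : ℤ, ∫ x in (0 : ℝ)..1,
      w m * cexp ((2 * Real.pi * m * (a * x) / d : ℝ) * I) * cexp (-(2 * Real.pi * n₀ * x : ℝ) * I) =
      if m = d * n₀ ∧ a = 1 then (d : ℂ) * β (d * n₀) * Wz ν n₀ (2 * Real.pi * y) else 0 := by
    intro m
    by_cases hdm : (d : ℤ) ∣ m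
    · obtain ⟨l, rfl⟩ := hdm
      have h4 : ∀ x : ℝ, w (d * l) * cexp ((2 * Real.pi * ((d * l : ℤ) : ℝ) * (a * x) / d : ℝ) * I) *
          cexp (-(2 * Real.pi * n₀ * x : ℝ) * I) =
          w (d * l) * cexp ((2 * Real.pi * ((l * a - n₀ : ℤ) : ℝ) * x : ℝ) * I) := by
        intro x
        rw [mul_assoc, ← Complex.exp_add]
        congr 2
        have hd1 : (d : ℂ) ≠ 0 := by exact_mod_cast hd.ne'
        push_cast
        field_simp
        ring
      simp_rw [h4]
      rw [intervalIntegral.integral_const_mul, f1_a8_int]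
      by_cases h5 : (d : ℤ) * l = d * n₀ ∧ a = 1
      · obtain ⟨h6, rfl⟩ := h5
        have h7 : l = n₀ := by
          have : (d : ℤ) ≠ 0 := by exact_mod_cast hd.ne'
          exact mul_left_cancel₀ this h6
        subst h7
        rw [if_pos (by push_cast; ring), if_pos ⟨rfl, rfl⟩, mul_one, hw]
        simp only
        rw [if_pos (dvd_mul_right _ _), ← mul_assoc, f1_a8_Wz ν hd]
        congr 2
        have h8 : |(l : ℝ)| = 1 := by
          rcases hn₀ with rfl | rfl <;> simp
        push_cast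
        rw [abs_mul, h8, abs_of_pos hd0]
        field_simp
      · rw [if_neg h5, if_neg, mul_zero]
        intro h6
        have h6' : l * (a : ℤ) = n₀ := by linarith
        have h7 : (a : ℤ) ∣ 1 := by
          rcases hn₀ with rfl | rfl
          · exact ⟨l, by linarith⟩
          · exact ⟨-l, by linarith⟩
        have h8 : a = 1 := by
          have := Int.natCast_dvd_natCast.1 (show ((a : ℕ) : ℤ) ∣ ((1 : ℕ) : ℤ) by simpa using h7)
          exact Nat.dvd_one.1 this
        subst h8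
        apply h5
        refine ⟨?_, rfl⟩
        rw [← h6']
        push_cast
        ring
    · have h4 : w m = 0 := by
        rw [hw]
        simp only
        rw [if_neg hdm, zero_mul]
      rw [if_neg (by rintro ⟨rfl, _⟩; exact hdm (dvd_mul_right _ _))]
      simp [h4]
  simp_rw [h3]
  by_cases ha1 : a = 1
  · subst ha1
    simp only [and_true, if_true]
    exact hasSum_ite_eq _ _
  · simp only [ha1, and_false, if_false]
    exact hasSum_zero

theorem f1_a8_heckeT {N : ℕ} (χ : DirichletCharacter ℂ N) (n : ℕ) (f : ℍ → ℂ) {x y : ℝ}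
    (hy : 0 < y) : heckeT χ n f (pz x y) = ((√(n : ℝ) : ℝ) : ℂ)⁻¹ *
      ∑ p ∈ n.divisorsAntidiagonal, χ (p.1 : ZMod N) *
        ∑ b ∈ Finset.range p.2, f (pz ((p.1 * x + b) / p.2) (p.1 * y / p.2)) := by
  unfold heckeT
  congr 1
  refine Finset.sum_congr rfl fun p _ => ?_
  congr 1
  refine Finset.sum_congr rfl fun b _ => ?_
  rw [f1_a8_coe hy]
  unfold pz
  congr 2
  push_cast
  ring

theorem hecke_coeff1_pr {N : ℕ} [NeZero N] {χ : DirichletCharacter ℂ N} {ev : ℝ} {f : ℍ → ℂ}
    {a : ℕ → ℂ} (h : IsHeckeMaass N χ 1 ev f a) {ν : ℂ} (hν : ν.re = 0) {β : ℤ → ℂ}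
    (hβ : Expn1 1 ν β f) : a 1 = 1 ∧ ∀ n : ℕ, 0 < n →
      β n = a n * ((√(n : ℝ) : ℝ) : ℂ)⁻¹ * β 1 ∧
      β (-(n : ℤ)) = a n * ((√(n : ℝ) : ℝ) : ℂ)⁻¹ * β (-1) := by
  constructor
  · obtain ⟨z, hz⟩ := h.ne_zero
    have h1 := h.hecke 1 one_pos z
    unfold heckeT at h1
    simp only [Nat.cast_one, Real.sqrt_one, Complex.ofReal_one, inv_one, one_mul,
      Nat.divisorsAntidiagonal_one, Finset.sum_singleton, map_one, Finset.range_one, Nat.cast_zero,
      add_zero, div_one, ofComplex_apply] at h1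
    have h2 : (a 1 - 1) * f z = 0 := by linear_combination -h1
    rcases mul_eq_zero.1 h2 with h3 | h3
    · linear_combination h3
    · exact absurd h3 hz
  · intro n hn
    have hn0 : (0 : ℝ) < n := by exact_mod_cast hn
    have hsq : ((√(n : ℝ) : ℝ) : ℂ) ≠ 0 := by
      exact_mod_cast (Real.sqrt_pos.2 hn0).ne'
    have hsq2 : ((√(n : ℝ) : ℝ) : ℂ) * ((√(n : ℝ) : ℝ) : ℂ) = n := by
      rw [← Complex.ofReal_mul, Real.mul_self_sqrt hn0.le]
      simp
    have key : ∀ n₀ : ℤ, (n₀ = 1 ∨ n₀ = -1) →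
        β (n * n₀) = a n * ((√(n : ℝ) : ℝ) : ℂ)⁻¹ * β n₀ := by
      intro n₀ hn₀
      obtain ⟨x₀, hy, hW⟩ := f1_a8_ne hν n₀
      have h1 : ∫ x in (0 : ℝ)..1, heckeT χ n f (pz x x₀) * cexp (-(2 * Real.pi * n₀ * x : ℝ) * I) =
          a n * (β n₀ * Wz ν n₀ (2 * Real.pi * x₀)) := by
        have h2 := expn1_fc (P := 1) one_pos hν hβ n₀ hy
        unfold fc at h2
        have h3 : |(n₀ : ℝ)| = 1 := by rcases hn₀ with rfl | rfl <;> simp
        rw [h3] at h2
        simp only [Nat.cast_one, inv_one, Complex.ofReal_one, one_mul, mul_one, div_one] at h2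
        rw [← h2, ← intervalIntegral.integral_const_mul]
        refine intervalIntegral.integral_congr fun x _ => ?_
        show heckeT χ n f (pz x x₀) * cexp (-(2 * Real.pi * n₀ * x : ℝ) * I) = _
        rw [h.hecke n hn]
        ring
      have h2 : ∫ x in (0 : ℝ)..1, heckeT χ n f (pz x x₀) *
          cexp (-(2 * Real.pi * n₀ * x : ℝ) * I) = ((√(n : ℝ) : ℝ) : ℂ)⁻¹ *
          ∑ p ∈ n.divisorsAntidiagonal, χ (p.1 : ZMod N) *
            ∫ x in (0 : ℝ)..1, (∑ b ∈ Finset.range p.2, f (pz ((p.1 * x + b) / p.2)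
              (p.1 * x₀ / p.2))) * cexp (-(2 * Real.pi * n₀ * x : ℝ) * I) := by
        have h3 : ∀ x : ℝ, heckeT χ n f (pz x x₀) * cexp (-(2 * Real.pi * n₀ * x : ℝ) * I) =
            ((√(n : ℝ) : ℝ) : ℂ)⁻¹ * ∑ p ∈ n.divisorsAntidiagonal, χ (p.1 : ZMod N) *
              ((∑ b ∈ Finset.range p.2, f (pz ((p.1 * x + b) / p.2) (p.1 * x₀ / p.2))) *
                cexp (-(2 * Real.pi * n₀ * x : ℝ) * I)) := by
          intro x
          rw [f1_a8_heckeT χ n f hy, mul_assoc, Finset.sum_mul]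
          congr 1
          refine Finset.sum_congr rfl fun p _ => ?_
          ring
        simp_rw [h3]
        rw [intervalIntegral.integral_const_mul, intervalIntegral.integral_finsetSum]
        · congr 1
          refine Finset.sum_congr rfl fun p _ => ?_
          rw [intervalIntegral.integral_const_mul]
        · intro p hp
          have hp' := Nat.mem_divisorsAntidiagonal.1 hp
          have hp1 : 0 < p.1 := Nat.pos_of_ne_zero (by rintro h0; rw [h0] at hp'; simp at hp'; omega)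
          have hp2 : 0 < p.2 := Nat.pos_of_ne_zero (by rintro h0; rw [h0] at hp'; simp at hp'; omega)
          have hp1' : (0 : ℝ) < p.1 := by exact_mod_cast hp1
          have hp2' : (0 : ℝ) < p.2 := by exact_mod_cast hp2
          refine Continuous.intervalIntegrable ?_ _ _
          refine continuous_const.mul (Continuous.mul ?_ (by fun_prop))
          refine continuous_finsetSum _ fun b _ => ?_
          exact f1_a8_cont h.smooth (by fun_prop) (by positivity)
      have h3 : ∑ p ∈ n.divisorsAntidiagonal, χ (p.1 : ZMod N) *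
            ∫ x in (0 : ℝ)..1, (∑ b ∈ Finset.range p.2, f (pz ((p.1 * x + b) / p.2)
              (p.1 * x₀ / p.2))) * cexp (-(2 * Real.pi * n₀ * x : ℝ) * I) =
          n * β (n * n₀) * Wz ν n₀ (2 * Real.pi * x₀) := by
        rw [Finset.sum_eq_single (1, n)]
        · rw [f1_a8_term hβ one_pos hn hn₀ hy, if_pos rfl]
          simp
        · intro p hp hne
          have hp' := Nat.mem_divisorsAntidiagonal.1 hp
          have hp1 : 0 < p.1 := Nat.pos_of_ne_zero (by rintro h0; rw [h0] at hp'; simp at hp'; omega)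
          have hp2 : 0 < p.2 := Nat.pos_of_ne_zero (by rintro h0; rw [h0] at hp'; simp at hp'; omega)
          rw [f1_a8_term hβ hp1 hp2 hn₀ hy, if_neg, mul_zero]
          intro h4
          apply hne
          have h5 := hp'.1
          rw [h4, one_mul] at h5
          exact Prod.ext h4 h5
        · intro hnm
          exact absurd (Nat.mem_divisorsAntidiagonal.2 ⟨one_mul n, hn.ne'⟩) hnm
      rw [h2, h3] at h1
      have h4 : (((√(n : ℝ) : ℝ) : ℂ)⁻¹ * (n * β (n * n₀)) - a n * β n₀) *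
          Wz ν n₀ (2 * Real.pi * x₀) = 0 := by linear_combination h1
      rcases mul_eq_zero.1 h4 with h5 | h5
      · have h6 : ((√(n : ℝ) : ℝ) : ℂ) * β (n * n₀) = a n * β n₀ := by
          have : ((√(n : ℝ) : ℝ) : ℂ)⁻¹ * (n * β (n * n₀)) = ((√(n : ℝ) : ℝ) : ℂ) * β (n * n₀) := by
            rw [← hsq2]
            field_simp
          rw [this] at h5
          linear_combination h5
        field_simp
        linear_combination h6
      · exact absurd h5 hW
    constructor
    · have := key 1 (Or.inl rfl)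
      rwa [mul_one] at this
    · have := key (-1) (Or.inr rfl)
      rwa [mul_neg_one] at this


end Pool.Agent.JO.FM1

namespace Pool.Agent.JO.FM1

theorem hecke_coeff1 : type_of% @hecke_coeff1_pr := @hecke_coeff1_pr

end Pool.Agent.JO.FM1
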