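import Pool.Agent.Lib_helper42.JO1.Defs
import Pool.Agent.Lib_helper45.JO.Defs2
import Pool.Agent.Lib_helper42.JO1F.A11
import Pool.Agent.Lib_helper42.JO1F.A12
import Pool.Agent.Lib_helper42.JO1F.A4
import Pool.Agent.Lib_helper42.JO1F.A5
import Pool.Agent.Lib_helper42.JO1F.A7
import Pool.Agent.Lib_helper42.JO1F.A8
import Pool.Agent.Lib_helper45.JOM.A2
import Pool.Agent.Lib_helper45.JOM.A3

/-! JO, Maass frame, weight 1, block A14: the frame of a Hecke-Maass form of weight `1` -/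

set_option autoImplicit false

namespace Pool.Agent.JO.FM1

open Complex Filter Topology MeasureTheory Set
open UpperHalfPlane hiding I
open Pool.Agent.JO.FM
open scoped MatrixGroups ComplexConjugate

theorem f1_a14_coe {x y : ℝ} (hy : 0 < y) : ((pz x y : ℍ) : ℂ) = (x : ℂ) + y * I := by
  have h : 0 < ((x : ℂ) + y * I).im := by simpa using hy
  unfold pz
  rw [ofComplex_apply_of_im_pos h]

theorem f1_a14_pz (z : ℍ) : pz z.re z.im = z := by
  unfold pz
  have h : ((z.re : ℝ) : ℂ) + (z.im : ℝ) * I = (z : ℂ) := by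
    apply Complex.ext
    · simp
    · simp
  rw [h, ofComplex_apply]

theorem f1_a14_cont {f : ℍ → ℂ}
    (h : ContDiffOn ℝ 2 (fun z : ℂ => f (ofComplex z)) {z | 0 < z.im}) : Continuous f := by
  have h1 : Continuous fun z : ℍ => (fun w : ℂ => f (ofComplex w)) (z : ℂ) := by
    refine h.continuousOn.comp_continuous UpperHalfPlane.continuous_coe fun z => ?_
    exact z.im_pos
  refine h1.congr fun z => ?_
  simp only [ofComplex_apply]

/-- the form interface of `f` itself -/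
theorem f1_a14_wform {N : ℕ} [NeZero N] {χ : DirichletCharacter ℂ N} {ev : ℝ} {f : ℍ → ℂ}
    {a : ℕ → ℂ} (h : IsHeckeMaass N χ 1 ev f a) {ν : ℂ} (hν : ν.re = 0)
    (hev : ν ^ 2 = 1 / 4 - ev) : Cusp1 N ν f ∧ WForm N χ 1 a f := by
  have hc := maass_cusp1 h.toIsMaassForm hν hev
  exact ⟨hc, wform_cusp1 hν (f1_a14_cont h.smooth) h.automorphic hc
    (fun p hp _ z => h.hecke p hp.pos z)⟩

theorem f1_a14_lin {N : ℕ} [NeZero N] {χ : DirichletCharacter ℂ N} {ν : ℂ} {f g : ℍ → ℂ}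
    {a : ℕ → ℂ} (hν : ν.re = 0) (hf : Cusp1 N ν f ∧ WForm N χ 1 a f)
    (hg : Cusp1 N ν g ∧ WForm N χ 1 a g) (c c' : ℂ) :
    Cusp1 N ν (fun z => c * f z + c' * g z) ∧ WForm N χ 1 a (fun z => c * f z + c' * g z) := by
  have hC : Cusp1 N ν (fun z => c * f z + c' * g z) := by
    intro σ
    obtain ⟨β, hβ⟩ := hf.1 σ
    obtain ⟨β', hβ'⟩ := hg.1 σ
    refine ⟨_, (congrArg (Expn1 N ν _) (funext fun z => ?_)).mp (expn1_lin hβ hβ' c c')⟩
    unfold sl
    ring
  refine ⟨hC, wform_cusp1 hν ?_ ?_ hC ?_⟩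
  · exact (continuous_const.mul hf.2.cont).add (continuous_const.mul hg.2.cont)
  · intro γ hγ z
    rw [hf.2.aut γ hγ z, hg.2.aut γ hγ z]
    ring
  · intro p hp hpN z
    have h1 := hf.2.hecke p hp hpN z
    have h2 := hg.2.hecke p hp hpN z
    unfold heckeT at h1 h2 ⊢
    have h3 : ∑ q ∈ p.divisorsAntidiagonal, χ (q.1 : ZMod N) *
        ∑ b ∈ Finset.range q.2, (c * f (ofComplex (((q.1 : ℂ) * z + b) / q.2)) +
          c' * g (ofComplex (((q.1 : ℂ) * z + b) / q.2))) =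
        c * ∑ q ∈ p.divisorsAntidiagonal, χ (q.1 : ZMod N) *
          ∑ b ∈ Finset.range q.2, f (ofComplex (((q.1 : ℂ) * z + b) / q.2)) +
        c' * ∑ q ∈ p.divisorsAntidiagonal, χ (q.1 : ZMod N) *
          ∑ b ∈ Finset.range q.2, g (ofComplex (((q.1 : ℂ) * z + b) / q.2)) := by
      rw [Finset.mul_sum, Finset.mul_sum, ← Finset.sum_add_distrib]
      refine Finset.sum_congr rfl fun q _ => ?_
      rw [Finset.sum_add_distrib, ← Finset.mul_sum, ← Finset.mul_sum]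
      ring
    rw [h3]
    linear_combination c * h1 + c' * h2

/-- exponential decay of a form in the form needed on the rays -/
theorem f1_a14_dec {N : ℕ} {χ : DirichletCharacter ℂ N} {k : ℕ} {a : ℕ → ℂ} {u : ℍ → ℂ}
    (h : WForm N χ k a u) : ∃ C c : ℝ, 0 < c ∧ ∀ z : ℍ, ‖u z‖ ≤ C * Real.exp (-(c * z.im)) ∧
      ‖u z‖ ≤ C * Real.exp (-(c * (z.im / normSq (z : ℂ)))) := by
  obtain ⟨C, c, hc, hd⟩ := h.decay
  have hC : 0 ≤ C := by
    have h1 := (norm_nonneg _).trans (hd 1 UpperHalfPlane.I (by simp; norm_num))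
    by_contra hn
    push Not at hn
    exact absurd h1 (not_le.2 (mul_neg_of_neg_of_pos hn (Real.exp_pos _)))
  have hb : ∀ z : ℍ, ‖u z‖ ≤ C := by
    intro z
    obtain ⟨g, hg⟩ := ModularGroup.exists_smul_mem_fd z
    have h1 : 1 / 2 ≤ (g • z).im := by
      have h2 := ModularGroup.three_le_four_mul_im_sq_of_mem_fd hg
      nlinarith [(g • z).im_pos]
    have h2 := hd g⁻¹ (g • z) h1
    rw [inv_smul_smul] at h2
    refine h2.trans (mul_le_of_le_one_right hC (Real.exp_le_one_iff.2 ?_))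
    have := (g • z).im_pos
    nlinarith
  have hlow : ∀ (z : ℍ) (t : ℝ), t < 1 / 2 → ‖u z‖ ≤ C * Real.exp (c / 2) * Real.exp (-(c * t)) := by
    intro z t ht
    refine (hb z).trans ?_
    rw [mul_assoc, ← Real.exp_add]
    refine le_mul_of_one_le_right hC (Real.one_le_exp ?_)
    nlinarith
  have hup : ∀ t : ℝ, C * Real.exp (-c * t) ≤ C * Real.exp (c / 2) * Real.exp (-(c * t)) := by
    intro t
    rw [mul_assoc, ← Real.exp_add]
    refine mul_le_mul_of_nonneg_left (Real.exp_le_exp.2 ?_) hC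
    linarith
  refine ⟨C * Real.exp (c / 2), c, hc, fun z => ⟨?_, ?_⟩⟩
  · rcases lt_or_ge z.im (1 / 2) with hz | hz
    · exact hlow z _ hz
    · have h1 := hd 1 z hz
      rw [one_smul] at h1
      exact h1.trans (hup _)
  · rcases lt_or_ge (z.im / normSq (z : ℂ)) (1 / 2) with hz | hz
    · exact hlow z _ hz
    · have h0 : (ModularGroup.S • z).im = z.im / normSq (z : ℂ) := by
        rw [ModularGroup.im_smul_eq_div_normSq]
        simp [ModularGroup.denom_S]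
      have h1 := hd ModularGroup.S⁻¹ (ModularGroup.S • z) (by rw [h0]; exact hz)
      rw [inv_smul_smul, h0] at h1
      exact h1.trans (hup _)

/-- A14: the frame -/
theorem frame1_exists_pr {N : ℕ} [NeZero N] {χ : DirichletCharacter ℂ N} {ev : ℝ} {f : ℍ → ℂ}
    {a : ℕ → ℂ} (h : IsHeckeMaass N χ 1 ev f a) (hev : 1 / 4 < ev) :
    ∃ (ν : ℂ) (ε : ℝ) (f₁ : ℍ → ℂ),
      ν ^ 2 = 1 / 4 - ev ∧ WForm N χ 1 a f₁ ∧ Cusp1 N ν f₁ ∧ Frame1 ν ε a f₁ := by
  obtain ⟨ν, hν, hν0, hν2⟩ : ∃ ν : ℂ, ν.re = 0 ∧ ν ≠ 0 ∧ ν ^ 2 = 1 / 4 - ev := by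
    have h0 : (0 : ℝ) < ev - 1 / 4 := by linarith
    refine ⟨((√(ev - 1 / 4) : ℝ) : ℂ) * I, by simp, ?_, ?_⟩
    · refine mul_ne_zero ?_ I_ne_zero
      exact ofReal_ne_zero.2 (Real.sqrt_pos.2 h0).ne'
    · rw [mul_pow, I_sq, ← ofReal_pow, Real.sq_sqrt h0.le]
      push_cast
      ring
  obtain ⟨β, hβ⟩ := expn1_of_perEig one_pos hν hν2 (perEig_one h.toIsMaassForm)
    (maass_bdd h.toIsMaassForm)
  obtain ⟨ha1, hco⟩ := hecke_coeff1 h hν hβ
  have hQ := Qo_expn one_pos hν hβ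
  -- the first coefficients
  have h1 : ∃ ε : ℝ, (ε = 1 ∨ ε = -1) ∧ β 1 + ε * ν⁻¹ * β (-1) ≠ 0 := by
    by_contra hno
    push Not at hno
    have h2 := hno 1 (Or.inl rfl)
    have h3 := hno (-1) (Or.inr rfl)
    push_cast at h2 h3
    have h4 : β 1 = 0 := by linear_combination (h2 + h3) / 2
    have h5 : β (-1) = 0 := by
      have h6 : ν⁻¹ * β (-1) = 0 := by linear_combination (h2 - h3) / 2
      exact (mul_eq_zero.1 h6).resolve_left (inv_ne_zero hν0)
    have h6 : ∀ m : ℤ, β m = 0 := by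
      intro m
      rcases lt_trichotomy m 0 with hm | hm | hm
      · have h7 := (hco m.natAbs (by omega)).2
        rw [h5, mul_zero] at h7
        rwa [show -((m.natAbs : ℕ) : ℤ) = m by omega] at h7
      · rw [hm]
        exact hβ.zero
      · have h7 := (hco m.natAbs (by omega)).1
        rw [h4, mul_zero] at h7
        rwa [show ((m.natAbs : ℕ) : ℤ) = m by omega] at h7
    obtain ⟨z, hz⟩ := h.ne_zero
    have h8 := hβ.hasSum z.re z.im z.im_pos
    rw [f1_a14_pz] at h8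
    simp only [h6, zero_mul] at h8
    exact hz (h8.unique hasSum_zero)
  obtain ⟨ε, hε, hne⟩ := h1
  have hεε : (ε : ℂ) * ε = 1 := by
    rcases hε with h1 | h1
    · rw [h1]
      norm_num
    · rw [h1]
      norm_num
  have hνν : ν * ν⁻¹ = 1 := mul_inv_cancel₀ hν0
  set c : ℂ := (β 1 + ε * ν⁻¹ * β (-1))⁻¹ with hc
  have hcc : c * (β 1 + ε * ν⁻¹ * β (-1)) = 1 := inv_mul_cancel₀ hne
  set c' : ℂ := c * (ε * ν⁻¹) with hc'
  obtain ⟨hC, hW⟩ := f1_a14_lin hν (f1_a14_wform h hν hν2) (wform_Q h hν hν2) c c'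
  have hE := expn1_lin hβ hQ c c'
  have hcf : (fun m => c * β m + c' * (if 0 < m then β (-m) else ν ^ 2 * β (-m))) =
      cf1 ν ε a := by
    funext m
    rcases lt_trichotomy m 0 with hm | hm | hm
    · obtain ⟨h2, h3⟩ := hco m.natAbs (by omega)
      have h4 : ((m.natAbs : ℕ) : ℤ) = -m := by omega
      rw [h4, neg_neg] at h3
      rw [h4] at h2
      unfold cf1
      rw [if_neg hm.ne, if_pos hm, if_neg hm.not_gt, h2, h3, hc']
      linear_combination (ε * ν * a m.natAbs * ((√((m.natAbs : ℕ) : ℝ) : ℝ) : ℂ)⁻¹) * hcc -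
        (c * β (-1) * a m.natAbs * ((√((m.natAbs : ℕ) : ℝ) : ℝ) : ℂ)⁻¹) * hεε +
        (c * ε * ν * β 1 * a m.natAbs * ((√((m.natAbs : ℕ) : ℝ) : ℝ) : ℂ)⁻¹ -
          c * ε * ε * β (-1) * a m.natAbs * ((√((m.natAbs : ℕ) : ℝ) : ℝ) : ℂ)⁻¹) * hνν
    · rw [hm]
      unfold cf1
      rw [if_pos rfl, if_neg (lt_irrefl _), neg_zero, hβ.zero]
      ring
    · obtain ⟨h2, h3⟩ := hco m.natAbs (by omega)
      have h4 : ((m.natAbs : ℕ) : ℤ) = m := by omega
      rw [h4] at h2 h3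
      unfold cf1
      rw [if_neg hm.ne', if_neg hm.not_gt, if_pos hm, h2, h3, hc']
      linear_combination (a m.natAbs * ((√((m.natAbs : ℕ) : ℝ) : ℝ) : ℂ)⁻¹) * hcc
  rw [hcf] at hE
  exact ⟨ν, ε, _, hν2, hW, hC, ⟨hν, hν0, hε, ha1, hW.cont, hE, f1_a14_dec hW⟩⟩


end Pool.Agent.JO.FM1

namespace Pool.Agent.JO.FM1

theorem frame1_exists : type_of% @frame1_exists_pr := @frame1_exists_pr

end Pool.Agent.JO.FM1
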