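import Pool.Agent.Lib_helper42.JO1.Defs
import Pool.Agent.Lib_helper45.JO.Defs2
import Pool.Agent.Lib_helper42.JO1F.A5
import Pool.Agent.Lib_helper42.JO1F.K6

/-!
the coefficients, weight 1.  Cites: `expn1_fc` (A5), `Wp_low`, `Vm_low` (K6).
-/

set_option autoImplicit false

namespace Pool.Agent.JO.FM1

open Complex Filter Topology MeasureTheory Set
open UpperHalfPlane hiding I
open Pool.Agent.JO.FM
open scoped MatrixGroups ComplexConjugate

theorem f1_A9_norm (r : ℝ) : ‖cexp ((r : ℂ) * I)‖ = 1 := Complex.norm_exp_ofReal_mul_I r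

theorem f1_A9_cont {P : ℕ} {ν : ℂ} {β : ℤ → ℂ} {F : ℍ → ℂ} (hβ : Expn1 P ν β F) {y : ℝ} (hy : 0 < y) :
    Continuous (fun x : ℝ => F (pz x y)) := by
  have h1 : (fun x : ℝ => F (pz x y)) = fun x : ℝ => ∑' m : ℤ,
      β m * Wz ν m (2 * Real.pi * |(m : ℝ)| * y / P) * cexp ((2 * Real.pi * m * x / P : ℝ) * I) := by
    funext x
    exact (hβ.hasSum x y hy).tsum_eq.symm
  rw [h1]
  have h2 := (hβ.hasSum 0 y hy).summable.norm
  refine continuous_tsum (u := fun m : ℤ => ‖β m * Wz ν m (2 * Real.pi * |(m : ℝ)| * y / P)‖)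
    (fun m => by fun_prop) ?_ ?_
  · refine h2.congr fun m => ?_
    rw [norm_mul, f1_A9_norm, mul_one]
  · intro m x
    rw [norm_mul, f1_A9_norm, mul_one]

theorem f1_A9_Wz {p : ℕ} (hp : 0 < p) (ν : ℂ) (m : ℤ) : Wz ν (p * m) = Wz ν m := by
  have hpz : (0 : ℤ) < p := by exact_mod_cast hp
  have h : (0 < (p : ℤ) * m) ↔ 0 < m := by
    constructor
    · intro h
      exact (pos_iff_pos_of_mul_pos h).1 hpz
    · intro h
      exact mul_pos hpz h
  funext x
  unfold Wz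
  by_cases hm : 0 < m
  · rw [if_pos hm, if_pos (h.2 hm)]
  · rw [if_neg hm, if_neg (fun h' => hm (h.1 h'))]

/-- a point at which the Whittaker function does not vanish -/
theorem f1_A9_low {ν : ℂ} (hν : ν.re = 0) (m : ℤ) : ∃ x₀ : ℝ, 1 ≤ x₀ ∧ Wz ν m x₀ ≠ 0 := by
  by_cases hm : 0 < m
  · obtain ⟨x₀, hx₀, hW⟩ := Wp_low hν
    refine ⟨x₀, hx₀, fun h => ?_⟩
    unfold Wz at h
    rw [if_pos hm] at h
    have h1 := hW x₀ le_rfl
    rw [h] at h1
    have h2 := Real.exp_pos (-x₀)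
    simp only [zero_re] at h1
    linarith
  · obtain ⟨x₀, hx₀, hW⟩ := Vm_low hν
    refine ⟨x₀, hx₀, fun h => ?_⟩
    unfold Wz at h
    rw [if_neg hm] at h
    have h1 := hW x₀ le_rfl
    rw [h] at h1
    have h2 := Real.exp_pos (-(2 * x₀))
    simp only [zero_re] at h1
    linarith

theorem f1_A9_exp_int (n : ℤ) : cexp ((2 * Real.pi * n : ℝ) * I) = 1 := by
  rw [Complex.exp_eq_one_iff]
  refine ⟨n, ?_⟩
  push_cast
  ring

theorem f1_A9_per {P : ℕ} (hP : 0 < P) {ν : ℂ} {β : ℤ → ℂ} {F : ℍ → ℂ} (hβ : Expn1 P ν β F) {y : ℝ}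
    (hy : 0 < y) (x : ℝ) : F (pz (x + P) y) = F (pz x y) := by
  have h1 := hβ.hasSum (x + P) y hy
  have h2 := hβ.hasSum x y hy
  have hP' : (P : ℝ) ≠ 0 := by exact_mod_cast hP.ne'
  have e : ∀ m : ℤ, cexp ((2 * Real.pi * m * (x + P) / P : ℝ) * I) =
      cexp ((2 * Real.pi * m * x / P : ℝ) * I) := by
    intro m
    have e1 : 2 * Real.pi * m * (x + P) / P = 2 * Real.pi * m * x / P + 2 * Real.pi * m := by
      field_simp
    rw [e1, ofReal_add, add_mul, Complex.exp_add, f1_A9_exp_int, mul_one]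
  simp_rw [e] at h1
  exact h1.unique h2

theorem f1_A9_perk {P : ℕ} (hP : 0 < P) {ν : ℂ} {β : ℤ → ℂ} {F : ℍ → ℂ} (hβ : Expn1 P ν β F) {y : ℝ}
    (hy : 0 < y) (k : ℕ) (x : ℝ) : F (pz (x + k * P) y) = F (pz x y) := by
  induction k with
  | zero => rw [Nat.cast_zero, zero_mul, add_zero]
  | succ k ih =>
    have e : x + ((k + 1 : ℕ) : ℝ) * P = (x + k * P) + P := by push_cast; ring
    rw [e, f1_A9_per hP hβ hy, ih]

/-- the character `e(-mx/P)` -/
noncomputable def f1_A9_e (P : ℕ) (m : ℤ) (x : ℝ) : ℂ := cexp (-(2 * Real.pi * m * x / P : ℝ) * I)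

theorem f1_A9_e_cont (P : ℕ) (m : ℤ) : Continuous (f1_A9_e P m) := by
  unfold f1_A9_e
  fun_prop

theorem f1_A9_fc (P : ℕ) (F : ℍ → ℂ) (n : ℤ) (y : ℝ) : fc P F n y =
    ((P : ℝ)⁻¹ : ℝ) * ∫ x in (0 : ℝ)..P, F (pz x y) * f1_A9_e P n x := rfl

/-- the first part of the Hecke operator -/
theorem f1_A9_first {P p : ℕ} (hP : 0 < P) (hp : 0 < p) {ν : ℂ} {β : ℤ → ℂ}
    {F : ℍ → ℂ} (hβ : Expn1 P ν β F) (m : ℤ) {y : ℝ} (hy : 0 < y) :
    ∑ b ∈ Finset.range p, ∫ x in (0 : ℝ)..P, F (pz ((x + P * b) / p) y) * f1_A9_e P m x =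
      p * ∫ x in (0 : ℝ)..P, F (pz x y) * f1_A9_e P (p * m) x := by
  have hP' : (P : ℝ) ≠ 0 := by exact_mod_cast hP.ne'
  have hp' : (p : ℝ) ≠ 0 := by exact_mod_cast hp.ne'
  have hc : Continuous (fun x : ℝ => F (pz x y) * f1_A9_e P (p * m) x) :=
    (f1_A9_cont hβ hy).mul (f1_A9_e_cont _ _)
  have h1 := intervalIntegral.sum_integral_adjacent_intervals (μ := volume)
    (f := fun x : ℝ => F (pz x y) * f1_A9_e P (p * m) x) (a := fun k : ℕ => (P : ℝ) * k / p) (n := p)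
    (fun k _ => hc.intervalIntegrable _ _)
  have e0 : (P : ℝ) * ((0 : ℕ) : ℝ) / p = 0 := by simp
  have ep : (P : ℝ) * (p : ℝ) / p = P := by field_simp
  rw [e0, ep] at h1
  rw [← h1, Finset.mul_sum]
  refine Finset.sum_congr rfl fun b _ => ?_
  have h2 := intervalIntegral.integral_comp_div_add (a := (0 : ℝ)) (b := P)
    (fun x : ℝ => F (pz x y) * f1_A9_e P (p * m) x) hp' ((P : ℝ) * b / p)
  have e3 : (0 : ℝ) / p + (P : ℝ) * b / p = (P : ℝ) * b / p := by rw [zero_div, zero_add]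
  have e4 : (P : ℝ) / p + (P : ℝ) * b / p = (P : ℝ) * ((b + 1 : ℕ) : ℝ) / p := by
    push_cast
    ring
  rw [e3, e4] at h2
  have h3 : ∫ x in (0 : ℝ)..P, F (pz ((x + P * b) / p) y) * f1_A9_e P m x =
      ∫ x in (0 : ℝ)..P, (fun x : ℝ => F (pz x y) * f1_A9_e P (p * m) x) (x / p + P * b / p) := by
    refine intervalIntegral.integral_congr fun x _ => ?_
    have e5 : (x + P * b) / p = x / p + P * b / p := by ring
    rw [e5]
    congr 1
    unfold f1_A9_e
    have e6 : 2 * Real.pi * ((p * m : ℤ) : ℝ) * (x / p + P * b / p) / P =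
        2 * Real.pi * m * x / P + 2 * Real.pi * ((m * b : ℤ) : ℝ) := by
      push_cast
      field_simp
    have e7 : -((2 * Real.pi * m * x / P + 2 * Real.pi * ((m * b : ℤ) : ℝ) : ℝ) : ℂ) * I =
        -((2 * Real.pi * m * x / P : ℝ) : ℂ) * I + (2 * Real.pi * ((-(m * b) : ℤ) : ℝ) : ℝ) * I := by
      push_cast
      ring
    rw [e6, e7, Complex.exp_add, f1_A9_exp_int, mul_one]
  rw [h3, h2, Complex.real_smul]
  push_cast
  rfl

/-- the second part of the Hecke operator -/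
theorem f1_A9_second {P p : ℕ} (hP : 0 < P) (hp : 0 < p) {ν : ℂ} {β : ℤ → ℂ}
    {F : ℍ → ℂ} (hβ : Expn1 P ν β F) (m : ℤ) {y : ℝ} (hy : 0 < y) :
    ∫ x in (0 : ℝ)..P, F (pz (p * x) y) * f1_A9_e P m x =
      if (p : ℤ) ∣ m then ∫ x in (0 : ℝ)..P, F (pz x y) * f1_A9_e P (m / p) x else 0 := by
  have hP' : (P : ℝ) ≠ 0 := by exact_mod_cast hP.ne'
  have hp' : (p : ℝ) ≠ 0 := by exact_mod_cast hp.ne'
  have hpc : (p : ℂ) ≠ 0 := by exact_mod_cast hp.ne'
  set E : ℝ → ℂ := fun x => cexp (-(2 * Real.pi * m * x / (p * P) : ℝ) * I) with hE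
  have hEc : Continuous E := by rw [hE]; fun_prop
  set ζ : ℂ := cexp (-(2 * Real.pi * m / p : ℝ) * I) with hζ
  have h1 := intervalIntegral.integral_comp_mul_left (a := (0 : ℝ)) (b := P)
    (fun x : ℝ => F (pz x y) * E x) hp'
  have h2 : ∫ x in (0 : ℝ)..P, F (pz (p * x) y) * f1_A9_e P m x =
      ∫ x in (0 : ℝ)..P, (fun x : ℝ => F (pz x y) * E x) (p * x) := by
    refine intervalIntegral.integral_congr fun x _ => ?_
    have e : 2 * Real.pi * m * (p * x) / (p * P) = 2 * Real.pi * m * x / P := by field_simp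
    have e' : f1_A9_e P m x = E (p * x) := by
      show f1_A9_e P m x = cexp (-(2 * Real.pi * m * (p * x) / (p * P) : ℝ) * I)
      rw [e]
      rfl
    rw [e']
  rw [h2, h1, mul_zero]
  have hc : Continuous (fun x : ℝ => F (pz x y) * E x) := (f1_A9_cont hβ hy).mul hEc
  have h3 := intervalIntegral.sum_integral_adjacent_intervals (μ := volume)
    (f := fun x : ℝ => F (pz x y) * E x) (a := fun k : ℕ => (k : ℝ) * P) (n := p)
    (fun k _ => hc.intervalIntegrable _ _)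
  simp only [Nat.cast_zero, zero_mul] at h3
  rw [← h3]
  have h4 : ∀ k ∈ Finset.range p, ∫ x in (k : ℝ) * P..((k + 1 : ℕ) : ℝ) * P, F (pz x y) * E x =
      ζ ^ k * ∫ x in (0 : ℝ)..P, F (pz x y) * E x := by
    intro k _
    have h5 := intervalIntegral.integral_comp_add_right (a := (0 : ℝ)) (b := P)
      (fun x : ℝ => F (pz x y) * E x) ((k : ℝ) * P)
    have e1 : (0 : ℝ) + (k : ℝ) * P = (k : ℝ) * P := zero_add _
    have e2 : (P : ℝ) + (k : ℝ) * P = ((k + 1 : ℕ) : ℝ) * P := by push_cast; ring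
    rw [e1, e2] at h5
    rw [← h5, ← intervalIntegral.integral_const_mul]
    refine intervalIntegral.integral_congr fun x _ => ?_
    rw [f1_A9_perk hP hβ hy]
    have e3 : E (x + k * P) = ζ ^ k * E x := by
      rw [hE, hζ]
      simp only
      rw [← Complex.exp_nat_mul, ← Complex.exp_add]
      congr 1
      have e4 : 2 * Real.pi * m * (x + k * P) / (p * P) =
          k * (2 * Real.pi * m / p) + 2 * Real.pi * m * x / (p * P) := by
        field_simp
        ring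
      rw [e4]
      push_cast
      ring
    rw [e3]
    ring
  rw [Finset.sum_congr rfl h4, ← Finset.sum_mul]
  by_cases hdiv : (p : ℤ) ∣ m
  · rw [if_pos hdiv]
    obtain ⟨j, rfl⟩ := hdiv
    have hζ1 : ζ = 1 := by
      rw [hζ]
      have e : -((2 * Real.pi * ((p * j : ℤ) : ℝ) / p : ℝ) : ℂ) * I =
          (2 * Real.pi * ((-j : ℤ) : ℝ) : ℝ) * I := by
        have e' : 2 * Real.pi * ((p * j : ℤ) : ℝ) / p = 2 * Real.pi * j := by
          push_cast
          field_simp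
        rw [e']
        push_cast
        ring
      rw [e, f1_A9_exp_int]
    have hpz : (p : ℤ) ≠ 0 := by exact_mod_cast hp.ne'
    rw [Int.mul_ediv_cancel_left _ hpz, hζ1]
    simp only [one_pow, Finset.sum_const, Finset.card_range, nsmul_eq_mul, mul_one]
    rw [Complex.real_smul, ofReal_inv, ofReal_natCast, inv_mul_cancel_left₀ hpc]
    refine intervalIntegral.integral_congr fun x _ => ?_
    have e : 2 * Real.pi * ((p * j : ℤ) : ℝ) * x / (p * P) = 2 * Real.pi * j * x / P := by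
      push_cast
      field_simp
    have e' : E x = f1_A9_e P j x := by
      show cexp (-(2 * Real.pi * ((p * j : ℤ) : ℝ) * x / (p * P) : ℝ) * I) = _
      rw [e]
      rfl
    rw [e']
  · rw [if_neg hdiv]
    have hζp : ζ ^ p = 1 := by
      rw [hζ, ← Complex.exp_nat_mul]
      have e : (p : ℂ) * (-((2 * Real.pi * m / p : ℝ) : ℂ) * I) =
          (2 * Real.pi * ((-m : ℤ) : ℝ) : ℝ) * I := by
        push_cast
        field_simp
      rw [e, f1_A9_exp_int]
    have hζ1 : ζ ≠ 1 := by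
      intro h
      apply hdiv
      rw [hζ, Complex.exp_eq_one_iff] at h
      obtain ⟨n, hn⟩ := h
      refine ⟨-n, ?_⟩
      have h5 : (m : ℂ) = p * (-n : ℂ) := by
        have h6 : (2 * Real.pi * I : ℂ) ≠ 0 := Complex.two_pi_I_ne_zero
        push_cast at hn
        have h7 : (2 * Real.pi * I : ℂ) * (m : ℂ) = (2 * Real.pi * I : ℂ) * (p * (-n : ℂ)) := by
          field_simp at hn
          linear_combination (-(2 * Real.pi * I) : ℂ) * hn
        exact mul_left_cancel₀ h6 h7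
      exact_mod_cast h5
    have h5 : ∑ i ∈ Finset.range p, ζ ^ i = 0 := by
      have h6 := geom_sum_mul ζ p
      rw [hζp, sub_self] at h6
      rcases mul_eq_zero.1 h6 with h7 | h7
      · exact h7
      · exact absurd (sub_eq_zero.1 h7) hζ1
    rw [h5, zero_mul, smul_zero]

theorem hecke_rel1_pr {P p : ℕ} (hP : 0 < P) (hp : p.Prime) {ν : ℂ} (hν : ν.re = 0) {β : ℤ → ℂ}
    {F : ℍ → ℂ} (hβ : Expn1 P ν β F) {e lam : ℂ}
    (hT : ∀ x y : ℝ, 0 < y → ((√(p : ℝ) : ℝ) : ℂ)⁻¹ *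
      (∑ b ∈ Finset.range p, F (pz ((x + P * b) / p) (y / p)) + e * F (pz (p * x) (p * y))) =
        lam * F (pz x y)) (m : ℤ) :
    β (p * m) = ((√(p : ℝ) : ℝ) : ℂ)⁻¹ *
      (lam * β m - ((√(p : ℝ) : ℝ) : ℂ)⁻¹ * e * (if (p : ℤ) ∣ m then β (m / p) else 0)) := by
  have hp0 : 0 < p := hp.pos
  have hpr : (0 : ℝ) < p := by exact_mod_cast hp0
  have hPr : (0 : ℝ) < P := by exact_mod_cast hP
  have hPc : (P : ℂ) ≠ 0 := by exact_mod_cast hP.ne'
  have hs : (0 : ℝ) < √(p : ℝ) := Real.sqrt_pos.2 hpr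
  have hsc : ((√(p : ℝ) : ℝ) : ℂ) ≠ 0 := by exact_mod_cast hs.ne'
  have hss : ((√(p : ℝ) : ℝ) : ℂ) * ((√(p : ℝ) : ℝ) : ℂ) = p := by
    rw [← ofReal_mul, Real.mul_self_sqrt hpr.le, ofReal_natCast]
  by_cases hm : m = 0
  · subst hm
    rw [mul_zero, if_pos (dvd_zero _), Int.zero_ediv, hβ.zero]
    ring
  -- a point at which the Whittaker function does not vanish
  obtain ⟨x₀, hx₀, hW⟩ := f1_A9_low hν m
  have hmr : 0 < |(m : ℝ)| := abs_pos.2 (by exact_mod_cast hm)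
  have hpi := Real.pi_pos
  obtain ⟨y, hy, hyx⟩ : ∃ y : ℝ, 0 < y ∧ 2 * Real.pi * |(m : ℝ)| * y / P = x₀ := by
    refine ⟨x₀ * P / (2 * Real.pi * |(m : ℝ)|), ?_, ?_⟩
    · positivity
    · field_simp
  have hW0 : Wz ν m (2 * Real.pi * |(m : ℝ)| * y / P) ≠ 0 := by
    rw [hyx]
    exact hW
  set w : ℂ := Wz ν m (2 * Real.pi * |(m : ℝ)| * y / P) with hw
  have hyp : 0 < y / p := div_pos hy hpr
  have hpy : 0 < p * y := mul_pos hpr hy
  -- the coefficients
  have hA : (((P : ℝ)⁻¹ : ℝ) : ℂ) * ∫ x in (0 : ℝ)..P, F (pz x y) * f1_A9_e P m x = β m * w := by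
    rw [← f1_A9_fc, expn1_fc hP hν hβ m hy]
  have hB : (((P : ℝ)⁻¹ : ℝ) : ℂ) * ∫ x in (0 : ℝ)..P, F (pz x (y / p)) * f1_A9_e P (p * m) x =
      β (p * m) * w := by
    rw [← f1_A9_fc, expn1_fc hP hν hβ (p * m) hyp, hw, f1_A9_Wz hp0]
    congr 2
    have e1 : |(((p : ℤ) * m : ℤ) : ℝ)| = p * |(m : ℝ)| := by
      push_cast
      rw [abs_mul, abs_of_pos hpr]
    rw [e1]
    field_simp
  have hC : (((P : ℝ)⁻¹ : ℝ) : ℂ) * (if (p : ℤ) ∣ m then
      ∫ x in (0 : ℝ)..P, F (pz x (p * y)) * f1_A9_e P (m / p) x else 0) =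
      (if (p : ℤ) ∣ m then β (m / p) else 0) * w := by
    by_cases hdiv : (p : ℤ) ∣ m
    · rw [if_pos hdiv, if_pos hdiv, ← f1_A9_fc, expn1_fc hP hν hβ (m / p) hpy, hw]
      obtain ⟨j, rfl⟩ := hdiv
      have hpz : (p : ℤ) ≠ 0 := by exact_mod_cast hp0.ne'
      rw [Int.mul_ediv_cancel_left _ hpz, f1_A9_Wz hp0]
      congr 2
      have e1 : |(((p : ℤ) * j : ℤ) : ℝ)| = p * |(j : ℝ)| := by
        push_cast
        rw [abs_mul, abs_of_pos hpr]
      rw [e1]
      ring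
    · rw [if_neg hdiv, if_neg hdiv, mul_zero, zero_mul]
  -- integrate the relation
  have hcF : ∀ η : ℝ, 0 < η → Continuous (fun x : ℝ => F (pz x η)) := fun η hη => f1_A9_cont hβ hη
  have hint : (∑ b ∈ Finset.range p, ∫ x in (0 : ℝ)..P, F (pz ((x + P * b) / p) (y / p)) *
      f1_A9_e P m x) + e * ∫ x in (0 : ℝ)..P, F (pz (p * x) (p * y)) * f1_A9_e P m x =
        ((√(p : ℝ) : ℝ) : ℂ) * (lam * ∫ x in (0 : ℝ)..P, F (pz x y) * f1_A9_e P m x) := by
    have c1 : ∀ b : ℕ, Continuous (fun x : ℝ => F (pz ((x + P * b) / p) (y / p)) * f1_A9_e P m x) :=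
      fun b => ((hcF _ hyp).comp (by fun_prop : Continuous fun x : ℝ => (x + P * b) / p)).mul
        (f1_A9_e_cont _ _)
    have c2 : Continuous (fun x : ℝ => F (pz (p * x) (p * y)) * f1_A9_e P m x) :=
      ((hcF _ hpy).comp (by fun_prop : Continuous fun x : ℝ => (p : ℝ) * x)).mul (f1_A9_e_cont _ _)
    have c3 : Continuous (fun x : ℝ => e * (F (pz (p * x) (p * y)) * f1_A9_e P m x)) :=
      c2.const_mul _
    have c4 : Continuous (fun x : ℝ => ∑ b ∈ Finset.range p,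
        F (pz ((x + P * b) / p) (y / p)) * f1_A9_e P m x) :=
      continuous_finsetSum _ fun b _ => c1 b
    rw [← intervalIntegral.integral_finsetSum (fun b _ => (c1 b).intervalIntegrable _ _),
      ← intervalIntegral.integral_const_mul, ← intervalIntegral.integral_const_mul,
      ← intervalIntegral.integral_const_mul,
      ← intervalIntegral.integral_add (c4.intervalIntegrable _ _) (c3.intervalIntegrable _ _)]
    refine intervalIntegral.integral_congr fun x _ => ?_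
    have h1 := hT x y hy
    rw [← Finset.sum_mul]
    have h2 : (∑ b ∈ Finset.range p, F (pz ((x + P * b) / p) (y / p)) +
        e * F (pz (p * x) (p * y))) = ((√(p : ℝ) : ℝ) : ℂ) * (lam * F (pz x y)) := by
      rw [← h1, mul_inv_cancel_left₀ hsc]
    linear_combination (f1_A9_e P m x) * h2
  rw [f1_A9_first hP hp0 hβ m hyp, f1_A9_second hP hp0 hβ m hpy] at hint
  have hfin : (p : ℂ) * (β (p * m) * w) + e * ((if (p : ℤ) ∣ m then β (m / p) else 0) * w) =
      ((√(p : ℝ) : ℝ) : ℂ) * (lam * (β m * w)) := by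
    rw [← hA, ← hB, ← hC]
    linear_combination (((P : ℝ)⁻¹ : ℝ) : ℂ) * hint
  have hfin2 : (p : ℂ) * β (p * m) + e * (if (p : ℤ) ∣ m then β (m / p) else 0) =
      ((√(p : ℝ) : ℝ) : ℂ) * (lam * β m) := by
    refine mul_right_cancel₀ hW0 ?_
    linear_combination hfin
  rw [← hss] at hfin2
  field_simp
  linear_combination hfin2

end Pool.Agent.JO.FM1

namespace Pool.Agent.JO.FM1

theorem hecke_rel1 : type_of% @hecke_rel1_pr := @hecke_rel1_pr

end Pool.Agent.JO.FM1
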