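import Pool.Agent.Lib_helper42.JO1.Defs
import Pool.Agent.Lib_helper45.JO.Defs2
import Pool.Agent.Lib_helper42.JO1F.A10
import Pool.Agent.Lib_helper42.JO1F.A9
import Pool.Agent.Lib_helper42.JO1F.K4

/-!
-/

set_option autoImplicit false

namespace Pool.Agent.JO.FM1

open Complex Filter Topology MeasureTheory Set
open UpperHalfPlane hiding I
open Pool.Agent.JO.FM
open scoped MatrixGroups ComplexConjugate ModularForm

/-- the holomorphic function -/
noncomputable def f1_A15_g (c : ℂ) (u : ℍ → ℂ) (z : ℍ) : ℂ :=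
  (2 * Real.pi * c)⁻¹ * (((√z.im : ℝ) : ℂ)⁻¹ * u z)

theorem f1_A15_pz (z : ℍ) : pz z.re z.im = z := by
  unfold pz
  have h1 : ((z.re : ℂ) + z.im * I) = (z : ℂ) := Complex.re_add_im (z : ℂ)
  rw [h1, ofComplex_apply]

theorem f1_A15_term {c : ℂ} (a : ℕ → ℂ) (n : ℕ) {x y : ℝ} (hy : 0 < y) :
    (if (0 : ℤ) < ((n : ℤ) + 1) then c * a ((n : ℤ) + 1).natAbs *
        ((√(((n : ℤ) + 1).natAbs : ℝ) : ℝ) : ℂ)⁻¹ else 0) *
      Wz 0 ((n : ℤ) + 1) (2 * Real.pi * |(((n : ℤ) + 1 : ℤ) : ℝ)| * y / (1 : ℕ)) *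
      cexp ((2 * Real.pi * (((n : ℤ) + 1 : ℤ) : ℝ) * x / (1 : ℕ) : ℝ) * I) =
    (2 * Real.pi * c) * ((√y : ℝ) : ℂ) *
      (a (n + 1) * cexp (2 * (Real.pi : ℂ) * I * ((n : ℂ) + 1) * ((x : ℂ) + y * I))) := by
  have h0 : (0 : ℤ) < (n : ℤ) + 1 := by positivity
  have h1 : ((n : ℤ) + 1).natAbs = n + 1 := by omega
  have hn : (0 : ℝ) < (n : ℝ) + 1 := by positivity
  have h2 : |(((n : ℤ) + 1 : ℤ) : ℝ)| = (n : ℝ) + 1 := by
    push_cast
    exact abs_of_pos hn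
  have hp : 0 < Real.pi := Real.pi_pos
  rw [if_pos h0, h1, h2]
  unfold Wz
  rw [if_pos h0]
  have h3 : 2 * Real.pi * ((n : ℝ) + 1) * y / ((1 : ℕ) : ℝ) = 2 * Real.pi * ((n : ℝ) + 1) * y := by
    simp
  rw [h3, Wp_zero (by positivity)]
  have h4 : √(2 * Real.pi * (2 * Real.pi * ((n : ℝ) + 1) * y)) =
      2 * Real.pi * √((n : ℝ) + 1) * √y := by
    have h5 : 2 * Real.pi * (2 * Real.pi * ((n : ℝ) + 1) * y) =
        (2 * Real.pi) ^ 2 * (((n : ℝ) + 1) * y) := by ring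
    rw [h5, Real.sqrt_mul (by positivity), Real.sqrt_sq (by positivity),
      Real.sqrt_mul hn.le]
    ring
  rw [h4]
  have h6 : ((n + 1 : ℕ) : ℝ) = (n : ℝ) + 1 := by push_cast; ring
  rw [h6]
  have h7 : cexp (2 * (Real.pi : ℂ) * I * ((n : ℂ) + 1) * ((x : ℂ) + y * I)) =
      ((Real.exp (-(2 * Real.pi * ((n : ℝ) + 1) * y)) : ℝ) : ℂ) *
        cexp ((2 * Real.pi * (((n : ℤ) + 1 : ℤ) : ℝ) * x / (1 : ℕ) : ℝ) * I) := by
    rw [Complex.ofReal_exp, ← Complex.exp_add]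
    congr 1
    push_cast
    have hI : I * I = -1 := Complex.I_mul_I
    linear_combination (2 * (Real.pi : ℂ) * ((n : ℂ) + 1) * y) * hI
  rw [h7]
  have h8 : ((√((n : ℝ) + 1) : ℝ) : ℂ) ≠ 0 := by
    rw [Complex.ofReal_ne_zero]
    exact (Real.sqrt_pos.2 hn).ne'
  push_cast
  field_simp

theorem f1_A15_hasSum {c : ℂ} (hc : c ≠ 0) {u : ℍ → ℂ} {a : ℕ → ℂ}
    (hE : Expn1 1 0 (fun m => if 0 < m then c * a m.natAbs * ((√(m.natAbs : ℝ) : ℝ) : ℂ)⁻¹
      else 0) u) (z : ℍ) :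
    HasSum (fun n : ℕ => a (n + 1) * cexp (2 * (Real.pi : ℂ) * I * ((n : ℂ) + 1) * (z : ℂ)))
      (f1_A15_g c u z) := by
  have h1 := hE.hasSum z.re z.im z.im_pos
  rw [f1_A15_pz] at h1
  have hinj : Function.Injective (fun n : ℕ => (n : ℤ) + 1) := by
    intro p q h
    simp only at h
    omega
  rw [← hinj.hasSum_iff] at h1
  · have h2 : ((2 * Real.pi * c) * ((√z.im : ℝ) : ℂ)) ≠ 0 := by
      apply mul_ne_zero
      · exact mul_ne_zero (by exact_mod_cast (by positivity : (2 * Real.pi : ℝ) ≠ 0)) hc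
      · rw [Complex.ofReal_ne_zero]
        exact (Real.sqrt_pos.2 z.im_pos).ne'
    have h3 := h1.mul_left ((2 * Real.pi * c) * ((√z.im : ℝ) : ℂ))⁻¹
    have h4 : ((2 * Real.pi * c) * ((√z.im : ℝ) : ℂ))⁻¹ * u z = f1_A15_g c u z := by
      unfold f1_A15_g
      rw [mul_inv, mul_assoc]
    rw [h4] at h3
    refine (Eq.mpr (congrArg (fun F => HasSum F (f1_A15_g c u z)) (funext fun n => ?_)) h3)
    have h5 := f1_A15_term (c := c) a n (x := z.re) z.im_pos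
    have h6 : ((z.re : ℂ) + z.im * I) = (z : ℂ) := Complex.re_add_im (z : ℂ)
    rw [h6] at h5
    refine Eq.trans ?_ (congrArg (fun w => ((2 * Real.pi * c) * ((√z.im : ℝ) : ℂ))⁻¹ * w) h5).symm
    rw [← mul_assoc, inv_mul_cancel₀ h2, one_mul]
  · intro m hm
    have h2 : ¬ 0 < m := by
      intro h
      exact hm ⟨(m - 1).toNat, by simp only; omega⟩
    rw [if_neg h2, zero_mul, zero_mul]

theorem f1_A15_diff {c : ℂ} (hc : c ≠ 0) {u : ℍ → ℂ} {a : ℕ → ℂ}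
    (hE : Expn1 1 0 (fun m => if 0 < m then c * a m.natAbs * ((√(m.natAbs : ℝ) : ℝ) : ℂ)⁻¹
      else 0) u) :
    DifferentiableOn ℂ (fun z : ℂ => f1_A15_g c u (ofComplex z)) {z | 0 < z.im} := by
  have key : ∀ z ∈ {z : ℂ | 0 < z.im}, f1_A15_g c u (ofComplex z) =
      ∑' n : ℕ, a (n + 1) * cexp (2 * (Real.pi : ℂ) * I * ((n : ℂ) + 1) * z) := by
    intro z hz
    have h1 := (f1_A15_hasSum hc hE (ofComplex z)).tsum_eq
    rw [← h1, ofComplex_apply_of_im_pos hz]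
  refine DifferentiableOn.congr ?_ key
  intro z₀ hz₀
  apply DifferentiableAt.differentiableWithinAt
  have hz₀' : 0 < z₀.im := hz₀
  set y₀ : ℝ := z₀.im / 2 with hy₀
  have hy : 0 < y₀ := by positivity
  have hopen : IsOpen {z : ℂ | y₀ < z.im} := isOpen_lt continuous_const Complex.continuous_im
  have hsum : Summable (fun n : ℕ => ‖a (n + 1)‖ * Real.exp (-(2 * Real.pi * ((n : ℝ) + 1) * y₀))) := by
    have h1 := (f1_A15_hasSum hc hE (⟨y₀ * I, by simpa using hy⟩ : ℍ)).summable.norm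
    refine h1.congr fun n => ?_
    rw [norm_mul, Complex.norm_exp]
    congr 2
    simp [mul_assoc]
  have h2 := differentiableOn_tsum_of_summable_norm hsum
    (F := fun (n : ℕ) (z : ℂ) => a (n + 1) * cexp (2 * (Real.pi : ℂ) * I * ((n : ℂ) + 1) * z))
    (U := {z : ℂ | y₀ < z.im})
    (fun n => by fun_prop)
    hopen
    (fun n w hw => by
      rw [norm_mul, Complex.norm_exp]
      apply mul_le_mul_of_nonneg_left _ (norm_nonneg _)
      apply Real.exp_le_exp.2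
      have h3 : (2 * (Real.pi : ℂ) * I * ((n : ℂ) + 1) * w).re =
          -(2 * Real.pi * ((n : ℝ) + 1) * w.im) := by
        simp [mul_assoc]
      rw [h3]
      have h4 : y₀ ≤ w.im := le_of_lt hw
      have h5 : 0 ≤ 2 * Real.pi * ((n : ℝ) + 1) := by positivity
      have h6 := mul_le_mul_of_nonneg_left h4 h5
      linarith)
  exact (h2 z₀ (by simp only [Set.mem_ofPred_eq]; rw [hy₀]; linarith)).differentiableAt
    (hopen.mem_nhds (by simp only [Set.mem_ofPred_eq]; rw [hy₀]; linarith))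

theorem f1_A15_im (γ : SL(2, ℤ)) (z : ℍ) :
    √(γ • z).im = √z.im / ‖denom γ z‖ := by
  rw [ModularGroup.im_smul_eq_div_normSq, Real.sqrt_div z.im_pos.le, Complex.normSq_eq_norm_sq,
    Real.sqrt_sq (norm_nonneg _)]

theorem f1_A15_aut {N : ℕ} [NeZero N] {χ : DirichletCharacter ℂ N} {u : ℍ → ℂ} {a : ℕ → ℂ}
    (h : WForm N χ 1 a u) (c : ℂ) (γ : SL(2, ℤ)) (hγ : (N : ℤ) ∣ γ 1 0) (z : ℍ) :
    f1_A15_g c u (γ • z) = χ ((γ 1 1 : ℤ) : ZMod N) * (denom γ z) ^ 1 * f1_A15_g c u z := by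
  unfold f1_A15_g
  rw [h.aut γ hγ z, f1_A15_im, pow_one, pow_one]
  have h1 : ((‖denom γ z‖ : ℝ) : ℂ) ≠ 0 := by
    rw [Complex.ofReal_ne_zero, norm_ne_zero_iff]
    exact denom_ne_zero _ z
  have h2 : ((√z.im : ℝ) : ℂ) ≠ 0 := by
    rw [Complex.ofReal_ne_zero]
    exact (Real.sqrt_pos.2 z.im_pos).ne'
  push_cast
  field_simp

theorem f1_A15_zero {N : ℕ} [NeZero N] {χ : DirichletCharacter ℂ N} {u : ℍ → ℂ} {a : ℕ → ℂ}
    (h : WForm N χ 1 a u) (c : ℂ) (γ : SL(2, ℤ)) :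
    IsZeroAtImInfty (fun z : ℍ => f1_A15_g c u (γ • z) * denom γ z ^ (-(((1 : ℕ) : ℤ)))) := by
  obtain ⟨C, k, hk, hb⟩ := h.decay
  rw [isZeroAtImInfty_iff]
  intro ε hε
  have hC : 0 ≤ C := by
    have h1 := hb 1 UpperHalfPlane.I (by rw [UpperHalfPlane.I_im]; norm_num)
    by_contra hC
    push Not at hC
    have h2 : C * Real.exp (-k * (UpperHalfPlane.I).im) < 0 :=
      mul_neg_of_neg_of_pos hC (Real.exp_pos _)
    linarith [norm_nonneg (u ((1 : SL(2, ℤ)) • (UpperHalfPlane.I : ℍ)))]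
  set K : ℝ := ‖(2 * Real.pi * c)⁻¹‖ * 2 * C + 1 with hK
  have hKpos : 0 < K := by positivity
  refine ⟨max 1 (Real.log (K / ε) / k), fun z hz => ?_⟩
  have hz1 : 1 ≤ z.im := le_trans (le_max_left _ _) hz
  have hz2 : Real.log (K / ε) / k ≤ z.im := le_trans (le_max_right _ _) hz
  have h1 := hb γ z (by linarith)
  have h2 : ‖f1_A15_g c u (γ • z) * denom γ z ^ (-(((1 : ℕ) : ℤ)))‖ =
      ‖(2 * Real.pi * c)⁻¹‖ * (√z.im)⁻¹ * ‖u (γ • z)‖ := by
    unfold f1_A15_g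
    rw [f1_A15_im]
    have hj : ‖denom γ z‖ ≠ 0 := norm_ne_zero_iff.2 (denom_ne_zero _ z)
    have hs : √z.im ≠ 0 := (Real.sqrt_pos.2 z.im_pos).ne'
    rw [norm_mul, norm_mul, norm_mul, norm_zpow, norm_inv ((_ : ℝ) : ℂ), Complex.norm_real,
      Real.norm_of_nonneg (by positivity)]
    simp only [Nat.cast_one, zpow_neg, zpow_one]
    field_simp
  rw [h2]
  have hsq : (√z.im)⁻¹ ≤ 1 := by
    apply inv_le_one_of_one_le₀
    rw [Real.one_le_sqrt]
    exact hz1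
  have h3 : Real.exp (-k * z.im) ≤ ε / K := by
    have h4 : Real.log (K / ε) ≤ k * z.im := by
      rw [div_le_iff₀ hk] at hz2
      linarith
    have h5 : Real.exp (-k * z.im) ≤ Real.exp (-Real.log (K / ε)) := by
      apply Real.exp_le_exp.2
      linarith
    rw [Real.exp_neg, Real.exp_log (by positivity), inv_div] at h5
    exact h5
  calc ‖(2 * Real.pi * c)⁻¹‖ * (√z.im)⁻¹ * ‖u (γ • z)‖
      ≤ ‖(2 * Real.pi * c)⁻¹‖ * 1 * (C * Real.exp (-k * z.im)) := by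
        apply mul_le_mul _ h1 (norm_nonneg _) (by positivity)
        exact mul_le_mul_of_nonneg_left hsq (norm_nonneg _)
    _ = (‖(2 * Real.pi * c)⁻¹‖ * C) * Real.exp (-k * z.im) := by ring
    _ ≤ K * Real.exp (-k * z.im) := by
        apply mul_le_mul_of_nonneg_right _ (Real.exp_pos _).le
        rw [hK]
        have h6 : 0 ≤ ‖(2 * Real.pi * c)⁻¹‖ * C := by positivity
        linarith
    _ ≤ K * (ε / K) := mul_le_mul_of_nonneg_left h3 hKpos.le
    _ = ε := by field_simp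

theorem f1_A15_hecke {N : ℕ} [NeZero N] {χ : DirichletCharacter ℂ N} {u : ℍ → ℂ} {a : ℕ → ℂ}
    (h : WForm N χ 1 a u) {c : ℂ} (hc : c ≠ 0) (h1 : a 1 = 1)
    (hE : Expn1 1 0 (fun m => if 0 < m then c * a m.natAbs * ((√(m.natAbs : ℝ) : ℝ) : ℂ)⁻¹
      else 0) u) : HeckeRelations N χ a where
  one := h1
  mul := by
    intro p hp hpN n hn
    have h2 := hecke_rel1 (P := 1) one_pos hp (by simp) hE
      (e := χ (p : ZMod N)) (lam := a p)
      (fun x y hy => hecke_one1 h hp hpN x y hy) (n : ℤ)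
    have hp0 : 0 < p := hp.pos
    have hn0 : (0 : ℤ) < (n : ℤ) := by exact_mod_cast hn
    have hpn0 : (0 : ℤ) < (p : ℤ) * n := by positivity
    rw [if_pos hpn0, if_pos hn0] at h2
    have h3 : ((p : ℤ) * n).natAbs = p * n := by
      rw [Int.natAbs_mul]; simp
    have h4 : ((n : ℤ)).natAbs = n := by simp
    rw [h3, h4] at h2
    have hsp : (0 : ℝ) < √(p : ℝ) := Real.sqrt_pos.2 (by exact_mod_cast hp0)
    have hsn : (0 : ℝ) < √(n : ℝ) := Real.sqrt_pos.2 (by exact_mod_cast hn)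
    have h5 : √((p * n : ℕ) : ℝ) = √(p : ℝ) * √(n : ℝ) := by
      rw [Nat.cast_mul, Real.sqrt_mul (by positivity)]
    rw [h5] at h2
    have hsp' : ((√(p : ℝ) : ℝ) : ℂ) ≠ 0 := by exact_mod_cast hsp.ne'
    have hsn' : ((√(n : ℝ) : ℝ) : ℂ) ≠ 0 := by exact_mod_cast hsn.ne'
    by_cases hd : p ∣ n
    · obtain ⟨q, rfl⟩ := hd
      have hq : 0 < q := by
        rcases Nat.eq_zero_or_pos q with h6 | h6
        · rw [h6] at hn; simp at hn
        · exact h6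
      have hd' : (p : ℤ) ∣ ((p * q : ℕ) : ℤ) := ⟨q, by push_cast; ring⟩
      rw [if_pos hd'] at h2
      have h6 : ((p * q : ℕ) : ℤ) / (p : ℤ) = (q : ℤ) := by
        push_cast
        exact Int.mul_ediv_cancel_left _ (by exact_mod_cast hp0.ne')
      rw [h6, if_pos (by exact_mod_cast hq)] at h2
      have h7 : ((q : ℤ)).natAbs = q := by simp
      rw [h7] at h2
      rw [if_pos (Dvd.intro q rfl), Nat.mul_div_cancel_left q hp0]
      have h8 : √((p * q : ℕ) : ℝ) = √(p : ℝ) * √(q : ℝ) := by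
        rw [Nat.cast_mul, Real.sqrt_mul (by positivity)]
      rw [h8] at h2
      have hsq : (0 : ℝ) < √(q : ℝ) := Real.sqrt_pos.2 (by exact_mod_cast hq)
      have hsq' : ((√(q : ℝ) : ℝ) : ℂ) ≠ 0 := by exact_mod_cast hsq.ne'
      push_cast at h2
      field_simp at h2
      rw [mul_comm (p * q) p]
      linear_combination (-1 : ℂ) * h2
    · have hd' : ¬ (p : ℤ) ∣ (n : ℤ) := by
        intro h6
        exact hd (by exact_mod_cast h6)
      rw [if_neg hd'] at h2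
      rw [if_neg hd]
      push_cast at h2
      field_simp at h2
      rw [mul_comm n p]
      have h9 : (c * ((√(p : ℝ) : ℝ) : ℂ)) * (a (p * n) - a p * a n) = 0 := by
        linear_combination h2
      have h10 := (mul_eq_zero.1 h9).resolve_left (mul_ne_zero hc hsp')
      linear_combination (-1 : ℂ) * h10

/-- A15: only positive frequencies and `ν = 0`: a holomorphic form of weight `1` -/
theorem hol_of_pos_pr {N : ℕ} [NeZero N] {χ : DirichletCharacter ℂ N} {u : ℍ → ℂ} {a : ℕ → ℂ}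
    (h : WForm N χ 1 a u) {c : ℂ} (hc : c ≠ 0) (h1 : a 1 = 1)
    (hE : Expn1 1 0 (fun m => if 0 < m then c * a m.natAbs * ((√(m.natAbs : ℝ) : ℝ) : ℂ)⁻¹
      else 0) u) :
    ∃ g : CuspForm (CongruenceSubgroup.Gamma1 N) ((1 : ℕ) : ℤ), IsHolEigenform N 1 χ g a := by
  refine ⟨⟨⟨f1_A15_g c u, ?_⟩, ?_, ?_⟩, ?_⟩
  · intro γ hγ
    obtain ⟨γ', hγ', rfl⟩ := hγ
    rw [SetLike.mem_coe, CongruenceSubgroup.Gamma1_mem] at hγ'
    funext z
    have h2 := ModularForm.SL_slash_apply (f := f1_A15_g c u) (k := ((1 : ℕ) : ℤ)) γ' z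
    refine Eq.trans h2 ?_
    rw [f1_A15_aut h c γ' ((ZMod.intCast_zmod_eq_zero_iff_dvd _ _).1 hγ'.2.2) z, hγ'.2.1,
      map_one, one_mul, pow_one, Nat.cast_one, zpow_neg, zpow_one]
    have h3 : denom γ' z ≠ 0 := denom_ne_zero _ z
    field_simp
  · rw [UpperHalfPlane.mdifferentiable_iff]
    exact f1_A15_diff hc hE
  · intro c' hc'
    rw [Subgroup.IsArithmetic.isCusp_iff_isCusp_SL2Z] at hc'
    rw [OnePoint.isZeroAt_iff_forall_SL2Z hc']
    intro γ _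
    have h2 := f1_A15_zero h c γ
    have h3 : (f1_A15_g c u) ∣[((1 : ℕ) : ℤ)] γ =
        fun z : ℍ => f1_A15_g c u (γ • z) * denom γ z ^ (-(((1 : ℕ) : ℤ))) := by
      funext z
      exact ModularForm.SL_slash_apply (f := f1_A15_g c u) (k := ((1 : ℕ) : ℤ)) γ z
    exact h3 ▸ h2
  · refine ⟨?_, ?_, f1_A15_hecke h hc h1 hE⟩
    · intro z
      refine (Eq.mpr (congrArg (fun F => HasSum F (f1_A15_g c u z)) (funext fun n => ?_)) (f1_A15_hasSum hc hE z))
      have h2 : ((((n : ℝ) + 1) ^ ((((1 : ℕ) : ℝ) - 1) / 2) : ℝ) : ℂ) = 1 := by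
        simp
      rw [h2, mul_one]
    · intro γ hγ z
      exact f1_A15_aut h c γ hγ z

end Pool.Agent.JO.FM1

namespace Pool.Agent.JO.FM1

theorem hol_of_pos : type_of% @hol_of_pos_pr := @hol_of_pos_pr

end Pool.Agent.JO.FM1
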