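import Pool.Agent.Lib_helper42.JO1.Defs
import Pool.Agent.Lib_helper45.JO.Defs2
import Pool.Agent.Lib_helper42.JO1F.A11
import Pool.Agent.Lib_helper42.JO1F.A12
import Pool.Agent.Lib_helper42.JO1F.A15
import Pool.Agent.Lib_helper42.JO1F.A4
import Pool.Agent.Lib_helper42.JO1F.A7
import Pool.Agent.Lib_helper42.JO1F.A8
import Pool.Agent.Lib_helper45.JOM.A2
import Pool.Agent.Lib_helper45.JOM.A3

/-!
-/

set_option autoImplicit false

namespace Pool.Agent.JO.FM1

open Complex Filter Topology MeasureTheory Set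
open UpperHalfPlane hiding I
open Pool.Agent.JO.FM
open scoped MatrixGroups ComplexConjugate

theorem f1_A16_cont {f : ℍ → ℂ}
    (hf : ContDiffOn ℝ 2 (fun z : ℂ => f (ofComplex z)) {z | 0 < z.im}) : Continuous f := by
  have h1 := hf.continuousOn.comp_continuous UpperHalfPlane.continuous_coe
    (fun z : ℍ => z.im_pos)
  have h2 : (fun z : ℍ => f (ofComplex (z : ℂ))) = f := by
    funext z
    rw [ofComplex_apply]
  rw [← h2]
  exact h1

theorem f1_A16_fin (hHol : HolStatement) {N : ℕ} [NeZero N] {χ : DirichletCharacter ℂ N}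
    {u : ℍ → ℂ} {a : ℕ → ℂ} (h : WForm N χ 1 a u) {c : ℂ} (hc : c ≠ 0) (h1 : a 1 = 1)
    {β : ℤ → ℂ} (hβ : β = (fun m => if 0 < m then c * a m.natAbs *
      ((√(m.natAbs : ℝ) : ℝ) : ℂ)⁻¹ else 0)) (hE : Expn1 1 0 β u) : OmegaConclusion a := by
  rw [hβ] at hE
  obtain ⟨g, hg⟩ := hol_of_pos h hc h1 hE
  exact hHol N χ 1 g a le_rfl hg

/-- A16: the eigenvalue `1/4` -/
theorem quarter_pr (hHol : HolStatement) {N : ℕ} [NeZero N] {χ : DirichletCharacter ℂ N}
    {f : ℍ → ℂ} {a : ℕ → ℂ} (h : IsHeckeMaass N χ 1 (1 / 4) f a) : OmegaConclusion a := by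
  have hν : (0 : ℂ).re = 0 := rfl
  have hev : (0 : ℂ) ^ 2 = 1 / 4 - ((1 / 4 : ℝ) : ℂ) := by
    push_cast
    ring
  obtain ⟨β, hβ⟩ := expn1_of_perEig one_pos hν hev (perEig_one h.toIsMaassForm)
    (maass_bdd h.toIsMaassForm)
  obtain ⟨ha1, hco⟩ := hecke_coeff1 h hν hβ
  by_cases hm : β (-1) = 0
  · have hb1 : β 1 ≠ 0 := by
      intro hb1
      obtain ⟨z, hz⟩ := h.ne_zero
      apply hz
      have h0 : β = 0 := by
        funext m
        rcases lt_trichotomy m 0 with h1 | h1 | h1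
        · obtain ⟨n, hn⟩ : ∃ n : ℕ, m = -(n : ℤ) := ⟨m.natAbs, by omega⟩
          have hn0 : 0 < n := by omega
          rw [hn, (hco n hn0).2, hm, mul_zero]
          rfl
        · rw [h1, hβ.zero]
          rfl
        · obtain ⟨n, hn⟩ : ∃ n : ℕ, m = (n : ℤ) := ⟨m.natAbs, by omega⟩
          have hn0 : 0 < n := by omega
          rw [hn, (hco n hn0).1, hb1, mul_zero]
          rfl
      have h1 := hβ.hasSum z.re z.im z.im_pos
      have h2 : pz z.re z.im = z := by
        unfold pz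
        have h3 : ((z.re : ℂ) + z.im * I) = (z : ℂ) := Complex.re_add_im (z : ℂ)
        rw [h3, ofComplex_apply]
      rw [h2, h0] at h1
      simp only [Pi.zero_apply, zero_mul] at h1
      exact h1.unique hasSum_zero
    have hW : WForm N χ 1 a f := wform_cusp1 hν (f1_A16_cont h.smooth) h.automorphic
      (maass_cusp1 h.toIsMaassForm hν hev) (fun p hp _ z => h.hecke p hp.pos z)
    refine f1_A16_fin hHol hW hb1 ha1 (β := β) ?_ hβ
    funext m
    by_cases h1 : 0 < m
    · rw [if_pos h1]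
      obtain ⟨n, hn⟩ : ∃ n : ℕ, m = (n : ℤ) := ⟨m.natAbs, by omega⟩
      have hn0 : 0 < n := by omega
      rw [hn, (hco n hn0).1, Int.natAbs_natCast]
      ring
    · rw [if_neg h1]
      rcases eq_or_ne m 0 with h2 | h2
      · rw [h2, hβ.zero]
      · obtain ⟨n, hn⟩ : ∃ n : ℕ, m = -(n : ℤ) := ⟨m.natAbs, by omega⟩
        have hn0 : 0 < n := by omega
        rw [hn, (hco n hn0).2, hm, mul_zero]
  · have hW := (wform_Q h hν hev).2
    have hE := Qo_expn one_pos hν hβ
    refine f1_A16_fin hHol hW hm ha1 ?_ hE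
    funext m
    by_cases h1 : 0 < m
    · rw [if_pos h1, if_pos h1]
      obtain ⟨n, hn⟩ : ∃ n : ℕ, m = (n : ℤ) := ⟨m.natAbs, by omega⟩
      have hn0 : 0 < n := by omega
      rw [hn, (hco n hn0).2, Int.natAbs_natCast]
      ring
    · rw [if_neg h1, if_neg h1]
      simp

end Pool.Agent.JO.FM1

namespace Pool.Agent.JO.FM1

theorem quarter : type_of% @quarter_pr := @quarter_pr

end Pool.Agent.JO.FM1
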