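import Pool.Agent.Lib_helper42.JO1.Defs
import Pool.Agent.Lib_helper45.JO.Defs2

set_option autoImplicit false

namespace Pool.Agent.JO.FM1

open Complex Filter Topology MeasureTheory Set
open UpperHalfPlane hiding I
open Pool.Agent.JO.FM
open scoped MatrixGroups ComplexConjugate

/-! block M2, weight 1 (helper35, after the weight 0 block M2) -/

theorem f1_M2_int_exp {c : ℝ} (hc : 0 < c) : Integrable (fun u : ℝ => Real.exp (-(c * |u|))) := by
  have h1 : IntegrableOn (fun u : ℝ => Real.exp (-(c * |u|))) (Ioi 0) := by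
    have h := integrableOn_exp_mul_Ioi (a := -c) (by linarith) 0
    refine h.congr_fun (fun u hu => ?_) measurableSet_Ioi
    have hu' : 0 < u := hu
    simp only [abs_of_pos hu']
    ring_nf
  have h2 : IntegrableOn (fun u : ℝ => Real.exp (-(c * |u|))) (Iic 0) := by
    have h := integrableOn_exp_mul_Iic (a := c) hc 0
    refine h.congr_fun (fun u hu => ?_) measurableSet_Iic
    have hu' : u ≤ 0 := hu
    simp only [abs_of_nonpos hu']
    ring_nf
  have h3 := h2.union h1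
  rwa [Iic_union_Ioi, integrableOn_univ] at h3

theorem f1_M2_cosh_low (u : ℝ) : Real.exp |u| / 2 ≤ Real.cosh u := by
  rw [← Real.cosh_abs u, Real.cosh_eq]
  have := Real.exp_pos (-|u|)
  linarith

/-- the base points -/
noncomputable def f1_M2_A (τ : ℝ) (θ : ℂ) (u : ℝ) : ℂ :=
  Complex.sin θ * (Real.cosh u : ℝ) - τ * (I * Complex.cos θ)

theorem f1_M2_A_re (τ : ℝ) (θ : ℂ) (u : ℝ) :
    (f1_M2_A τ θ u).re = Real.sin θ.re * (Real.cosh θ.im * Real.cosh u - τ * Real.sinh θ.im) := by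
  have hs : Complex.sin θ = Complex.sin θ.re * Complex.cosh θ.im + Complex.cos θ.re * Complex.sinh θ.im * I := by
    conv_lhs => rw [← Complex.re_add_im θ]
    rw [Complex.sin_add_mul_I]
  have hc : Complex.cos θ = Complex.cos θ.re * Complex.cosh θ.im - Complex.sin θ.re * Complex.sinh θ.im * I := by
    conv_lhs => rw [← Complex.re_add_im θ]
    rw [Complex.cos_add_mul_I]
  have hs' : Complex.sin θ = ((Real.sin θ.re * Real.cosh θ.im : ℝ) : ℂ) +
      ((Real.cos θ.re * Real.sinh θ.im : ℝ) : ℂ) * I := by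
    rw [hs]; push_cast; ring
  have hc' : Complex.cos θ = ((Real.cos θ.re * Real.cosh θ.im : ℝ) : ℂ) -
      ((Real.sin θ.re * Real.sinh θ.im : ℝ) : ℂ) * I := by
    rw [hc]; push_cast; ring
  have hA : f1_M2_A τ θ u = ((Real.sin θ.re * (Real.cosh θ.im * Real.cosh u - τ * Real.sinh θ.im) : ℝ) : ℂ)
      + ((Real.cos θ.re * Real.sinh θ.im * Real.cosh u - τ * (Real.cos θ.re * Real.cosh θ.im) : ℝ) : ℂ) * I := by
    unfold f1_M2_A
    rw [hs', hc']
    push_cast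
    linear_combination (τ : ℂ) * Complex.sin θ.re * Complex.sinh θ.im * Complex.I_sq
  rw [hA, Complex.add_re, Complex.ofReal_re, Complex.re_ofReal_mul, Complex.I_re]
  ring

theorem f1_M2_A_low {τ : ℝ} (hτ : τ = 1 ∨ τ = -1) {θ : ℂ} (h0 : 0 < θ.re) (h1 : θ.re < Real.pi) (u : ℝ) :
    Real.sin θ.re * Real.exp (-|θ.im|) * Real.cosh u ≤ (f1_M2_A τ θ u).re := by
  rw [f1_M2_A_re]
  have hsin : 0 < Real.sin θ.re := Real.sin_pos_of_pos_of_lt_pi h0 h1
  rw [mul_assoc]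
  refine mul_le_mul_of_nonneg_left ?_ hsin.le
  have h2 : Real.exp (-|θ.im|) = Real.cosh θ.im - Real.sinh |θ.im| := by
    rw [← Real.cosh_abs θ.im, Real.cosh_sub_sinh]
  have h3 : τ * Real.sinh θ.im ≤ Real.sinh |θ.im| := by
    rcases hτ with rfl | rfl
    · rw [one_mul]; exact Real.sinh_le_sinh.mpr (le_abs_self _)
    · rw [neg_one_mul, ← Real.sinh_neg]; exact Real.sinh_le_sinh.mpr (neg_le_abs _)
  have h4 : 1 ≤ Real.cosh u := Real.one_le_cosh u
  have h5 : 0 ≤ Real.sinh |θ.im| := Real.sinh_nonneg_iff.mpr (abs_nonneg _)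
  rw [h2]
  nlinarith [mul_le_mul_of_nonneg_left h4 h5]

theorem f1_M2_A_pos {τ : ℝ} (hτ : τ = 1 ∨ τ = -1) {θ : ℂ} (h0 : 0 < θ.re) (h1 : θ.re < Real.pi) (u : ℝ) :
    0 < (f1_M2_A τ θ u).re := by
  refine lt_of_lt_of_le ?_ (f1_M2_A_low hτ h0 h1 u)
  have hsin : 0 < Real.sin θ.re := Real.sin_pos_of_pos_of_lt_pi h0 h1
  have := Real.cosh_pos u
  positivity

theorem f1_M2_pow_bound {z : ℂ} {s : ℂ} {c σ₀ σ₁ T C : ℝ} (hc : 0 < c) (hc1 : c ≤ 1) (hC : 1 ≤ C)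
    (hz : c * C ≤ z.re) (h0 : 0 ≤ σ₀) (hs0 : σ₀ ≤ s.re) (hs1 : s.re ≤ σ₁) (hT : |s.im| ≤ T) :
    ‖z ^ (-s)‖ ≤ c ^ (-σ₁) * C ^ (-σ₀) * Real.exp (Real.pi * T) := by
  have hzre : 0 < z.re := lt_of_lt_of_le (by positivity) hz
  have hz0 : z ≠ 0 := by
    intro h
    rw [h] at hzre
    simp at hzre
  have hnz : c * C ≤ ‖z‖ := hz.trans (Complex.re_le_norm z)
  rw [Complex.norm_cpow_of_ne_zero hz0, Complex.neg_re, Complex.neg_im, div_eq_mul_inv, ← Real.exp_neg]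
  have e1 : ‖z‖ ^ (-s.re) ≤ c ^ (-σ₁) * C ^ (-σ₀) := by
    calc ‖z‖ ^ (-s.re) ≤ (c * C) ^ (-s.re) :=
          Real.rpow_le_rpow_of_nonpos (by positivity) hnz (by linarith)
      _ = c ^ (-s.re) * C ^ (-s.re) := Real.mul_rpow hc.le (by linarith)
      _ ≤ c ^ (-σ₁) * C ^ (-σ₀) := by
          refine mul_le_mul ?_ ?_ (by positivity) (by positivity)
          · exact Real.rpow_le_rpow_of_exponent_ge hc hc1 (by linarith)
          · exact Real.rpow_le_rpow_of_exponent_le hC (by linarith)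
  have e2 : Real.exp (-(z.arg * -s.im)) ≤ Real.exp (Real.pi * T) := by
    refine Real.exp_le_exp.mpr ?_
    have h3 : |z.arg * s.im| ≤ Real.pi * T := by
      rw [abs_mul]
      exact mul_le_mul (Complex.abs_arg_le_pi z) hT (abs_nonneg _) Real.pi_pos.le
    have := le_abs_self (z.arg * s.im)
    linarith
  exact mul_le_mul e1 e2 (Real.exp_pos _).le (by positivity)

/-- the integrand -/
theorem f1_M2_g_eq (ν : ℂ) (ε : ℝ) (s θ : ℂ) (u : ℝ) :
    g1i ν ε s θ u = cexp (ν * u) * ((Real.cosh (u / 2) : ℝ) * f1_M2_A 1 θ u ^ (-(s + 1 / 2)) +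
      ε * ((Real.sinh (u / 2) : ℝ) * f1_M2_A (-1) θ u ^ (-(s + 1 / 2)))) := by
  have e : -s - 1 / 2 = -(s + 1 / 2) := by ring
  have h1 : Complex.sin θ * (Real.cosh u : ℝ) - I * Complex.cos θ = f1_M2_A 1 θ u := by
    unfold f1_M2_A
    push_cast
    ring
  have h2 : Complex.sin θ * (Real.cosh u : ℝ) + I * Complex.cos θ = f1_M2_A (-1) θ u := by
    unfold f1_M2_A
    push_cast
    ring
  unfold g1i
  rw [e, h1, h2]

theorem f1_M2_half (u : ℝ) : Real.cosh (u / 2) ≤ Real.exp (|u| / 2) ∧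
    |Real.sinh (u / 2)| ≤ Real.exp (|u| / 2) := by
  have h1 : Real.cosh (u / 2) ≤ Real.exp (|u| / 2) := by
    have h0 : |u / 2| = |u| / 2 := by rw [abs_div, abs_two]
    rw [← Real.cosh_abs (u / 2), h0, Real.cosh_eq]
    have h2 : Real.exp (-(|u| / 2)) ≤ Real.exp (|u| / 2) := by
      refine Real.exp_le_exp.mpr ?_
      have := abs_nonneg u
      linarith
    linarith
  refine ⟨h1, le_trans ?_ h1⟩
  rw [abs_le]
  constructor
  · have h3 : 0 < Real.cosh (u / 2) + Real.sinh (u / 2) := by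
      rw [Real.cosh_add_sinh]
      exact Real.exp_pos _
    linarith
  · exact (Real.sinh_lt_cosh _).le

theorem f1_M2_g_bound {ν : ℂ} (hν : ν.re = 0) (ε : ℝ) {s θ : ℂ} {c σ₀ σ₁ T : ℝ} (hc : 0 < c) (hc1 : c ≤ 1)
    (h0 : 0 < θ.re) (h1 : θ.re < Real.pi) (hcθ : c ≤ Real.sin θ.re * Real.exp (-|θ.im|))
    (hσ₀ : 0 < σ₀) (hs0 : σ₀ ≤ s.re) (hs1 : s.re ≤ σ₁) (hT : |s.im| ≤ T) (u : ℝ) :
    ‖g1i ν ε s θ u‖ ≤ (1 + |ε|) * (c ^ (-(σ₁ + 1 / 2)) * 2 ^ (σ₀ + 1 / 2) *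
      Real.exp (Real.pi * T)) * Real.exp (-(σ₀ * |u|)) := by
  rw [f1_M2_g_eq, norm_mul]
  have hch : 0 < Real.cosh u := Real.cosh_pos u
  have hlow : ∀ τ : ℝ, (τ = 1 ∨ τ = -1) → c * Real.cosh u ≤ (f1_M2_A τ θ u).re := fun τ hτ =>
    (mul_le_mul_of_nonneg_right hcθ hch.le).trans (f1_M2_A_low hτ h0 h1 u)
  have hre : (s + 1 / 2 : ℂ).re = s.re + 1 / 2 := by
    rw [Complex.add_re]
    norm_num
  have him : (s + 1 / 2 : ℂ).im = s.im := by
    rw [Complex.add_im]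
    norm_num
  have b1 := f1_M2_pow_bound (s := s + 1 / 2) (σ₀ := σ₀ + 1 / 2) (σ₁ := σ₁ + 1 / 2) (T := T) hc hc1
    (Real.one_le_cosh u) (hlow 1 (Or.inl rfl)) (by linarith) (by rw [hre]; linarith)
    (by rw [hre]; linarith) (by rw [him]; exact hT)
  have b2 := f1_M2_pow_bound (s := s + 1 / 2) (σ₀ := σ₀ + 1 / 2) (σ₁ := σ₁ + 1 / 2) (T := T) hc hc1
    (Real.one_le_cosh u) (hlow (-1) (Or.inr rfl)) (by linarith) (by rw [hre]; linarith)
    (by rw [hre]; linarith) (by rw [him]; exact hT)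
  set D : ℝ := c ^ (-(σ₁ + 1 / 2)) * Real.cosh u ^ (-(σ₀ + 1 / 2)) * Real.exp (Real.pi * T) with hD
  have hD0 : 0 ≤ D := by positivity
  obtain ⟨hc2, hs2⟩ := f1_M2_half u
  have hE := Real.exp_pos (|u| / 2)
  have b3 : ‖((Real.cosh (u / 2) : ℝ) : ℂ) * f1_M2_A 1 θ u ^ (-(s + 1 / 2)) +
      ε * (((Real.sinh (u / 2) : ℝ) : ℂ) * f1_M2_A (-1) θ u ^ (-(s + 1 / 2)))‖ ≤
      (1 + |ε|) * (Real.exp (|u| / 2) * D) := by
    refine (norm_add_le _ _).trans ?_
    rw [norm_mul, norm_mul, norm_mul, Complex.norm_real, Complex.norm_real, Complex.norm_real,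
      Real.norm_eq_abs, Real.norm_eq_abs, Real.norm_eq_abs, abs_of_pos (Real.cosh_pos (u / 2))]
    have c1 : Real.cosh (u / 2) * ‖f1_M2_A 1 θ u ^ (-(s + 1 / 2))‖ ≤ Real.exp (|u| / 2) * D :=
      mul_le_mul hc2 b1 (norm_nonneg _) hE.le
    have c2 : |Real.sinh (u / 2)| * ‖f1_M2_A (-1) θ u ^ (-(s + 1 / 2))‖ ≤ Real.exp (|u| / 2) * D :=
      mul_le_mul hs2 b2 (norm_nonneg _) hE.le
    have c3 := mul_le_mul_of_nonneg_left c2 (abs_nonneg ε)
    linarith
  have b4 : ‖cexp (ν * u)‖ = 1 := by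
    rw [Complex.norm_exp]
    have : (ν * (u : ℂ)).re = 0 := by simp [hν]
    rw [this, Real.exp_zero]
  have b5 : Real.cosh u ^ (-(σ₀ + 1 / 2)) ≤ 2 ^ (σ₀ + 1 / 2) * Real.exp (-((σ₀ + 1 / 2) * |u|)) := by
    have h6 : Real.cosh u ^ (-(σ₀ + 1 / 2)) ≤ (Real.exp |u| / 2) ^ (-(σ₀ + 1 / 2)) :=
      Real.rpow_le_rpow_of_nonpos (by positivity) (f1_M2_cosh_low u) (by linarith)
    refine h6.trans (le_of_eq ?_)
    rw [Real.div_rpow (Real.exp_pos _).le (by norm_num), ← Real.exp_mul,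
      Real.rpow_neg (by norm_num : (0 : ℝ) ≤ 2), div_inv_eq_mul, mul_comm]
    congr 2
    ring
  have hDle : D ≤ c ^ (-(σ₁ + 1 / 2)) * (2 ^ (σ₀ + 1 / 2) * Real.exp (-((σ₀ + 1 / 2) * |u|))) *
      Real.exp (Real.pi * T) := by
    rw [hD]
    gcongr
  rw [b4, one_mul]
  refine b3.trans ?_
  calc (1 + |ε|) * (Real.exp (|u| / 2) * D)
      ≤ (1 + |ε|) * (Real.exp (|u| / 2) * (c ^ (-(σ₁ + 1 / 2)) * (2 ^ (σ₀ + 1 / 2) *
          Real.exp (-((σ₀ + 1 / 2) * |u|))) * Real.exp (Real.pi * T))) := by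
        refine mul_le_mul_of_nonneg_left ?_ (by positivity)
        exact mul_le_mul_of_nonneg_left hDle hE.le
    _ = (1 + |ε|) * (c ^ (-(σ₁ + 1 / 2)) * 2 ^ (σ₀ + 1 / 2) * Real.exp (Real.pi * T)) *
          (Real.exp (|u| / 2) * Real.exp (-((σ₀ + 1 / 2) * |u|))) := by ring
    _ = _ := by
        rw [← Real.exp_add]
        congr 2
        ring

theorem f1_M2_A_cont (τ : ℝ) (θ : ℂ) : Continuous (f1_M2_A τ θ) := by
  unfold f1_M2_A
  have : Continuous (fun u : ℝ => ((Real.cosh u : ℝ) : ℂ)) :=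
    Complex.continuous_ofReal.comp Real.continuous_cosh
  fun_prop

theorem f1_M2_slit {z : ℂ} (h : 0 < z.re) : z ∈ Complex.slitPlane := Or.inl h

theorem f1_M2_ch_cont : Continuous (fun u : ℝ => ((Real.cosh (u / 2) : ℝ) : ℂ)) :=
  Complex.continuous_ofReal.comp (Real.continuous_cosh.comp (continuous_id.div_const 2))

theorem f1_M2_sh_cont : Continuous (fun u : ℝ => ((Real.sinh (u / 2) : ℝ) : ℂ)) :=
  Complex.continuous_ofReal.comp (Real.continuous_sinh.comp (continuous_id.div_const 2))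

theorem f1_M2_g_cont (ν : ℂ) (ε : ℝ) (s : ℂ) {θ : ℂ} (h0 : 0 < θ.re) (h1 : θ.re < Real.pi) :
    Continuous (g1i ν ε s θ) := by
  have h : g1i ν ε s θ = fun u : ℝ => cexp (ν * u) *
      ((Real.cosh (u / 2) : ℝ) * f1_M2_A 1 θ u ^ (-(s + 1 / 2)) +
      ε * ((Real.sinh (u / 2) : ℝ) * f1_M2_A (-1) θ u ^ (-(s + 1 / 2)))) :=
    funext fun u => f1_M2_g_eq ν ε s θ u
  rw [h]
  have c1 : Continuous (fun u : ℝ => f1_M2_A 1 θ u ^ (-(s + 1 / 2))) :=
    (f1_M2_A_cont 1 θ).cpow continuous_const fun u => f1_M2_slit (f1_M2_A_pos (Or.inl rfl) h0 h1 u)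
  have c2 : Continuous (fun u : ℝ => f1_M2_A (-1) θ u ^ (-(s + 1 / 2))) :=
    (f1_M2_A_cont (-1) θ).cpow continuous_const fun u => f1_M2_slit (f1_M2_A_pos (Or.inr rfl) h0 h1 u)
  have c0 : Continuous (fun u : ℝ => cexp (ν * u)) := by fun_prop
  exact c0.mul ((f1_M2_ch_cont.mul c1).add (continuous_const.mul (f1_M2_sh_cont.mul c2)))

theorem f1_M2_g_diff_s (ν : ℂ) (ε : ℝ) {θ : ℂ} (h0 : 0 < θ.re) (h1 : θ.re < Real.pi) (u : ℝ) (s : ℂ) :
    DifferentiableAt ℂ (fun s => g1i ν ε s θ u) s := by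
  have h : (fun s => g1i ν ε s θ u) =
      fun s => cexp (ν * u) * ((Real.cosh (u / 2) : ℝ) * f1_M2_A 1 θ u ^ (-(s + 1 / 2)) +
      ε * ((Real.sinh (u / 2) : ℝ) * f1_M2_A (-1) θ u ^ (-(s + 1 / 2)))) :=
    funext fun s => f1_M2_g_eq ν ε s θ u
  rw [h]
  have hne : ∀ τ : ℝ, (τ = 1 ∨ τ = -1) → f1_M2_A τ θ u ≠ 0 := by
    intro τ hτ h2
    have := f1_M2_A_pos hτ h0 h1 u
    rw [h2] at this
    simp at this
  have d0 : DifferentiableAt ℂ (fun s : ℂ => -(s + 1 / 2)) s :=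
    (differentiableAt_id.add (differentiableAt_const _)).neg
  have d1 : DifferentiableAt ℂ (fun s : ℂ => f1_M2_A 1 θ u ^ (-(s + 1 / 2))) s :=
    d0.const_cpow (Or.inl (hne 1 (Or.inl rfl)))
  have d2 : DifferentiableAt ℂ (fun s : ℂ => f1_M2_A (-1) θ u ^ (-(s + 1 / 2))) s :=
    d0.const_cpow (Or.inl (hne (-1) (Or.inr rfl)))
  exact ((d1.const_mul _).add ((d2.const_mul _).const_mul _)).const_mul _

theorem f1_M2_g_diff (ν : ℂ) (ε : ℝ) {θ : ℂ} (h0 : 0 < θ.re) (h1 : θ.re < Real.pi) (u : ℝ) (s : ℂ) :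
    DifferentiableAt ℂ (fun θ => g1i ν ε s θ u) θ := by
  have h : (fun θ => g1i ν ε s θ u) =
      fun θ => cexp (ν * u) * ((Real.cosh (u / 2) : ℝ) * f1_M2_A 1 θ u ^ (-(s + 1 / 2)) +
      ε * ((Real.sinh (u / 2) : ℝ) * f1_M2_A (-1) θ u ^ (-(s + 1 / 2)))) :=
    funext fun θ => f1_M2_g_eq ν ε s θ u
  rw [h]
  have d0 : ∀ τ : ℝ, DifferentiableAt ℂ (fun θ : ℂ => f1_M2_A τ θ u) θ := by
    intro τ
    unfold f1_M2_A
    exact (Complex.differentiableAt_sin.mul_const _).sub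
      ((Complex.differentiableAt_cos.const_mul _).const_mul _)
  have d1 : DifferentiableAt ℂ (fun θ : ℂ => f1_M2_A 1 θ u ^ (-(s + 1 / 2))) θ :=
    (d0 1).cpow (differentiableAt_const _) (f1_M2_slit (f1_M2_A_pos (Or.inl rfl) h0 h1 u))
  have d2 : DifferentiableAt ℂ (fun θ : ℂ => f1_M2_A (-1) θ u ^ (-(s + 1 / 2))) θ :=
    (d0 (-1)).cpow (differentiableAt_const _) (f1_M2_slit (f1_M2_A_pos (Or.inr rfl) h0 h1 u))
  exact ((d1.const_mul _).add ((d2.const_mul _).const_mul _)).const_mul _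

section

variable {ν : ℂ} {ε : ℝ} {a : ℕ → ℂ} {f : ℍ → ℂ} {L : ℂ → ℂ}

/-- M2 -/
theorem G1_int_pr (hν : ν.re = 0) {s θ : ℂ} (hs : 0 < s.re) (h0 : 0 < θ.re) (h1 : θ.re < Real.pi) :
    Integrable (g1i ν ε s θ) := by
  have hsin : 0 < Real.sin θ.re := Real.sin_pos_of_pos_of_lt_pi h0 h1
  have hc : 0 < Real.sin θ.re * Real.exp (-|θ.im|) := by positivity
  have hc1 : Real.sin θ.re * Real.exp (-|θ.im|) ≤ 1 := by
    have h2 := Real.sin_le_one θ.re
    have h3 : Real.exp (-|θ.im|) ≤ 1 := Real.exp_le_one_iff.mpr (neg_nonpos.mpr (abs_nonneg _))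
    exact mul_le_one₀ h2 (Real.exp_pos _).le h3
  have hb := f1_M2_g_bound hν ε hc hc1 h0 h1 le_rfl hs le_rfl le_rfl (le_refl |s.im|)
  exact Integrable.mono' ((f1_M2_int_exp (c := s.re) hs).const_mul
    ((1 + |ε|) * ((Real.sin θ.re * Real.exp (-|θ.im|)) ^ (-(s.re + 1 / 2)) * 2 ^ (s.re + 1 / 2) *
      Real.exp (Real.pi * |s.im|)))) (f1_M2_g_cont ν ε s h0 h1).aestronglyMeasurable
    (ae_of_all _ hb)

theorem f1_M2_gint_diff_s (hν : ν.re = 0) {θ : ℂ} (h0 : 0 < θ.re) (h1 : θ.re < Real.pi) :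
    DifferentiableOn ℂ (fun s => ∫ u : ℝ, g1i ν ε s θ u) {s | 0 < s.re} := by
  have hsin : 0 < Real.sin θ.re := Real.sin_pos_of_pos_of_lt_pi h0 h1
  have hc : 0 < Real.sin θ.re * Real.exp (-|θ.im|) := by positivity
  have hc1 : Real.sin θ.re * Real.exp (-|θ.im|) ≤ 1 := by
    have h2 := Real.sin_le_one θ.re
    have h3 : Real.exp (-|θ.im|) ≤ 1 := Real.exp_le_one_iff.mpr (neg_nonpos.mpr (abs_nonneg _))
    exact mul_le_one₀ h2 (Real.exp_pos _).le h3
  refine SP.hol_int volume (fun s u => g1i ν ε s θ u) {s | 0 < s.re}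
    (fun s _ => (f1_M2_g_cont ν ε s h0 h1).aestronglyMeasurable)
    (ae_of_all _ fun u => fun s _ => (f1_M2_g_diff_s ν ε h0 h1 u s).differentiableWithinAt) ?_
  intro s hs
  have hs' : 0 < s.re := hs
  set r : ℝ := s.re / 2 with hr
  have hr0 : 0 < r := by rw [hr]; linarith
  have hball : ∀ z ∈ Metric.ball s r, |z.re - s.re| < r ∧ |z.im - s.im| < r := by
    intro z hz
    rw [mem_ball_iff_norm] at hz
    constructor
    · rw [← Complex.sub_re]; exact (Complex.abs_re_le_norm _).trans_lt hz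
    · rw [← Complex.sub_im]; exact (Complex.abs_im_le_norm _).trans_lt hz
  refine ⟨r, hr0, fun z hz => ?_, _, (f1_M2_int_exp (c := s.re - r) (by
    rw [hr]; linarith)).const_mul
    ((1 + |ε|) * ((Real.sin θ.re * Real.exp (-|θ.im|)) ^ (-(s.re + r + 1 / 2)) *
      2 ^ (s.re - r + 1 / 2) * Real.exp (Real.pi * (|s.im| + r)))), ae_of_all _ fun u z hz => ?_⟩
  · have h2 := (abs_lt.mp (hball z hz).1).1
    show 0 < z.re
    rw [hr] at h2
    linarith
  · have h2 := abs_lt.mp (hball z hz).1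
    have h3 := (hball z hz).2
    refine f1_M2_g_bound hν ε hc hc1 h0 h1 le_rfl (by rw [hr]; linarith) (by linarith) (by linarith) ?_ u
    have h4 : |z.im| ≤ |s.im| + |z.im - s.im| := by
      have := abs_add_le s.im (z.im - s.im)
      simpa using this
    linarith

/-- M2 -/
theorem G1_diff_s_pr (hν : ν.re = 0) {θ : ℂ} (h0 : 0 < θ.re) (h1 : θ.re < Real.pi) :
    DifferentiableOn ℂ (fun s => G1 ν ε s θ) {s | 0 < s.re} := by
  have hG : (fun s => G1 ν ε s θ) = fun s => ((2 * Real.pi : ℝ) : ℂ) ^ (1 / 2 - s) *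
      Gamma (s + 1 / 2) * Complex.sin θ * ∫ u : ℝ, g1i ν ε s θ u := rfl
  rw [hG]
  refine DifferentiableOn.mul ?_ (f1_M2_gint_diff_s hν h0 h1)
  intro s hs
  have hs' : 0 < s.re := hs
  refine DifferentiableAt.differentiableWithinAt ?_
  have h2 : DifferentiableAt ℂ (fun s : ℂ => ((2 * Real.pi : ℝ) : ℂ) ^ (1 / 2 - s)) s := by
    refine DifferentiableAt.const_cpow ?_ (Or.inl ?_)
    · exact (differentiableAt_const _).sub differentiableAt_id
    · exact Complex.ofReal_ne_zero.mpr (by positivity)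
  have h3 : DifferentiableAt ℂ (fun s : ℂ => Gamma (s + 1 / 2)) s := by
    have h4 : DifferentiableAt ℂ Gamma (s + 1 / 2) := by
      refine Complex.differentiableAt_Gamma (s + 1 / 2) fun m hm => ?_
      have h5 := congrArg Complex.re hm
      rw [Complex.add_re] at h5
      norm_num at h5
      have : (0 : ℝ) ≤ m := Nat.cast_nonneg m
      linarith
    have h5 : DifferentiableAt ℂ (fun s : ℂ => s + 1 / 2) s :=
      differentiableAt_id.add (differentiableAt_const _)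
    exact DifferentiableAt.comp s h4 h5
  exact (h2.mul h3).mul_const _

/-- M2 -/
theorem G1_diff_pr (hν : ν.re = 0) {s : ℂ} (hs : 0 < s.re) :
    DifferentiableOn ℂ (fun θ => G1 ν ε s θ) {θ | 0 < θ.re ∧ θ.re < Real.pi} := by
  have hG : (fun θ => G1 ν ε s θ) = fun θ => ((2 * Real.pi : ℝ) : ℂ) ^ (1 / 2 - s) *
      Gamma (s + 1 / 2) * Complex.sin θ * ∫ u : ℝ, g1i ν ε s θ u := rfl
  rw [hG]
  refine DifferentiableOn.mul ?_ ?_
  · intro θ hθ
    exact (Complex.differentiableAt_sin.const_mul _).differentiableWithinAt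
  · refine SP.hol_int volume (fun θ u => g1i ν ε s θ u) {θ | 0 < θ.re ∧ θ.re < Real.pi}
      (fun θ hθ => (f1_M2_g_cont ν ε s hθ.1 hθ.2).aestronglyMeasurable)
      (ae_of_all _ fun u => fun θ hθ => (f1_M2_g_diff ν ε hθ.1 hθ.2 u s).differentiableWithinAt) ?_
    intro θ hθ
    have hθ1 : 0 < θ.re := hθ.1
    have hθ2 : θ.re < Real.pi := hθ.2
    -- the continuous positive function `sin a e^{-|b|}`
    have hcont : Continuous (fun z : ℂ => Real.sin z.re * Real.exp (-|z.im|)) := by fun_prop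
    have hpos : 0 < Real.sin θ.re * Real.exp (-|θ.im|) := by
      have hsin : 0 < Real.sin θ.re := Real.sin_pos_of_pos_of_lt_pi hθ1 hθ2
      positivity
    set c : ℝ := Real.sin θ.re * Real.exp (-|θ.im|) / 2 with hcdef
    have hc : 0 < c := by rw [hcdef]; linarith
    have hc1 : c ≤ 1 := by
      have h2 := Real.sin_le_one θ.re
      have h3 : Real.exp (-|θ.im|) ≤ 1 := Real.exp_le_one_iff.mpr (neg_nonpos.mpr (abs_nonneg _))
      have h4 : Real.sin θ.re * Real.exp (-|θ.im|) ≤ 1 := mul_le_one₀ h2 (Real.exp_pos _).le h3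
      rw [hcdef]; linarith
    have hopen : IsOpen {z : ℂ | 0 < z.re ∧ z.re < Real.pi ∧
        c < Real.sin z.re * Real.exp (-|z.im|)} := by
      refine IsOpen.inter (isOpen_lt continuous_const Complex.continuous_re) ?_
      exact IsOpen.inter (isOpen_lt Complex.continuous_re continuous_const)
        (isOpen_lt continuous_const hcont)
    obtain ⟨r, hr, hrs⟩ := Metric.isOpen_iff.mp hopen θ ⟨hθ1, hθ2, by rw [hcdef]; linarith⟩
    refine ⟨r, hr, fun z hz => ⟨(hrs hz).1, (hrs hz).2.1⟩, _,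
      (f1_M2_int_exp (c := s.re) hs).const_mul
      ((1 + |ε|) * (c ^ (-(s.re + 1 / 2)) * 2 ^ (s.re + 1 / 2) * Real.exp (Real.pi * |s.im|))),
      ae_of_all _ fun u z hz => ?_⟩
    exact f1_M2_g_bound hν ε hc hc1 (hrs hz).1 (hrs hz).2.1 (hrs hz).2.2.le hs le_rfl le_rfl le_rfl u

end

end Pool.Agent.JO.FM1

namespace Pool.Agent.JO.FM1

theorem G1_int : type_of% @G1_int_pr := @G1_int_pr
theorem G1_diff_s : type_of% @G1_diff_s_pr := @G1_diff_s_pr
theorem G1_diff : type_of% @G1_diff_pr := @G1_diff_pr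

end Pool.Agent.JO.FM1
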