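import Pool.Agent.Lib_helper42.JO1.Defs
import Pool.Agent.Lib_helper45.JO.Defs2
import Pool.Agent.Lib_helper45.JOM.K4

/-!
-/

set_option autoImplicit false

namespace Pool.Agent.JO.FM1

open Complex Filter Topology MeasureTheory Set
open UpperHalfPlane hiding I
open Pool.Agent.JO.FM
open scoped MatrixGroups ComplexConjugate

section

variable {ν : ℂ} {ε : ℝ} {a : ℕ → ℂ} {f : ℍ → ℂ} {L : ℂ → ℂ}

theorem f1_m3_pow_ne {z w : ℂ} (hz : z ≠ 0) : z ^ w ≠ 0 := by
  rw [Ne, Complex.cpow_eq_zero_iff]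
  tauto

theorem f1_m3_alg {g : ℂ} (hg : g ≠ 0) (c p x y : ℂ) :
    c * g * 1 * (p * x * y / g) = c * p * x * y := by
  field_simp

theorem G1_half_pr (hν : ν.re = 0) (hε : ε = 1 ∨ ε = -1) {s : ℂ} (hs : 0 < s.re) :
    G1 ν ε s (Real.pi / 2 : ℝ) = ((2 * Real.pi : ℝ) : ℂ) ^ (1 / 2 - s) * (2 : ℂ) ^ (s - 1 / 2) *
      Gamma ((s + 1 / 2 + ν + ε / 2) / 2) * Gamma ((s + 1 / 2 - ν - ε / 2) / 2) := by
  have hG : Gamma (s + 1 / 2) ≠ 0 := Complex.Gamma_ne_zero_of_re_pos (by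
    rw [Complex.add_re]; norm_num; linarith)
  have hre : |(ν + ε / 2).re| < (s + 1 / 2).re := by
    have e1 : (ν + (ε : ℂ) / 2).re = ε / 2 := by
      rw [Complex.add_re, hν, zero_add, Complex.div_ofNat_re, Complex.ofReal_re]
    have e2 : (s + 1 / 2).re = s.re + 1 / 2 := by
      rw [Complex.add_re]; norm_num
    rw [e1, e2]
    rcases hε with rfl | rfl
    · rw [abs_of_pos (by norm_num)]; linarith
    · rw [abs_of_neg (by norm_num)]; linarith
  have h1 := (cosh_int hre).2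
  unfold G1
  have hsin : Complex.sin ((Real.pi / 2 : ℝ) : ℂ) = 1 := by
    rw [← Complex.ofReal_sin, Real.sin_pi_div_two, Complex.ofReal_one]
  have hcos : Complex.cos ((Real.pi / 2 : ℝ) : ℂ) = 0 := by
    rw [← Complex.ofReal_cos, Real.cos_pi_div_two, Complex.ofReal_zero]
  have h2 : (fun u : ℝ => g1i ν ε s ((Real.pi / 2 : ℝ) : ℂ) u) =
      fun u : ℝ => cexp ((ν + ε / 2) * u) * ((Real.cosh u : ℝ) : ℂ) ^ (-(s + 1 / 2)) := by
    funext u
    unfold g1i
    rw [hsin, hcos, mul_zero, sub_zero, add_zero, one_mul]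
    have e3 : -s - 1 / 2 = -(s + 1 / 2) := by ring
    have e4 : ((Real.cosh (u / 2) : ℝ) : ℂ) + ε * ((Real.sinh (u / 2) : ℝ) : ℂ) =
        cexp (ε / 2 * u) := by
      rw [← Complex.ofReal_mul, ← Complex.ofReal_add]
      have e5 : (ε : ℂ) / 2 * (u : ℂ) = ((ε / 2 * u : ℝ) : ℂ) := by push_cast; ring
      rw [e5, ← Complex.ofReal_exp]
      congr 1
      rcases hε with rfl | rfl
      · rw [one_mul, Real.cosh_add_sinh]
        congr 1
        ring
      · rw [neg_one_mul, ← sub_eq_add_neg, Real.cosh_sub_sinh]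
        congr 1
        ring
    rw [e3, add_mul, Complex.exp_add, ← e4]
    ring
  rw [h2, h1, hsin]
  have e6 : s + 1 / 2 - 1 = s - 1 / 2 := by ring
  have e7 : (s + 1 / 2 + (ν + ε / 2)) / 2 = (s + 1 / 2 + ν + ε / 2) / 2 := by ring
  have e8 : (s + 1 / 2 - (ν + ε / 2)) / 2 = (s + 1 / 2 - ν - ε / 2) / 2 := by ring
  rw [e6, e7, e8]
  exact f1_m3_alg hG _ _ _ _

theorem f1_m3_ne_pi {z : ℂ} (h : 0 < z.re) : z.arg ≠ Real.pi := by
  intro h1
  rw [Complex.arg_eq_pi_iff] at h1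
  linarith [h1.1]

theorem f1_m3_conj_cpow {z w : ℂ} (h : 0 < z.re) : conj (z ^ w) = (conj z) ^ (conj w) := by
  have h1 := Complex.cpow_conj z (conj w) (f1_m3_ne_pi h)
  rw [Complex.conj_conj] at h1
  rw [h1, Complex.conj_conj]

theorem f1_m3_re_A {θ : ℂ} (u : ℝ) :
    (Complex.sin θ * (Real.cosh u : ℝ) - I * Complex.cos θ).re =
      Real.sin θ.re * (Real.cosh θ.im * Real.cosh u - Real.sinh θ.im) ∧
    (Complex.sin θ * (Real.cosh u : ℝ) + I * Complex.cos θ).re =
      Real.sin θ.re * (Real.cosh θ.im * Real.cosh u + Real.sinh θ.im) := by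
  have h2 : (Complex.sin θ).re = Real.sin θ.re * Real.cosh θ.im := by
    rw [Complex.sin_eq]
    simp [Complex.mul_re, Complex.mul_im, Complex.add_re, ← Complex.ofReal_sin,
      ← Complex.ofReal_cosh, ← Complex.ofReal_cos, ← Complex.ofReal_sinh]
  have h3 : (Complex.cos θ).im = -(Real.sin θ.re * Real.sinh θ.im) := by
    rw [Complex.cos_eq]
    simp [Complex.mul_re, Complex.mul_im, Complex.add_re, ← Complex.ofReal_sin,
      ← Complex.ofReal_cosh, ← Complex.ofReal_cos, ← Complex.ofReal_sinh]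
  constructor
  · rw [Complex.sub_re, Complex.re_mul_ofReal, h2, Complex.I_mul_re, h3]; ring
  · rw [Complex.add_re, Complex.re_mul_ofReal, h2, Complex.I_mul_re, h3]; ring

theorem f1_m3_low (b u : ℝ) : 0 < Real.cosh b * Real.cosh u - |Real.sinh b| := by
  have h1 : 1 ≤ Real.cosh u := Real.one_le_cosh u
  have h2 : Real.exp (-|b|) = Real.cosh b - |Real.sinh b| := by
    rw [← Real.cosh_abs b, Real.abs_sinh, Real.cosh_sub_sinh]
  have h3 := Real.exp_pos (-|b|)
  have h4 := Real.cosh_pos b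
  nlinarith [abs_nonneg (Real.sinh b)]

theorem f1_m3_A_pos {θ : ℂ} (h0 : 0 < θ.re) (h1 : θ.re < Real.pi) (u : ℝ) :
    0 < (Complex.sin θ * (Real.cosh u : ℝ) - I * Complex.cos θ).re ∧
    0 < (Complex.sin θ * (Real.cosh u : ℝ) + I * Complex.cos θ).re := by
  have hs : 0 < Real.sin θ.re := Real.sin_pos_of_pos_of_lt_pi h0 h1
  have h2 := f1_m3_low θ.im u
  obtain ⟨h3, h4⟩ := f1_m3_re_A (θ := θ) u
  rw [h3, h4]
  exact ⟨mul_pos hs (by linarith [le_abs_self (Real.sinh θ.im)]),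
    mul_pos hs (by linarith [neg_abs_le (Real.sinh θ.im)])⟩

theorem G1_conj_pr (hν : ν.re = 0) {s θ : ℂ} (hs : 0 < s.re) (h0 : 0 < θ.re)
    (h1 : θ.re < Real.pi) :
    conj (G1 ν ε s θ) = G1 ν (-ε) (conj s) (Real.pi - conj θ) := by
  have _ := hs
  have hνc : conj ν = -ν := by
    apply Complex.ext
    · rw [Complex.conj_re, Complex.neg_re, hν, neg_zero]
    · rw [Complex.conj_im, Complex.neg_im]
  have hsc : conj (Complex.sin θ) = Complex.sin (conj θ) := (Complex.sin_conj θ).symm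
  have hcc : conj (Complex.cos θ) = Complex.cos (conj θ) := (Complex.cos_conj θ).symm
  have e1 : conj (((2 * Real.pi : ℝ) : ℂ) ^ (1 / 2 - s)) =
      ((2 * Real.pi : ℝ) : ℂ) ^ (1 / 2 - conj s) := by
    rw [f1_m3_conj_cpow (by rw [Complex.ofReal_re]; positivity), Complex.conj_ofReal]
    congr 1
    rw [map_sub]
    congr 1
    rw [map_div₀, map_one, Complex.conj_ofNat]
  have e2 : conj (Gamma (s + 1 / 2)) = Gamma (conj s + 1 / 2) := by
    rw [← Complex.Gamma_conj, map_add, map_div₀, map_one, Complex.conj_ofNat]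
  have e4 : conj (∫ u : ℝ, g1i ν ε s θ u) = ∫ u : ℝ, g1i ν (-ε) (conj s) (Real.pi - conj θ) u := by
    rw [← integral_conj, ← integral_neg_eq_self
      (fun u : ℝ => g1i ν (-ε) (conj s) (Real.pi - conj θ) u)]
    congr 1
    funext u
    unfold g1i
    obtain ⟨p1, p2⟩ := f1_m3_A_pos h0 h1 u
    rw [Complex.sin_pi_sub, Complex.cos_pi_sub, map_mul, map_add, map_mul, map_mul, map_mul,
      f1_m3_conj_cpow p1, f1_m3_conj_cpow p2, map_sub, map_sub, map_add, map_mul, map_mul, hsc, hcc,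
      Complex.conj_ofReal, Complex.conj_ofReal, Complex.conj_ofReal, Complex.conj_ofReal,
      Complex.conj_I, map_neg, ← Complex.exp_conj, map_mul, Complex.conj_ofReal, hνc,
      Complex.ofReal_neg, neg_div, Real.cosh_neg, Real.cosh_neg, Real.sinh_neg, map_div₀, map_one,
      Complex.conj_ofNat]
    have e5 : -ν * (u : ℂ) = ν * -(u : ℂ) := by ring
    have e6 : Complex.sin (conj θ) * ((Real.cosh u : ℝ) : ℂ) - -I * Complex.cos (conj θ) =
        Complex.sin (conj θ) * ((Real.cosh u : ℝ) : ℂ) - I * -Complex.cos (conj θ) := by ring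
    have e7 : Complex.sin (conj θ) * ((Real.cosh u : ℝ) : ℂ) + -I * Complex.cos (conj θ) =
        Complex.sin (conj θ) * ((Real.cosh u : ℝ) : ℂ) + I * -Complex.cos (conj θ) := by ring
    rw [e5, e6, e7]
    push_cast
    ring
  unfold G1
  rw [map_mul, map_mul, map_mul, e1, e2, e4, hsc, Complex.sin_pi_sub]


end

end Pool.Agent.JO.FM1

namespace Pool.Agent.JO.FM1

theorem G1_half : type_of% @G1_half_pr := @G1_half_pr
theorem G1_conj : type_of% @G1_conj_pr := @G1_conj_pr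

end Pool.Agent.JO.FM1
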