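import Pool.Agent.Lib_helper42.JO1.Defs
import Pool.Agent.Lib_helper45.JO.Defs2
import Pool.Agent.Lib_helper42.JO1F.M3
import Pool.Agent.Lib_helper45.JOM.K5

/-!
-/

set_option autoImplicit false

namespace Pool.Agent.JO.FM1

open Complex Filter Topology MeasureTheory Set
open UpperHalfPlane hiding I
open Pool.Agent.JO.FM
open scoped MatrixGroups ComplexConjugate

/-- `1 + O(t^{-1/2})` -/
def f1_k7_ap (u : ℝ → ℝ) : Prop :=
  (fun t : ℝ => u t - 1) =O[atTop] fun t : ℝ => t ^ (-(1 / 2 : ℝ))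

theorem f1_k7_small : Tendsto (fun t : ℝ => t ^ (-(1 / 2 : ℝ))) atTop (𝓝 0) :=
  tendsto_rpow_neg_atTop (by norm_num)

theorem f1_k7_tendsto {u : ℝ → ℝ} (h : f1_k7_ap u) : Tendsto u atTop (𝓝 1) := by
  have h1 : Tendsto (fun t : ℝ => u t - 1) atTop (𝓝 0) := h.trans_tendsto f1_k7_small
  have h2 := h1.add_const 1
  simpa using h2

theorem f1_k7_bdd {u : ℝ → ℝ} (h : f1_k7_ap u) : u =O[atTop] fun _ : ℝ => (1 : ℝ) :=
  (f1_k7_tendsto h).isBigO_one ℝ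

theorem f1_k7_mul {u v : ℝ → ℝ} (hu : f1_k7_ap u) (hv : f1_k7_ap v) : f1_k7_ap (fun t => u t * v t) := by
  have h1 : (fun t : ℝ => (u t - 1) * v t) =O[atTop] fun t : ℝ => t ^ (-(1 / 2 : ℝ)) := by
    simpa using Asymptotics.IsBigO.mul hu (f1_k7_bdd hv)
  refine (h1.add hv).congr_left fun t => ?_
  ring

theorem f1_k7_inv {u : ℝ → ℝ} (hu : f1_k7_ap u) : f1_k7_ap (fun t => (u t)⁻¹) := by
  have h1 : Tendsto (fun t => (u t)⁻¹) atTop (𝓝 1) := by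
    simpa using (f1_k7_tendsto hu).inv₀ one_ne_zero
  have h2 : (fun t : ℝ => -(u t - 1) * (u t)⁻¹) =O[atTop] fun t : ℝ => t ^ (-(1 / 2 : ℝ)) := by
    simpa using Asymptotics.IsBigO.mul hu.neg_left (h1.isBigO_one ℝ)
  have h3 : ∀ᶠ t in atTop, u t ≠ 0 := (f1_k7_tendsto hu).eventually_ne one_ne_zero
  refine h2.congr' ?_ EventuallyEq.rfl
  filter_upwards [h3] with t ht
  field_simp
  ring

theorem f1_k7_sqrt {u : ℝ → ℝ} (hu : f1_k7_ap u) : f1_k7_ap (fun t => √(u t)) := by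
  have h3 : ∀ᶠ t in atTop, 0 < u t := (f1_k7_tendsto hu).eventually (lt_mem_nhds one_pos)
  refine Asymptotics.IsBigO.trans ?_ hu
  refine Asymptotics.IsBigO.of_bound 1 ?_
  filter_upwards [h3] with t ht
  rw [one_mul, Real.norm_eq_abs, Real.norm_eq_abs]
  have h1 := Real.sq_sqrt ht.le
  have h2 := Real.sqrt_nonneg (u t)
  have h4 : u t - 1 = (√(u t) - 1) * (√(u t) + 1) := by linear_combination (-1 : ℝ) * h1
  rw [h4, abs_mul, abs_of_pos (by linarith : 0 < √(u t) + 1)]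
  nlinarith [abs_nonneg (√(u t) - 1)]

theorem f1_k7_of_bound {u : ℝ → ℝ} {C : ℝ} (h : ∀ᶠ t in atTop, |u t - 1| ≤ C * t ^ (-(1 / 2 : ℝ))) :
    f1_k7_ap u := by
  refine Asymptotics.IsBigO.of_bound C ?_
  filter_upwards [h, eventually_ge_atTop 0] with t ht ht0
  rw [Real.norm_eq_abs, Real.norm_eq_abs, abs_of_nonneg (Real.rpow_nonneg ht0 _)]
  exact ht

/-- from infinity to the half line -/
theorem f1_k7_glob {g : ℝ → ℝ} (hc : ContinuousOn g (Ici 1))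
    (h : g =O[atTop] fun t : ℝ => t ^ (-(1 / 2 : ℝ))) :
    ∃ C : ℝ, ∀ t : ℝ, 1 ≤ t → |g t| ≤ C * t ^ (-(1 / 2 : ℝ)) := by
  obtain ⟨C, hC⟩ := h.bound
  obtain ⟨t₀, ht₀⟩ := eventually_atTop.1 hC
  obtain ⟨B, hB⟩ := (isCompact_Icc (a := (1 : ℝ)) (b := max t₀ 1)).exists_bound_of_continuousOn
    (hc.mono Icc_subset_Ici_self)
  have hB0 : 0 ≤ B := (norm_nonneg _).trans (hB 1 ⟨le_refl _, le_max_right _ _⟩)
  refine ⟨max C (B * (max t₀ 1) ^ (1 / 2 : ℝ)), fun t ht => ?_⟩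
  have ht0 : 0 < t := by linarith
  have hp : 0 ≤ t ^ (-(1 / 2 : ℝ)) := Real.rpow_nonneg ht0.le _
  rcases le_total t₀ t with h1 | h1
  · have h2 := ht₀ t h1
    rw [Real.norm_eq_abs, Real.norm_eq_abs, abs_of_nonneg hp] at h2
    exact h2.trans (mul_le_mul_of_nonneg_right (le_max_left _ _) hp)
  · have h2 := hB t ⟨ht, h1.trans (le_max_left _ _)⟩
    rw [Real.norm_eq_abs] at h2
    refine h2.trans (le_trans ?_ (mul_le_mul_of_nonneg_right (le_max_right _ _) hp))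
    have h3 : 1 ≤ (max t₀ 1) ^ (1 / 2 : ℝ) * t ^ (-(1 / 2 : ℝ)) := by
      rw [Real.rpow_neg ht0.le, ← div_eq_mul_inv, one_le_div (Real.rpow_pos_of_pos ht0 _)]
      exact Real.rpow_le_rpow ht0.le (h1.trans (le_max_left _ _)) (by norm_num)
    calc B = B * 1 := (mul_one B).symm
      _ ≤ B * ((max t₀ 1) ^ (1 / 2 : ℝ) * t ^ (-(1 / 2 : ℝ))) := mul_le_mul_of_nonneg_left h3 hB0
      _ = B * (max t₀ 1) ^ (1 / 2 : ℝ) * t ^ (-(1 / 2 : ℝ)) := by ring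

theorem f1_k7_ha (t : ℝ) : (ha t).re = 1 / 2 ∧ (ha t).im = t := by
  unfold ha
  constructor <;> simp

/-- the first factor -/
theorem f1_k7_q {D : ℝ → ℝ} {K : ℝ} (hK : 0 ≤ K) (h1 : ∀ t, Real.sinh (Real.pi * t) ^ 2 ≤ D t)
    (h2 : ∀ t, D t ≤ Real.cosh (Real.pi * t) ^ 2 + K) :
    f1_k7_ap (fun t => 2 * Real.exp (-(Real.pi * t)) * √(D t)) := by
  have h3 : f1_k7_ap (fun t => 4 * Real.exp (-(Real.pi * t)) ^ 2 * D t) := by
    refine f1_k7_of_bound (C := 3 + 4 * K) ?_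
    filter_upwards [eventually_ge_atTop 1] with t ht
    set e := Real.exp (-(Real.pi * t)) with he
    have he0 : 0 < e := Real.exp_pos _
    have he1 : e ≤ 1 := by
      rw [he, Real.exp_le_one_iff]
      have := Real.pi_pos
      nlinarith
    have hE : Real.exp (Real.pi * t) = e⁻¹ := by
      rw [he, Real.exp_neg, inv_inv]
    have hs : 4 * e ^ 2 * Real.sinh (Real.pi * t) ^ 2 = (1 - e ^ 2) ^ 2 := by
      rw [Real.sinh_eq, hE, ← he]
      field_simp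
      ring
    have hc : 4 * e ^ 2 * Real.cosh (Real.pi * t) ^ 2 = (1 + e ^ 2) ^ 2 := by
      rw [Real.cosh_eq, hE, ← he]
      field_simp
      ring
    have a1 := mul_le_mul_of_nonneg_left (h1 t) (by positivity : 0 ≤ 4 * e ^ 2)
    have a2 := mul_le_mul_of_nonneg_left (h2 t) (by positivity : 0 ≤ 4 * e ^ 2)
    rw [hs] at a1
    rw [mul_add, hc] at a2
    have he2 : e ^ 2 ≤ t ^ (-(1 / 2 : ℝ)) := by
      have b1 : e ≤ t⁻¹ := by
        rw [he, Real.exp_neg]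
        apply inv_anti₀ (by linarith)
        have := Real.add_one_le_exp (Real.pi * t)
        have := Real.pi_gt_three
        nlinarith
      have b2 : t⁻¹ ≤ t ^ (-(1 / 2 : ℝ)) := by
        rw [← Real.rpow_neg_one]
        exact Real.rpow_le_rpow_of_exponent_le ht (by norm_num)
      calc e ^ 2 ≤ e := by nlinarith
        _ ≤ _ := b1.trans b2
    have he4 : e ^ 4 ≤ e ^ 2 := pow_le_pow_of_le_one he0.le he1 (by norm_num)
    have hmain : |4 * e ^ 2 * D t - 1| ≤ (3 + 4 * K) * e ^ 2 := by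
      rw [abs_le]
      have he2p : 0 ≤ e ^ 2 := by positivity
      have hKe : 0 ≤ K * e ^ 2 := by positivity
      constructor <;> nlinarith
    exact hmain.trans (mul_le_mul_of_nonneg_left he2 (by positivity))
  have h4 := f1_k7_sqrt h3
  refine h4.congr_left fun t => ?_
  show √(4 * Real.exp (-(Real.pi * t)) ^ 2 * D t) - 1 =
    2 * Real.exp (-(Real.pi * t)) * √(D t) - 1
  have e1 : 4 * Real.exp (-(Real.pi * t)) ^ 2 * D t = (2 * Real.exp (-(Real.pi * t))) ^ 2 * D t := by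
    ring
  rw [e1, Real.sqrt_mul (sq_nonneg _), Real.sqrt_sq (by positivity)]

/-- one ratio of Gamma values -/
theorem f1_k7_ratio {w : ℂ} (h0 : -(1 / 2) ≤ w.re) (h1 : w.re ≤ 2) :
    f1_k7_ap (fun t : ℝ => ‖Gamma (w + (t / 2 : ℝ) * I + 1 / 2) / Gamma (w + (t / 2 : ℝ) * I)‖ /
      √(t / 2)) := by
  obtain ⟨C, hC⟩ := Gamma_ratio
  -- the first factor
  have a1 : f1_k7_ap (fun t : ℝ => ‖Gamma (w + (t / 2 : ℝ) * I + 1 / 2) /
      (Gamma (w + (t / 2 : ℝ) * I) * (w + (t / 2 : ℝ) * I) ^ (1 / 2 : ℂ))‖) := by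
    refine f1_k7_of_bound (C := |C| * 2) ?_
    filter_upwards [eventually_ge_atTop (4 * (|w.im| + 1))] with t ht
    have hw := abs_nonneg w.im
    have hw2 := neg_abs_le w.im
    have him : (w + (t / 2 : ℝ) * I).im = w.im + t / 2 := by simp
    have hre : (w + (t / 2 : ℝ) * I).re = w.re := by simp
    have h2 := hC (w + (t / 2 : ℝ) * I) (by rw [hre]; exact h0) (by rw [hre]; exact h1)
      (by rw [him]; linarith)
    have h3 := abs_norm_sub_norm_le (Gamma (w + (t / 2 : ℝ) * I + 1 / 2) /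
      (Gamma (w + (t / 2 : ℝ) * I) * (w + (t / 2 : ℝ) * I) ^ (1 / 2 : ℂ))) 1
    rw [norm_one] at h3
    refine h3.trans (h2.trans ?_)
    rw [him]
    have ht0 : 0 < t := by linarith
    have h4 : t / 4 ≤ w.im + t / 2 := by linarith
    have h5 : (w.im + t / 2) ^ (-(1 / 2 : ℝ)) ≤ (t / 4) ^ (-(1 / 2 : ℝ)) :=
      Real.rpow_le_rpow_of_nonpos (by positivity) h4 (by norm_num)
    have h6 : (t / 4) ^ (-(1 / 2 : ℝ)) = 2 * t ^ (-(1 / 2 : ℝ)) := by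
      rw [Real.div_rpow ht0.le (by norm_num)]
      have : (4 : ℝ) ^ (-(1 / 2 : ℝ)) = 1 / 2 := by
        rw [Real.rpow_neg (by norm_num), show (4 : ℝ) = 2 ^ (2 : ℝ) by norm_num,
          ← Real.rpow_mul (by norm_num)]
        norm_num
      rw [this]
      ring
    calc C * (w.im + t / 2) ^ (-(1 / 2 : ℝ)) ≤ |C| * (w.im + t / 2) ^ (-(1 / 2 : ℝ)) :=
          mul_le_mul_of_nonneg_right (le_abs_self C) (Real.rpow_nonneg (by linarith) _)
      _ ≤ |C| * (2 * t ^ (-(1 / 2 : ℝ))) := by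
          rw [← h6]
          exact mul_le_mul_of_nonneg_left h5 (abs_nonneg C)
      _ = |C| * 2 * t ^ (-(1 / 2 : ℝ)) := by ring
  -- the second factor
  have a2 : f1_k7_ap (fun t : ℝ => ‖w + (t / 2 : ℝ) * I‖ / (t / 2)) := by
    refine f1_k7_of_bound (C := 2 * ‖w‖) ?_
    filter_upwards [eventually_ge_atTop 1] with t ht
    have ht0 : 0 < t / 2 := by linarith
    have h3 := abs_norm_sub_norm_le (w + (t / 2 : ℝ) * I) ((t / 2 : ℝ) * I)
    have h4 : ‖((t / 2 : ℝ) : ℂ) * I‖ = t / 2 := by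
      rw [norm_mul, Complex.norm_I, mul_one, Complex.norm_real, Real.norm_eq_abs,
        abs_of_pos ht0]
    rw [add_sub_cancel_right, h4] at h3
    have h5 : ‖w + (t / 2 : ℝ) * I‖ / (t / 2) - 1 = (‖w + (t / 2 : ℝ) * I‖ - t / 2) / (t / 2) := by
      field_simp
    rw [h5, abs_div, abs_of_pos ht0, div_le_iff₀ ht0]
    have h6 : 1 ≤ t ^ (-(1 / 2 : ℝ)) * t := by
      have : t ^ (-(1 / 2 : ℝ)) * t = t ^ (1 / 2 : ℝ) := by
        conv_lhs => rw [← Real.rpow_one t, ← Real.rpow_mul (by linarith), ← Real.rpow_add (by linarith)]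
        norm_num
      rw [this]
      exact Real.one_le_rpow ht (by norm_num)
    calc |‖w + (t / 2 : ℝ) * I‖ - t / 2| ≤ ‖w‖ * 1 := by rw [mul_one]; exact h3
      _ ≤ ‖w‖ * (t ^ (-(1 / 2 : ℝ)) * t) := mul_le_mul_of_nonneg_left h6 (norm_nonneg _)
      _ = 2 * ‖w‖ * t ^ (-(1 / 2 : ℝ)) * (t / 2) := by ring
  have a3 := f1_k7_mul a1 (f1_k7_sqrt a2)
  refine a3.congr' ?_ EventuallyEq.rfl
  filter_upwards [eventually_ge_atTop (4 * (|w.im| + 1))] with t ht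
  show _ * √_ - 1 = _ - 1
  congr 1
  have hw := abs_nonneg w.im
  have hw2 := neg_abs_le w.im
  set z : ℂ := w + (t / 2 : ℝ) * I with hz
  have him : z.im = w.im + t / 2 := by simp [hz]
  have hz0 : z ≠ 0 := by
    intro h
    rw [h] at him
    simp at him
    linarith
  have ht2 : 0 < t / 2 := by linarith
  have hs : √(t / 2) ≠ 0 := (Real.sqrt_pos.2 ht2).ne'
  have hzn : √‖z‖ ≠ 0 := (Real.sqrt_pos.2 (norm_pos_iff.2 hz0)).ne'
  have hn : ‖z ^ (1 / 2 : ℂ)‖ = √‖z‖ := by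
    rw [Real.sqrt_eq_rpow, Complex.norm_cpow_of_ne_zero hz0]
    simp
  rw [norm_div, norm_mul, hn, Real.sqrt_div (norm_nonneg _), norm_div]
  field_simp

theorem f1_k7_pos {w : ℂ} (hw : 0 < w.re) (t : ℝ) : 0 < ‖Gamma (w + (t / 2 : ℝ) * I)‖ := by
  rw [norm_pos_iff]
  apply Complex.Gamma_ne_zero_of_re_pos
  simpa using hw

theorem f1_k7_cont {w : ℂ} (hw : 0 < w.re) :
    Continuous (fun t : ℝ => ‖Gamma (w + (t / 2 : ℝ) * I)‖) := by
  apply Continuous.norm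
  rw [continuous_iff_continuousAt]
  intro t
  have h1 : ContinuousAt Gamma (w + (t / 2 : ℝ) * I) := by
    apply (differentiableAt_Gamma _ _).continuousAt
    intro m hm
    have h2 := congrArg Complex.re hm
    have h3 : (w + (t / 2 : ℝ) * I).re = w.re := by simp
    rw [h3] at h2
    simp at h2
    have : (0 : ℝ) ≤ m := Nat.cast_nonneg m
    linarith
  exact ContinuousAt.comp (f := fun t : ℝ => w + (t / 2 : ℝ) * I) h1 (by fun_prop)

theorem f1_k7_fin {v : ℝ → ℝ} (hc : ContinuousOn v (Ici 1))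
    (h : f1_k7_ap (fun t => v t / (4 * Real.pi ^ 2))) : ∃ C : ℝ, ∀ t : ℝ, 1 ≤ t →
      |v t - 4 * Real.pi ^ 2| ≤ C * t ^ (-(1 / 2 : ℝ)) := by
  apply f1_k7_glob (hc.sub continuousOn_const)
  refine (Asymptotics.IsBigO.const_mul_left h (4 * Real.pi ^ 2)).congr_left fun t => ?_
  have := Real.pi_pos
  field_simp
  rfl

/-- the reflection formula -/
theorem f1_k7_AB (y : ℝ) : ‖Gamma (1 / 4 + (y : ℂ) * I)‖ * ‖Gamma (1 / 4 + (y : ℂ) * I + 1 / 2)‖ =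
    Real.pi / √(Real.cosh (2 * (Real.pi * y)) / 2) := by
  have h2 : conj (Gamma (1 / 4 + (y : ℂ) * I + 1 / 2)) = Gamma (1 - (1 / 4 + (y : ℂ) * I)) := by
    rw [← Gamma_conj]
    congr 1
    apply Complex.ext
    · simp; norm_num
    · simp
  have h3 : ‖Gamma (1 / 4 + (y : ℂ) * I + 1 / 2)‖ = ‖Gamma (1 - (1 / 4 + (y : ℂ) * I))‖ := by
    rw [← h2, RCLike.norm_conj]
  rw [h3, ← norm_mul, Gamma_mul_Gamma_one_sub, norm_div]
  have h4 : ‖(Real.pi : ℂ)‖ = Real.pi := by simp [abs_of_pos Real.pi_pos]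
  rw [h4]
  congr 1
  have h5 : (Real.pi * (1 / 4 + (y : ℂ) * I) : ℂ) = ((Real.pi / 4 : ℝ) : ℂ) +
      ((Real.pi * y : ℝ) : ℂ) * I := by
    push_cast
    ring
  have h6 : ‖Complex.sin (Real.pi * (1 / 4 + (y : ℂ) * I))‖ ^ 2 =
      Real.cosh (2 * (Real.pi * y)) / 2 := by
    rw [h5, Complex.sin_add_mul_I, ← Complex.normSq_eq_norm_sq, ← Complex.ofReal_sin,
      ← Complex.ofReal_cos, ← Complex.ofReal_sinh, ← Complex.ofReal_cosh,
      Complex.normSq_apply, Real.sin_pi_div_four, Real.cos_pi_div_four]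
    simp only [Complex.add_re, Complex.add_im, Complex.mul_re, Complex.mul_im, Complex.ofReal_re,
      Complex.ofReal_im, Complex.I_re, Complex.I_im]
    have e2 := Real.cosh_sq (Real.pi * y)
    have e3 := Real.cosh_two_mul (Real.pi * y)
    have e4 : √2 * √2 = (2 : ℝ) := Real.mul_self_sqrt (by norm_num)
    rw [e3]
    linear_combination ((Real.cosh (Real.pi * y) ^ 2 + Real.sinh (Real.pi * y) ^ 2) / 4) * e4
  rw [← h6, Real.sqrt_sq (norm_nonneg _)]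

theorem f1_k7_D (t r : ℝ) : √(Real.cosh (2 * (Real.pi * ((t + r) / 2))) / 2) *
    √(Real.cosh (2 * (Real.pi * ((t - r) / 2))) / 2) =
    √(Real.cosh (Real.pi * t) ^ 2 + Real.sinh (Real.pi * r) ^ 2) / 2 := by
  have a1 : 2 * (Real.pi * ((t + r) / 2)) = Real.pi * t + Real.pi * r := by ring
  have a2 : 2 * (Real.pi * ((t - r) / 2)) = Real.pi * t - Real.pi * r := by ring
  rw [a1, a2, ← Real.sqrt_mul (div_nonneg (Real.cosh_pos _).le (by norm_num))]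
  have h4 : Real.cosh (Real.pi * t + Real.pi * r) / 2 * (Real.cosh (Real.pi * t - Real.pi * r) / 2) =
      (Real.cosh (Real.pi * t) ^ 2 + Real.sinh (Real.pi * r) ^ 2) / 2 ^ 2 := by
    rw [Real.cosh_add, Real.cosh_sub]
    have e1 := Real.cosh_sq (Real.pi * t)
    have e2 := Real.cosh_sq (Real.pi * r)
    have e3 : (Real.cosh (Real.pi * t) * Real.cosh (Real.pi * r) +
        Real.sinh (Real.pi * t) * Real.sinh (Real.pi * r)) / 2 *
        ((Real.cosh (Real.pi * t) * Real.cosh (Real.pi * r) -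
        Real.sinh (Real.pi * t) * Real.sinh (Real.pi * r)) / 2) =
        (Real.cosh (Real.pi * t) ^ 2 * Real.cosh (Real.pi * r) ^ 2 -
        Real.sinh (Real.pi * t) ^ 2 * Real.sinh (Real.pi * r) ^ 2) / 4 := by ring
    rw [e3, e1, e2]
    ring
  rw [h4, Real.sqrt_div (by positivity), Real.sqrt_sq (by norm_num)]

/-- the product of the Gamma values -/
noncomputable def f1_k7_H (ν : ℂ) (ε t : ℝ) : ℝ :=
  ‖Gamma ((1 + ν + ε / 2) / 2 + (t / 2 : ℝ) * I)‖ * ‖Gamma ((1 - ν - ε / 2) / 2 + (t / 2 : ℝ) * I)‖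

theorem f1_k7_G {ν : ℂ} (hν : ν.re = 0) {ε : ℝ} (hε : ε = 1 ∨ ε = -1) (t : ℝ) :
    ‖G1 ν ε (ha t) (Real.pi / 2 : ℝ)‖ = f1_k7_H ν ε t := by
  rw [G1_half hν hε (by rw [(f1_k7_ha t).1]; norm_num)]
  have e1 : (ha t + 1 / 2 + ν + ε / 2) / 2 = (1 + ν + ε / 2) / 2 + (t / 2 : ℝ) * I := by
    unfold ha; push_cast; ring
  have e2 : (ha t + 1 / 2 - ν - ε / 2) / 2 = (1 - ν - ε / 2) / 2 + (t / 2 : ℝ) * I := by
    unfold ha; push_cast; ring
  rw [e1, e2, norm_mul, norm_mul, norm_mul]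
  have n1 : ‖((2 * Real.pi : ℝ) : ℂ) ^ (1 / 2 - ha t)‖ = 1 := by
    rw [Complex.norm_cpow_eq_rpow_re_of_pos (by positivity)]
    have : (1 / 2 - ha t).re = 0 := by
      rw [Complex.sub_re, (f1_k7_ha t).1]; simp
    rw [this, Real.rpow_zero]
  have n2 : ‖(2 : ℂ) ^ (ha t - 1 / 2)‖ = 1 := by
    have h1 := Complex.norm_cpow_eq_rpow_re_of_pos (x := 2) (by norm_num) (ha t - 1 / 2)
    have h2 : (ha t - 1 / 2).re = 0 := by
      rw [Complex.sub_re, (f1_k7_ha t).1]; simp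
    rw [h2, Real.rpow_zero] at h1
    exact_mod_cast h1
  rw [n1, n2, one_mul, one_mul]
  rfl

/-- the value of `H` in terms of the ratios -/
theorem f1_k7_val {ν : ℂ} (hν : ν.re = 0) {t : ℝ} (ht : 0 < t) :
    Real.exp (Real.pi * t) * f1_k7_H ν 1 t ^ 2 / (4 * Real.pi ^ 2) =
      (2 * Real.exp (-(Real.pi * t)) *
        √(Real.cosh (Real.pi * t) ^ 2 + Real.sinh (Real.pi * ν.im) ^ 2))⁻¹ *
      ((‖Gamma ((1 / 2 + ν) / 2 + (t / 2 : ℝ) * I + 1 / 2) /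
        Gamma ((1 / 2 + ν) / 2 + (t / 2 : ℝ) * I)‖ / √(t / 2)) *
      (‖Gamma ((1 / 2 - ν) / 2 + (t / 2 : ℝ) * I + 1 / 2) /
        Gamma ((1 / 2 - ν) / 2 + (t / 2 : ℝ) * I)‖ / √(t / 2))⁻¹) := by
  have hi : ν = (ν.im : ℂ) * I := by
    apply Complex.ext <;> simp [hν]
  have w1 : (1 / 2 + ν) / 2 + (t / 2 : ℝ) * I = 1 / 4 + (((t + ν.im) / 2 : ℝ) : ℂ) * I := by
    rw [hi]
    push_cast
    simp
    ring
  have w2 : (1 / 2 - ν) / 2 + (t / 2 : ℝ) * I = 1 / 4 + (((t - ν.im) / 2 : ℝ) : ℂ) * I := by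
    rw [hi]
    push_cast
    simp
    ring
  have v1 : (1 + ν + ((1 : ℝ) : ℂ) / 2) / 2 + (t / 2 : ℝ) * I =
      1 / 4 + (((t + ν.im) / 2 : ℝ) : ℂ) * I + 1 / 2 := by
    rw [← w1]
    push_cast
    ring
  have v2 : (1 - ν - ((1 : ℝ) : ℂ) / 2) / 2 + (t / 2 : ℝ) * I =
      1 / 4 + (((t - ν.im) / 2 : ℝ) : ℂ) * I := by
    rw [← w2]
    push_cast
    ring
  unfold f1_k7_H
  rw [v1, v2, w1, w2, norm_div, norm_div]
  have p1 := f1_k7_AB ((t + ν.im) / 2)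
  have p2 := f1_k7_AB ((t - ν.im) / 2)
  have pD := f1_k7_D t ν.im
  set A₁ := ‖Gamma (1 / 4 + (((t + ν.im) / 2 : ℝ) : ℂ) * I)‖
  set B₁ := ‖Gamma (1 / 4 + (((t + ν.im) / 2 : ℝ) : ℂ) * I + 1 / 2)‖
  set A₂ := ‖Gamma (1 / 4 + (((t - ν.im) / 2 : ℝ) : ℂ) * I)‖
  set B₂ := ‖Gamma (1 / 4 + (((t - ν.im) / 2 : ℝ) : ℂ) * I + 1 / 2)‖
  set c₁ := √(Real.cosh (2 * (Real.pi * ((t + ν.im) / 2))) / 2)
  set c₂ := √(Real.cosh (2 * (Real.pi * ((t - ν.im) / 2))) / 2)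
  set D := √(Real.cosh (Real.pi * t) ^ 2 + Real.sinh (Real.pi * ν.im) ^ 2)
  have hc₁ : 0 < c₁ := Real.sqrt_pos.2 (div_pos (Real.cosh_pos _) (by norm_num))
  have hc₂ : 0 < c₂ := Real.sqrt_pos.2 (div_pos (Real.cosh_pos _) (by norm_num))
  have hs : 0 < √(t / 2) := Real.sqrt_pos.2 (by linarith)
  have hpi := Real.pi_pos
  have hAB₁ : 0 < A₁ * B₁ := by rw [p1]; positivity
  have hAB₂ : 0 < A₂ * B₂ := by rw [p2]; positivity
  have hA₁ : A₁ ≠ 0 := fun h => by rw [h, zero_mul] at hAB₁; exact lt_irrefl _ hAB₁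
  have hB₁ : B₁ ≠ 0 := fun h => by rw [h, mul_zero] at hAB₁; exact lt_irrefl _ hAB₁
  have hA₂ : A₂ ≠ 0 := fun h => by rw [h, zero_mul] at hAB₂; exact lt_irrefl _ hAB₂
  have hB₂ : B₂ ≠ 0 := fun h => by rw [h, mul_zero] at hAB₂; exact lt_irrefl _ hAB₂
  have hD : D = 2 * (c₁ * c₂) := by rw [pD]; ring
  have q1 : A₁ * B₁ * c₁ = Real.pi := by rw [p1]; field_simp
  have q2 : A₂ * B₂ * c₂ = Real.pi := by rw [p2]; field_simp
  have q3 : (4 : ℝ) * Real.pi ^ 2 = 4 * ((A₁ * B₁ * c₁) * (A₂ * B₂ * c₂)) := by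
    rw [q1, q2]; ring
  have he := (Real.exp_pos (Real.pi * t)).ne'
  rw [hD, q3, Real.exp_neg]
  field_simp
  norm_num

theorem f1_k7_symm {ν : ℂ} (hν : ν.re = 0) (ε t : ℝ) :
    f1_k7_H ν ε (-t) = f1_k7_H (-ν) ε t ∧ f1_k7_H ν (-ε) t = f1_k7_H (-ν) ε t := by
  have hi : conj ν = -ν := by
    apply Complex.ext <;> simp [hν]
  have h2c : (starRingEnd ℂ) 2 = 2 := map_ofNat _ 2
  constructor
  · unfold f1_k7_H
    have h1 : conj (Gamma ((1 + ν + ε / 2) / 2 + ((-t) / 2 : ℝ) * I)) =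
        Gamma ((1 + -ν + ε / 2) / 2 + (t / 2 : ℝ) * I) := by
      rw [← Gamma_conj]
      congr 1
      simp [hi, h2c]
      ring
    have h2 : conj (Gamma ((1 - ν - ε / 2) / 2 + ((-t) / 2 : ℝ) * I)) =
        Gamma ((1 - -ν - ε / 2) / 2 + (t / 2 : ℝ) * I) := by
      rw [← Gamma_conj]
      congr 1
      simp [hi, h2c]
      ring
    rw [← h1, ← h2, RCLike.norm_conj, RCLike.norm_conj]
  · unfold f1_k7_H
    rw [mul_comm]
    congr 3 <;> push_cast <;> ring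

theorem f1_k7_main {ν : ℂ} (hν : ν.re = 0) : ∃ C : ℝ, ∀ t : ℝ, 1 ≤ t →
    |Real.exp (Real.pi * t) * f1_k7_H ν 1 t ^ 2 - 4 * Real.pi ^ 2| ≤ C * t ^ (-(1 / 2 : ℝ)) := by
  have r1 : ((1 / 2 + ν) / 2 : ℂ).re = 1 / 4 := by
    simp [hν]; norm_num
  have r2 : ((1 / 2 - ν) / 2 : ℂ).re = 1 / 4 := by
    simp [hν]; norm_num
  have hq := f1_k7_q (D := fun t => Real.cosh (Real.pi * t) ^ 2 + Real.sinh (Real.pi * ν.im) ^ 2)
    (K := Real.sinh (Real.pi * ν.im) ^ 2) (sq_nonneg _) (fun t => by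
      have := Real.cosh_sq (Real.pi * t)
      nlinarith [sq_nonneg (Real.sinh (Real.pi * ν.im))]) (fun t => le_refl _)
  have hu₁ := f1_k7_ratio (w := (1 / 2 + ν) / 2) (by rw [r1]; norm_num) (by rw [r1]; norm_num)
  have hu₂ := f1_k7_ratio (w := (1 / 2 - ν) / 2) (by rw [r2]; norm_num) (by rw [r2]; norm_num)
  have hap := f1_k7_mul (f1_k7_inv hq) (f1_k7_mul hu₁ (f1_k7_inv hu₂))
  have hc : Continuous (f1_k7_H ν 1) := by
    unfold f1_k7_H
    refine (f1_k7_cont (w := (1 + ν + ((1 : ℝ) : ℂ) / 2) / 2) ?_).mul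
      (f1_k7_cont (w := (1 - ν - ((1 : ℝ) : ℂ) / 2) / 2) ?_)
    · simp [hν]; norm_num
    · simp [hν]; norm_num
  refine f1_k7_fin (v := fun t => Real.exp (Real.pi * t) * f1_k7_H ν 1 t ^ 2)
    (Continuous.continuousOn (by fun_prop)) ?_
  refine hap.congr' ?_ EventuallyEq.rfl
  filter_upwards [eventually_gt_atTop 0] with t ht
  show _ - 1 = _ - 1
  congr 1
  exact (f1_k7_val hν ht).symm

theorem stir1_pr {ν : ℂ} (hν : ν.re = 0) {ε : ℝ} (hε : ε = 1 ∨ ε = -1) : ∃ C : ℝ, ∀ t : ℝ,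
    1 ≤ |t| →
    |Real.exp (Real.pi * |t|) * ‖G1 ν ε (ha t) (Real.pi / 2 : ℝ)‖ ^ 2 - 4 * Real.pi ^ 2| ≤
      C * |t| ^ (-(1 / 2 : ℝ)) := by
  have hν' : (-ν).re = 0 := by simp [hν]
  obtain ⟨C₁, h₁⟩ := f1_k7_main hν
  obtain ⟨C₂, h₂⟩ := f1_k7_main hν'
  refine ⟨max C₁ C₂, fun t ht => ?_⟩
  rw [f1_k7_G hν hε]
  have hp : 0 ≤ |t| ^ (-(1 / 2 : ℝ)) := Real.rpow_nonneg (abs_nonneg t) _
  have k1 : ∀ x : ℝ, x ≤ C₁ * |t| ^ (-(1 / 2 : ℝ)) → x ≤ max C₁ C₂ * |t| ^ (-(1 / 2 : ℝ)) :=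
    fun x hx => hx.trans (mul_le_mul_of_nonneg_right (le_max_left _ _) hp)
  have k2 : ∀ x : ℝ, x ≤ C₂ * |t| ^ (-(1 / 2 : ℝ)) → x ≤ max C₁ C₂ * |t| ^ (-(1 / 2 : ℝ)) :=
    fun x hx => hx.trans (mul_le_mul_of_nonneg_right (le_max_right _ _) hp)
  rcases le_total 0 t with h0 | h0
  · rw [abs_of_nonneg h0] at ht k1 k2 ⊢
    rcases hε with rfl | rfl
    · exact k1 _ (h₁ t ht)
    · rw [(f1_k7_symm hν 1 t).2]
      exact k2 _ (h₂ t ht)
  · rw [abs_of_nonpos h0] at ht k1 k2 ⊢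
    have e1 : f1_k7_H ν ε t = f1_k7_H (-ν) ε (-t) := by
      have := (f1_k7_symm hν ε (-t)).1
      rwa [neg_neg] at this
    rw [e1]
    rcases hε with rfl | rfl
    · exact k2 _ (h₂ (-t) ht)
    · rw [(f1_k7_symm hν' 1 (-t)).2, neg_neg]
      exact k1 _ (h₁ (-t) ht)

theorem Gamma_one_sq_pr {t : ℝ} (ht : t ≠ 0) :
    ‖Gamma (1 + (t : ℂ) * I)‖ ^ 2 = Real.pi * t / Real.sinh (Real.pi * t) := by
  have h1 : conj (Gamma (1 + (t : ℂ) * I)) = Gamma (1 - (t : ℂ) * I) := by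
    rw [← Gamma_conj]
    congr 1
    apply Complex.ext <;> simp
  have h2 : ((‖Gamma (1 + (t : ℂ) * I)‖ ^ 2 : ℝ) : ℂ) =
      Gamma (1 + (t : ℂ) * I) * Gamma (1 - (t : ℂ) * I) := by
    rw [← h1, Complex.mul_conj, Complex.normSq_eq_norm_sq]
  have ht' : (t : ℂ) * I ≠ 0 := by
    simp [ht]
  have h3 : Gamma (1 + (t : ℂ) * I) = (t : ℂ) * I * Gamma ((t : ℂ) * I) := by
    rw [add_comm]
    exact Gamma_add_one _ ht'
  have h4 : Complex.sin (Real.pi * ((t : ℂ) * I)) = ((Real.sinh (Real.pi * t) : ℝ) : ℂ) * I := by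
    rw [← mul_assoc, Complex.sin_mul_I]
    push_cast
    rfl
  have h5 : ((‖Gamma (1 + (t : ℂ) * I)‖ ^ 2 : ℝ) : ℂ) =
      ((Real.pi * t / Real.sinh (Real.pi * t) : ℝ) : ℂ) := by
    rw [h2, h3, mul_assoc, Gamma_mul_Gamma_one_sub, h4]
    have h6 : Real.sinh (Real.pi * t) ≠ 0 := by
      rw [Ne, Real.sinh_eq_zero]
      exact mul_ne_zero Real.pi_ne_zero ht
    have h7 : ((Real.sinh (Real.pi * t) : ℝ) : ℂ) ≠ 0 := by exact_mod_cast h6
    push_cast at h7 ⊢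
    field_simp
  exact_mod_cast h5


end Pool.Agent.JO.FM1

namespace Pool.Agent.JO.FM1

theorem Gamma_one_sq : type_of% @Gamma_one_sq_pr := @Gamma_one_sq_pr
theorem stir1 : type_of% @stir1_pr := @stir1_pr

end Pool.Agent.JO.FM1
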