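import Pool.Agent.Lib_helper42.JO1.Defs
import Pool.Agent.Lib_helper45.JO.Defs2
import Pool.Agent.Lib_helper42.JO1F.K7

/-!
-/

set_option autoImplicit false

namespace Pool.Agent.JO.FM1

open Complex Filter Topology MeasureTheory Set
open UpperHalfPlane hiding I
open Pool.Agent.JO.FM
open scoped MatrixGroups ComplexConjugate

theorem f1_m8_exp_abs {k : ℝ} (hk : 0 < k) : Integrable (fun u : ℝ => Real.exp (-(k * |u|))) := by
  have h1 : IntegrableOn (fun u : ℝ => Real.exp (-(k * |u|))) (Ioi 0) := by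
    have h : IntegrableOn (fun u : ℝ => Real.exp (-k * u)) (Ioi 0) :=
      exp_neg_integrableOn_Ioi 0 hk
    refine h.congr_fun ?_ measurableSet_Ioi
    intro u hu
    have hu : 0 < u := hu
    simp only
    rw [abs_of_pos hu]
    congr 1
    ring
  have h2 : IntegrableOn (fun u : ℝ => Real.exp (-(k * |u|))) (Iic 0) := by
    rw [integrableOn_Iic_iff_integrableOn_Iio]
    have h4 := (Measure.measurePreserving_neg (volume : Measure ℝ)).integrableOn_comp_preimage
      (MeasurableEquiv.neg ℝ).measurableEmbedding (f := fun u : ℝ => Real.exp (-(k * |u|)))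
      (s := Iio 0)
    refine h4.1 ?_
    have h5 : (Neg.neg ⁻¹' Iio (0 : ℝ)) = Ioi 0 := by
      ext x
      simp
    rw [h5]
    refine h1.congr_fun ?_ measurableSet_Ioi
    intro u _
    simp only [Function.comp_apply, abs_neg]
  have h3 := h2.union h1
  rwa [Iic_union_Ioi, integrableOn_univ] at h3

/-- real and imaginary part of `sin θ cosh u - σ i cos θ` -/
theorem f1_m8_parts (θ : ℂ) (c σ : ℝ) :
    (Complex.sin θ * (c : ℂ) + (σ : ℂ) * (I * Complex.cos θ)).re =
      Real.sin θ.re * (Real.cosh θ.im * c + σ * Real.sinh θ.im) ∧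
    (Complex.sin θ * (c : ℂ) + (σ : ℂ) * (I * Complex.cos θ)).im =
      Real.cos θ.re * (Real.sinh θ.im * c + σ * Real.cosh θ.im) := by
  have hs := Complex.sin_eq θ
  have hc := Complex.cos_eq θ
  rw [← Complex.ofReal_sin, ← Complex.ofReal_cos, ← Complex.ofReal_cosh, ← Complex.ofReal_sinh]
    at hs hc
  constructor
  · rw [hs, hc]
    simp only [Complex.add_re, Complex.mul_re, Complex.mul_im, Complex.sub_re, Complex.sub_im,
      Complex.add_im, Complex.ofReal_re, Complex.ofReal_im, Complex.I_re, Complex.I_im]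
    ring
  · rw [hs, hc]
    simp only [Complex.add_re, Complex.mul_re, Complex.mul_im, Complex.sub_re, Complex.sub_im,
      Complex.add_im, Complex.ofReal_re, Complex.ofReal_im, Complex.I_re, Complex.I_im]
    ring

/-- the elementary bound for one of the two terms -/
theorem f1_m8_term {α R : ℝ} (hα : 0 < α) (hα' : α ≤ Real.pi / 2) {θ : ℂ} (h0 : α ≤ θ.re)
    (h1 : θ.re ≤ Real.pi - α) (hR : |θ.im| ≤ R) {σ : ℝ} (hσ : σ = 1 ∨ σ = -1) (t u : ℝ) :
    ‖(Complex.sin θ * (Real.cosh u : ℝ) + (σ : ℂ) * (I * Complex.cos θ)) ^ (-ha t - 1 / 2)‖ ≤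
      ((Real.sin α * Real.exp (-R)) * Real.cosh u)⁻¹ *
        Real.exp ((Real.pi / 2 - α) * |t|) := by
  set A : ℂ := Complex.sin θ * (Real.cosh u : ℝ) + (σ : ℂ) * (I * Complex.cos θ) with hA
  obtain ⟨hre, him⟩ := f1_m8_parts θ (Real.cosh u) σ
  rw [← hA] at hre him
  have hcu : 1 ≤ Real.cosh u := Real.one_le_cosh u
  have hsα : 0 < Real.sin α := Real.sin_pos_of_pos_of_lt_pi hα (by linarith [Real.pi_pos])
  have hsin : Real.sin α ≤ Real.sin θ.re := by
    rcases le_total θ.re (Real.pi / 2) with h | h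
    · exact Real.sin_le_sin_of_le_of_le_pi_div_two (by linarith [Real.pi_pos]) h h0
    · rw [← Real.sin_pi_sub θ.re]
      exact Real.sin_le_sin_of_le_of_le_pi_div_two (by linarith [Real.pi_pos]) (by linarith)
        (by linarith)
  have hsp : 0 < Real.sin θ.re := lt_of_lt_of_le hsα hsin
  -- lower bound of the hyperbolic factor
  have hch : Real.exp (-R) * Real.cosh u ≤ Real.cosh θ.im * Real.cosh u + σ * Real.sinh θ.im := by
    have e1 : Real.exp (-R) ≤ Real.cosh θ.im - |Real.sinh θ.im| := by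
      rcases le_total 0 θ.im with h | h
      · rw [abs_of_nonneg (Real.sinh_nonneg_iff.2 h), Real.cosh_sub_sinh]
        apply Real.exp_le_exp.2
        rw [abs_of_nonneg h] at hR
        linarith
      · rw [abs_of_nonpos (Real.sinh_nonpos_iff.2 h), sub_neg_eq_add, Real.cosh_add_sinh]
        apply Real.exp_le_exp.2
        rw [abs_of_nonpos h] at hR
        linarith
    have e2 : -(|Real.sinh θ.im| * Real.cosh u) ≤ σ * Real.sinh θ.im := by
      have h3 : |σ * Real.sinh θ.im| = |Real.sinh θ.im| := by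
        rcases hσ with h | h <;> simp [h]
      have h4 := neg_abs_le (σ * Real.sinh θ.im)
      rw [h3] at h4
      nlinarith [abs_nonneg (Real.sinh θ.im)]
    nlinarith [Real.exp_pos (-R)]
  have hApos : Real.sin α * Real.exp (-R) * Real.cosh u ≤ A.re := by
    rw [hre]
    have : 0 < Real.exp (-R) * Real.cosh u := by positivity
    nlinarith
  have hpos : 0 < Real.sin α * Real.exp (-R) * Real.cosh u := by positivity
  have hArep : 0 < A.re := lt_of_lt_of_le hpos hApos
  have hA0 : A ≠ 0 := fun h => by rw [h] at hArep; simp at hArep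
  -- the argument
  have harg : |A.arg| ≤ Real.pi / 2 - α := by
    have ht := Complex.tan_arg A
    have hlt := Complex.abs_arg_lt_pi_div_two_iff.2 (Or.inl hArep)
    have hb : |Real.tan A.arg| ≤ Real.tan (Real.pi / 2 - α) := by
      rw [ht, abs_div, abs_of_pos hArep, div_le_iff₀ hArep, him, hre, abs_mul,
        Real.tan_pi_div_two_sub, Real.tan_eq_sin_div_cos, inv_div]
      have e1 : |Real.cos θ.re| * Real.sin α ≤ Real.cos α * Real.sin θ.re := by
        have e2 : 0 ≤ Real.sin (θ.re - α) :=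
          Real.sin_nonneg_of_nonneg_of_le_pi (by linarith) (by linarith)
        have e3 : 0 ≤ Real.sin (θ.re + α) :=
          Real.sin_nonneg_of_nonneg_of_le_pi (by linarith) (by linarith)
        rw [Real.sin_sub] at e2
        rw [Real.sin_add] at e3
        rcases le_total 0 (Real.cos θ.re) with h | h
        · rw [abs_of_nonneg h]; linarith
        · rw [abs_of_nonpos h]; linarith
      have e2 : |Real.sinh θ.im * Real.cosh u + σ * Real.cosh θ.im| ≤
          Real.cosh θ.im * Real.cosh u + σ * Real.sinh θ.im := by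
        have f1 := Real.cosh_sub_sinh θ.im
        have f2 := Real.cosh_add_sinh θ.im
        have f3 := Real.exp_pos (-θ.im)
        have f4 := Real.exp_pos θ.im
        rcases hσ with h | h
        · rw [h, abs_le]
          constructor
          · have : 0 ≤ (Real.cosh θ.im + Real.sinh θ.im) * (Real.cosh u + 1) := by
              rw [f2]; positivity
            nlinarith
          · have : 0 ≤ (Real.cosh θ.im - Real.sinh θ.im) * (Real.cosh u - 1) := by
              rw [f1]; exact mul_nonneg f3.le (by linarith)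
            nlinarith
        · rw [h, abs_le]
          constructor
          · have : 0 ≤ (Real.cosh θ.im + Real.sinh θ.im) * (Real.cosh u - 1) := by
              rw [f2]; exact mul_nonneg f4.le (by linarith)
            nlinarith
          · have : 0 ≤ (Real.cosh θ.im - Real.sinh θ.im) * (Real.cosh u + 1) := by
              rw [f1]; positivity
            nlinarith
      have e3 : 0 ≤ Real.cosh θ.im * Real.cosh u + σ * Real.sinh θ.im := le_trans (abs_nonneg _) e2
      have e4 : |Real.cos θ.re| ≤ Real.cos α / Real.sin α * Real.sin θ.re := by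
        rw [div_mul_eq_mul_div, le_div_iff₀ hsα]
        exact e1
      calc |Real.cos θ.re| * |Real.sinh θ.im * Real.cosh u + σ * Real.cosh θ.im|
          ≤ |Real.cos θ.re| * (Real.cosh θ.im * Real.cosh u + σ * Real.sinh θ.im) :=
            mul_le_mul_of_nonneg_left e2 (abs_nonneg _)
        _ ≤ (Real.cos α / Real.sin α * Real.sin θ.re) *
            (Real.cosh θ.im * Real.cosh u + σ * Real.sinh θ.im) :=
            mul_le_mul_of_nonneg_right e4 e3
        _ = Real.cos α / Real.sin α *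
            (Real.sin θ.re * (Real.cosh θ.im * Real.cosh u + σ * Real.sinh θ.im)) := by ring
    rw [abs_lt] at hlt
    have hm := Real.strictMonoOn_tan
    have k1 : Real.pi / 2 - α ∈ Ioo (-(Real.pi / 2)) (Real.pi / 2) :=
      ⟨by linarith [Real.pi_pos], by linarith⟩
    have k2 : A.arg ∈ Ioo (-(Real.pi / 2)) (Real.pi / 2) := ⟨by linarith [hlt.1], hlt.2⟩
    have k3 : -A.arg ∈ Ioo (-(Real.pi / 2)) (Real.pi / 2) :=
      ⟨by linarith [hlt.2], by linarith [hlt.1]⟩
    rw [abs_le] at hb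
    rw [abs_le]
    constructor
    · have : -A.arg ≤ Real.pi / 2 - α := by
        refine (hm.le_iff_le k3 k1).1 ?_
        rw [Real.tan_neg]
        linarith [hb.1]
      linarith
    · exact (hm.le_iff_le k2 k1).1 hb.2
  rw [Complex.norm_cpow_of_ne_zero hA0]
  have hw1 : (-ha t - 1 / 2).re = -1 := by simp [ha]; norm_num
  have hw2 : (-ha t - 1 / 2).im = -t := by simp [ha]
  rw [hw1, hw2, div_eq_mul_inv, ← Real.exp_neg, Real.rpow_neg_one]
  refine mul_le_mul ?_ ?_ (Real.exp_pos _).le (by positivity)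
  · exact inv_anti₀ hpos (le_trans hApos (Complex.re_le_norm A))
  · apply Real.exp_le_exp.2
    have : -(A.arg * -t) ≤ |A.arg| * |t| := by
      rw [← abs_mul]
      have := le_abs_self (A.arg * t)
      linarith
    refine le_trans this ?_
    exact mul_le_mul_of_nonneg_right harg (abs_nonneg t)

theorem f1_m8_sin_le (θ : ℂ) {R : ℝ} (hR : |θ.im| ≤ R) : ‖Complex.sin θ‖ ≤ 2 * Real.exp R := by
  have hs := Complex.sin_eq θ
  rw [← Complex.ofReal_sin, ← Complex.ofReal_cos, ← Complex.ofReal_cosh, ← Complex.ofReal_sinh]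
    at hs
  rw [hs]
  have h1 : Real.cosh θ.im ≤ Real.exp R := by
    rw [← Real.cosh_abs]
    have h2 : Real.cosh |θ.im| ≤ Real.exp |θ.im| := by
      have h4 : 0 ≤ Real.sinh |θ.im| := Real.sinh_nonneg_iff.2 (abs_nonneg _)
      linarith [Real.cosh_add_sinh |θ.im|]
    exact le_trans h2 (Real.exp_le_exp.2 hR)
  have h2 : |Real.sinh θ.im| ≤ Real.exp R := by
    refine le_trans ?_ h1
    rw [abs_le]
    constructor
    · linarith [Real.cosh_add_sinh θ.im, Real.exp_pos θ.im]
    · linarith [Real.cosh_sub_sinh θ.im, Real.exp_pos (-θ.im)]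
  calc ‖((Real.sin θ.re : ℝ) : ℂ) * ((Real.cosh θ.im : ℝ) : ℂ) +
        ((Real.cos θ.re : ℝ) : ℂ) * ((Real.sinh θ.im : ℝ) : ℂ) * I‖
      ≤ ‖((Real.sin θ.re : ℝ) : ℂ) * ((Real.cosh θ.im : ℝ) : ℂ)‖ +
        ‖((Real.cos θ.re : ℝ) : ℂ) * ((Real.sinh θ.im : ℝ) : ℂ) * I‖ := norm_add_le _ _
    _ = |Real.sin θ.re| * Real.cosh θ.im + |Real.cos θ.re| * |Real.sinh θ.im| := by
        rw [norm_mul, norm_mul, norm_mul, Complex.norm_I, mul_one, Complex.norm_real,
          Complex.norm_real, Complex.norm_real, Complex.norm_real, Real.norm_eq_abs,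
          Real.norm_eq_abs, Real.norm_eq_abs, Real.norm_eq_abs, abs_of_pos (Real.cosh_pos θ.im)]
    _ ≤ 1 * Real.exp R + 1 * Real.exp R := by
        refine add_le_add ?_ ?_
        · exact mul_le_mul (Real.abs_sin_le_one _) h1 (Real.cosh_pos _).le zero_le_one
        · exact mul_le_mul (Real.abs_cos_le_one _) h2 (abs_nonneg _) zero_le_one
    _ = 2 * Real.exp R := by ring

theorem f1_m8_exp_abs_le_cosh (u : ℝ) : Real.exp |u| / 2 ≤ Real.cosh u := by
  rw [← Real.cosh_abs, Real.cosh_eq]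
  have := Real.exp_pos (-|u|)
  linarith

theorem f1_m8_cosh_inv (u : ℝ) : (Real.cosh u)⁻¹ ≤ 2 * Real.exp (-|u|) := by
  have h1 := inv_anti₀ (by positivity) (f1_m8_exp_abs_le_cosh u)
  refine le_trans h1 (le_of_eq ?_)
  rw [Real.exp_neg]
  field_simp

theorem f1_m8_cosh_le (u : ℝ) : Real.cosh (u / 2) ≤ Real.exp (1 / 2 * |u|) := by
  rw [← Real.cosh_abs]
  have h4 : 0 ≤ Real.sinh |u / 2| := Real.sinh_nonneg_iff.2 (abs_nonneg _)
  have h5 := Real.cosh_add_sinh |u / 2|
  have h6 : |u / 2| = 1 / 2 * |u| := by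
    rw [abs_div, abs_of_pos (by norm_num : (0 : ℝ) < 2)]
    ring
  rw [h6] at h4 h5 ⊢
  linarith

theorem f1_m8_sinh_le (u : ℝ) : |Real.sinh (u / 2)| ≤ Real.exp (1 / 2 * |u|) := by
  refine le_trans ?_ (f1_m8_cosh_le u)
  rw [abs_le]
  constructor
  · linarith [Real.cosh_add_sinh (u / 2), Real.exp_pos (u / 2)]
  · linarith [Real.cosh_sub_sinh (u / 2), Real.exp_pos (-(u / 2))]

/-- the size of `Γ(1+it)` -/
theorem f1_m8_gamma (t : ℝ) :
    ‖Gamma (1 + (t : ℂ) * I)‖ ≤ 3 * (1 + |t|) * Real.exp (-(Real.pi / 2 * |t|)) := by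
  rcases eq_or_ne t 0 with h | h
  · subst h
    simp
  · have h2 := Gamma_one_sq h
    have hx : 0 < Real.pi * |t| := mul_pos Real.pi_pos (abs_pos.2 h)
    have e1 : Real.pi * t / Real.sinh (Real.pi * t) =
        Real.pi * |t| / Real.sinh (Real.pi * |t|) := by
      rcases le_total 0 t with h' | h'
      · rw [abs_of_nonneg h']
      · rw [abs_of_nonpos h', mul_neg, Real.sinh_neg, neg_div_neg_eq]
    have hs : 0 < Real.sinh (Real.pi * |t|) := Real.sinh_pos_iff.2 hx
    have h4 : ‖Gamma (1 + (t : ℂ) * I)‖ ^ 2 ≤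
        (3 * (1 + |t|) * Real.exp (-(Real.pi / 2 * |t|))) ^ 2 := by
      rw [h2, e1, mul_pow, ← Real.exp_nat_mul, div_le_iff₀ hs]
      have h5 : ((2 : ℕ) : ℝ) * -(Real.pi / 2 * |t|) = -(Real.pi * |t|) := by
        push_cast
        ring
      rw [h5]
      have k1 : Real.exp (-(Real.pi * |t|)) * Real.sinh (Real.pi * |t|) =
          (1 - Real.exp (-(2 * (Real.pi * |t|)))) / 2 := by
        rw [Real.sinh_eq, mul_div_assoc', mul_sub, ← Real.exp_add, ← Real.exp_add]
        congr 2
        · simp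
        · congr 1
          ring
      rw [mul_assoc, k1]
      have k2 : Real.exp (-(2 * (Real.pi * |t|))) * (1 + 2 * (Real.pi * |t|)) ≤ 1 := by
        have := Real.add_one_le_exp (2 * (Real.pi * |t|))
        calc Real.exp (-(2 * (Real.pi * |t|))) * (1 + 2 * (Real.pi * |t|))
            ≤ Real.exp (-(2 * (Real.pi * |t|))) * Real.exp (2 * (Real.pi * |t|)) :=
              mul_le_mul_of_nonneg_left (by linarith) (Real.exp_pos _).le
          _ = 1 := by rw [← Real.exp_add]; simp
      set x : ℝ := Real.pi * |t| with hxd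
      set y : ℝ := Real.exp (-(2 * x)) with hy
      have hy0 : 0 < y := Real.exp_pos _
      have k3 : x ≤ 4 * |t| := by
        rw [hxd]
        exact mul_le_mul_of_nonneg_right Real.pi_le_four (abs_nonneg _)
      have k4 : 2 * x ≤ (1 - y) * (1 + 2 * x) := by nlinarith
      have k5 : (1 + 2 * x) ≤ 9 * (1 + |t|) ^ 2 := by nlinarith [abs_nonneg t]
      have k6 : 0 ≤ 1 - y := by
        by_contra hcon
        push Not at hcon
        nlinarith
      have k7 : (1 - y) * (1 + 2 * x) ≤ (1 - y) * (9 * (1 + |t|) ^ 2) :=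
        mul_le_mul_of_nonneg_left k5 k6
      nlinarith
    exact (pow_le_pow_iff_left₀ (norm_nonneg _) (by positivity) two_ne_zero).1 h4

section

variable {ν : ℂ} {ε : ℝ} {a : ℕ → ℂ} {f : ℍ → ℂ} {L : ℂ → ℂ}

theorem G1_bound_pr (hν : ν.re = 0) (hε : ε = 1 ∨ ε = -1) {α R : ℝ} (hα : 0 < α)
    (hα' : α ≤ Real.pi / 2) : ∃ C : ℝ, ∀ (t : ℝ) (θ : ℂ), α ≤ θ.re → θ.re ≤ Real.pi - α →
      |θ.im| ≤ R → ‖G1 ν ε (ha t) θ‖ ≤ C * (1 + |t|) * Real.exp (-(α * |t|)) := by
  set q : ℝ := (Real.sin α * Real.exp (-R))⁻¹ with hq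
  have hsα : 0 < Real.sin α := Real.sin_pos_of_pos_of_lt_pi hα (by linarith [Real.pi_pos])
  have hq0 : 0 < q := by positivity
  set J : ℝ := ∫ u : ℝ, 4 * q * Real.exp (-(1 / 2 * |u|)) with hJ
  have hJ0 : 0 ≤ J := integral_nonneg fun u => by positivity
  refine ⟨3 * (2 * Real.exp R) * J, fun t θ h0 h1 hR => ?_⟩
  set E : ℝ := Real.exp ((Real.pi / 2 - α) * |t|) with hE
  have hE0 : 0 < E := Real.exp_pos _
  -- the integral
  have hint : ‖∫ u : ℝ, g1i ν ε (ha t) θ u‖ ≤ J * E := by
    have hb : Integrable (fun u : ℝ => 4 * q * Real.exp (-(1 / 2 * |u|)) * E) :=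
      ((f1_m8_exp_abs (by norm_num : (0 : ℝ) < 1 / 2)).const_mul _).mul_const _
    refine le_trans (norm_integral_le_of_norm_le hb (Eventually.of_forall fun u => ?_)) ?_
    · have e1 := f1_m8_term hα hα' h0 h1 hR (σ := -1) (Or.inr rfl) t u
      have e2 := f1_m8_term hα hα' h0 h1 hR (σ := 1) (Or.inl rfl) t u
      have e3 : Complex.sin θ * (Real.cosh u : ℝ) + ((-1 : ℝ) : ℂ) * (I * Complex.cos θ) =
          Complex.sin θ * (Real.cosh u : ℝ) - I * Complex.cos θ := by push_cast; ring
      have e4 : Complex.sin θ * (Real.cosh u : ℝ) + ((1 : ℝ) : ℂ) * (I * Complex.cos θ) =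
          Complex.sin θ * (Real.cosh u : ℝ) + I * Complex.cos θ := by push_cast; ring
      rw [e3] at e1
      rw [e4] at e2
      have e5 : (Real.sin α * Real.exp (-R) * Real.cosh u)⁻¹ ≤
          q * (2 * Real.exp (-|u|)) := by
        rw [mul_inv, ← hq]
        exact mul_le_mul_of_nonneg_left (f1_m8_cosh_inv u) hq0.le
      have e7 : ‖cexp (ν * u)‖ = 1 := by
        rw [Complex.norm_exp]
        simp [hν]
      have e8 : ‖(ε : ℂ)‖ = 1 := by
        rw [Complex.norm_real, Real.norm_eq_abs]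
        rcases hε with h | h <;> simp [h]
      have e9 : Real.exp (1 / 2 * |u|) * Real.exp (-|u|) = Real.exp (-(1 / 2 * |u|)) := by
        rw [← Real.exp_add]
        congr 1
        ring
      have f1 : ‖(Real.cosh (u / 2) : ℂ) *
          (Complex.sin θ * (Real.cosh u : ℝ) - I * Complex.cos θ) ^ (-ha t - 1 / 2)‖ ≤
          Real.exp (1 / 2 * |u|) * (q * (2 * Real.exp (-|u|)) * E) := by
        rw [norm_mul, Complex.norm_real, Real.norm_eq_abs, abs_of_pos (Real.cosh_pos _)]
        exact mul_le_mul (f1_m8_cosh_le u) (le_trans e1 (mul_le_mul_of_nonneg_right e5 hE0.le))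
          (norm_nonneg _) (Real.exp_pos _).le
      have f2 : ‖(ε : ℂ) * ((Real.sinh (u / 2) : ℂ) *
          (Complex.sin θ * (Real.cosh u : ℝ) + I * Complex.cos θ) ^ (-ha t - 1 / 2))‖ ≤
          Real.exp (1 / 2 * |u|) * (q * (2 * Real.exp (-|u|)) * E) := by
        rw [norm_mul, e8, one_mul, norm_mul, Complex.norm_real, Real.norm_eq_abs]
        exact mul_le_mul (f1_m8_sinh_le u) (le_trans e2 (mul_le_mul_of_nonneg_right e5 hE0.le))
          (norm_nonneg _) (Real.exp_pos _).le
      unfold g1i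
      rw [norm_mul, e7, one_mul]
      calc _ ≤ Real.exp (1 / 2 * |u|) * (q * (2 * Real.exp (-|u|)) * E) +
            Real.exp (1 / 2 * |u|) * (q * (2 * Real.exp (-|u|)) * E) :=
            le_trans (norm_add_le _ _) (add_le_add f1 f2)
        _ = 4 * q * (Real.exp (1 / 2 * |u|) * Real.exp (-|u|)) * E := by ring
        _ = 4 * q * Real.exp (-(1 / 2 * |u|)) * E := by rw [e9]
    · rw [integral_mul_const]
  have hG := f1_m8_gamma t
  have hs1 : ha t + 1 / 2 = 1 + (t : ℂ) * I := by
    unfold ha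
    ring
  have hS := f1_m8_sin_le θ hR
  have hP : ‖((2 * Real.pi : ℝ) : ℂ) ^ (1 / 2 - ha t)‖ = 1 := by
    rw [Complex.norm_cpow_eq_rpow_re_of_pos (by positivity)]
    simp [ha]
  unfold G1
  rw [norm_mul, norm_mul, norm_mul, hP, one_mul, hs1]
  calc ‖Gamma (1 + (t : ℂ) * I)‖ * ‖Complex.sin θ‖ * ‖∫ u : ℝ, g1i ν ε (ha t) θ u‖
      ≤ (3 * (1 + |t|) * Real.exp (-(Real.pi / 2 * |t|))) * (2 * Real.exp R) * (J * E) := by
        gcongr
    _ = 3 * (2 * Real.exp R) * J * (1 + |t|) *
          (Real.exp (-(Real.pi / 2 * |t|)) * E) := by ring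
    _ = 3 * (2 * Real.exp R) * J * (1 + |t|) * Real.exp (-(α * |t|)) := by
        rw [hE, ← Real.exp_add]
        congr 2
        ring

end

end Pool.Agent.JO.FM1

namespace Pool.Agent.JO.FM1

theorem G1_bound : type_of% @G1_bound_pr := @G1_bound_pr

end Pool.Agent.JO.FM1
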