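import Pool.Agent.Lib_helper42.JO1.Defs
import Pool.Agent.Lib_helper45.JO.Defs2

set_option autoImplicit false

namespace Pool.Agent.JO.FM1

open Complex Filter Topology MeasureTheory Set
open UpperHalfPlane hiding I
open Pool.Agent.JO.FM
open scoped MatrixGroups ComplexConjugate

/-- the majorant -/
noncomputable def f1_m9_M (κ r : ℝ) : ℝ := if r ≤ 1 then 1 / (r + κ) else 1 / (r * (1 + κ * r))

theorem f1_m9_low {κ : ℝ} (hκ : 0 < κ) : IntegrableOn (f1_m9_M κ) (Ioc 0 1) ∧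
    ∫ r in Ioc (0 : ℝ) 1, f1_m9_M κ r = Real.log (1 + 1 / κ) := by
  have hcong : EqOn (fun r : ℝ => 1 / (r + κ)) (f1_m9_M κ) (Ioc 0 1) := by
    intro r hr
    simp only [f1_m9_M]
    rw [if_pos hr.2]
  have hcont : ContinuousOn (fun r : ℝ => 1 / (r + κ)) (uIcc 0 1) := by
    intro r hr
    rw [uIcc_of_le zero_le_one] at hr
    have : r + κ ≠ 0 := by linarith [hr.1]
    exact (ContinuousAt.div (f := fun _ : ℝ => (1 : ℝ)) (g := fun r : ℝ => r + κ)
      continuousAt_const (by fun_prop) this).continuousWithinAt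
  have hii := hcont.intervalIntegrable (μ := volume)
  have hd : ∀ r ∈ uIcc (0 : ℝ) 1, HasDerivAt (fun r : ℝ => Real.log (r + κ)) (1 / (r + κ)) r := by
    intro r hr
    rw [uIcc_of_le zero_le_one] at hr
    have : r + κ ≠ 0 := by linarith [hr.1]
    exact ((hasDerivAt_id r).add_const κ).log this
  refine ⟨hii.1.congr_fun hcong measurableSet_Ioc, ?_⟩
  rw [← setIntegral_congr_fun measurableSet_Ioc hcong, ← intervalIntegral.integral_of_le zero_le_one,
    intervalIntegral.integral_eq_sub_of_hasDerivAt hd hii, ← Real.log_div (by positivity)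
      (by positivity)]
  congr 1
  field_simp
  ring

theorem f1_m9_up {κ : ℝ} (hκ : 0 < κ) : IntegrableOn (f1_m9_M κ) (Ioi 1) ∧
    ∫ r in Ioi (1 : ℝ), f1_m9_M κ r = Real.log (1 + 1 / κ) := by
  have hcong : EqOn (fun r : ℝ => 1 / (r * (1 + κ * r))) (f1_m9_M κ) (Ioi 1) := by
    intro r hr
    simp only [f1_m9_M]
    rw [if_neg (not_le.2 hr)]
  have hd : ∀ r ∈ Ici (1 : ℝ), HasDerivAt (fun r : ℝ => -Real.log (1 + 1 / (κ * r)))
      (1 / (r * (1 + κ * r))) r := by
    intro r hr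
    have hr1 : (1 : ℝ) ≤ r := hr
    have hr0 : 0 < r := by linarith
    have h1 : HasDerivAt (fun r : ℝ => 1 + 1 / (κ * r)) (-(κ) / (κ * r) ^ 2) r := by
      have h2 : HasDerivAt (fun r : ℝ => κ * r) κ r := by
        simpa using (hasDerivAt_id r).const_mul κ
      have h3 := h2.fun_inv (by positivity)
      have h4 := h3.const_add 1
      simpa [one_div] using h4
    have h5 := (h1.log (by positivity)).fun_neg
    refine h5.congr_deriv ?_
    field_simp
    ring
  have hpos : ∀ r ∈ Ioi (1 : ℝ), 0 ≤ 1 / (r * (1 + κ * r)) := by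
    intro r hr
    have hr1 : (1 : ℝ) < r := hr
    positivity
  have hlim : Tendsto (fun r : ℝ => -Real.log (1 + 1 / (κ * r))) atTop (𝓝 0) := by
    have h1 : Tendsto (fun r : ℝ => 1 + 1 / (κ * r)) atTop (𝓝 (1 + 0)) := by
      refine Tendsto.const_add 1 ?_
      refine Tendsto.div_atTop tendsto_const_nhds ?_
      exact tendsto_id.const_mul_atTop hκ
    rw [add_zero] at h1
    have h2 := (Real.continuousAt_log (x := 1) one_ne_zero).tendsto.comp h1
    have h3 := h2.neg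
    simpa using h3
  refine ⟨(integrableOn_Ioi_deriv_of_nonneg' hd hpos hlim).congr_fun hcong measurableSet_Ioi, ?_⟩
  rw [← setIntegral_congr_fun measurableSet_Ioi hcong,
    integral_Ioi_of_hasDerivAt_of_nonneg' hd hpos hlim]
  simp

theorem f1_m9_all {κ : ℝ} (hκ : 0 < κ) : IntegrableOn (f1_m9_M κ) (Ioi 0) ∧
    ∫ r in Ioi (0 : ℝ), f1_m9_M κ r = 2 * Real.log (1 + 1 / κ) := by
  obtain ⟨h1, h2⟩ := f1_m9_low hκ
  obtain ⟨h3, h4⟩ := f1_m9_up hκ
  have hu : Ioc (0 : ℝ) 1 ∪ Ioi 1 = Ioi 0 := Ioc_union_Ioi_eq_Ioi zero_le_one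
  rw [← hu]
  refine ⟨h1.union h3, ?_⟩
  rw [setIntegral_union Ioc_disjoint_Ioi_same measurableSet_Ioi h1 h3, h2, h4]
  ring

section

variable {ν : ℂ} {ε : ℝ} {a : ℕ → ℂ} {f : ℍ → ℂ} {L : ℂ → ℂ}

/-- the bound in terms of `sin θ` -/
theorem f1_m9_core {f : ℍ → ℂ} {C c : ℝ} (hc : 0 < c)
    (hdec : ∀ z : ℍ, ‖f z‖ ≤ C * Real.exp (-(c * z.im)) ∧
      ‖f z‖ ≤ C * Real.exp (-(c * (z.im / normSq (z : ℂ))))) {θ : ℝ} (hsin : 0 < Real.sin θ) :
    ‖ray (phi f) θ‖ ≤ C ^ 2 * (2 * Real.log (1 + 1 / (2 * c * Real.sin θ))) := by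
  set κ : ℝ := 2 * c * Real.sin θ with hκ
  have hκ0 : 0 < κ := by positivity
  obtain ⟨hI, hV⟩ := f1_m9_all hκ0
  -- the pointwise bound
  have hpt : ∀ r ∈ Ioi (0 : ℝ), ‖phi f (ofComplex (r * cexp (θ * I))) / (r : ℂ)‖ ≤
      C ^ 2 * f1_m9_M κ r := by
    intro r hr
    have hr0 : (0 : ℝ) < r := hr
    set w : ℂ := r * cexp (θ * I) with hw
    have hwim : w.im = r * Real.sin θ := by
      rw [hw, im_ofReal_mul, exp_ofReal_mul_I_im]
    have hwpos : 0 < w.im := by rw [hwim]; positivity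
    have hwn : normSq w = r ^ 2 := by
      rw [hw, map_mul, normSq_ofReal, normSq_eq_norm_sq, norm_exp_ofReal_mul_I]
      ring
    have hz : ((ofComplex w : ℍ) : ℂ) = w := by rw [ofComplex_apply_of_im_pos hwpos]
    have hzim : (ofComplex w : ℍ).im = r * Real.sin θ := by
      rw [← hwim, ← UpperHalfPlane.coe_im, hz]
    obtain ⟨h1, h2⟩ := hdec (ofComplex w)
    rw [hz, hwn, hzim] at h2
    rw [hzim] at h1
    have hexp : ∀ x : ℝ, 0 ≤ x → Real.exp (-x) ≤ 1 / (1 + x) := by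
      intro x hx
      rw [Real.exp_neg, inv_eq_one_div]
      exact one_div_le_one_div_of_le (by linarith) (by linarith [Real.add_one_le_exp x])
    rw [norm_div, phi, Complex.norm_real, Complex.norm_real, Real.norm_of_nonneg (by positivity),
      Real.norm_of_nonneg hr0.le]
    unfold f1_m9_M
    split_ifs with hr1
    · have h3 : ‖f (ofComplex w)‖ ^ 2 ≤ C ^ 2 * (1 / (1 + κ / r)) := by
        calc ‖f (ofComplex w)‖ ^ 2 ≤ (C * Real.exp (-(c * (r * Real.sin θ / r ^ 2)))) ^ 2 :=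
              pow_le_pow_left₀ (norm_nonneg _) h2 2
          _ = C ^ 2 * Real.exp (-(κ / r)) := by
              rw [mul_pow, ← Real.exp_nat_mul]
              congr 2
              rw [hκ]
              push_cast
              field_simp
          _ ≤ _ := mul_le_mul_of_nonneg_left (hexp _ (by positivity)) (by positivity)
      calc ‖f (ofComplex w)‖ ^ 2 / r ≤ C ^ 2 * (1 / (1 + κ / r)) / r :=
            div_le_div_of_nonneg_right h3 hr0.le
        _ = C ^ 2 * (1 / (r + κ)) := by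
            field_simp
    · have h3 : ‖f (ofComplex w)‖ ^ 2 ≤ C ^ 2 * (1 / (1 + κ * r)) := by
        calc ‖f (ofComplex w)‖ ^ 2 ≤ (C * Real.exp (-(c * (r * Real.sin θ)))) ^ 2 :=
              pow_le_pow_left₀ (norm_nonneg _) h1 2
          _ = C ^ 2 * Real.exp (-(κ * r)) := by
              rw [mul_pow, ← Real.exp_nat_mul]
              congr 2
              rw [hκ]
              push_cast
              ring
          _ ≤ _ := mul_le_mul_of_nonneg_left (hexp _ (by positivity)) (by positivity)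
      calc ‖f (ofComplex w)‖ ^ 2 / r ≤ C ^ 2 * (1 / (1 + κ * r)) / r :=
            div_le_div_of_nonneg_right h3 hr0.le
        _ = C ^ 2 * (1 / (r * (1 + κ * r))) := by
            field_simp
  unfold ray
  rw [← hV, ← integral_const_mul]
  exact norm_integral_le_of_norm_le (Integrable.const_mul hI _)
    ((ae_restrict_iff' measurableSet_Ioi).2 (ae_of_all _ hpt))

/-- the logarithm -/
theorem f1_m9_log {C c : ℝ} (hc : 0 < c) {θ : ℝ} (hθ : 0 < θ) (hθ2 : θ ≤ Real.pi / 2) {A : ℝ}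
    (h1 : A ≤ C ^ 2 * (2 * Real.log (1 + 1 / (2 * c * Real.sin θ)))) :
    A ≤ 2 * C ^ 2 * (1 + Real.log (1 + 1 / (4 * c))) * (1 + Real.log (Real.pi / θ)) := by
  have hpi := Real.pi_pos
  have hsin : 0 < Real.sin θ := Real.sin_pos_of_pos_of_lt_pi hθ (by linarith)
  set κ : ℝ := 2 * c * Real.sin θ with hκ
  have hκ0 : 0 < κ := by positivity
  have h2 : Real.log (1 + 1 / κ) ≤ Real.log (1 + 1 / (4 * c)) + Real.log (Real.pi / θ) := by
    rw [← Real.log_mul (by positivity) (by positivity)]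
    refine Real.log_le_log (by positivity) ?_
    have h3 : 2 / Real.pi * θ ≤ Real.sin θ := Real.mul_le_sin hθ.le hθ2
    have h4 : 1 ≤ Real.pi / θ := by
      rw [le_div_iff₀ hθ]; linarith
    have h5 : 1 / κ ≤ 1 / (4 * c) * (Real.pi / θ) := by
      have h6 : 4 * c * (θ / Real.pi) ≤ κ := by
        rw [hκ]
        calc 4 * c * (θ / Real.pi) = 2 * c * (2 / Real.pi * θ) := by ring
          _ ≤ 2 * c * Real.sin θ := mul_le_mul_of_nonneg_left h3 (by positivity)
      calc 1 / κ ≤ 1 / (4 * c * (θ / Real.pi)) :=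
            one_div_le_one_div_of_le (by positivity) h6
        _ = 1 / (4 * c) * (Real.pi / θ) := by field_simp
    calc 1 + 1 / κ ≤ Real.pi / θ + 1 / (4 * c) * (Real.pi / θ) := add_le_add h4 h5
      _ = (1 + 1 / (4 * c)) * (Real.pi / θ) := by ring
  have h3 : 0 ≤ Real.log (1 + 1 / (4 * c)) := by
    refine Real.log_nonneg ?_
    have : 0 < 1 / (4 * c) := by positivity
    linarith
  have h4 : 0 ≤ Real.log (Real.pi / θ) := by
    refine Real.log_nonneg ?_
    rw [le_div_iff₀ hθ]; linarith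
  calc A ≤ C ^ 2 * (2 * Real.log (1 + 1 / κ)) := h1
    _ ≤ C ^ 2 * (2 * (Real.log (1 + 1 / (4 * c)) + Real.log (Real.pi / θ))) := by
        refine mul_le_mul_of_nonneg_left ?_ (by positivity)
        linarith
    _ ≤ C ^ 2 * (2 * ((1 + Real.log (1 + 1 / (4 * c))) * (1 + Real.log (Real.pi / θ)))) := by
        refine mul_le_mul_of_nonneg_left ?_ (by positivity)
        nlinarith [mul_nonneg h3 h4]
    _ = _ := by ring

/-- M9: the size of `F(θ)` -/
theorem ray_le1_pr (F : Frame1 ν ε a f) : ∃ C : ℝ, ∀ θ : ℝ, 0 < θ → θ ≤ Real.pi / 2 →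
    ‖ray (phi f) θ‖ ≤ C * (1 + Real.log (Real.pi / θ)) ∧
    ‖ray (phi f) (Real.pi - θ)‖ ≤ C * (1 + Real.log (Real.pi / θ)) := by
  obtain ⟨C, c, hc, hdec⟩ := F.dec
  have hpi := Real.pi_pos
  refine ⟨2 * C ^ 2 * (1 + Real.log (1 + 1 / (4 * c))), fun θ hθ hθ2 => ?_⟩
  have hsin : 0 < Real.sin θ := Real.sin_pos_of_pos_of_lt_pi hθ (by linarith)
  refine ⟨f1_m9_log hc hθ hθ2 (f1_m9_core hc hdec hsin), f1_m9_log hc hθ hθ2 ?_⟩
  have h := f1_m9_core hc hdec (θ := Real.pi - θ) (by rw [Real.sin_pi_sub]; exact hsin)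
  rwa [Real.sin_pi_sub] at h

end

end Pool.Agent.JO.FM1

namespace Pool.Agent.JO.FM1

theorem ray_le1 : type_of% @ray_le1_pr := @ray_le1_pr

end Pool.Agent.JO.FM1
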