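import Pool.Agent.Lib_helper42.JO1.Defs
import Pool.Agent.Lib_helper45.JO.Defs2

/-!
-/

set_option autoImplicit false

namespace Pool.Agent.JO.FM1

open Complex Filter Topology MeasureTheory Set
open UpperHalfPlane hiding I
open Pool.Agent.JO.FM
open scoped MatrixGroups ComplexConjugate

section

variable {ν : ℂ} {ε : ℝ} {a : ℕ → ℂ} {f : ℍ → ℂ} {L : ℂ → ℂ}

theorem f1_p1_cpow {c : ℝ} (hc : 0 < c) {w : ℂ} (hw : w ≠ 0) (s : ℂ) :
    ((c : ℂ) * w) ^ s = (c : ℂ) ^ s * w ^ s := by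
  have hc' : (c : ℂ) ≠ 0 := by exact_mod_cast hc.ne'
  rw [cpow_def_of_ne_zero (mul_ne_zero hc' hw), cpow_def_of_ne_zero hc', cpow_def_of_ne_zero hw,
    ← Complex.exp_add]
  congr 1
  rw [Complex.log_ofReal_mul hc hw, Complex.ofReal_log hc.le]
  ring

/-- P1: the exact formula, `v = tan θ` -/
theorem G1_tan_pr (hν : ν.re = 0) {τ θ : ℝ} (hθ : θ ∈ Ioo 0 (Real.pi / 2)) :
    ‖G1 ν ε (ha τ) θ‖ ^ 2 = ‖Gamma (1 + (τ : ℂ) * I)‖ ^ 2 * Real.tan θ ^ 2 *
      ‖∫ u : ℝ, cexp (ν * u) *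
        ((Real.cosh (u / 2) : ℝ) *
            (((Real.tan θ * Real.cosh u : ℝ) : ℂ) - I) ^ (-1 - (τ : ℂ) * I) +
          ε * ((Real.sinh (u / 2) : ℝ) *
            (((Real.tan θ * Real.cosh u : ℝ) : ℂ) + I) ^ (-1 - (τ : ℂ) * I)))‖ ^ 2 := by
  have hs : 0 < Real.sin θ := Real.sin_pos_of_pos_of_lt_pi hθ.1 (by linarith [hθ.2, Real.pi_pos])
  have hc : 0 < Real.cos θ := Real.cos_pos_of_mem_Ioo ⟨by linarith [hθ.1, Real.pi_pos], hθ.2⟩
  have hexp : -ha τ - 1 / 2 = -1 - (τ : ℂ) * I := by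
    unfold ha
    ring
  have e1 : ∀ u : ℝ, g1i ν ε (ha τ) θ u =
      ((Real.cos θ : ℝ) : ℂ) ^ (-1 - (τ : ℂ) * I) * (cexp (ν * u) *
        ((Real.cosh (u / 2) : ℝ) *
            (((Real.tan θ * Real.cosh u : ℝ) : ℂ) - I) ^ (-1 - (τ : ℂ) * I) +
          ε * ((Real.sinh (u / 2) : ℝ) *
            (((Real.tan θ * Real.cosh u : ℝ) : ℂ) + I) ^ (-1 - (τ : ℂ) * I)))) := by
    intro u
    have f1 : Complex.sin θ * (Real.cosh u : ℝ) - I * Complex.cos θ =
        ((Real.cos θ : ℝ) : ℂ) * ((Real.tan θ * Real.cosh u : ℝ) - I) := by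
      rw [Real.tan_eq_sin_div_cos]
      have hc' : Complex.cos θ ≠ 0 := by
        rw [← Complex.ofReal_cos]
        exact_mod_cast hc.ne'
      push_cast
      field_simp
    have f2 : Complex.sin θ * (Real.cosh u : ℝ) + I * Complex.cos θ =
        ((Real.cos θ : ℝ) : ℂ) * ((Real.tan θ * Real.cosh u : ℝ) + I) := by
      rw [Real.tan_eq_sin_div_cos]
      have hc' : Complex.cos θ ≠ 0 := by
        rw [← Complex.ofReal_cos]
        exact_mod_cast hc.ne'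
      push_cast
      field_simp
    have n1 : (((Real.tan θ * Real.cosh u : ℝ) : ℂ) - I) ≠ 0 := by
      intro h
      have := congrArg Complex.im h
      simp at this
    have n2 : (((Real.tan θ * Real.cosh u : ℝ) : ℂ) + I) ≠ 0 := by
      intro h
      have := congrArg Complex.im h
      simp at this
    unfold g1i
    rw [hexp, f1, f2, f1_p1_cpow hc n1, f1_p1_cpow hc n2]
    ring
  unfold G1
  simp_rw [e1]
  rw [integral_const_mul]
  have g1 : ‖((2 * Real.pi : ℝ) : ℂ) ^ (1 / 2 - ha τ)‖ = 1 := by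
    rw [norm_cpow_eq_rpow_re_of_pos (by positivity)]
    have : (1 / 2 - ha τ).re = 0 := by simp [ha]
    rw [this, Real.rpow_zero]
  have g2 : ha τ + 1 / 2 = 1 + (τ : ℂ) * I := by
    unfold ha
    ring
  have g3 : ‖Complex.sin θ‖ = Real.sin θ := by
    rw [← Complex.ofReal_sin, Complex.norm_real, Real.norm_eq_abs, abs_of_pos hs]
  have g4 : ‖((Real.cos θ : ℝ) : ℂ) ^ (-1 - (τ : ℂ) * I)‖ = (Real.cos θ)⁻¹ := by
    rw [norm_cpow_eq_rpow_re_of_pos hc]
    have : (-1 - (τ : ℂ) * I).re = -1 := by simp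
    rw [this, Real.rpow_neg_one]
  rw [g2]
  simp only [norm_mul, mul_pow]
  rw [g1, g3, g4, Real.tan_eq_sin_div_cos]
  ring

end

end Pool.Agent.JO.FM1

namespace Pool.Agent.JO.FM1

theorem G1_tan : type_of% @G1_tan_pr := @G1_tan_pr

end Pool.Agent.JO.FM1
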