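import Pool.Agent.Lib_helper42.JO1.Defs
import Pool.Agent.Lib_helper45.JO.Defs2

/-! # Block P2 (weight 1): the function `hs1` -/

set_option autoImplicit false

namespace Pool.Agent.JO.FM1

open Complex Filter Topology MeasureTheory Set
open UpperHalfPlane hiding I
open Pool.Agent.JO.FM
open scoped MatrixGroups ComplexConjugate

theorem f1_p2_re (w : ℝ) : (1 - I * (w : ℂ)).re = 1 := by simp

theorem f1_p2_im (w : ℝ) : (1 - I * (w : ℂ)).im = -w := by simp

theorem f1_p2_ne (w : ℝ) : (1 - I * (w : ℂ)) ≠ 0 := by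
  intro h
  have := f1_p2_re w
  rw [h] at this
  simp at this

theorem f1_p2_norm (w : ℝ) : ‖1 - I * (w : ℂ)‖ = √(1 + w ^ 2) := by
  rw [Complex.norm_def, Complex.normSq_apply, f1_p2_re, f1_p2_im]
  congr 1
  ring

theorem f1_p2_arg (w : ℝ) : arg (1 - I * (w : ℂ)) = -Real.arctan w := by
  rw [Complex.arg_of_re_nonneg (by rw [f1_p2_re]; norm_num), f1_p2_im, f1_p2_norm, neg_div,
    Real.arcsin_neg, Real.arctan_eq_arcsin]

theorem f1_p2_cpow (w τ : ℝ) : ‖(1 - I * (w : ℂ)) ^ (-1 - (τ : ℂ) * I)‖ =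
    (1 + w ^ 2) ^ (-(1 / 2) : ℝ) * Real.exp (-(τ * Real.arctan w)) := by
  have hre : (-1 - (τ : ℂ) * I).re = -1 := by simp
  have him : (-1 - (τ : ℂ) * I).im = -τ := by simp
  rw [Complex.norm_cpow_of_ne_zero (f1_p2_ne w), f1_p2_norm, f1_p2_arg, hre, him]
  have h1 : 0 ≤ 1 + w ^ 2 := by positivity
  rw [Real.sqrt_eq_rpow, ← Real.rpow_mul h1, div_eq_mul_inv, ← Real.exp_neg]
  congr 2
  · norm_num
  · ring

theorem hs1_norm_pr {τ X : ℝ} (hτ : 0 < τ) (hX : 0 ≤ X) :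
    ‖hs1 τ X‖ = (1 + (X / τ) ^ 2) ^ (-(1 / 2) : ℝ) * Real.exp (-(τ * Real.arctan (X / τ))) ∧
    ‖(1 + I * ((X / τ : ℝ) : ℂ)) ^ (-1 - (τ : ℂ) * I)‖ =
      (1 + (X / τ) ^ 2) ^ (-(1 / 2) : ℝ) * Real.exp (τ * Real.arctan (X / τ)) := by
  refine ⟨f1_p2_cpow (X / τ) τ, ?_⟩
  have h := f1_p2_cpow (-(X / τ)) τ
  have e1 : (1 - I * ((-(X / τ) : ℝ) : ℂ)) = 1 + I * ((X / τ : ℝ) : ℂ) := by
    push_cast
    ring
  rw [e1] at h
  rw [h, Real.arctan_neg, neg_sq]
  congr 2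
  ring

theorem f1_p2_arctan_low {w : ℝ} (hw : 0 ≤ w) : w - w ^ 3 / 3 ≤ Real.arctan w := by
  have hm : MonotoneOn (fun w : ℝ => Real.arctan w - (w - w ^ 3 / 3)) (Ici 0) := by
    refine monotoneOn_of_deriv_nonneg (convex_Ici 0) ?_ ?_ ?_
    · exact (Real.continuous_arctan.sub (by fun_prop)).continuousOn
    · intro x _
      have h1 : HasDerivAt (fun w : ℝ => Real.arctan w - (w - w ^ 3 / 3))
          (1 / (1 + x ^ 2) - (1 - 3 * x ^ 2 / 3)) x := by
        have h2 := (hasDerivAt_pow 3 x).div_const 3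
        have h3 := (Real.hasDerivAt_arctan x).fun_sub ((hasDerivAt_id' x).fun_sub h2)
        exact h3.congr_deriv (by norm_num)
      exact h1.differentiableAt.differentiableWithinAt
    · intro x _
      have h1 : HasDerivAt (fun w : ℝ => Real.arctan w - (w - w ^ 3 / 3))
          (1 / (1 + x ^ 2) - (1 - 3 * x ^ 2 / 3)) x := by
        have h2 := (hasDerivAt_pow 3 x).div_const 3
        have h3 := (Real.hasDerivAt_arctan x).fun_sub ((hasDerivAt_id' x).fun_sub h2)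
        exact h3.congr_deriv (by norm_num)
      rw [h1.deriv]
      have h4 : 0 < 1 + x ^ 2 := by positivity
      have h5 : 1 / (1 + x ^ 2) - (1 - 3 * x ^ 2 / 3) = x ^ 4 / (1 + x ^ 2) := by
        field_simp
        ring
      rw [h5]
      positivity
  have h := hm (mem_Ici.2 (le_refl 0)) (mem_Ici.2 hw) hw
  simp only [Real.arctan_zero] at h
  linarith

theorem f1_p2_arctan_up {w : ℝ} (hw : 0 ≤ w) : Real.arctan w ≤ w := by
  have hm : MonotoneOn (fun w : ℝ => w - Real.arctan w) (Ici 0) := by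
    refine monotoneOn_of_deriv_nonneg (convex_Ici 0) ?_ ?_ ?_
    · exact (continuous_id.sub Real.continuous_arctan).continuousOn
    · intro x _
      exact ((hasDerivAt_id x).sub (Real.hasDerivAt_arctan x)).differentiableAt
        |>.differentiableWithinAt
    · intro x _
      have h1 : HasDerivAt (fun w : ℝ => w - Real.arctan w) (1 - 1 / (1 + x ^ 2)) x :=
        (hasDerivAt_id x).sub (Real.hasDerivAt_arctan x)
      rw [h1.deriv]
      have h4 : 0 < 1 + x ^ 2 := by positivity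
      have h5 : 1 - 1 / (1 + x ^ 2) = x ^ 2 / (1 + x ^ 2) := by
        field_simp
        ring
      rw [h5]
      positivity
  have h := hm (mem_Ici.2 (le_refl 0)) (mem_Ici.2 hw) hw
  simp only [Real.arctan_zero] at h
  linarith

/-- the exponent -/
noncomputable def f1_p2_p (τ X : ℝ) : ℂ :=
  Complex.log (1 - I * ((X / τ : ℝ) : ℂ)) * (-1 - (τ : ℂ) * I)

theorem f1_p2_hs (τ X : ℝ) : hs1 τ X = cexp (f1_p2_p τ X) := by
  unfold hs1 f1_p2_p
  rw [Complex.cpow_def_of_ne_zero (f1_p2_ne _)]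

theorem f1_p2_log (w : ℝ) : Complex.log (1 - I * (w : ℂ)) =
    ((Real.log (1 + w ^ 2) / 2 : ℝ) : ℂ) - ((Real.arctan w : ℝ) : ℂ) * I := by
  unfold Complex.log
  rw [f1_p2_norm, f1_p2_arg, Real.log_sqrt (by positivity)]
  push_cast
  ring

theorem f1_p2_diff' (τ w : ℝ) :
    Complex.log (1 - I * (w : ℂ)) * (-1 - (τ : ℂ) * I) - ((-(τ * w) : ℝ) : ℂ) =
    ((-(Real.log (1 + w ^ 2) / 2) + τ * (w - Real.arctan w) : ℝ) : ℂ) +
    ((Real.arctan w - τ * Real.log (1 + w ^ 2) / 2 : ℝ) : ℂ) * I := by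
  rw [f1_p2_log]
  generalize Real.arctan w = A
  generalize Real.log (1 + w ^ 2) = L
  push_cast
  have hI : I * I = -1 := Complex.I_mul_I
  linear_combination ((A : ℂ) * τ) * hI

theorem f1_p2_diff (τ X : ℝ) (hτ : 0 < τ) : f1_p2_p τ X - ((-X : ℝ) : ℂ) =
    ((-(Real.log (1 + (X / τ) ^ 2) / 2) + τ * (X / τ - Real.arctan (X / τ)) : ℝ) : ℂ) +
    ((Real.arctan (X / τ) - τ * Real.log (1 + (X / τ) ^ 2) / 2 : ℝ) : ℂ) * I := by
  have h := f1_p2_diff' τ (X / τ)
  rw [mul_div_cancel₀ _ hτ.ne'] at h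
  exact h

theorem f1_p2_bd {τ X : ℝ} (hτ : 1 ≤ τ) (hX : 0 ≤ X) (hXτ : X ≤ τ) :
    ‖f1_p2_p τ X - ((-X : ℝ) : ℂ)‖ ≤ 2 * (X + X ^ 2) / τ ∧
      (f1_p2_p τ X).re ≤ -(2 / 3 * X) := by
  have hτ0 : 0 < τ := by linarith
  set w := X / τ with hw
  have hw0 : 0 ≤ w := by positivity
  have hw1 : w ≤ 1 := by rw [hw, div_le_one hτ0]; exact hXτ
  have hXw : X = τ * w := by rw [hw, mul_div_cancel₀ _ hτ0.ne']
  have a1 := f1_p2_arctan_low hw0
  have a2 := f1_p2_arctan_up hw0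
  have a0 : 0 ≤ Real.arctan w := Real.arctan_nonneg.2 hw0
  have l0 : 0 ≤ Real.log (1 + w ^ 2) := Real.log_nonneg (by nlinarith)
  have l1 : Real.log (1 + w ^ 2) ≤ w ^ 2 := by
    have := Real.log_le_sub_one_of_pos (show 0 < 1 + w ^ 2 by positivity)
    linarith
  have hd := f1_p2_diff τ X hτ0
  rw [← hw] at hd
  have hw3 : w ^ 3 ≤ w := by
    have : w ^ 3 = w * w ^ 2 := by ring
    rw [this]
    have : w ^ 2 ≤ 1 := by nlinarith
    nlinarith
  have hw32 : w ^ 3 ≤ w ^ 2 := by nlinarith [sq_nonneg w]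
  have hww : w ^ 2 ≤ w := by nlinarith
  constructor
  · rw [hd]
    have e1 : 2 * (X + X ^ 2) / τ = 2 * w + 2 * (τ * w ^ 2) := by
      rw [hXw]
      field_simp
    rw [e1]
    refine le_trans (norm_add_le _ _) ?_
    rw [norm_mul, Complex.norm_I, mul_one, Complex.norm_real, Complex.norm_real,
      Real.norm_eq_abs, Real.norm_eq_abs]
    have b1 : |-(Real.log (1 + w ^ 2) / 2) + τ * (w - Real.arctan w)| ≤
        w / 2 + τ * (w ^ 2 / 3) := by
      refine le_trans (abs_add_le _ _) ?_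
      rw [abs_neg, abs_of_nonneg (by positivity), abs_of_nonneg
        (mul_nonneg hτ0.le (by linarith))]
      have : τ * (w - Real.arctan w) ≤ τ * (w ^ 2 / 3) :=
        mul_le_mul_of_nonneg_left (by linarith) hτ0.le
      linarith
    have b2 : |Real.arctan w - τ * Real.log (1 + w ^ 2) / 2| ≤
        w + τ * (w ^ 2 / 2) := by
      refine le_trans (abs_sub _ _) ?_
      rw [abs_of_nonneg a0, abs_of_nonneg
        (by have := mul_nonneg hτ0.le l0; linarith)]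
      have : τ * Real.log (1 + w ^ 2) ≤ τ * w ^ 2 :=
        mul_le_mul_of_nonneg_left l1 hτ0.le
      linarith
    have : 0 ≤ τ * w ^ 2 := by positivity
    linarith
  · have h1 : (f1_p2_p τ X).re = (f1_p2_p τ X - ((-X : ℝ) : ℂ)).re + -X := by
      rw [sub_re, ofReal_re]
      ring
    have h2 : (f1_p2_p τ X - ((-X : ℝ) : ℂ)).re =
        -(Real.log (1 + w ^ 2) / 2) + τ * (w - Real.arctan w) := by
      rw [hd]
      simp only [add_re, ofReal_re, re_ofReal_mul, Complex.I_re, mul_zero, add_zero]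
    rw [h1, h2]
    have h3 : τ * (w - Real.arctan w) ≤ τ * (w / 3) :=
      mul_le_mul_of_nonneg_left (by linarith) hτ0.le
    have h4 : τ * (w / 3) = X / 3 := by rw [hXw]; ring
    linarith

theorem f1_p2_exp {p q : ℂ} {M : ℝ} (hp : p.re ≤ M) (hq : q.re ≤ M) :
    ‖cexp p - cexp q‖ ≤ Real.exp M * ‖p - q‖ := by
  have hc : Convex ℝ {z : ℂ | z.re ≤ M} := convex_halfSpace_re_le M
  refine hc.norm_image_sub_le_of_norm_hasDerivWithin_le
    (f := cexp) (f' := cexp) (fun z _ => (Complex.hasDerivAt_exp z).hasDerivWithinAt) ?_ hq hp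
  intro z hz
  rw [Complex.norm_exp]
  exact Real.exp_le_exp.2 hz

theorem f1_p2_exp1 {X : ℝ} : X * Real.exp (-(2 / 3 * X)) ≤ 6 * Real.exp (-(X / 2)) := by
  have h1 : X / 6 ≤ Real.exp (X / 6) := by
    have := Real.add_one_le_exp (X / 6)
    linarith
  have h2 : Real.exp (-(X / 2)) = Real.exp (X / 6) * Real.exp (-(2 / 3 * X)) := by
    rw [← Real.exp_add]
    congr 1
    ring
  rw [h2, ← mul_assoc]
  exact mul_le_mul_of_nonneg_right (by linarith) (Real.exp_pos _).le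

theorem f1_p2_exp2 {X : ℝ} (hX : 0 ≤ X) :
    X ^ 2 * Real.exp (-(2 / 3 * X)) ≤ 144 * Real.exp (-(X / 2)) := by
  have h1 : X / 12 ≤ Real.exp (X / 12) := by
    have := Real.add_one_le_exp (X / 12)
    linarith
  have h0 : 0 ≤ X / 12 := by positivity
  have h3 : (X / 12) ^ 2 ≤ Real.exp (X / 12) ^ 2 := pow_le_pow_left₀ h0 h1 2
  have h4 : Real.exp (X / 12) ^ 2 = Real.exp (X / 6) := by
    rw [← Real.exp_nat_mul]
    congr 1
    push_cast
    ring
  rw [h4] at h3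
  have h2 : Real.exp (-(X / 2)) = Real.exp (X / 6) * Real.exp (-(2 / 3 * X)) := by
    rw [← Real.exp_add]
    congr 1
    ring
  rw [h2, ← mul_assoc]
  exact mul_le_mul_of_nonneg_right (by nlinarith) (Real.exp_pos _).le

theorem hs1_near_pr : ∃ C : ℝ, ∀ τ X : ℝ, 1 ≤ τ → 0 ≤ X → X ≤ τ →
    ‖hs1 τ X - Real.exp (-X)‖ ≤ C / τ * Real.exp (-(X / 2)) := by
  refine ⟨300, fun τ X hτ hX hXτ => ?_⟩
  have hτ0 : 0 < τ := by linarith
  obtain ⟨h1, h2⟩ := f1_p2_bd hτ hX hXτ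
  rw [f1_p2_hs, Complex.ofReal_exp]
  refine le_trans (f1_p2_exp h2 (M := -(2 / 3 * X)) ?_) ?_
  · rw [ofReal_re]
    linarith
  · refine le_trans (mul_le_mul_of_nonneg_left h1 (Real.exp_pos _).le) ?_
    have e1 := f1_p2_exp1 (X := X)
    have e2 := f1_p2_exp2 hX
    have e3 : Real.exp (-(2 / 3 * X)) * (2 * (X + X ^ 2) / τ) =
        2 * (X * Real.exp (-(2 / 3 * X)) + X ^ 2 * Real.exp (-(2 / 3 * X))) / τ := by ring
    have e4 : 300 / τ * Real.exp (-(X / 2)) =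
        2 * (6 * Real.exp (-(X / 2)) + 144 * Real.exp (-(X / 2))) / τ := by ring
    rw [e3, e4]
    exact div_le_div_of_nonneg_right (by linarith) hτ0.le

end Pool.Agent.JO.FM1

namespace Pool.Agent.JO.FM1

theorem hs1_norm : type_of% @hs1_norm_pr := @hs1_norm_pr
theorem hs1_near : type_of% @hs1_near_pr := @hs1_near_pr

end Pool.Agent.JO.FM1
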