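import Pool.Agent.Lib_helper42.JO1.Defs
import Pool.Agent.Lib_helper45.JO.Defs2
import Pool.Agent.Lib_helper42.JO1F.K1
import Pool.Agent.Lib_helper42.JO1F.P1
import Pool.Agent.Lib_helper42.JO1F.P2
import Pool.Agent.Lib_helper45.JOM.K4
import Pool.Agent.Lib_helper45.JOM.KKA

/-!
-/

set_option autoImplicit false

namespace Pool.Agent.JO.FM1

open Complex Filter Topology MeasureTheory Set
open UpperHalfPlane hiding I
open Pool.Agent.JO.FM
open scoped MatrixGroups ComplexConjugate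

/-! ## Algebra -/

theorem f1_P3_cpow_I_mul {w : ℂ} (hw : 0 < w.re) (s : ℂ) : (I * w) ^ s = I ^ s * w ^ s := by
  have hw0 : w ≠ 0 := by
    intro h
    rw [h] at hw
    simp at hw
  have ha : |arg w| < Real.pi / 2 := Complex.abs_arg_lt_pi_div_two_iff.2 (Or.inl hw)
  rw [abs_lt] at ha
  have hl : Complex.log (I * w) = Complex.log I + Complex.log w := by
    rw [Complex.log_mul_eq_add_log_iff I_ne_zero hw0, Complex.arg_I]
    constructor
    · linarith [Real.pi_pos]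
    · linarith [Real.pi_pos]
  rw [Complex.cpow_def_of_ne_zero (mul_ne_zero I_ne_zero hw0),
    Complex.cpow_def_of_ne_zero I_ne_zero, Complex.cpow_def_of_ne_zero hw0, hl, add_mul,
    Complex.exp_add]

theorem f1_P3_cpow_negI_mul {w : ℂ} (hw : 0 < w.re) (s : ℂ) :
    (-I * w) ^ s = (-I) ^ s * w ^ s := by
  have hw0 : w ≠ 0 := by
    intro h
    rw [h] at hw
    simp at hw
  have hI : (-I : ℂ) ≠ 0 := neg_ne_zero.2 I_ne_zero
  have ha : |arg w| < Real.pi / 2 := Complex.abs_arg_lt_pi_div_two_iff.2 (Or.inl hw)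
  rw [abs_lt] at ha
  have hl : Complex.log (-I * w) = Complex.log (-I) + Complex.log w := by
    rw [Complex.log_mul_eq_add_log_iff hI hw0, Complex.arg_neg_I]
    constructor
    · linarith [Real.pi_pos]
    · linarith [Real.pi_pos]
  rw [Complex.cpow_def_of_ne_zero (mul_ne_zero hI hw0),
    Complex.cpow_def_of_ne_zero hI, Complex.cpow_def_of_ne_zero hw0, hl, add_mul,
    Complex.exp_add]

/-- the second function -/
noncomputable def f1_P3_g (τ X : ℝ) : ℂ := (1 + I * ((X / τ : ℝ) : ℂ)) ^ (-1 - (τ : ℂ) * I)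

theorem f1_P3_Ipow (τ : ℝ) : (I : ℂ) ^ (-1 - (τ : ℂ) * I) =
    -I * ((Real.exp (Real.pi * τ / 2) : ℝ) : ℂ) := by
  have h0 : -I = cexp (((-(Real.pi / 2) : ℝ) : ℂ) * I) := by
    push_cast
    rw [neg_mul, Complex.exp_neg, Complex.exp_pi_div_two_mul_I, Complex.inv_I]
  rw [Complex.cpow_def_of_ne_zero I_ne_zero, Complex.log_I, Complex.ofReal_exp, h0,
    ← Complex.exp_add]
  congr 1
  push_cast
  ring_nf
  rw [Complex.I_sq]
  ring

theorem f1_P3_negIpow (τ : ℝ) : (-I : ℂ) ^ (-1 - (τ : ℂ) * I) =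
    I * ((Real.exp (-(Real.pi * τ / 2)) : ℝ) : ℂ) := by
  have h0 : I = cexp (((Real.pi / 2 : ℝ) : ℂ) * I) := by
    push_cast
    rw [Complex.exp_pi_div_two_mul_I]
  rw [Complex.cpow_def_of_ne_zero (neg_ne_zero.2 I_ne_zero), Complex.log_neg_I,
    Complex.ofReal_exp]
  nth_rewrite 3 [h0]
  rw [← Complex.exp_add]
  congr 1
  push_cast
  ring_nf
  rw [Complex.I_sq]
  ring

/-- the two powers for `τ` -/
theorem f1_P3_pow {τ : ℝ} (hτ : τ ≠ 0) (w X : ℝ) (h : X = τ * w) :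
    ((w : ℂ) - I) ^ (-1 - (τ : ℂ) * I) =
      I * ((Real.exp (-(Real.pi * τ / 2)) : ℝ) : ℂ) * f1_P3_g τ X ∧
    ((w : ℂ) + I) ^ (-1 - (τ : ℂ) * I) =
      -I * ((Real.exp (Real.pi * τ / 2) : ℝ) : ℂ) * hs1 τ X := by
  have hw : X / τ = w := by rw [h]; field_simp
  unfold f1_P3_g hs1
  rw [hw]
  have h1 : (w : ℂ) - I = -I * (1 + I * w) := by
    have := Complex.I_mul_I
    linear_combination w * this
  have h2 : (w : ℂ) + I = I * (1 - I * w) := by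
    have := Complex.I_mul_I
    linear_combination w * this
  rw [h1, h2, f1_P3_cpow_I_mul (by simp), f1_P3_cpow_negI_mul (by simp), f1_P3_Ipow,
    f1_P3_negIpow]
  exact ⟨rfl, rfl⟩

/-- the two powers for `-τ` -/
theorem f1_P3_pow' {τ : ℝ} (hτ : τ ≠ 0) (w X : ℝ) (h : X = τ * w) :
    ((w : ℂ) - I) ^ (-1 - ((-τ : ℝ) : ℂ) * I) =
      I * ((Real.exp (Real.pi * τ / 2) : ℝ) : ℂ) * conj (hs1 τ X) ∧
    ((w : ℂ) + I) ^ (-1 - ((-τ : ℝ) : ℂ) * I) =
      -I * ((Real.exp (-(Real.pi * τ / 2)) : ℝ) : ℂ) * conj (f1_P3_g τ X) := by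
  obtain ⟨h1, h2⟩ := f1_P3_pow hτ w X h
  have hexp : (-1 - ((-τ : ℝ) : ℂ) * I) = conj (-1 - (τ : ℂ) * I) := by
    simp
  have ha1 : ((w : ℂ) - I).arg ≠ Real.pi := by
    intro h3
    rw [Complex.arg_eq_pi_iff] at h3
    simp at h3
  have ha2 : ((w : ℂ) + I).arg ≠ Real.pi := by
    intro h3
    rw [Complex.arg_eq_pi_iff] at h3
    simp at h3
  constructor
  · rw [hexp, show (w : ℂ) - I = conj ((w : ℂ) + I) by simp [sub_eq_add_neg],
      Complex.conj_cpow _ _ ha2, Complex.conj_conj, h2]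
    simp only [map_mul, map_neg, Complex.conj_I, Complex.conj_ofReal]
    ring
  · rw [hexp, show (w : ℂ) + I = conj ((w : ℂ) - I) by simp,
      Complex.conj_cpow _ _ ha1, Complex.conj_conj, h1]
    simp only [map_mul, Complex.conj_I, Complex.conj_ofReal]

/-- the Gamma factor -/
theorem f1_P3_gamma {τ : ℝ} (hτ : 0 < τ) : ‖Gamma (1 + (τ : ℂ) * I)‖ ^ 2 *
    Real.exp (Real.pi * τ) = 2 * Real.pi * τ * (1 - Real.exp (-(2 * Real.pi * τ)))⁻¹ := by
  have hτI : (τ : ℂ) * I ≠ 0 := mul_ne_zero (by exact_mod_cast hτ.ne') I_ne_zero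
  have h1 := Complex.Gamma_mul_Gamma_one_sub ((τ : ℂ) * I)
  have h2 : Gamma (1 + (τ : ℂ) * I) = (τ : ℂ) * I * Gamma ((τ : ℂ) * I) := by
    rw [add_comm, Complex.Gamma_add_one _ hτI]
  have h3 : Gamma (1 - (τ : ℂ) * I) = conj (Gamma (1 + (τ : ℂ) * I)) := by
    rw [← Complex.Gamma_conj]
    congr 1
    simp [sub_eq_add_neg]
  have h4 : Complex.sin (Real.pi * ((τ : ℂ) * I)) = Real.sinh (Real.pi * τ) * I := by
    rw [← mul_assoc, Complex.sin_mul_I]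
    push_cast
    rfl
  have h5 : ((‖Gamma (1 + (τ : ℂ) * I)‖ ^ 2 : ℝ) : ℂ) =
      ((Real.pi * τ / Real.sinh (Real.pi * τ) : ℝ) : ℂ) := by
    have h6 : ((‖Gamma (1 + (τ : ℂ) * I)‖ ^ 2 : ℝ) : ℂ) =
        Gamma (1 + (τ : ℂ) * I) * conj (Gamma (1 + (τ : ℂ) * I)) := by
      rw [Complex.mul_conj, Complex.normSq_eq_norm_sq]
    have hs : ((Real.sinh (Real.pi * τ) : ℝ) : ℂ) ≠ 0 := by
      exact_mod_cast (Real.sinh_pos_iff.2 (by positivity)).ne'
    rw [h6, ← h3]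
    nth_rewrite 1 [h2]
    rw [mul_assoc, h1, h4]
    push_cast
    have hs' : Complex.sinh (Real.pi * τ) ≠ 0 := by
      rw [← Complex.ofReal_mul, ← Complex.ofReal_sinh]
      exact hs
    field_simp
  have h7 : ‖Gamma (1 + (τ : ℂ) * I)‖ ^ 2 = Real.pi * τ / Real.sinh (Real.pi * τ) := by
    exact_mod_cast h5
  rw [h7, Real.sinh_eq]
  have h8 : Real.exp (-(2 * Real.pi * τ)) = Real.exp (-(Real.pi * τ)) / Real.exp (Real.pi * τ) := by
    rw [← Real.exp_sub]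
    congr 1
    ring
  have h9 := Real.exp_pos (Real.pi * τ)
  have h10 : Real.exp (-(Real.pi * τ)) < Real.exp (Real.pi * τ) := by
    refine Real.exp_lt_exp.2 ?_
    have : 0 < Real.pi * τ := by positivity
    linarith
  rw [h8]
  have h11 : Real.exp (Real.pi * τ) - Real.exp (-(Real.pi * τ)) ≠ 0 := by linarith
  have h12 : 1 - Real.exp (-(Real.pi * τ)) / Real.exp (Real.pi * τ) =
      (Real.exp (Real.pi * τ) - Real.exp (-(Real.pi * τ))) / Real.exp (Real.pi * τ) := by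
    field_simp
  rw [h12]
  field_simp

/-! ## Continuity -/

theorem f1_P3_hs_cont (τ : ℝ) : Continuous (hs1 τ) := by
  unfold hs1
  exact Continuous.cpow (by fun_prop) continuous_const fun X => Or.inl (by simp)

theorem f1_P3_g_cont (τ : ℝ) : Continuous (f1_P3_g τ) := by
  unfold f1_P3_g
  exact Continuous.cpow (by fun_prop) continuous_const fun X => Or.inl (by simp)

/-! ## The basic estimate -/

/-- the majorant -/
noncomputable def f1_P3_m (τ X : ℝ) : ℝ :=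
  1 / τ * Real.exp (-(X / 2)) + Real.exp (-(Real.pi * τ / 4)) * (1 + (X / τ) ^ 2) ^ (-(1 / 2) : ℝ)

theorem f1_P3_m_nonneg {τ : ℝ} (hτ : 0 < τ) (X : ℝ) : 0 ≤ f1_P3_m τ X := by
  unfold f1_P3_m
  positivity

theorem f1_P3_g_norm {τ X : ℝ} (hτ : 0 < τ) (hX : 0 ≤ X) :
    Real.exp (-(Real.pi * τ)) * ‖f1_P3_g τ X‖ ≤ f1_P3_m τ X := by
  have hπ := Real.pi_pos
  unfold f1_P3_g
  rw [(hs1_norm hτ hX).2]
  have h1 : 0 ≤ (1 + (X / τ) ^ 2) ^ (-(1 / 2) : ℝ) := by positivity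
  have h2 : Real.exp (-(Real.pi * τ)) * Real.exp (τ * Real.arctan (X / τ)) ≤
      Real.exp (-(Real.pi * τ / 4)) := by
    rw [← Real.exp_add]
    refine Real.exp_le_exp.2 ?_
    have := mul_le_mul_of_nonneg_left (Real.arctan_lt_pi_div_two (X / τ)).le hτ.le
    nlinarith [mul_pos hπ hτ]
  have h3 : 0 ≤ 1 / τ * Real.exp (-(X / 2)) := by positivity
  unfold f1_P3_m
  calc Real.exp (-(Real.pi * τ)) * ((1 + (X / τ) ^ 2) ^ (-(1 / 2) : ℝ) *
        Real.exp (τ * Real.arctan (X / τ))) =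
      (Real.exp (-(Real.pi * τ)) * Real.exp (τ * Real.arctan (X / τ))) *
        (1 + (X / τ) ^ 2) ^ (-(1 / 2) : ℝ) := by ring
    _ ≤ Real.exp (-(Real.pi * τ / 4)) * (1 + (X / τ) ^ 2) ^ (-(1 / 2) : ℝ) :=
        mul_le_mul_of_nonneg_right h2 h1
    _ ≤ _ := by linarith

theorem f1_P3_hs_big {τ X : ℝ} (hτ : 0 < τ) (hX : τ ≤ X) :
    ‖hs1 τ X‖ ≤ Real.exp (-(Real.pi * τ / 4)) * (1 + (X / τ) ^ 2) ^ (-(1 / 2) : ℝ) := by
  have hX0 : 0 ≤ X := hτ.le.trans hX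
  rw [(hs1_norm hτ hX0).1, mul_comm]
  refine mul_le_mul_of_nonneg_right ?_ (by positivity)
  refine Real.exp_le_exp.2 ?_
  have h1 : Real.pi / 4 ≤ Real.arctan (X / τ) := by
    rw [← Real.arctan_one]
    exact Real.arctan_strictMono.monotone ((one_le_div hτ).2 hX)
  have := mul_le_mul_of_nonneg_left h1 hτ.le
  linarith

theorem f1_P3_exp_small {τ : ℝ} (hτ : 0 < τ) : Real.exp (-(τ / 2)) ≤ 2 / τ := by
  rw [Real.exp_neg, inv_eq_one_div, div_le_div_iff₀ (Real.exp_pos _) hτ]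
  have := Real.add_one_le_exp (τ / 2)
  linarith

/-- the basic estimate -/
theorem f1_P3_U : ∃ C : ℝ, 0 ≤ C ∧ ∀ τ X : ℝ, 1 ≤ τ → 0 ≤ X →
    ‖hs1 τ X - Real.exp (-X)‖ ≤ C * f1_P3_m τ X := by
  obtain ⟨C, hC⟩ := hs1_near
  refine ⟨max C 2, le_trans (by norm_num) (le_max_right _ _), fun τ X hτ hX => ?_⟩
  have hτ0 : 0 < τ := by linarith
  have hπ := Real.pi_pos
  have hp : 0 ≤ Real.exp (-(Real.pi * τ / 4)) * (1 + (X / τ) ^ 2) ^ (-(1 / 2) : ℝ) := by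
    positivity
  have hq : 0 ≤ 1 / τ * Real.exp (-(X / 2)) := by positivity
  have hC2 : 2 ≤ max C 2 := le_max_right _ _
  unfold f1_P3_m
  rcases le_total X τ with h | h
  · have h1 := hC τ X hτ hX h
    have h2 : C / τ * Real.exp (-(X / 2)) ≤ max C 2 * (1 / τ * Real.exp (-(X / 2))) := by
      have h3 : C / τ * Real.exp (-(X / 2)) = C * (1 / τ * Real.exp (-(X / 2))) := by ring
      rw [h3]
      exact mul_le_mul_of_nonneg_right (le_max_left _ _) hq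
    nlinarith
  · have h1 := f1_P3_hs_big hτ0 h
    have h2 : ‖((Real.exp (-X) : ℝ) : ℂ)‖ ≤ 2 * (1 / τ * Real.exp (-(X / 2))) := by
      rw [Complex.norm_real, Real.norm_eq_abs, Real.abs_exp]
      have h4 : Real.exp (-X) = Real.exp (-(X / 2)) * Real.exp (-(X / 2)) := by
        rw [← Real.exp_add]
        congr 1
        ring
      have h5 : Real.exp (-(X / 2)) ≤ 2 / τ :=
        (Real.exp_le_exp.2 (by linarith : -(X / 2) ≤ -(τ / 2))).trans (f1_P3_exp_small hτ0)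
      rw [h4]
      calc Real.exp (-(X / 2)) * Real.exp (-(X / 2)) ≤ 2 / τ * Real.exp (-(X / 2)) :=
            mul_le_mul_of_nonneg_right h5 (Real.exp_pos _).le
        _ = _ := by ring
    have h3 := norm_sub_le (hs1 τ X) ((Real.exp (-X) : ℝ) : ℂ)
    nlinarith

/-! ## The integrals of the majorants -/

theorem f1_P3_KK_real (ρ : ℝ) {x : ℝ} (hx : 0 < x) :
    Integrable (fun u : ℝ => Real.exp (ρ * u) * Real.exp (-(x * Real.cosh u))) ∧
    ∫ u : ℝ, Real.exp (ρ * u) * Real.exp (-(x * Real.cosh u)) = 2 * ‖KK (ρ : ℂ) x‖ := by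
  have h1 : ∀ u : ℝ, cexp (-(x : ℂ) * (Real.cosh u : ℝ) + (ρ : ℂ) * u) =
      ((Real.exp (ρ * u) * Real.exp (-(x * Real.cosh u)) : ℝ) : ℂ) := by
    intro u
    rw [← Real.exp_add, Complex.ofReal_exp]
    congr 1
    push_cast
    ring
  have hI := KK_int (ρ : ℂ) hx
  simp only [h1] at hI
  have hI2 : Integrable (fun u : ℝ => Real.exp (ρ * u) * Real.exp (-(x * Real.cosh u))) := by
    refine hI.norm.congr (Eventually.of_forall fun u => ?_)
    simp only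
    rw [Complex.norm_real, Real.norm_of_nonneg (by positivity)]
  refine ⟨hI2, ?_⟩
  unfold KK
  simp only [h1]
  rw [integral_complex_ofReal, norm_mul, Complex.norm_real, Real.norm_of_nonneg]
  · norm_num
    ring
  · exact integral_nonneg fun u => by positivity

theorem f1_P3_V0 {ρ b : ℝ} (hb : |ρ| < b) : ∃ C : ℝ, 0 ≤ C ∧ ∀ x : ℝ, 0 < x →
    ∫ u : ℝ, Real.exp (ρ * u) * Real.exp (-(x * Real.cosh u)) ≤
      C * x ^ (-b) * Real.exp (-(x / 2)) := by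
  obtain ⟨C, hC⟩ := KK_bound (ρ : ℂ) (b := b) (by simpa using hb)
  have hC0 : 0 ≤ C := by
    have h := hC 1 one_pos
    have h2 := (norm_nonneg _).trans h
    rw [Real.one_rpow, mul_one] at h2
    exact nonneg_of_mul_nonneg_left h2 (Real.exp_pos _)
  refine ⟨2 * C, by positivity, fun x hx => ?_⟩
  rw [(f1_P3_KK_real ρ hx).2]
  have := hC x hx
  nlinarith

theorem f1_P3_V1 {ρ b : ℝ} (hb : |ρ| < b) : ∃ C : ℝ, 0 ≤ C ∧ ∀ x : ℝ, 0 < x →
    Integrable (fun u : ℝ => Real.exp (ρ * u) * Real.exp (-(x * Real.cosh u / 2))) ∧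
    ∫ u : ℝ, Real.exp (ρ * u) * Real.exp (-(x * Real.cosh u / 2)) ≤
      C * x ^ (-b) * Real.exp (-(x / 4)) := by
  obtain ⟨C, hC0, hC⟩ := f1_P3_V0 hb
  refine ⟨C * (1 / 2) ^ (-b), by positivity, fun x hx => ?_⟩
  have hx2 : 0 < x / 2 := by positivity
  have h2 : (fun u : ℝ => Real.exp (ρ * u) * Real.exp (-(x * Real.cosh u / 2))) =
      fun u : ℝ => Real.exp (ρ * u) * Real.exp (-(x / 2 * Real.cosh u)) := by
    funext u
    congr 3
    ring
  rw [h2]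
  refine ⟨(f1_P3_KK_real ρ hx2).1, (hC (x / 2) hx2).trans (le_of_eq ?_)⟩
  have h4 : (x / 2) ^ (-b) = (1 / 2) ^ (-b) * x ^ (-b) := by
    rw [show x / 2 = 1 / 2 * x by ring, Real.mul_rpow (by norm_num) hx.le]
  have h5 : x / 2 / 2 = x / 4 := by ring
  rw [h4, h5]
  ring

theorem f1_P3_V2i {ρ b : ℝ} (hb : |ρ| < b) :
    Integrable (fun u : ℝ => Real.exp (ρ * u) * Real.cosh u ^ (-b)) := by
  have h := (cosh_int (μ := (ρ : ℂ)) (s := (b : ℂ)) (by simpa using hb)).1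
  refine h.norm.congr (Eventually.of_forall fun u => ?_)
  simp only
  rw [norm_mul, Complex.norm_exp, Complex.norm_cpow_eq_rpow_re_of_pos (Real.cosh_pos u)]
  simp

theorem f1_P3_pow_le {y b : ℝ} (hy : 0 < y) (hb0 : 0 ≤ b) (hb : b ≤ 1) :
    (1 + y ^ 2) ^ (-(1 / 2) : ℝ) ≤ y ^ (-b) := by
  rw [Real.rpow_neg (by positivity), Real.rpow_neg hy.le]
  refine inv_anti₀ (Real.rpow_pos_of_pos hy _) ?_
  rcases le_total y 1 with h | h
  · calc y ^ b ≤ 1 := Real.rpow_le_one hy.le h hb0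
      _ ≤ (1 + y ^ 2) ^ (1 / 2 : ℝ) := Real.one_le_rpow (by nlinarith) (by norm_num)
  · calc y ^ b ≤ y ^ (1 : ℝ) := Real.rpow_le_rpow_of_exponent_le h hb
      _ = (y ^ 2) ^ (1 / 2 : ℝ) := by
          rw [← Real.rpow_natCast, ← Real.rpow_mul hy.le]
          norm_num
      _ ≤ (1 + y ^ 2) ^ (1 / 2 : ℝ) := Real.rpow_le_rpow (by positivity) (by linarith)
          (by norm_num)

theorem f1_P3_V2 {ρ b : ℝ} (hb : |ρ| < b) (hb2 : b ≤ 1) : ∃ C : ℝ, 0 ≤ C ∧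
    ∀ x τ : ℝ, 0 < x → 0 < τ →
      Integrable (fun u : ℝ => Real.exp (ρ * u) *
        (1 + (x * Real.cosh u / τ) ^ 2) ^ (-(1 / 2) : ℝ)) ∧
      ∫ u : ℝ, Real.exp (ρ * u) * (1 + (x * Real.cosh u / τ) ^ 2) ^ (-(1 / 2) : ℝ) ≤
        C * (x / τ) ^ (-b) := by
  have hI := f1_P3_V2i hb
  have hb0 : 0 ≤ b := (abs_nonneg _).trans hb.le
  refine ⟨∫ u : ℝ, Real.exp (ρ * u) * Real.cosh u ^ (-b), integral_nonneg fun u => by
    have := Real.cosh_pos u
    positivity, fun x τ hx hτ => ?_⟩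
  have hle : ∀ u : ℝ, Real.exp (ρ * u) * (1 + (x * Real.cosh u / τ) ^ 2) ^ (-(1 / 2) : ℝ) ≤
      (x / τ) ^ (-b) * (Real.exp (ρ * u) * Real.cosh u ^ (-b)) := by
    intro u
    have hc := Real.cosh_pos u
    have h1 := f1_P3_pow_le (y := x * Real.cosh u / τ) (b := b) (by positivity) hb0 hb2
    have h2 : (x * Real.cosh u / τ) ^ (-b) = (x / τ) ^ (-b) * Real.cosh u ^ (-b) := by
      rw [show x * Real.cosh u / τ = x / τ * Real.cosh u by ring,
        Real.mul_rpow (by positivity) hc.le]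
    rw [h2] at h1
    calc Real.exp (ρ * u) * (1 + (x * Real.cosh u / τ) ^ 2) ^ (-(1 / 2) : ℝ) ≤
        Real.exp (ρ * u) * ((x / τ) ^ (-b) * Real.cosh u ^ (-b)) :=
          mul_le_mul_of_nonneg_left h1 (Real.exp_pos _).le
      _ = _ := by ring
  have hint : Integrable (fun u : ℝ => Real.exp (ρ * u) *
      (1 + (x * Real.cosh u / τ) ^ 2) ^ (-(1 / 2) : ℝ)) := by
    refine Integrable.mono' (hI.const_mul ((x / τ) ^ (-b))) ?_ ?_
    · refine Continuous.aestronglyMeasurable ?_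
      refine Continuous.mul (by fun_prop) ?_
      refine Continuous.rpow_const (by fun_prop) fun u => Or.inl ?_
      positivity
    · refine Eventually.of_forall fun u => ?_
      rw [Real.norm_of_nonneg (by positivity)]
      exact hle u
  refine ⟨hint, ?_⟩
  calc _ ≤ ∫ u : ℝ, (x / τ) ^ (-b) * (Real.exp (ρ * u) * Real.cosh u ^ (-b)) :=
        integral_mono hint (hI.const_mul _) hle
    _ = _ := by rw [integral_const_mul]; ring

theorem f1_P3_sq_exp {τ : ℝ} (hτ : 0 ≤ τ) : τ ^ 2 * Real.exp (-(Real.pi * τ / 8)) ≤ 16 := by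
  have hπ : 3 < Real.pi := Real.pi_gt_three
  have h1 := Real.quadratic_le_exp_of_nonneg (x := Real.pi * τ / 8) (by positivity)
  have h2 : τ ^ 2 ≤ 16 * Real.exp (Real.pi * τ / 8) := by
    have h3 : 9 * τ ^ 2 ≤ Real.pi ^ 2 * τ ^ 2 := by
      refine mul_le_mul_of_nonneg_right ?_ (sq_nonneg τ)
      nlinarith
    have h4 : (Real.pi * τ / 8) ^ 2 = Real.pi ^ 2 * τ ^ 2 / 64 := by ring
    rw [h4] at h1
    have h5 : 0 ≤ Real.pi * τ / 8 := by positivity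
    nlinarith
  rw [Real.exp_neg, ← div_eq_mul_inv, div_le_iff₀ (Real.exp_pos _)]
  exact h2

theorem f1_P3_V {ρ b : ℝ} (hb : |ρ| < b) (hb2 : b ≤ 1) {v₀ : ℝ} (hv : 0 < v₀) :
    ∃ C c : ℝ, 0 ≤ C ∧ 0 < c ∧ c ≤ 1 / 4 ∧ c ≤ Real.pi / (8 * v₀) ∧
    ∀ τ x : ℝ, 1 ≤ τ → 0 < x → x ≤ τ * v₀ →
      Integrable (fun u : ℝ => Real.exp (ρ * u) * f1_P3_m τ (x * Real.cosh u)) ∧
      ∫ u : ℝ, Real.exp (ρ * u) * f1_P3_m τ (x * Real.cosh u) ≤
        C / τ * x ^ (-b) * Real.exp (-(c * x)) := by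
  obtain ⟨C1, hC1, h1⟩ := f1_P3_V1 hb
  obtain ⟨C2, hC2, h2⟩ := f1_P3_V2 hb hb2
  have hb0 : 0 ≤ b := (abs_nonneg _).trans hb.le
  have hπ := Real.pi_pos
  refine ⟨C1 + 16 * C2, min (1 / 4) (Real.pi / (8 * v₀)), by positivity,
    lt_min (by norm_num) (by positivity), min_le_left _ _, min_le_right _ _,
    fun τ x hτ hx hxv => ?_⟩
  have hτ0 : 0 < τ := by linarith
  set c := min (1 / 4) (Real.pi / (8 * v₀)) with hc
  have hx2 : 0 < x / 2 := by positivity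
  obtain ⟨hI1, h1'⟩ := h1 x hx
  obtain ⟨hI2, h2'⟩ := h2 x τ hx hτ0
  have hsplit : ∀ u : ℝ, Real.exp (ρ * u) * f1_P3_m τ (x * Real.cosh u) =
      1 / τ * (Real.exp (ρ * u) * Real.exp (-(x * Real.cosh u / 2))) +
      Real.exp (-(Real.pi * τ / 4)) *
        (Real.exp (ρ * u) * (1 + (x * Real.cosh u / τ) ^ 2) ^ (-(1 / 2) : ℝ)) := by
    intro u
    unfold f1_P3_m
    ring
  simp only [hsplit]
  refine ⟨(hI1.const_mul _).add (hI2.const_mul _), ?_⟩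
  rw [integral_add (hI1.const_mul _) (hI2.const_mul _), integral_const_mul, integral_const_mul]
  have hcx1 : Real.exp (-(x / 4)) ≤ Real.exp (-(c * x)) := by
    refine Real.exp_le_exp.2 ?_
    have : c ≤ 1 / 4 := min_le_left _ _
    nlinarith
  have hcx2 : Real.exp (-(Real.pi * τ / 8)) ≤ Real.exp (-(c * x)) := by
    refine Real.exp_le_exp.2 ?_
    have h3 : c ≤ Real.pi / (8 * v₀) := min_le_right _ _
    have h4 : c * x ≤ Real.pi / (8 * v₀) * (τ * v₀) :=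
      mul_le_mul h3 hxv hx.le (by positivity)
    have h5 : Real.pi / (8 * v₀) * (τ * v₀) = Real.pi * τ / 8 := by
      field_simp
    linarith
  have hxb : 0 < x ^ (-b) := Real.rpow_pos_of_pos hx _
  have e1 : 1 / τ * ∫ u : ℝ, Real.exp (ρ * u) * Real.exp (-(x * Real.cosh u / 2)) ≤
      C1 / τ * x ^ (-b) * Real.exp (-(c * x)) := by
    calc 1 / τ * ∫ u : ℝ, Real.exp (ρ * u) * Real.exp (-(x * Real.cosh u / 2)) ≤
        1 / τ * (C1 * x ^ (-b) * Real.exp (-(x / 4))) :=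
          mul_le_mul_of_nonneg_left h1' (by positivity)
      _ ≤ 1 / τ * (C1 * x ^ (-b) * Real.exp (-(c * x))) := by
          refine mul_le_mul_of_nonneg_left ?_ (by positivity)
          exact mul_le_mul_of_nonneg_left hcx1 (by positivity)
      _ = _ := by ring
  have e2 : Real.exp (-(Real.pi * τ / 4)) * ∫ u : ℝ, Real.exp (ρ * u) *
      (1 + (x * Real.cosh u / τ) ^ 2) ^ (-(1 / 2) : ℝ) ≤
      16 * C2 / τ * x ^ (-b) * Real.exp (-(c * x)) := by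
    have h6 : (x / τ) ^ (-b) ≤ x ^ (-b) * τ := by
      rw [Real.div_rpow hx.le hτ0.le, Real.rpow_neg hτ0.le, div_inv_eq_mul]
      refine mul_le_mul_of_nonneg_left ?_ hxb.le
      calc τ ^ b ≤ τ ^ (1 : ℝ) := Real.rpow_le_rpow_of_exponent_le hτ (by linarith)
        _ = τ := Real.rpow_one τ
    have h7 : Real.exp (-(Real.pi * τ / 4)) =
        Real.exp (-(Real.pi * τ / 8)) * Real.exp (-(Real.pi * τ / 8)) := by
      rw [← Real.exp_add]
      congr 1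
      ring
    have h8 : τ * Real.exp (-(Real.pi * τ / 8)) ≤ 16 / τ := by
      rw [le_div_iff₀ hτ0]
      have := f1_P3_sq_exp hτ0.le
      nlinarith
    calc Real.exp (-(Real.pi * τ / 4)) * ∫ u : ℝ, Real.exp (ρ * u) *
        (1 + (x * Real.cosh u / τ) ^ 2) ^ (-(1 / 2) : ℝ) ≤
        Real.exp (-(Real.pi * τ / 4)) * (C2 * (x / τ) ^ (-b)) :=
          mul_le_mul_of_nonneg_left h2' (Real.exp_pos _).le
      _ ≤ Real.exp (-(Real.pi * τ / 4)) * (C2 * (x ^ (-b) * τ)) := by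
          refine mul_le_mul_of_nonneg_left ?_ (Real.exp_pos _).le
          exact mul_le_mul_of_nonneg_left h6 hC2
      _ = C2 * x ^ (-b) * (τ * Real.exp (-(Real.pi * τ / 8))) * Real.exp (-(Real.pi * τ / 8)) := by
          rw [h7]
          ring
      _ ≤ C2 * x ^ (-b) * (16 / τ) * Real.exp (-(c * x)) := by
          refine mul_le_mul (mul_le_mul_of_nonneg_left h8 (by positivity)) hcx2
            (Real.exp_pos _).le (by positivity)
      _ = _ := by ring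
  calc _ ≤ C1 / τ * x ^ (-b) * Real.exp (-(c * x)) +
        16 * C2 / τ * x ^ (-b) * Real.exp (-(c * x)) := add_le_add e1 e2
    _ = _ := by ring

theorem f1_P3_cosh (u : ℝ) : Real.cosh (u / 2) =
    1 / 2 * (Real.exp (1 / 2 * u) + Real.exp (-(1 / 2) * u)) := by
  rw [Real.cosh_eq]
  have h1 : u / 2 = 1 / 2 * u := by ring
  rw [h1]
  ring_nf

/-- the integral of the majorant with `cosh(u/2)` -/
theorem f1_P3_VV {v₀ : ℝ} (hv : 0 < v₀) :
    ∃ C c : ℝ, 0 ≤ C ∧ 0 < c ∧ c ≤ 1 / 4 ∧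
    ∀ τ x : ℝ, 1 ≤ τ → 0 < x → x ≤ τ * v₀ →
      Integrable (fun u : ℝ => Real.cosh (u / 2) * f1_P3_m τ (x * Real.cosh u)) ∧
      ∫ u : ℝ, Real.cosh (u / 2) * f1_P3_m τ (x * Real.cosh u) ≤
        C / τ * x ^ (-(5 / 8) : ℝ) * Real.exp (-(c * x)) := by
  obtain ⟨C1, c1, hC1, hc1, hc1', hc1'', h1⟩ := f1_P3_V (ρ := 1 / 2) (b := 5 / 8)
    (by rw [abs_of_pos] <;> norm_num) (by norm_num) hv
  obtain ⟨C2, c2, hC2, hc2, hc2', hc2'', h2⟩ := f1_P3_V (ρ := -(1 / 2)) (b := 5 / 8)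
    (by rw [abs_neg, abs_of_pos] <;> norm_num) (by norm_num) hv
  refine ⟨C1 + C2, min c1 c2, by positivity, lt_min hc1 hc2, (min_le_left _ _).trans hc1',
    fun τ x hτ hx hxv => ?_⟩
  have hτ0 : 0 < τ := by linarith
  obtain ⟨i1, l1⟩ := h1 τ x hτ hx hxv
  obtain ⟨i2, l2⟩ := h2 τ x hτ hx hxv
  have e : ∀ u : ℝ, Real.cosh (u / 2) * f1_P3_m τ (x * Real.cosh u) =
      1 / 2 * (Real.exp (1 / 2 * u) * f1_P3_m τ (x * Real.cosh u) +
        Real.exp (-(1 / 2) * u) * f1_P3_m τ (x * Real.cosh u)) := by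
    intro u
    rw [f1_P3_cosh]
    ring
  simp only [e]
  refine ⟨(i1.add i2).const_mul _, ?_⟩
  rw [integral_const_mul, integral_add i1 i2]
  have hxb : 0 < x ^ (-(5 / 8) : ℝ) := Real.rpow_pos_of_pos hx _
  have e1 : Real.exp (-(c1 * x)) ≤ Real.exp (-(min c1 c2 * x)) := by
    refine Real.exp_le_exp.2 ?_
    have := mul_le_mul_of_nonneg_right (min_le_left c1 c2) hx.le
    linarith
  have e2 : Real.exp (-(c2 * x)) ≤ Real.exp (-(min c1 c2 * x)) := by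
    refine Real.exp_le_exp.2 ?_
    have := mul_le_mul_of_nonneg_right (min_le_right c1 c2) hx.le
    linarith
  have f1 : C1 / τ * x ^ (-(5 / 8) : ℝ) * Real.exp (-(c1 * x)) ≤
      C1 / τ * x ^ (-(5 / 8) : ℝ) * Real.exp (-(min c1 c2 * x)) :=
    mul_le_mul_of_nonneg_left e1 (by positivity)
  have f2 : C2 / τ * x ^ (-(5 / 8) : ℝ) * Real.exp (-(c2 * x)) ≤
      C2 / τ * x ^ (-(5 / 8) : ℝ) * Real.exp (-(min c1 c2 * x)) :=
    mul_le_mul_of_nonneg_left e2 (by positivity)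
  have f3 : (C1 + C2) / τ * x ^ (-(5 / 8) : ℝ) * Real.exp (-(min c1 c2 * x)) =
      C1 / τ * x ^ (-(5 / 8) : ℝ) * Real.exp (-(min c1 c2 * x)) +
      C2 / τ * x ^ (-(5 / 8) : ℝ) * Real.exp (-(min c1 c2 * x)) := by ring
  have f4 : 0 ≤ C1 / τ * x ^ (-(5 / 8) : ℝ) * Real.exp (-(min c1 c2 * x)) := by positivity
  have f5 : 0 ≤ C2 / τ * x ^ (-(5 / 8) : ℝ) * Real.exp (-(min c1 c2 * x)) := by positivity
  linarith

/-- the integral of the main term with `cosh(u/2)` -/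
theorem f1_P3_W : ∃ C : ℝ, 0 ≤ C ∧ ∀ x : ℝ, 0 < x →
    Integrable (fun u : ℝ => Real.cosh (u / 2) * Real.exp (-(x * Real.cosh u))) ∧
    ∫ u : ℝ, Real.cosh (u / 2) * Real.exp (-(x * Real.cosh u)) ≤
      C * x ^ (-(5 / 8) : ℝ) * Real.exp (-(x / 2)) := by
  obtain ⟨C1, hC1, h1⟩ := f1_P3_V0 (ρ := 1 / 2) (b := 5 / 8)
    (by rw [abs_of_pos] <;> norm_num)
  obtain ⟨C2, hC2, h2⟩ := f1_P3_V0 (ρ := -(1 / 2)) (b := 5 / 8)
    (by rw [abs_neg, abs_of_pos] <;> norm_num)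
  refine ⟨C1 + C2, by positivity, fun x hx => ?_⟩
  have i1 := (f1_P3_KK_real (1 / 2) hx).1
  have i2 := (f1_P3_KK_real (-(1 / 2)) hx).1
  have e : ∀ u : ℝ, Real.cosh (u / 2) * Real.exp (-(x * Real.cosh u)) =
      1 / 2 * (Real.exp (1 / 2 * u) * Real.exp (-(x * Real.cosh u)) +
        Real.exp (-(1 / 2) * u) * Real.exp (-(x * Real.cosh u))) := by
    intro u
    rw [f1_P3_cosh]
    ring
  simp only [e]
  refine ⟨(i1.add i2).const_mul _, ?_⟩
  rw [integral_const_mul, integral_add i1 i2]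
  have l1 := h1 x hx
  have l2 := h2 x hx
  have hxb : 0 < x ^ (-(5 / 8) : ℝ) := Real.rpow_pos_of_pos hx _
  have f4 : 0 ≤ C1 * x ^ (-(5 / 8) : ℝ) * Real.exp (-(x / 2)) := by positivity
  have f5 : 0 ≤ C2 * x ^ (-(5 / 8) : ℝ) * Real.exp (-(x / 2)) := by positivity
  nlinarith

/-! ## The comparison -/

theorem f1_P3_key {ν : ℂ} (hν : ν.re = 0) {v₀ : ℝ} (hv : 0 < v₀) :
    ∃ C c : ℝ, 0 ≤ C ∧ 0 < c ∧ c ≤ 1 / 4 ∧ ∀ τ x : ℝ, 1 ≤ τ → 0 < x → x ≤ τ * v₀ →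
      ∀ (A B : ℝ → ℝ) (h k : ℝ → ℂ), Continuous A → Continuous B → Continuous h →
      Continuous k → (∀ u, |A u| ≤ Real.cosh (u / 2)) → (∀ u, |B u| ≤ Real.cosh (u / 2)) →
      (∀ CU : ℝ, (∀ X : ℝ, 0 ≤ X → ‖hs1 τ X - Real.exp (-X)‖ ≤ CU * f1_P3_m τ X) →
        ∀ X : ℝ, 0 ≤ X → ‖h X - Real.exp (-X)‖ ≤ CU * f1_P3_m τ X) →
      (∀ X : ℝ, 0 ≤ X → ‖k X‖ ≤ f1_P3_m τ X) →
      ‖(∫ u : ℝ, cexp (ν * u) * (A u * h (x * Real.cosh u) + B u * k (x * Real.cosh u))) -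
        ∫ u : ℝ, cexp (ν * u) * (A u * ((Real.exp (-(x * Real.cosh u)) : ℝ) : ℂ))‖ ≤
        C / τ * x ^ (-(5 / 8) : ℝ) * Real.exp (-(c * x)) ∧
      ‖∫ u : ℝ, cexp (ν * u) * (A u * ((Real.exp (-(x * Real.cosh u)) : ℝ) : ℂ))‖ ≤
        C * x ^ (-(5 / 8) : ℝ) * Real.exp (-(x / 2)) := by
  obtain ⟨CU, hCU, hU⟩ := f1_P3_U
  obtain ⟨CV, c, hCV, hc, hc4, hV⟩ := f1_P3_VV hv
  obtain ⟨CW, hCW, hW⟩ := f1_P3_W
  refine ⟨(CU + 1) * CV + CW, c, by positivity, hc, hc4, ?_⟩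
  intro τ x hτ hx hxv A B h k hA hB hh hk hA1 hB1 hh1 hk1
  have hτ0 : 0 < τ := by linarith
  obtain ⟨iV, lV⟩ := hV τ x hτ hx hxv
  obtain ⟨iW, lW⟩ := hW x hx
  have hh2 := hh1 CU (hU τ · hτ)
  have hexp : ∀ u : ℝ, ‖cexp (ν * u)‖ = 1 := by
    intro u
    rw [Complex.norm_exp]
    simp [hν]
  have hX : ∀ u : ℝ, 0 ≤ x * Real.cosh u := fun u => mul_nonneg hx.le (Real.cosh_pos u).le
  have hxb : 0 < x ^ (-(5 / 8) : ℝ) := Real.rpow_pos_of_pos hx _
  -- the main term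
  have b2 : ∀ u : ℝ, ‖cexp (ν * u) * (A u * ((Real.exp (-(x * Real.cosh u)) : ℝ) : ℂ))‖ ≤
      Real.cosh (u / 2) * Real.exp (-(x * Real.cosh u)) := by
    intro u
    rw [norm_mul, norm_mul, hexp, one_mul, Complex.norm_real, Complex.norm_real,
      Real.norm_eq_abs, Real.norm_eq_abs, Real.abs_exp]
    exact mul_le_mul_of_nonneg_right (hA1 u) (Real.exp_pos _).le
  have i2 : Integrable (fun u : ℝ =>
      cexp (ν * u) * (A u * ((Real.exp (-(x * Real.cosh u)) : ℝ) : ℂ))) := by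
    refine Integrable.mono' iW ?_ (Eventually.of_forall b2)
    exact (Continuous.aestronglyMeasurable (by fun_prop))
  -- the difference
  have b1 : ∀ u : ℝ, ‖cexp (ν * u) * (A u * (h (x * Real.cosh u) -
      ((Real.exp (-(x * Real.cosh u)) : ℝ) : ℂ)) + B u * k (x * Real.cosh u))‖ ≤
      (CU + 1) * (Real.cosh (u / 2) * f1_P3_m τ (x * Real.cosh u)) := by
    intro u
    have hm := f1_P3_m_nonneg hτ0 (x * Real.cosh u)
    rw [norm_mul, hexp, one_mul]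
    refine (norm_add_le _ _).trans ?_
    rw [norm_mul, norm_mul, Complex.norm_real, Complex.norm_real, Real.norm_eq_abs,
      Real.norm_eq_abs]
    have e1 : |A u| * ‖h (x * Real.cosh u) - ((Real.exp (-(x * Real.cosh u)) : ℝ) : ℂ)‖ ≤
        Real.cosh (u / 2) * (CU * f1_P3_m τ (x * Real.cosh u)) :=
      mul_le_mul (hA1 u) (hh2 _ (hX u)) (norm_nonneg _) (Real.cosh_pos _).le
    have e2 : |B u| * ‖k (x * Real.cosh u)‖ ≤
        Real.cosh (u / 2) * f1_P3_m τ (x * Real.cosh u) :=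
      mul_le_mul (hB1 u) (hk1 _ (hX u)) (norm_nonneg _) (Real.cosh_pos _).le
    linarith
  have i1 : Integrable (fun u : ℝ => cexp (ν * u) * (A u * (h (x * Real.cosh u) -
      ((Real.exp (-(x * Real.cosh u)) : ℝ) : ℂ)) + B u * k (x * Real.cosh u))) := by
    refine Integrable.mono' (iV.const_mul (CU + 1)) ?_ (Eventually.of_forall b1)
    refine Continuous.aestronglyMeasurable ?_
    have c1 : Continuous (fun u : ℝ => h (x * Real.cosh u)) := hh.comp (by fun_prop)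
    have c2 : Continuous (fun u : ℝ => k (x * Real.cosh u)) := hk.comp (by fun_prop)
    fun_prop
  have esum : ∀ u : ℝ, cexp (ν * u) * (A u * h (x * Real.cosh u) + B u * k (x * Real.cosh u)) =
      cexp (ν * u) * (A u * (h (x * Real.cosh u) -
      ((Real.exp (-(x * Real.cosh u)) : ℝ) : ℂ)) + B u * k (x * Real.cosh u)) +
      cexp (ν * u) * (A u * ((Real.exp (-(x * Real.cosh u)) : ℝ) : ℂ)) := by
    intro u
    ring
  constructor
  · simp only [esum]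
    rw [integral_add i1 i2, add_sub_cancel_right]
    refine (norm_integral_le_of_norm_le (iV.const_mul (CU + 1)) (Eventually.of_forall b1)).trans ?_
    rw [integral_const_mul]
    calc (CU + 1) * ∫ u : ℝ, Real.cosh (u / 2) * f1_P3_m τ (x * Real.cosh u) ≤
        (CU + 1) * (CV / τ * x ^ (-(5 / 8) : ℝ) * Real.exp (-(c * x))) :=
          mul_le_mul_of_nonneg_left lV (by linarith)
      _ = ((CU + 1) * CV) / τ * x ^ (-(5 / 8) : ℝ) * Real.exp (-(c * x)) := by ring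
      _ ≤ _ := by
          refine mul_le_mul_of_nonneg_right ?_ (Real.exp_pos _).le
          refine mul_le_mul_of_nonneg_right ?_ hxb.le
          exact div_le_div_of_nonneg_right (by linarith) hτ0.le
  · refine (norm_integral_le_of_norm_le iW (Eventually.of_forall b2)).trans (lW.trans ?_)
    refine mul_le_mul_of_nonneg_right ?_ (Real.exp_pos _).le
    refine mul_le_mul_of_nonneg_right ?_ hxb.le
    have : 0 ≤ (CU + 1) * CV := by positivity
    linarith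

theorem f1_P3_q {τ : ℝ} (hτ : 1 ≤ τ) :
    1 ≤ (1 - Real.exp (-(2 * Real.pi * τ)))⁻¹ ∧ (1 - Real.exp (-(2 * Real.pi * τ)))⁻¹ ≤ 2 ∧
    (1 - Real.exp (-(2 * Real.pi * τ)))⁻¹ - 1 ≤ 1 / τ := by
  have hπ : 3 < Real.pi := Real.pi_gt_three
  have h0 := Real.exp_pos (-(2 * Real.pi * τ))
  have h1 : Real.exp (-(2 * Real.pi * τ)) ≤ 1 / (6 * τ) := by
    rw [Real.exp_neg, ← one_div]
    refine one_div_le_one_div_of_le (by linarith) ?_
    have h4 := Real.add_one_le_exp (2 * Real.pi * τ)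
    nlinarith
  have h2 : 1 / (6 * τ) ≤ 1 / 6 := by
    refine one_div_le_one_div_of_le (by norm_num) (by linarith)
  have h3 : 0 < 1 - Real.exp (-(2 * Real.pi * τ)) := by linarith
  have h5 : (1 - Real.exp (-(2 * Real.pi * τ)))⁻¹ ≤ 2 := by
    rw [inv_le_comm₀ h3 (by norm_num)]
    linarith
  refine ⟨(one_le_inv₀ h3).2 (by linarith), h5, ?_⟩
  have h6 : (1 - Real.exp (-(2 * Real.pi * τ)))⁻¹ - 1 =
      Real.exp (-(2 * Real.pi * τ)) * (1 - Real.exp (-(2 * Real.pi * τ)))⁻¹ := by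
    field_simp
    ring
  rw [h6]
  calc Real.exp (-(2 * Real.pi * τ)) * (1 - Real.exp (-(2 * Real.pi * τ)))⁻¹ ≤
      1 / (6 * τ) * 2 := mul_le_mul h1 h5 (inv_pos.2 h3).le (by positivity)
    _ ≤ 1 / τ := by
      rw [show 1 / (6 * τ) * 2 = (1 / 3) / τ by field_simp; norm_num]
      exact div_le_div_of_nonneg_right (by norm_num) (by linarith)

/-- the final comparison -/
theorem f1_P3_fin {C c : ℝ} (hC : 0 ≤ C) (hc : 0 < c) (hc4 : c ≤ 1 / 4) {τ x : ℝ} (hτ : 1 ≤ τ)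
    (hx : 0 < x) {J K : ℂ} (h1 : ‖J - K‖ ≤ C / τ * x ^ (-(5 / 8) : ℝ) * Real.exp (-(c * x)))
    (h2 : ‖K‖ ≤ C * x ^ (-(5 / 8) : ℝ) * Real.exp (-(x / 2))) :
    |2 * Real.pi * τ * (1 - Real.exp (-(2 * Real.pi * τ)))⁻¹ * (x / τ) ^ 2 * ‖J‖ ^ 2 -
      2 * Real.pi / τ * ‖(x : ℂ) * K‖ ^ 2| ≤
      (2 * Real.pi * (7 * C ^ 2)) / τ ^ 2 * x ^ (3 / 4 : ℝ) * Real.exp (-(c * x)) := by
  have hτ0 : 0 < τ := by linarith
  obtain ⟨q1, q2, q3⟩ := f1_P3_q hτ
  set q := (1 - Real.exp (-(2 * Real.pi * τ)))⁻¹ with hq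
  have hπ := Real.pi_pos
  set y := x ^ (-(5 / 8) : ℝ) with hy
  have hyp : 0 < y := Real.rpow_pos_of_pos hx _
  set e := Real.exp (-(c * x)) with he
  have hep : 0 < e := Real.exp_pos _
  have he1 : e ≤ 1 := Real.exp_le_one_iff.2 (by nlinarith)
  have hx2 : Real.exp (-(x / 2)) ≤ e := Real.exp_le_exp.2 (by nlinarith)
  have hx1 : Real.exp (-(x / 2)) ≤ 1 := Real.exp_le_one_iff.2 (by linarith)
  have hK1 : ‖K‖ ≤ C * y := h2.trans (by
    calc C * y * Real.exp (-(x / 2)) ≤ C * y * 1 :=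
        mul_le_mul_of_nonneg_left hx1 (by positivity)
      _ = C * y := mul_one _)
  have hD1 : ‖J - K‖ ≤ C * y := h1.trans (by
    calc C / τ * y * e ≤ C / 1 * y * 1 := by
          refine mul_le_mul ?_ he1 hep.le (by positivity)
          refine mul_le_mul_of_nonneg_right ?_ hyp.le
          exact div_le_div_of_nonneg_left hC one_pos hτ
      _ = C * y := by ring)
  have hJ : ‖J‖ ≤ 2 * (C * y) := by
    have := norm_add_le (J - K) K
    rw [sub_add_cancel] at this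
    linarith
  have hsq : |‖J‖ ^ 2 - ‖K‖ ^ 2| ≤ (C / τ * y * e) * (3 * (C * y)) := by
    have e1 : ‖J‖ ^ 2 - ‖K‖ ^ 2 = (‖J‖ - ‖K‖) * (‖J‖ + ‖K‖) := by ring
    rw [e1, abs_mul, abs_of_nonneg (add_nonneg (norm_nonneg _) (norm_nonneg _))]
    refine mul_le_mul ((abs_norm_sub_norm_le _ _).trans h1) ?_
      (add_nonneg (norm_nonneg _) (norm_nonneg _)) (by positivity)
    linarith
  have hKsq : ‖K‖ ^ 2 ≤ (C * y) * (C * y * e) := by
    rw [sq]
    refine mul_le_mul hK1 ?_ (norm_nonneg _) (by positivity)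
    exact h2.trans (mul_le_mul_of_nonneg_left hx2 (by positivity))
  have hmain : |q * ‖J‖ ^ 2 - ‖K‖ ^ 2| ≤ 7 * C ^ 2 / τ * y ^ 2 * e := by
    have e1 : q * ‖J‖ ^ 2 - ‖K‖ ^ 2 = q * (‖J‖ ^ 2 - ‖K‖ ^ 2) + (q - 1) * ‖K‖ ^ 2 := by ring
    rw [e1]
    refine (abs_add_le _ _).trans ?_
    rw [abs_mul, abs_mul, abs_of_nonneg (by linarith : 0 ≤ q),
      abs_of_nonneg (by linarith : 0 ≤ q - 1), abs_of_nonneg (sq_nonneg ‖K‖)]
    have f1 : q * |‖J‖ ^ 2 - ‖K‖ ^ 2| ≤ 2 * ((C / τ * y * e) * (3 * (C * y))) :=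
      mul_le_mul q2 hsq (abs_nonneg _) (by norm_num)
    have f2 : (q - 1) * ‖K‖ ^ 2 ≤ 1 / τ * ((C * y) * (C * y * e)) :=
      mul_le_mul q3 hKsq (sq_nonneg _) (by positivity)
    calc _ ≤ 2 * ((C / τ * y * e) * (3 * (C * y))) + 1 / τ * ((C * y) * (C * y * e)) :=
          add_le_add f1 f2
      _ = _ := by ring
  have e2 : 2 * Real.pi * τ * q * (x / τ) ^ 2 * ‖J‖ ^ 2 - 2 * Real.pi / τ * ‖(x : ℂ) * K‖ ^ 2 =
      2 * Real.pi / τ * x ^ 2 * (q * ‖J‖ ^ 2 - ‖K‖ ^ 2) := by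
    rw [norm_mul, Complex.norm_real, Real.norm_of_nonneg hx.le]
    field_simp
  rw [e2, abs_mul, abs_of_nonneg (by positivity)]
  have e3 : x ^ 2 * y ^ 2 = x ^ (3 / 4 : ℝ) := by
    rw [hy, ← Real.rpow_natCast, ← Real.rpow_natCast, ← Real.rpow_mul hx.le,
      ← Real.rpow_add hx]
    norm_num
  calc 2 * Real.pi / τ * x ^ 2 * |q * ‖J‖ ^ 2 - ‖K‖ ^ 2| ≤
      2 * Real.pi / τ * x ^ 2 * (7 * C ^ 2 / τ * y ^ 2 * e) :=
        mul_le_mul_of_nonneg_left hmain (by positivity)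
    _ = (2 * Real.pi * (7 * C ^ 2)) / τ ^ 2 * (x ^ 2 * y ^ 2) * e := by ring
    _ = _ := by rw [e3]

/-! ## The main terms -/

theorem f1_P3_KK (μ : ℂ) (x : ℝ) : ∫ u : ℝ, cexp (-(x : ℂ) * (Real.cosh u : ℝ) + μ * u) =
    2 * KK μ x := by
  unfold KK
  ring

theorem f1_P3_Wp (ν : ℂ) {x : ℝ} (hx : 0 < x) :
    (x : ℂ) * ∫ u : ℝ, cexp (ν * u) * (((Real.cosh (u / 2) : ℝ) : ℂ) *
      ((Real.exp (-(x * Real.cosh u)) : ℝ) : ℂ)) = Wp ν x := by
  have h1 := KK_int (ν + 1 / 2) hx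
  have h2 := KK_int (ν - 1 / 2) hx
  have e : ∀ u : ℝ, cexp (ν * u) * (((Real.cosh (u / 2) : ℝ) : ℂ) *
      ((Real.exp (-(x * Real.cosh u)) : ℝ) : ℂ)) =
      1 / 2 * (cexp (-(x : ℂ) * (Real.cosh u : ℝ) + (ν + 1 / 2) * u) +
        cexp (-(x : ℂ) * (Real.cosh u : ℝ) + (ν - 1 / 2) * u)) := by
    intro u
    have a1 : cexp (-(x : ℂ) * (Real.cosh u : ℝ) + (ν + 1 / 2) * u) =
        cexp (ν * u) * cexp (-(x : ℂ) * (Real.cosh u : ℝ)) * cexp ((u : ℂ) / 2) := by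
      rw [← Complex.exp_add, ← Complex.exp_add]
      congr 1
      ring
    have a2 : cexp (-(x : ℂ) * (Real.cosh u : ℝ) + (ν - 1 / 2) * u) =
        cexp (ν * u) * cexp (-(x : ℂ) * (Real.cosh u : ℝ)) * cexp (-((u : ℂ) / 2)) := by
      rw [← Complex.exp_add, ← Complex.exp_add]
      congr 1
      ring
    have a3 : ((Real.cosh (u / 2) : ℝ) : ℂ) = (cexp ((u : ℂ) / 2) + cexp (-((u : ℂ) / 2))) / 2 := by
      rw [Complex.ofReal_cosh, Complex.cosh]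
      push_cast
      rfl
    have a4 : ((Real.exp (-(x * Real.cosh u)) : ℝ) : ℂ) =
        cexp (-(x : ℂ) * (Real.cosh u : ℝ)) := by
      rw [Complex.ofReal_exp]
      congr 1
      push_cast
      ring
    rw [a1, a2, a3, a4]
    ring
  simp only [e]
  rw [integral_const_mul, integral_add h1 h2, f1_P3_KK, f1_P3_KK]
  unfold Wp
  ring

theorem f1_P3_Vm (ν : ℂ) {x : ℝ} (hx : 0 < x) :
    (x : ℂ) * ∫ u : ℝ, cexp (ν * u) * (((Real.sinh (u / 2) : ℝ) : ℂ) *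
      ((Real.exp (-(x * Real.cosh u)) : ℝ) : ℂ)) = ν * Vm ν x := by
  have h1 := KK_int (ν + 1 / 2) hx
  have h2 := KK_int (ν - 1 / 2) hx
  have e : ∀ u : ℝ, cexp (ν * u) * (((Real.sinh (u / 2) : ℝ) : ℂ) *
      ((Real.exp (-(x * Real.cosh u)) : ℝ) : ℂ)) =
      1 / 2 * (cexp (-(x : ℂ) * (Real.cosh u : ℝ) + (ν + 1 / 2) * u) -
        cexp (-(x : ℂ) * (Real.cosh u : ℝ) + (ν - 1 / 2) * u)) := by
    intro u
    have a1 : cexp (-(x : ℂ) * (Real.cosh u : ℝ) + (ν + 1 / 2) * u) =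
        cexp (ν * u) * cexp (-(x : ℂ) * (Real.cosh u : ℝ)) * cexp ((u : ℂ) / 2) := by
      rw [← Complex.exp_add, ← Complex.exp_add]
      congr 1
      ring
    have a2 : cexp (-(x : ℂ) * (Real.cosh u : ℝ) + (ν - 1 / 2) * u) =
        cexp (ν * u) * cexp (-(x : ℂ) * (Real.cosh u : ℝ)) * cexp (-((u : ℂ) / 2)) := by
      rw [← Complex.exp_add, ← Complex.exp_add]
      congr 1
      ring
    have a3 : ((Real.sinh (u / 2) : ℝ) : ℂ) = (cexp ((u : ℂ) / 2) - cexp (-((u : ℂ) / 2))) / 2 := by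
      rw [Complex.ofReal_sinh, Complex.sinh]
      push_cast
      rfl
    have a4 : ((Real.exp (-(x * Real.cosh u)) : ℝ) : ℂ) =
        cexp (-(x : ℂ) * (Real.cosh u : ℝ)) := by
      rw [Complex.ofReal_exp]
      congr 1
      push_cast
      ring
    rw [a1, a2, a3, a4]
    ring
  simp only [e]
  rw [integral_const_mul, integral_sub h1 h2, f1_P3_KK, f1_P3_KK, (Vm_eq ν hx).2]
  ring

theorem f1_P3_sinh_le (u : ℝ) : |Real.sinh (u / 2)| ≤ Real.cosh (u / 2) := by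
  rw [abs_le]
  have h1 := Real.cosh_add_sinh (u / 2)
  have h2 := Real.cosh_sub_sinh (u / 2)
  have h3 := Real.exp_pos (u / 2)
  have h4 := Real.exp_pos (-(u / 2))
  constructor <;> linarith

theorem f1_P3_tan {θ₀ θ : ℝ} (h1 : θ₀ < Real.pi / 2) (hθ : 0 < θ) (hθ' : θ ≤ θ₀) :
    0 < Real.tan θ ∧ Real.tan θ ≤ Real.tan θ₀ := by
  have h2 : θ < Real.pi / 2 := by linarith
  refine ⟨Real.tan_pos_of_pos_of_lt_pi_div_two hθ h2, ?_⟩
  exact Real.strictMonoOn_tan.monotoneOn ⟨by linarith, h2⟩ ⟨by linarith, h1⟩ hθ'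

theorem f1_P3_epow (τ : ℝ) : ((Real.exp (-(Real.pi * τ / 2)) : ℝ) : ℂ) =
    ((Real.exp (Real.pi * τ / 2) : ℝ) : ℂ) * ((Real.exp (-(Real.pi * τ)) : ℝ) : ℂ) := by
  rw [← Complex.ofReal_mul, ← Real.exp_add]
  congr 2
  ring

theorem f1_P3_gamma' {τ : ℝ} (hτ : 0 < τ) : ‖Gamma (1 + ((-τ : ℝ) : ℂ) * I)‖ =
    ‖Gamma (1 + (τ : ℂ) * I)‖ := by
  have h : (1 + ((-τ : ℝ) : ℂ) * I) = conj (1 + (τ : ℂ) * I) := by simp
  rw [h, Complex.Gamma_conj, Complex.norm_conj]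

theorem Ph1_asymp_pr {ν : ℂ} {ε : ℝ} (hν : ν.re = 0) (hε : ε = 1 ∨ ε = -1) {θ₀ : ℝ}
    (h0 : 0 < θ₀) (h1 : θ₀ < Real.pi / 2) :
    ∃ C c : ℝ, 0 < c ∧ ∀ τ θ : ℝ, 1 ≤ τ → 0 < θ → θ ≤ θ₀ →
      |‖G1 ν ε (ha (-τ)) θ‖ ^ 2 - 2 * Real.pi / τ * ‖Wp ν (τ * Real.tan θ)‖ ^ 2| ≤
        C / τ ^ 2 * (τ * Real.tan θ) ^ (3 / 4 : ℝ) * Real.exp (-(c * (τ * Real.tan θ))) ∧
      |‖G1 ν ε (ha τ) θ‖ ^ 2 - 2 * Real.pi / τ * ‖ν * Vm ν (τ * Real.tan θ)‖ ^ 2| ≤
        C / τ ^ 2 * (τ * Real.tan θ) ^ (3 / 4 : ℝ) * Real.exp (-(c * (τ * Real.tan θ))) := by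
  have hv : 0 < Real.tan θ₀ := (f1_P3_tan h1 h0 le_rfl).1
  obtain ⟨C, c, hC, hc, hc4, hkey⟩ := f1_P3_key hν hv
  refine ⟨2 * Real.pi * (7 * C ^ 2), c, hc, ?_⟩
  intro τ θ hτ hθ hθ'
  have hτ0 : 0 < τ := by linarith
  have hε1 : |ε| = 1 := by rcases hε with h | h <;> rw [h] <;> simp
  obtain ⟨ht, ht'⟩ := f1_P3_tan h1 hθ hθ'
  have hθm : θ ∈ Ioo 0 (Real.pi / 2) := ⟨hθ, by linarith⟩
  set x := τ * Real.tan θ with hxdef
  have hx : 0 < x := mul_pos hτ0 ht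
  have hxv : x ≤ τ * Real.tan θ₀ := mul_le_mul_of_nonneg_left ht' hτ0.le
  have hxt : Real.tan θ = x / τ := by rw [hxdef]; field_simp
  have hE2 : Real.exp (Real.pi * τ / 2) ^ 2 = Real.exp (Real.pi * τ) := by
    rw [← Real.exp_nat_mul]
    congr 1
    push_cast
    ring
  have hkk : ∀ X : ℝ, 0 ≤ X →
      ‖((Real.exp (-(Real.pi * τ)) : ℝ) : ℂ) * f1_P3_g τ X‖ ≤ f1_P3_m τ X := by
    intro X hX
    rw [norm_mul, Complex.norm_real, Real.norm_eq_abs, Real.abs_exp]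
    exact f1_P3_g_norm hτ0 hX
  constructor
  · -- the sign `-`
    obtain ⟨k1, k2⟩ := hkey τ x hτ hx hxv (fun u => Real.cosh (u / 2))
      (fun u => -(ε * Real.sinh (u / 2))) (fun X => conj (hs1 τ X))
      (fun X => conj (((Real.exp (-(Real.pi * τ)) : ℝ) : ℂ) * f1_P3_g τ X)) (by fun_prop)
      (by fun_prop) (Complex.continuous_conj.comp (f1_P3_hs_cont τ))
      (Complex.continuous_conj.comp (continuous_const.mul (f1_P3_g_cont τ)))
      (fun u => by rw [abs_of_pos (Real.cosh_pos _)])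
      (fun u => by rw [abs_neg, abs_mul, hε1, one_mul]; exact f1_P3_sinh_le u)
      (fun CU hCU X hX => by
        have h3 : conj (hs1 τ X) - ((Real.exp (-X) : ℝ) : ℂ) =
            conj (hs1 τ X - ((Real.exp (-X) : ℝ) : ℂ)) := by
          rw [map_sub, Complex.conj_ofReal]
        rw [h3, Complex.norm_conj]
        exact hCU X hX)
      (fun X hX => by rw [Complex.norm_conj]; exact hkk X hX)
    have hfin := f1_P3_fin hC hc hc4 hτ hx k1 k2
    rw [f1_P3_Wp ν hx] at hfin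
    have hG := G1_tan (ε := ε) hν (τ := -τ) hθm
    have hint : ∀ u : ℝ, cexp (ν * u) *
        ((Real.cosh (u / 2) : ℝ) *
            (((Real.tan θ * Real.cosh u : ℝ) : ℂ) - I) ^ (-1 - ((-τ : ℝ) : ℂ) * I) +
          ε * ((Real.sinh (u / 2) : ℝ) *
            (((Real.tan θ * Real.cosh u : ℝ) : ℂ) + I) ^ (-1 - ((-τ : ℝ) : ℂ) * I))) =
        (I * ((Real.exp (Real.pi * τ / 2) : ℝ) : ℂ)) * (cexp (ν * u) *
          (((Real.cosh (u / 2) : ℝ) : ℂ) * conj (hs1 τ (x * Real.cosh u)) +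
            ((-(ε * Real.sinh (u / 2)) : ℝ) : ℂ) *
              conj (((Real.exp (-(Real.pi * τ)) : ℝ) : ℂ) * f1_P3_g τ (x * Real.cosh u)))) := by
      intro u
      obtain ⟨p1, p2⟩ := f1_P3_pow' hτ0.ne' (Real.tan θ * Real.cosh u) (x * Real.cosh u)
        (by rw [hxdef]; ring)
      rw [p1, p2, f1_P3_epow, map_mul, Complex.conj_ofReal]
      push_cast
      ring
    simp only [hint] at hG
    rw [integral_const_mul, norm_mul, mul_pow, norm_mul, Complex.norm_I, one_mul,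
      Complex.norm_real, Real.norm_eq_abs, Real.abs_exp, hE2, f1_P3_gamma' hτ0] at hG
    rw [hG, hxt]
    have hΓ := f1_P3_gamma hτ0
    refine le_of_eq_of_le ?_ hfin
    congr 2
    rw [← hΓ]
    ring
  · -- the sign `+`
    obtain ⟨k1, k2⟩ := hkey τ x hτ hx hxv (fun u => ε * Real.sinh (u / 2))
      (fun u => -Real.cosh (u / 2)) (fun X => hs1 τ X)
      (fun X => ((Real.exp (-(Real.pi * τ)) : ℝ) : ℂ) * f1_P3_g τ X) (by fun_prop)
      (by fun_prop) (f1_P3_hs_cont τ)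
      (continuous_const.mul (f1_P3_g_cont τ))
      (fun u => by rw [abs_mul, hε1, one_mul]; exact f1_P3_sinh_le u)
      (fun u => by rw [abs_neg, abs_of_pos (Real.cosh_pos _)])
      (fun CU hCU X hX => hCU X hX)
      hkk
    have hfin := f1_P3_fin hC hc hc4 hτ hx k1 k2
    have hV : ‖(x : ℂ) * ∫ u : ℝ, cexp (ν * u) * (((ε * Real.sinh (u / 2) : ℝ) : ℂ) *
        ((Real.exp (-(x * Real.cosh u)) : ℝ) : ℂ))‖ = ‖ν * Vm ν x‖ := by
      rw [← f1_P3_Vm ν hx]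
      have e1 : ∀ u : ℝ, cexp (ν * u) * (((ε * Real.sinh (u / 2) : ℝ) : ℂ) *
        ((Real.exp (-(x * Real.cosh u)) : ℝ) : ℂ)) = (ε : ℂ) * (cexp (ν * u) *
        (((Real.sinh (u / 2) : ℝ) : ℂ) * ((Real.exp (-(x * Real.cosh u)) : ℝ) : ℂ))) := by
        intro u
        push_cast
        ring
      simp only [e1]
      rw [integral_const_mul, norm_mul, norm_mul, norm_mul, Complex.norm_real ε,
        Real.norm_eq_abs, hε1, one_mul]
    rw [hV] at hfin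
    have hG := G1_tan (ε := ε) hν (τ := τ) hθm
    have hint : ∀ u : ℝ, cexp (ν * u) *
        ((Real.cosh (u / 2) : ℝ) *
            (((Real.tan θ * Real.cosh u : ℝ) : ℂ) - I) ^ (-1 - (τ : ℂ) * I) +
          ε * ((Real.sinh (u / 2) : ℝ) *
            (((Real.tan θ * Real.cosh u : ℝ) : ℂ) + I) ^ (-1 - (τ : ℂ) * I))) =
        (-I * ((Real.exp (Real.pi * τ / 2) : ℝ) : ℂ)) * (cexp (ν * u) *
          (((ε * Real.sinh (u / 2) : ℝ) : ℂ) * hs1 τ (x * Real.cosh u) +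
            ((-Real.cosh (u / 2) : ℝ) : ℂ) *
              (((Real.exp (-(Real.pi * τ)) : ℝ) : ℂ) * f1_P3_g τ (x * Real.cosh u)))) := by
      intro u
      obtain ⟨p1, p2⟩ := f1_P3_pow hτ0.ne' (Real.tan θ * Real.cosh u) (x * Real.cosh u)
        (by rw [hxdef]; ring)
      rw [p1, p2, f1_P3_epow]
      push_cast
      ring
    simp only [hint] at hG
    rw [integral_const_mul, norm_mul, mul_pow, norm_mul, norm_neg, Complex.norm_I, one_mul,
      Complex.norm_real, Real.norm_eq_abs, Real.abs_exp, hE2] at hG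
    rw [hG, hxt]
    have hΓ := f1_P3_gamma hτ0
    refine le_of_eq_of_le ?_ hfin
    congr 2
    rw [← hΓ]
    ring

end Pool.Agent.JO.FM1

namespace Pool.Agent.JO.FM1

theorem Ph1_asymp : type_of% @Ph1_asymp_pr := @Ph1_asymp_pr

end Pool.Agent.JO.FM1
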