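import Pool.Agent.Lib_helper42.JO1.Defs
import Pool.Agent.Lib_helper45.JO.Defs2
import Pool.Agent.Lib_helper42.JO1F.M2
import Pool.Agent.Lib_helper42.JO1F.M7
import Pool.Agent.Lib_helper42.JO1F.M8
import Pool.Agent.Lib_helper42.JO1F.P5

/-!
-/

set_option autoImplicit false

namespace Pool.Agent.JO.FM1

open Complex Filter Topology MeasureTheory Set
open UpperHalfPlane hiding I
open Pool.Agent.JO.FM
open scoped MatrixGroups ComplexConjugate

section

variable {ν : ℂ} {ε : ℝ} {a : ℕ → ℂ} {f : ℍ → ℂ} {L : ℂ → ℂ}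

theorem f1_c1_ha_cont : Continuous ha := by
  unfold ha
  fun_prop

theorem f1_c1_ha_re (t : ℝ) : (ha t).re = 1 / 2 := by
  simp [ha]

/-- `t ↦ G(1/2+it, θ)` is continuous -/
theorem f1_c1_G1_cont (hν : ν.re = 0) {θ : ℂ} (h0 : 0 < θ.re) (h1 : θ.re < Real.pi) :
    Continuous (fun t : ℝ => G1 ν ε (ha t) θ) := by
  have h := (G1_diff_s (ε := ε) hν h0 h1).continuousOn
  refine h.comp_continuous f1_c1_ha_cont fun t => ?_
  show 0 < (ha t).re
  rw [f1_c1_ha_re]
  norm_num

theorem f1_c1_Ph_cont (hν : ν.re = 0) {θ : ℂ} (h0 : 0 < θ.re) (h1 : θ.re < Real.pi) :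
    Continuous (fun t : ℝ => Ph1 ν ε t θ) := by
  unfold Ph1
  have h2 : Continuous (fun t : ℝ => G1 ν ε (ha t) (conj θ)) :=
    f1_c1_G1_cont hν (by simpa using h0) (by simpa using h1)
  exact (f1_c1_G1_cont hν h0 h1).mul (Complex.continuous_conj.comp h2)

theorem f1_c1_strip_open : IsOpen {θ : ℂ | 0 < θ.re ∧ θ.re < Real.pi} :=
  (isOpen_lt continuous_const Complex.continuous_re).inter
    (isOpen_lt Complex.continuous_re continuous_const)

theorem f1_c1_Ph_diff (hν : ν.re = 0) (t : ℝ) :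
    DifferentiableOn ℂ (fun θ => Ph1 ν ε t θ) {θ | 0 < θ.re ∧ θ.re < Real.pi} := by
  have hs : 0 < (ha t).re := by rw [f1_c1_ha_re]; norm_num
  have hG := G1_diff (ε := ε) hν hs
  intro θ hθ
  unfold Ph1
  have h1 : DifferentiableAt ℂ (fun θ => G1 ν ε (ha t) θ) θ :=
    hG.differentiableAt (f1_c1_strip_open.mem_nhds hθ)
  have hθ' : conj θ ∈ {θ : ℂ | 0 < θ.re ∧ θ.re < Real.pi} := by
    constructor
    · simpa using hθ.1
    · simpa using hθ.2
  have h2 : DifferentiableAt ℂ (fun θ => G1 ν ε (ha t) θ) (conj θ) :=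
    hG.differentiableAt (f1_c1_strip_open.mem_nhds hθ')
  have h3 := h2.conj_conj
  rw [Complex.conj_conj] at h3
  exact (h1.mul h3).differentiableWithinAt

/-- the second moment against an exponential -/
theorem f1_c1_int (F : Frame1 ν ε a f) (hL : LFun1 ν ε a f L) {β : ℝ} (hβ : 0 < β) :
    Integrable (fun t : ℝ => ‖L (ha t)‖ ^ 2 * Real.exp (-(β * |t|))) := by
  have hLc : Continuous L := hL.diff.continuous
  have hc1 : Continuous (fun t : ℝ => ‖L (ha t)‖ ^ 2) := (hLc.comp f1_c1_ha_cont).norm.pow 2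
  have hc2 : Continuous (fun t : ℝ => ‖L (ha (-t))‖ ^ 2) := hc1.comp continuous_neg
  have hc : Continuous (fun t : ℝ => ‖L (ha t)‖ ^ 2 * Real.exp (-(β * |t|))) :=
    hc1.mul (by fun_prop)
  have hg := growth_int1 F hL (α := 3 / 2) (by norm_num)
  -- `t^{3/2} e^{-βt}` is bounded
  obtain ⟨M, hM⟩ : ∃ M : ℝ, ∀ t : ℝ, 1 ≤ t → t ^ (3 / 2 : ℝ) * Real.exp (-(β * t)) ≤ M := by
    have ht : Tendsto (fun t : ℝ => t ^ (3 / 2 : ℝ) * Real.exp (-β * t)) atTop (𝓝 0) :=
      tendsto_rpow_mul_exp_neg_mul_atTop_nhds_zero _ _ hβ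
    obtain ⟨T, hT⟩ := eventually_atTop.1 (ht.eventually (gt_mem_nhds (zero_lt_one)))
    have hcc : ContinuousOn (fun t : ℝ => t ^ (3 / 2 : ℝ) * Real.exp (-β * t)) (Icc 1 (max 1 T)) := by
      refine ContinuousOn.mul ?_ (by fun_prop)
      refine ContinuousOn.rpow_const continuousOn_id fun t ht => Or.inl ?_
      have h1 : 1 ≤ t := ht.1
      exact (by linarith : (0 : ℝ) < t).ne'
    obtain ⟨B, hB⟩ := isCompact_Icc.bddAbove_image hcc
    refine ⟨max 1 B, fun t ht1 => ?_⟩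
    have e : -(β * t) = -β * t := by ring
    rw [e]
    rcases le_total T t with h | h
    · exact le_trans (hT t h).le (le_max_left _ _)
    · refine le_trans ?_ (le_max_right _ _)
      exact hB ⟨t, ⟨ht1, le_max_of_le_right h⟩, rfl⟩
  have hpos : IntegrableOn (fun t : ℝ => (‖L (ha t)‖ ^ 2 + ‖L (ha (-t))‖ ^ 2) *
      Real.exp (-(β * t))) (Ici 1) := by
    refine Integrable.mono' (hg.mul_const M) ?_ ?_
    · have h3 : Continuous (fun t : ℝ => Real.exp (-(β * t))) := by fun_prop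
      exact ((hc1.add hc2).mul h3).aestronglyMeasurable
    · refine (ae_restrict_iff' measurableSet_Ici).2 (Eventually.of_forall fun t ht => ?_)
      have ht : 1 ≤ t := ht
      have ht0 : 0 < t := by linarith
      have hn : 0 ≤ (‖L (ha t)‖ ^ 2 + ‖L (ha (-t))‖ ^ 2) := by positivity
      rw [Real.norm_of_nonneg (by positivity), mul_assoc]
      refine mul_le_mul_of_nonneg_left ?_ hn
      have h1 := hM t ht
      have h2 : t ^ (-(3 / 2) : ℝ) * t ^ (3 / 2 : ℝ) = 1 := by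
        rw [← Real.rpow_add ht0]
        norm_num
      calc Real.exp (-(β * t)) = t ^ (-(3 / 2) : ℝ) * (t ^ (3 / 2 : ℝ) * Real.exp (-(β * t))) := by
            rw [← mul_assoc, h2, one_mul]
        _ ≤ t ^ (-(3 / 2) : ℝ) * M := mul_le_mul_of_nonneg_left h1 (by positivity)
  have hA : IntegrableOn (fun t : ℝ => ‖L (ha t)‖ ^ 2 * Real.exp (-(β * |t|))) (Ici 1) := by
    refine Integrable.mono' hpos hc.aestronglyMeasurable ?_
    refine (ae_restrict_iff' measurableSet_Ici).2 (Eventually.of_forall fun t ht => ?_)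
    have ht : 1 ≤ t := ht
    rw [Real.norm_of_nonneg (by positivity), abs_of_pos (by linarith)]
    have : 0 ≤ ‖L (ha (-t))‖ ^ 2 := by positivity
    exact mul_le_mul_of_nonneg_right (by linarith) (Real.exp_pos _).le
  have hB' : IntegrableOn (fun t : ℝ => ‖L (ha (-t))‖ ^ 2 * Real.exp (-(β * |-t|))) (Ici 1) := by
    refine Integrable.mono' hpos (hc.comp continuous_neg).aestronglyMeasurable ?_
    refine (ae_restrict_iff' measurableSet_Ici).2 (Eventually.of_forall fun t ht => ?_)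
    have ht : 1 ≤ t := ht
    rw [Real.norm_of_nonneg (by positivity), abs_neg, abs_of_pos (by linarith)]
    have : 0 ≤ ‖L (ha t)‖ ^ 2 := by positivity
    exact mul_le_mul_of_nonneg_right (by linarith) (Real.exp_pos _).le
  have hB : IntegrableOn (fun t : ℝ => ‖L (ha t)‖ ^ 2 * Real.exp (-(β * |t|))) (Iic (-1)) := by
    have h4 := (Measure.measurePreserving_neg (volume : Measure ℝ)).integrableOn_comp_preimage
      (MeasurableEquiv.neg ℝ).measurableEmbedding
      (f := fun t : ℝ => ‖L (ha t)‖ ^ 2 * Real.exp (-(β * |t|))) (s := Iic (-1))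
    refine h4.1 ?_
    have h5 : (Neg.neg ⁻¹' Iic (-1 : ℝ)) = Ici 1 := by
      ext x
      simp
    rw [h5]
    exact hB'
  have hC : IntegrableOn (fun t : ℝ => ‖L (ha t)‖ ^ 2 * Real.exp (-(β * |t|))) (Icc (-1) 1) :=
    hc.continuousOn.integrableOn_compact isCompact_Icc
  have hU : (Iic (-1 : ℝ) ∪ Icc (-1) 1) ∪ Ici 1 = univ := by
    ext t
    simp only [mem_union, mem_Iic, mem_Icc, mem_Ici, mem_univ, iff_true]
    rcases le_total t (-1) with h | h
    · exact Or.inl (Or.inl h)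
    · rcases le_total t 1 with h' | h'
      · exact Or.inl (Or.inr ⟨h, h'⟩)
      · exact Or.inr h'
  rw [← integrableOn_univ, ← hU]
  exact (hB.union hC).union hA

theorem f1_c1_Ph_bound (hν : ν.re = 0) (hε : ε = 1 ∨ ε = -1) {α R : ℝ} (hα : 0 < α)
    (hα' : α ≤ Real.pi / 2) : ∃ C : ℝ, ∀ (t : ℝ) (θ : ℂ), α ≤ θ.re → θ.re ≤ Real.pi - α →
      |θ.im| ≤ R → ‖Ph1 ν ε t θ‖ ≤ C * Real.exp (-(α * |t|)) := by
  obtain ⟨C, hC⟩ := G1_bound hν hε (R := R) hα hα'
  have key : ∀ (t : ℝ) (θ : ℂ), α ≤ θ.re → θ.re ≤ Real.pi - α → |θ.im| ≤ R →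
      ‖G1 ν ε (ha t) θ‖ ≤ |C| * (1 + 2 / α) * Real.exp (-(α / 2 * |t|)) := by
    intro t θ h0 h1 hR
    refine le_trans (hC t θ h0 h1 hR) ?_
    have e1 : 1 + |t| ≤ (1 + 2 / α) * Real.exp (α / 2 * |t|) := by
      have e2 : α / 2 * |t| ≤ Real.exp (α / 2 * |t|) := by
        linarith [Real.add_one_le_exp (α / 2 * |t|)]
      have e3 : 1 ≤ Real.exp (α / 2 * |t|) := Real.one_le_exp (by positivity)
      have e4 : |t| = 2 / α * (α / 2 * |t|) := by field_simp
      have e5 : 2 / α * (α / 2 * |t|) ≤ 2 / α * Real.exp (α / 2 * |t|) :=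
        mul_le_mul_of_nonneg_left e2 (by positivity)
      calc 1 + |t| = 1 + 2 / α * (α / 2 * |t|) := by rw [← e4]
        _ ≤ Real.exp (α / 2 * |t|) + 2 / α * Real.exp (α / 2 * |t|) := add_le_add e3 e5
        _ = (1 + 2 / α) * Real.exp (α / 2 * |t|) := by ring
    have e6 : Real.exp (α / 2 * |t|) * Real.exp (-(α * |t|)) = Real.exp (-(α / 2 * |t|)) := by
      rw [← Real.exp_add]
      congr 1
      ring
    calc C * (1 + |t|) * Real.exp (-(α * |t|))
        ≤ |C| * ((1 + 2 / α) * Real.exp (α / 2 * |t|)) * Real.exp (-(α * |t|)) := by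
          refine mul_le_mul_of_nonneg_right ?_ (Real.exp_pos _).le
          exact mul_le_mul (le_abs_self C) e1 (by positivity) (abs_nonneg C)
      _ = |C| * (1 + 2 / α) * (Real.exp (α / 2 * |t|) * Real.exp (-(α * |t|))) := by ring
      _ = |C| * (1 + 2 / α) * Real.exp (-(α / 2 * |t|)) := by rw [e6]
  refine ⟨(|C| * (1 + 2 / α)) ^ 2, fun t θ h0 h1 hR => ?_⟩
  have e1 := key t θ h0 h1 hR
  have e2 := key t (conj θ) (by simpa using h0) (by simpa using h1) (by simpa using hR)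
  unfold Ph1
  rw [norm_mul, Complex.norm_conj]
  calc ‖G1 ν ε (ha t) θ‖ * ‖G1 ν ε (ha t) (conj θ)‖
      ≤ (|C| * (1 + 2 / α) * Real.exp (-(α / 2 * |t|))) *
          (|C| * (1 + 2 / α) * Real.exp (-(α / 2 * |t|))) :=
        mul_le_mul e1 e2 (norm_nonneg _) (le_trans (norm_nonneg _) e1)
    _ = (|C| * (1 + 2 / α)) ^ 2 *
          (Real.exp (-(α / 2 * |t|)) * Real.exp (-(α / 2 * |t|))) := by ring
    _ = (|C| * (1 + 2 / α)) ^ 2 * Real.exp (-(α * |t|)) := by
        rw [← Real.exp_add]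
        congr 2
        ring

theorem FC1_diff_pr (F : Frame1 ν ε a f) (hL : LFun1 ν ε a f L) :
    DifferentiableOn ℂ (FC1 ν ε L) {θ | 0 < θ.re ∧ θ.re < Real.pi} ∧
    ∀ θ : ℝ, θ ∈ Ioo 0 Real.pi → FC1 ν ε L θ = ray (phi f) θ := by
  have hLc : Continuous L := hL.diff.continuous
  have hL1 : Continuous (fun t : ℝ => L (ha t)) := hLc.comp f1_c1_ha_cont
  constructor
  · have key : DifferentiableOn ℂ (fun θ : ℂ => ∫ t : ℝ, ((‖L (ha t)‖ ^ 2 : ℝ) : ℂ) * Ph1 ν ε t θ)
        {θ | 0 < θ.re ∧ θ.re < Real.pi} := by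
      refine SP.hol_int volume (fun θ t => ((‖L (ha t)‖ ^ 2 : ℝ) : ℂ) * Ph1 ν ε t θ) _ ?_ ?_ ?_
      · intro θ hθ
        have h1 : Continuous (fun t : ℝ => Ph1 ν ε t θ) := f1_c1_Ph_cont F.nu hθ.1 hθ.2
        have h2 : Continuous (fun t : ℝ => ((‖L (ha t)‖ ^ 2 : ℝ) : ℂ)) :=
          Complex.continuous_ofReal.comp (hL1.norm.pow 2)
        exact (h2.mul h1).aestronglyMeasurable
      · exact Eventually.of_forall fun t => (f1_c1_Ph_diff F.nu t).const_mul _
      · intro θ hθ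
        obtain ⟨h0, h1⟩ := hθ
        set α : ℝ := min (θ.re / 2) ((Real.pi - θ.re) / 2) with hα
        have hα0 : 0 < α := lt_min (by linarith) (by linarith)
        have hα1 : α ≤ θ.re / 2 := min_le_left _ _
        have hα2 : α ≤ (Real.pi - θ.re) / 2 := min_le_right _ _
        have hball : ∀ z ∈ Metric.ball θ α, α ≤ z.re ∧ z.re ≤ Real.pi - α ∧
            |z.im| ≤ |θ.im| + α := by
          intro z hz
          rw [Metric.mem_ball, Complex.dist_eq] at hz
          have e1 := lt_of_le_of_lt (Complex.abs_re_le_norm (z - θ)) hz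
          have e2 := lt_of_le_of_lt (Complex.abs_im_le_norm (z - θ)) hz
          rw [Complex.sub_re, abs_lt] at e1
          rw [Complex.sub_im] at e2
          refine ⟨by linarith [e1.1], by linarith [e1.2], ?_⟩
          have e3 := abs_sub_abs_le_abs_sub z.im θ.im
          linarith
        obtain ⟨C, hC⟩ := f1_c1_Ph_bound F.nu F.eps (R := |θ.im| + α) hα0
          (by linarith : α ≤ Real.pi / 2)
        refine ⟨α, hα0, ?_, fun t => C * (‖L (ha t)‖ ^ 2 * Real.exp (-(α * |t|))), ?_, ?_⟩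
        · intro z hz
          obtain ⟨e1, e2, _⟩ := hball z hz
          exact ⟨by linarith, by linarith⟩
        · exact (f1_c1_int F hL hα0).const_mul C
        · refine Eventually.of_forall fun t z hz => ?_
          obtain ⟨e1, e2, e3⟩ := hball z hz
          rw [norm_mul, Complex.norm_real, Real.norm_of_nonneg (by positivity)]
          calc ‖L (ha t)‖ ^ 2 * ‖Ph1 ν ε t z‖
              ≤ ‖L (ha t)‖ ^ 2 * (C * Real.exp (-(α * |t|))) :=
                mul_le_mul_of_nonneg_left (hC t z e1 e2 e3) (by positivity)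
            _ = C * (‖L (ha t)‖ ^ 2 * Real.exp (-(α * |t|))) := by ring
    exact key.const_mul _
  · intro θ hθ
    rw [(ray_phi1 F hL hθ).2]
    unfold FC1
    have e1 : ∀ t : ℝ, ((‖L (ha t)‖ ^ 2 : ℝ) : ℂ) * Ph1 ν ε t θ =
        ((‖L (ha t)‖ ^ 2 * ‖G1 ν ε (ha t) θ‖ ^ 2 : ℝ) : ℂ) := by
      intro t
      unfold Ph1
      rw [Complex.conj_ofReal, Complex.mul_conj, Complex.normSq_eq_norm_sq]
      push_cast
      ring
    rw [integral_congr_ae (Eventually.of_forall e1), integral_complex_ofReal,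
      ← Complex.ofReal_inv, ← Complex.ofReal_mul]

end

end Pool.Agent.JO.FM1

namespace Pool.Agent.JO.FM1

theorem FC1_diff : type_of% @FC1_diff_pr := @FC1_diff_pr

end Pool.Agent.JO.FM1
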