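import Pool.Agent.Lib_helper42.JO1.Defs
import Pool.Agent.Lib_helper45.JO.Defs2
import Pool.Agent.Lib_helper42.JO1F.C7
import Pool.Agent.Lib_helper42.JO1F.C8A
import Pool.Agent.Lib_helper42.JO1F.K1
import Pool.Agent.Lib_helper42.JO1F.K2
import Pool.Agent.Lib_helper42.JO1F.K5

/-! Project JO, part FM, weight 1, block C8: only the diagonal matters (after helper24). -/

set_option autoImplicit false

namespace Pool.Agent.JO.FM1

open Complex Filter Topology MeasureTheory Set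
open UpperHalfPlane hiding I
open Pool.Agent.JO.FM
open scoped MatrixGroups ComplexConjugate

theorem f1_c8_W_real {ν : ℂ} (hν : ν.re = 0) (m : ℤ) (x : ℝ) :
    conj (Wz ν m x) = Wz ν m x := by
  unfold Wz
  split_ifs
  · exact Complex.conj_eq_iff_im.2 (W_real hν x).1
  · exact Complex.conj_eq_iff_im.2 (W_real hν x).2

theorem f1_c8_W_cont (ν : ℂ) (m : ℤ) : ContinuousOn (Wz ν m) (Ioi 0) := by
  intro x hx
  by_cases h : 0 < m
  · have e : Wz ν m = Wp ν := by funext y; simp only [Wz, if_pos h]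
    rw [e]
    exact (Wp_deriv ν hx).continuousAt.continuousWithinAt
  · have e : Wz ν m = Vm ν := by funext y; simp only [Wz, if_neg h]
    rw [e]
    exact (Vm_deriv ν hx).continuousAt.continuousWithinAt

theorem f1_c8_W_mul (ν : ℂ) {q : ℕ} (hq : 0 < q) (n : ℤ) (x : ℝ) :
    Wz ν ((q : ℤ) * n) x = Wz ν n x := by
  have hq' : (0 : ℤ) < q := by exact_mod_cast hq
  unfold Wz
  by_cases h : 0 < n
  · rw [if_pos h, if_pos (mul_pos hq' h)]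
  · rw [if_neg h, if_neg (by intro h2; exact h (pos_of_mul_pos_right h2 hq'.le))]

theorem f1_c8_W_exp {ν : ℂ} (hν : ν.re = 0) :
    ∃ C : ℝ, 0 ≤ C ∧ ∀ (m : ℤ) (x : ℝ), 0 < x → ‖Wz ν m x‖ ≤ C * Real.exp (-(x / 4)) := by
  obtain ⟨C, hC⟩ := Wz_bound hν (b := 1 / 4) (by norm_num)
  have hC0 : 0 ≤ C := by
    have h1 := (hC 0 1 one_pos).1
    rw [Real.one_rpow, mul_one] at h1
    by_contra h
    push Not at h
    have := mul_neg_of_neg_of_pos h (Real.exp_pos (-(1 / 2 : ℝ)))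
    linarith [norm_nonneg (Wz ν 0 1)]
  refine ⟨4 * C, by positivity, fun m x hx => ?_⟩
  refine (hC m x hx).1.trans ?_
  have h1 : x ^ (1 / 2 - 1 / 4 : ℝ) ≤ 1 + x := by
    rcases le_total x 1 with h | h
    · exact (Real.rpow_le_one hx.le h (by norm_num)).trans (by linarith)
    · have := Real.rpow_le_rpow_of_exponent_le h
        (show (1 / 2 - 1 / 4 : ℝ) ≤ 1 by norm_num)
      rw [Real.rpow_one] at this
      linarith
  have h2 : 1 + x ≤ 4 * Real.exp (x / 4) := by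
    have := Real.add_one_le_exp (x / 4)
    linarith
  have h3 : Real.exp (-(x / 2)) = Real.exp (-(x / 4)) * Real.exp (-(x / 4)) := by
    rw [← Real.exp_add]; congr 1; ring
  have h4 : Real.exp (x / 4) * Real.exp (-(x / 4)) = 1 := by
    rw [← Real.exp_add, add_neg_cancel, Real.exp_zero]
  calc C * x ^ (1 / 2 - 1 / 4 : ℝ) * Real.exp (-(x / 2))
      ≤ C * (4 * Real.exp (x / 4)) * Real.exp (-(x / 2)) := by
        apply mul_le_mul_of_nonneg_right _ (Real.exp_pos _).le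
        exact mul_le_mul_of_nonneg_left (h1.trans h2) hC0
    _ = 4 * C * (Real.exp (x / 4) * Real.exp (-(x / 4))) * Real.exp (-(x / 4)) := by
        rw [h3]; ring
    _ = 4 * C * Real.exp (-(x / 4)) := by rw [h4, mul_one]

theorem f1_c8_beta {P : ℕ} {ν : ℂ} {β : ℤ → ℂ} {F : ℍ → ℂ} (h : Expn1 P ν β F) :
    ∃ B : ℝ, 0 ≤ B ∧ ∀ m, ‖β m‖ ≤ B := by
  obtain ⟨C, hC⟩ := h.dyad
  refine ⟨√|C|, Real.sqrt_nonneg _, fun m => ?_⟩
  rcases eq_or_ne m 0 with rfl | hm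
  · rw [h.zero, norm_zero]; exact Real.sqrt_nonneg _
  · have hM : 0 < m.natAbs := Int.natAbs_pos.2 hm
    have h1 := hC m.natAbs hM
    have h2 := Finset.single_le_sum (f := fun k : ℕ => ‖β (k : ℤ)‖ ^ 2 + ‖β (-(k : ℤ))‖ ^ 2)
      (fun k _ => by positivity) (Finset.mem_Icc.2 ⟨le_rfl, by omega⟩ :
        m.natAbs ∈ Finset.Icc m.natAbs (2 * m.natAbs))
    have h3 : ‖β m‖ ^ 2 ≤ |C| := by
      have h4 : ‖β m‖ ^ 2 ≤ ‖β (m.natAbs : ℤ)‖ ^ 2 + ‖β (-(m.natAbs : ℤ))‖ ^ 2 := by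
        rcases Int.natAbs_eq m with e | e
        · rw [← e]; nlinarith [sq_nonneg ‖β (-m)‖]
        · rw [← e]; nlinarith [sq_nonneg ‖β (m.natAbs : ℤ)‖]
      have h5 : ‖β (m.natAbs : ℤ)‖ ^ 2 + ‖β (-(m.natAbs : ℤ))‖ ^ 2 ≤ C := h2.trans h1
      exact (h4.trans h5).trans (le_abs_self C)
    exact Real.le_sqrt_of_sq_le h3

theorem f1_c8_sum_exp {c : ℝ} (hc : 0 < c) :
    Summable (fun m : ℤ => Real.exp (-(c * |(m : ℝ)|))) := by
  have h1 : Summable (fun n : ℕ => Real.exp (-(c * (n : ℝ)))) := by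
    have := Real.summable_exp_nat_mul_iff.2 (show -c < 0 by linarith)
    refine this.congr fun n => ?_
    congr 1
    ring
  apply Summable.of_nat_of_neg
  · refine h1.congr fun n => ?_
    simp
  · refine h1.congr fun n => ?_
    simp


theorem f1_c8_w_sum : ∃ Z : ℝ, 0 ≤ Z ∧ ∀ (T : Finset ℤ) (g : ℤ → ℤ), Function.Injective g →
    ∑ n ∈ T, (((g n : ℤ) : ℝ) ^ 2)⁻¹ ≤ Z := by
  have hs : Summable (fun j : ℤ => ((j : ℝ) ^ 2)⁻¹) := by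
    have h1 : Summable (fun n : ℕ => ((n : ℝ) ^ 2)⁻¹) := Real.summable_nat_pow_inv.2 one_lt_two
    apply Summable.of_nat_of_neg
    · exact h1.congr fun n => by simp
    · exact h1.congr fun n => by simp
  refine ⟨∑' j : ℤ, ((j : ℝ) ^ 2)⁻¹, tsum_nonneg fun j => by positivity, fun T g hg => ?_⟩
  rw [← Finset.sum_image (f := fun j : ℤ => ((j : ℝ) ^ 2)⁻¹) (g := g) (fun x _ y _ h => hg h)]
  exact hs.sum_le_tsum _ fun j _ => by positivity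

theorem f1_c8_finite {Z D : ℝ} (hZ : 0 ≤ Z)
    (hw : ∀ (T : Finset ℤ) (g : ℤ → ℤ), Function.Injective g →
      ∑ n ∈ T, (((g n : ℤ) : ℝ) ^ 2)⁻¹ ≤ Z)
    {q : ℕ} (hq : 0 < q) (X Y : ℤ → ℝ)
    (hX : ∀ T : Finset ℤ, ∑ m ∈ T, X m ^ 2 ≤ D) (hY : ∀ T : Finset ℤ, ∑ n ∈ T, Y n ^ 2 ≤ D)
    (S : Finset (ℤ × ℤ)) :
    ∑ p ∈ S, (((p.1 - q * p.2 : ℤ) : ℝ) ^ 2)⁻¹ * (X p.1 * Y p.2) ≤ Z * D := by
  have h1 : ∀ p : ℤ × ℤ, (((p.1 - q * p.2 : ℤ) : ℝ) ^ 2)⁻¹ * (X p.1 * Y p.2) ≤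
      (1 / 2) * ((((p.1 - q * p.2 : ℤ) : ℝ) ^ 2)⁻¹ * X p.1 ^ 2) +
        (1 / 2) * ((((p.1 - q * p.2 : ℤ) : ℝ) ^ 2)⁻¹ * Y p.2 ^ 2) := by
    intro p
    have h2 : X p.1 * Y p.2 ≤ (1 / 2) * X p.1 ^ 2 + (1 / 2) * Y p.2 ^ 2 := by
      nlinarith [sq_nonneg (X p.1 - Y p.2)]
    have := mul_le_mul_of_nonneg_left h2
      (show 0 ≤ (((p.1 - q * p.2 : ℤ) : ℝ) ^ 2)⁻¹ by positivity)
    rw [mul_add] at this
    linarith
  have hsub : S ⊆ (S.image Prod.fst) ×ˢ (S.image Prod.snd) := by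
    intro p hp
    rw [Finset.mem_product]
    exact ⟨Finset.mem_image_of_mem _ hp, Finset.mem_image_of_mem _ hp⟩
  have h2 : ∑ p ∈ S, (((p.1 - q * p.2 : ℤ) : ℝ) ^ 2)⁻¹ * X p.1 ^ 2 ≤ Z * D := by
    calc ∑ p ∈ S, (((p.1 - q * p.2 : ℤ) : ℝ) ^ 2)⁻¹ * X p.1 ^ 2
        ≤ ∑ p ∈ (S.image Prod.fst) ×ˢ (S.image Prod.snd),
          (((p.1 - q * p.2 : ℤ) : ℝ) ^ 2)⁻¹ * X p.1 ^ 2 :=
          Finset.sum_le_sum_of_subset_of_nonneg hsub fun _ _ _ => by positivity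
      _ = ∑ m ∈ S.image Prod.fst, ∑ n ∈ S.image Prod.snd,
          (((m - q * n : ℤ) : ℝ) ^ 2)⁻¹ * X m ^ 2 := Finset.sum_product _ _ _
      _ ≤ ∑ m ∈ S.image Prod.fst, Z * X m ^ 2 := by
          refine Finset.sum_le_sum fun m _ => ?_
          rw [← Finset.sum_mul]
          refine mul_le_mul_of_nonneg_right (hw _ (fun n => m - q * n) ?_) (sq_nonneg _)
          intro x y hxy
          have h3 : (q : ℤ) * x = q * y := by simpa using hxy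
          exact mul_left_cancel₀ (by exact_mod_cast hq.ne') h3
      _ = Z * ∑ m ∈ S.image Prod.fst, X m ^ 2 := by rw [← Finset.mul_sum]
      _ ≤ Z * D := mul_le_mul_of_nonneg_left (hX _) hZ
  have h3 : ∑ p ∈ S, (((p.1 - q * p.2 : ℤ) : ℝ) ^ 2)⁻¹ * Y p.2 ^ 2 ≤ Z * D := by
    calc ∑ p ∈ S, (((p.1 - q * p.2 : ℤ) : ℝ) ^ 2)⁻¹ * Y p.2 ^ 2
        ≤ ∑ p ∈ (S.image Prod.fst) ×ˢ (S.image Prod.snd),
          (((p.1 - q * p.2 : ℤ) : ℝ) ^ 2)⁻¹ * Y p.2 ^ 2 :=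
          Finset.sum_le_sum_of_subset_of_nonneg hsub fun _ _ _ => by positivity
      _ = ∑ n ∈ S.image Prod.snd, ∑ m ∈ S.image Prod.fst,
          (((m - q * n : ℤ) : ℝ) ^ 2)⁻¹ * Y n ^ 2 := Finset.sum_product_right _ _ _
      _ ≤ ∑ n ∈ S.image Prod.snd, Z * Y n ^ 2 := by
          refine Finset.sum_le_sum fun n _ => ?_
          rw [← Finset.sum_mul]
          refine mul_le_mul_of_nonneg_right (hw _ (fun m => m - q * n) ?_) (sq_nonneg _)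
          intro x y hxy
          simpa using hxy
      _ = Z * ∑ n ∈ S.image Prod.snd, Y n ^ 2 := by rw [← Finset.mul_sum]
      _ ≤ Z * D := mul_le_mul_of_nonneg_left (hY _) hZ
  calc ∑ p ∈ S, (((p.1 - q * p.2 : ℤ) : ℝ) ^ 2)⁻¹ * (X p.1 * Y p.2)
      ≤ ∑ p ∈ S, ((1 / 2) * ((((p.1 - q * p.2 : ℤ) : ℝ) ^ 2)⁻¹ * X p.1 ^ 2) +
        (1 / 2) * ((((p.1 - q * p.2 : ℤ) : ℝ) ^ 2)⁻¹ * Y p.2 ^ 2)) :=
        Finset.sum_le_sum fun p _ => h1 p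
    _ = (1 / 2) * ∑ p ∈ S, (((p.1 - q * p.2 : ℤ) : ℝ) ^ 2)⁻¹ * X p.1 ^ 2 +
        (1 / 2) * ∑ p ∈ S, (((p.1 - q * p.2 : ℤ) : ℝ) ^ 2)⁻¹ * Y p.2 ^ 2 := by
        rw [Finset.sum_add_distrib, Finset.mul_sum, Finset.mul_sum]
    _ ≤ Z * D := by linarith

theorem f1_c8_om_le {b : ℝ} (h0 : 0 ≤ b) (h1 : b ≤ 1 / 2) {x : ℝ} (hx : 0 ≤ x) :
    0 ≤ x ^ (1 / 2 - b) * Real.exp (-(x / 4)) ∧ x ^ (1 / 2 - b) * Real.exp (-(x / 4)) ≤ 4 := by
  refine ⟨mul_nonneg (Real.rpow_nonneg hx _) (Real.exp_pos _).le, ?_⟩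
  have h2 : x ^ (1 / 2 - b) ≤ 1 + x := by
    rcases le_total x 1 with h | h
    · exact (Real.rpow_le_one hx h (by linarith)).trans (by linarith)
    · have := Real.rpow_le_rpow_of_exponent_le h (show 1 / 2 - b ≤ 1 by linarith)
      rw [Real.rpow_one] at this
      linarith
  have h3 : 1 + x ≤ 4 * Real.exp (x / 4) := by
    have := Real.add_one_le_exp (x / 4)
    linarith
  have h4 : Real.exp (x / 4) * Real.exp (-(x / 4)) = 1 := by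
    rw [← Real.exp_add, add_neg_cancel, Real.exp_zero]
  calc x ^ (1 / 2 - b) * Real.exp (-(x / 4)) ≤ 4 * Real.exp (x / 4) * Real.exp (-(x / 4)) :=
        mul_le_mul_of_nonneg_right (h2.trans h3) (Real.exp_pos _).le
    _ = 4 := by rw [mul_assoc, h4, mul_one]

theorem f1_c8_om_int {b : ℝ} (h0 : 0 ≤ b) (h1 : b ≤ 1 / 2) {ρ₀ : ℝ} (hρ : 0 < ρ₀) {A B : ℝ}
    (hA : 0 ≤ A) (hB : 0 ≤ B) :
    IntegrableOn (fun ρ : ℝ => ρ ^ (-3 : ℝ) * ((A * ρ) ^ (1 / 2 - b) * Real.exp (-(A * ρ / 4))) *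
        ((B * ρ) ^ (1 / 2 - b) * Real.exp (-(B * ρ / 4)))) (Ioi ρ₀) := by
  have h2 : IntegrableOn (fun ρ : ℝ => ρ ^ (-3 : ℝ) * 16) (Ioi ρ₀) :=
    (integrableOn_Ioi_rpow_of_lt (by norm_num) hρ).mul_const 16
  refine Integrable.mono' h2 ?_ ?_
  · exact (by fun_prop : Measurable fun ρ : ℝ => ρ ^ (-3 : ℝ) *
      ((A * ρ) ^ (1 / 2 - b) * Real.exp (-(A * ρ / 4))) *
        ((B * ρ) ^ (1 / 2 - b) * Real.exp (-(B * ρ / 4)))).aestronglyMeasurable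
  · refine (ae_restrict_iff' measurableSet_Ioi).2 (Eventually.of_forall fun ρ hr => ?_)
    have hr0 : 0 < ρ := hρ.trans hr
    have hA1 := f1_c8_om_le h0 h1 (mul_nonneg hA hr0.le)
    have hB1 := f1_c8_om_le h0 h1 (mul_nonneg hB hr0.le)
    have hr3 : 0 ≤ ρ ^ (-3 : ℝ) := Real.rpow_nonneg hr0.le _
    rw [Real.norm_of_nonneg (mul_nonneg (mul_nonneg hr3 hA1.1) hB1.1), mul_assoc]
    refine mul_le_mul_of_nonneg_left ?_ hr3
    calc _ ≤ (4 : ℝ) * 4 := mul_le_mul hA1.2 hB1.2 hB1.1 (by norm_num)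
      _ = 16 := by norm_num

theorem f1_c8_J {b : ℝ} (h0 : 0 ≤ b) (h1 : b ≤ 1 / 2) {ρ₀ : ℝ} (hρ : 0 < ρ₀) {Z D : ℝ} (hZ : 0 ≤ Z)
    (hw : ∀ (T : Finset ℤ) (g : ℤ → ℤ), Function.Injective g →
      ∑ n ∈ T, (((g n : ℤ) : ℝ) ^ 2)⁻¹ ≤ Z)
    {q : ℕ} (hq : 0 < q) {x y A B : ℤ → ℝ} (hA : ∀ m, 0 ≤ A m) (hB : ∀ n, 0 ≤ B n)
    (hX : ∀ ρ : ℝ, ρ₀ < ρ → ∀ T : Finset ℤ,
      ∑ m ∈ T, (x m * ((A m * ρ) ^ (1 / 2 - b) * Real.exp (-(A m * ρ / 4)))) ^ 2 ≤ D)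
    (hY : ∀ ρ : ℝ, ρ₀ < ρ → ∀ T : Finset ℤ,
      ∑ n ∈ T, (y n * ((B n * ρ) ^ (1 / 2 - b) * Real.exp (-(B n * ρ / 4)))) ^ 2 ≤ D)
    (S : Finset (ℤ × ℤ)) :
    ∑ p ∈ S, (((p.1 - q * p.2 : ℤ) : ℝ) ^ 2)⁻¹ * (x p.1 * y p.2) *
      (∫ ρ in Ioi ρ₀, ρ ^ (-3 : ℝ) * ((A p.1 * ρ) ^ (1 / 2 - b) * Real.exp (-(A p.1 * ρ / 4))) *
        ((B p.2 * ρ) ^ (1 / 2 - b) * Real.exp (-(B p.2 * ρ / 4)))) ≤
      (∫ ρ in Ioi ρ₀, ρ ^ (-3 : ℝ)) * (Z * D) := by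
  have h2 : ∀ p ∈ S, IntegrableOn (fun ρ : ℝ => (((p.1 - q * p.2 : ℤ) : ℝ) ^ 2)⁻¹ *
      (x p.1 * y p.2) * (ρ ^ (-3 : ℝ) *
        ((A p.1 * ρ) ^ (1 / 2 - b) * Real.exp (-(A p.1 * ρ / 4))) *
        ((B p.2 * ρ) ^ (1 / 2 - b) * Real.exp (-(B p.2 * ρ / 4))))) (Ioi ρ₀) :=
    fun p _ => (f1_c8_om_int h0 h1 hρ (hA p.1) (hB p.2)).const_mul _
  calc ∑ p ∈ S, (((p.1 - q * p.2 : ℤ) : ℝ) ^ 2)⁻¹ * (x p.1 * y p.2) *
      (∫ ρ in Ioi ρ₀, ρ ^ (-3 : ℝ) * ((A p.1 * ρ) ^ (1 / 2 - b) * Real.exp (-(A p.1 * ρ / 4))) *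
        ((B p.2 * ρ) ^ (1 / 2 - b) * Real.exp (-(B p.2 * ρ / 4))))
      = ∑ p ∈ S, ∫ ρ in Ioi ρ₀, (((p.1 - q * p.2 : ℤ) : ℝ) ^ 2)⁻¹ *
      (x p.1 * y p.2) * (ρ ^ (-3 : ℝ) *
        ((A p.1 * ρ) ^ (1 / 2 - b) * Real.exp (-(A p.1 * ρ / 4))) *
        ((B p.2 * ρ) ^ (1 / 2 - b) * Real.exp (-(B p.2 * ρ / 4)))) := by
        refine Finset.sum_congr rfl fun p _ => ?_
        rw [integral_const_mul]
    _ = ∫ ρ in Ioi ρ₀, ∑ p ∈ S, (((p.1 - q * p.2 : ℤ) : ℝ) ^ 2)⁻¹ *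
      (x p.1 * y p.2) * (ρ ^ (-3 : ℝ) *
        ((A p.1 * ρ) ^ (1 / 2 - b) * Real.exp (-(A p.1 * ρ / 4))) *
        ((B p.2 * ρ) ^ (1 / 2 - b) * Real.exp (-(B p.2 * ρ / 4)))) :=
        (integral_finsetSum S h2).symm
    _ ≤ ∫ ρ in Ioi ρ₀, ρ ^ (-3 : ℝ) * (Z * D) := by
        refine setIntegral_mono_on (integrable_finsetSum S h2)
          ((integrableOn_Ioi_rpow_of_lt (by norm_num) hρ).mul_const _) measurableSet_Ioi
          fun ρ hr => ?_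
        have hr0 : 0 < ρ := hρ.trans hr
        have hr3 : 0 ≤ ρ ^ (-3 : ℝ) := Real.rpow_nonneg hr0.le _
        have h3 := f1_c8_finite hZ hw hq
          (fun m => x m * ((A m * ρ) ^ (1 / 2 - b) * Real.exp (-(A m * ρ / 4))))
          (fun n => y n * ((B n * ρ) ^ (1 / 2 - b) * Real.exp (-(B n * ρ / 4))))
          (hX ρ hr) (hY ρ hr) S
        have h4 := mul_le_mul_of_nonneg_left h3 hr3
        refine le_trans (le_of_eq ?_) h4
        rw [Finset.mul_sum]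
        refine Finset.sum_congr rfl fun p _ => ?_
        ring
    _ = (∫ ρ in Ioi ρ₀, ρ ^ (-3 : ℝ)) * (Z * D) := by rw [integral_mul_const]

theorem f1_c8_fm {P : ℕ} (hP : 0 < P) {ν : ℂ} (hν : ν.re = 0) {β : ℤ → ℂ} {F : ℍ → ℂ}
    (h : Expn1 P ν β F) : ∃ K : ℝ, 0 ≤ K ∧ ∀ (m : ℤ) (x y : ℝ), 0 < y →
      ‖β m * Wz ν m (2 * Real.pi * |(m : ℝ)| * y / P) * cexp ((2 * Real.pi * m * x / P : ℝ) * I)‖ ≤
        K * Real.exp (-(Real.pi / (2 * P) * y * |(m : ℝ)|)) := by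
  obtain ⟨C, hC0, hC⟩ := f1_c8_W_exp hν
  obtain ⟨B, hB0, hB⟩ := f1_c8_beta h
  refine ⟨B * C, by positivity, fun m x y hy => ?_⟩
  have hP' : (0 : ℝ) < P := Nat.cast_pos.2 hP
  rw [norm_mul, norm_mul, Complex.norm_exp_ofReal_mul_I, mul_one]
  rcases eq_or_ne m 0 with rfl | hm
  · rw [h.zero, norm_zero, zero_mul]
    positivity
  · have hm' : 0 < |(m : ℝ)| := abs_pos.2 (by exact_mod_cast hm)
    have h1 := hC m (2 * Real.pi * |(m : ℝ)| * y / P) (by positivity)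
    have h2 : 2 * Real.pi * |(m : ℝ)| * y / P / 4 = Real.pi / (2 * P) * y * |(m : ℝ)| := by
      field_simp
      ring
    rw [h2] at h1
    calc ‖β m‖ * ‖Wz ν m (2 * Real.pi * |(m : ℝ)| * y / P)‖
        ≤ B * (C * Real.exp (-(Real.pi / (2 * P) * y * |(m : ℝ)|))) :=
          mul_le_mul (hB m) h1 (norm_nonneg _) hB0
      _ = B * C * Real.exp (-(Real.pi / (2 * P) * y * |(m : ℝ)|)) := by ring

theorem f1_c8_hasSum {P : ℕ} (hP : 0 < P) {ν : ℂ} (hν : ν.re = 0) {β : ℤ → ℂ} {F : ℍ → ℂ}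
    (h : Expn1 P ν β F) {q : ℕ} (hq : 0 < q) {θ : ℝ} (σ : ℝ) {ρ : ℝ} (hs : 0 < Real.sin θ)
    (hρ : 0 < ρ) :
    HasSum (fun p : ℤ × ℤ => if p.1 = q * p.2 then (0 : ℂ) else
      β p.1 * conj (β p.2) * ((Wz ν p.1 (2 * Real.pi * |(p.1 : ℝ)| * Real.sin θ / P * ρ) *
        Wz ν p.2 (2 * Real.pi * (q * |(p.2 : ℝ)|) * Real.sin θ / P * ρ)) *
        cexp ((2 * Real.pi * σ * Real.cos θ * (p.1 - q * p.2 : ℤ) / P * ρ : ℝ) * I)))
      (F (pz (σ * ρ * Real.cos θ) (ρ * Real.sin θ)) *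
          conj (F (pz (σ * (q * ρ) * Real.cos θ) (q * ρ * Real.sin θ))) -
            Dg1 P ν β q (ρ * Real.sin θ)) := by
  have hP' : (0 : ℝ) < P := Nat.cast_pos.2 hP
  have hq' : (0 : ℝ) < q := Nat.cast_pos.2 hq
  obtain ⟨K, hK0, hK⟩ := f1_c8_fm hP hν h
  have hy1 : 0 < ρ * Real.sin θ := mul_pos hρ hs
  have hy2 : 0 < q * ρ * Real.sin θ := mul_pos (mul_pos hq' hρ) hs
  set f : ℤ → ℂ := fun m => β m * Wz ν m (2 * Real.pi * |(m : ℝ)| * (ρ * Real.sin θ) / P) *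
    cexp ((2 * Real.pi * m * (σ * ρ * Real.cos θ) / P : ℝ) * I) with hf
  set g : ℤ → ℂ := fun n => conj (β n * Wz ν n (2 * Real.pi * |(n : ℝ)| *
    (q * ρ * Real.sin θ) / P) *
      cexp ((2 * Real.pi * n * (σ * (q * ρ) * Real.cos θ) / P : ℝ) * I)) with hg
  have hf1 : HasSum f (F (pz (σ * ρ * Real.cos θ) (ρ * Real.sin θ))) := h.hasSum _ _ hy1
  have hg1 : HasSum g (conj (F (pz (σ * (q * ρ) * Real.cos θ) (q * ρ * Real.sin θ)))) :=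
    Complex.hasSum_conj'.2 (h.hasSum _ _ hy2)
  have hf2 : Summable (fun m => ‖f m‖) := by
    refine Summable.of_nonneg_of_le (fun _ => norm_nonneg _) (fun m => hK m _ _ hy1) ?_
    exact (f1_c8_sum_exp (c := Real.pi / (2 * P) * (ρ * Real.sin θ)) (by positivity)).mul_left K
  have hg2 : Summable (fun n => ‖g n‖) := by
    refine Summable.of_nonneg_of_le (fun _ => norm_nonneg _)
      (fun n => (Complex.norm_conj _).trans_le (hK n _ _ hy2)) ?_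
    exact (f1_c8_sum_exp (c := Real.pi / (2 * P) * (q * ρ * Real.sin θ)) (by positivity)).mul_left K
  have hfg : Summable (fun p : ℤ × ℤ => f p.1 * g p.2) :=
    summable_mul_of_summable_norm hf2 hg2
  have h1 := hf1.mul hg1 hfg
  have hval : ∀ m n : ℤ, f m * g n = β m * conj (β n) *
      ((Wz ν m (2 * Real.pi * |(m : ℝ)| * Real.sin θ / P * ρ) *
        Wz ν n (2 * Real.pi * (q * |(n : ℝ)|) * Real.sin θ / P * ρ)) *
        cexp ((2 * Real.pi * σ * Real.cos θ * (m - q * n : ℤ) / P * ρ : ℝ) * I)) := by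
    intro m n
    simp only [hf, hg]
    rw [map_mul, map_mul, f1_c8_W_real hν n, ← Complex.exp_conj, map_mul, Complex.conj_ofReal,
      Complex.conj_I]
    have e1 : 2 * Real.pi * |(m : ℝ)| * (ρ * Real.sin θ) / P =
      2 * Real.pi * |(m : ℝ)| * Real.sin θ / P * ρ := by ring
    have e2 : 2 * Real.pi * |(n : ℝ)| * (q * ρ * Real.sin θ) / P =
      2 * Real.pi * (q * |(n : ℝ)|) * Real.sin θ / P * ρ := by ring
    have e3 : cexp ((2 * Real.pi * σ * Real.cos θ * (m - q * n : ℤ) / P * ρ : ℝ) * I) =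
      cexp ((2 * Real.pi * m * (σ * ρ * Real.cos θ) / P : ℝ) * I) *
        cexp ((2 * Real.pi * n * (σ * (q * ρ) * Real.cos θ) / P : ℝ) * -I) := by
      rw [← Complex.exp_add]
      congr 1
      push_cast
      ring
    rw [e1, e2, e3]
    ring
  have hinj : Function.Injective (fun n : ℤ => ((q : ℤ) * n, n)) := by
    intro x y hxy
    exact (Prod.mk.inj hxy).2
  have h2 : HasSum (fun p : ℤ × ℤ => if p.1 = q * p.2 then f p.1 * g p.2 else 0)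
      (Dg1 P ν β q (ρ * Real.sin θ)) := by
    rw [← hinj.hasSum_iff]
    · have h3 := (hfg.comp_injective hinj).hasSum
      have h4 : ∑' n : ℤ, ((fun p : ℤ × ℤ => f p.1 * g p.2) ∘ fun n : ℤ => ((q : ℤ) * n, n)) n =
          Dg1 P ν β q (ρ * Real.sin θ) := by
        unfold Dg1
        refine tsum_congr fun n => ?_
        simp only [Function.comp_apply]
        rw [hval]
        have e0 : 2 * Real.pi * |(((q : ℤ) * n : ℤ) : ℝ)| * Real.sin θ / P * ρ =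
            2 * Real.pi * q * |(n : ℝ)| * (ρ * Real.sin θ) / P := by
          push_cast
          rw [abs_mul, Nat.abs_cast]
          ring
        have e1 : 2 * Real.pi * (q * |(n : ℝ)|) * Real.sin θ / P * ρ =
            2 * Real.pi * q * |(n : ℝ)| * (ρ * Real.sin θ) / P := by ring
        rw [e0, e1, sub_self, Int.cast_zero, mul_zero, zero_div, zero_mul, Complex.ofReal_zero,
          zero_mul, Complex.exp_zero, mul_one]
        rw [f1_c8_W_mul ν hq]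
        congr 1
        set w := Wz ν n (2 * Real.pi * q * |(n : ℝ)| * (ρ * Real.sin θ) / P) with hw
        have e2 : conj w = w := f1_c8_W_real hν _ _
        have e3 := Complex.mul_conj w
        rw [e2] at e3
        rw [e3, Complex.normSq_eq_norm_sq]
      rw [h4] at h3
      have e : ((fun p : ℤ × ℤ => if p.1 = q * p.2 then f p.1 * g p.2 else 0) ∘
          fun n : ℤ => ((q : ℤ) * n, n)) =
          ((fun p : ℤ × ℤ => f p.1 * g p.2) ∘ fun n : ℤ => ((q : ℤ) * n, n)) := by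
        funext n
        simp only [Function.comp_apply]
        rw [if_pos trivial]
      rw [e]
      exact h3
    · intro p hp
      rw [if_neg]
      intro h3
      exact hp ⟨p.2, Prod.ext h3.symm rfl⟩
  have h3 := h1.sub h2
  refine (congrArg (fun u : ℤ × ℤ → ℂ => HasSum u _) (funext fun p => ?_)).mp h3
  by_cases hp : p.1 = q * p.2
  · rw [if_pos hp, if_pos hp, sub_self]
  · rw [if_neg hp, if_neg hp, sub_zero, hval]

/-- the terms -/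
noncomputable def f1_c8G (P : ℕ) (ν : ℂ) (β : ℤ → ℂ) (q : ℕ) (v : ℝ → ℝ) (θ σ : ℝ) (p : ℤ × ℤ)
    (ρ : ℝ) : ℂ :=
  ((v ρ / ρ : ℝ) : ℂ) * (if p.1 = q * p.2 then (0 : ℂ) else
      β p.1 * conj (β p.2) * ((Wz ν p.1 (2 * Real.pi * |(p.1 : ℝ)| * Real.sin θ / P * ρ) *
        Wz ν p.2 (2 * Real.pi * (q * |(p.2 : ℝ)|) * Real.sin θ / P * ρ)) *
        cexp ((2 * Real.pi * σ * Real.cos θ * (p.1 - q * p.2 : ℤ) / P * ρ : ℝ) * I)))

/-- each term is bounded by a product of exponentials -/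
theorem f1_c8G_le {P : ℕ} (hP : 0 < P) {ν : ℂ} (hν : ν.re = 0) {β : ℤ → ℂ} {F : ℍ → ℂ}
    (h : Expn1 P ν β F) {q : ℕ} (hq : 0 < q) {v : ℝ → ℝ} {V ρ₀ : ℝ} (hρ : 0 < ρ₀)
    (hv0 : ∀ ρ, ρ ≤ ρ₀ → v ρ = 0) (hV : ∀ ρ, |v ρ| ≤ V) {θ : ℝ} (σ : ℝ) (hs : 0 < Real.sin θ) :
    ∃ K a c : ℝ, 0 ≤ K ∧ 0 < a ∧ 0 < c ∧ ∀ (p : ℤ × ℤ) (ρ : ℝ), 0 < ρ →
      ‖f1_c8G P ν β q v θ σ p ρ‖ ≤
        K * (Real.exp (-(a * |(p.1 : ℝ)|)) * Real.exp (-(a * |(p.2 : ℝ)|))) *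
          Real.exp (-(c * ρ)) := by
  have hP' : (0 : ℝ) < P := Nat.cast_pos.2 hP
  have hq' : (1 : ℝ) ≤ q := by exact_mod_cast hq
  obtain ⟨C, hC0, hC⟩ := f1_c8_W_exp hν
  obtain ⟨B, hB0, hB⟩ := f1_c8_beta h
  have hV0 : 0 ≤ V := (abs_nonneg _).trans (hV 0)
  set s : ℝ := 2 * Real.pi * Real.sin θ / P with hs_def
  have hs0 : 0 < s := by positivity
  refine ⟨V / ρ₀ * (B * B * (C * C)), s * ρ₀ / 8, s / 4, by positivity, by positivity,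
    by positivity, fun p ρ hr => ?_⟩
  obtain ⟨m, n⟩ := p
  have hR : 0 ≤ V / ρ₀ * (B * B * (C * C)) *
      (Real.exp (-(s * ρ₀ / 8 * |(m : ℝ)|)) * Real.exp (-(s * ρ₀ / 8 * |(n : ℝ)|))) *
          Real.exp (-(s / 4 * ρ)) := by positivity
  unfold f1_c8G
  simp only
  rcases le_or_gt ρ ρ₀ with h1 | h1
  · rw [hv0 ρ h1, zero_div, Complex.ofReal_zero, zero_mul, norm_zero]
    exact hR
  by_cases h2 : m = q * n
  · rw [if_pos h2, mul_zero, norm_zero]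
    exact hR
  rw [if_neg h2]
  rcases eq_or_ne m 0 with rfl | hm
  · rw [h.zero, zero_mul, zero_mul, mul_zero, norm_zero]
    exact hR
  rcases eq_or_ne n 0 with rfl | hn
  · rw [h.zero, map_zero, mul_zero, zero_mul, mul_zero, norm_zero]
    exact hR
  have hm1 : (1 : ℝ) ≤ |(m : ℝ)| := by
    have := Int.one_le_abs hm
    exact_mod_cast this
  have hn1 : (1 : ℝ) ≤ |(n : ℝ)| := by
    have := Int.one_le_abs hn
    exact_mod_cast this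
  have hW1 : ‖Wz ν m (2 * Real.pi * |(m : ℝ)| * Real.sin θ / P * ρ)‖ ≤
      C * (Real.exp (-(s * ρ₀ / 8 * |(m : ℝ)|)) * Real.exp (-(s / 8 * ρ))) := by
    refine (hC _ _ (by positivity)).trans (mul_le_mul_of_nonneg_left ?_ hC0)
    rw [← Real.exp_add]
    apply Real.exp_le_exp.2
    have e : 2 * Real.pi * |(m : ℝ)| * Real.sin θ / P * ρ / 4 = s * |(m : ℝ)| * ρ / 8 +
        s * |(m : ℝ)| * ρ / 8 := by rw [hs_def]; ring
    rw [e]
    have h3 : s * |(m : ℝ)| * ρ₀ ≤ s * |(m : ℝ)| * ρ :=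
      mul_le_mul_of_nonneg_left h1.le (by positivity)
    have h4 : s * ρ ≤ s * |(m : ℝ)| * ρ := by
      have := mul_le_mul_of_nonneg_left hm1 (show 0 ≤ s * ρ by positivity)
      nlinarith
    linarith
  have hW2 : ‖Wz ν n (2 * Real.pi * (q * |(n : ℝ)|) * Real.sin θ / P * ρ)‖ ≤
      C * (Real.exp (-(s * ρ₀ / 8 * |(n : ℝ)|)) * Real.exp (-(s / 8 * ρ))) := by
    refine (hC _ _ (by positivity)).trans (mul_le_mul_of_nonneg_left ?_ hC0)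
    rw [← Real.exp_add]
    apply Real.exp_le_exp.2
    have e : 2 * Real.pi * (q * |(n : ℝ)|) * Real.sin θ / P * ρ / 4 =
        (s * |(n : ℝ)| * ρ / 8 + s * |(n : ℝ)| * ρ / 8) * q := by rw [hs_def]; ring
    rw [e]
    have h3 : s * |(n : ℝ)| * ρ₀ ≤ s * |(n : ℝ)| * ρ :=
      mul_le_mul_of_nonneg_left h1.le (by positivity)
    have h4 : s * ρ ≤ s * |(n : ℝ)| * ρ := by
      have := mul_le_mul_of_nonneg_left hn1 (show 0 ≤ s * ρ by positivity)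
      nlinarith
    have h5 : s * |(n : ℝ)| * ρ / 8 + s * |(n : ℝ)| * ρ / 8 ≤
        (s * |(n : ℝ)| * ρ / 8 + s * |(n : ℝ)| * ρ / 8) * q :=
      le_mul_of_one_le_right (by positivity) hq'
    linarith
  have hv1 : ‖((v ρ / ρ : ℝ) : ℂ)‖ ≤ V / ρ₀ := by
    rw [Complex.norm_real, Real.norm_eq_abs, abs_div, abs_of_pos hr]
    exact div_le_div₀ hV0 (hV ρ) hρ h1.le
  rw [norm_mul, norm_mul, norm_mul, norm_mul, norm_mul, Complex.norm_exp_ofReal_mul_I, mul_one,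
    Complex.norm_conj]
  calc ‖((v ρ / ρ : ℝ) : ℂ)‖ * (‖β m‖ * ‖β n‖ *
        (‖Wz ν m (2 * Real.pi * |(m : ℝ)| * Real.sin θ / P * ρ)‖ *
          ‖Wz ν n (2 * Real.pi * (q * |(n : ℝ)|) * Real.sin θ / P * ρ)‖))
      ≤ V / ρ₀ * (B * B *
        ((C * (Real.exp (-(s * ρ₀ / 8 * |(m : ℝ)|)) * Real.exp (-(s / 8 * ρ)))) *
          (C * (Real.exp (-(s * ρ₀ / 8 * |(n : ℝ)|)) * Real.exp (-(s / 8 * ρ)))))) := by
        gcongr
        · exact hB m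
        · exact hB n
    _ = V / ρ₀ * (B * B * (C * C)) *
      (Real.exp (-(s * ρ₀ / 8 * |(m : ℝ)|)) * Real.exp (-(s * ρ₀ / 8 * |(n : ℝ)|))) *
          (Real.exp (-(s / 8 * ρ)) * Real.exp (-(s / 8 * ρ))) := by ring
    _ = _ := by
        rw [← Real.exp_add (-(s / 8 * ρ))]
        congr 2
        ring

theorem f1_c8G_meas {P : ℕ} (hP : 0 < P) {ν : ℂ} {β : ℤ → ℂ} {F : ℍ → ℂ}
    (h : Expn1 P ν β F) {q : ℕ} (hq : 0 < q) {v : ℝ → ℝ} (hv : Continuous v) {θ : ℝ} (σ : ℝ)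
    (hs : 0 < Real.sin θ) (p : ℤ × ℤ) :
    ContinuousOn (f1_c8G P ν β q v θ σ p) (Ioi 0) := by
  have hP' : (0 : ℝ) < P := Nat.cast_pos.2 hP
  have hq' : (0 : ℝ) < q := Nat.cast_pos.2 hq
  obtain ⟨m, n⟩ := p
  unfold f1_c8G
  simp only
  have h0 : ContinuousOn (fun ρ : ℝ => ((v ρ / ρ : ℝ) : ℂ)) (Ioi 0) :=
    Complex.continuous_ofReal.comp_continuousOn
      (hv.continuousOn.div continuousOn_id fun x hx => ne_of_gt hx)
  refine h0.mul ?_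
  by_cases h2 : m = q * n
  · simp only [if_pos h2]
    exact continuousOn_const
  simp only [if_neg h2]
  rcases eq_or_ne m 0 with rfl | hm
  · simp only [h.zero, zero_mul]
    exact continuousOn_const
  rcases eq_or_ne n 0 with rfl | hn
  · simp only [h.zero, map_zero, mul_zero, zero_mul]
    exact continuousOn_const
  have hm1 : 0 < |(m : ℝ)| := abs_pos.2 (by exact_mod_cast hm)
  have hn1 : 0 < |(n : ℝ)| := abs_pos.2 (by exact_mod_cast hn)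
  refine continuousOn_const.mul ((ContinuousOn.mul ?_ ?_).mul ?_)
  · exact (f1_c8_W_cont ν _).comp (by fun_prop) fun x hx => by
      have hx' : (0 : ℝ) < x := hx
      show (0 : ℝ) < _
      positivity
  · exact (f1_c8_W_cont ν _).comp (by fun_prop) fun x hx => by
      have hx' : (0 : ℝ) < x := hx
      show (0 : ℝ) < _
      positivity
  · exact (by fun_prop : Continuous fun ρ : ℝ =>
      cexp ((2 * Real.pi * σ * Real.cos θ * (m - q * n : ℤ) / P * ρ : ℝ) * I)).continuousOn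

theorem f1_c8_X {P : ℕ} {ν : ℂ} {β : ℤ → ℂ} {F : ℍ → ℂ}
    (h : Expn1 P ν β F) {b : ℝ} (hb : b < 1 / 2) : ∃ D : ℝ, ∀ (Y : ℝ), 0 < Y → ∀ T : Finset ℤ,
      ∑ m ∈ T, (‖β m‖ * ((|(m : ℝ)| * Y) ^ (1 / 2 - b) * Real.exp (-(|(m : ℝ)| * Y / 4)))) ^ 2 ≤
        D := by
  obtain ⟨D, hD⟩ := expn1_sum h.dyad hb (c := 1 / 2) one_half_pos
  refine ⟨D, fun Y hY T => ?_⟩
  obtain ⟨h1, h2⟩ := hD Y hY
  refine le_trans ?_ h2
  refine le_trans (le_of_eq (Finset.sum_congr rfl fun m _ => ?_))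
    (h1.sum_le_tsum T fun j _ => by positivity)
  have e : Real.exp (-(|(m : ℝ)| * Y / 4)) ^ 2 = Real.exp (-(1 / 2 * |(m : ℝ)| * Y)) := by
    rw [← Real.exp_nat_mul]
    congr 1
    push_cast
    ring
  rw [mul_pow, mul_pow, e]
  ring

theorem offdiag1_pr {P : ℕ} (hP : 0 < P) {ν : ℂ} (hν : ν.re = 0) {β : ℤ → ℂ} {F : ℍ → ℂ}
    (h : Expn1 P ν β F) {q : ℕ} (hq : 0 < q) {v : ℝ → ℝ} (hv : ContDiff ℝ 2 v)
    (hv0 : ∃ ρ₀ : ℝ, 0 < ρ₀ ∧ ∀ ρ, ρ ≤ ρ₀ → v ρ = 0) (hv1 : ∃ ρ₁ : ℝ, ∀ ρ, ρ₁ ≤ ρ → v ρ = 1) :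
    ∃ C : ℝ, ∀ θ σ : ℝ, 0 < θ → θ ≤ 1 → (σ = 1 ∨ σ = -1) →
      ‖∫ ρ in Ioi (0 : ℝ), ((v ρ / ρ : ℝ) : ℂ) *
        (F (pz (σ * ρ * Real.cos θ) (ρ * Real.sin θ)) *
          conj (F (pz (σ * (q * ρ) * Real.cos θ) (q * ρ * Real.sin θ))) -
            Dg1 P ν β q (ρ * Real.sin θ))‖ ≤ C := by
  obtain ⟨ρ₀, hρ, hv0⟩ := hv0
  have hP' : (0 : ℝ) < P := Nat.cast_pos.2 hP
  have hq' : (0 : ℝ) < q := Nat.cast_pos.2 hq
  obtain ⟨V, hV⟩ : ∃ V, ∀ ρ, |v ρ| ≤ V := by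
    obtain ⟨ρ₁, h1⟩ := hv1
    obtain ⟨M, hM⟩ := (isCompact_Icc (a := ρ₀) (b := ρ₁)).exists_bound_of_continuousOn
      hv.continuous.continuousOn
    refine ⟨max M 1, fun ρ => ?_⟩
    rcases le_total ρ ρ₀ with h2 | h2
    · rw [hv0 ρ h2, abs_zero]; exact zero_le_one.trans (le_max_right _ _)
    rcases le_total ρ₁ ρ with h3 | h3
    · rw [h1 ρ h3, abs_one]; exact le_max_right _ _
    · exact (hM ρ ⟨h2, h3⟩).trans (le_max_left _ _)
  obtain ⟨b, hb⟩ : ∃ b : ℝ, b = 1 / 4 := ⟨_, rfl⟩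
  have hb1 : 0 < b := by linarith
  have hb2 : b < 1 / 2 := by linarith
  have hb0 : 0 ≤ b := by linarith
  obtain ⟨C₈, hC₈⟩ := offdiag_pair1 hν hv hρ hv0 hv1 hb1 hb2
  obtain ⟨D, hD⟩ := f1_c8_X h hb2
  obtain ⟨Z, hZ, hw⟩ := f1_c8_w_sum
  have hc1 : 0 < Real.cos 1 := Real.cos_one_pos
  refine ⟨|C₈| * (P / (2 * Real.pi * Real.cos 1)) ^ 2 *
    ((∫ ρ in Ioi ρ₀, ρ ^ (-3 : ℝ)) * (Z * D)), fun θ σ h0 h1 hσ => ?_⟩
  have hs : 0 < Real.sin θ := Real.sin_pos_of_pos_of_lt_pi h0 (by linarith [Real.pi_gt_three])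
  have hc : Real.cos 1 ≤ Real.cos θ :=
    Real.cos_le_cos_of_nonneg_of_le_pi h0.le (by linarith [Real.pi_gt_three]) h1
  have hcθ : 0 < Real.cos θ := hc1.trans_le hc
  obtain ⟨K, a, c, hK, ha, hc0, hG⟩ := f1_c8G_le hP hν h hq hρ hv0 hV σ hs
  have hexp : IntegrableOn (fun ρ : ℝ => Real.exp (-(c * ρ))) (Ioi 0) :=
    (exp_neg_integrableOn_Ioi 0 hc0).congr_fun (fun ρ _ => by ring_nf) measurableSet_Ioi
  have hInt : ∀ p, Integrable (f1_c8G P ν β q v θ σ p) (volume.restrict (Ioi 0)) := by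
    intro p
    refine Integrable.mono' (hexp.const_mul
      (K * (Real.exp (-(a * |(p.1 : ℝ)|)) * Real.exp (-(a * |(p.2 : ℝ)|)))))
      ((f1_c8G_meas hP h hq hv.continuous σ hs p).aestronglyMeasurable measurableSet_Ioi) ?_
    exact (ae_restrict_iff' measurableSet_Ioi).2 (Eventually.of_forall fun ρ hr => hG p ρ hr)
  have hSum : Summable fun p => ∫ ρ in Ioi (0 : ℝ), ‖f1_c8G P ν β q v θ σ p ρ‖ := by
    have h2 : Summable fun p : ℤ × ℤ =>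
        Real.exp (-(a * |(p.1 : ℝ)|)) * Real.exp (-(a * |(p.2 : ℝ)|)) :=
      (f1_c8_sum_exp ha).mul_of_nonneg (f1_c8_sum_exp ha) (fun _ => (Real.exp_pos _).le)
        (fun _ => (Real.exp_pos _).le)
    refine Summable.of_nonneg_of_le (fun p => integral_nonneg fun _ => norm_nonneg _) (fun p => ?_)
      ((h2.mul_left K).mul_right (∫ ρ in Ioi (0 : ℝ), Real.exp (-(c * ρ))))
    rw [← integral_const_mul]
    exact setIntegral_mono_on (hInt p).norm (hexp.const_mul _) measurableSet_Ioi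
      fun ρ hr => hG p ρ hr
  have hI := hasSum_integral_of_summable_integral_norm hInt hSum
  have hE : ∫ ρ in Ioi (0 : ℝ), ((v ρ / ρ : ℝ) : ℂ) *
        (F (pz (σ * ρ * Real.cos θ) (ρ * Real.sin θ)) *
          conj (F (pz (σ * (q * ρ) * Real.cos θ) (q * ρ * Real.sin θ))) -
            Dg1 P ν β q (ρ * Real.sin θ)) = ∫ ρ in Ioi (0 : ℝ), ∑' p, f1_c8G P ν β q v θ σ p ρ :=
    setIntegral_congr_fun measurableSet_Ioi fun ρ hr =>
      ((f1_c8_hasSum hP hν h hq σ hs hr).mul_left ((v ρ / ρ : ℝ) : ℂ)).tsum_eq.symm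
  rw [hE]
  have hJ : ∀ A B : ℝ, 0 ≤ A → 0 ≤ B → 0 ≤ ∫ ρ in Ioi ρ₀, ρ ^ (-3 : ℝ) *
      ((A * ρ) ^ (1 / 2 - b) * Real.exp (-(A * ρ / 4))) *
        ((B * ρ) ^ (1 / 2 - b) * Real.exp (-(B * ρ / 4))) := by
    intro A B hA hB
    refine setIntegral_nonneg measurableSet_Ioi fun ρ hr => ?_
    have hr0 : 0 < ρ := hρ.trans hr
    exact mul_nonneg (mul_nonneg (Real.rpow_nonneg hr0.le _)
      (f1_c8_om_le hb0 hb2.le (mul_nonneg hA hr0.le)).1)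
      (f1_c8_om_le hb0 hb2.le (mul_nonneg hB hr0.le)).1
  have hT : ∀ p : ℤ × ℤ, ‖∫ ρ in Ioi (0 : ℝ), f1_c8G P ν β q v θ σ p ρ‖ ≤
      |C₈| * (P / (2 * Real.pi * Real.cos 1)) ^ 2 *
      ((((p.1 - q * p.2 : ℤ) : ℝ) ^ 2)⁻¹ * (‖β p.1‖ * ‖β p.2‖) *
      (∫ ρ in Ioi ρ₀, ρ ^ (-3 : ℝ) *
        ((2 * Real.pi * |(p.1 : ℝ)| * Real.sin θ / P * ρ) ^ (1 / 2 - b) *
          Real.exp (-(2 * Real.pi * |(p.1 : ℝ)| * Real.sin θ / P * ρ / 4))) *
        ((2 * Real.pi * (q * |(p.2 : ℝ)|) * Real.sin θ / P * ρ) ^ (1 / 2 - b) *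
          Real.exp (-(2 * Real.pi * (q * |(p.2 : ℝ)|) * Real.sin θ / P * ρ / 4))))) := by
    rintro ⟨m, n⟩
    simp only
    have hJ0 := hJ (2 * Real.pi * |(m : ℝ)| * Real.sin θ / P)
      (2 * Real.pi * (q * |(n : ℝ)|) * Real.sin θ / P) (by positivity) (by positivity)
    have hR : 0 ≤ |C₈| * (P / (2 * Real.pi * Real.cos 1)) ^ 2 *
      ((((m - q * n : ℤ) : ℝ) ^ 2)⁻¹ * (‖β m‖ * ‖β n‖) *
      (∫ ρ in Ioi ρ₀, ρ ^ (-3 : ℝ) *
        ((2 * Real.pi * |(m : ℝ)| * Real.sin θ / P * ρ) ^ (1 / 2 - b) *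
          Real.exp (-(2 * Real.pi * |(m : ℝ)| * Real.sin θ / P * ρ / 4))) *
        ((2 * Real.pi * (q * |(n : ℝ)|) * Real.sin θ / P * ρ) ^ (1 / 2 - b) *
          Real.exp (-(2 * Real.pi * (q * |(n : ℝ)|) * Real.sin θ / P * ρ / 4))))) := by
      apply mul_nonneg (by positivity)
      apply mul_nonneg (by positivity) hJ0
    by_cases h2 : m = q * n
    · have : ∀ ρ, f1_c8G P ν β q v θ σ (m, n) ρ = 0 := fun ρ => by
        unfold f1_c8G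
        simp only
        rw [if_pos h2, mul_zero]
      simp only [this, integral_zero, norm_zero]
      exact hR
    rcases eq_or_ne m 0 with hm | hm
    · have : ∀ ρ, f1_c8G P ν β q v θ σ (m, n) ρ = 0 := fun ρ => by
        unfold f1_c8G
        simp only
        rw [if_neg h2, hm, h.zero, zero_mul, zero_mul, mul_zero]
      simp only [this, integral_zero, norm_zero]
      exact hR
    rcases eq_or_ne n 0 with hn | hn
    · have : ∀ ρ, f1_c8G P ν β q v θ σ (m, n) ρ = 0 := fun ρ => by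
        unfold f1_c8G
        simp only
        rw [if_neg h2, hn, h.zero, map_zero, mul_zero, zero_mul, mul_zero]
      simp only [this, integral_zero, norm_zero]
      exact hR
    have hm1 : 0 < |(m : ℝ)| := abs_pos.2 (by exact_mod_cast hm)
    have hn1 : 0 < |(n : ℝ)| := abs_pos.2 (by exact_mod_cast hn)
    have hd : ((m - q * n : ℤ) : ℝ) ≠ 0 := by
      have : m - q * n ≠ 0 := sub_ne_zero.2 h2
      exact_mod_cast this
    have hσ2 : σ ^ 2 = 1 := by rcases hσ with rfl | rfl <;> norm_num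
    have hσ0 : σ ≠ 0 := by rcases hσ with rfl | rfl <;> norm_num
    have hk : 2 * Real.pi * σ * Real.cos θ * (m - q * n : ℤ) / P ≠ 0 := by
      have := hcθ.ne'
      positivity
    have h3 := hC₈ m n (2 * Real.pi * |(m : ℝ)| * Real.sin θ / P)
      (2 * Real.pi * (q * |(n : ℝ)|) * Real.sin θ / P)
      (2 * Real.pi * σ * Real.cos θ * (m - q * n : ℤ) / P) (by positivity) (by positivity) hk
    have h4 : ∫ ρ in Ioi (0 : ℝ), f1_c8G P ν β q v θ σ (m, n) ρ = β m * conj (β n) *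
        ∫ ρ in Ioi (0 : ℝ), ((v ρ / ρ : ℝ) : ℂ) *
          (Wz ν m (2 * Real.pi * |(m : ℝ)| * Real.sin θ / P * ρ) *
            Wz ν n (2 * Real.pi * (q * |(n : ℝ)|) * Real.sin θ / P * ρ)) *
          cexp ((2 * Real.pi * σ * Real.cos θ * (m - q * n : ℤ) / P * ρ : ℝ) * I) := by
      rw [← integral_const_mul]
      congr 1
      funext ρ
      unfold f1_c8G
      simp only
      rw [if_neg h2]
      ring
    rw [h4, norm_mul, norm_mul, Complex.norm_conj]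
    have h5 : (2 * Real.pi * σ * Real.cos θ * (m - q * n : ℤ) / P) ^ 2 =
        (2 * Real.pi * Real.cos θ / P) ^ 2 * ((m - q * n : ℤ) : ℝ) ^ 2 := by
      calc _ = σ ^ 2 * ((2 * Real.pi * Real.cos θ / P) ^ 2 * ((m - q * n : ℤ) : ℝ) ^ 2) := by ring
        _ = _ := by rw [hσ2, one_mul]
    have h6 : C₈ / (2 * Real.pi * σ * Real.cos θ * (m - q * n : ℤ) / P) ^ 2 ≤
        |C₈| * (P / (2 * Real.pi * Real.cos 1)) ^ 2 * (((m - q * n : ℤ) : ℝ) ^ 2)⁻¹ := by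
      rw [h5]
      have h7 : ((2 * Real.pi * Real.cos θ / P) ^ 2)⁻¹ ≤ (P / (2 * Real.pi * Real.cos 1)) ^ 2 := by
        rw [← inv_pow, inv_div]
        gcongr
      calc C₈ / ((2 * Real.pi * Real.cos θ / P) ^ 2 * ((m - q * n : ℤ) : ℝ) ^ 2)
          ≤ |C₈| / ((2 * Real.pi * Real.cos θ / P) ^ 2 * ((m - q * n : ℤ) : ℝ) ^ 2) := by
            gcongr
            exact le_abs_self _
        _ = |C₈| * ((2 * Real.pi * Real.cos θ / P) ^ 2)⁻¹ * (((m - q * n : ℤ) : ℝ) ^ 2)⁻¹ := by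
            rw [div_eq_mul_inv, mul_inv]
            ring
        _ ≤ _ := by gcongr
    calc ‖β m‖ * ‖β n‖ * ‖∫ ρ in Ioi (0 : ℝ), ((v ρ / ρ : ℝ) : ℂ) *
          (Wz ν m (2 * Real.pi * |(m : ℝ)| * Real.sin θ / P * ρ) *
            Wz ν n (2 * Real.pi * (q * |(n : ℝ)|) * Real.sin θ / P * ρ)) *
          cexp ((2 * Real.pi * σ * Real.cos θ * (m - q * n : ℤ) / P * ρ : ℝ) * I)‖
        ≤ ‖β m‖ * ‖β n‖ * (|C₈| * (P / (2 * Real.pi * Real.cos 1)) ^ 2 *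
          (((m - q * n : ℤ) : ℝ) ^ 2)⁻¹ * (∫ ρ in Ioi ρ₀, ρ ^ (-3 : ℝ) *
        ((2 * Real.pi * |(m : ℝ)| * Real.sin θ / P * ρ) ^ (1 / 2 - b) *
          Real.exp (-(2 * Real.pi * |(m : ℝ)| * Real.sin θ / P * ρ / 4))) *
        ((2 * Real.pi * (q * |(n : ℝ)|) * Real.sin θ / P * ρ) ^ (1 / 2 - b) *
          Real.exp (-(2 * Real.pi * (q * |(n : ℝ)|) * Real.sin θ / P * ρ / 4))))) :=
          mul_le_mul_of_nonneg_left (h3.trans (mul_le_mul_of_nonneg_right h6 hJ0)) (by positivity)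
      _ = _ := by ring
  have hfin : ∀ S : Finset (ℤ × ℤ), ‖∑ p ∈ S, ∫ ρ in Ioi (0 : ℝ), f1_c8G P ν β q v θ σ p ρ‖ ≤
      |C₈| * (P / (2 * Real.pi * Real.cos 1)) ^ 2 *
    ((∫ ρ in Ioi ρ₀, ρ ^ (-3 : ℝ)) * (Z * D)) := by
    intro S
    refine (norm_sum_le _ _).trans ((Finset.sum_le_sum fun p _ => hT p).trans ?_)
    rw [← Finset.mul_sum]
    refine mul_le_mul_of_nonneg_left ?_ (by positivity)
    refine f1_c8_J hb0 hb2.le hρ hZ hw hq (x := fun m => ‖β m‖) (y := fun n => ‖β n‖)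
      (A := fun m => 2 * Real.pi * |(m : ℝ)| * Real.sin θ / P)
      (B := fun n => 2 * Real.pi * (q * |(n : ℝ)|) * Real.sin θ / P)
      (fun m => by positivity) (fun n => by positivity) ?_ ?_ S
    · intro ρ hr T
      have hr0 : 0 < ρ := hρ.trans hr
      have h2 := hD (2 * Real.pi * ρ * Real.sin θ / P) (by positivity) T
      have e : ∀ m : ℤ, 2 * Real.pi * |(m : ℝ)| * Real.sin θ / P * ρ =
          |(m : ℝ)| * (2 * Real.pi * ρ * Real.sin θ / P) := fun m => by ring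
      simp only [e]
      exact h2
    · intro ρ hr T
      have hr0 : 0 < ρ := hρ.trans hr
      have h2 := hD (2 * Real.pi * q * ρ * Real.sin θ / P) (by positivity) T
      have e : ∀ n : ℤ, 2 * Real.pi * (q * |(n : ℝ)|) * Real.sin θ / P * ρ =
          |(n : ℝ)| * (2 * Real.pi * q * ρ * Real.sin θ / P) := fun n => by ring
      simp only [e]
      exact h2
  exact le_of_tendsto ((continuous_norm.tendsto _).comp hI) (Eventually.of_forall hfin)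

end Pool.Agent.JO.FM1

namespace Pool.Agent.JO.FM1

theorem offdiag1 : type_of% @offdiag1_pr := @offdiag1_pr

end Pool.Agent.JO.FM1
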