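import Pool.Agent.Lib_helper42.JO1.Defs
import Pool.Agent.Lib_helper45.JO.Defs2
import Pool.Agent.Lib_helper42.JO1F.C7
import Pool.Agent.Lib_helper42.JO1F.C8

/-!
-/

set_option autoImplicit false

namespace Pool.Agent.JO.FM1

open Complex Filter Topology MeasureTheory Set
open UpperHalfPlane hiding I
open Pool.Agent.JO.FM
open scoped MatrixGroups ComplexConjugate

theorem f1_c10_coe {x y : ℝ} (hy : 0 < y) : ((pz x y : ℍ) : ℂ) = (x : ℂ) + y * I := by
  rw [pz, ofComplex_apply_of_im_pos (by simpa using hy)]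

theorem f1_c10_im {x y : ℝ} (hy : 0 < y) : (pz x y).im = y := by
  rw [← UpperHalfPlane.coe_im, f1_c10_coe hy]
  simp

theorem f1_c10_normSq {x y : ℝ} (hy : 0 < y) : normSq ((pz x y : ℍ) : ℂ) = x ^ 2 + y ^ 2 := by
  rw [f1_c10_coe hy, Complex.normSq_add_mul_I]

theorem f1_c10_pr (r θ : ℝ) : pr r θ = pz (r * Real.cos θ) (r * Real.sin θ) := by
  rw [pr, pz]
  congr 1
  rw [Complex.exp_mul_I]
  push_cast
  ring

/-- `-1/z` in coordinates -/
theorem f1_c10_S {x y : ℝ} (hy : 0 < y) :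
    ModularGroup.S • pz x y = pz (-x / (x ^ 2 + y ^ 2)) (y / (x ^ 2 + y ^ 2)) := by
  have hpos : 0 < x ^ 2 + y ^ 2 := by positivity
  have hy' : 0 < y / (x ^ 2 + y ^ 2) := by positivity
  apply UpperHalfPlane.ext
  rw [modular_S_smul, f1_c10_coe hy']
  show (-((pz x y : ℍ) : ℂ))⁻¹ = _
  rw [f1_c10_coe hy]
  have h0 : ((x : ℂ) ^ 2 + (y : ℂ) ^ 2) ≠ 0 := by
    have : ((x ^ 2 + y ^ 2 : ℝ) : ℂ) ≠ 0 := by exact_mod_cast hpos.ne'
    push_cast at this
    exact this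
  have h1 : ((x : ℂ) + y * I) * ((x : ℂ) - y * I) = (x : ℂ) ^ 2 + (y : ℂ) ^ 2 := by
    ring_nf
    rw [Complex.I_sq]
    ring
  have h2 : (-((x : ℂ) + y * I)) ≠ 0 := by
    intro hcon
    have h3 : (x : ℂ) + y * I = 0 := neg_eq_zero.mp hcon
    rw [h3, zero_mul] at h1
    exact h0 h1.symm
  push_cast
  refine inv_eq_of_mul_eq_one_right ?_
  field_simp
  linear_combination h1

/-- continuity of `ofComplex` -/
theorem f1_c10_ofComplex_cont {w : ℂ} (hw : 0 < w.im) : ContinuousAt ofComplex w := by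
  rw [UpperHalfPlane.isOpenEmbedding_coe.isEmbedding.continuousAt_iff]
  have h1 : (fun z : ℂ => z) =ᶠ[𝓝 w] (UpperHalfPlane.coe ∘ ofComplex) := by
    have h2 : ∀ᶠ z : ℂ in 𝓝 w, 0 < z.im :=
      (isOpen_lt continuous_const Complex.continuous_im).mem_nhds hw
    filter_upwards [h2] with z hz
    simp only [Function.comp_apply]
    rw [ofComplex_apply_of_im_pos hz]
  exact continuousAt_id.congr h1

/-- the two exponential bounds -/
def f1_c10_dec (F : ℍ → ℂ) : Prop := ∃ C c : ℝ, 0 < c ∧ ∀ z : ℍ, ‖F z‖ ≤ C * Real.exp (-(c * z.im)) ∧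
    ‖F z‖ ≤ C * Real.exp (-(c * (z.im / normSq (z : ℂ))))

/-- integrability on a ray -/
theorem f1_c10_int {F : ℍ → ℂ} (hFc : Continuous F) (hd : f1_c10_dec F) {q : ℝ} (hq : 0 < q)
    {σ θ : ℝ} (h0 : 0 < Real.sin θ) (hσ : σ = 1 ∨ σ = -1) :
    IntegrableOn (fun ρ : ℝ => F (pz (σ * ρ * Real.cos θ) (ρ * Real.sin θ)) *
      conj (F (pz (σ * (q * ρ) * Real.cos θ) (q * ρ * Real.sin θ))) / ρ) (Ioi 0) := by
  obtain ⟨C, c, hc, hb⟩ := hd
  have hC : 0 ≤ C := by
    have h1 := (hb (pz 0 1)).1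
    have h2 := Real.exp_pos (-(c * (pz 0 1).im))
    by_contra hcon
    push Not at hcon
    have h3 := mul_neg_of_neg_of_pos hcon h2
    linarith [norm_nonneg (F (pz 0 1))]
  have hs := h0
  set s := Real.sin θ with hsdef
  have hpzc : Continuous (fun z : ℂ => z) := continuous_id
  have hcont : ∀ k : ℝ, 0 < k → ContinuousOn
      (fun ρ : ℝ => F (pz (σ * (k * ρ) * Real.cos θ) (k * ρ * s))) (Ioi 0) := by
    intro k hk
    refine hFc.comp_continuousOn ?_
    have h1 : ContinuousOn (fun ρ : ℝ => (((σ * (k * ρ) * Real.cos θ : ℝ) : ℂ) +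
      ((k * ρ * s : ℝ) : ℂ) * I)) (Ioi 0) := by fun_prop
    intro ρ hρ
    have hρ' : 0 < ρ := hρ
    refine ContinuousAt.continuousWithinAt ?_
    have h2 : ContinuousAt (fun ρ : ℝ => (((σ * (k * ρ) * Real.cos θ : ℝ) : ℂ) +
      ((k * ρ * s : ℝ) : ℂ) * I)) ρ := by fun_prop
    have h3 : ContinuousAt ofComplex (((σ * (k * ρ) * Real.cos θ : ℝ) : ℂ) +
      ((k * ρ * s : ℝ) : ℂ) * I) := by
      refine f1_c10_ofComplex_cont ?_
      have h4 : 0 < k * ρ * s := by positivity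
      simpa using h4
    exact ContinuousAt.comp (f := fun ρ : ℝ => (((σ * (k * ρ) * Real.cos θ : ℝ) : ℂ) +
      ((k * ρ * s : ℝ) : ℂ) * I)) h3 h2
  have hF1 : ∀ ρ : ℝ, 0 < ρ → ‖F (pz (σ * ρ * Real.cos θ) (ρ * s))‖ ≤
      C * Real.exp (-(c * (s / ρ))) := by
    intro ρ hρ
    have h1 := (hb (pz (σ * ρ * Real.cos θ) (ρ * s))).2
    have hys : 0 < ρ * s := mul_pos hρ hs
    rw [f1_c10_im hys, f1_c10_normSq hys] at h1
    have h2 : (σ * ρ * Real.cos θ) ^ 2 + (ρ * s) ^ 2 = ρ ^ 2 := by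
      have hσ2 : σ ^ 2 = 1 := by rcases hσ with h | h <;> rw [h] <;> norm_num
      have h3 := Real.sin_sq_add_cos_sq θ
      rw [← hsdef] at h3
      rw [mul_pow, mul_pow, mul_pow, hσ2]
      nlinarith [h3]
    rw [h2] at h1
    have h4 : ρ * s / ρ ^ 2 = s / ρ := by field_simp
    rw [h4] at h1
    exact h1
  have hF2 : ∀ ρ : ℝ, 0 < ρ → ‖F (pz (σ * (q * ρ) * Real.cos θ) (q * ρ * s))‖ ≤
      C * Real.exp (-(c * (q * ρ * s))) := by
    intro ρ hρ
    have hys : 0 < q * ρ * s := by positivity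
    have h1 := (hb (pz (σ * (q * ρ) * Real.cos θ) (q * ρ * s))).1
    rw [f1_c10_im hys] at h1
    exact h1
  have hmeas : AEStronglyMeasurable (fun ρ : ℝ => F (pz (σ * ρ * Real.cos θ) (ρ * s)) *
      conj (F (pz (σ * (q * ρ) * Real.cos θ) (q * ρ * s))) / ρ) (volume.restrict (Ioi 0)) := by
    refine ContinuousOn.aestronglyMeasurable ?_ measurableSet_Ioi
    have h1 := hcont 1 one_pos
    simp only [one_mul] at h1
    refine (h1.mul (Complex.continuous_conj.comp_continuousOn (hcont q hq))).div ?_ ?_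
    · fun_prop
    · intro ρ hρ
      have hρ' : 0 < ρ := hρ
      exact_mod_cast hρ'.ne'
  have hint : IntegrableOn (fun ρ : ℝ => C * C * (1 / (c * s)) * Real.exp (-(c * q * s) * ρ))
      (Ioi 0) := (exp_neg_integrableOn_Ioi 0 (by positivity)).const_mul _
  refine Integrable.mono' hint hmeas ?_
  refine (ae_restrict_iff' measurableSet_Ioi).mpr (Filter.Eventually.of_forall fun ρ hρ => ?_)
  have hρ' : 0 < ρ := hρ
  rw [norm_div, norm_mul, RCLike.norm_conj, Complex.norm_real, Real.norm_of_nonneg hρ'.le]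
  have h1 : Real.exp (-(c * (s / ρ))) / ρ ≤ 1 / (c * s) := by
    rw [div_le_div_iff₀ hρ' (by positivity), one_mul]
    have h2 : c * (s / ρ) ≤ Real.exp (c * (s / ρ)) := by
      linarith [Real.add_one_le_exp (c * (s / ρ))]
    rw [Real.exp_neg]
    rw [inv_mul_le_iff₀ (Real.exp_pos _)]
    have h3 : c * s = c * (s / ρ) * ρ := by field_simp
    calc c * s = c * (s / ρ) * ρ := h3
      _ ≤ Real.exp (c * (s / ρ)) * ρ := mul_le_mul_of_nonneg_right h2 hρ'.le
  calc ‖F (pz (σ * ρ * Real.cos θ) (ρ * s))‖ *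
      ‖F (pz (σ * (q * ρ) * Real.cos θ) (q * ρ * s))‖ / ρ
      ≤ (C * Real.exp (-(c * (s / ρ)))) * (C * Real.exp (-(c * (q * ρ * s)))) / ρ := by
        gcongr
        · exact hF1 ρ hρ'
        · exact hF2 ρ hρ'
    _ = C * C * (Real.exp (-(c * (s / ρ))) / ρ) * Real.exp (-(c * (q * ρ * s))) := by ring
    _ ≤ C * C * (1 / (c * s)) * Real.exp (-(c * (q * ρ * s))) := by
        gcongr
    _ = C * C * (1 / (c * s)) * Real.exp (-(c * q * s) * ρ) := by
        congr 2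
        ring

/-- properties of the smooth step -/
structure f1_c10_Step (v : ℝ → ℝ) : Prop where
  smooth : ContDiff ℝ 2 v
  zero : ∀ ρ, ρ ≤ 1 / 2 → v ρ = 0
  one : ∀ ρ, 1 ≤ ρ → v ρ = 1
  nonneg : ∀ ρ, 0 ≤ v ρ
  le_one : ∀ ρ, v ρ ≤ 1

theorem f1_c10_step : ∃ v : ℝ → ℝ, f1_c10_Step v := by
  refine ⟨fun ρ => Real.smoothTransition (2 * ρ - 1), ?_, ?_, ?_, ?_, ?_⟩
  · exact Real.smoothTransition.contDiff.comp (by fun_prop)
  · intro ρ hρ
    exact Real.smoothTransition.zero_of_nonpos (by linarith)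
  · intro ρ hρ
    exact Real.smoothTransition.one_of_one_le (by linarith)
  · intro ρ
    exact Real.smoothTransition.nonneg _
  · intro ρ
    exact Real.smoothTransition.le_one _

/-- the diagonal integral -/
theorem f1_c10_dg {D : ℝ → ℂ} (hDc : ContinuousOn D (Ioi 0)) {C P : ℝ} (hP : 0 < P)
    (hD1 : ∀ Y, 0 < Y → ‖D Y‖ ≤ C) (hD2 : ∀ Y, 0 < Y → ‖D Y‖ ≤ C * Real.exp (-(Y / P)))
    {v : ℝ → ℝ} (hv : f1_c10_Step v) {s : ℝ} (hs : 0 < s) (hs1 : s ≤ 1) :
    IntegrableOn (fun ρ : ℝ => ((v ρ / ρ : ℝ) : ℂ) * D (ρ * s)) (Ioi 0) ∧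
      ‖(∫ ρ in Ioi (0 : ℝ), ((v ρ / ρ : ℝ) : ℂ) * D (ρ * s)) - ∫ Y in s..1, D Y / Y‖ ≤
        2 * C + C * P := by
  have hC : 0 ≤ C := (norm_nonneg _).trans (hD1 1 one_pos)
  have hvc := hv.smooth.continuous
  set H : ℝ → ℂ := fun ρ => ((v ρ / ρ : ℝ) : ℂ) * D (ρ * s) with hH
  have hmeas : AEStronglyMeasurable H (volume.restrict (Ioi 0)) := by
    refine ContinuousOn.aestronglyMeasurable ?_ measurableSet_Ioi
    have h1 : ContinuousOn (fun ρ : ℝ => ((v ρ / ρ : ℝ) : ℂ)) (Ioi 0) := by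
      refine Complex.continuous_ofReal.comp_continuousOn ?_
      refine hvc.continuousOn.div continuousOn_id fun ρ hρ => ?_
      have hρ' : 0 < ρ := hρ
      exact hρ'.ne'
    refine h1.mul (hDc.comp (by fun_prop) fun ρ hρ => ?_)
    exact mul_pos hρ hs
  have hvρ : ∀ ρ : ℝ, 0 < ρ → ‖((v ρ / ρ : ℝ) : ℂ)‖ ≤ 2 := by
    intro ρ hρ
    rw [Complex.norm_real, Real.norm_of_nonneg (div_nonneg (hv.nonneg ρ) hρ.le)]
    rcases le_total ρ (1 / 2) with h | h
    · rw [hv.zero ρ h]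
      norm_num
    · rw [div_le_iff₀ hρ]
      linarith [hv.le_one ρ]
  have hb1 : ∀ ρ : ℝ, 0 < ρ → ‖H ρ‖ ≤ 2 * C := by
    intro ρ hρ
    simp only [hH]
    rw [norm_mul]
    exact mul_le_mul (hvρ ρ hρ) (hD1 _ (mul_pos hρ hs)) (norm_nonneg _) (by norm_num)
  have hint : IntegrableOn H (Ioi 0) := by
    have h1 : IntegrableOn (fun ρ : ℝ => 2 * C * Real.exp (-(s / P) * ρ)) (Ioi 0) :=
      (exp_neg_integrableOn_Ioi 0 (by positivity)).const_mul _
    refine Integrable.mono' h1 hmeas ?_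
    refine (ae_restrict_iff' measurableSet_Ioi).mpr (Filter.Eventually.of_forall fun ρ hρ => ?_)
    have hρ' : 0 < ρ := hρ
    simp only [hH]
    rw [norm_mul]
    have h2 := hD2 _ (mul_pos hρ' hs)
    have h3 : -(ρ * s / P) = -(s / P) * ρ := by ring
    rw [h3] at h2
    calc ‖((v ρ / ρ : ℝ) : ℂ)‖ * ‖D (ρ * s)‖ ≤ 2 * (C * Real.exp (-(s / P) * ρ)) :=
          mul_le_mul (hvρ ρ hρ') h2 (norm_nonneg _) (by norm_num)
      _ = 2 * C * Real.exp (-(s / P) * ρ) := by ring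
  refine ⟨hint, ?_⟩
  have h1s : 1 ≤ 1 / s := by
    rw [le_div_iff₀ hs]
    linarith
  have hint1 : IntegrableOn H (Ioi 1) := hint.mono_set (Ioi_subset_Ioi zero_le_one)
  have hint2 : IntegrableOn H (Ioi (1 / s)) := hint.mono_set (Ioi_subset_Ioi (by positivity))
  have e1 : (∫ ρ in Ioi (0 : ℝ), H ρ) = (∫ ρ in (0 : ℝ)..1, H ρ) + ((∫ ρ in (1 : ℝ)..(1 / s), H ρ) +
      ∫ ρ in Ioi (1 / s), H ρ) := by
    rw [intervalIntegral.integral_interval_add_Ioi hint1 hint2,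
      intervalIntegral.integral_interval_add_Ioi hint hint1]
  have e2 : (∫ ρ in (1 : ℝ)..(1 / s), H ρ) = ∫ Y in s..1, D Y / Y := by
    have h2 : (∫ ρ in (1 : ℝ)..(1 / s), H ρ) =
        ∫ ρ in (1 : ℝ)..(1 / s), (s : ℂ) * (D (ρ * s) / ((ρ * s : ℝ) : ℂ)) := by
      refine intervalIntegral.integral_congr fun ρ hρ => ?_
      rw [uIcc_of_le h1s] at hρ
      have hρ1 : 1 ≤ ρ := hρ.1
      have hρ0 : (ρ : ℂ) ≠ 0 := by
        have : ρ ≠ 0 := by linarith
        exact_mod_cast this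
      have hs0 : (s : ℂ) ≠ 0 := by exact_mod_cast hs.ne'
      simp only [hH]
      rw [hv.one ρ hρ1]
      push_cast
      field_simp
    rw [h2, intervalIntegral.integral_const_mul]
    have h3 := intervalIntegral.integral_comp_mul_right (a := 1) (b := 1 / s)
      (fun Y : ℝ => D Y / (Y : ℂ)) hs.ne'
    rw [h3]
    rw [one_mul, one_div_mul_cancel hs.ne']
    rw [Complex.real_smul, ← mul_assoc]
    push_cast
    rw [mul_inv_cancel₀ (by exact_mod_cast hs.ne'), one_mul]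
  rw [e1, e2]
  have h5 : ‖∫ ρ in (0 : ℝ)..1, H ρ‖ ≤ 2 * C := by
    have h6 := intervalIntegral.norm_integral_le_of_norm_le_const (a := (0 : ℝ)) (b := 1)
      (C := 2 * C) (f := H) (fun ρ hρ => by
        rw [uIoc_of_le zero_le_one] at hρ
        exact hb1 ρ hρ.1)
    simpa using h6
  have h7 : ‖∫ ρ in Ioi (1 / s), H ρ‖ ≤ C * P := by
    have hneg : -(s / P) < 0 := by
      have : 0 < s / P := by positivity
      linarith
    have h8 : IntegrableOn (fun ρ : ℝ => C * s * Real.exp (-(s / P) * ρ)) (Ioi (1 / s)) :=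
      (exp_neg_integrableOn_Ioi (1 / s) (by positivity)).const_mul _
    have h9 : ‖∫ ρ in Ioi (1 / s), H ρ‖ ≤
        ∫ ρ in Ioi (1 / s), C * s * Real.exp (-(s / P) * ρ) := by
      refine norm_integral_le_of_norm_le h8 ?_
      refine (ae_restrict_iff' measurableSet_Ioi).mpr (Filter.Eventually.of_forall fun ρ hρ => ?_)
      have hρ1 : 1 / s < ρ := hρ
      have hρ' : 0 < ρ := lt_of_le_of_lt (by positivity) hρ1
      have hρs : 1 < ρ * s := by
        rw [div_lt_iff₀ hs] at hρ1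
        exact hρ1
      simp only [hH]
      rw [norm_mul]
      have h2 := hD2 _ (mul_pos hρ' hs)
      have h3 : -(ρ * s / P) = -(s / P) * ρ := by ring
      rw [h3] at h2
      have h10 : ‖((v ρ / ρ : ℝ) : ℂ)‖ ≤ s := by
        rw [Complex.norm_real, Real.norm_of_nonneg (div_nonneg (hv.nonneg ρ) hρ'.le)]
        rw [div_le_iff₀ hρ']
        have := hv.le_one ρ
        nlinarith
      calc ‖((v ρ / ρ : ℝ) : ℂ)‖ * ‖D (ρ * s)‖ ≤ s * (C * Real.exp (-(s / P) * ρ)) :=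
            mul_le_mul h10 h2 (norm_nonneg _) hs.le
        _ = C * s * Real.exp (-(s / P) * ρ) := by ring
    rw [integral_const_mul, integral_exp_mul_Ioi hneg] at h9
    refine h9.trans ?_
    have h11 : Real.exp (-(s / P) * (1 / s)) ≤ 1 := by
      apply Real.exp_le_one_iff.mpr
      have : 0 ≤ (s / P) * (1 / s) := by positivity
      linarith
    have h12 : C * s * (-Real.exp (-(s / P) * (1 / s)) / -(s / P)) =
        C * P * Real.exp (-(s / P) * (1 / s)) := by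
      field_simp
    rw [h12]
    exact mul_le_of_le_one_right (by positivity) h11
  have h13 : (∫ ρ in (0 : ℝ)..1, H ρ) + ((∫ Y in s..1, D Y / Y) + ∫ ρ in Ioi (1 / s), H ρ) -
      (∫ Y in s..1, D Y / Y) = (∫ ρ in (0 : ℝ)..1, H ρ) + ∫ ρ in Ioi (1 / s), H ρ := by ring
  rw [h13]
  exact (norm_add_le _ _).trans (add_le_add h5 h7)

/-- one side -/
theorem f1_c10_key {P : ℕ} (hP : 0 < P) {ν : ℂ} (hν : ν.re = 0) {β : ℤ → ℂ} {F : ℍ → ℂ}
    (h : Expn1 P ν β F) (hFc : Continuous F) (hd : f1_c10_dec F) {q : ℕ} (hq : 0 < q) {v : ℝ → ℝ}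
    (hv : f1_c10_Step v) : ∃ C : ℝ, ∀ θ σ : ℝ, 0 < θ → θ ≤ 1 → (σ = 1 ∨ σ = -1) →
      ‖(∫ ρ in Ioi (0 : ℝ), ((v ρ / ρ : ℝ) : ℂ) *
        (F (pz (σ * ρ * Real.cos θ) (ρ * Real.sin θ)) *
          conj (F (pz (σ * (q * ρ) * Real.cos θ) (q * ρ * Real.sin θ))))) -
            Ug1 P ν β q (Real.sin θ)‖ ≤ C := by
  have hqr : (0 : ℝ) < (q : ℝ) := by exact_mod_cast hq
  have hPr : (0 : ℝ) < (P : ℝ) := by exact_mod_cast hP
  obtain ⟨C₁, h1⟩ := offdiag1 hP hν h hq hv.smooth ⟨1 / 2, by norm_num, hv.zero⟩ ⟨1, hv.one⟩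
  obtain ⟨hDc, C₂, h2⟩ := Dg1_bdd hP hν h hq
  refine ⟨C₁ + (2 * C₂ + C₂ * P), fun θ σ h0 hθ1 hσ => ?_⟩
  have hs : 0 < Real.sin θ := Real.sin_pos_of_pos_of_lt_pi h0 (by linarith [Real.pi_gt_three])
  have hs1 : Real.sin θ ≤ 1 := Real.sin_le_one θ
  obtain ⟨h3, h4⟩ := f1_c10_dg hDc hPr (fun Y hY => (h2 Y hY).1) (fun Y hY => (h2 Y hY).2) hv hs hs1
  have h5 := h1 θ σ h0 hθ1 hσ
  have h6 := f1_c10_int hFc hd hqr hs hσ
  have h7 : IntegrableOn (fun ρ : ℝ => ((v ρ / ρ : ℝ) : ℂ) *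
      (F (pz (σ * ρ * Real.cos θ) (ρ * Real.sin θ)) *
        conj (F (pz (σ * (q * ρ) * Real.cos θ) (q * ρ * Real.sin θ))))) (Ioi 0) := by
    have h8 : IntegrableOn (fun ρ : ℝ => ((v ρ : ℝ) : ℂ) *
        (F (pz (σ * ρ * Real.cos θ) (ρ * Real.sin θ)) *
        conj (F (pz (σ * (q * ρ) * Real.cos θ) (q * ρ * Real.sin θ))) / ρ)) (Ioi 0) := by
      refine Integrable.bdd_mul h6 (c := 1) ?_ ?_
      · exact (Complex.continuous_ofReal.comp hv.smooth.continuous).aestronglyMeasurable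
      · refine Filter.Eventually.of_forall fun ρ => ?_
        rw [Complex.norm_real, Real.norm_of_nonneg (hv.nonneg ρ)]
        exact hv.le_one ρ
    refine h8.congr_fun (fun ρ hρ => ?_) measurableSet_Ioi
    simp only
    push_cast
    ring
  have h9 : (∫ ρ in Ioi (0 : ℝ), ((v ρ / ρ : ℝ) : ℂ) *
        (F (pz (σ * ρ * Real.cos θ) (ρ * Real.sin θ)) *
          conj (F (pz (σ * (q * ρ) * Real.cos θ) (q * ρ * Real.sin θ))) -
            Dg1 P ν β q (ρ * Real.sin θ))) =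
      (∫ ρ in Ioi (0 : ℝ), ((v ρ / ρ : ℝ) : ℂ) *
      (F (pz (σ * ρ * Real.cos θ) (ρ * Real.sin θ)) *
        conj (F (pz (σ * (q * ρ) * Real.cos θ) (q * ρ * Real.sin θ))))) -
      ∫ ρ in Ioi (0 : ℝ), ((v ρ / ρ : ℝ) : ℂ) * Dg1 P ν β q (ρ * Real.sin θ) := by
    rw [← integral_sub h7 h3]
    refine setIntegral_congr_fun measurableSet_Ioi fun ρ hρ => ?_
    ring
  rw [h9] at h5
  have h10 : ∀ a b c : ℂ, a - c = (a - b) + (b - c) := fun a b c => by ring
  rw [h10 _ (∫ ρ in Ioi (0 : ℝ), ((v ρ / ρ : ℝ) : ℂ) * Dg1 P ν β q (ρ * Real.sin θ))]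
  refine (norm_add_le _ _).trans (add_le_add h5 ?_)
  exact h4

/-- the substitution `r = 1 / (q ρ)` -/
theorem f1_c10_subst (K : ℝ → ℂ) {q : ℝ} (hq : 0 < q) :
    ∫ r in Ioi (0 : ℝ), K (1 / (q * r)) / r = ∫ ρ in Ioi (0 : ℝ), K ρ / ρ := by
  have h1 := integral_comp_rpow_Ioi (fun y : ℝ => K (y / q) / (y : ℂ)) (p := -1) (by norm_num)
  have h2 : (∫ r in Ioi (0 : ℝ), K (1 / (q * r)) / r) =
      ∫ y in Ioi (0 : ℝ), K (y / q) / (y : ℂ) := by
    rw [← h1]
    refine setIntegral_congr_fun measurableSet_Ioi fun r hr => ?_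
    have hr' : 0 < r := hr
    have hr0 : (r : ℂ) ≠ 0 := by exact_mod_cast hr'.ne'
    rw [abs_neg, abs_one, one_mul, Real.rpow_neg_one, Complex.real_smul]
    have h3 : r ^ ((-1 : ℝ) - 1) = (r ^ 2)⁻¹ := by
      rw [show (-1 : ℝ) - 1 = -2 by norm_num, Real.rpow_neg hr'.le]
      norm_cast
    rw [h3]
    have h4 : r⁻¹ / q = 1 / (q * r) := by
      field_simp
    rw [h4]
    push_cast
    field_simp
  rw [h2]
  have h5 := integral_comp_mul_left_Ioi (fun y : ℝ => K (y / q) / (y : ℂ)) 0 hq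
  rw [mul_zero] at h5
  have hq0 : (q : ℂ) ≠ 0 := by exact_mod_cast hq.ne'
  have h6 : (∫ y in Ioi (0 : ℝ), K (y / q) / (y : ℂ)) =
      (q : ℂ) * ∫ x in Ioi (0 : ℝ), K ((q * x) / q) / ((q * x : ℝ) : ℂ) := by
    rw [h5, Complex.real_smul]
    push_cast
    rw [← mul_assoc, mul_inv_cancel₀ hq0, one_mul]
  rw [h6, ← integral_const_mul]
  refine setIntegral_congr_fun measurableSet_Ioi fun r hr => ?_
  have hr' : 0 < r := hr
  have hr0 : (r : ℂ) ≠ 0 := by exact_mod_cast hr'.ne'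
  rw [mul_div_cancel_left₀ _ hq.ne']
  push_cast
  field_simp

/-- the third part: compact support -/
theorem f1_c10_rest {A : ℝ → ℂ} {M : ℝ} (hM : ∀ r, 0 < r → ‖A r‖ ≤ M) {q : ℝ} (hq : 1 ≤ q)
    {v : ℝ → ℝ} (hv : f1_c10_Step v) :
    ‖∫ r in Ioi (0 : ℝ), ((1 - v r - v (1 / (q * r)) : ℝ) : ℂ) * (A r / r)‖ ≤ 4 * q * M := by
  have hM0 : 0 ≤ M := (norm_nonneg _).trans (hM 1 one_pos)
  have hq0 : 0 < q := by linarith
  have hlo : (0 : ℝ) < 1 / (2 * q) := by positivity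
  have h1 : (∫ r in Ioc (1 / (2 * q)) 2, ((1 - v r - v (1 / (q * r)) : ℝ) : ℂ) * (A r / r)) =
      ∫ r in Ioi (0 : ℝ), ((1 - v r - v (1 / (q * r)) : ℝ) : ℂ) * (A r / r) := by
    symm
    refine setIntegral_eq_of_subset_of_forall_sdiff_eq_zero measurableSet_Ioi
      (fun r hr => lt_of_lt_of_le hlo hr.1.le) fun r hr => ?_
    obtain ⟨hr0, hr1⟩ := hr
    have hr' : 0 < r := hr0
    have h2 : 1 - v r - v (1 / (q * r)) = 0 := by
      rcases le_or_gt r (1 / (2 * q)) with h | h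
      · have h3 : r ≤ 1 / 2 := h.trans (by
          rw [div_le_div_iff₀ (by positivity) (by norm_num)]
          linarith)
        have h4 : 1 ≤ 1 / (q * r) := by
          rw [le_div_iff₀ (by positivity), one_mul]
          rw [le_div_iff₀ (by positivity)] at h
          nlinarith
        rw [hv.zero r h3, hv.one _ h4]
        norm_num
      · have h5 : 2 < r := by
          by_contra hcon
          push Not at hcon
          exact hr1 ⟨h, hcon⟩
        have h6 : 1 / (q * r) ≤ 1 / 2 := by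
          rw [div_le_div_iff₀ (by positivity) (by norm_num)]
          nlinarith
        rw [hv.zero _ h6, hv.one r (by linarith)]
        norm_num
    rw [h2]
    simp
  rw [← h1]
  have h7 : ‖∫ r in Ioc (1 / (2 * q)) 2, ((1 - v r - v (1 / (q * r)) : ℝ) : ℂ) * (A r / r)‖ ≤
      (2 * q * M) * volume.real (Ioc (1 / (2 * q)) 2) := by
    refine norm_setIntegral_le_of_norm_le_const (by simp) fun r hr => ?_
    have hr' : 0 < r := lt_trans hlo hr.1
    rw [norm_mul, norm_div, Complex.norm_real, Complex.norm_real, Real.norm_of_nonneg hr'.le]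
    have h8 : ‖1 - v r - v (1 / (q * r))‖ ≤ 1 := by
      rw [Real.norm_eq_abs, abs_le]
      constructor
      · linarith [hv.le_one r, hv.le_one (1 / (q * r))]
      · linarith [hv.nonneg r, hv.nonneg (1 / (q * r))]
    have h9 : ‖A r‖ / r ≤ 2 * q * M := by
      rw [div_le_iff₀ hr']
      have h10 : 1 ≤ 2 * q * r := by
        have := hr.1
        rw [div_lt_iff₀ (by positivity)] at this
        linarith
      calc ‖A r‖ ≤ M := hM r hr'
        _ = M * 1 := by ring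
        _ ≤ M * (2 * q * r) := by gcongr
        _ = 2 * q * M * r := by ring
    calc ‖1 - v r - v (1 / (q * r))‖ * (‖A r‖ / r) ≤ 1 * (2 * q * M) :=
          mul_le_mul h8 h9 (by positivity) (by norm_num)
      _ = 2 * q * M := by ring
  refine h7.trans ?_
  have h11 : volume.real (Ioc (1 / (2 * q)) 2) ≤ 2 := by
    rw [Real.volume_real_Ioc_of_le]
    · linarith
    · rw [div_le_iff₀ (by positivity)]
      linarith
  calc 2 * q * M * volume.real (Ioc (1 / (2 * q)) 2) ≤ 2 * q * M * 2 := by gcongr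
    _ = 4 * q * M := by ring

/-- C10: `I_q` in terms of the diagonals at `∞` and at `0` -/
theorem iq_split1_pr {ν : ℂ} {ε : ℝ} {a : ℕ → ℂ} {f g : ℍ → ℂ} (F : Frame1 ν ε a f)
    (hg : ∀ z, g z = sl ModularGroup.S f z) {N : ℕ} (hN : 0 < N) {β : ℤ → ℂ}
    (hβ : Expn1 N ν β g) {q : ℕ} (hq : 0 < q) : ∃ C : ℝ, ∀ θ : ℝ, 0 < θ → θ ≤ 1 →
      ‖(∫ r in Ioi (0 : ℝ), f (pr r θ) * conj (f (pr (q * r) θ)) / r) -
        (Ug1 1 ν (cf1 ν ε a) q (Real.sin θ) + conj (Ug1 N ν β q (Real.sin θ)))‖ ≤ C := by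
  obtain ⟨v, hv⟩ := f1_c10_step
  have hqr : (0 : ℝ) < (q : ℝ) := by exact_mod_cast hq
  have hq1 : (1 : ℝ) ≤ (q : ℝ) := by exact_mod_cast hq
  -- continuity and decay
  have hfc : Continuous f := F.cont
  have hSc : ∀ z : ℍ, ((ModularGroup.S • z : ℍ) : ℂ) = (-(z : ℂ))⁻¹ := by
    intro z
    rw [modular_S_smul]
  have hg' : ∀ z : ℍ, g z = f (ModularGroup.S • z) * ((z : ℂ) / ‖(z : ℂ)‖)⁻¹ := by
    intro z
    rw [hg z, sl, ModularGroup.denom_S]
  have hSS : Continuous (fun z : ℍ => ModularGroup.S • z) := by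
    rw [UpperHalfPlane.isEmbedding_coe.continuous_iff]
    have h1 : (UpperHalfPlane.coe ∘ fun z : ℍ => ModularGroup.S • z) =
        fun z : ℍ => (-(z : ℂ))⁻¹ := by
      funext z
      exact hSc z
    rw [h1]
    refine (continuous_neg.comp UpperHalfPlane.continuous_coe).inv₀ fun z => ?_
    simp only [Function.comp_apply]
    exact neg_ne_zero.mpr z.ne_zero
  have hgc : Continuous g := by
    have h1 : g = fun z : ℍ => f (ModularGroup.S • z) * ((z : ℂ) / ‖(z : ℂ)‖)⁻¹ := by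
      funext z
      exact hg' z
    rw [h1]
    refine (hfc.comp hSS).mul ?_
    refine Continuous.inv₀ ?_ fun z => ?_
    · refine UpperHalfPlane.continuous_coe.div ?_ fun z => ?_
      · exact Complex.continuous_ofReal.comp (continuous_norm.comp UpperHalfPlane.continuous_coe)
      · exact_mod_cast (norm_pos_iff.mpr z.ne_zero).ne'
    · exact div_ne_zero z.ne_zero (by exact_mod_cast (norm_pos_iff.mpr z.ne_zero).ne')
  have hgn : ∀ z : ℍ, ‖g z‖ = ‖f (ModularGroup.S • z)‖ := by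
    intro z
    rw [hg' z, norm_mul, norm_inv, norm_div, Complex.norm_real, norm_norm,
      div_self (norm_pos_iff.mpr z.ne_zero).ne', inv_one, mul_one]
  have hdf : f1_c10_dec f := F.dec
  have hdg : f1_c10_dec g := by
    obtain ⟨C, c, hc, h1⟩ := F.dec
    refine ⟨C, c, hc, fun z => ?_⟩
    have h2 := h1 (ModularGroup.S • z)
    rw [← hgn z] at h2
    have hz : 0 < normSq (z : ℂ) := Complex.normSq_pos.mpr z.ne_zero
    have h3 : normSq ((ModularGroup.S • z : ℍ) : ℂ) = (normSq (z : ℂ))⁻¹ := by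
      rw [hSc z, map_inv₀, Complex.normSq_neg]
    have h4 : (ModularGroup.S • z : ℍ).im = z.im / normSq (z : ℂ) := by
      rw [← UpperHalfPlane.coe_im, hSc z, Complex.inv_im, Complex.normSq_neg, Complex.neg_im,
        neg_neg, UpperHalfPlane.coe_im]
    rw [h3, h4] at h2
    have h5 : z.im / normSq (z : ℂ) / (normSq (z : ℂ))⁻¹ = z.im := by
      field_simp
    rw [h5] at h2
    exact ⟨h2.2, h2.1⟩
  obtain ⟨C₁, h1⟩ := f1_c10_key one_pos F.nu F.expn hfc hdf hq hv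
  obtain ⟨C₂, h2⟩ := f1_c10_key hN F.nu hβ hgc hdg hq hv
  obtain ⟨Cf, hCf⟩ : ∃ Cf : ℝ, ∀ z : ℍ, ‖f z‖ ≤ Cf := by
    obtain ⟨C, c, hc, h3⟩ := F.dec
    refine ⟨C, fun z => (h3 z).1.trans ?_⟩
    have hC : 0 ≤ C := by
      have h5 := (h3 (pz 0 1)).1
      have h6 := Real.exp_pos (-(c * (pz 0 1).im))
      by_contra hcon
      push Not at hcon
      have h7 := mul_neg_of_neg_of_pos hcon h6
      linarith [norm_nonneg (f (pz 0 1))]
    refine mul_le_of_le_one_right hC (Real.exp_le_one_iff.mpr ?_)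
    have : 0 < c * z.im := mul_pos hc z.im_pos
    linarith
  have hCf0 : 0 ≤ Cf := (norm_nonneg _).trans (hCf (pz 0 1))
  refine ⟨C₁ + C₂ + 4 * q * (Cf * Cf), fun θ h0 hθ1 => ?_⟩
  have hs : 0 < Real.sin θ := Real.sin_pos_of_pos_of_lt_pi h0 (by linarith [Real.pi_gt_three])
  set A : ℝ → ℂ := fun r => f (pr r θ) * conj (f (pr (q * r) θ)) with hA
  have hAint : IntegrableOn (fun r : ℝ => A r / r) (Ioi 0) := by
    have h3 := f1_c10_int hfc hdf hqr hs (Or.inl rfl : (1 : ℝ) = 1 ∨ (1 : ℝ) = -1)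
    refine h3.congr_fun (fun r _ => ?_) measurableSet_Ioi
    simp only [hA, f1_c10_pr, one_mul]
  have hvm : AEStronglyMeasurable (fun r : ℝ => ((v r : ℝ) : ℂ)) (volume.restrict (Ioi 0)) :=
    (Complex.continuous_ofReal.comp hv.smooth.continuous).aestronglyMeasurable
  have hI1 : IntegrableOn (fun r : ℝ => ((v r : ℝ) : ℂ) * (A r / r)) (Ioi 0) := by
    refine Integrable.bdd_mul hAint (c := 1) hvm ?_
    refine Filter.Eventually.of_forall fun ρ => ?_
    rw [Complex.norm_real, Real.norm_of_nonneg (hv.nonneg ρ)]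
    exact hv.le_one ρ
  have hI2 : IntegrableOn (fun r : ℝ => ((v (1 / (q * r)) : ℝ) : ℂ) * (A r / r)) (Ioi 0) := by
    refine Integrable.bdd_mul hAint (c := 1) ?_ ?_
    · refine ContinuousOn.aestronglyMeasurable ?_ measurableSet_Ioi
      refine Complex.continuous_ofReal.comp_continuousOn ?_
      refine hv.smooth.continuous.comp_continuousOn ?_
      refine continuousOn_const.div (by fun_prop) fun r hr => ?_
      have hr' : 0 < r := hr
      positivity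
    · refine Filter.Eventually.of_forall fun ρ => ?_
      rw [Complex.norm_real, Real.norm_of_nonneg (hv.nonneg _)]
      exact hv.le_one _
  have hI3 : IntegrableOn (fun r : ℝ => ((1 - v r - v (1 / (q * r)) : ℝ) : ℂ) * (A r / r))
      (Ioi 0) := by
    refine ((hAint.sub hI1).sub hI2).congr_fun (fun r _ => ?_) measurableSet_Ioi
    simp only [Pi.sub_apply]
    push_cast
    ring
  have hsplit : (∫ r in Ioi (0 : ℝ), A r / r) =
      (∫ r in Ioi (0 : ℝ), ((v r : ℝ) : ℂ) * (A r / r)) +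
      ((∫ r in Ioi (0 : ℝ), ((v (1 / (q * r)) : ℝ) : ℂ) * (A r / r)) +
      ∫ r in Ioi (0 : ℝ), ((1 - v r - v (1 / (q * r)) : ℝ) : ℂ) * (A r / r)) := by
    have hI23 : IntegrableOn (fun r : ℝ => ((v (1 / (q * r)) : ℝ) : ℂ) * (A r / r) +
      ((1 - v r - v (1 / (q * r)) : ℝ) : ℂ) * (A r / r)) (Ioi 0) := hI2.add hI3
    rw [← integral_add hI2 hI3, ← integral_add hI1 hI23]
    refine setIntegral_congr_fun measurableSet_Ioi fun r _ => ?_
    push_cast
    ring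
  -- first part
  have hp1 : ‖(∫ r in Ioi (0 : ℝ), ((v r : ℝ) : ℂ) * (A r / r)) -
      Ug1 1 ν (cf1 ν ε a) q (Real.sin θ)‖ ≤ C₁ := by
    have h3 := h1 θ 1 h0 hθ1 (Or.inl rfl)
    have h4 : (∫ r in Ioi (0 : ℝ), ((v r : ℝ) : ℂ) * (A r / r)) =
        ∫ ρ in Ioi (0 : ℝ), ((v ρ / ρ : ℝ) : ℂ) *
        (f (pz (1 * ρ * Real.cos θ) (ρ * Real.sin θ)) *
          conj (f (pz (1 * (q * ρ) * Real.cos θ) (q * ρ * Real.sin θ)))) := by
      refine setIntegral_congr_fun measurableSet_Ioi fun r _ => ?_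
      simp only [hA, f1_c10_pr, one_mul]
      push_cast
      ring
    rw [h4]
    exact h3
  -- second part
  have hp2 : ‖(∫ r in Ioi (0 : ℝ), ((v (1 / (q * r)) : ℝ) : ℂ) * (A r / r)) -
      conj (Ug1 N ν β q (Real.sin θ))‖ ≤ C₂ := by
    have h3 := h2 θ (-1) h0 hθ1 (Or.inr rfl)
    set u : ℂ := ((-Real.cos θ : ℝ) : ℂ) + ((Real.sin θ : ℝ) : ℂ) * I with hu
    have hu1 : ‖u‖ = 1 := by
      rw [hu, Complex.norm_add_mul_I, neg_sq, Real.cos_sq_add_sin_sq, Real.sqrt_one]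
    have hgp : ∀ k : ℝ, 0 < k → g (pz (-1 * k * Real.cos θ) (k * Real.sin θ)) =
        f (pr (1 / k) θ) * u⁻¹ := by
      intro k hk
      have hks : 0 < k * Real.sin θ := mul_pos hk hs
      have h7 : ((pz (-1 * k * Real.cos θ) (k * Real.sin θ) : ℍ) : ℂ) = (k : ℂ) * u := by
        rw [f1_c10_coe hks, hu]
        push_cast
        ring
      rw [hg', f1_c10_S hks, f1_c10_pr, h7, norm_mul, hu1, mul_one, Complex.norm_real,
        Real.norm_of_nonneg hk.le, mul_div_cancel_left₀ _ (by exact_mod_cast hk.ne' : (k : ℂ) ≠ 0)]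
      have h5 : (-1 * k * Real.cos θ) ^ 2 + (k * Real.sin θ) ^ 2 = k ^ 2 := by
        have h6 := Real.sin_sq_add_cos_sq θ
        calc (-1 * k * Real.cos θ) ^ 2 + (k * Real.sin θ) ^ 2 =
            k ^ 2 * (Real.sin θ ^ 2 + Real.cos θ ^ 2) := by ring
          _ = k ^ 2 := by rw [h6, mul_one]
      rw [h5]
      congr 3
      · field_simp
      · field_simp
    have huu : u⁻¹ * conj (u⁻¹) = 1 := by
      rw [Complex.mul_conj, Complex.normSq_eq_norm_sq, norm_inv, hu1]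
      norm_num
    set K : ℝ → ℂ := fun ρ => ((v ρ : ℝ) : ℂ) * (f (pr (1 / ρ) θ) * conj (f (pr (1 / (q * ρ)) θ)))
      with hK
    have h4 : (∫ ρ in Ioi (0 : ℝ), ((v ρ / ρ : ℝ) : ℂ) *
        (g (pz (-1 * ρ * Real.cos θ) (ρ * Real.sin θ)) *
          conj (g (pz (-1 * (q * ρ) * Real.cos θ) (q * ρ * Real.sin θ))))) =
        ∫ ρ in Ioi (0 : ℝ), K ρ / ρ := by
      refine setIntegral_congr_fun measurableSet_Ioi fun ρ hρ => ?_
      have hρ' : 0 < ρ := hρ
      simp only [hK]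
      rw [hgp ρ hρ', hgp (q * ρ) (by positivity), map_mul]
      push_cast
      linear_combination (v ρ / ρ : ℂ) * f (pr (1 / ρ) θ) * conj (f (pr (1 / (q * ρ)) θ)) * huu
    rw [h4, ← f1_c10_subst K hqr] at h3
    have h5 : (∫ r in Ioi (0 : ℝ), K (1 / (q * r)) / r) =
        conj (∫ r in Ioi (0 : ℝ), ((v (1 / (q * r)) : ℝ) : ℂ) * (A r / r)) := by
      rw [← integral_conj]
      refine setIntegral_congr_fun measurableSet_Ioi fun r hr => ?_
      have hr' : 0 < r := hr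
      simp only [hK, hA, map_mul, map_div₀, Complex.conj_ofReal, Complex.conj_conj]
      have e1 : 1 / (1 / ((q : ℝ) * r)) = q * r := by
        field_simp
      have e2 : 1 / ((q : ℝ) * (1 / ((q : ℝ) * r))) = r := by
        field_simp
      rw [e1, e2]
      ring
    rw [h5] at h3
    have h6 : ‖conj ((∫ r in Ioi (0 : ℝ), ((v (1 / (q * r)) : ℝ) : ℂ) * (A r / r)) -
      conj (Ug1 N ν β q (Real.sin θ)))‖ ≤ C₂ := by
      rw [map_sub, Complex.conj_conj]
      exact h3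
    rw [RCLike.norm_conj] at h6
    exact h6
  -- third part
  have hp3 : ‖∫ r in Ioi (0 : ℝ), ((1 - v r - v (1 / (q * r)) : ℝ) : ℂ) * (A r / r)‖ ≤
      4 * q * (Cf * Cf) := by
    refine f1_c10_rest (fun r _ => ?_) hq1 hv
    simp only [hA]
    rw [norm_mul, RCLike.norm_conj]
    exact mul_le_mul (hCf _) (hCf _) (norm_nonneg _) hCf0
  have hfin : (∫ r in Ioi (0 : ℝ), f (pr r θ) * conj (f (pr (q * r) θ)) / r) -
      (Ug1 1 ν (cf1 ν ε a) q (Real.sin θ) + conj (Ug1 N ν β q (Real.sin θ))) =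
      ((∫ r in Ioi (0 : ℝ), ((v r : ℝ) : ℂ) * (A r / r)) - Ug1 1 ν (cf1 ν ε a) q (Real.sin θ)) +
      ((∫ r in Ioi (0 : ℝ), ((v (1 / (q * r)) : ℝ) : ℂ) * (A r / r)) -
        conj (Ug1 N ν β q (Real.sin θ))) +
      ∫ r in Ioi (0 : ℝ), ((1 - v r - v (1 / (q * r)) : ℝ) : ℂ) * (A r / r) := by
    have h3 : (∫ r in Ioi (0 : ℝ), f (pr r θ) * conj (f (pr (q * r) θ)) / r) =
        ∫ r in Ioi (0 : ℝ), A r / r := rfl
    rw [h3, hsplit]
    ring
  rw [hfin]
  exact (norm_add_le _ _).trans (add_le_add ((norm_add_le _ _).trans (add_le_add hp1 hp2)) hp3)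

end Pool.Agent.JO.FM1

namespace Pool.Agent.JO.FM1

theorem iq_split1 : type_of% @iq_split1_pr := @iq_split1_pr

end Pool.Agent.JO.FM1
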