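import Pool.Agent.Lib_helper42.JO1.Defs
import Pool.Agent.Lib_helper45.JO.Defs2

/-! Project JO, part FM, weight 1, block C2 (helper81): the first order system of `G1`. -/

set_option autoImplicit false
set_option linter.unusedSimpArgs false

namespace Pool.Agent.JO.FM1

open Complex Filter Topology MeasureTheory Set
open UpperHalfPlane hiding I
open Pool.Agent.JO.FM
open scoped MatrixGroups ComplexConjugate

/-- families which may be differentiated under the integral sign -/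
structure f1_c2_Nice {Ω : Type*} [MeasurableSpace Ω] (μ : Measure Ω) (F : ℂ → Ω → ℂ)
    (U : Set ℂ) : Prop where
  meas : ∀ s ∈ U, AEStronglyMeasurable (F s) μ
  diff : ∀ x, DifferentiableOn ℂ (fun s => F s x) U
  dom : ∀ s ∈ U, ∃ r > 0, Metric.ball s r ⊆ U ∧ ∃ b : Ω → ℝ, Integrable b μ ∧
    ∀ x, ∀ z ∈ Metric.ball s r, ‖F z x‖ ≤ b x

theorem f1_c2_nice_int {Ω : Type*} [MeasurableSpace Ω] {μ : Measure Ω} {F : ℂ → Ω → ℂ}
    {U : Set ℂ} (h : f1_c2_Nice μ F U) {s : ℂ} (hs : s ∈ U) : Integrable (F s) μ := by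
  obtain ⟨r, hr, hrU, b, hbi, hbd⟩ := h.dom s hs
  exact hbi.mono' (h.meas s hs) (Eventually.of_forall fun x => hbd x s (Metric.mem_ball_self hr))

theorem f1_c2_nice_deriv {Ω : Type*} [MeasurableSpace Ω] {μ : Measure Ω} {F : ℂ → Ω → ℂ}
    {U : Set ℂ} (hU : IsOpen U) (h : f1_c2_Nice μ F U) :
    f1_c2_Nice μ (fun s x => deriv (fun w => F w x) s) U ∧
    ∀ s ∈ U, HasDerivAt (fun s => ∫ x, F s x ∂μ) (∫ x, deriv (fun w => F w x) s ∂μ) s := by
  have hmeas : ∀ s ∈ U, AEStronglyMeasurable (fun x => deriv (fun w => F w x) s) μ := by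
    intro s hs
    have hlim : ∀ᵐ x ∂μ, Tendsto (fun n : ℕ => ((1 / ((n : ℂ) + 1)))⁻¹ •
        (F (s + 1 / ((n : ℂ) + 1)) x - F s x)) atTop (𝓝 (deriv (fun w => F w x) s)) := by
      refine Eventually.of_forall fun x => ?_
      have h1 : HasDerivAt (fun w => F w x) (deriv (fun w => F w x) s) s :=
        ((h.diff x).differentiableAt (hU.mem_nhds hs)).hasDerivAt
      rw [hasDerivAt_iff_tendsto_slope_zero] at h1
      refine h1.comp ?_
      refine tendsto_nhdsWithin_iff.mpr ⟨tendsto_one_div_add_atTop_nhds_zero_nat,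
        Eventually.of_forall fun n => ?_⟩
      have : ((n : ℂ) + 1) ≠ 0 := Nat.cast_add_one_ne_zero n
      simp [this]
    have hev : ∀ᶠ n : ℕ in atTop, s + 1 / ((n : ℂ) + 1) ∈ U := by
      have h2 : Tendsto (fun n : ℕ => s + 1 / ((n : ℂ) + 1)) atTop (𝓝 s) := by
        have := (tendsto_one_div_add_atTop_nhds_zero_nat (𝕜 := ℂ)).const_add s
        simpa using this
      exact h2 (hU.mem_nhds hs)
    obtain ⟨N, hN⟩ := eventually_atTop.mp hev
    have hlim2 : ∀ᵐ x ∂μ, Tendsto (fun n : ℕ => ((1 / (((n + N : ℕ) : ℂ) + 1)))⁻¹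
        • (F (s + 1 / (((n + N : ℕ) : ℂ) + 1)) x - F s x)) atTop
          (𝓝 (deriv (fun w => F w x) s)) := by
      filter_upwards [hlim] with x hx
      exact (tendsto_add_atTop_iff_nat N).mpr hx
    refine aestronglyMeasurable_of_tendsto_ae atTop (fun n => ?_) hlim2
    have h3 : AEStronglyMeasurable (fun x => F (s + 1 / (((n + N : ℕ) : ℂ) + 1)) x - F s x) μ :=
      (h.meas _ (hN (n + N) (by omega))).sub (h.meas s hs)
    exact h3.const_smul ((1 / (((n + N : ℕ) : ℂ) + 1)))⁻¹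
  have hbound : ∀ s ∈ U, ∃ r > 0, Metric.ball s r ⊆ U ∧ ∃ b : Ω → ℝ, Integrable b μ ∧
      ∀ x, ∀ z ∈ Metric.ball s r, ‖deriv (fun w => F w x) z‖ ≤ b x := by
    intro s hs
    obtain ⟨r, hr, hrU, b, hbi, hbd⟩ := h.dom s hs
    have hball : ∀ z ∈ Metric.ball s (r / 2), Metric.closedBall z (r / 4) ⊆ Metric.ball s r := by
      intro z hz w hw
      rw [Metric.mem_ball] at hz ⊢
      rw [Metric.mem_closedBall] at hw
      calc dist w s ≤ dist w z + dist z s := dist_triangle _ _ _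
        _ < r := by linarith
    refine ⟨r / 2, by positivity, (Metric.ball_subset_ball (by linarith)).trans hrU,
      fun x => b x / (r / 4), hbi.div_const _, fun x z hz => ?_⟩
    refine Complex.norm_deriv_le_of_forall_mem_sphere_norm_le (by positivity) ?_ ?_
    · refine DifferentiableOn.diffContOnCl ?_
      rw [closure_ball _ (by positivity : r / 4 ≠ 0)]
      exact (h.diff x).mono ((hball z hz).trans hrU)
    · intro w hw
      exact hbd x w (hball z hz (Metric.sphere_subset_closedBall hw))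
  refine ⟨⟨hmeas, fun x => (h.diff x).deriv hU, hbound⟩, fun s hs => ?_⟩
  obtain ⟨r, hr, hrU, b, hbi, hbd⟩ := hbound s hs
  exact (hasDerivAt_integral_of_dominated_loc_of_deriv_le (μ := μ) (𝕜 := ℂ)
    (F := F) (F' := fun z x => deriv (fun w => F w x) z) (x₀ := s) (s := Metric.ball s r)
    (bound := b) (Metric.ball_mem_nhds s hr)
    (by
      filter_upwards [Metric.ball_mem_nhds s hr] with z hz
      exact h.meas z (hrU hz))
    (f1_c2_nice_int h hs)
    (hmeas s hs) (Eventually.of_forall fun x z hz => hbd x z hz) hbi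
    (Eventually.of_forall fun x z hz =>
      ((h.diff x).differentiableAt (hU.mem_nhds (hrU hz))).hasDerivAt)).2

/-- the strip -/
def f1_c2_U : Set ℂ := {θ | 0 < θ.re ∧ θ.re < Real.pi}

theorem f1_c2_open : IsOpen f1_c2_U :=
  (isOpen_lt continuous_const Complex.continuous_re).inter
    (isOpen_lt Complex.continuous_re continuous_const)

/-- `sin θ cosh u - ι cos θ`, `ι = ± i` -/
noncomputable def f1_c2_A (ι θ : ℂ) (u : ℝ) : ℂ :=
  Complex.sin θ * (Real.cosh u : ℝ) - ι * Complex.cos θ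

theorem f1_c2_sin_re (θ : ℂ) : (Complex.sin θ).re = Real.sin θ.re * Real.cosh θ.im := by
  have h := Complex.sin_eq θ
  rw [h]
  rw [← Complex.ofReal_sin, ← Complex.ofReal_cos, ← Complex.ofReal_cosh, ← Complex.ofReal_sinh]
  simp only [Complex.add_re, Complex.sub_re, Complex.mul_re, Complex.add_im, Complex.sub_im,
    Complex.mul_im, Complex.ofReal_re, Complex.ofReal_im, Complex.I_re, Complex.I_im]
  ring

theorem f1_c2_sin_im (θ : ℂ) : (Complex.sin θ).im = Real.cos θ.re * Real.sinh θ.im := by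
  have h := Complex.sin_eq θ
  rw [h]
  rw [← Complex.ofReal_sin, ← Complex.ofReal_cos, ← Complex.ofReal_cosh, ← Complex.ofReal_sinh]
  simp only [Complex.add_re, Complex.sub_re, Complex.mul_re, Complex.add_im, Complex.sub_im,
    Complex.mul_im, Complex.ofReal_re, Complex.ofReal_im, Complex.I_re, Complex.I_im]
  ring

theorem f1_c2_cos_re (θ : ℂ) : (Complex.cos θ).re = Real.cos θ.re * Real.cosh θ.im := by
  have h := Complex.cos_eq θ
  rw [h]
  rw [← Complex.ofReal_sin, ← Complex.ofReal_cos, ← Complex.ofReal_cosh, ← Complex.ofReal_sinh]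
  simp only [Complex.add_re, Complex.sub_re, Complex.mul_re, Complex.add_im, Complex.sub_im,
    Complex.mul_im, Complex.ofReal_re, Complex.ofReal_im, Complex.I_re, Complex.I_im]
  ring

theorem f1_c2_cos_im (θ : ℂ) : (Complex.cos θ).im = -(Real.sin θ.re * Real.sinh θ.im) := by
  have h := Complex.cos_eq θ
  rw [h]
  rw [← Complex.ofReal_sin, ← Complex.ofReal_cos, ← Complex.ofReal_cosh, ← Complex.ofReal_sinh]
  simp only [Complex.add_re, Complex.sub_re, Complex.mul_re, Complex.add_im, Complex.sub_im,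
    Complex.mul_im, Complex.ofReal_re, Complex.ofReal_im, Complex.I_re, Complex.I_im]
  ring

theorem f1_c2_A_re {ι : ℂ} (hι : ι = I ∨ ι = -I) {θ : ℂ} (hθ : θ ∈ f1_c2_U) (u : ℝ) :
    Real.sin θ.re * Real.exp (-|θ.im|) * Real.cosh u ≤ (f1_c2_A ι θ u).re := by
  have hs : 0 < Real.sin θ.re := Real.sin_pos_of_pos_of_lt_pi hθ.1 hθ.2
  have hu : 1 ≤ Real.cosh u := Real.one_le_cosh u
  have h1 : Real.exp (-|θ.im|) ≤ Real.cosh θ.im - Real.sinh θ.im := by
    rw [Real.cosh_sub_sinh]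
    exact Real.exp_le_exp.2 (neg_le_neg (le_abs_self _))
  have h2 : Real.exp (-|θ.im|) ≤ Real.cosh θ.im + Real.sinh θ.im := by
    rw [Real.cosh_add_sinh]
    exact Real.exp_le_exp.2 (neg_abs_le _)
  have hc : 0 < Real.cosh θ.im := Real.cosh_pos _
  have key : ∀ S : ℝ, |S| ≤ Real.cosh θ.im - Real.exp (-|θ.im|) →
      Real.exp (-|θ.im|) * Real.cosh u ≤ Real.cosh θ.im * Real.cosh u + S := by
    intro S hS
    have h3 := neg_abs_le S
    have h4 : 0 ≤ Real.cosh θ.im - Real.exp (-|θ.im|) := (abs_nonneg _).trans hS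
    nlinarith
  have hS : |Real.sinh θ.im| ≤ Real.cosh θ.im - Real.exp (-|θ.im|) := by
    rw [abs_le]; constructor <;> linarith
  rcases hι with rfl | rfl
  · have e : (f1_c2_A I θ u).re = Real.sin θ.re * (Real.cosh θ.im * Real.cosh u - Real.sinh θ.im) := by
      unfold f1_c2_A
      simp only [Complex.sub_re, Complex.mul_re, Complex.ofReal_re, Complex.ofReal_im, Complex.I_re, Complex.I_im,
        f1_c2_sin_re, f1_c2_sin_im, f1_c2_cos_re, f1_c2_cos_im]
      ring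
    rw [e, mul_assoc]
    refine mul_le_mul_of_nonneg_left ?_ hs.le
    have := key (-Real.sinh θ.im) (by rwa [abs_neg])
    linarith
  · have e : (f1_c2_A (-I) θ u).re =
        Real.sin θ.re * (Real.cosh θ.im * Real.cosh u + Real.sinh θ.im) := by
      unfold f1_c2_A
      simp only [Complex.sub_re, Complex.mul_re, Complex.ofReal_re, Complex.ofReal_im, Complex.neg_re,
        Complex.neg_im, Complex.I_re, Complex.I_im,
        f1_c2_sin_re, f1_c2_sin_im, f1_c2_cos_re, f1_c2_cos_im]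
      ring
    rw [e, mul_assoc]
    refine mul_le_mul_of_nonneg_left ?_ hs.le
    exact key (Real.sinh θ.im) hS

theorem f1_c2_A_pos {ι : ℂ} (hι : ι = I ∨ ι = -I) {θ : ℂ} (hθ : θ ∈ f1_c2_U) (u : ℝ) :
    0 < (f1_c2_A ι θ u).re := by
  have hs : 0 < Real.sin θ.re := Real.sin_pos_of_pos_of_lt_pi hθ.1 hθ.2
  refine lt_of_lt_of_le ?_ (f1_c2_A_re hι hθ u)
  have := Real.cosh_pos u
  positivity

theorem f1_c2_A_slit {ι : ℂ} (hι : ι = I ∨ ι = -I) {θ : ℂ} (hθ : θ ∈ f1_c2_U) (u : ℝ) :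
    f1_c2_A ι θ u ∈ slitPlane := Or.inl (f1_c2_A_pos hι hθ u)

theorem f1_c2_A_ne {ι : ℂ} (hι : ι = I ∨ ι = -I) {θ : ℂ} (hθ : θ ∈ f1_c2_U) (u : ℝ) :
    f1_c2_A ι θ u ≠ 0 := slitPlane_ne_zero (f1_c2_A_slit hι hθ u)

theorem f1_c2_A_theta (ι θ : ℂ) (u : ℝ) :
    HasDerivAt (fun θ => f1_c2_A ι θ u) (Complex.cos θ * (Real.cosh u : ℝ) + ι * Complex.sin θ) θ := by
  unfold f1_c2_A
  have h := ((Complex.hasDerivAt_sin θ).mul_const ((Real.cosh u : ℝ) : ℂ)).sub
    ((Complex.hasDerivAt_cos θ).const_mul ι)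
  exact h.congr_deriv (by ring)

theorem f1_c2_A_theta2 (ι θ : ℂ) (u : ℝ) :
    HasDerivAt (fun θ => Complex.cos θ * (Real.cosh u : ℝ) + ι * Complex.sin θ)
      (-f1_c2_A ι θ u) θ := by
  unfold f1_c2_A
  have h := ((Complex.hasDerivAt_cos θ).mul_const ((Real.cosh u : ℝ) : ℂ)).add
    ((Complex.hasDerivAt_sin θ).const_mul ι)
  exact h.congr_deriv (by ring)

theorem f1_c2_A_u (ι θ : ℂ) (u : ℝ) :
    HasDerivAt (fun u : ℝ => f1_c2_A ι θ u) (Complex.sin θ * (Real.sinh u : ℝ)) u := by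
  unfold f1_c2_A
  exact (((Real.hasDerivAt_cosh u).ofReal_comp).const_mul (Complex.sin θ)).sub_const _

theorem f1_c2_A_u2 (θ : ℂ) (u : ℝ) :
    HasDerivAt (fun u : ℝ => Complex.sin θ * (Real.sinh u : ℝ))
      (Complex.sin θ * (Real.cosh u : ℝ)) u :=
  ((Real.hasDerivAt_sinh u).ofReal_comp).const_mul (Complex.sin θ)

/-- the constant in the lower bound of `Re A` -/
noncomputable def f1_c2_c (θ : ℂ) : ℝ := Real.sin θ.re * Real.exp (-|θ.im|)

theorem f1_c2_c_pos {θ : ℂ} (hθ : θ ∈ f1_c2_U) : 0 < f1_c2_c θ :=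
  mul_pos (Real.sin_pos_of_pos_of_lt_pi hθ.1 hθ.2) (Real.exp_pos _)

theorem f1_c2_c_cont : Continuous f1_c2_c := by
  unfold f1_c2_c
  exact (Real.continuous_sin.comp Complex.continuous_re).mul
    (Real.continuous_exp.comp (Complex.continuous_im.abs.neg))

theorem f1_c2_A_norm {ι : ℂ} (hι : ι = I ∨ ι = -I) {θ : ℂ} (hθ : θ ∈ f1_c2_U) (u : ℝ) :
    f1_c2_c θ * Real.cosh u ≤ ‖f1_c2_A ι θ u‖ :=
  (f1_c2_A_re hι hθ u).trans (Complex.re_le_norm _)

theorem f1_c2_pow_bound {ι : ℂ} (hι : ι = I ∨ ι = -I) {θ : ℂ} (hθ : θ ∈ f1_c2_U) (u : ℝ) {s : ℂ}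
    (hs : 0 < s.re) {c : ℝ} (hc : 0 < c) (hcc : c ≤ f1_c2_c θ) :
    ‖f1_c2_A ι θ u ^ (-s)‖ ≤ (c / 2) ^ (-s.re) * Real.exp (Real.pi * |s.im|) *
      Real.exp (-(s.re * |u|)) := by
  have h1 := Complex.norm_cpow_le (f1_c2_A ι θ u) (-s)
  have h2 : c / 2 * Real.exp |u| ≤ ‖f1_c2_A ι θ u‖ := by
    refine le_trans ?_ (f1_c2_A_norm hι hθ u)
    have h3 : Real.exp |u| ≤ 2 * Real.cosh u := by
      rw [← Real.cosh_abs u, Real.cosh_eq]
      have := Real.exp_pos (-|u|)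
      linarith
    calc c / 2 * Real.exp |u| ≤ c / 2 * (2 * Real.cosh u) := by gcongr
      _ = c * Real.cosh u := by ring
      _ ≤ f1_c2_c θ * Real.cosh u := by
        have := Real.cosh_pos u
        gcongr
  have h4 : ‖f1_c2_A ι θ u‖ ^ (-s).re ≤ (c / 2) ^ (-s.re) * Real.exp (-(s.re * |u|)) := by
    rw [Complex.neg_re]
    calc ‖f1_c2_A ι θ u‖ ^ (-s.re) ≤ (c / 2 * Real.exp |u|) ^ (-s.re) :=
          Real.rpow_le_rpow_of_nonpos (by positivity) h2 (by linarith)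
      _ = (c / 2) ^ (-s.re) * Real.exp (-(s.re * |u|)) := by
          rw [Real.mul_rpow (by positivity) (Real.exp_pos _).le, ← Real.exp_mul]
          congr 2
          ring
  have h5 : (Real.exp (arg (f1_c2_A ι θ u) * (-s).im))⁻¹ ≤ Real.exp (Real.pi * |s.im|) := by
    rw [← Real.exp_neg]
    refine Real.exp_le_exp.2 ?_
    rw [Complex.neg_im]
    have h6 := Complex.abs_arg_le_pi (f1_c2_A ι θ u)
    calc -(arg (f1_c2_A ι θ u) * -s.im) = arg (f1_c2_A ι θ u) * s.im := by ring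
      _ ≤ |arg (f1_c2_A ι θ u) * s.im| := le_abs_self _
      _ = |arg (f1_c2_A ι θ u)| * |s.im| := abs_mul _ _
      _ ≤ Real.pi * |s.im| := by gcongr
  calc ‖f1_c2_A ι θ u ^ (-s)‖ ≤ ‖f1_c2_A ι θ u‖ ^ (-s).re * (Real.exp (arg (f1_c2_A ι θ u) * (-s).im))⁻¹ := by
        rw [← div_eq_mul_inv]; exact h1
    _ ≤ ((c / 2) ^ (-s.re) * Real.exp (-(s.re * |u|))) * Real.exp (Real.pi * |s.im|) := by
        gcongr
    _ = _ := by ring


/-- the kernel with the weight `h` -/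
noncomputable def f1_c2_k (ν q ι : ℂ) (h : ℝ → ℝ) (θ : ℂ) (u : ℝ) : ℂ :=
  cexp (ν * u) * (h u : ℂ) * f1_c2_A ι θ u ^ (-q)

theorem f1_c2_k_theta (ν q : ℂ) {ι : ℂ} (hι : ι = I ∨ ι = -I) (h : ℝ → ℝ) {θ : ℂ}
    (hθ : θ ∈ f1_c2_U) (u : ℝ) :
    HasDerivAt (fun θ => f1_c2_k ν q ι h θ u) (cexp (ν * u) * (h u : ℂ) *
      (-q * f1_c2_A ι θ u ^ (-q - 1) *
      (Complex.cos θ * (Real.cosh u : ℝ) + ι * Complex.sin θ))) θ := by
  unfold f1_c2_k
  exact ((f1_c2_A_theta ι θ u).cpow_const (f1_c2_A_slit hι hθ u)).const_mul _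

theorem f1_c2_k_bound {ν : ℂ} (hν : ν.re = 0) {ι : ℂ} (hι : ι = I ∨ ι = -I) {h : ℝ → ℝ}
    (hh : ∀ u, |h u| ≤ Real.exp (|u| / 2)) {θ : ℂ}
    (hθ : θ ∈ f1_c2_U) (u : ℝ) {q : ℂ}
    (hq : q.re = 1) {c : ℝ} (hc : 0 < c) (hcc : c ≤ f1_c2_c θ) :
    ‖f1_c2_k ν q ι h θ u‖ ≤ (c / 2) ^ (-q.re) * Real.exp (Real.pi * |q.im|) *
      Real.exp (-(1 / 2 * |u|)) := by
  unfold f1_c2_k
  rw [norm_mul, norm_mul, Complex.norm_exp, Complex.norm_real, Real.norm_eq_abs]
  have h1 : (ν * (u : ℂ)).re = 0 := by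
    rw [Complex.re_mul_ofReal, hν, zero_mul]
  rw [h1, Real.exp_zero, one_mul]
  calc |h u| * ‖f1_c2_A ι θ u ^ (-q)‖ ≤ Real.exp (|u| / 2) *
        ((c / 2) ^ (-q.re) * Real.exp (Real.pi * |q.im|) * Real.exp (-(q.re * |u|))) := by
        gcongr
        · exact hh u
        · exact f1_c2_pow_bound hι hθ u (by rw [hq]; exact one_pos) hc hcc
    _ = (c / 2) ^ (-q.re) * Real.exp (Real.pi * |q.im|) *
        (Real.exp (|u| / 2) * Real.exp (-(q.re * |u|))) := by ring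
    _ = _ := by
        rw [← Real.exp_add, hq]
        congr 2
        ring

theorem f1_c2_k_cont (ν q : ℂ) {ι : ℂ} (hι : ι = I ∨ ι = -I) {h : ℝ → ℝ} (hc : Continuous h)
    {θ : ℂ} (hθ : θ ∈ f1_c2_U) : Continuous (fun u => f1_c2_k ν q ι h θ u) := by
  unfold f1_c2_k
  refine Continuous.mul (by fun_prop) ?_
  refine Continuous.cpow ?_ continuous_const (fun u => f1_c2_A_slit hι hθ u)
  unfold f1_c2_A
  have := Real.continuous_cosh
  fun_prop

theorem f1_c2_nice {ν : ℂ} (hν : ν.re = 0) {ι : ℂ} (hι : ι = I ∨ ι = -I) {h : ℝ → ℝ}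
    (hc : Continuous h) (hh : ∀ u, |h u| ≤ Real.exp (|u| / 2)) {q : ℂ}
    (hq : q.re = 1) : f1_c2_Nice volume (fun θ u => f1_c2_k ν q ι h θ u) f1_c2_U := by
  refine ⟨fun θ hθ => (f1_c2_k_cont ν q hι hc hθ).aestronglyMeasurable, fun u θ hθ =>
    (f1_c2_k_theta ν q hι h hθ u).differentiableAt.differentiableWithinAt, fun θ hθ => ?_⟩
  have hc := f1_c2_c_pos hθ
  have hV : IsOpen (f1_c2_U ∩ {z | f1_c2_c θ / 2 < f1_c2_c z}) :=
    f1_c2_open.inter (isOpen_lt continuous_const f1_c2_c_cont)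
  obtain ⟨r, hr, hrV⟩ := Metric.isOpen_iff.1 hV θ
    ⟨hθ, by show f1_c2_c θ / 2 < f1_c2_c θ; linarith⟩
  refine ⟨r, hr, fun z hz => (hrV hz).1, fun u => (f1_c2_c θ / 2 / 2) ^ (-q.re) *
    Real.exp (Real.pi * |q.im|) * Real.exp (-(1 / 2 * |u|)), ?_, fun u z hz => ?_⟩
  · exact (SP.f2_int (by norm_num : (0 : ℝ) < 1 / 2)).const_mul _
  · exact f1_c2_k_bound hν hι hh (hrV hz).1 u hq (by linarith) (le_of_lt (hrV hz).2)

theorem f1_c2_exp_tendsto {δ : ℝ} (hδ : 0 < δ) {l : Filter ℝ}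
    (hl : Tendsto (fun u : ℝ => |u|) l atTop) :
    Tendsto (fun u : ℝ => Real.exp (-(δ * |u|))) l (𝓝 0) :=
  Real.tendsto_exp_neg_atTop_nhds_zero.comp (hl.const_mul_atTop hδ)

/-- one kernel: the weight `h`, the dual weight `hs` -/
theorem f1_c2_J {ν : ℂ} (hν : ν.re = 0) (t : ℝ) {κ : ℝ} (hκ : κ = 1 ∨ κ = -1) {h hs : ℝ → ℝ}
    (hc : Continuous h) (hh : ∀ u, |h u| ≤ Real.exp (|u| / 2))
    (hs' : ∀ u, HasDerivAt hs (h u / 2) u) (hhs : ∀ u, |hs u| ≤ Real.exp (|u| / 2))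
    (hid : ∀ u, hs u * Real.sinh u = h u * (Real.cosh u - κ)) {θ : ℂ} (hθ : θ ∈ f1_c2_U) :
    HasDerivAt (fun θ => ∫ u : ℝ, f1_c2_k ν (1 + t * I) (κ * I) h θ u)
      ((t - I / 2 - Complex.cos θ / (2 * Complex.sin θ)) *
        (∫ u : ℝ, f1_c2_k ν (1 + t * I) (κ * I) h θ u) -
        ν / Complex.sin θ * cexp (-(I * θ)) *
          ∫ u : ℝ, f1_c2_k ν (1 + t * I) (κ * I) hs θ u) θ := by
  set q : ℂ := 1 + t * I with hq
  set ι : ℂ := κ * I with hιdef
  have hqre : q.re = 1 := by rw [hq]; simp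
  have hι : ι = I ∨ ι = -I := by
    rcases hκ with rfl | rfl
    · left; rw [hιdef]; simp
    · right; rw [hιdef]; simp
  have hsc : Continuous hs := by
    rw [continuous_iff_continuousAt]
    exact fun u => (hs' u).continuousAt
  have n0 := f1_c2_nice hν hι hc hh hqre
  have ns := f1_c2_nice hν hι hsc hhs hqre
  obtain ⟨n1, hd⟩ := f1_c2_nice_deriv f1_c2_open n0
  have i0 := f1_c2_nice_int n0 hθ
  have is := f1_c2_nice_int ns hθ
  have i1 := f1_c2_nice_int n1 hθ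
  have hsin : Complex.sin θ ≠ 0 := by
    refine slitPlane_ne_zero (Or.inl ?_)
    rw [f1_c2_sin_re]
    exact mul_pos (Real.sin_pos_of_pos_of_lt_pi hθ.1 hθ.2) (Real.cosh_pos _)
  have hexp : cexp (-(I * θ)) = Complex.cos θ - I * Complex.sin θ := by
    have h1 := Complex.exp_mul_I (-θ)
    rw [Complex.cos_neg, Complex.sin_neg] at h1
    have h2 : -(I * θ) = -θ * I := by ring
    rw [h2, h1]
    ring
  -- the boundary term
  have hw : ∀ u : ℝ, HasDerivAt (fun u : ℝ => cexp (-(I * θ)) * f1_c2_k ν q ι hs θ u)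
      (cexp (-(I * θ)) * (ν * f1_c2_k ν q ι hs θ u + f1_c2_k ν q ι h θ u / 2) +
        Complex.sin θ * (deriv (fun θ => f1_c2_k ν q ι h θ u) θ +
          I * q * f1_c2_k ν q ι h θ u)) u := by
    intro u
    have hA := f1_c2_A_u ι θ u
    have hsl := f1_c2_A_slit hι hθ u
    have hne := f1_c2_A_ne hι hθ u
    have hcp : HasDerivAt (fun u : ℝ => f1_c2_A ι θ u ^ (-q))
        (-q * f1_c2_A ι θ u ^ (-q - 1) * (Complex.sin θ * (Real.sinh u : ℝ))) u := by
      have h1 : HasDerivAt (fun z : ℂ => z ^ (-q)) (-q * f1_c2_A ι θ u ^ (-q - 1))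
          (f1_c2_A ι θ u) := by
        have := (hasDerivAt_id' (f1_c2_A ι θ u)).cpow_const (c := -q) hsl
        simpa using this
      exact h1.comp u hA
    have he : HasDerivAt (fun u : ℝ => cexp (ν * u)) (cexp (ν * u) * ν) u := by
      have h1 : HasDerivAt (fun u : ℝ => ν * (u : ℂ)) ν u := by
        have := ((hasDerivAt_id u).ofReal_comp).const_mul ν
        simpa using this
      exact h1.cexp
    have hsd : HasDerivAt (fun u : ℝ => ((hs u : ℝ) : ℂ)) ((h u / 2 : ℝ) : ℂ) u :=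
      (hs' u).ofReal_comp
    have hall := ((he.mul hsd).mul hcp).const_mul (cexp (-(I * θ)))
    refine hall.congr_deriv ?_
    rw [(f1_c2_k_theta ν q hι h hθ u).deriv]
    have e2 : f1_c2_A ι θ u ^ (-q) = f1_c2_A ι θ u ^ (-q - 1) * f1_c2_A ι θ u := by
      have : -q = (-q - 1) + 1 := by ring
      nth_rewrite 1 [this]
      rw [Complex.cpow_add _ _ hne, Complex.cpow_one]
    have hidc : ((hs u : ℝ) : ℂ) * ((Real.sinh u : ℝ) : ℂ) =
        ((h u : ℝ) : ℂ) * (((Real.cosh u : ℝ) : ℂ) - (κ : ℂ)) := by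
      exact_mod_cast hid u
    have hscq := Complex.sin_sq_add_cos_sq θ
    have hAdef : f1_c2_A ι θ u = Complex.sin θ * (Real.cosh u : ℝ) - ι * Complex.cos θ := rfl
    simp only [f1_c2_k, Pi.mul_apply]
    rw [e2, hexp, hAdef, hιdef, Complex.ofReal_div, Complex.ofReal_ofNat]
    generalize (Complex.sin θ * ((Real.cosh u : ℝ) : ℂ) - κ * I * Complex.cos θ) ^ (-q - 1) = p
    generalize cexp (ν * u) = E
    generalize ((Real.cosh u : ℝ) : ℂ) = ch at *
    generalize ((Real.sinh u : ℝ) : ℂ) = sh at *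
    generalize ((hs u : ℝ) : ℂ) = a at *
    generalize ((h u : ℝ) : ℂ) = b at *
    generalize Complex.sin θ = S at *
    generalize Complex.cos θ = C at *
    have hI := I_sq
    linear_combination (-(E * p * q * S * (C - I * S))) * hidc +
      (E * p * q * S * b * κ * C) * hI
  have hb : ∀ u : ℝ, ‖cexp (-(I * θ)) * f1_c2_k ν q ι hs θ u‖ ≤ ‖cexp (-(I * θ))‖ *
      ((f1_c2_c θ / 2) ^ (-q.re) * Real.exp (Real.pi * |q.im|)) *
      Real.exp (-(1 / 2 * |u|)) := by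
    intro u
    rw [norm_mul, mul_assoc]
    gcongr
    exact f1_c2_k_bound hν hι hhs hθ u hqre (f1_c2_c_pos hθ) le_rfl
  have ht : ∀ l : Filter ℝ, Tendsto (fun u : ℝ => |u|) l atTop →
      Tendsto (fun u : ℝ => cexp (-(I * θ)) * f1_c2_k ν q ι hs θ u) l (𝓝 0) := by
    intro l hl
    refine squeeze_zero_norm hb ?_
    have := (f1_c2_exp_tendsto (by norm_num : (0 : ℝ) < 1 / 2) hl).const_mul
      (‖cexp (-(I * θ))‖ * ((f1_c2_c θ / 2) ^ (-q.re) * Real.exp (Real.pi * |q.im|)))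
    simpa using this
  have j1 : Integrable (fun u : ℝ => cexp (-(I * θ)) *
      (ν * f1_c2_k ν q ι hs θ u + f1_c2_k ν q ι h θ u / 2)) :=
    ((is.const_mul ν).add (i0.div_const 2)).const_mul _
  have j2 : Integrable (fun u : ℝ => Complex.sin θ * (deriv (fun θ => f1_c2_k ν q ι h θ u) θ +
          I * q * f1_c2_k ν q ι h θ u)) := (i1.add (i0.const_mul _)).const_mul _
  have key := integral_of_hasDerivAt_of_tendsto hw (j1.add j2)
    (ht atBot tendsto_abs_atBot_atTop) (ht atTop tendsto_abs_atTop_atTop)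
  rw [sub_zero, integral_add j1 j2, integral_const_mul, integral_const_mul,
    integral_add (is.const_mul ν) (i0.div_const 2), integral_add i1 (i0.const_mul _),
    integral_const_mul, integral_const_mul, integral_div] at key
  refine (hd θ hθ).congr_deriv ?_
  generalize (∫ u : ℝ, deriv (fun θ => f1_c2_k ν q ι h θ u) θ) = X at *
  generalize (∫ u : ℝ, f1_c2_k ν q ι h θ u) = Y at *
  generalize (∫ u : ℝ, f1_c2_k ν q ι hs θ u) = Z at *
  rw [hexp] at key ⊢
  rw [hq] at key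
  field_simp
  have hI := I_sq
  linear_combination 2 * key - (2 * t * Complex.sin θ * Y) * hI

theorem f1_c2_cosh_le (u : ℝ) : |Real.cosh (u / 2)| ≤ Real.exp (|u| / 2) := by
  rw [abs_of_pos (Real.cosh_pos _), ← Real.cosh_abs, Real.cosh_eq]
  have e : |u / 2| = |u| / 2 := by rw [abs_div, abs_two]
  rw [e]
  have : Real.exp (-(|u| / 2)) ≤ Real.exp (|u| / 2) :=
    Real.exp_le_exp.2 (by linarith [abs_nonneg u])
  linarith

theorem f1_c2_sinh_le (u : ℝ) : |Real.sinh (u / 2)| ≤ Real.exp (|u| / 2) := by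
  refine le_trans ?_ (f1_c2_cosh_le u)
  rw [abs_of_pos (Real.cosh_pos (u / 2)), abs_le]
  constructor
  · have := Real.cosh_add_sinh (u / 2)
    have := Real.exp_pos (u / 2)
    linarith
  · have := Real.cosh_sub_sinh (u / 2)
    have := Real.exp_pos (-(u / 2))
    linarith

theorem f1_c2_dcosh (u : ℝ) : HasDerivAt (fun u : ℝ => Real.cosh (u / 2)) (Real.sinh (u / 2) / 2) u := by
  have h := (Real.hasDerivAt_cosh (u / 2)).comp u ((hasDerivAt_id u).div_const 2)
  refine h.congr_deriv ?_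
  ring

theorem f1_c2_dsinh (u : ℝ) : HasDerivAt (fun u : ℝ => Real.sinh (u / 2)) (Real.cosh (u / 2) / 2) u := by
  have h := (Real.hasDerivAt_sinh (u / 2)).comp u ((hasDerivAt_id u).div_const 2)
  refine h.congr_deriv ?_
  ring

theorem f1_c2_id1 (u : ℝ) :
    Real.sinh (u / 2) * Real.sinh u = Real.cosh (u / 2) * (Real.cosh u - 1) := by
  have h1 := Real.sinh_two_mul (u / 2)
  have h2 := Real.cosh_two_mul (u / 2)
  have h3 := Real.cosh_sq (u / 2)
  have e : 2 * (u / 2) = u := by ring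
  rw [e] at h1 h2
  rw [h1, h2]
  linear_combination (-Real.cosh (u / 2)) * h3

theorem f1_c2_id2 (u : ℝ) :
    Real.cosh (u / 2) * Real.sinh u = Real.sinh (u / 2) * (Real.cosh u - (-1)) := by
  have h1 := Real.sinh_two_mul (u / 2)
  have h2 := Real.cosh_two_mul (u / 2)
  have h3 := Real.cosh_sq (u / 2)
  have e : 2 * (u / 2) = u := by ring
  rw [e] at h1 h2
  rw [h1, h2]
  linear_combination (Real.sinh (u / 2)) * h3

/-- C2: the first order system in the complex strip -/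
theorem G1_system_pr {ν : ℂ} {ε : ℝ} (hν : ν.re = 0) (hε : ε = 1 ∨ ε = -1) (t : ℝ) {θ : ℂ}
    (h0 : 0 < θ.re) (h1 : θ.re < Real.pi) :
    HasDerivAt (fun θ : ℂ => G1 ν ε (ha t) θ)
      ((t - I / 2 + Complex.cos θ / (2 * Complex.sin θ)) * G1 ν ε (ha t) θ -
        ν / Complex.sin θ * cexp (-(I * θ)) * (ε * G1 ν ε (ha t) (Real.pi - θ))) θ := by
  have hθ : θ ∈ f1_c2_U := ⟨h0, h1⟩
  have hθ' : (Real.pi : ℂ) - θ ∈ f1_c2_U := by
    constructor
    · rw [Complex.sub_re, Complex.ofReal_re]; linarith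
    · rw [Complex.sub_re, Complex.ofReal_re]; linarith
  set q : ℂ := 1 + t * I with hq
  have hqre : q.re = 1 := by rw [hq]; simp
  have hcc : Continuous (fun u : ℝ => Real.cosh (u / 2)) := by fun_prop
  have hsc : Continuous (fun u : ℝ => Real.sinh (u / 2)) := by fun_prop
  set P : ℂ → ℂ := fun θ => ∫ u : ℝ, f1_c2_k ν q I (fun u => Real.cosh (u / 2)) θ u with hP
  set R : ℂ → ℂ := fun θ => ∫ u : ℝ, f1_c2_k ν q I (fun u => Real.sinh (u / 2)) θ u with hR
  set Pb : ℂ → ℂ := fun θ => ∫ u : ℝ, f1_c2_k ν q (-I) (fun u => Real.cosh (u / 2)) θ u with hPb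
  set Rb : ℂ → ℂ := fun θ => ∫ u : ℝ, f1_c2_k ν q (-I) (fun u => Real.sinh (u / 2)) θ u with hRb
  set c : ℂ := ((2 * Real.pi : ℝ) : ℂ) ^ (1 / 2 - ha t) * Gamma (ha t + 1 / 2) with hc
  have hhalf : -ha t - 1 / 2 = -q := by
    rw [hq]; unfold ha; ring
  have hG : ∀ z ∈ f1_c2_U, G1 ν ε (ha t) z = c * (Complex.sin z * (P z + ε * Rb z)) := by
    intro z hz
    have i1 := f1_c2_nice_int (f1_c2_nice hν (Or.inl rfl : (I : ℂ) = I ∨ (I : ℂ) = -I) hcc
      f1_c2_cosh_le hqre) hz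
    have i2 := f1_c2_nice_int (f1_c2_nice hν (Or.inr rfl : (-I : ℂ) = I ∨ (-I : ℂ) = -I) hsc
      f1_c2_sinh_le hqre) hz
    have e : ∫ u : ℝ, g1i ν ε (ha t) z u = P z + ε * Rb z := by
      rw [hP, hRb]
      simp only
      rw [← integral_const_mul, ← integral_add i1 (i2.const_mul _)]
      refine integral_congr_ae (Eventually.of_forall fun u => ?_)
      simp only [g1i, f1_c2_k, f1_c2_A, neg_mul, sub_neg_eq_add, hhalf]
      ring
    unfold G1
    rw [e, hc]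
    ring
  have hG' : G1 ν ε (ha t) (Real.pi - θ) = c * (Complex.sin θ * (Pb θ + ε * R θ)) := by
    rw [hG _ hθ', Complex.sin_pi_sub]
    have e1 : P (Real.pi - θ) = Pb θ := by
      rw [hP, hPb]
      simp only
      refine integral_congr_ae (Eventually.of_forall fun u => ?_)
      simp only [f1_c2_k, f1_c2_A, Complex.sin_pi_sub, Complex.cos_pi_sub]
      congr 2
      ring
    have e2 : Rb (Real.pi - θ) = R θ := by
      rw [hR, hRb]
      simp only
      refine integral_congr_ae (Eventually.of_forall fun u => ?_)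
      simp only [f1_c2_k, f1_c2_A, Complex.sin_pi_sub, Complex.cos_pi_sub]
      congr 2
      ring
    rw [e1, e2]
  have hdP : HasDerivAt P ((t - I / 2 - Complex.cos θ / (2 * Complex.sin θ)) * P θ -
      ν / Complex.sin θ * cexp (-(I * θ)) * R θ) θ := by
    have := f1_c2_J hν t (Or.inl rfl : (1 : ℝ) = 1 ∨ (1 : ℝ) = -1) hcc f1_c2_cosh_le f1_c2_dsinh
      f1_c2_sinh_le f1_c2_id1 hθ
    simpa only [Complex.ofReal_one, one_mul] using this
  have hdR : HasDerivAt Rb ((t - I / 2 - Complex.cos θ / (2 * Complex.sin θ)) * Rb θ -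
      ν / Complex.sin θ * cexp (-(I * θ)) * Pb θ) θ := by
    have := f1_c2_J hν t (Or.inr rfl : (-1 : ℝ) = 1 ∨ (-1 : ℝ) = -1) hsc f1_c2_sinh_le f1_c2_dcosh
      f1_c2_cosh_le f1_c2_id2 hθ
    simpa only [Complex.ofReal_neg, Complex.ofReal_one, neg_mul, one_mul] using this
  have hsin : Complex.sin θ ≠ 0 := by
    refine slitPlane_ne_zero (Or.inl ?_)
    rw [f1_c2_sin_re]
    exact mul_pos (Real.sin_pos_of_pos_of_lt_pi hθ.1 hθ.2) (Real.cosh_pos _)
  have hd := ((Complex.hasDerivAt_sin θ).mul (hdP.add (hdR.const_mul (ε : ℂ)))).const_mul c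
  have he : (fun θ : ℂ => G1 ν ε (ha t) θ) =ᶠ[𝓝 θ]
      (fun z => c * (Complex.sin z * (P z + ε * Rb z))) := by
    filter_upwards [f1_c2_open.mem_nhds hθ] with z hz
    exact hG z hz
  refine (hd.congr_of_eventuallyEq he).congr_deriv ?_
  rw [hG _ hθ, hG']
  have hε2 : (ε : ℂ) ^ 2 = 1 := by
    rcases hε with rfl | rfl <;> norm_num
  simp only [Pi.add_apply, Pi.mul_apply]
  generalize P θ = p
  generalize R θ = r
  generalize Pb θ = pb
  generalize Rb θ = rb
  generalize cexp (-(I * θ)) = E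
  field_simp
  linear_combination (2 * ν * E * r * c) * hε2

end Pool.Agent.JO.FM1

namespace Pool.Agent.JO.FM1

theorem G1_system : type_of% @G1_system_pr := @G1_system_pr

end Pool.Agent.JO.FM1
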