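import Pool.Agent.Lib_helper42.JO1.Defs
import Pool.Agent.Lib_helper45.JO.Defs2

/-! Project JO, part FM1, block C3: the first order system along a segment. -/

set_option autoImplicit false

namespace Pool.Agent.JO.FM1

open Complex Filter Topology MeasureTheory Set
open UpperHalfPlane hiding I
open Pool.Agent.JO.FM
open scoped MatrixGroups ComplexConjugate

theorem f1_C3_exp (κ : ℂ) (τ : ℝ) :
    HasDerivAt (fun τ : ℝ => cexp (κ * τ)) (κ * cexp (κ * τ)) τ := by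
  have h1 : HasDerivAt (fun τ : ℝ => κ * (τ : ℂ)) κ τ := by
    have := ((hasDerivAt_id τ).ofReal_comp.const_mul κ)
    simpa using this
  have h2 := h1.cexp
  rwa [mul_comm] at h2

theorem f1_C3_g {g h q : ℝ → ℂ} {κ : ℂ} {t M S : ℝ} (ht : 0 < t) (hκ : κ.re ≤ -t)
    (hg : ∀ σ ∈ Icc (0 : ℝ) 1, HasDerivAt g (κ * g σ - q σ * h σ) σ)
    (hq : ∀ σ ∈ Icc (0 : ℝ) 1, ‖q σ‖ ≤ M) (hM : 0 ≤ M)
    (hS : ∀ σ ∈ Icc (0 : ℝ) 1, ‖h σ‖ ≤ S) :
    ∀ σ ∈ Icc (0 : ℝ) 1, ‖g σ‖ ≤ Real.exp (-t * σ) * ‖g 0‖ + M * S / t := by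
  intro σ hσ
  have hS0 : 0 ≤ S := (norm_nonneg _).trans (hS 0 ⟨le_rfl, zero_le_one⟩)
  have hMS : 0 ≤ M * S := mul_nonneg hM hS0
  set a : ℝ := -κ.re with ha
  have hat : t ≤ a := by linarith
  have ha0 : 0 < a := by linarith
  have hA : ∀ τ ∈ Icc (0 : ℝ) 1, HasDerivAt (fun τ : ℝ => cexp (-κ * τ) * g τ)
      (-(cexp (-κ * τ) * (q τ * h τ))) τ := by
    intro τ hτ
    refine ((f1_C3_exp (-κ) τ).mul (hg τ hτ)).congr_deriv ?_
    ring
  have hB : ∀ τ : ℝ, HasDerivAt (fun τ : ℝ => ‖g 0‖ + M * S / a * (Real.exp (a * τ) - 1))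
      (M * S * Real.exp (a * τ)) τ := by
    intro τ
    have h1 : HasDerivAt (fun τ : ℝ => Real.exp (a * τ)) (Real.exp (a * τ) * a) τ := by
      have := ((hasDerivAt_id τ).const_mul a).exp
      simpa using this
    refine (((h1.sub_const 1).const_mul (M * S / a)).const_add ‖g 0‖).congr_deriv ?_
    field_simp
  have h2 := image_norm_le_of_norm_deriv_right_le_deriv_boundary (a := 0) (b := 1)
    (f := fun τ : ℝ => cexp (-κ * τ) * g τ)
    (f' := fun τ => -(cexp (-κ * τ) * (q τ * h τ)))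
    (B := fun τ : ℝ => ‖g 0‖ + M * S / a * (Real.exp (a * τ) - 1))
    (B' := fun τ => M * S * Real.exp (a * τ))
    (fun τ hτ => (hA τ hτ).continuousAt.continuousWithinAt)
    (fun τ hτ => (hA τ (Ico_subset_Icc_self hτ)).hasDerivWithinAt) (by simp) hB
    (fun τ hτ => ?_) hσ
  · simp only [norm_mul, Complex.norm_exp] at h2
    have e1 : (-κ * (σ : ℂ)).re = a * σ := by
      rw [mul_comm, re_ofReal_mul, neg_re, mul_comm]
    rw [e1] at h2
    have h3 : ‖g σ‖ = Real.exp (-(a * σ)) * (Real.exp (a * σ) * ‖g σ‖) := by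
      rw [← mul_assoc, ← Real.exp_add]
      simp
    rw [h3]
    have h4 := mul_le_mul_of_nonneg_left h2 (Real.exp_pos (-(a * σ))).le
    refine h4.trans ?_
    have h5 : Real.exp (-(a * σ)) * (‖g 0‖ + M * S / a * (Real.exp (a * σ) - 1)) =
        Real.exp (-(a * σ)) * ‖g 0‖ + M * S / a * (1 - Real.exp (-(a * σ))) := by
      have : Real.exp (-(a * σ)) * Real.exp (a * σ) = 1 := by
        rw [← Real.exp_add]
        simp
      linear_combination (M * S / a) * this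
    rw [h5]
    refine add_le_add (mul_le_mul_of_nonneg_right (Real.exp_le_exp.2 ?_) (norm_nonneg _)) ?_
    · nlinarith [hσ.1]
    · have h6 : M * S / a ≤ M * S / t := div_le_div_of_nonneg_left hMS ht hat
      have h7 : 0 ≤ M * S / a := by positivity
      nlinarith [Real.exp_pos (-(a * σ))]
  · have hτ1 : τ ∈ Icc (0 : ℝ) 1 := Ico_subset_Icc_self hτ
    rw [norm_neg, norm_mul, Complex.norm_exp, norm_mul]
    have e1 : (-κ * (τ : ℂ)).re = a * τ := by
      rw [mul_comm, re_ofReal_mul, neg_re, mul_comm]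
    rw [e1, mul_comm]
    exact mul_le_mul_of_nonneg_right (mul_le_mul (hq τ hτ1) (hS τ hτ1) (norm_nonneg _) hM)
      (Real.exp_pos _).le

theorem f1_C3_h {g h q : ℝ → ℂ} {t M G : ℝ} (ht : 0 < t)
    (hh : ∀ σ ∈ Icc (0 : ℝ) 1, HasDerivAt h (-(q σ * g σ)) σ)
    (hq : ∀ σ ∈ Icc (0 : ℝ) 1, ‖q σ‖ ≤ M) (hM : 0 ≤ M) (hG : 0 ≤ G)
    (hg : ∀ σ ∈ Icc (0 : ℝ) 1, ‖g σ‖ ≤ Real.exp (-t * σ) * ‖g 0‖ + G) :
    ∀ σ ∈ Icc (0 : ℝ) 1, ‖h σ - h 0‖ ≤ M * (‖g 0‖ / t + G) := by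
  intro σ hσ
  have hA : ∀ τ ∈ Icc (0 : ℝ) 1, HasDerivAt (fun τ : ℝ => h τ - h 0) (-(q τ * g τ)) τ :=
    fun τ hτ => (hh τ hτ).sub_const _
  have hB : ∀ τ : ℝ, HasDerivAt
      (fun τ : ℝ => M * (‖g 0‖ / t * (1 - Real.exp (-t * τ)) + G * τ))
      (M * (Real.exp (-t * τ) * ‖g 0‖ + G)) τ := by
    intro τ
    have h1 : HasDerivAt (fun τ : ℝ => Real.exp (-t * τ)) (Real.exp (-t * τ) * (-t)) τ := by
      have := ((hasDerivAt_id τ).const_mul (-t)).exp
      simpa using this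
    have h2 : HasDerivAt (fun τ : ℝ => G * τ) G τ := by
      simpa using (hasDerivAt_id τ).const_mul G
    refine ((((h1.const_sub 1).const_mul (‖g 0‖ / t)).add h2).const_mul M).congr_deriv ?_
    field_simp
  have h2 := image_norm_le_of_norm_deriv_right_le_deriv_boundary (a := 0) (b := 1)
    (f := fun τ : ℝ => h τ - h 0)
    (f' := fun τ => -(q τ * g τ))
    (B := fun τ : ℝ => M * (‖g 0‖ / t * (1 - Real.exp (-t * τ)) + G * τ))
    (B' := fun τ => M * (Real.exp (-t * τ) * ‖g 0‖ + G))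
    (fun τ hτ => (hA τ hτ).continuousAt.continuousWithinAt)
    (fun τ hτ => (hA τ (Ico_subset_Icc_self hτ)).hasDerivWithinAt) (by simp) hB
    (fun τ hτ => ?_) hσ
  · refine h2.trans (mul_le_mul_of_nonneg_left (add_le_add ?_ ?_) hM)
    · have : 0 ≤ ‖g 0‖ / t := by positivity
      nlinarith [Real.exp_pos (-t * σ)]
    · nlinarith [hσ.2]
  · have hτ1 : τ ∈ Icc (0 : ℝ) 1 := Ico_subset_Icc_self hτ
    rw [norm_neg, norm_mul]
    exact mul_le_mul (hq τ hτ1) (hg τ hτ1) (norm_nonneg _) hM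

/-- the crude bound -/
theorem f1_C3_crude {Y U Y' U' : ℝ → ℂ} {K : ℝ}
    (hY : ∀ σ ∈ Icc (0 : ℝ) 1, HasDerivAt Y (Y' σ) σ)
    (hU : ∀ σ ∈ Icc (0 : ℝ) 1, HasDerivAt U (U' σ) σ)
    (hY' : ∀ σ ∈ Icc (0 : ℝ) 1, ‖Y' σ‖ ≤ K * max ‖Y σ‖ ‖U σ‖)
    (hU' : ∀ σ ∈ Icc (0 : ℝ) 1, ‖U' σ‖ ≤ K * max ‖Y σ‖ ‖U σ‖) :
    ‖Y 1‖ ≤ (‖Y 0‖ + ‖U 0‖) * Real.exp K ∧ ‖U 1‖ ≤ (‖Y 0‖ + ‖U 0‖) * Real.exp K := by
  have h1 : ∀ σ ∈ Icc (0 : ℝ) 1, HasDerivAt (fun σ => (Y σ, U σ)) (Y' σ, U' σ) σ :=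
    fun σ hσ => (hY σ hσ).prodMk (hU σ hσ)
  have h2 := norm_le_gronwallBound_of_norm_deriv_right_le (f := fun σ => (Y σ, U σ))
    (f' := fun σ => (Y' σ, U' σ)) (δ := ‖Y 0‖ + ‖U 0‖) (K := K) (ε := 0) (a := 0) (b := 1)
    (fun σ hσ => (h1 σ hσ).continuousAt.continuousWithinAt)
    (fun σ hσ => (h1 σ (Ico_subset_Icc_self hσ)).hasDerivWithinAt) ?_ ?_ 1 ⟨zero_le_one, le_rfl⟩
  · rw [gronwallBound_ε0, sub_zero, mul_one] at h2
    exact ⟨(norm_fst_le (Y 1, U 1)).trans h2, (norm_snd_le (Y 1, U 1)).trans h2⟩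
  · rw [Prod.norm_def]
    exact max_le (le_add_of_nonneg_right (norm_nonneg _)) (le_add_of_nonneg_left (norm_nonneg _))
  · intro σ hσ
    have hσ' := Ico_subset_Icc_self hσ
    rw [add_zero, Prod.norm_def, Prod.norm_def]
    exact max_le (hY' σ hσ') (hU' σ hσ')

theorem f1_C3_sin (x y : ℝ) : normSq (Complex.sin (x + y * I)) =
    Real.sin x ^ 2 + Real.sinh y ^ 2 := by
  have h : Complex.sin (x + y * I) = ((Real.sin x * Real.cosh y : ℝ) : ℂ) +
      ((Real.cos x * Real.sinh y : ℝ) : ℂ) * I := by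
    rw [Complex.sin_add_mul_I]
    push_cast
    ring
  rw [h, normSq_add_mul_I]
  have h1 := Real.cosh_sq y
  have h2 := Real.sin_sq_add_cos_sq x
  have h3 : (Real.sin x * Real.cosh y) ^ 2 + (Real.cos x * Real.sinh y) ^ 2 =
      Real.sin x ^ 2 * Real.cosh y ^ 2 + Real.cos x ^ 2 * Real.sinh y ^ 2 := by ring
  rw [h3, h1]
  linear_combination (Real.sinh y ^ 2) * h2

theorem lg_sys_pr (ν : ℂ) {r R : ℝ} (hr : 0 < r) : ∃ C : ℝ, ∀ (t : ℝ) (y₁ y₂ : ℂ → ℂ),
    (∀ θ : ℂ, 0 < θ.re → θ.re < Real.pi →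
      HasDerivAt y₁ (t * y₁ θ - ν / Complex.sin θ * y₂ θ) θ) →
    (∀ θ : ℂ, 0 < θ.re → θ.re < Real.pi →
      HasDerivAt y₂ (-(t * y₂ θ) - ν / Complex.sin θ * y₁ θ) θ) →
    ∀ θ : ℂ, 0 < θ.re → θ.re ≤ 1 → r ≤ |θ.im| → |θ.im| ≤ R →
    (1 ≤ t → ‖cexp (t * (θ - (Real.pi / 2 : ℝ))) * y₂ θ - y₂ (Real.pi / 2 : ℝ)‖ ≤
        C / t * (‖y₁ (Real.pi / 2 : ℝ)‖ + ‖y₂ (Real.pi / 2 : ℝ)‖) ∧
      ‖cexp (t * (θ - (Real.pi / 2 : ℝ))) * y₁ θ‖ ≤
        C / t * (‖y₁ (Real.pi / 2 : ℝ)‖ + ‖y₂ (Real.pi / 2 : ℝ)‖)) ∧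
    (|t| ≤ 1 → ‖y₁ θ‖ + ‖y₂ θ‖ ≤
      C * (‖y₁ (Real.pi / 2 : ℝ)‖ + ‖y₂ (Real.pi / 2 : ℝ)‖)) := by
  have hpi := Real.pi_gt_three
  set D : ℝ := Real.pi / 2 + |R| + 1 with hD
  have hD1 : 1 ≤ D := by have := abs_nonneg R; linarith
  set c0 : ℝ := min (r ^ 2 / 4) (1 / 2) with hc0
  have hc0p : 0 < c0 := lt_min (by positivity) (by norm_num)
  set M : ℝ := D * (‖ν‖ / √c0) with hM
  have hM0 : 0 ≤ M := by positivity
  set T : ℝ := 2 * M ^ 2 + 1 with hT
  have hT1 : 1 ≤ T := by nlinarith [sq_nonneg M]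
  set K : ℝ := D * T + M with hK
  set E : ℝ := Real.exp K with hE
  have hE0 : 0 < E := Real.exp_pos K
  set P : ℝ := 1 + 2 * M * (1 + M) with hP
  have hP0 : 0 < P := by positivity
  refine ⟨2 * E + (E + 1) * T + (1 + M) * P, fun t y₁ y₂ hd1 hd2 θ h0 h1 h2 h3 => ?_⟩
  -- the segment
  set d : ℂ := θ - (Real.pi / 2 : ℝ) with hd
  have hdre : d.re = θ.re - Real.pi / 2 := by rw [hd, sub_re, ofReal_re]
  have hdim : d.im = θ.im := by rw [hd, sub_im, ofReal_im, sub_zero]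
  have hdre1 : d.re ≤ -(1 / 2) := by rw [hdre]; linarith
  have hdn : ‖d‖ ≤ D := by
    refine (Complex.norm_le_abs_re_add_abs_im d).trans ?_
    rw [hdim, abs_of_nonpos (by linarith), hdre, hD]
    have : R ≤ |R| := le_abs_self R
    linarith
  set γ : ℝ → ℂ := fun σ => (Real.pi / 2 : ℝ) + (σ : ℂ) * d with hγ
  have hγre : ∀ σ : ℝ, (γ σ).re = Real.pi / 2 + σ * d.re := by
    intro σ
    simp only [hγ]
    rw [add_re, ofReal_re, re_ofReal_mul]
  have hγim : ∀ σ : ℝ, (γ σ).im = σ * θ.im := by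
    intro σ
    simp only [hγ]
    rw [add_im, ofReal_im, im_ofReal_mul, hdim, zero_add]
  have hγ0 : γ 0 = (Real.pi / 2 : ℝ) := by simp [hγ]
  have hγ1 : γ 1 = θ := by
    simp only [hγ, ofReal_one, one_mul, hd]
    ring
  have hstrip : ∀ σ ∈ Icc (0 : ℝ) 1, 0 < (γ σ).re ∧ (γ σ).re < Real.pi := by
    intro σ hσ
    rw [hγre, hdre]
    constructor
    · nlinarith [hσ.1, hσ.2]
    · nlinarith [hσ.1, hσ.2]
  have hsin : ∀ σ ∈ Icc (0 : ℝ) 1, c0 ≤ ‖Complex.sin (γ σ)‖ ^ 2 := by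
    intro σ hσ
    have e : γ σ = ((γ σ).re : ℂ) + ((γ σ).im : ℂ) * I := (Complex.re_add_im _).symm
    rw [← normSq_eq_norm_sq, e, f1_C3_sin]
    rcases le_total σ (1 / 2) with h | h
    · have h4 : Real.pi / 4 ≤ (γ σ).re := by
        rw [hγre, hdre]
        nlinarith [hσ.1, hσ.2]
      have h5 : (γ σ).re ≤ Real.pi / 2 := by
        rw [hγre]
        nlinarith [hσ.1, hσ.2]
      have h6 : Real.sin (Real.pi / 4) ≤ Real.sin (γ σ).re :=
        Real.sin_le_sin_of_le_of_le_pi_div_two (by linarith) h5 h4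
      rw [Real.sin_pi_div_four] at h6
      have h7 : (Real.sqrt 2 / 2) ^ 2 ≤ Real.sin (γ σ).re ^ 2 :=
        pow_le_pow_left₀ (by positivity) h6 2
      have h8 : (Real.sqrt 2 / 2) ^ 2 = 1 / 2 := by
        rw [div_pow, Real.sq_sqrt (by norm_num)]
        norm_num
      have h9 : c0 ≤ 1 / 2 := min_le_right _ _
      nlinarith [sq_nonneg (Real.sinh (γ σ).im)]
    · have h4 : r / 2 ≤ |(γ σ).im| := by
        rw [hγim, abs_mul, abs_of_nonneg hσ.1]
        nlinarith [abs_nonneg θ.im]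
      have h5 : |(γ σ).im| ^ 2 ≤ Real.sinh (γ σ).im ^ 2 := by
        have h6 : |(γ σ).im| ≤ Real.sinh |(γ σ).im| := Real.self_le_sinh_iff.2 (abs_nonneg _)
        have h7 : Real.sinh |(γ σ).im| ^ 2 = Real.sinh (γ σ).im ^ 2 := by
          rcases abs_cases (γ σ).im with ⟨h, _⟩ | ⟨h, _⟩
          · rw [h]
          · rw [h, Real.sinh_neg, neg_sq]
        rw [← h7]
        exact pow_le_pow_left₀ (abs_nonneg _) h6 2
      have h9 : c0 ≤ r ^ 2 / 4 := min_le_left _ _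
      have h10 : (r / 2) ^ 2 ≤ |(γ σ).im| ^ 2 := pow_le_pow_left₀ (by positivity) h4 2
      nlinarith [sq_nonneg (Real.sin (γ σ).re)]
  set q : ℝ → ℂ := fun σ => d * (ν / Complex.sin (γ σ)) with hq
  have hqb : ∀ σ ∈ Icc (0 : ℝ) 1, ‖q σ‖ ≤ M := by
    intro σ hσ
    have h4 := hsin σ hσ
    have h5 : √c0 ≤ ‖Complex.sin (γ σ)‖ := Real.sqrt_le_iff.2 ⟨norm_nonneg _, h4⟩
    simp only [hq]
    rw [norm_mul, norm_div, hM]
    exact mul_le_mul hdn (div_le_div_of_nonneg_left (norm_nonneg _) (Real.sqrt_pos.2 hc0p) h5)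
      (by positivity) (by positivity)
  have hγd : ∀ σ : ℝ, HasDerivAt γ d σ := by
    intro σ
    have := ((hasDerivAt_id σ).ofReal_comp.mul_const d).const_add (((Real.pi / 2 : ℝ)) : ℂ)
    rw [ofReal_one, one_mul] at this
    exact this
  set Y : ℝ → ℂ := fun σ => y₁ (γ σ) with hY
  set U : ℝ → ℂ := fun σ => y₂ (γ σ) with hU
  have hYd : ∀ σ ∈ Icc (0 : ℝ) 1, HasDerivAt Y (t * d * Y σ - q σ * U σ) σ := by
    intro σ hσ
    have h5 := (hd1 (γ σ) (hstrip σ hσ).1 (hstrip σ hσ).2).comp σ (hγd σ)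
    refine h5.congr_deriv ?_
    simp only [hq, hY, hU]
    ring
  have hUd : ∀ σ ∈ Icc (0 : ℝ) 1, HasDerivAt U (-(t * d * U σ) - q σ * Y σ) σ := by
    intro σ hσ
    have h5 := (hd2 (γ σ) (hstrip σ hσ).1 (hstrip σ hσ).2).comp σ (hγd σ)
    refine h5.congr_deriv ?_
    simp only [hq, hY, hU]
    ring
  have hY0 : Y 0 = y₁ (Real.pi / 2 : ℝ) := by simp only [hY, hγ0]
  have hU0 : U 0 = y₂ (Real.pi / 2 : ℝ) := by simp only [hU, hγ0]
  have hY1 : Y 1 = y₁ θ := by simp only [hY, hγ1]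
  have hU1 : U 1 = y₂ θ := by simp only [hU, hγ1]
  rw [← hY0, ← hU0, ← hY1, ← hU1]
  set N : ℝ := ‖Y 0‖ + ‖U 0‖ with hN
  have hN0 : 0 ≤ N := by positivity
  have hYN : ‖Y 0‖ ≤ N := le_add_of_nonneg_right (norm_nonneg _)
  have hUN : ‖U 0‖ ≤ N := le_add_of_nonneg_left (norm_nonneg _)
  -- the crude bound for `|t| ≤ T`
  have hcrude : |t| ≤ T → ‖Y 1‖ ≤ N * E ∧ ‖U 1‖ ≤ N * E := by
    intro htT
    have htd : ‖(t : ℂ) * d‖ ≤ D * T := by
      rw [norm_mul, norm_real, Real.norm_eq_abs, mul_comm]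
      exact mul_le_mul hdn htT (abs_nonneg _) (by positivity)
    refine f1_C3_crude hYd hUd (fun σ hσ => ?_) (fun σ hσ => ?_)
    · refine (norm_sub_le _ _).trans ?_
      rw [norm_mul, norm_mul (q σ), hK, add_mul]
      exact add_le_add (mul_le_mul htd (le_max_left _ _) (norm_nonneg _) (by positivity))
        (mul_le_mul (hqb σ hσ) (le_max_right _ _) (norm_nonneg _) hM0)
    · refine (norm_sub_le _ _).trans ?_
      rw [norm_neg, norm_mul, norm_mul (q σ), hK, add_mul]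
      exact add_le_add (mul_le_mul htd (le_max_right _ _) (norm_nonneg _) (by positivity))
        (mul_le_mul (hqb σ hσ) (le_max_left _ _) (norm_nonneg _) hM0)
  have hpos1 : 0 ≤ (E + 1) * T := by positivity
  have hpos2 : 0 ≤ (1 + M) * P := by positivity
  constructor
  · intro ht
    have ht0 : 0 < t := by linarith
    rcases le_total t T with htT | htT
    · -- small `t`
      obtain ⟨h4, h5⟩ := hcrude (by rwa [abs_of_pos ht0])
      have h6 : ‖cexp (t * d)‖ ≤ 1 := by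
        rw [Complex.norm_exp]
        refine Real.exp_le_one_iff.2 ?_
        rw [re_ofReal_mul]
        nlinarith
      have h7 : (E + 1) * N ≤ (2 * E + (E + 1) * T + (1 + M) * P) / t * N := by
        refine mul_le_mul_of_nonneg_right ?_ hN0
        rw [le_div_iff₀ ht0]
        nlinarith
      constructor
      · refine (norm_sub_le _ _).trans (le_trans ?_ h7)
        rw [norm_mul]
        have : ‖cexp (t * d)‖ * ‖U 1‖ ≤ 1 * (N * E) :=
          mul_le_mul h6 h5 (norm_nonneg _) zero_le_one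
        linarith
      · refine le_trans ?_ h7
        rw [norm_mul]
        have : ‖cexp (t * d)‖ * ‖Y 1‖ ≤ 1 * (N * E) :=
          mul_le_mul h6 h4 (norm_nonneg _) zero_le_one
        linarith
    · -- large `t`
      set g : ℝ → ℂ := fun σ => cexp (t * d * σ) * Y σ with hg
      set h : ℝ → ℂ := fun σ => cexp (t * d * σ) * U σ with hh
      have hgd : ∀ σ ∈ Icc (0 : ℝ) 1, HasDerivAt g (2 * (t * d) * g σ - q σ * h σ) σ := by
        intro σ hσ
        refine ((f1_C3_exp (t * d) σ).mul (hYd σ hσ)).congr_deriv ?_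
        simp only [hg, hh]
        ring
      have hhd : ∀ σ ∈ Icc (0 : ℝ) 1, HasDerivAt h (-(q σ * g σ)) σ := by
        intro σ hσ
        refine ((f1_C3_exp (t * d) σ).mul (hUd σ hσ)).congr_deriv ?_
        simp only [hg, hh]
        ring
      have hκ : (2 * ((t : ℂ) * d)).re ≤ -t := by
        have e : 2 * ((t : ℂ) * d) = ((2 * t : ℝ) : ℂ) * d := by push_cast; ring
        rw [e, re_ofReal_mul]
        nlinarith
      have hcont : ContinuousOn (fun σ : ℝ => ‖h σ‖) (Icc 0 1) :=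
        ContinuousOn.norm fun σ hσ => (hhd σ hσ).continuousAt.continuousWithinAt
      obtain ⟨σ₀, hσ₀, hmax⟩ := isCompact_Icc.exists_isMaxOn (nonempty_Icc.2 zero_le_one) hcont
      set S : ℝ := ‖h σ₀‖ with hS
      have hS0 : 0 ≤ S := norm_nonneg _
      have hSb : ∀ σ ∈ Icc (0 : ℝ) 1, ‖h σ‖ ≤ S := fun σ hσ => hmax hσ
      have hgb := f1_C3_g ht0 hκ hgd hqb hM0 hSb
      have hhb := f1_C3_h ht0 hhd hqb hM0 (G := M * S / t) (by positivity) hgb
      have hg0 : g 0 = Y 0 := by simp [hg]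
      have hh0 : h 0 = U 0 := by simp [hh]
      rw [hg0] at hgb hhb
      rw [hh0] at hhb
      have hYt : ‖Y 0‖ / t ≤ N / t := div_le_div_of_nonneg_right hYN ht0.le
      have hNt : N / t ≤ N := div_le_self hN0 ht
      have hSle : S ≤ 2 * (1 + M) * N := by
        have h4 := hhb σ₀ hσ₀
        have h5 : S ≤ ‖h σ₀ - U 0‖ + ‖U 0‖ := by
          have := norm_add_le (h σ₀ - U 0) (U 0)
          rwa [sub_add_cancel] at this
        have h6 : M * (M * S / t) ≤ S / 2 := by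
          rw [mul_div_assoc', div_le_div_iff₀ ht0 (by norm_num)]
          have : 2 * M ^ 2 ≤ t := by linarith
          nlinarith
        have h7 : M * (‖Y 0‖ / t) ≤ M * N := mul_le_mul_of_nonneg_left (hYt.trans hNt) hM0
        nlinarith
      have hMSt : M * S / t ≤ 2 * M * (1 + M) * (N / t) := by
        rw [mul_div_assoc', div_le_div_iff_of_pos_right ht0]
        nlinarith
      have hexp : Real.exp (-t * 1) * ‖Y 0‖ ≤ N / t := by
        have h4 : Real.exp (-t * 1) ≤ 1 / t := by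
          rw [mul_one, Real.exp_neg, ← one_div]
          refine one_div_le_one_div_of_le ht0 ?_
          have := Real.add_one_le_exp t
          linarith
        calc Real.exp (-t * 1) * ‖Y 0‖ ≤ 1 / t * N :=
              mul_le_mul h4 hYN (norm_nonneg _) (by positivity)
          _ = N / t := by ring
      have hone : (1 : ℝ) ∈ Icc (0 : ℝ) 1 := ⟨zero_le_one, le_rfl⟩
      have hfin1 := hgb 1 hone
      have hfin2 := hhb 1 hone
      simp only [hg, hh, ofReal_one, mul_one] at hfin1 hfin2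
      rw [mul_one] at hexp
      have hNt0 : 0 ≤ N / t := by positivity
      have hC : (1 + M) * P * (N / t) ≤ (2 * E + (E + 1) * T + (1 + M) * P) / t * N := by
        rw [div_mul_eq_mul_div, ← mul_div_assoc]
        refine div_le_div_of_nonneg_right (mul_le_mul_of_nonneg_right ?_ hN0) ht0.le
        linarith
      constructor
      · refine le_trans ?_ hC
        refine hfin2.trans ?_
        have hPe : P * (N / t) = N / t + 2 * M * (1 + M) * (N / t) := by rw [hP]; ring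
        have h4 : ‖Y 0‖ / t + M * S / t ≤ P * (N / t) := by
          rw [hPe]
          exact add_le_add hYt hMSt
        have h5 := mul_le_mul_of_nonneg_left h4 hM0
        refine h5.trans ?_
        have h6 : 0 ≤ P * (N / t) := by positivity
        have h7 : (1 + M) * P * (N / t) = P * (N / t) + M * (P * (N / t)) := by ring
        rw [h7]
        linarith
      · refine le_trans ?_ hC
        refine hfin1.trans ?_
        have hPe : P * (N / t) = N / t + 2 * M * (1 + M) * (N / t) := by rw [hP]; ring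
        have h4 : Real.exp (-t) * ‖Y 0‖ + M * S / t ≤ P * (N / t) := by
          rw [hPe]
          exact add_le_add hexp hMSt
        refine h4.trans ?_
        have h6 : 0 ≤ M * (P * (N / t)) := by positivity
        have h7 : (1 + M) * P * (N / t) = P * (N / t) + M * (P * (N / t)) := by ring
        rw [h7]
        linarith
  · intro ht1
    obtain ⟨h4, h5⟩ := hcrude (ht1.trans hT1)
    have : 0 ≤ ((E + 1) * T + (1 + M) * P) * N := by positivity
    nlinarith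


end Pool.Agent.JO.FM1

namespace Pool.Agent.JO.FM1

theorem lg_sys : type_of% @lg_sys_pr := @lg_sys_pr

end Pool.Agent.JO.FM1
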