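import Pool.Agent.Lib_helper42.JO1.Defs
import Pool.Agent.Lib_helper45.JO.Defs2
import Pool.Agent.Lib_helper42.JO1F.C2
import Pool.Agent.Lib_helper42.JO1F.C3
import Pool.Agent.Lib_helper42.JO1F.K7
import Pool.Agent.Lib_helper42.JO1F.M2

/-!
-/

set_option autoImplicit false

namespace Pool.Agent.JO.FM1

open Complex Filter Topology MeasureTheory Set
open UpperHalfPlane hiding I
open Pool.Agent.JO.FM
open scoped MatrixGroups ComplexConjugate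

section

variable {ν : ℂ} {ε : ℝ}

theorem f1_C4_ha_re (t : ℝ) : (ha t).re = 1 / 2 := by
  simp [ha]

theorem f1_C4_ha (t : ℝ) : 0 < (ha t).re := by
  rw [f1_C4_ha_re]
  norm_num

theorem f1_C4_cont_ha : Continuous ha := by
  unfold ha
  fun_prop

theorem f1_C4_half_mem : 0 < (((Real.pi / 2 : ℝ) : ℂ)).re ∧
    (((Real.pi / 2 : ℝ) : ℂ)).re < Real.pi := by
  constructor
  · rw [ofReal_re]; positivity
  · rw [ofReal_re]; linarith [Real.pi_pos]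

theorem f1_C4_sin {θ : ℂ} (h0 : 0 < θ.re) (h1 : θ.re < Real.pi) : 0 < (Complex.sin θ).re := by
  have h : (Complex.sin θ).re = Real.sin θ.re * Real.cosh θ.im := by
    rw [Complex.sin_eq]
    simp only [add_re, mul_re, Complex.cosh_ofReal_re, Complex.cosh_ofReal_im, mul_zero,
      Complex.sin_ofReal_re, Complex.I_re, Complex.I_im, mul_im, Complex.cos_ofReal_im, Complex.sinh_ofReal_im,
      Complex.sinh_ofReal_re, sub_zero, zero_mul, Complex.cos_ofReal_re, add_zero, mul_one]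
  rw [h]
  exact mul_pos (Real.sin_pos_of_pos_of_lt_pi h0 h1) (Real.cosh_pos _)

theorem f1_C4_sin_ne {θ : ℂ} (h0 : 0 < θ.re) (h1 : θ.re < Real.pi) : Complex.sin θ ≠ 0 := by
  intro h
  have := f1_C4_sin h0 h1
  rw [h] at this
  simp at this

theorem f1_C4_sin_le {R : ℝ} {θ : ℂ} (h : |θ.im| ≤ R) : ‖Complex.sin θ‖ ≤ Real.exp R := by
  have e : Complex.sin θ = (cexp (-θ * I) - cexp (θ * I)) * I / 2 := rfl
  have h1 : ‖cexp (-θ * I)‖ ≤ Real.exp R := by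
    rw [Complex.norm_exp]
    apply Real.exp_le_exp.2
    have : (-θ * I).re = θ.im := by simp
    rw [this]
    exact (le_abs_self _).trans h
  have h2 : ‖cexp (θ * I)‖ ≤ Real.exp R := by
    rw [Complex.norm_exp]
    apply Real.exp_le_exp.2
    have : (θ * I).re = -θ.im := by simp
    rw [this]
    exact (neg_le_abs _).trans h
  rw [e, norm_div, norm_mul, Complex.norm_I, mul_one]
  have h3 := norm_sub_le (cexp (-θ * I)) (cexp (θ * I))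
  simp only [Complex.norm_ofNat]
  linarith

/-- the power of the sine -/
theorem f1_C4_pow {θ : ℂ} (h0 : 0 < θ.re) (h1 : θ.re < Real.pi) :
    HasDerivAt (fun θ : ℂ => (Complex.sin θ) ^ (-(1 / 2) : ℂ))
      (-(1 / 2) * (Complex.cos θ / Complex.sin θ) * (Complex.sin θ) ^ (-(1 / 2) : ℂ)) θ := by
  have hs := f1_C4_sin h0 h1
  have hne := f1_C4_sin_ne h0 h1
  have h := (Complex.hasDerivAt_sin θ).cpow_const (c := (-(1 / 2) : ℂ)) (Or.inl hs)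
  have e : (Complex.sin θ) ^ ((-(1 / 2) : ℂ) - 1) =
      (Complex.sin θ) ^ (-(1 / 2) : ℂ) / Complex.sin θ := by
    rw [Complex.cpow_sub _ _ hne, Complex.cpow_one]
  rw [e] at h
  convert h using 1
  field_simp

theorem f1_C4_pow_sq {θ : ℂ} (h0 : 0 < θ.re) (h1 : θ.re < Real.pi) :
    Complex.sin θ * ((Complex.sin θ) ^ (-(1 / 2) : ℂ) * (Complex.sin θ) ^ (-(1 / 2) : ℂ)) = 1 := by
  have hne := f1_C4_sin_ne h0 h1
  rw [← Complex.cpow_add _ _ hne]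
  have : (-(1 / 2) : ℂ) + -(1 / 2) = -1 := by norm_num
  rw [this, Complex.cpow_neg_one, mul_inv_cancel₀ hne]

theorem f1_C4_pow_conj {θ : ℂ} (h0 : 0 < θ.re) (h1 : θ.re < Real.pi) :
    conj ((Complex.sin (conj θ)) ^ (-(1 / 2) : ℂ)) = (Complex.sin θ) ^ (-(1 / 2) : ℂ) := by
  have hs := f1_C4_sin h0 h1
  have harg : (Complex.sin θ).arg ≠ Real.pi := by
    have h2 := Complex.abs_arg_lt_pi_div_two_iff.2 (Or.inl hs)
    intro h
    rw [h, abs_of_pos Real.pi_pos] at h2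
    linarith [Real.pi_pos]
  have h3 := Complex.conj_cpow (Complex.sin θ) (-(1 / 2) : ℂ) harg
  have h4 : conj (-(1 / 2) : ℂ) = (-(1 / 2) : ℂ) := by
    apply Complex.ext <;> simp
  rw [h4, ← Complex.sin_conj] at h3
  rw [h3, Complex.conj_conj]

/-- the normalised functions -/
noncomputable def f1_C4_k1 (ν : ℂ) (ε t : ℝ) (θ : ℂ) : ℂ :=
  cexp (I * θ / 2) * (Complex.sin θ) ^ (-(1 / 2) : ℂ) * G1 ν ε (ha t) θ

noncomputable def f1_C4_k2 (ν : ℂ) (ε t : ℝ) (θ : ℂ) : ℂ :=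
  cexp (-(I * θ / 2)) * (Complex.sin θ) ^ (-(1 / 2) : ℂ) * (ε * G1 ν ε (ha t) (Real.pi - θ))

theorem f1_C4_d1 (hν : ν.re = 0) (hε : ε = 1 ∨ ε = -1) (t : ℝ) {θ : ℂ} (h0 : 0 < θ.re)
    (h1 : θ.re < Real.pi) : HasDerivAt (f1_C4_k1 ν ε t)
      (t * f1_C4_k1 ν ε t θ - ν / Complex.sin θ * f1_C4_k2 ν ε t θ) θ := by
  have hne := f1_C4_sin_ne h0 h1
  have hG := G1_system hν hε t h0 h1
  have hp := f1_C4_pow h0 h1
  have he : HasDerivAt (fun θ : ℂ => cexp (I * θ / 2)) (cexp (I * θ / 2) * (I / 2)) θ := by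
    have h2 : HasDerivAt (fun θ : ℂ => I * θ / 2) (I / 2) θ := by
      simpa using ((hasDerivAt_id θ).const_mul I).div_const 2
    exact h2.cexp
  have h := (he.mul hp).mul hG
  have e1 : cexp (-(I * θ / 2)) = cexp (I * θ / 2) * cexp (-(I * θ)) := by
    rw [← Complex.exp_add]
    congr 1
    ring
  have h' : HasDerivAt (f1_C4_k1 ν ε t) _ θ := h
  refine h'.congr_deriv ?_
  unfold f1_C4_k1 f1_C4_k2
  rw [e1]
  simp only [Pi.mul_apply]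
  field_simp
  ring

theorem f1_C4_d2 (hν : ν.re = 0) (hε : ε = 1 ∨ ε = -1) (t : ℝ) {θ : ℂ} (h0 : 0 < θ.re)
    (h1 : θ.re < Real.pi) : HasDerivAt (f1_C4_k2 ν ε t)
      (-(t * f1_C4_k2 ν ε t θ) - ν / Complex.sin θ * f1_C4_k1 ν ε t θ) θ := by
  have hne := f1_C4_sin_ne h0 h1
  have hε2 : (ε : ℂ) * ε = 1 := by
    rcases hε with h | h <;> simp [h]
  have h0' : 0 < ((Real.pi : ℂ) - θ).re := by
    rw [sub_re, ofReal_re]
    linarith
  have h1' : ((Real.pi : ℂ) - θ).re < Real.pi := by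
    rw [sub_re, ofReal_re]
    linarith
  have hG := G1_system hν hε t h0' h1'
  rw [Complex.sin_pi_sub, Complex.cos_pi_sub, sub_sub_cancel] at hG
  have hsub : HasDerivAt (fun θ : ℂ => (Real.pi : ℂ) - θ) (-1) θ := by
    simpa using (hasDerivAt_id θ).const_sub (Real.pi : ℂ)
  have hG2 := (hG.comp θ hsub).const_mul (ε : ℂ)
  have hp := f1_C4_pow h0 h1
  have he : HasDerivAt (fun θ : ℂ => cexp (-(I * θ / 2))) (cexp (-(I * θ / 2)) * (-(I / 2))) θ := by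
    have h2 : HasDerivAt (fun θ : ℂ => -(I * θ / 2)) (-(I / 2)) θ := by
      have h3 := (((hasDerivAt_id θ).const_mul I).div_const 2).neg
      rw [mul_one] at h3
      exact h3
    exact h2.cexp
  have h := (he.mul hp).mul hG2
  have e1 : cexp (I * θ / 2) = -(cexp (-(I * θ / 2)) * cexp (-(I * ((Real.pi : ℂ) - θ)))) := by
    rw [← Complex.exp_add, show -(I * θ / 2) + -(I * ((Real.pi : ℂ) - θ)) =
      I * θ / 2 - Real.pi * I by ring, Complex.exp_sub, Complex.exp_pi_mul_I]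
    ring
  have h' : HasDerivAt (f1_C4_k2 ν ε t) _ θ := h
  refine h'.congr_deriv ?_
  unfold f1_C4_k1 f1_C4_k2
  rw [e1]
  simp only [Pi.mul_apply, Function.comp_apply]
  set p := (Complex.sin θ) ^ (-(1 / 2) : ℂ) with hp'
  set e := cexp (-(I * θ / 2)) with he'
  set E := cexp (-(I * ((Real.pi : ℂ) - θ))) with hE'
  set A := G1 ν ε (ha t) θ with hA'
  set B := G1 ν ε (ha t) (Real.pi - θ) with hB'
  field_simp
  linear_combination (2 * ν * e * p * E * A) * hε2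

theorem f1_C4_n1 (t : ℝ) : ‖f1_C4_k1 ν ε t (Real.pi / 2 : ℝ)‖ =
    ‖G1 ν ε (ha t) (Real.pi / 2 : ℝ)‖ := by
  unfold f1_C4_k1
  have e1 : Complex.sin ((Real.pi / 2 : ℝ) : ℂ) = 1 := by
    rw [← Complex.ofReal_sin, Real.sin_pi_div_two, Complex.ofReal_one]
  have e2 : I * ((Real.pi / 2 : ℝ) : ℂ) / 2 = ((Real.pi / 4 : ℝ) : ℂ) * I := by
    push_cast
    ring
  rw [e1, Complex.one_cpow, mul_one, norm_mul, e2, Complex.norm_exp_ofReal_mul_I, one_mul]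

theorem f1_C4_n2 (hε : ε = 1 ∨ ε = -1) (t : ℝ) : ‖f1_C4_k2 ν ε t (Real.pi / 2 : ℝ)‖ =
    ‖G1 ν ε (ha t) (Real.pi / 2 : ℝ)‖ := by
  unfold f1_C4_k2
  have e1 : Complex.sin ((Real.pi / 2 : ℝ) : ℂ) = 1 := by
    rw [← Complex.ofReal_sin, Real.sin_pi_div_two, Complex.ofReal_one]
  have e2 : -(I * ((Real.pi / 2 : ℝ) : ℂ) / 2) = ((-(Real.pi / 4) : ℝ) : ℂ) * I := by
    push_cast
    ring
  have e3 : (Real.pi : ℂ) - ((Real.pi / 2 : ℝ) : ℂ) = ((Real.pi / 2 : ℝ) : ℂ) := by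
    push_cast
    ring
  have e4 : ‖(ε : ℂ)‖ = 1 := by
    rcases hε with h | h <;> simp [h]
  rw [e1, Complex.one_cpow, mul_one, norm_mul, e2, Complex.norm_exp_ofReal_mul_I, one_mul, e3,
    norm_mul, e4, one_mul]

theorem f1_C4_bdd (hν : ν.re = 0) : ∃ B : ℝ, 0 ≤ B ∧ ∀ t : ℝ, |t| ≤ 1 →
    ‖G1 ν ε (ha t) (Real.pi / 2 : ℝ)‖ ≤ B := by
  have h : ContinuousOn (fun t : ℝ => G1 ν ε (ha t) (Real.pi / 2 : ℝ)) (Icc (-1) 1) := by
    have h1 := (G1_diff_s (ε := ε) hν f1_C4_half_mem.1 f1_C4_half_mem.2).continuousOn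
    exact h1.comp f1_C4_cont_ha.continuousOn (fun t _ => f1_C4_ha t)
  obtain ⟨B, hB⟩ := isCompact_Icc.exists_bound_of_continuousOn h
  refine ⟨B, (norm_nonneg _).trans (hB 0 (by norm_num)), fun t ht => hB t ?_⟩
  rw [mem_Icc]
  exact abs_le.mp ht

/-- `Ph1` in terms of the normalised functions -/
theorem f1_C4_ph1 (t : ℝ) {θ : ℂ} (h0 : 0 < θ.re) (h1 : θ.re < Real.pi) :
    Ph1 ν ε t θ = Complex.sin θ * (f1_C4_k1 ν ε t θ * conj (f1_C4_k1 ν ε t (conj θ))) := by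
  have e1 := f1_C4_pow_sq h0 h1
  have e2 := f1_C4_pow_conj h0 h1
  have e3 : conj (cexp (I * conj θ / 2)) = cexp (-(I * θ / 2)) := by
    rw [← Complex.exp_conj]
    congr 1
    rw [map_div₀, map_mul, Complex.conj_I, Complex.conj_conj, map_ofNat]
    ring
  have e4 : cexp (I * θ / 2) * cexp (-(I * θ / 2)) = 1 := by
    rw [← Complex.exp_add, add_neg_cancel, Complex.exp_zero]
  unfold f1_C4_k1 Ph1
  rw [map_mul, map_mul, e2, e3]
  set p := (Complex.sin θ) ^ (-(1 / 2) : ℂ) with hp'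
  set a := cexp (I * θ / 2) with ha'
  set b := cexp (-(I * θ / 2)) with hb'
  set A := G1 ν ε (ha t) θ with hA'
  set B := conj (G1 ν ε (ha t) (conj θ)) with hB'
  linear_combination (-(A * B) * (Complex.sin θ * (p * p))) * e4 - (A * B) * e1

theorem f1_C4_ph2 (hε : ε = 1 ∨ ε = -1) (t : ℝ) {θ : ℂ} (h0 : 0 < θ.re) (h1 : θ.re < Real.pi) :
    Ph1 ν ε t (Real.pi - θ) =
      Complex.sin θ * (f1_C4_k2 ν ε t θ * conj (f1_C4_k2 ν ε t (conj θ))) := by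
  have hε2 : (ε : ℂ) * ε = 1 := by
    rcases hε with h | h <;> simp [h]
  have e1 := f1_C4_pow_sq h0 h1
  have e2 := f1_C4_pow_conj h0 h1
  have e3 : conj (cexp (-(I * conj θ / 2))) = cexp (I * θ / 2) := by
    rw [← Complex.exp_conj]
    congr 1
    rw [map_neg, map_div₀, map_mul, Complex.conj_I, Complex.conj_conj, map_ofNat]
    ring
  have e4 : cexp (I * θ / 2) * cexp (-(I * θ / 2)) = 1 := by
    rw [← Complex.exp_add, add_neg_cancel, Complex.exp_zero]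
  have e5 : conj ((Real.pi : ℂ) - θ) = (Real.pi : ℂ) - conj θ := by
    rw [map_sub, Complex.conj_ofReal]
  unfold f1_C4_k2 Ph1
  rw [map_mul, map_mul, map_mul, e2, e3, e5, Complex.conj_ofReal]
  set p := (Complex.sin θ) ^ (-(1 / 2) : ℂ) with hp'
  set a := cexp (I * θ / 2) with ha'
  set b := cexp (-(I * θ / 2)) with hb'
  set A := G1 ν ε (ha t) (Real.pi - θ) with hA'
  set B := conj (G1 ν ε (ha t) ((Real.pi : ℂ) - conj θ)) with hB'
  linear_combination (-(A * B) * (Complex.sin θ * (p * p)) * (ε * ε)) * e4 -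
    (A * B) * (ε * ε) * e1 - A * B * hε2

/-- the product of two approximations -/
theorem f1_C4_prod {A u v : ℂ} {e n : ℝ} (hA : ‖A‖ ≤ n) (he : 0 ≤ e) (hu : ‖u - A‖ ≤ e * n)
    (hv : ‖v - conj A‖ ≤ e * n) : ‖u * v - ((‖A‖ ^ 2 : ℝ) : ℂ)‖ ≤ (2 * e + e ^ 2) * n ^ 2 := by
  have hn : 0 ≤ n := (norm_nonneg _).trans hA
  have h1 : A * conj A = ((‖A‖ ^ 2 : ℝ) : ℂ) := by
    rw [mul_conj, normSq_eq_norm_sq]
  have h2 : u * v - ((‖A‖ ^ 2 : ℝ) : ℂ) = (u - A) * (v - conj A) + A * (v - conj A) +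
      (u - A) * conj A := by
    rw [← h1]
    ring
  rw [h2]
  have hc : ‖conj A‖ ≤ n := by rw [Complex.norm_conj]; exact hA
  have hen : 0 ≤ e * n := by positivity
  calc ‖(u - A) * (v - conj A) + A * (v - conj A) + (u - A) * conj A‖
      ≤ ‖(u - A) * (v - conj A)‖ + ‖A * (v - conj A)‖ + ‖(u - A) * conj A‖ := norm_add₃_le
    _ ≤ (e * n) * (e * n) + n * (e * n) + (e * n) * n := by
        rw [norm_mul, norm_mul, norm_mul]
        gcongr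
    _ = _ := by ring

/-- the two products for a solution of the system -/
theorem f1_C4_pair (ν : ℂ) {r R C₀ : ℝ} (hr : 0 < r) (hC₀ : 0 ≤ C₀) :
    ∃ C : ℝ, 0 ≤ C ∧ ∀ (t : ℝ) (y₁ y₂ : ℂ → ℂ) (g : ℝ), 1 ≤ t →
    (∀ θ : ℂ, 0 < θ.re → θ.re < Real.pi →
      HasDerivAt y₁ (t * y₁ θ - ν / Complex.sin θ * y₂ θ) θ) →
    (∀ θ : ℂ, 0 < θ.re → θ.re < Real.pi →
      HasDerivAt y₂ (-(t * y₂ θ) - ν / Complex.sin θ * y₁ θ) θ) →
    ‖y₁ (Real.pi / 2 : ℝ)‖ = g → ‖y₂ (Real.pi / 2 : ℝ)‖ = g →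
    |Real.exp (Real.pi * t) * g ^ 2 - 4 * Real.pi ^ 2| ≤ C₀ * t ^ (-(1 / 2 : ℝ)) →
    ∀ θ : ℂ, 0 < θ.re → θ.re ≤ 1 → r ≤ |θ.im| → |θ.im| ≤ R →
      ‖Complex.sin θ * (y₂ θ * conj (y₂ (conj θ))) * cexp (2 * t * θ) -
        4 * Real.pi ^ 2 * Complex.sin θ‖ ≤ C * t ^ (-(1 / 2 : ℝ)) ∧
      ‖Complex.sin θ * (y₁ θ * conj (y₁ (conj θ))) * cexp (2 * t * θ)‖ ≤
        C * t ^ (-(1 / 2 : ℝ)) := by
  obtain ⟨C₁, hC₁⟩ := lg_sys ν (r := r) (R := R) hr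
  set c : ℝ := |C₁| with hc
  have hc0 : 0 ≤ c := abs_nonneg _
  set G₀ : ℝ := 4 * Real.pi ^ 2 + C₀ with hG₀
  have hG00 : 0 ≤ G₀ := by positivity
  set S : ℝ := Real.exp R with hS
  have hS0 : 0 < S := Real.exp_pos _
  refine ⟨S * ((2 * c + c ^ 2) * 4 * G₀ + C₀), by positivity, ?_⟩
  intro t y₁ y₂ g ht hy₁ hy₂ hg₁ hg₂ hg θ h0 h1 h2 h3
  have ht0 : 0 < t := by linarith
  have hg0 : 0 ≤ g := by rw [← hg₁]; exact norm_nonneg _
  have hE0 : 0 ≤ Real.exp (Real.pi * t) := (Real.exp_pos _).le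
  have hp0 : 0 ≤ t ^ (-(1 / 2 : ℝ)) := Real.rpow_nonneg ht0.le _
  have hp1 : t ^ (-(1 / 2 : ℝ)) ≤ 1 := Real.rpow_le_one_of_one_le_of_nonpos ht (by norm_num)
  have hgG : Real.exp (Real.pi * t) * g ^ 2 ≤ G₀ := by
    have h4 := (abs_le.1 hg).2
    have h5 : C₀ * t ^ (-(1 / 2 : ℝ)) ≤ C₀ := by nlinarith
    rw [hG₀]
    linarith
  obtain ⟨k1, -⟩ := hC₁ t y₁ y₂ hy₁ hy₂ θ h0 h1 h2 h3
  obtain ⟨k2, -⟩ := hC₁ t y₁ y₂ hy₁ hy₂ (conj θ) (by simpa using h0) (by simpa using h1)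
    (by simpa using h2) (by simpa using h3)
  obtain ⟨k1, k1'⟩ := k1 ht
  obtain ⟨k2, k2'⟩ := k2 ht
  rw [hg₁, hg₂] at k1 k1' k2 k2'
  have hct : C₁ / t * (g + g) ≤ c / t * (2 * g) := by
    have : C₁ / t ≤ c / t := div_le_div_of_nonneg_right (le_abs_self _) ht0.le
    nlinarith
  have he0 : 0 ≤ c / t := by positivity
  have ht1 : 1 / t ≤ t ^ (-(1 / 2 : ℝ)) := by
    rw [one_div, ← Real.rpow_neg_one]
    exact Real.rpow_le_rpow_of_exponent_le ht (by norm_num)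
  have hsq : (c / t) ^ 2 ≤ c ^ 2 * (1 / t) := by
    rw [div_pow, ← mul_one_div]
    apply mul_le_mul_of_nonneg_left _ (by positivity)
    apply one_div_le_one_div_of_le ht0
    nlinarith
  have hexp : cexp (2 * t * θ) = ((Real.exp (Real.pi * t) : ℝ) : ℂ) *
      (cexp (t * (θ - (Real.pi / 2 : ℝ))) * cexp (t * (θ - (Real.pi / 2 : ℝ)))) := by
    rw [Complex.ofReal_exp, ← Complex.exp_add, ← Complex.exp_add]
    congr 1
    push_cast
    ring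
  have hconj : ∀ y : ℂ → ℂ, cexp (t * (θ - (Real.pi / 2 : ℝ))) * conj (y (conj θ)) =
      conj (cexp (t * (conj θ - (Real.pi / 2 : ℝ))) * y (conj θ)) := by
    intro y
    rw [map_mul, ← Complex.exp_conj, map_mul, map_sub, Complex.conj_conj,
      Complex.conj_ofReal, Complex.conj_ofReal]
  have hsin := f1_C4_sin_le h3
  constructor
  · have k3 : ‖cexp (t * (θ - (Real.pi / 2 : ℝ))) * conj (y₂ (conj θ)) -
        conj (y₂ (Real.pi / 2 : ℝ))‖ ≤ c / t * (2 * g) := by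
      rw [hconj, ← map_sub, Complex.norm_conj]
      exact k2.trans hct
    have k4 := f1_C4_prod (n := 2 * g) (by rw [hg₂]; linarith) he0 (k1.trans hct) k3
    rw [hg₂] at k4
    have e3 : Complex.sin θ * (y₂ θ * conj (y₂ (conj θ))) * cexp (2 * t * θ) -
        4 * Real.pi ^ 2 * Complex.sin θ = Complex.sin θ * (((Real.exp (Real.pi * t) : ℝ) : ℂ) *
        (cexp (t * (θ - (Real.pi / 2 : ℝ))) * y₂ θ *
          (cexp (t * (θ - (Real.pi / 2 : ℝ))) * conj (y₂ (conj θ))) - ((g ^ 2 : ℝ) : ℂ)) +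
        ((Real.exp (Real.pi * t) * g ^ 2 - 4 * Real.pi ^ 2 : ℝ) : ℂ)) := by
      rw [hexp]
      push_cast
      ring
    rw [e3, norm_mul]
    have h5 : ‖((Real.exp (Real.pi * t) : ℝ) : ℂ) *
        (cexp (t * (θ - (Real.pi / 2 : ℝ))) * y₂ θ *
          (cexp (t * (θ - (Real.pi / 2 : ℝ))) * conj (y₂ (conj θ))) - ((g ^ 2 : ℝ) : ℂ))‖ ≤
        (2 * c + c ^ 2) * 4 * G₀ * t ^ (-(1 / 2 : ℝ)) := by
      rw [norm_mul, Complex.norm_real, Real.norm_of_nonneg hE0]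
      calc Real.exp (Real.pi * t) * _ ≤ Real.exp (Real.pi * t) *
            ((2 * (c / t) + (c / t) ^ 2) * (2 * g) ^ 2) := mul_le_mul_of_nonneg_left k4 hE0
        _ = (2 * (c / t) + (c / t) ^ 2) * 4 * (Real.exp (Real.pi * t) * g ^ 2) := by ring
        _ ≤ (2 * c * (1 / t) + c ^ 2 * (1 / t)) * 4 * G₀ := by
            apply mul_le_mul _ hgG (by positivity) (by positivity)
            have : c / t = c * (1 / t) := by ring
            rw [this] at hsq ⊢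
            linarith
        _ = (2 * c + c ^ 2) * 4 * G₀ * (1 / t) := by ring
        _ ≤ (2 * c + c ^ 2) * 4 * G₀ * t ^ (-(1 / 2 : ℝ)) :=
            mul_le_mul_of_nonneg_left ht1 (by positivity)
    have h6 : ‖((Real.exp (Real.pi * t) * g ^ 2 - 4 * Real.pi ^ 2 : ℝ) : ℂ)‖ ≤
        C₀ * t ^ (-(1 / 2 : ℝ)) := by
      rw [Complex.norm_real, Real.norm_eq_abs]
      exact hg
    calc ‖Complex.sin θ‖ * _ ≤ S * ((2 * c + c ^ 2) * 4 * G₀ * t ^ (-(1 / 2 : ℝ)) +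
          C₀ * t ^ (-(1 / 2 : ℝ))) :=
          mul_le_mul hsin ((norm_add_le _ _).trans (add_le_add h5 h6)) (norm_nonneg _) hS0.le
      _ = _ := by ring
  · have e3 : Complex.sin θ * (y₁ θ * conj (y₁ (conj θ))) * cexp (2 * t * θ) =
        Complex.sin θ * (((Real.exp (Real.pi * t) : ℝ) : ℂ) *
        (cexp (t * (θ - (Real.pi / 2 : ℝ))) * y₁ θ *
          (cexp (t * (θ - (Real.pi / 2 : ℝ))) * conj (y₁ (conj θ))))) := by
      rw [hexp]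
      ring
    rw [e3, norm_mul, norm_mul, norm_mul _ (_ * conj _), hconj, Complex.norm_conj,
      Complex.norm_real, Real.norm_of_nonneg hE0]
    have h5 : Real.exp (Real.pi * t) * (‖cexp (t * (θ - (Real.pi / 2 : ℝ))) * y₁ θ‖ *
        ‖cexp (t * (conj θ - (Real.pi / 2 : ℝ))) * y₁ (conj θ)‖) ≤
        (2 * c + c ^ 2) * 4 * G₀ * t ^ (-(1 / 2 : ℝ)) := by
      calc Real.exp (Real.pi * t) * _ ≤ Real.exp (Real.pi * t) *
            ((c / t * (2 * g)) * (c / t * (2 * g))) := by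
            apply mul_le_mul_of_nonneg_left _ hE0
            exact mul_le_mul (k1'.trans hct) (k2'.trans hct) (norm_nonneg _) (by positivity)
        _ = (c / t) ^ 2 * 4 * (Real.exp (Real.pi * t) * g ^ 2) := by ring
        _ ≤ (c ^ 2 * (1 / t)) * 4 * G₀ := by
            apply mul_le_mul _ hgG (by positivity) (by positivity)
            linarith
        _ ≤ (2 * c + c ^ 2) * 4 * G₀ * (1 / t) := by
            have : 0 ≤ 2 * c * 4 * G₀ * (1 / t) := by positivity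
            linarith
        _ ≤ (2 * c + c ^ 2) * 4 * G₀ * t ^ (-(1 / 2 : ℝ)) :=
            mul_le_mul_of_nonneg_left ht1 (by positivity)
    calc ‖Complex.sin θ‖ * _ ≤ S * ((2 * c + c ^ 2) * 4 * G₀ * t ^ (-(1 / 2 : ℝ))) :=
          mul_le_mul hsin h5 (by positivity) hS0.le
      _ ≤ S * ((2 * c + c ^ 2) * 4 * G₀ + C₀) * t ^ (-(1 / 2 : ℝ)) := by
          have : 0 ≤ S * C₀ * t ^ (-(1 / 2 : ℝ)) := by positivity
          linarith

end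

/-- C4 -/
theorem Ph1_lg_pr {ν : ℂ} {ε : ℝ} (hν : ν.re = 0) (hε : ε = 1 ∨ ε = -1) {r R : ℝ} (hr : 0 < r) :
    ∃ C : ℝ, ∀ (t : ℝ) (θ : ℂ), 0 < θ.re → θ.re ≤ 1 → r ≤ |θ.im| → |θ.im| ≤ R →
    (1 ≤ t →
      ‖Ph1 ν ε (-t) θ * cexp (2 * t * θ) - 4 * Real.pi ^ 2 * Complex.sin θ‖ ≤
        C * t ^ (-(1 / 2 : ℝ)) ∧
      ‖Ph1 ν ε t θ * cexp (2 * t * θ)‖ ≤ C * t ^ (-(1 / 2 : ℝ)) ∧
      ‖Ph1 ν ε t (Real.pi - θ) * cexp (2 * t * θ) - 4 * Real.pi ^ 2 * Complex.sin θ‖ ≤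
        C * t ^ (-(1 / 2 : ℝ)) ∧
      ‖Ph1 ν ε (-t) (Real.pi - θ) * cexp (2 * t * θ)‖ ≤ C * t ^ (-(1 / 2 : ℝ))) ∧
    (|t| ≤ 1 → ‖Ph1 ν ε t θ‖ ≤ C ∧ ‖Ph1 ν ε t (Real.pi - θ)‖ ≤ C) := by
  obtain ⟨C₀, hC₀⟩ := stir1 hν hε
  have hC₀0 : 0 ≤ C₀ := by
    have := (abs_nonneg _).trans (hC₀ 1 (by norm_num))
    rwa [abs_one, Real.one_rpow, mul_one] at this
  obtain ⟨C₂, hC₂0, hC₂⟩ := f1_C4_pair ν (r := r) (R := R) hr hC₀0
  obtain ⟨C₁, hC₁⟩ := lg_sys ν (r := r) (R := R) hr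
  obtain ⟨B, hB0, hB⟩ := f1_C4_bdd (ε := ε) hν
  have hpi := Real.pi_gt_three
  refine ⟨C₂ + Real.exp R * (|C₁| * (2 * B)) ^ 2, fun t θ h0 h1 h2 h3 =>
    ⟨fun ht => ?_, fun ht => ?_⟩⟩
  · have ht0 : 0 < t := by linarith
    have hp0 : 0 ≤ t ^ (-(1 / 2 : ℝ)) := Real.rpow_nonneg ht0.le _
    have hle : C₂ * t ^ (-(1 / 2 : ℝ)) ≤
        (C₂ + Real.exp R * (|C₁| * (2 * B)) ^ 2) * t ^ (-(1 / 2 : ℝ)) := by
      have : 0 ≤ Real.exp R * (|C₁| * (2 * B)) ^ 2 := by positivity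
      nlinarith
    have hθ : θ.re < Real.pi := by linarith
    -- parameter `t`
    have hg : |Real.exp (Real.pi * t) * ‖G1 ν ε (ha t) (Real.pi / 2 : ℝ)‖ ^ 2 -
        4 * Real.pi ^ 2| ≤ C₀ * t ^ (-(1 / 2 : ℝ)) := by
      have := hC₀ t (by rw [abs_of_pos ht0]; exact ht)
      rwa [abs_of_pos ht0] at this
    obtain ⟨a1, a2⟩ := hC₂ t (f1_C4_k1 ν ε t) (f1_C4_k2 ν ε t) _ ht
      (fun θ h0 h1 => f1_C4_d1 hν hε t h0 h1) (fun θ h0 h1 => f1_C4_d2 hν hε t h0 h1)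
      (f1_C4_n1 t) (f1_C4_n2 hε t) hg θ h0 h1 h2 h3
    -- parameter `-t`
    have hg' : |Real.exp (Real.pi * t) * ‖G1 ν ε (ha (-t)) (Real.pi / 2 : ℝ)‖ ^ 2 -
        4 * Real.pi ^ 2| ≤ C₀ * t ^ (-(1 / 2 : ℝ)) := by
      have := hC₀ (-t) (by rw [abs_neg, abs_of_pos ht0]; exact ht)
      rwa [abs_neg, abs_of_pos ht0] at this
    obtain ⟨b1, b2⟩ := hC₂ t (f1_C4_k2 ν ε (-t)) (f1_C4_k1 ν ε (-t)) _ ht
      (fun θ h0 h1 => by
        have := f1_C4_d2 hν hε (-t) h0 h1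
        convert this using 1
        push_cast
        ring)
      (fun θ h0 h1 => by
        have := f1_C4_d1 hν hε (-t) h0 h1
        convert this using 1
        push_cast
        ring)
      (f1_C4_n2 hε (-t)) (f1_C4_n1 (-t)) hg' θ h0 h1 h2 h3
    rw [f1_C4_ph1 (-t) h0 hθ, f1_C4_ph1 t h0 hθ, f1_C4_ph2 hε t h0 hθ, f1_C4_ph2 hε (-t) h0 hθ]
    exact ⟨b1.trans hle, a2.trans hle, a1.trans hle, b2.trans hle⟩
  · have hθ : θ.re < Real.pi := by linarith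
    obtain ⟨-, k1⟩ := hC₁ t (f1_C4_k1 ν ε t) (f1_C4_k2 ν ε t)
      (fun θ h0 h1 => f1_C4_d1 hν hε t h0 h1) (fun θ h0 h1 => f1_C4_d2 hν hε t h0 h1) θ h0 h1 h2 h3
    obtain ⟨-, k2⟩ := hC₁ t (f1_C4_k1 ν ε t) (f1_C4_k2 ν ε t)
      (fun θ h0 h1 => f1_C4_d1 hν hε t h0 h1) (fun θ h0 h1 => f1_C4_d2 hν hε t h0 h1) (conj θ)
      (by simpa using h0) (by simpa using h1) (by simpa using h2) (by simpa using h3)
    have k1 := k1 ht
    have k2 := k2 ht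
    rw [f1_C4_n1, f1_C4_n2 hε] at k1 k2
    have hb := hB t ht
    have hbb : C₁ * (‖G1 ν ε (ha t) (Real.pi / 2 : ℝ)‖ + ‖G1 ν ε (ha t) (Real.pi / 2 : ℝ)‖) ≤
        |C₁| * (2 * B) := by
      calc C₁ * (‖G1 ν ε (ha t) (Real.pi / 2 : ℝ)‖ + ‖G1 ν ε (ha t) (Real.pi / 2 : ℝ)‖)
          ≤ |C₁| * (‖G1 ν ε (ha t) (Real.pi / 2 : ℝ)‖ + ‖G1 ν ε (ha t) (Real.pi / 2 : ℝ)‖) :=
            mul_le_mul_of_nonneg_right (le_abs_self _) (by positivity)
        _ ≤ |C₁| * (2 * B) := mul_le_mul_of_nonneg_left (by linarith) (abs_nonneg _)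
    have m1 : ‖f1_C4_k1 ν ε t θ‖ ≤ |C₁| * (2 * B) :=
      (le_add_of_nonneg_right (norm_nonneg _)).trans (k1.trans hbb)
    have m2 : ‖f1_C4_k2 ν ε t θ‖ ≤ |C₁| * (2 * B) :=
      (le_add_of_nonneg_left (norm_nonneg _)).trans (k1.trans hbb)
    have m3 : ‖f1_C4_k1 ν ε t (conj θ)‖ ≤ |C₁| * (2 * B) :=
      (le_add_of_nonneg_right (norm_nonneg _)).trans (k2.trans hbb)
    have m4 : ‖f1_C4_k2 ν ε t (conj θ)‖ ≤ |C₁| * (2 * B) :=
      (le_add_of_nonneg_left (norm_nonneg _)).trans (k2.trans hbb)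
    have hsin := f1_C4_sin_le h3
    have hfin : ∀ u v : ℂ, ‖u‖ ≤ |C₁| * (2 * B) → ‖v‖ ≤ |C₁| * (2 * B) →
        ‖Complex.sin θ * (u * conj v)‖ ≤ C₂ + Real.exp R * (|C₁| * (2 * B)) ^ 2 := by
      intro u v hu hv
      rw [norm_mul, norm_mul, Complex.norm_conj]
      calc ‖Complex.sin θ‖ * (‖u‖ * ‖v‖) ≤ Real.exp R * ((|C₁| * (2 * B)) * (|C₁| * (2 * B))) := by
            apply mul_le_mul hsin _ (by positivity) (Real.exp_pos _).le
            exact mul_le_mul hu hv (norm_nonneg _) (by positivity)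
        _ = Real.exp R * (|C₁| * (2 * B)) ^ 2 := by ring
        _ ≤ C₂ + Real.exp R * (|C₁| * (2 * B)) ^ 2 := by linarith
    rw [f1_C4_ph1 t h0 hθ, f1_C4_ph2 hε t h0 hθ]
    exact ⟨hfin _ _ m1 m3, hfin _ _ m2 m4⟩

end Pool.Agent.JO.FM1

namespace Pool.Agent.JO.FM1

theorem Ph1_lg : type_of% @Ph1_lg_pr := @Ph1_lg_pr

end Pool.Agent.JO.FM1
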