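import Pool.Agent.Lib_helper42.JO1.Defs
import Pool.Agent.Lib_helper45.JO.Defs2
import Pool.Agent.Lib_helper42.JO1F.C4
import Pool.Agent.Lib_helper42.JO1F.M2
import Pool.Agent.Lib_helper42.JO1F.P5

/-!
-/

set_option autoImplicit false

namespace Pool.Agent.JO.FM1

open Complex Filter Topology MeasureTheory Set
open UpperHalfPlane hiding I
open Pool.Agent.JO.FM
open scoped MatrixGroups ComplexConjugate

section

variable {ν : ℂ} {ε : ℝ} {a : ℕ → ℂ} {f : ℍ → ℂ} {L : ℂ → ℂ}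

theorem f1_C5_ha (t : ℝ) : 0 < (ha t).re := by
  have : (ha t).re = 1 / 2 := by simp [ha]
  rw [this]
  norm_num

theorem f1_C5_cont_ha : Continuous ha := by
  unfold ha
  fun_prop

theorem f1_C5_cont_Ph (hν : ν.re = 0) {θ : ℂ} (h0 : 0 < θ.re) (h1 : θ.re < Real.pi) :
    Continuous (fun t : ℝ => Ph1 ν ε t θ) := by
  have e1 : Continuous (fun t : ℝ => G1 ν ε (ha t) θ) :=
    (G1_diff_s (ε := ε) hν h0 h1).continuousOn.comp_continuous f1_C5_cont_ha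
      (fun t => f1_C5_ha t)
  have e2 : Continuous (fun t : ℝ => G1 ν ε (ha t) (conj θ)) :=
    (G1_diff_s (ε := ε) hν (θ := conj θ) (by simpa using h0)
      (by simpa using h1)).continuousOn.comp_continuous f1_C5_cont_ha (fun t => f1_C5_ha t)
  unfold Ph1
  exact e1.mul (Complex.continuous_conj.comp e2)

theorem f1_C5_exp {σ t : ℝ} (hσ : 0 < σ) : t * Real.exp (-(σ * t)) ≤ 1 / σ := by
  rw [le_div_iff₀ hσ, Real.exp_neg]
  have h := Real.add_one_le_exp (σ * t)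
  have h2 : σ * t ≤ Real.exp (σ * t) := by linarith
  calc t * (Real.exp (σ * t))⁻¹ * σ = (σ * t) * (Real.exp (σ * t))⁻¹ := by ring
    _ ≤ Real.exp (σ * t) * (Real.exp (σ * t))⁻¹ := by
        apply mul_le_mul_of_nonneg_right h2 (by positivity)
    _ = 1 := mul_inv_cancel₀ (Real.exp_pos _).ne'

theorem f1_C5_exp2 {σ t : ℝ} (hσ : 0 < σ) (ht : 1 ≤ t) :
    t ^ (-(1 / 2 : ℝ)) * Real.exp (-(σ * t)) ≤ 1 / σ * t ^ (-(5 / 4 : ℝ)) := by
  have ht0 : 0 < t := by linarith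
  have h1 : t ^ (-(1 / 2 : ℝ)) ≤ t ^ (-(5 / 4 : ℝ)) * t := by
    have h2 : t ^ (-(5 / 4 : ℝ)) * t = t ^ (-(1 / 4 : ℝ)) := by
      have h3 : t ^ (-(5 / 4 : ℝ)) * t ^ (1 : ℝ) = t ^ (-(1 / 4 : ℝ)) := by
        rw [← Real.rpow_add ht0]
        norm_num
      rwa [Real.rpow_one] at h3
    rw [h2]
    exact Real.rpow_le_rpow_of_exponent_le ht (by norm_num)
  have h4 := f1_C5_exp (t := t) hσ
  have h5 : 0 ≤ t ^ (-(5 / 4 : ℝ)) := Real.rpow_nonneg ht0.le _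
  calc t ^ (-(1 / 2 : ℝ)) * Real.exp (-(σ * t)) ≤
        (t ^ (-(5 / 4 : ℝ)) * t) * Real.exp (-(σ * t)) :=
        mul_le_mul_of_nonneg_right h1 (Real.exp_pos _).le
    _ = t ^ (-(5 / 4 : ℝ)) * (t * Real.exp (-(σ * t))) := by ring
    _ ≤ t ^ (-(5 / 4 : ℝ)) * (1 / σ) := mul_le_mul_of_nonneg_left h4 h5
    _ = _ := by ring

theorem f1_C5_exp3 {σ t : ℝ} (hσ : 0 < σ) (ht : 1 ≤ t) :
    Real.exp (-(σ * t)) ≤ (2 / σ) ^ 2 * t ^ (-(5 / 4 : ℝ)) := by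
  have ht0 : 0 < t := by linarith
  have h1 := f1_C5_exp (σ := σ / 2) (t := t) (by positivity)
  have h2 : Real.exp (-(σ * t)) = Real.exp (-(σ / 2 * t)) ^ 2 := by
    rw [← Real.exp_nat_mul]
    congr 1
    push_cast
    ring
  have h3 : Real.exp (-(σ / 2 * t)) ≤ 1 / (σ / 2) / t := by
    rw [le_div_iff₀ ht0, mul_comm]
    exact h1
  have h4 : (1 : ℝ) / t ^ 2 ≤ t ^ (-(5 / 4 : ℝ)) := by
    rw [one_div, ← Real.rpow_natCast, ← Real.rpow_neg ht0.le]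
    exact Real.rpow_le_rpow_of_exponent_le ht (by norm_num)
  rw [h2]
  calc Real.exp (-(σ / 2 * t)) ^ 2 ≤ (1 / (σ / 2) / t) ^ 2 :=
        pow_le_pow_left₀ (Real.exp_pos _).le h3 2
    _ = (2 / σ) ^ 2 * (1 / t ^ 2) := by
        field_simp
    _ ≤ _ := by gcongr

theorem f1_C5_norm_exp (w : ℂ) (t : ℝ) : ‖cexp (-(w * t))‖ = Real.exp (-(w.re * t)) := by
  rw [Complex.norm_exp]
  congr 1
  simp

/-- the general estimate -/
theorem f1_C5_gen {g : ℝ → ℝ} (hg : Continuous g) (hg0 : ∀ t, 0 ≤ g t)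
    (hgi : IntegrableOn (fun t : ℝ => (g t + g (-t)) * t ^ (-(5 / 4 : ℝ))) (Ioi 1))
    {C : ℝ} (hC : 0 ≤ C) {θ : ℂ} {Φ : ℝ → ℂ} (hΦ : Continuous Φ) (h0 : 0 < θ.re)
    (h1 : ∀ t : ℝ, 1 ≤ t → ‖Φ (-t) * cexp (2 * t * θ) - 4 * Real.pi ^ 2 * Complex.sin θ‖ ≤
        C * t ^ (-(1 / 2 : ℝ)) ∧ ‖Φ t * cexp (2 * t * θ)‖ ≤ C * t ^ (-(1 / 2 : ℝ)))
    (h2 : ∀ t : ℝ, |t| ≤ 1 → ‖Φ t‖ ≤ C) :
    4 * Real.pi ^ 2 * ‖Complex.sin θ‖ *
      ‖∫ t in Ioi (1 : ℝ), ((g (-t) : ℝ) : ℂ) * cexp (-(2 * θ * t))‖ ≤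
      ‖∫ t : ℝ, ((g t : ℝ) : ℂ) * Φ t‖ + C * (∫ t in Ioc (-1 : ℝ) 1, g t) +
        C * (1 / (2 * θ.re)) * (∫ t in Ioi (1 : ℝ), (g t + g (-t)) * t ^ (-(5 / 4 : ℝ))) := by
  have h2θ : (2 * θ).re = 2 * θ.re := by simp
  have h2θ0 : 0 < 2 * θ.re := by positivity
  have hee : ∀ t : ℝ, cexp (2 * t * θ) * cexp (-(2 * θ * t)) = 1 := by
    intro t
    rw [← Complex.exp_add]
    have : 2 * (t : ℂ) * θ + -(2 * θ * t) = 0 := by ring
    rw [this, Complex.exp_zero]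
  have hne : ∀ t : ℝ, ‖cexp (-(2 * θ * t))‖ = Real.exp (-(2 * θ.re * t)) := by
    intro t
    rw [f1_C5_norm_exp, h2θ]
  -- the pointwise bounds
  have hp1 : ∀ t : ℝ, 1 ≤ t →
      ‖((g (-t) : ℝ) : ℂ) * (Φ (-t) - 4 * Real.pi ^ 2 * Complex.sin θ * cexp (-(2 * θ * t)))‖ ≤
        g (-t) * (C * (1 / (2 * θ.re)) * t ^ (-(5 / 4 : ℝ))) := by
    intro t ht
    have e1 : Φ (-t) - 4 * Real.pi ^ 2 * Complex.sin θ * cexp (-(2 * θ * t)) =
        (Φ (-t) * cexp (2 * t * θ) - 4 * Real.pi ^ 2 * Complex.sin θ) * cexp (-(2 * θ * t)) := by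
      have e3 : (Φ (-t) * cexp (2 * t * θ) - 4 * Real.pi ^ 2 * Complex.sin θ) *
          cexp (-(2 * θ * t)) = Φ (-t) * (cexp (2 * t * θ) * cexp (-(2 * θ * t))) -
          4 * Real.pi ^ 2 * Complex.sin θ * cexp (-(2 * θ * t)) := by ring
      rw [e3, hee, mul_one]
    rw [e1, norm_mul, norm_mul, hne, Complex.norm_real, Real.norm_of_nonneg (hg0 _)]
    refine mul_le_mul_of_nonneg_left ?_ (hg0 _)
    calc ‖Φ (-t) * cexp (2 * t * θ) - 4 * Real.pi ^ 2 * Complex.sin θ‖ *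
          Real.exp (-(2 * θ.re * t)) ≤ C * t ^ (-(1 / 2 : ℝ)) * Real.exp (-(2 * θ.re * t)) :=
          mul_le_mul_of_nonneg_right (h1 t ht).1 (Real.exp_pos _).le
      _ = C * (t ^ (-(1 / 2 : ℝ)) * Real.exp (-(2 * θ.re * t))) := by ring
      _ ≤ C * (1 / (2 * θ.re) * t ^ (-(5 / 4 : ℝ))) :=
          mul_le_mul_of_nonneg_left (f1_C5_exp2 h2θ0 ht) hC
      _ = _ := by ring
  have hp2 : ∀ t : ℝ, 1 ≤ t → ‖((g t : ℝ) : ℂ) * Φ t‖ ≤
        g t * (C * (1 / (2 * θ.re)) * t ^ (-(5 / 4 : ℝ))) := by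
    intro t ht
    have e1 : Φ t = (Φ t * cexp (2 * t * θ)) * cexp (-(2 * θ * t)) := by
      rw [mul_assoc, hee, mul_one]
    rw [e1, norm_mul, norm_mul (Φ t * cexp (2 * t * θ)), hne, Complex.norm_real,
      Real.norm_of_nonneg (hg0 _)]
    refine mul_le_mul_of_nonneg_left ?_ (hg0 _)
    calc ‖Φ t * cexp (2 * t * θ)‖ *
          Real.exp (-(2 * θ.re * t)) ≤ C * t ^ (-(1 / 2 : ℝ)) * Real.exp (-(2 * θ.re * t)) :=
          mul_le_mul_of_nonneg_right (h1 t ht).2 (Real.exp_pos _).le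
      _ = C * (t ^ (-(1 / 2 : ℝ)) * Real.exp (-(2 * θ.re * t))) := by ring
      _ ≤ C * (1 / (2 * θ.re) * t ^ (-(5 / 4 : ℝ))) :=
          mul_le_mul_of_nonneg_left (f1_C5_exp2 h2θ0 ht) hC
      _ = _ := by ring
  -- the dominating function
  set D : ℝ → ℝ := fun t => C * (1 / (2 * θ.re)) * ((g t + g (-t)) * t ^ (-(5 / 4 : ℝ))) with hD
  have hDi : IntegrableOn D (Ioi 1) := hgi.const_mul _
  have hgi1 : IntegrableOn (fun t : ℝ => g t * (C * (1 / (2 * θ.re)) * t ^ (-(5 / 4 : ℝ))))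
      (Ioi 1) := by
    refine Integrable.mono' hDi ?_ ?_
    · refine ContinuousOn.aestronglyMeasurable ?_ measurableSet_Ioi
      refine hg.continuousOn.mul (continuousOn_const.mul ?_)
      exact continuousOn_id.rpow_const (fun t ht => Or.inl (by
        have : (1 : ℝ) < t := ht
        exact (by linarith : (0 : ℝ) < t).ne'))
    · refine (ae_restrict_iff' measurableSet_Ioi).2 (Eventually.of_forall fun t ht => ?_)
      have ht1 : (1 : ℝ) < t := ht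
      have hr : 0 ≤ t ^ (-(5 / 4 : ℝ)) := Real.rpow_nonneg (by linarith) _
      have e1 := hg0 t
      have e2 := hg0 (-t)
      rw [Real.norm_of_nonneg (by positivity), hD]
      show g t * (C * (1 / (2 * θ.re)) * t ^ (-(5 / 4 : ℝ))) ≤
        C * (1 / (2 * θ.re)) * ((g t + g (-t)) * t ^ (-(5 / 4 : ℝ)))
      have e3 : 0 ≤ g (-t) * (C * (1 / (2 * θ.re)) * t ^ (-(5 / 4 : ℝ))) := by positivity
      nlinarith
  have hgi2 : IntegrableOn (fun t : ℝ => g (-t) * (C * (1 / (2 * θ.re)) * t ^ (-(5 / 4 : ℝ))))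
      (Ioi 1) := by
    refine Integrable.mono' hDi ?_ ?_
    · refine ContinuousOn.aestronglyMeasurable ?_ measurableSet_Ioi
      refine (hg.comp continuous_neg).continuousOn.mul (continuousOn_const.mul ?_)
      exact continuousOn_id.rpow_const (fun t ht => Or.inl (by
        have : (1 : ℝ) < t := ht
        exact (by linarith : (0 : ℝ) < t).ne'))
    · refine (ae_restrict_iff' measurableSet_Ioi).2 (Eventually.of_forall fun t ht => ?_)
      have ht1 : (1 : ℝ) < t := ht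
      have hr : 0 ≤ t ^ (-(5 / 4 : ℝ)) := Real.rpow_nonneg (by linarith) _
      have e1 := hg0 t
      have e2 := hg0 (-t)
      rw [Real.norm_of_nonneg (by positivity), hD]
      show g (-t) * (C * (1 / (2 * θ.re)) * t ^ (-(5 / 4 : ℝ))) ≤
        C * (1 / (2 * θ.re)) * ((g t + g (-t)) * t ^ (-(5 / 4 : ℝ)))
      have e3 : 0 ≤ g t * (C * (1 / (2 * θ.re)) * t ^ (-(5 / 4 : ℝ))) := by positivity
      nlinarith
  have hcg : Continuous (fun t : ℝ => ((g t : ℝ) : ℂ)) := Complex.continuous_ofReal.comp hg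
  have hcg' : Continuous (fun t : ℝ => ((g (-t) : ℝ) : ℂ)) := hcg.comp continuous_neg
  have hcΦ' : Continuous (fun t : ℝ => Φ (-t)) := hΦ.comp continuous_neg
  -- integrability of the pieces
  have hI1 : IntegrableOn (fun t : ℝ => ((g (-t) : ℝ) : ℂ) *
      (Φ (-t) - 4 * Real.pi ^ 2 * Complex.sin θ * cexp (-(2 * θ * t)))) (Ioi 1) := by
    refine Integrable.mono' hgi2 ?_ ?_
    · exact Continuous.aestronglyMeasurable (hcg'.mul (hcΦ'.sub (by fun_prop)))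
    · refine (ae_restrict_iff' measurableSet_Ioi).2 (Eventually.of_forall fun t ht => ?_)
      exact hp1 t (le_of_lt ht)
  have hI2 : IntegrableOn (fun t : ℝ => ((g t : ℝ) : ℂ) * Φ t) (Ioi 1) := by
    refine Integrable.mono' hgi1 (hcg.mul hΦ).aestronglyMeasurable ?_
    refine (ae_restrict_iff' measurableSet_Ioi).2 (Eventually.of_forall fun t ht => ?_)
    exact hp2 t (le_of_lt ht)
  have hI3 : IntegrableOn (fun t : ℝ => ((g (-t) : ℝ) : ℂ) * cexp (-(2 * θ * t))) (Ioi 1) := by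
    refine Integrable.mono' (hgi.const_mul ((2 / (2 * θ.re)) ^ 2))
      (Continuous.aestronglyMeasurable (hcg'.mul (by fun_prop))) ?_
    refine (ae_restrict_iff' measurableSet_Ioi).2 (Eventually.of_forall fun t ht => ?_)
    have ht1 : (1 : ℝ) < t := ht
    have hr : 0 ≤ t ^ (-(5 / 4 : ℝ)) := Real.rpow_nonneg (by linarith) _
    have e1 := hg0 t
    have e2 := hg0 (-t)
    rw [norm_mul, hne, Complex.norm_real, Real.norm_of_nonneg e2]
    have e3 := f1_C5_exp3 h2θ0 ht1.le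
    calc g (-t) * Real.exp (-(2 * θ.re * t)) ≤
          g (-t) * ((2 / (2 * θ.re)) ^ 2 * t ^ (-(5 / 4 : ℝ))) :=
          mul_le_mul_of_nonneg_left e3 e2
      _ ≤ (2 / (2 * θ.re)) ^ 2 * ((g t + g (-t)) * t ^ (-(5 / 4 : ℝ))) := by
          have e4 : 0 ≤ g t * ((2 / (2 * θ.re)) ^ 2 * t ^ (-(5 / 4 : ℝ))) := by positivity
          nlinarith
  have hsplit : ∀ t ∈ Ioi (1 : ℝ), ((g (-t) : ℝ) : ℂ) * Φ (-t) =
      ((g (-t) : ℝ) : ℂ) * (Φ (-t) - 4 * Real.pi ^ 2 * Complex.sin θ * cexp (-(2 * θ * t))) +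
      (4 * Real.pi ^ 2 * Complex.sin θ) * (((g (-t) : ℝ) : ℂ) * cexp (-(2 * θ * t))) := by
    intro t _
    ring
  have hI4 : IntegrableOn (fun t : ℝ => ((g (-t) : ℝ) : ℂ) * Φ (-t)) (Ioi 1) :=
    (hI1.add (hI3.const_mul (4 * Real.pi ^ 2 * Complex.sin θ))).congr_fun
      (fun t ht => (hsplit t ht).symm) measurableSet_Ioi
  set G : ℝ → ℂ := fun t => ((g t : ℝ) : ℂ) * Φ t with hG
  have hcG : Continuous G := hcg.mul hΦ
  have hI5 : IntegrableOn G (Ioc (-1) 1) :=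
    (hcG.integrableOn_Icc (a := -1) (b := 1)).mono_set Ioc_subset_Icc_self
  have hI6 : IntegrableOn G (Iic (-1)) := by
    rw [← integrable_indicator_iff measurableSet_Iic]
    have h5 : Integrable ((Ici (1 : ℝ)).indicator (fun t => G (-t))) := by
      rw [integrable_indicator_iff measurableSet_Ici]
      exact integrableOn_Ici_iff_integrableOn_Ioi (by simp) |>.2 hI4
    have h6 := h5.comp_neg
    refine h6.congr (Eventually.of_forall fun t => ?_)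
    show (Ici (1 : ℝ)).indicator (fun t => G (-t)) (-t) = (Iic (-1 : ℝ)).indicator G t
    by_cases h : t ≤ -1
    · have m1 : -t ∈ Ici (1 : ℝ) := by
        rw [mem_Ici]
        linarith
      have m2 : t ∈ Iic (-1 : ℝ) := h
      rw [indicator_of_mem m1, indicator_of_mem m2, neg_neg]
    · have m1 : -t ∉ Ici (1 : ℝ) := by
        rw [mem_Ici]
        intro h7
        exact h (by linarith)
      have m2 : t ∉ Iic (-1 : ℝ) := h
      rw [indicator_of_notMem m1, indicator_of_notMem m2]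
  have hI7 : IntegrableOn G (Ioi (-1)) := by
    rw [← Ioc_union_Ioi_eq_Ioi (by norm_num : (-1 : ℝ) ≤ 1)]
    exact hI5.union hI2
  have hline : ∫ t : ℝ, G t = (∫ t in Ioi (1 : ℝ), ((g (-t) : ℝ) : ℂ) * Φ (-t)) +
      ((∫ t in Ioc (-1 : ℝ) 1, G t) + ∫ t in Ioi (1 : ℝ), G t) := by
    rw [← intervalIntegral.integral_Iic_add_Ioi hI6 hI7]
    congr 1
    · have h4 := integral_comp_neg_Ioi (1 : ℝ) G
      rw [← h4]
    · rw [← Ioc_union_Ioi_eq_Ioi (by norm_num : (-1 : ℝ) ≤ 1),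
        setIntegral_union (Set.Ioc_disjoint_Ioi le_rfl) measurableSet_Ioi hI5 hI2]
  have hsp : ∫ t in Ioi (1 : ℝ), ((g (-t) : ℝ) : ℂ) * Φ (-t) =
      (∫ t in Ioi (1 : ℝ), ((g (-t) : ℝ) : ℂ) *
        (Φ (-t) - 4 * Real.pi ^ 2 * Complex.sin θ * cexp (-(2 * θ * t)))) +
      (4 * Real.pi ^ 2 * Complex.sin θ) *
        ∫ t in Ioi (1 : ℝ), ((g (-t) : ℝ) : ℂ) * cexp (-(2 * θ * t)) := by
    rw [← integral_const_mul, ← integral_add hI1 (hI3.const_mul _)]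
    exact setIntegral_congr_fun measurableSet_Ioi hsplit
  -- the bounds
  have hb1 : ‖∫ t in Ioc (-1 : ℝ) 1, G t‖ ≤ C * ∫ t in Ioc (-1 : ℝ) 1, g t := by
    rw [← integral_const_mul]
    refine norm_integral_le_of_norm_le ((hg.integrableOn_Icc (a := -1) (b := 1)).mono_set
      Ioc_subset_Icc_self |>.const_mul _) ?_
    refine (ae_restrict_iff' measurableSet_Ioc).2 (Eventually.of_forall fun t ht => ?_)
    show ‖((g t : ℝ) : ℂ) * Φ t‖ ≤ C * g t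
    rw [norm_mul, Complex.norm_real, Real.norm_of_nonneg (hg0 t), mul_comm]
    exact mul_le_mul_of_nonneg_right (h2 t (abs_le.2 ⟨ht.1.le, ht.2⟩)) (hg0 t)
  have hb2 : ‖∫ t in Ioi (1 : ℝ), ((g (-t) : ℝ) : ℂ) *
      (Φ (-t) - 4 * Real.pi ^ 2 * Complex.sin θ * cexp (-(2 * θ * t)))‖ ≤
      ∫ t in Ioi (1 : ℝ), g (-t) * (C * (1 / (2 * θ.re)) * t ^ (-(5 / 4 : ℝ))) := by
    refine norm_integral_le_of_norm_le hgi2 ?_
    refine (ae_restrict_iff' measurableSet_Ioi).2 (Eventually.of_forall fun t ht => ?_)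
    exact hp1 t (le_of_lt ht)
  have hb3 : ‖∫ t in Ioi (1 : ℝ), G t‖ ≤
      ∫ t in Ioi (1 : ℝ), g t * (C * (1 / (2 * θ.re)) * t ^ (-(5 / 4 : ℝ))) := by
    refine norm_integral_le_of_norm_le hgi1 ?_
    refine (ae_restrict_iff' measurableSet_Ioi).2 (Eventually.of_forall fun t ht => ?_)
    exact hp2 t (le_of_lt ht)
  have hb4 : (∫ t in Ioi (1 : ℝ), g (-t) * (C * (1 / (2 * θ.re)) * t ^ (-(5 / 4 : ℝ)))) +
      (∫ t in Ioi (1 : ℝ), g t * (C * (1 / (2 * θ.re)) * t ^ (-(5 / 4 : ℝ)))) =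
      C * (1 / (2 * θ.re)) * (∫ t in Ioi (1 : ℝ), (g t + g (-t)) * t ^ (-(5 / 4 : ℝ))) := by
    rw [← integral_add hgi2 hgi1, ← integral_const_mul]
    refine setIntegral_congr_fun measurableSet_Ioi fun t _ => ?_
    show g (-t) * (C * (1 / (2 * θ.re)) * t ^ (-(5 / 4 : ℝ))) +
      g t * (C * (1 / (2 * θ.re)) * t ^ (-(5 / 4 : ℝ))) =
      C * (1 / (2 * θ.re)) * ((g t + g (-t)) * t ^ (-(5 / 4 : ℝ)))
    ring
  have hM : (4 * Real.pi ^ 2 * Complex.sin θ) *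
        (∫ t in Ioi (1 : ℝ), ((g (-t) : ℝ) : ℂ) * cexp (-(2 * θ * t))) =
      (∫ t : ℝ, G t) - (∫ t in Ioc (-1 : ℝ) 1, G t) -
      ((∫ t in Ioi (1 : ℝ), ((g (-t) : ℝ) : ℂ) *
        (Φ (-t) - 4 * Real.pi ^ 2 * Complex.sin θ * cexp (-(2 * θ * t)))) +
        ∫ t in Ioi (1 : ℝ), G t) := by
    rw [hline, hsp]
    ring
  have hN : ‖(4 * Real.pi ^ 2 * Complex.sin θ) *
        (∫ t in Ioi (1 : ℝ), ((g (-t) : ℝ) : ℂ) * cexp (-(2 * θ * t)))‖ =
      4 * Real.pi ^ 2 * ‖Complex.sin θ‖ *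
        ‖∫ t in Ioi (1 : ℝ), ((g (-t) : ℝ) : ℂ) * cexp (-(2 * θ * t))‖ := by
    rw [norm_mul, norm_mul]
    congr 2
    have : ((4 : ℂ) * (Real.pi : ℂ) ^ 2) = ((4 * Real.pi ^ 2 : ℝ) : ℂ) := by push_cast; ring
    rw [this, Complex.norm_real, Real.norm_of_nonneg (by positivity)]
  rw [← hN, hM]
  refine (norm_sub_le _ _).trans ?_
  have k1 := norm_sub_le (∫ t : ℝ, G t) (∫ t in Ioc (-1 : ℝ) 1, G t)
  have k2 := norm_add_le (∫ t in Ioi (1 : ℝ), ((g (-t) : ℝ) : ℂ) *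
        (Φ (-t) - 4 * Real.pi ^ 2 * Complex.sin θ * cexp (-(2 * θ * t))))
        (∫ t in Ioi (1 : ℝ), G t)
  linarith

theorem f1_C5_sin {θ : ℂ} {c : ℝ} (hc : 0 ≤ c) (h : c ≤ |θ.im|) : c ≤ ‖Complex.sin θ‖ := by
  have h1 : ‖Complex.sin θ‖ ^ 2 = Real.sin θ.re ^ 2 + Real.sinh θ.im ^ 2 := by
    rw [← Complex.normSq_eq_norm_sq]
    have h2 : Complex.sin θ = ((Real.sin θ.re * Real.cosh θ.im : ℝ) : ℂ) +
        ((Real.cos θ.re * Real.sinh θ.im : ℝ) : ℂ) * I := by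
      conv_lhs => rw [Complex.sin_eq θ]
      push_cast
      ring
    rw [h2, Complex.normSq_add_mul_I]
    have h3 := Real.cosh_sq θ.im
    have h4 := Real.sin_sq_add_cos_sq θ.re
    nlinarith
  have h5 : c ^ 2 ≤ Real.sinh θ.im ^ 2 := by
    rw [← sq_abs (Real.sinh θ.im), Real.abs_sinh]
    have h6 : |θ.im| ≤ Real.sinh |θ.im| := Real.self_le_sinh_iff.2 (abs_nonneg _)
    have h7 : c ≤ Real.sinh |θ.im| := h.trans h6
    exact pow_le_pow_left₀ hc h7 2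
  have h8 : c ^ 2 ≤ ‖Complex.sin θ‖ ^ 2 := by
    rw [h1]
    have := sq_nonneg (Real.sin θ.re)
    linarith
  exact le_of_sq_le_sq h8 (norm_nonneg _)

/-- C5: bounds for `F` near `i η` and near `π - i η` give bounds for the Laplace transforms -/
theorem nbound1_pr (F : Frame1 ν ε a f) (hL : LFun1 ν ε a f L) {η r : ℝ} (hη : 0 < η) (hr : 0 < r)
    (hb : ∃ C : ℝ, ∀ θ : ℂ, 0 < θ.re → ‖θ - η * I‖ < r →
      ‖FC1 ν ε L θ‖ ≤ C / θ.re ∧ ‖FC1 ν ε L (Real.pi - θ)‖ ≤ C / θ.re) :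
    ∃ C ρ : ℝ, 0 < ρ ∧ ∀ w : ℂ, 0 < w.re → ‖w - 2 * η * I‖ < ρ →
      ‖∫ t in Ioi (1 : ℝ), ((‖L (ha (-t))‖ ^ 2 : ℝ) : ℂ) * cexp (-(w * t))‖ ≤ C / w.re ∧
      ‖∫ t in Ioi (1 : ℝ), ((‖L (ha t)‖ ^ 2 : ℝ) : ℂ) * cexp (-(w * t))‖ ≤ C / w.re := by
  obtain ⟨B, hB⟩ := hb
  obtain ⟨C, hC⟩ := Ph1_lg F.nu F.eps (r := η / 2) (R := η + 1) (by positivity)
  have hpi := Real.pi_gt_three
  set g : ℝ → ℝ := fun t => ‖L (ha t)‖ ^ 2 with hg
  have hgc : Continuous g := by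
    have h := hL.diff.continuous
    have h2 := f1_C5_cont_ha
    rw [hg]
    fun_prop
  have hg0 : ∀ t, 0 ≤ g t := fun t => by positivity
  have hgi : IntegrableOn (fun t : ℝ => (g t + g (-t)) * t ^ (-(5 / 4 : ℝ))) (Ioi 1) :=
    (growth_int1 F hL (α := 5 / 4) (by norm_num)).mono_set Ioi_subset_Ici_self
  set g' : ℝ → ℝ := fun t => g (-t) with hg'
  have hgc' : Continuous g' := hgc.comp continuous_neg
  have hg0' : ∀ t, 0 ≤ g' t := fun t => hg0 _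
  have hgi' : IntegrableOn (fun t : ℝ => (g' t + g' (-t)) * t ^ (-(5 / 4 : ℝ))) (Ioi 1) := by
    refine hgi.congr_fun (fun t _ => ?_) measurableSet_Ioi
    show (g t + g (-t)) * t ^ (-(5 / 4 : ℝ)) = (g (-t) + g (- -t)) * t ^ (-(5 / 4 : ℝ))
    rw [neg_neg, add_comm]
  set J : ℝ := ∫ t in Ioc (-1 : ℝ) 1, g t with hJ
  set J' : ℝ := ∫ t in Ioc (-1 : ℝ) 1, g' t with hJ'
  set K : ℝ := ∫ t in Ioi (1 : ℝ), (g t + g (-t)) * t ^ (-(5 / 4 : ℝ)) with hK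
  set K' : ℝ := ∫ t in Ioi (1 : ℝ), (g' t + g' (-t)) * t ^ (-(5 / 4 : ℝ)) with hK'
  have hJ0 : 0 ≤ J := setIntegral_nonneg measurableSet_Ioc (fun t _ => hg0 t)
  have hJ0' : 0 ≤ J' := setIntegral_nonneg measurableSet_Ioc (fun t _ => hg0' t)
  have hK0 : 0 ≤ K := setIntegral_nonneg measurableSet_Ioi (fun t ht => by
    have : (1 : ℝ) < t := ht
    exact mul_nonneg (add_nonneg (hg0 _) (hg0 _)) (Real.rpow_nonneg (by linarith) _))
  have hK0' : 0 ≤ K' := setIntegral_nonneg measurableSet_Ioi (fun t ht => by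
    have : (1 : ℝ) < t := ht
    exact mul_nonneg (add_nonneg (hg0' _) (hg0' _)) (Real.rpow_nonneg (by linarith) _))
  set ρ : ℝ := min (min (2 * r) η) 1 with hρ
  have hρ0 : 0 < ρ := lt_min (lt_min (by positivity) hη) one_pos
  have hρ1 : ρ ≤ 2 * r := (min_le_left _ _).trans (min_le_left _ _)
  have hρ2 : ρ ≤ η := (min_le_left _ _).trans (min_le_right _ _)
  have hρ3 : ρ ≤ 1 := min_le_right _ _
  -- the final constant
  set Q : ℝ := 2 * Real.pi * (2 * |B|) + |C| * (J + J') + |C| * (K + K') with hQ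
  have hQ0 : 0 ≤ Q := by positivity
  refine ⟨Q / (4 * Real.pi ^ 2 * (η / 2)), ρ, hρ0, fun w hw hwρ => ?_⟩
  set θ : ℂ := w / 2 with hθ
  have e1 : w = 2 * θ := by rw [hθ]; ring
  have e2 : θ.re = w.re / 2 := by rw [hθ]; simp
  have e3 : θ.im = w.im / 2 := by rw [hθ]; simp
  have e4 : (θ - η * I) = (w - 2 * η * I) / 2 := by rw [hθ]; ring
  have e5 : ‖θ - η * I‖ < r := by
    rw [e4, norm_div, Complex.norm_ofNat]
    linarith
  have e6 : |w.re| ≤ ‖w - 2 * η * I‖ := by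
    have := Complex.abs_re_le_norm (w - 2 * η * I)
    simpa using this
  have e7 : |w.im - 2 * η| ≤ ‖w - 2 * η * I‖ := by
    have := Complex.abs_im_le_norm (w - 2 * η * I)
    simpa using this
  have e8 := abs_le.1 e7
  have e9 := abs_le.1 e6
  have e10 : 0 < w.im := by linarith
  have e11 : |θ.im| = w.im / 2 := by
    rw [e3, abs_of_pos (by positivity)]
  have hw1 : w.re ≤ 1 := by linarith
  have hθ0 : 0 < θ.re := by rw [e2]; positivity
  have hθ1 : θ.re ≤ 1 := by rw [e2]; linarith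
  have hθπ : θ.re < Real.pi := by linarith
  have hC' := fun t : ℝ => hC t θ hθ0 hθ1 (by rw [e11]; linarith) (by rw [e11]; linarith)
  have hBB := hB θ hθ0 e5
  have hsin : η / 2 ≤ ‖Complex.sin θ‖ :=
    f1_C5_sin (by positivity) (by rw [e11]; linarith)
  have hre1 : (Real.pi - θ : ℂ).re = Real.pi - θ.re := by simp
  have hle : C ≤ |C| := le_abs_self C
  have hcl : ∀ t : ℝ, 1 ≤ t → C * t ^ (-(1 / 2 : ℝ)) ≤ |C| * t ^ (-(1 / 2 : ℝ)) := fun t ht =>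
    mul_le_mul_of_nonneg_right hle (Real.rpow_nonneg (by linarith) _)
  -- the two instances
  have A1 := f1_C5_gen hgc hg0 hgi (abs_nonneg C) (θ := θ) (Φ := fun t => Ph1 ν ε t θ)
    (f1_C5_cont_Ph F.nu hθ0 hθπ) hθ0
    (fun t ht => ⟨((hC' t).1 ht).1.trans (hcl t ht), ((hC' t).1 ht).2.1.trans (hcl t ht)⟩)
    (fun t ht => ((hC' t).2 ht).1.trans hle)
  have A2 := f1_C5_gen hgc' hg0' hgi' (abs_nonneg C) (θ := θ)
    (Φ := fun t => Ph1 ν ε (-t) (Real.pi - θ))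
    ((f1_C5_cont_Ph F.nu (θ := Real.pi - θ) (by rw [hre1]; linarith)
      (by rw [hre1]; linarith)).comp continuous_neg) hθ0
    (fun t ht => by
      refine ⟨?_, ((hC' t).1 ht).2.2.2.trans (hcl t ht)⟩
      have k := ((hC' t).1 ht).2.2.1.trans (hcl t ht)
      show ‖Ph1 ν ε (- -t) (Real.pi - θ) * cexp (2 * t * θ) -
        4 * Real.pi ^ 2 * Complex.sin θ‖ ≤ _
      rwa [neg_neg])
    (fun t ht => ((hC' (-t)).2 (by rwa [abs_neg])).2.trans hle)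
  have i1 : ‖∫ t : ℝ, ((g t : ℝ) : ℂ) * Ph1 ν ε t θ‖ = 2 * Real.pi * ‖FC1 ν ε L θ‖ := by
    unfold FC1
    rw [norm_mul, norm_inv, Complex.norm_real, Real.norm_of_nonneg (by positivity), ← mul_assoc,
      mul_inv_cancel₀ (by positivity), one_mul]
  have i2 : ‖∫ t : ℝ, ((g' t : ℝ) : ℂ) * Ph1 ν ε (-t) (Real.pi - θ)‖ =
      2 * Real.pi * ‖FC1 ν ε L (Real.pi - θ)‖ := by
    have i3 : ∫ t : ℝ, ((g' t : ℝ) : ℂ) * Ph1 ν ε (-t) (Real.pi - θ) =
        ∫ t : ℝ, ((g t : ℝ) : ℂ) * Ph1 ν ε t (Real.pi - θ) :=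
      integral_neg_eq_self (fun t : ℝ => ((g t : ℝ) : ℂ) * Ph1 ν ε t (Real.pi - θ)) volume
    rw [i3]
    unfold FC1
    rw [norm_mul, norm_inv, Complex.norm_real, Real.norm_of_nonneg (by positivity), ← mul_assoc,
      mul_inv_cancel₀ (by positivity), one_mul]
  rw [i1] at A1
  rw [i2] at A2
  -- conclusion
  have hfin : ∀ (X Y j k : ℝ), 0 ≤ X → Y ≤ B / θ.re → 0 ≤ j → j ≤ J + J' → 0 ≤ k →
      k ≤ K + K' → 4 * Real.pi ^ 2 * ‖Complex.sin θ‖ * X ≤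
        2 * Real.pi * Y + |C| * j + |C| * (1 / (2 * θ.re)) * k →
      X ≤ Q / (4 * Real.pi ^ 2 * (η / 2)) / w.re := by
    intro X Y j k hX hY hj hj' hk hk' hXY
    have f1 : 4 * Real.pi ^ 2 * (η / 2) * X ≤ 4 * Real.pi ^ 2 * ‖Complex.sin θ‖ * X := by
      gcongr
    have f2 : Y ≤ 2 * |B| / w.re := by
      refine hY.trans ?_
      rw [e2]
      have : B / (w.re / 2) = 2 * B / w.re := by field_simp
      rw [this]
      gcongr
      exact le_abs_self B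
    have f3 : |C| * j ≤ |C| * (J + J') / w.re := by
      rw [le_div_iff₀ hw]
      calc |C| * j * w.re ≤ |C| * (J + J') * 1 := by gcongr
        _ = _ := by ring
    have f4 : |C| * (1 / (2 * θ.re)) * k ≤ |C| * (K + K') / w.re := by
      have : 2 * θ.re = w.re := by rw [e2]; ring
      rw [this]
      calc |C| * (1 / w.re) * k ≤ |C| * (1 / w.re) * (K + K') := by gcongr
        _ = _ := by ring
    have f5 : 4 * Real.pi ^ 2 * (η / 2) * X ≤ Q / w.re := by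
      refine f1.trans (hXY.trans ?_)
      have f6 : 2 * Real.pi * Y ≤ 2 * Real.pi * (2 * |B| / w.re) := by gcongr
      have f7 : Q / w.re = 2 * Real.pi * (2 * |B| / w.re) + |C| * (J + J') / w.re +
          |C| * (K + K') / w.re := by
        rw [hQ]
        ring
      rw [f7]
      linarith
    have f8 : Q / (4 * Real.pi ^ 2 * (η / 2)) / w.re = Q / w.re / (4 * Real.pi ^ 2 * (η / 2)) := by
      rw [div_right_comm]
    rw [f8, le_div_iff₀ (by positivity)]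
    linarith
  have j1 : ∫ t in Ioi (1 : ℝ), ((‖L (ha (-t))‖ ^ 2 : ℝ) : ℂ) * cexp (-(w * t)) =
      ∫ t in Ioi (1 : ℝ), ((g (-t) : ℝ) : ℂ) * cexp (-(2 * θ * t)) := by
    rw [e1]
  have j2 : ∫ t in Ioi (1 : ℝ), ((‖L (ha t)‖ ^ 2 : ℝ) : ℂ) * cexp (-(w * t)) =
      ∫ t in Ioi (1 : ℝ), ((g' (-t) : ℝ) : ℂ) * cexp (-(2 * θ * t)) := by
    rw [e1]
    refine setIntegral_congr_fun measurableSet_Ioi fun t _ => ?_
    show ((‖L (ha t)‖ ^ 2 : ℝ) : ℂ) * cexp (-(2 * θ * t)) =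
      ((‖L (ha (- -t))‖ ^ 2 : ℝ) : ℂ) * cexp (-(2 * θ * t))
    rw [neg_neg]
  rw [j1, j2]
  exact ⟨hfin _ _ _ _ (norm_nonneg _) hBB.1 hJ0 (by linarith) hK0 (by linarith) A1,
    hfin _ _ _ _ (norm_nonneg _) hBB.2 hJ0' (by linarith) hK0' (by linarith) A2⟩

end

end Pool.Agent.JO.FM1

namespace Pool.Agent.JO.FM1

theorem nbound1 : type_of% @nbound1_pr := @nbound1_pr

end Pool.Agent.JO.FM1
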