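import Pool.Agent.Lib_helper42.JO1.Defs
import Pool.Agent.Lib_helper45.JO.Defs2
import Pool.Agent.Lib_helper42.JO1F.P1

/-!
-/

set_option autoImplicit false

namespace Pool.Agent.JO.FM1

open Complex Filter Topology MeasureTheory Set
open UpperHalfPlane hiding I
open Pool.Agent.JO.FM
open scoped MatrixGroups ComplexConjugate

theorem f1_p4_exp {k : ℝ} (hk : 0 < k) : Integrable (fun u : ℝ => Real.exp (-(k * |u|))) := by
  have h1 : IntegrableOn (fun u : ℝ => Real.exp (-(k * |u|))) (Ioi 0) := by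
    have h := exp_neg_integrableOn_Ioi 0 hk
    refine (integrableOn_congr_fun (fun u hu => ?_) measurableSet_Ioi).1 h
    have hu0 : (0 : ℝ) < u := hu
    rw [abs_of_pos hu0]
    congr 1
    ring
  have h2 : IntegrableOn (fun u : ℝ => Real.exp (-(k * |u|))) (Iic 0) := by
    have h := integrableOn_exp_mul_Iic hk 0
    refine (integrableOn_congr_fun (fun u hu => ?_) measurableSet_Iic).1 h
    have hu0 : u ≤ 0 := hu
    rw [abs_of_nonpos hu0]
    congr 1
    ring
  have h3 := h2.union h1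
  rwa [Iic_union_Ioi, integrableOn_univ] at h3

/-- the powers -/
theorem f1_p4_cpow {c w : ℂ} (hc : c = I ∨ c = -I) (hw : w.re = -1) (hw' : |w.im| ≤ 1) {Z : ℝ}
    (hZ : 0 < Z) : ‖((Z : ℂ) + c) ^ w‖ ≤ Real.exp Real.pi * min 1 (1 / Z) := by
  have h1 : ((Z : ℂ) + c).re = Z := by rcases hc with h | h <;> simp [h]
  have h2 : |((Z : ℂ) + c).im| = 1 := by rcases hc with h | h <;> simp [h]
  have h3 : 1 ≤ ‖(Z : ℂ) + c‖ := by
    rw [← h2]
    exact Complex.abs_im_le_norm _
  have h4 : Z ≤ ‖(Z : ℂ) + c‖ := by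
    calc Z ≤ |Z| := le_abs_self Z
      _ = |((Z : ℂ) + c).re| := by rw [h1]
      _ ≤ _ := Complex.abs_re_le_norm _
  have hne : (Z : ℂ) + c ≠ 0 := by
    intro h
    rw [h, norm_zero] at h3
    linarith
  have hp : 0 < ‖(Z : ℂ) + c‖ := by linarith
  rw [Complex.norm_cpow_of_ne_zero hne, hw, Real.rpow_neg_one, div_eq_mul_inv, ← Real.exp_neg,
    mul_comm]
  have e1 : -(arg ((Z : ℂ) + c) * w.im) ≤ Real.pi := by
    have a1 := Complex.abs_arg_le_pi ((Z : ℂ) + c)
    calc -(arg ((Z : ℂ) + c) * w.im) ≤ |arg ((Z : ℂ) + c) * w.im| := neg_le_abs _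
      _ = |arg ((Z : ℂ) + c)| * |w.im| := abs_mul _ _
      _ ≤ Real.pi * 1 := mul_le_mul a1 hw' (abs_nonneg _) Real.pi_pos.le
      _ = Real.pi := mul_one _
  have e2 : ‖(Z : ℂ) + c‖⁻¹ ≤ min 1 (1 / Z) := by
    refine le_min (inv_le_one_of_one_le₀ h3) ?_
    rw [one_div]
    exact inv_anti₀ hZ h4
  exact mul_le_mul (Real.exp_le_exp.2 e1) e2 (by positivity) (Real.exp_pos _).le

/-- the majorant -/
theorem f1_p4_maj {v : ℝ} (hv : 0 < v) (u : ℝ) :
    Real.cosh (u / 2) * min 1 (1 / (v * Real.cosh u)) ≤ 2 * v ^ (-(1 / 2) : ℝ) *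
      (Real.exp (-(1 / 2 * |u + Real.log v|)) + Real.exp (-(1 / 2 * |u - Real.log v|))) := by
  have hvp : 0 < v ^ (-(1 / 2) : ℝ) := Real.rpow_pos_of_pos hv _
  have hve : v ^ (-(1 / 2) : ℝ) = Real.exp (-(1 / 2) * Real.log v) := by
    rw [Real.rpow_def_of_pos hv]
    congr 1
    ring
  have hve1 : v = Real.exp (Real.log v) := (Real.exp_log hv).symm
  -- the bound with `|u|`
  have key : Real.cosh (u / 2) * min 1 (1 / (v * Real.cosh u)) ≤ 2 * v ^ (-(1 / 2) : ℝ) *
      Real.exp (-(1 / 2 * |(|u|) + Real.log v|)) := by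
    have hc1 : Real.cosh (u / 2) ≤ Real.exp (|u| / 2) := by
      rw [← Real.cosh_abs, abs_div, abs_of_pos (show (0 : ℝ) < 2 by norm_num), Real.cosh_eq]
      have : Real.exp (-(|u| / 2)) ≤ Real.exp (|u| / 2) := by
        apply Real.exp_le_exp.2
        have := abs_nonneg u
        linarith
      linarith
    have hc2 : Real.exp |u| / 2 ≤ Real.cosh u := by
      rw [← Real.cosh_abs, Real.cosh_eq]
      have := Real.exp_pos (-|u|)
      linarith
    have hcp := Real.cosh_pos (u / 2)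
    have hcu := Real.cosh_pos u
    have hep := Real.exp_pos |u|
    rcases le_total 0 (|u| + Real.log v) with h | h
    · rw [abs_of_nonneg h]
      have hm : min 1 (1 / (v * Real.cosh u)) ≤ 2 * (Real.exp (-Real.log v) * Real.exp (-|u|)) := by
        refine (min_le_right _ _).trans ?_
        have h5 : v * (Real.exp |u| / 2) ≤ v * Real.cosh u := by gcongr
        refine (one_div_le_one_div_of_le (by positivity) h5).trans (le_of_eq ?_)
        rw [Real.exp_neg, Real.exp_log hv, Real.exp_neg]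
        field_simp
      calc Real.cosh (u / 2) * min 1 (1 / (v * Real.cosh u)) ≤
          Real.exp (|u| / 2) * (2 * (Real.exp (-Real.log v) * Real.exp (-|u|))) := by
            have : 0 ≤ min 1 (1 / (v * Real.cosh u)) := by positivity
            exact mul_le_mul hc1 hm this (Real.exp_pos _).le
        _ = 2 * v ^ (-(1 / 2) : ℝ) * Real.exp (-(1 / 2 * (|u| + Real.log v))) := by
            rw [hve, mul_assoc 2, ← Real.exp_add, ← Real.exp_add]
            have : Real.exp (|u| / 2) * (2 * Real.exp (-Real.log v + -|u|)) =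
                2 * (Real.exp (|u| / 2) * Real.exp (-Real.log v + -|u|)) := by ring
            rw [this, ← Real.exp_add]
            congr 2
            ring
    · rw [abs_of_nonpos h]
      calc Real.cosh (u / 2) * min 1 (1 / (v * Real.cosh u)) ≤ Real.exp (|u| / 2) * 1 := by
            have : 0 ≤ min 1 (1 / (v * Real.cosh u)) := by positivity
            exact mul_le_mul hc1 (min_le_left _ _) this (Real.exp_pos _).le
        _ = v ^ (-(1 / 2) : ℝ) * Real.exp (-(1 / 2 * -(|u| + Real.log v))) := by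
            rw [hve, ← Real.exp_add, mul_one]
            congr 1
            ring
        _ ≤ 2 * v ^ (-(1 / 2) : ℝ) * Real.exp (-(1 / 2 * -(|u| + Real.log v))) := by
            have : 0 ≤ v ^ (-(1 / 2) : ℝ) * Real.exp (-(1 / 2 * -(|u| + Real.log v))) := by
              positivity
            linarith
  refine key.trans (mul_le_mul_of_nonneg_left ?_ (by positivity))
  rcases abs_choice u with h | h
  · rw [h]
    have := Real.exp_pos (-(1 / 2 * |u - Real.log v|))
    linarith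
  · have e1 : |(|u|) + Real.log v| = |u - Real.log v| := by
      rw [h, ← abs_neg]
      congr 1
      ring
    rw [e1]
    have := Real.exp_pos (-(1 / 2 * |u + Real.log v|))
    linarith

section

variable {ν : ℂ} {ε : ℝ} {a : ℕ → ℂ} {f : ℍ → ℂ} {L : ℂ → ℂ}

/-- P4: small `τ` -/
theorem Ph1_small_pr (hν : ν.re = 0) (hε : ε = 1 ∨ ε = -1) {θ₀ : ℝ} (h0 : 0 < θ₀)
    (h1 : θ₀ < Real.pi / 2) : ∃ C : ℝ, ∀ τ θ : ℝ, |τ| ≤ 1 → 0 < θ → θ ≤ θ₀ →
      ‖G1 ν ε (ha τ) θ‖ ^ 2 ≤ C * Real.tan θ := by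
  -- the Gamma factor
  have hGc : ContinuousOn (fun τ : ℝ => Gamma (1 + (τ : ℂ) * I)) (Icc (-1) 1) := by
    intro τ _
    have h2 : ContinuousAt Gamma (1 + (τ : ℂ) * I) := by
      refine (Complex.differentiableAt_Gamma _ ?_).continuousAt
      intro m h
      have := congrArg Complex.re h
      simp at this
      have h3 : (0 : ℝ) ≤ m := Nat.cast_nonneg m
      linarith
    have h3 : ContinuousAt (fun τ : ℝ => (1 + (τ : ℂ) * I)) τ := by fun_prop
    exact (ContinuousAt.comp (f := fun τ : ℝ => (1 + (τ : ℂ) * I)) h2 h3).continuousWithinAt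
  obtain ⟨Cg, hCg⟩ := isCompact_Icc.exists_bound_of_continuousOn hGc
  set J : ℝ := ∫ u : ℝ, Real.exp (-(1 / 2 * |u|)) with hJ
  have hJ0 : 0 ≤ J := integral_nonneg fun u => (Real.exp_pos _).le
  have hJi := f1_p4_exp (k := 1 / 2) (by norm_num)
  refine ⟨Cg ^ 2 * (2 * Real.exp Real.pi * (2 * (J + J))) ^ 2, fun τ θ hτ hθ0 hθ1 => ?_⟩
  have hθ : θ ∈ Ioo 0 (Real.pi / 2) := ⟨hθ0, lt_of_le_of_lt hθ1 h1⟩
  rw [G1_tan hν hθ]
  set v : ℝ := Real.tan θ with hv
  have hvp : 0 < v := Real.tan_pos_of_pos_of_lt_pi_div_two hθ.1 hθ.2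
  have hvh : 0 < v ^ (-(1 / 2) : ℝ) := Real.rpow_pos_of_pos hvp _
  have hτ' : τ ∈ Icc (-1 : ℝ) 1 := abs_le.1 hτ
  have hG := hCg τ hτ'
  have hi1 : Integrable (fun u : ℝ => Real.exp (-(1 / 2 * |u + Real.log v|))) :=
    hJi.comp_add_right (Real.log v)
  have hi2 : Integrable (fun u : ℝ => Real.exp (-(1 / 2 * |u - Real.log v|))) :=
    hJi.comp_sub_right (Real.log v)
  have hmaj : Integrable (fun u : ℝ => 2 * Real.exp Real.pi * (2 * v ^ (-(1 / 2) : ℝ) *
      (Real.exp (-(1 / 2 * |u + Real.log v|)) + Real.exp (-(1 / 2 * |u - Real.log v|))))) :=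
    ((hi1.add hi2).const_mul _).const_mul _
  have hI : ‖∫ u : ℝ, cexp (ν * u) *
        ((Real.cosh (u / 2) : ℝ) *
            (((v * Real.cosh u : ℝ) : ℂ) - I) ^ (-1 - (τ : ℂ) * I) +
          ε * ((Real.sinh (u / 2) : ℝ) *
            (((v * Real.cosh u : ℝ) : ℂ) + I) ^ (-1 - (τ : ℂ) * I)))‖ ≤
      2 * Real.exp Real.pi * (2 * v ^ (-(1 / 2) : ℝ) * (J + J)) := by
    refine (norm_integral_le_of_norm_le hmaj (Eventually.of_forall fun u => ?_)).trans
      (le_of_eq ?_)
    · have hcu := Real.cosh_pos u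
      have hch := Real.cosh_pos (u / 2)
      have hZ : 0 < v * Real.cosh u := by positivity
      have hwre : (-1 - (τ : ℂ) * I).re = -1 := by simp
      have hwim : |(-1 - (τ : ℂ) * I).im| ≤ 1 := by simpa using hτ
      have p1 := f1_p4_cpow (Or.inr rfl : -I = I ∨ -I = -I) hwre hwim hZ
      have p2 := f1_p4_cpow (Or.inl rfl : I = I ∨ I = -I) hwre hwim hZ
      rw [← sub_eq_add_neg] at p1
      have n1 : ‖cexp (ν * u)‖ = 1 := by
        rw [Complex.norm_exp]
        simp [hν]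
      have n2 : ‖(ε : ℂ)‖ = 1 := by
        rcases hε with h | h <;> simp [h]
      have n3 : ‖((Real.sinh (u / 2) : ℝ) : ℂ)‖ ≤ Real.cosh (u / 2) := by
        rw [Complex.norm_real, Real.norm_eq_abs, Real.abs_sinh, ← Real.cosh_abs (u / 2)]
        exact (Real.sinh_lt_cosh _).le
      have n4 : ‖((Real.cosh (u / 2) : ℝ) : ℂ)‖ = Real.cosh (u / 2) := by
        rw [Complex.norm_real, Real.norm_of_nonneg hch.le]
      rw [norm_mul, n1, one_mul]
      refine (norm_add_le _ _).trans ?_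
      rw [norm_mul, norm_mul, norm_mul, n2, n4, one_mul]
      have hm0 : 0 ≤ min 1 (1 / (v * Real.cosh u)) := by positivity
      calc Real.cosh (u / 2) * _ + ‖((Real.sinh (u / 2) : ℝ) : ℂ)‖ * _ ≤
          Real.cosh (u / 2) * (Real.exp Real.pi * min 1 (1 / (v * Real.cosh u))) +
            Real.cosh (u / 2) * (Real.exp Real.pi * min 1 (1 / (v * Real.cosh u))) :=
            add_le_add (mul_le_mul_of_nonneg_left p1 hch.le)
              (mul_le_mul n3 p2 (norm_nonneg _) hch.le)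
        _ = 2 * Real.exp Real.pi * (Real.cosh (u / 2) * min 1 (1 / (v * Real.cosh u))) := by ring
        _ ≤ _ := mul_le_mul_of_nonneg_left (f1_p4_maj hvp u) (by positivity)
    · rw [integral_const_mul, integral_const_mul, integral_add hi1 hi2,
        integral_add_right_eq_self (fun u : ℝ => Real.exp (-(1 / 2 * |u|))) (Real.log v),
        integral_sub_right_eq_self (fun u : ℝ => Real.exp (-(1 / 2 * |u|))) (Real.log v)]
  have hI2 := pow_le_pow_left₀ (norm_nonneg _) hI 2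
  have hG2 := pow_le_pow_left₀ (norm_nonneg _) hG 2
  have hvv : v ^ 2 * (v ^ (-(1 / 2) : ℝ)) ^ 2 = v := by
    rw [← Real.rpow_natCast (v ^ (-(1 / 2) : ℝ)), ← Real.rpow_mul hvp.le, ← Real.rpow_natCast v,
      ← Real.rpow_add hvp]
    norm_num
  calc ‖Gamma (1 + (τ : ℂ) * I)‖ ^ 2 * v ^ 2 * _ ≤
      Cg ^ 2 * v ^ 2 * (2 * Real.exp Real.pi * (2 * v ^ (-(1 / 2) : ℝ) * (J + J))) ^ 2 := by
        refine mul_le_mul (mul_le_mul_of_nonneg_right hG2 (sq_nonneg _)) hI2 (sq_nonneg _)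
          (by positivity)
    _ = Cg ^ 2 * (2 * Real.exp Real.pi * (2 * (J + J))) ^ 2 *
        (v ^ 2 * (v ^ (-(1 / 2) : ℝ)) ^ 2) := by ring
    _ = _ := by rw [hvv]

end

end Pool.Agent.JO.FM1

namespace Pool.Agent.JO.FM1

theorem Ph1_small : type_of% @Ph1_small_pr := @Ph1_small_pr

end Pool.Agent.JO.FM1
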