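import Pool.Agent.Lib_helper42.JO1.Defs
import Pool.Agent.Lib_helper45.JO.Defs2
import Pool.Agent.Lib_helper42.JO1F.K1
import Pool.Agent.Lib_helper42.JO1F.M7
import Pool.Agent.Lib_helper42.JO1F.P3
import Pool.Agent.Lib_helper42.JO1F.P4
import Pool.Agent.Lib_helper42.JO1F.P5
import Pool.Agent.Lib_helper45.JOM.K4

/-!
-/

set_option autoImplicit false

namespace Pool.Agent.JO.FM1

open Complex Filter Topology MeasureTheory Set
open UpperHalfPlane hiding I
open Pool.Agent.JO.FM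
open scoped MatrixGroups ComplexConjugate

variable {ν : ℂ} {ε : ℝ} {a : ℕ → ℂ} {f : ℍ → ℂ} {L : ℂ → ℂ}

/-! ## elementary bounds -/

theorem f1_c6_pow {κ x : ℝ} (h0 : 0 ≤ κ) (h1 : κ ≤ 1) (hx : 0 ≤ x) : x ^ κ ≤ 1 + x := by
  rcases le_or_gt x 1 with h | h
  · have := Real.rpow_le_one hx h h0
    linarith
  · have := Real.rpow_le_rpow_of_exponent_le h.le h1
    rw [Real.rpow_one] at this
    linarith

theorem f1_c6_exp {c x : ℝ} (hc : 0 < c) (hx : 0 ≤ x) :
    (1 + x) * Real.exp (-(c * x)) ≤ 1 + 1 / c := by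
  have h1 : Real.exp (-(c * x)) ≤ 1 := Real.exp_le_one_iff.2 (by nlinarith)
  have h2 : x * Real.exp (-(c * x)) ≤ 1 / c := by
    rw [Real.exp_neg, le_div_iff₀ hc, mul_assoc, inv_mul_eq_div, mul_div_assoc', div_le_one
      (Real.exp_pos _)]
    have := Real.add_one_le_exp (c * x)
    nlinarith
  nlinarith

/-! ## Laplace transforms -/

/-- the data: a nonnegative continuous function of moderate growth -/
structure f1_c6_D (g : ℝ → ℝ) : Prop where
  nonneg : ∀ t, 0 ≤ g t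
  cont : Continuous g
  int : IntegrableOn (fun t : ℝ => g t * t ^ (-2 : ℝ)) (Ioi 1)

theorem f1_c6_int1 {g : ℝ → ℝ} (D : f1_c6_D g) {v : ℝ} (hv : 0 < v) :
    IntegrableOn (fun t : ℝ => g t * t * Real.exp (-(v * t))) (Ioi 1) := by
  have h1 := D.int.const_mul (6 / v ^ 3)
  refine h1.mono' ?_ ?_
  · exact (((D.cont.mul continuous_id).mul (by fun_prop)).continuousOn.aestronglyMeasurable
      measurableSet_Ioi)
  · rw [ae_restrict_iff' measurableSet_Ioi]
    refine Eventually.of_forall fun t ht => ?_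
    have ht0 : (0 : ℝ) < t := lt_trans one_pos ht
    rw [Real.norm_eq_abs, abs_of_nonneg (mul_nonneg (mul_nonneg (D.nonneg _) ht0.le)
      (Real.exp_pos _).le)]
    have h2 : t * Real.exp (-(v * t)) ≤ 6 / v ^ 3 * t ^ (-2 : ℝ) := by
      have h3 := Real.pow_div_factorial_le_exp (x := v * t) (by positivity) 3
      have h4 : ((3 : ℕ).factorial : ℝ) = 6 := by norm_num [Nat.factorial]
      rw [h4] at h3
      rw [Real.exp_neg, Real.rpow_neg ht0.le, Real.rpow_two]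
      rw [← div_eq_mul_inv, div_le_iff₀ (Real.exp_pos _)]
      have h5 : t = 6 / v ^ 3 * (t ^ 2)⁻¹ * ((v * t) ^ 3 / 6) := by
        field_simp
      calc t = 6 / v ^ 3 * (t ^ 2)⁻¹ * ((v * t) ^ 3 / 6) := h5
        _ ≤ _ := mul_le_mul_of_nonneg_left h3 (by positivity)
    calc g t * t * Real.exp (-(v * t)) = g t * (t * Real.exp (-(v * t))) := by ring
      _ ≤ g t * (6 / v ^ 3 * t ^ (-2 : ℝ)) := mul_le_mul_of_nonneg_left h2 (D.nonneg _)
      _ = 6 / v ^ 3 * (g t * t ^ (-2 : ℝ)) := by ring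

theorem f1_c6_int0 {g : ℝ → ℝ} (D : f1_c6_D g) {v : ℝ} (hv : 0 < v) :
    IntegrableOn (fun t : ℝ => g t * Real.exp (-(v * t))) (Ioi 1) := by
  refine (f1_c6_int1 D hv).mono' ?_ ?_
  · exact ((D.cont.mul (by fun_prop)).continuousOn.aestronglyMeasurable measurableSet_Ioi)
  · rw [ae_restrict_iff' measurableSet_Ioi]
    refine Eventually.of_forall fun t ht => ?_
    have ht1 : (1 : ℝ) < t := ht
    rw [Real.norm_eq_abs, abs_of_nonneg (mul_nonneg (D.nonneg _) (Real.exp_pos _).le)]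
    have h1 : g t ≤ g t * t := le_mul_of_one_le_right (D.nonneg _) ht1.le
    exact mul_le_mul_of_nonneg_right h1 (Real.exp_pos _).le

/-- the Laplace transform -/
noncomputable def f1_c6_L (g : ℝ → ℝ) (w : ℂ) : ℂ :=
  ∫ t in Ioi (1 : ℝ), ((g t : ℝ) : ℂ) * cexp (-(w * t))

theorem f1_c6_L_deriv {g : ℝ → ℝ} (D : f1_c6_D g) {w : ℂ} (hw : 0 < w.re) :
    HasDerivAt (f1_c6_L g)
      (∫ t in Ioi (1 : ℝ), -(((g t * t : ℝ) : ℂ) * cexp (-(w * t)))) w := by
  have hcont : ∀ z : ℂ, Continuous (fun t : ℝ => ((g t : ℝ) : ℂ) * cexp (-(z * t))) := fun z =>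
    (Complex.continuous_ofReal.comp D.cont).mul (by fun_prop)
  have hcont2 : ∀ z : ℂ, Continuous (fun t : ℝ => -(((g t * t : ℝ) : ℂ) * cexp (-(z * t)))) :=
    fun z => ((Complex.continuous_ofReal.comp (D.cont.mul continuous_id)).mul (by fun_prop)).neg
  have hnorm : ∀ (z : ℂ) (t : ℝ), ‖cexp (-(z * t))‖ = Real.exp (-(z.re * t)) := by
    intro z t
    rw [Complex.norm_exp]
    simp
  refine (hasDerivAt_integral_of_dominated_loc_of_deriv_le
    (F := fun (z : ℂ) (t : ℝ) => ((g t : ℝ) : ℂ) * cexp (-(z * t)))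
    (F' := fun (z : ℂ) (t : ℝ) => -(((g t * t : ℝ) : ℂ) * cexp (-(z * t))))
    (s := Metric.ball w (w.re / 2)) (bound := fun t => g t * t * Real.exp (-(w.re / 2 * t)))
    (Metric.ball_mem_nhds _ (by positivity)) ?_ ?_ ?_ ?_ (f1_c6_int1 D (by positivity)) ?_).2
  · exact Eventually.of_forall fun z => (hcont z).aestronglyMeasurable
  · refine (f1_c6_int0 D hw).mono' (hcont w).aestronglyMeasurable ?_
    refine Eventually.of_forall fun t => ?_
    rw [norm_mul, Complex.norm_real, Real.norm_eq_abs, abs_of_nonneg (D.nonneg _), hnorm]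
  · exact (hcont2 w).aestronglyMeasurable
  · rw [ae_restrict_iff' measurableSet_Ioi]
    refine Eventually.of_forall fun t ht z hz => ?_
    have ht0 : (0 : ℝ) < t := lt_trans one_pos ht
    rw [norm_neg, norm_mul, Complex.norm_real, Real.norm_eq_abs,
      abs_of_nonneg (mul_nonneg (D.nonneg _) ht0.le), hnorm]
    refine mul_le_mul_of_nonneg_left (Real.exp_le_exp.2 ?_) (mul_nonneg (D.nonneg _) ht0.le)
    have h1 : w.re / 2 ≤ z.re := by
      have h2 : |(z - w).re| < w.re / 2 := (Complex.abs_re_le_norm _).trans_lt (by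
        simpa [dist_eq_norm] using hz)
      rw [Complex.sub_re] at h2
      have := (abs_lt.1 h2).1
      linarith
    nlinarith
  · refine Eventually.of_forall fun t z _ => ?_
    have h1 : HasDerivAt (fun z : ℂ => -(z * t)) (-(t : ℂ)) z := by
      have h0 := ((hasDerivAt_id z).mul_const (t : ℂ)).neg
      rw [one_mul] at h0
      exact h0
    have h2 := (h1.cexp).const_mul ((g t : ℝ) : ℂ)
    refine h2.congr_deriv ?_
    push_cast
    ring

theorem f1_c6_N {g : ℝ → ℝ} (D : f1_c6_D g) {l : ℝ}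
    (hb : ∃ C ρ : ℝ, 0 < ρ ∧ ∀ w : ℂ, 0 < w.re → ‖w - l * I‖ < ρ →
      ‖∫ t in Ioi (1 : ℝ), ((g t : ℝ) : ℂ) * cexp (-(w * t))‖ ≤ C / w.re) :
    ∃ C : ℝ, 0 ≤ C ∧ ∀ x : ℝ, 0 < x →
      ‖∫ t in Ioi (1 : ℝ), ((g t * t : ℝ) : ℂ) * cexp (-((x + l * I) * t))‖ ≤ C / x ^ 2 := by
  obtain ⟨C, ρ, hρ, h⟩ := hb
  set B : ℝ := ∫ t in Ioi (1 : ℝ), g t * t * Real.exp (-(ρ / 2 * t)) with hB
  have hB0 : 0 ≤ B := by
    refine setIntegral_nonneg measurableSet_Ioi fun t ht => ?_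
    have ht0 : (0 : ℝ) < t := lt_trans one_pos ht
    exact mul_nonneg (mul_nonneg (D.nonneg _) ht0.le) (Real.exp_pos _).le
  refine ⟨4 * |C| + 2 * Real.exp (ρ / 2) * B, by positivity, fun x hx => ?_⟩
  rcases lt_or_ge x (ρ / 2) with hxρ | hxρ
  · -- Cauchy estimate
    set c : ℂ := (x : ℂ) + l * I with hc
    have hcre : c.re = x := by simp [hc]
    have hd := f1_c6_L_deriv D (w := c) (by rw [hcre]; exact hx)
    have hsub : Metric.closedBall c (x / 2) ⊆ {w : ℂ | 0 < w.re} := by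
      intro z hz
      have h2 : |(z - c).re| ≤ x / 2 := (Complex.abs_re_le_norm _).trans (by
        simpa [dist_eq_norm] using hz)
      rw [Complex.sub_re, hcre] at h2
      have := (abs_le.1 h2).1
      show 0 < z.re
      linarith
    have hdiff : DifferentiableOn ℂ (f1_c6_L g) {w : ℂ | 0 < w.re} := fun z hz =>
      (f1_c6_L_deriv D hz).differentiableAt.differentiableWithinAt
    have h1 := Complex.norm_deriv_le_of_forall_mem_sphere_norm_le (c := c) (R := x / 2)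
      (C := 2 * |C| / x) (by positivity) (hdiff.diffContOnCl_ball hsub) (by
        intro z hz
        have hz' : ‖z - c‖ = x / 2 := by simpa [dist_eq_norm] using hz
        have h2 : |(z - c).re| ≤ x / 2 := (Complex.abs_re_le_norm _).trans hz'.le
        rw [Complex.sub_re, hcre] at h2
        have h3 : x / 2 ≤ z.re := by
          have := (abs_le.1 h2).1
          linarith
        have h4 : ‖z - l * I‖ < ρ := by
          have h5 : z - l * I = (z - c) + x := by rw [hc]; ring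
          rw [h5]
          refine (norm_add_le _ _).trans_lt ?_
          rw [hz', Complex.norm_real, Real.norm_eq_abs, abs_of_pos hx]
          linarith
        have h6 := h z (by linarith) h4
        refine h6.trans ?_
        calc C / z.re ≤ |C| / z.re := by
              exact div_le_div_of_nonneg_right (le_abs_self C) (by linarith)
          _ ≤ |C| / (x / 2) := div_le_div_of_nonneg_left (abs_nonneg C) (by positivity) h3
          _ = 2 * |C| / x := by field_simp)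
    rw [hd.deriv, integral_neg, norm_neg] at h1
    refine h1.trans ?_
    have h7 : 2 * |C| / x / (x / 2) = 4 * |C| / x ^ 2 := by
      field_simp
      ring
    rw [h7]
    refine div_le_div_of_nonneg_right ?_ (by positivity)
    have : 0 ≤ 2 * Real.exp (ρ / 2) * B := by positivity
    linarith
  · have h1 : ‖∫ t in Ioi (1 : ℝ), ((g t * t : ℝ) : ℂ) * cexp (-((x + l * I) * t))‖ ≤
        ∫ t in Ioi (1 : ℝ), Real.exp (-(x - ρ / 2)) * (g t * t * Real.exp (-(ρ / 2 * t))) := by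
      refine norm_integral_le_of_norm_le ((f1_c6_int1 D (half_pos hρ)).const_mul _) ?_
      rw [ae_restrict_iff' measurableSet_Ioi]
      refine Eventually.of_forall fun t ht => ?_
      have ht1 : (1 : ℝ) < t := ht
      have hgt : 0 ≤ g t * t := mul_nonneg (D.nonneg _) (by linarith)
      rw [norm_mul, Complex.norm_real, Real.norm_eq_abs, abs_of_nonneg hgt, Complex.norm_exp]
      have h3 : (-(((x : ℂ) + l * I) * t)).re = -(x * t) := by simp
      rw [h3]
      have h4 : Real.exp (-(x * t)) ≤ Real.exp (-(x - ρ / 2)) * Real.exp (-(ρ / 2 * t)) := by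
        rw [← Real.exp_add]
        apply Real.exp_le_exp.2
        nlinarith
      calc g t * t * Real.exp (-(x * t)) ≤
            g t * t * (Real.exp (-(x - ρ / 2)) * Real.exp (-(ρ / 2 * t))) :=
            mul_le_mul_of_nonneg_left h4 hgt
        _ = _ := by ring
    rw [integral_const_mul, ← hB] at h1
    refine h1.trans ?_
    rw [le_div_iff₀ (by positivity)]
    have h5 : x ^ 2 * Real.exp (-x) ≤ 2 := by
      have h6 := Real.pow_div_factorial_le_exp (x := x) hx.le 2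
      have h7 : ((2 : ℕ).factorial : ℝ) = 2 := by norm_num [Nat.factorial]
      rw [h7] at h6
      rw [Real.exp_neg, ← div_eq_mul_inv, div_le_iff₀ (Real.exp_pos _)]
      linarith
    have h6 : Real.exp (-(x - ρ / 2)) = Real.exp (ρ / 2) * Real.exp (-x) := by
      rw [← Real.exp_add]
      congr 1
      ring
    rw [h6]
    have h7 : Real.exp (ρ / 2) * Real.exp (-x) * B * x ^ 2 =
        Real.exp (ρ / 2) * B * (x ^ 2 * Real.exp (-x)) := by ring
    rw [h7]
    have h8 : 0 ≤ Real.exp (ρ / 2) * B := by positivity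
    nlinarith [abs_nonneg C]

/-! ## Fubini -/

/-- the integrand in three variables -/
noncomputable def f1_c6_K (g : ℝ → ℝ) (h : ℝ → ℂ) (l v : ℝ) (t : ℝ) (p : ℝ × ℝ) : ℂ :=
  ((g t * t : ℝ) : ℂ) * cexp (-(l * I * t)) *
    ((cexp (-((t * v : ℝ) : ℂ) * (Real.cosh p.1 : ℝ)) * h p.1) *
      (cexp (-((t * v : ℝ) : ℂ) * (Real.cosh p.2 : ℝ)) * h p.2))

theorem f1_c6_K_cont {g : ℝ → ℝ} (D : f1_c6_D g) {h : ℝ → ℂ} (hh : Continuous h) (l v : ℝ) :
    Continuous (fun q : ℝ × (ℝ × ℝ) => f1_c6_K g h l v q.1 q.2) := by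
  unfold f1_c6_K
  have h1 : Continuous (fun q : ℝ × (ℝ × ℝ) => ((g q.1 * q.1 : ℝ) : ℂ)) :=
    Complex.continuous_ofReal.comp ((D.cont.comp continuous_fst).mul continuous_fst)
  have h2 : Continuous (fun q : ℝ × (ℝ × ℝ) => h q.2.1) :=
    hh.comp (continuous_fst.comp continuous_snd)
  have h3 : Continuous (fun q : ℝ × (ℝ × ℝ) => h q.2.2) :=
    hh.comp (continuous_snd.comp continuous_snd)
  exact (h1.mul (by fun_prop)).mul (((by fun_prop : Continuous fun q : ℝ × (ℝ × ℝ) =>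
    cexp (-((q.1 * v : ℝ) : ℂ) * (Real.cosh q.2.1 : ℝ))).mul h2).mul
    ((by fun_prop : Continuous fun q : ℝ × (ℝ × ℝ) =>
    cexp (-((q.1 * v : ℝ) : ℂ) * (Real.cosh q.2.2 : ℝ))).mul h3))

theorem f1_c6_half {v : ℝ} (hv : 0 < v) :
    Integrable (fun u : ℝ => Real.exp (-(v * Real.cosh u)) * Real.cosh (u / 2)) := by
  have h1 := (Wp_eq 0 hv).1.norm
  refine h1.congr (Eventually.of_forall fun u => ?_)
  simp only
  rw [zero_mul, Complex.cosh_zero, one_mul, norm_mul, Complex.norm_real, Real.norm_eq_abs,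
    abs_of_pos (Real.cosh_pos _), Complex.norm_exp]
  congr 2
  simp

theorem f1_c6_ex (x : ℝ) (c : ℝ) : ‖cexp (-((x : ℝ) : ℂ) * (c : ℝ))‖ = Real.exp (-(x * c)) := by
  rw [Complex.norm_exp]
  congr 1
  rw [← Complex.ofReal_neg, ← Complex.ofReal_mul, Complex.ofReal_re]
  ring

theorem f1_c6_K_int {g : ℝ → ℝ} (D : f1_c6_D g) {h : ℝ → ℂ} (hh : Continuous h)
    (hh1 : ∀ u, ‖h u‖ ≤ Real.cosh (u / 2)) (l : ℝ) {v : ℝ} (hv : 0 < v) :
    Integrable (Function.uncurry (f1_c6_K g h l v))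
      ((volume.restrict (Ioi (1 : ℝ))).prod ((volume : Measure ℝ).prod (volume : Measure ℝ))) := by
  have h1 : Integrable (fun q : ℝ × (ℝ × ℝ) => (g q.1 * q.1 * Real.exp (-(v * q.1))) *
      ((Real.exp (-(v / 2 * Real.cosh q.2.1)) * Real.cosh (q.2.1 / 2)) *
        (Real.exp (-(v / 2 * Real.cosh q.2.2)) * Real.cosh (q.2.2 / 2))))
      ((volume.restrict (Ioi (1 : ℝ))).prod ((volume : Measure ℝ).prod (volume : Measure ℝ))) := by
    have h2 := (f1_c6_half (half_pos hv)).mul_prod (f1_c6_half (half_pos hv))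
    exact Integrable.mul_prod (f1_c6_int1 D hv) h2
  refine h1.mono' ?_ ?_
  · exact (f1_c6_K_cont D hh l v).aestronglyMeasurable
  · have hae : ∀ᵐ q : ℝ × (ℝ × ℝ) ∂((volume.restrict (Ioi (1 : ℝ))).prod
        ((volume : Measure ℝ).prod (volume : Measure ℝ))), 1 < q.1 := by
      have h3 : (volume.restrict (Ioi (1 : ℝ))).prod
          ((volume : Measure ℝ).prod (volume : Measure ℝ)) =
          ((volume : Measure ℝ).prod ((volume : Measure ℝ).prod (volume : Measure ℝ))).restrict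
            (Ioi (1 : ℝ) ×ˢ (univ : Set (ℝ × ℝ))) := by
        rw [← Measure.prod_restrict, Measure.restrict_univ]
      rw [h3, ae_restrict_iff' (measurableSet_Ioi.prod MeasurableSet.univ)]
      exact Eventually.of_forall fun q hq => hq.1
    filter_upwards [hae] with q hq
    show ‖f1_c6_K g h l v q.1 q.2‖ ≤ _
    obtain ⟨t, a, b⟩ := q
    simp only at hq ⊢
    have hgt : 0 ≤ g t * t := mul_nonneg (D.nonneg _) (by linarith)
    unfold f1_c6_K
    simp only
    have e1 : ‖cexp (-((l : ℂ) * I * t))‖ = 1 := by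
      rw [Complex.norm_exp]
      simp
    rw [norm_mul, norm_mul, norm_mul, norm_mul, norm_mul, e1, mul_one, Complex.norm_real,
      Real.norm_eq_abs, abs_of_nonneg hgt, f1_c6_ex, f1_c6_ex, mul_assoc (g t * t)]
    refine mul_le_mul_of_nonneg_left ?_ hgt
    have c1 := Real.one_le_cosh a
    have c2 := Real.one_le_cosh b
    have d1 := Real.cosh_pos (a / 2)
    have d2 := Real.cosh_pos (b / 2)
    calc Real.exp (-(t * v * Real.cosh a)) * ‖h a‖ * (Real.exp (-(t * v * Real.cosh b)) * ‖h b‖)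
        ≤ Real.exp (-(t * v * Real.cosh a)) * Real.cosh (a / 2) *
          (Real.exp (-(t * v * Real.cosh b)) * Real.cosh (b / 2)) := by
          have := hh1 a
          have := hh1 b
          gcongr
      _ = (Real.exp (-(t * v * Real.cosh a)) * Real.exp (-(t * v * Real.cosh b))) *
          (Real.cosh (a / 2) * Real.cosh (b / 2)) := by ring
      _ ≤ (Real.exp (-(v * t)) * (Real.exp (-(v / 2 * Real.cosh a)) *
          Real.exp (-(v / 2 * Real.cosh b)))) * (Real.cosh (a / 2) * Real.cosh (b / 2)) := by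
          refine mul_le_mul_of_nonneg_right ?_ (by positivity)
          rw [← Real.exp_add, ← Real.exp_add, ← Real.exp_add]
          apply Real.exp_le_exp.2
          have h5 : 0 ≤ v * (t - 1) * (Real.cosh a - 1) :=
            mul_nonneg (mul_nonneg hv.le (by linarith)) (by linarith)
          have h6 : 0 ≤ v * (t - 1) * (Real.cosh b - 1) :=
            mul_nonneg (mul_nonneg hv.le (by linarith)) (by linarith)
          have h7 : 0 ≤ v * (t - 1) := mul_nonneg hv.le (by linarith)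
          have h8 : 0 ≤ v * (Real.cosh a - 1) := mul_nonneg hv.le (by linarith)
          have h9 : 0 ≤ v * (Real.cosh b - 1) := mul_nonneg hv.le (by linarith)
          nlinarith
      _ = _ := by ring

theorem f1_c6_inner_p (g : ℝ → ℝ) (h : ℝ → ℂ) (l v t : ℝ) :
    ∫ p : ℝ × ℝ, f1_c6_K g h l v t p =
    ((g t * t : ℝ) : ℂ) * cexp (-(l * I * t)) *
      (∫ u : ℝ, cexp (-((t * v : ℝ) : ℂ) * (Real.cosh u : ℝ)) * h u) ^ 2 := by
  unfold f1_c6_K
  rw [integral_const_mul]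
  congr 1
  have h1 := integral_prod_mul (μ := (volume : Measure ℝ)) (ν := (volume : Measure ℝ))
    (fun u : ℝ => cexp (-((t * v : ℝ) : ℂ) * (Real.cosh u : ℝ)) * h u)
    (fun u : ℝ => cexp (-((t * v : ℝ) : ℂ) * (Real.cosh u : ℝ)) * h u)
  rw [Measure.volume_eq_prod, h1]
  ring

theorem f1_c6_inner_t (g : ℝ → ℝ) (h : ℝ → ℂ) (l v : ℝ) (p : ℝ × ℝ) :
    ∫ t in Ioi (1 : ℝ), f1_c6_K g h l v t p =
    h p.1 * h p.2 * ∫ t in Ioi (1 : ℝ), ((g t * t : ℝ) : ℂ) *
      cexp (-((((v * (Real.cosh p.1 + Real.cosh p.2) : ℝ) : ℂ) + l * I) * t)) := by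
  rw [← integral_const_mul]
  refine integral_congr_ae (Eventually.of_forall fun t => ?_)
  simp only [f1_c6_K]
  have e : cexp (-((((v * (Real.cosh p.1 + Real.cosh p.2) : ℝ) : ℂ) + l * I) * t)) =
      cexp (-(l * I * t)) * (cexp (-((t * v : ℝ) : ℂ) * (Real.cosh p.1 : ℝ)) *
        cexp (-((t * v : ℝ) : ℂ) * (Real.cosh p.2 : ℝ))) := by
    rw [← Complex.exp_add, ← Complex.exp_add]
    congr 1
    push_cast
    ring
  rw [e]
  ring

/-- `cosh(u/2)/cosh u` -/
noncomputable def f1_c6_j (u : ℝ) : ℝ := Real.cosh (u / 2) / Real.cosh u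

theorem f1_c6_j_nonneg (u : ℝ) : 0 ≤ f1_c6_j u := by
  unfold f1_c6_j
  have := Real.cosh_pos u
  have := Real.cosh_pos (u / 2)
  positivity

theorem f1_c6_j_int : Integrable f1_c6_j := by
  have h3 := (cosh_int (μ := 0) (s := 1 / 2) (by simp)).1.norm
  refine h3.mono' ?_ (Eventually.of_forall fun u => ?_)
  · have : Continuous f1_c6_j := by
      unfold f1_c6_j
      exact (by fun_prop : Continuous fun u : ℝ => Real.cosh (u / 2)).div (by fun_prop)
        fun u => (Real.cosh_pos u).ne'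
    exact this.aestronglyMeasurable
  · have hc := Real.cosh_pos u
    have hc2 := Real.cosh_pos (u / 2)
    rw [Real.norm_of_nonneg (f1_c6_j_nonneg u), norm_mul, zero_mul, Complex.exp_zero, norm_one,
      one_mul, Complex.norm_cpow_eq_rpow_re_of_pos hc]
    have e1 : (-(1 / 2 : ℂ)).re = -(1 / 2) := by simp
    rw [e1, Real.rpow_neg hc.le, ← Real.sqrt_eq_rpow]
    unfold f1_c6_j
    rw [div_le_iff₀ hc]
    have h4 : Real.cosh (u / 2) ≤ √(Real.cosh u) := by
      apply Real.le_sqrt_of_sq_le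
      have h5 : Real.cosh u = 2 * Real.cosh (u / 2) ^ 2 - 1 := by
        have h6 := Real.cosh_two_mul (u / 2)
        have h7 := Real.cosh_sq (u / 2)
        rw [show 2 * (u / 2) = u by ring] at h6
        linarith
      have h8 := Real.one_le_cosh (u / 2)
      nlinarith
    have h9 : (√(Real.cosh u))⁻¹ * Real.cosh u = √(Real.cosh u) := by
      have h10 : 0 < √(Real.cosh u) := Real.sqrt_pos.2 hc
      rw [inv_mul_eq_div, div_eq_iff h10.ne', Real.mul_self_sqrt hc.le]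
    rw [h9]
    exact h4

theorem f1_c6_main {g : ℝ → ℝ} (D : f1_c6_D g) {l : ℝ}
    (hb : ∃ C ρ : ℝ, 0 < ρ ∧ ∀ w : ℂ, 0 < w.re → ‖w - l * I‖ < ρ →
      ‖∫ t in Ioi (1 : ℝ), ((g t : ℝ) : ℂ) * cexp (-(w * t))‖ ≤ C / w.re)
    {h : ℝ → ℂ} (hh : Continuous h) (hh1 : ∀ u, ‖h u‖ ≤ Real.cosh (u / 2)) {W : ℝ → ℂ} {s : ℂ}
    (hs : ‖s‖ ≤ 1) (hW : ∀ x : ℝ, 0 < x → ((‖W x‖ ^ 2 : ℝ) : ℂ) =
      s * ((x : ℂ) * ∫ u : ℝ, cexp (-(x : ℂ) * (Real.cosh u : ℝ)) * h u) ^ 2) :
    ∃ C : ℝ, ∀ v : ℝ, 0 < v →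
      IntegrableOn (fun t : ℝ => ((g t * t⁻¹ * ‖W (t * v)‖ ^ 2 : ℝ) : ℂ) * cexp (-(l * I * t)))
        (Ioi 1) ∧
      ‖∫ t in Ioi (1 : ℝ), ((g t * t⁻¹ * ‖W (t * v)‖ ^ 2 : ℝ) : ℂ) * cexp (-(l * I * t))‖ ≤
        C := by
  obtain ⟨C, hC0, hC⟩ := f1_c6_N D hb
  set J : ℝ := ∫ u, f1_c6_j u with hJ
  refine ⟨C / 4 * J ^ 2, fun v hv => ?_⟩
  have hK := f1_c6_K_int D hh hh1 l hv
  have hpt : ∀ t : ℝ, t ∈ Ioi (1 : ℝ) →
      ((g t * t⁻¹ * ‖W (t * v)‖ ^ 2 : ℝ) : ℂ) * cexp (-(l * I * t)) =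
      (s * v ^ 2) * ∫ p : ℝ × ℝ, f1_c6_K g h l v t p := by
    intro t ht
    have ht0 : (0 : ℝ) < t := lt_trans one_pos ht
    have htv : 0 < t * v := mul_pos ht0 hv
    have htc : (t : ℂ) ≠ 0 := by exact_mod_cast ht0.ne'
    rw [f1_c6_inner_p, Complex.ofReal_mul, hW _ htv]
    push_cast
    field_simp
  have hI1 : Integrable (fun t => (s * v ^ 2) * ∫ p : ℝ × ℝ, f1_c6_K g h l v t p)
      (volume.restrict (Ioi (1 : ℝ))) := hK.integral_prod_left.const_mul _
  refine ⟨IntegrableOn.congr_fun hI1 (fun t ht => (hpt t ht).symm) measurableSet_Ioi, ?_⟩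
  rw [setIntegral_congr_fun measurableSet_Ioi hpt, integral_const_mul]
  have e2 : ∫ t in Ioi (1 : ℝ), ∫ p : ℝ × ℝ, f1_c6_K g h l v t p =
      ∫ p : ℝ × ℝ, ∫ t in Ioi (1 : ℝ), f1_c6_K g h l v t p := integral_integral_swap hK
  rw [e2]
  have e3 : ‖∫ p : ℝ × ℝ, ∫ t in Ioi (1 : ℝ), f1_c6_K g h l v t p‖ ≤
      ∫ p : ℝ × ℝ, C / (4 * v ^ 2) * (f1_c6_j p.1 * f1_c6_j p.2) := by
    refine norm_integral_le_of_norm_le ((f1_c6_j_int.mul_prod f1_c6_j_int).const_mul _)
      (Eventually.of_forall fun p => ?_)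
    rw [f1_c6_inner_t, norm_mul, norm_mul]
    have c1 := Real.cosh_pos p.1
    have c2 := Real.cosh_pos p.2
    have d1 := Real.cosh_pos (p.1 / 2)
    have d2 := Real.cosh_pos (p.2 / 2)
    have h1 := hC (v * (Real.cosh p.1 + Real.cosh p.2)) (by positivity)
    calc _ ≤ Real.cosh (p.1 / 2) * Real.cosh (p.2 / 2) *
          (C / (v * (Real.cosh p.1 + Real.cosh p.2)) ^ 2) := by
          refine mul_le_mul ?_ h1 (norm_nonneg _) (by positivity)
          exact mul_le_mul (hh1 _) (hh1 _) (norm_nonneg _) d1.le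
      _ ≤ Real.cosh (p.1 / 2) * Real.cosh (p.2 / 2) *
          (C / (4 * v ^ 2 * (Real.cosh p.1 * Real.cosh p.2))) := by
          refine mul_le_mul_of_nonneg_left ?_ (by positivity)
          refine div_le_div_of_nonneg_left hC0 (by positivity) ?_
          have h2 : 4 * (Real.cosh p.1 * Real.cosh p.2) ≤
              (Real.cosh p.1 + Real.cosh p.2) ^ 2 := by
            nlinarith [sq_nonneg (Real.cosh p.1 - Real.cosh p.2)]
          calc 4 * v ^ 2 * (Real.cosh p.1 * Real.cosh p.2) =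
                v ^ 2 * (4 * (Real.cosh p.1 * Real.cosh p.2)) := by ring
            _ ≤ v ^ 2 * (Real.cosh p.1 + Real.cosh p.2) ^ 2 :=
                mul_le_mul_of_nonneg_left h2 (by positivity)
            _ = _ := by ring
      _ = _ := by
          unfold f1_c6_j
          field_simp
  have e4 : ∫ p : ℝ × ℝ, C / (4 * v ^ 2) * (f1_c6_j p.1 * f1_c6_j p.2) =
      C / (4 * v ^ 2) * J ^ 2 := by
    rw [integral_const_mul]
    have h1 := integral_prod_mul (μ := (volume : Measure ℝ)) (ν := (volume : Measure ℝ))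
      f1_c6_j f1_c6_j
    rw [Measure.volume_eq_prod, h1, ← hJ]
    ring
  rw [norm_mul, norm_mul, norm_pow, Complex.norm_real, Real.norm_eq_abs, abs_of_pos hv]
  calc ‖s‖ * v ^ 2 * ‖∫ p : ℝ × ℝ, ∫ t in Ioi (1 : ℝ), f1_c6_K g h l v t p‖
      ≤ 1 * v ^ 2 * (C / (4 * v ^ 2) * J ^ 2) := by
        refine mul_le_mul ?_ (e3.trans e4.le) (norm_nonneg _) (by positivity)
        exact mul_le_mul_of_nonneg_right hs (by positivity)
    _ = C / 4 * J ^ 2 := by
        field_simp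

/-! ## assembling -/

theorem f1_c6_ha : Continuous ha := by
  unfold ha
  fun_prop

theorem f1_c6_Dp (F : Frame1 ν ε a f) (hL : LFun1 ν ε a f L) :
    f1_c6_D (fun t => ‖L (ha t)‖ ^ 2) := by
  have hc : Continuous (fun t => ‖L (ha t)‖ ^ 2) :=
    ((hL.diff.continuous.comp f1_c6_ha).norm.pow 2)
  refine ⟨fun t => by positivity, hc, ?_⟩
  have h1 := (growth_int1 F hL (α := 2) (by norm_num)).mono_set
    (Ioi_subset_Ici_self (a := (1 : ℝ)))
  refine h1.mono' ?_ ?_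
  · exact ((hc.measurable.mul (by fun_prop)).aestronglyMeasurable)
  · rw [ae_restrict_iff' measurableSet_Ioi]
    refine Eventually.of_forall fun t ht => ?_
    have ht0 : (0 : ℝ) < t := lt_trans one_pos ht
    have h2 : 0 ≤ t ^ (-2 : ℝ) := by positivity
    rw [Real.norm_eq_abs, abs_of_nonneg (by positivity)]
    refine mul_le_mul_of_nonneg_right ?_ h2
    have : 0 ≤ ‖L (ha (-t))‖ ^ 2 := by positivity
    linarith

theorem f1_c6_Dm (F : Frame1 ν ε a f) (hL : LFun1 ν ε a f L) :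
    f1_c6_D (fun t => ‖L (ha (-t))‖ ^ 2) := by
  have hc : Continuous (fun t => ‖L (ha (-t))‖ ^ 2) :=
    ((hL.diff.continuous.comp (f1_c6_ha.comp continuous_neg)).norm.pow 2)
  refine ⟨fun t => by positivity, hc, ?_⟩
  have h1 := (growth_int1 F hL (α := 2) (by norm_num)).mono_set
    (Ioi_subset_Ici_self (a := (1 : ℝ)))
  refine h1.mono' ?_ ?_
  · exact ((hc.measurable.mul (by fun_prop)).aestronglyMeasurable)
  · rw [ae_restrict_iff' measurableSet_Ioi]
    refine Eventually.of_forall fun t ht => ?_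
    have ht0 : (0 : ℝ) < t := lt_trans one_pos ht
    have h2 : 0 ≤ t ^ (-2 : ℝ) := by positivity
    rw [Real.norm_eq_abs, abs_of_nonneg (by positivity)]
    refine mul_le_mul_of_nonneg_right ?_ h2
    have : 0 ≤ ‖L (ha t)‖ ^ 2 := by positivity
    linarith

theorem f1_c6_exp1n (l t : ℝ) : ‖cexp (-(l * I * t))‖ = 1 := by
  rw [Complex.norm_exp]
  simp

/-- one side: replace the square of `G1` by its main term -/
theorem f1_c6_side {g G w : ℝ → ℝ} (D : f1_c6_D g) {l C CA : ℝ}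
    (hw : IntegrableOn (fun t : ℝ => ((g t * t⁻¹ * w t : ℝ) : ℂ) * cexp (-(l * I * t))) (Ioi 1))
    (hwC : ‖∫ t in Ioi (1 : ℝ), ((g t * t⁻¹ * w t : ℝ) : ℂ) * cexp (-(l * I * t))‖ ≤ C)
    (hG : IntegrableOn (fun t : ℝ => ((g t * G t : ℝ) : ℂ) * cexp (-(l * I * t))) (Ioi 1))
    (hGw : ∀ t : ℝ, 1 ≤ t → |G t - 2 * Real.pi / t * w t| ≤ CA * t ^ (-2 : ℝ)) :
    ‖∫ t in Ioi (1 : ℝ), ((g t * G t : ℝ) : ℂ) * cexp (-(l * I * t))‖ ≤
      CA * (∫ t in Ioi (1 : ℝ), g t * t ^ (-2 : ℝ)) + 2 * Real.pi * C := by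
  set m : ℝ → ℂ := fun t => ((g t * t⁻¹ * w t : ℝ) : ℂ) * cexp (-(l * I * t)) with hm
  set k : ℝ → ℂ := fun t => ((g t * G t : ℝ) : ℂ) * cexp (-(l * I * t)) with hk
  have hA : IntegrableOn (fun t => k t - (2 * Real.pi : ℝ) * m t) (Ioi 1) :=
    hG.sub (hw.const_mul _)
  have e1 : ∫ t in Ioi (1 : ℝ), k t = (∫ t in Ioi (1 : ℝ), (k t - (2 * Real.pi : ℝ) * m t)) +
      (2 * Real.pi : ℝ) * ∫ t in Ioi (1 : ℝ), m t := by
    rw [← integral_const_mul, ← integral_add hA (hw.const_mul _)]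
    refine integral_congr_ae (Eventually.of_forall fun t => ?_)
    simp only
    ring
  rw [e1]
  refine (norm_add_le _ _).trans (add_le_add ?_ ?_)
  · rw [← integral_const_mul]
    refine norm_integral_le_of_norm_le (D.int.const_mul _) ?_
    rw [ae_restrict_iff' measurableSet_Ioi]
    refine Eventually.of_forall fun t ht => ?_
    have ht1 : (1 : ℝ) ≤ t := le_of_lt ht
    have e2 : k t - (2 * Real.pi : ℝ) * m t =
        ((g t * (G t - 2 * Real.pi / t * w t) : ℝ) : ℂ) * cexp (-(l * I * t)) := by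
      simp only [hk, hm]
      push_cast
      ring
    rw [e2, norm_mul, f1_c6_exp1n, mul_one, Complex.norm_real, Real.norm_eq_abs, abs_mul,
      abs_of_nonneg (D.nonneg t)]
    calc g t * |G t - 2 * Real.pi / t * w t| ≤ g t * (CA * t ^ (-2 : ℝ)) :=
          mul_le_mul_of_nonneg_left (hGw t ht1) (D.nonneg t)
      _ = _ := by ring
  · rw [norm_mul, Complex.norm_real, Real.norm_eq_abs, abs_of_pos (by positivity)]
    exact mul_le_mul_of_nonneg_left hwC (by positivity)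

theorem f1_c6_SS_cont (ν : ℂ) : Continuous (SS ν) := by
  unfold SS
  by_cases h : ν = 0
  · simp only [if_pos h]
    exact Complex.continuous_ofReal
  · simp only [if_neg h]
    fun_prop

theorem f1_c6_trig {ν : ℂ} (hν : ν.re = 0) (u : ℝ) :
    ‖Complex.cosh (ν * u)‖ ≤ 1 ∧ ‖Complex.sinh (ν * u)‖ ≤ 1 := by
  have e : ν * (u : ℂ) = ((ν.im * u : ℝ) : ℂ) * I := by
    apply Complex.ext <;> simp [hν]
  rw [e, Complex.cosh_mul_I, Complex.sinh_mul_I, norm_mul, Complex.norm_I, mul_one,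
    ← Complex.ofReal_cos, ← Complex.ofReal_sin, Complex.norm_real, Complex.norm_real]
  exact ⟨Real.abs_cos_le_one _, Real.abs_sin_le_one _⟩

theorem f1_c6_sinh_le (u : ℝ) : |Real.sinh u| ≤ Real.cosh u := by
  rw [abs_le]
  constructor
  · have := Real.exp_pos u
    have h1 := Real.cosh_add_sinh u
    linarith
  · have := Real.exp_pos (-u)
    have h1 := Real.cosh_sub_sinh u
    linarith

theorem iq_bdd1_pr (F : Frame1 ν ε a f) (hL : LFun1 ν ε a f L) {q : ℝ} (hq : 1 < q)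
    (hb : ∃ C ρ : ℝ, 0 < ρ ∧ ∀ w : ℂ, 0 < w.re → ‖w - Real.log q * I‖ < ρ →
      ‖∫ t in Ioi (1 : ℝ), ((‖L (ha (-t))‖ ^ 2 : ℝ) : ℂ) * cexp (-(w * t))‖ ≤ C / w.re ∧
      ‖∫ t in Ioi (1 : ℝ), ((‖L (ha t)‖ ^ 2 : ℝ) : ℂ) * cexp (-(w * t))‖ ≤ C / w.re) :
    ∃ C : ℝ, ∀ θ : ℝ, 0 < θ → θ ≤ 1 →
      ‖∫ r in Ioi (0 : ℝ), f (pr r θ) * conj (f (pr (q * r) θ)) / r‖ ≤ C := by
  have hν := F.nu
  have hpi2 : (1 : ℝ) < Real.pi / 2 := by linarith [Real.pi_gt_three]
  set l := Real.log q with hl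
  obtain ⟨Cb, ρ, hρ, hb⟩ := hb
  have Dp := f1_c6_Dp F hL
  have Dm := f1_c6_Dm F hL
  -- the two main terms
  obtain ⟨Cm, hCm⟩ := f1_c6_main Dm (l := l)
    ⟨Cb, ρ, hρ, fun w h1 h2 => (hb w h1 h2).1⟩
    (h := fun u => Complex.cosh (ν * u) * (Real.cosh (u / 2) : ℝ)) (by fun_prop)
    (fun u => by
      rw [norm_mul, Complex.norm_real, Real.norm_eq_abs, abs_of_pos (Real.cosh_pos _)]
      exact mul_le_of_le_one_left (Real.cosh_pos _).le (f1_c6_trig hν u).1)
    (W := Wp ν) (s := 1) (by simp) (fun x hx => by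
      have h1 := (Wp_eq ν hx).2
      have h2 : conj (Wp ν x) = Wp ν x := Complex.conj_eq_iff_im.2 (W_real hν x).1
      have h3 := Complex.mul_conj (Wp ν x)
      rw [h2, Complex.normSq_eq_norm_sq] at h3
      rw [← h3, one_mul, ← h1]
      ring)
  obtain ⟨Cp, hCp⟩ := f1_c6_main Dp (l := l)
    ⟨Cb, ρ, hρ, fun w h1 h2 => (hb w h1 h2).2⟩
    (h := fun u => ν * (SS ν u * (Real.sinh (u / 2) : ℝ)))
    (continuous_const.mul ((f1_c6_SS_cont ν).mul (by fun_prop)))
    (fun u => by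
      have e : ν * (SS ν u * (Real.sinh (u / 2) : ℝ)) =
          Complex.sinh (ν * u) * (Real.sinh (u / 2) : ℝ) := by
        unfold SS
        rw [if_neg F.nune]
        have := F.nune
        field_simp
      rw [e, norm_mul, Complex.norm_real, Real.norm_eq_abs]
      calc ‖Complex.sinh (ν * u)‖ * |Real.sinh (u / 2)| ≤ 1 * Real.cosh (u / 2) :=
            mul_le_mul (f1_c6_trig hν u).2 (f1_c6_sinh_le _) (abs_nonneg _) zero_le_one
        _ = _ := one_mul _)
    (W := fun x => ν * Vm ν x) (s := -1) (by simp) (fun x hx => by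
      have h2 : conj (Vm ν x) = Vm ν x := Complex.conj_eq_iff_im.2 (W_real hν x).2
      have h4 : conj ν = -ν := by
        apply Complex.ext <;> simp [hν]
      have h3 := Complex.mul_conj (ν * Vm ν x)
      rw [map_mul, h2, h4, Complex.normSq_eq_norm_sq] at h3
      rw [← h3]
      have h5 : (x : ℂ) * ∫ u : ℝ, cexp (-(x : ℂ) * (Real.cosh u : ℝ)) *
          (ν * (SS ν u * (Real.sinh (u / 2) : ℝ))) = ν * Vm ν x := by
        unfold Vm
        have h6 : ∀ u : ℝ, cexp (-(x : ℂ) * (Real.cosh u : ℝ)) *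
          (ν * (SS ν u * (Real.sinh (u / 2) : ℝ))) = ν * (cexp (-(x : ℂ) * (Real.cosh u : ℝ)) *
          (SS ν u * (Real.sinh (u / 2) : ℝ))) := fun u => by ring
        simp only [h6]
        rw [integral_const_mul]
        ring
      rw [h5]
      ring)
  obtain ⟨C1, c, hc, hP⟩ := Ph1_asymp hν F.eps one_pos hpi2
  obtain ⟨C0, hP0⟩ := Ph1_small hν F.eps one_pos hpi2
  obtain ⟨B0, hB0⟩ := (isCompact_Icc (a := (-1 : ℝ)) (b := 1)).exists_bound_of_continuousOn
    Dp.cont.continuousOn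
  set T1 : ℝ := Real.tan 1 with hT1
  set CA : ℝ := |C1| * (1 + 1 / c) with hCA
  set S0 : ℝ := B0 * (|C0| * T1) with hS0
  refine ⟨(2 * Real.pi)⁻¹ * (S0 * 2 +
    (CA * (∫ t in Ioi (1 : ℝ), ‖L (ha (-t))‖ ^ 2 * t ^ (-2 : ℝ)) + 2 * Real.pi * Cm) +
    (CA * (∫ t in Ioi (1 : ℝ), ‖L (ha t)‖ ^ 2 * t ^ (-2 : ℝ)) + 2 * Real.pi * Cp)),
    fun θ h0 h1 => ?_⟩
  have hθ : θ ∈ Ioo 0 Real.pi := ⟨h0, by linarith [Real.pi_gt_three]⟩
  have hv : 0 < Real.tan θ := Real.tan_pos_of_pos_of_lt_pi_div_two h0 (by linarith)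
  have hvT : Real.tan θ ≤ T1 := by
    rcases h1.eq_or_lt with h | h
    · rw [h]
    · exact (Real.tan_lt_tan_of_nonneg_of_lt_pi_div_two h0.le hpi2 h).le
  rw [ray_q1 F hL hθ (q := q) (by linarith), ← hl, norm_mul, norm_inv, Complex.norm_real,
    Real.norm_eq_abs, abs_of_pos (by positivity)]
  refine mul_le_mul_of_nonneg_left ?_ (by positivity)
  set Φ : ℝ → ℂ := fun t => ((‖L (ha t)‖ ^ 2 * ‖G1 ν ε (ha t) θ‖ ^ 2 : ℝ) : ℂ) *
    cexp (t * l * I) with hΦ
  have hi := (ray_phi1 F hL hθ).1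
  have hexp1 : ∀ t : ℝ, ‖cexp (t * l * I)‖ = 1 := fun t => by
    have : (t * l * I : ℂ) = ((t * l : ℝ) : ℂ) * I := by push_cast; rfl
    rw [this, Complex.norm_exp_ofReal_mul_I]
  have hΦi : Integrable Φ := by
    have h1 : Integrable (fun t : ℝ => ((‖L (ha t)‖ ^ 2 * ‖G1 ν ε (ha t) θ‖ ^ 2 : ℝ) : ℂ)) :=
      hi.ofReal
    refine h1.mono (h1.aestronglyMeasurable.mul (by
      exact (Continuous.aestronglyMeasurable (by fun_prop)))) (Eventually.of_forall fun t => ?_)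
    rw [hΦ]
    simp only
    rw [norm_mul, hexp1, mul_one]
  have hsplit : ∫ t, Φ t = (∫ t in Ioc (-1 : ℝ) 1, Φ t) + (∫ t in Ioi (1 : ℝ), Φ (-t)) +
      ∫ t in Ioi (1 : ℝ), Φ t := by
    have h2 : ∫ t, Φ t = (∫ t in Iic (-1 : ℝ), Φ t) + ∫ t in Ioi (-1 : ℝ), Φ t :=
      (intervalIntegral.integral_Iic_add_Ioi hΦi.integrableOn hΦi.integrableOn).symm
    have h3 : ∫ t in Ioi (-1 : ℝ), Φ t = (∫ t in Ioc (-1 : ℝ) 1, Φ t) + ∫ t in Ioi (1 : ℝ), Φ t := by
      rw [← Ioc_union_Ioi_eq_Ioi (show (-1 : ℝ) ≤ 1 by norm_num)]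
      exact setIntegral_union (Ioc_disjoint_Ioi le_rfl) measurableSet_Ioi
        hΦi.integrableOn hΦi.integrableOn
    rw [h2, h3, integral_comp_neg_Ioi 1 Φ]
    ring
  have hneg : ∀ t : ℝ, Φ (-t) = ((‖L (ha (-t))‖ ^ 2 * ‖G1 ν ε (ha (-t)) θ‖ ^ 2 : ℝ) : ℂ) *
      cexp (-(l * I * t)) := by
    intro t
    simp only [hΦ]
    congr 2
    push_cast
    ring
  have hpos : ∀ t : ℝ, conj (Φ t) = ((‖L (ha t)‖ ^ 2 * ‖G1 ν ε (ha t) θ‖ ^ 2 : ℝ) : ℂ) *
      cexp (-(l * I * t)) := by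
    intro t
    simp only [hΦ]
    rw [map_mul, Complex.conj_ofReal, ← Complex.exp_conj]
    congr 2
    rw [map_mul, map_mul, Complex.conj_ofReal, Complex.conj_ofReal, Complex.conj_I]
    ring
  have hbd : ∀ t : ℝ, 1 ≤ t → C1 / t ^ 2 * (t * Real.tan θ) ^ (3 / 4 : ℝ) *
      Real.exp (-(c * (t * Real.tan θ))) ≤ CA * t ^ (-2 : ℝ) := by
    intro t ht1
    have ht0 : 0 < t := by linarith
    have htv : 0 < t * Real.tan θ := mul_pos ht0 hv
    have h7 : (t * Real.tan θ) ^ (3 / 4 : ℝ) * Real.exp (-(c * (t * Real.tan θ))) ≤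
        1 + 1 / c :=
      (mul_le_mul_of_nonneg_right (f1_c6_pow (by norm_num) (by norm_num) htv.le)
        (Real.exp_pos _).le).trans (f1_c6_exp hc htv.le)
    have h8 : 0 ≤ (t * Real.tan θ) ^ (3 / 4 : ℝ) *
        Real.exp (-(c * (t * Real.tan θ))) := by positivity
    calc C1 / t ^ 2 * (t * Real.tan θ) ^ (3 / 4 : ℝ) *
          Real.exp (-(c * (t * Real.tan θ)))
        = C1 / t ^ 2 * ((t * Real.tan θ) ^ (3 / 4 : ℝ) *
          Real.exp (-(c * (t * Real.tan θ)))) := by ring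
      _ ≤ |C1| / t ^ 2 * ((t * Real.tan θ) ^ (3 / 4 : ℝ) *
          Real.exp (-(c * (t * Real.tan θ)))) :=
          mul_le_mul_of_nonneg_right (div_le_div_of_nonneg_right (le_abs_self _)
            (by positivity)) h8
      _ ≤ |C1| / t ^ 2 * (1 + 1 / c) := mul_le_mul_of_nonneg_left h7 (by positivity)
      _ = |C1| * (1 + 1 / c) * t ^ (-2 : ℝ) := by
          rw [Real.rpow_neg ht0.le, Real.rpow_two]
          field_simp
  rw [hsplit]
  refine (norm_add_le _ _).trans (add_le_add ((norm_add_le _ _).trans (add_le_add ?_ ?_)) ?_)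
  · -- small t
    have h2 : ‖∫ t in Ioc (-1 : ℝ) 1, Φ t‖ ≤ S0 * volume.real (Ioc (-1 : ℝ) 1) := by
      refine norm_setIntegral_le_of_norm_le_const measure_Ioc_lt_top fun t ht => ?_
      have hle : ‖‖L (ha t)‖ ^ 2‖ ≤ B0 := hB0 t ⟨ht.1.le, ht.2⟩
      rw [Real.norm_eq_abs, abs_of_nonneg (by positivity)] at hle
      have hB00 : 0 ≤ B0 := le_trans (by positivity) hle
      have hG := hP0 t θ (abs_le.2 ⟨ht.1.le, ht.2⟩) h0 h1
      have hGle : ‖G1 ν ε (ha t) θ‖ ^ 2 ≤ |C0| * T1 :=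
        hG.trans (mul_le_mul (le_abs_self _) hvT hv.le (abs_nonneg _))
      simp only [hΦ]
      rw [norm_mul, hexp1, mul_one, Complex.norm_real, Real.norm_eq_abs,
        abs_of_nonneg (by positivity)]
      exact mul_le_mul hle hGle (by positivity) hB00
    have h3 : volume.real (Ioc (-1 : ℝ) 1) = 2 := by
      rw [Real.volume_real_Ioc_of_le (by norm_num)]
      norm_num
    rwa [h3] at h2
  · -- t < -1
    simp only [hneg]
    refine f1_c6_side Dm (w := fun t => ‖Wp ν (t * Real.tan θ)‖ ^ 2)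
      (G := fun t => ‖G1 ν ε (ha (-t)) θ‖ ^ 2) (hCm _ hv).1 (hCm _ hv).2 ?_ (fun t ht => ?_)
    · have h2 : IntegrableOn (fun t => Φ (-t)) (Ioi 1) := hΦi.comp_neg.integrableOn
      exact h2.congr_fun (fun t _ => hneg t) measurableSet_Ioi
    · exact ((hP t θ ht h0 h1).1).trans (hbd t ht)
  · -- t > 1
    have e : ‖∫ t in Ioi (1 : ℝ), Φ t‖ = ‖∫ t in Ioi (1 : ℝ), conj (Φ t)‖ := by
      rw [integral_conj, RCLike.norm_conj]
    rw [e]
    simp only [hpos]
    refine f1_c6_side Dp (w := fun t => ‖ν * Vm ν (t * Real.tan θ)‖ ^ 2)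
      (G := fun t => ‖G1 ν ε (ha t) θ‖ ^ 2) (hCp _ hv).1 (hCp _ hv).2 ?_ (fun t ht => ?_)
    · have h2 : Integrable (fun t => conj (Φ t)) :=
        (Complex.conjCLE : ℂ ≃L[ℝ] ℂ).integrable_comp_iff.2 hΦi
      exact (h2.integrableOn (s := Ioi 1)).congr_fun (fun t _ => hpos t) measurableSet_Ioi
    · exact ((hP t θ ht h0 h1).2).trans (hbd t ht)


end Pool.Agent.JO.FM1

namespace Pool.Agent.JO.FM1

theorem iq_bdd1 : type_of% @iq_bdd1_pr := @iq_bdd1_pr

end Pool.Agent.JO.FM1
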