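import Pool.Agent.Lib_helper42.JO1.Defs
import Pool.Agent.Lib_helper45.JO.Defs2
import Pool.Agent.Lib_helper42.JO1F.C11
import Pool.Agent.Lib_helper42.JO1F.C5
import Pool.Agent.Lib_helper42.JO1F.C6

/-!
-/

set_option autoImplicit false

namespace Pool.Agent.JO.FM1

open Complex Filter Topology MeasureTheory Set
open UpperHalfPlane hiding I
open Pool.Agent.JO.FM
open scoped MatrixGroups ComplexConjugate

theorem fm2b1_pr {N : ℕ} [NeZero N] {χ : DirichletCharacter ℂ N} {f : ℍ → ℂ}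
    {a : ℕ → ℂ} (h : WForm N χ 1 a f) {ν : ℂ} {ε : ℝ} (hc : Cusp1 N ν f)
    (F : Frame1 ν ε a f) {L : ℂ → ℂ} (hL : LFun1 ν ε a f L) :
    ∃ η : ℝ, 0 < η ∧ ∀ r : ℝ, 0 < r → ¬ ∃ C : ℝ, ∀ θ : ℂ, 0 < θ.re → ‖θ - η * I‖ < r →
      ‖FC1 ν ε L θ‖ ≤ C / θ.re ∧ ‖FC1 ν ε L (Real.pi - θ)‖ ≤ C / θ.re := by
  obtain ⟨q, hq, hun⟩ := iq_unbdd1 h hc F
  have hq1 : (1 : ℝ) < (q : ℝ) := by exact_mod_cast hq
  have hlog : 0 < Real.log q := Real.log_pos hq1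
  refine ⟨Real.log q / 2, by positivity, fun r hr hb => hun ?_⟩
  obtain ⟨C, ρ, hρ, hC⟩ := nbound1 F hL (η := Real.log q / 2) (r := r) (by positivity) hr hb
  obtain ⟨C', hC'⟩ := iq_bdd1 F hL (q := q) hq1 ⟨C, ρ, hρ, fun w hw hw2 => by
    refine hC w hw ?_
    have e : (2 : ℂ) * ((Real.log q / 2 : ℝ) : ℂ) * I = ((Real.log q : ℝ) : ℂ) * I := by
      push_cast
      ring
    rw [e]
    exact hw2⟩
  exact ⟨C', fun θ h0 h1 => (Complex.abs_re_le_norm _).trans (hC' θ h0 h1)⟩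


end Pool.Agent.JO.FM1

namespace Pool.Agent.JO.FM1

theorem fm2b1 : type_of% @fm2b1_pr := @fm2b1_pr

end Pool.Agent.JO.FM1
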