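import Pool.Agent.Lib_helper42.JO1.Defs
import Pool.Agent.Lib_helper45.JO.Defs2

/-!
-/

set_option autoImplicit false

namespace Pool.Agent.JO.FM1

open Complex Filter Topology MeasureTheory Set
open UpperHalfPlane hiding I
open Pool.Agent.JO.FM
open scoped MatrixGroups ComplexConjugate

variable {L : ℂ → ℂ}

theorem f1_D1_lcont (hL : Differentiable ℂ L) : Continuous (fun t : ℝ => ‖L (ha t)‖ ^ 2) := by
  have h1 : Continuous L := hL.continuous
  unfold ha
  fun_prop

theorem f1_D1_Ederiv (hL : Differentiable ℂ L) (A B : ℝ) {t : ℝ} (ht : 0 < t) :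
    HasDerivAt (errorTerm L A B) (‖L (ha t)‖ ^ 2 - (A * (Real.log t + 1) + B)) t := by
  have h0 := f1_D1_lcont hL
  have h1 : HasDerivAt (fun T : ℝ => ∫ x in (0 : ℝ)..T, ‖L (ha x)‖ ^ 2) (‖L (ha t)‖ ^ 2) t :=
    intervalIntegral.integral_hasDerivAt_right (h0.intervalIntegrable _ _)
      h0.stronglyMeasurable.stronglyMeasurableAtFilter h0.continuousAt
  have h2 : HasDerivAt (fun T : ℝ => A * T * Real.log T + B * T)
      (A * (Real.log t + 1) + B) t := by
    have e1 := ((hasDerivAt_id t).const_mul A).mul (Real.hasDerivAt_log ht.ne')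
    have e2 := (hasDerivAt_id t).const_mul B
    have e3 := e1.add e2
    refine e3.congr_deriv ?_
    simp only [id]
    field_simp
  exact h1.sub h2

theorem f1_D1_Econt (hL : Differentiable ℂ L) (A B : ℝ) : ContinuousOn (errorTerm L A B) (Ioi 0) :=
  fun _ ht => (f1_D1_Ederiv hL A B ht).continuousAt.continuousWithinAt

/-- the bound for the error term -/
theorem f1_D1_Ebound (hL : Differentiable ℂ L) {A B : ℝ}
    (hE : errorTerm L A B =o[atTop] fun T : ℝ => √T) {c : ℝ} (hc : 0 < c) :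
    ∃ D : ℝ, 0 ≤ D ∧ ∀ t : ℝ, 1 ≤ t → |errorTerm L A B t| ≤ c * √t + D := by
  have h1 := hE.bound hc
  rw [eventually_atTop] at h1
  obtain ⟨T, hT⟩ := h1
  have h2 : ContinuousOn (errorTerm L A B) (Icc 1 T) :=
    (f1_D1_Econt hL A B).mono fun t ht => lt_of_lt_of_le one_pos ht.1
  obtain ⟨D, hD⟩ := isCompact_Icc.exists_bound_of_continuousOn h2
  refine ⟨max D 0, le_max_right _ _, fun t ht => ?_⟩
  by_cases h : T ≤ t
  · have h3 := hT t h
    rw [Real.norm_eq_abs, Real.norm_eq_abs, abs_of_nonneg (Real.sqrt_nonneg t)] at h3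
    linarith [le_max_right D 0]
  · have h3 := hD t ⟨ht, (not_le.1 h).le⟩
    rw [Real.norm_eq_abs] at h3
    have : 0 ≤ c * √t := by positivity
    linarith [le_max_left D 0]

/-- the holomorphic part -/
noncomputable def f1_D1_P (L : ℂ → ℂ) (A B : ℝ) (s : ℂ) : ℂ :=
  ∫ t in Ioi (1 : ℝ), (errorTerm L A B t : ℂ) * (t : ℂ) ^ (-s - 1)

theorem f1_D1_int (hL : Differentiable ℂ L) {A B : ℝ}
    (hE : errorTerm L A B =o[atTop] fun T : ℝ => √T) {s : ℂ} (hs : 1 / 2 < s.re) :
    IntegrableOn (fun t : ℝ => (errorTerm L A B t : ℂ) * (t : ℂ) ^ (-s - 1)) (Ioi 1) := by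
  obtain ⟨D, hD0, hD⟩ := f1_D1_Ebound hL hE one_pos
  have h1 : IntegrableOn (fun t : ℝ => (1 + D) * t ^ (-s.re - 1 / 2)) (Ioi 1) :=
    (integrableOn_Ioi_rpow_of_lt (by linarith) one_pos).const_mul _
  refine Integrable.mono' h1 ?_ ?_
  · refine ContinuousOn.aestronglyMeasurable ?_ measurableSet_Ioi
    refine ContinuousOn.mul ?_ ?_
    · exact Complex.continuous_ofReal.comp_continuousOn
        ((f1_D1_Econt hL A B).mono fun t ht => mem_Ioi.2 (lt_trans one_pos (mem_Ioi.1 ht)))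
    · intro t ht
      refine ContinuousAt.continuousWithinAt ?_
      exact (Complex.continuousAt_ofReal_cpow_const _ _ (Or.inr (lt_trans one_pos ht).ne'))
  · refine (ae_restrict_iff' measurableSet_Ioi).2 (Eventually.of_forall fun t ht => ?_)
    have ht1 : (1 : ℝ) < t := ht
    have ht0 : (0 : ℝ) < t := by linarith
    rw [norm_mul, Complex.norm_real, Real.norm_eq_abs, Complex.norm_cpow_eq_rpow_re_of_pos ht0]
    have e1 : |errorTerm L A B t| ≤ (1 + D) * t ^ (1 / 2 : ℝ) := by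
      have e2 := hD t ht1.le
      have e3 : (1 : ℝ) ≤ t ^ (1 / 2 : ℝ) := Real.one_le_rpow ht1.le (by norm_num)
      rw [Real.sqrt_eq_rpow] at e2
      nlinarith
    have e4 : (-s - 1).re = -s.re - 1 := by simp
    rw [e4]
    calc |errorTerm L A B t| * t ^ (-s.re - 1) ≤ (1 + D) * t ^ (1 / 2 : ℝ) * t ^ (-s.re - 1) := by
          gcongr
      _ = (1 + D) * t ^ (-s.re - 1 / 2) := by
          rw [mul_assoc, ← Real.rpow_add ht0]
          congr 2
          ring

theorem f1_D1_diff (hL : Differentiable ℂ L) {A B : ℝ}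
    (hE : errorTerm L A B =o[atTop] fun T : ℝ => √T) {s : ℂ} (hs : 1 / 2 < s.re) :
    DifferentiableAt ℂ (f1_D1_P L A B) s := by
  obtain ⟨D, hD0, hD⟩ := f1_D1_Ebound hL hE one_pos
  set g : ℝ → ℂ := (Ioi (1 : ℝ)).indicator (fun t => (errorTerm L A B t : ℂ)) with hg
  have h1 : f1_D1_P L A B = fun s => mellin g (-s) := by
    funext s
    unfold f1_D1_P mellin
    rw [← integral_indicator measurableSet_Ioi, ← integral_indicator measurableSet_Ioi]
    congr 1
    funext t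
    rw [hg]
    by_cases ht : t ∈ Ioi (1 : ℝ)
    · have ht0 : t ∈ Ioi (0 : ℝ) := mem_Ioi.2 (lt_trans one_pos (mem_Ioi.1 ht))
      rw [indicator_of_mem ht, indicator_of_mem ht0, indicator_of_mem ht, smul_eq_mul, mul_comm]
    · rw [indicator_of_notMem ht]
      by_cases ht0 : t ∈ Ioi (0 : ℝ)
      · rw [indicator_of_mem ht0, indicator_of_notMem ht, smul_zero]
      · rw [indicator_of_notMem ht0]
  rw [h1]
  have h2 : DifferentiableAt ℂ (mellin g) (-s) := by
    refine mellin_differentiableAt_of_isBigO_rpow (a := -(1 / 2)) (b := (-s).re - 1) ?_ ?_ ?_ ?_ ?_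
    · have e : LocallyIntegrableOn (fun t : ℝ => (errorTerm L A B t : ℂ)) (Ioi 0) :=
        ContinuousOn.locallyIntegrableOn
          (Complex.continuous_ofReal.comp_continuousOn (f1_D1_Econt hL A B)) measurableSet_Ioi
      intro x hx
      obtain ⟨u, hu, hi⟩ := e x hx
      exact ⟨u, hu, hi.indicator measurableSet_Ioi⟩
    · refine Asymptotics.IsBigO.of_bound (1 + D) ?_
      filter_upwards [eventually_ge_atTop (1 : ℝ)] with t ht
      rw [hg]
      have ht0 : (0 : ℝ) < t := by linarith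
      have e3 : (1 : ℝ) ≤ t ^ (1 / 2 : ℝ) := Real.one_le_rpow ht (by norm_num)
      have e2 := hD t ht
      rw [Real.sqrt_eq_rpow] at e2
      have e4 : |errorTerm L A B t| ≤ (1 + D) * t ^ (1 / 2 : ℝ) := by nlinarith
      rw [neg_neg, Real.norm_of_nonneg (by positivity : (0 : ℝ) ≤ t ^ (1 / 2 : ℝ))]
      refine (norm_indicator_le_norm_self _ _).trans ?_
      rw [Complex.norm_real, Real.norm_eq_abs]
      exact e4
    · simp
      linarith
    · refine Asymptotics.IsBigO.of_bound 1 ?_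
      have : Iio (1 : ℝ) ∈ 𝓝[>] (0 : ℝ) := mem_nhdsWithin_of_mem_nhds (Iio_mem_nhds one_pos)
      filter_upwards [this] with t ht
      rw [hg, indicator_of_notMem (by simpa using (le_of_lt ht)), norm_zero]
      positivity
    · linarith
  exact h2.comp s differentiableAt_id.neg

theorem f1_D1_cpow_deriv (s : ℂ) {t : ℝ} (ht : 0 < t) :
    HasDerivAt (fun t : ℝ => (t : ℂ) ^ (-s)) (-s * (t : ℂ) ^ (-s - 1)) t := by
  have h1 : HasDerivAt (fun z : ℂ => z ^ (-s)) (-s * (t : ℂ) ^ (-s - 1) * 1) (t : ℂ) :=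
    (hasDerivAt_id (t : ℂ)).cpow_const (Or.inl (by simpa using ht))
  rw [mul_one] at h1
  exact h1.comp_ofReal

theorem f1_D1_cpow_tendsto {σ : ℝ} {s : ℂ} (h : σ < s.re) :
    Tendsto (fun t : ℝ => (t ^ σ : ℝ) * ‖(t : ℂ) ^ (-s)‖) atTop (𝓝 0) := by
  have h1 : Tendsto (fun t : ℝ => t ^ (-(s.re - σ))) atTop (𝓝 0) :=
    tendsto_rpow_neg_atTop (by linarith)
  refine h1.congr' ?_
  filter_upwards [eventually_gt_atTop (0 : ℝ)] with t ht
  rw [Complex.norm_cpow_eq_rpow_re_of_pos ht, ← Real.rpow_add ht, Complex.neg_re]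
  congr 1
  ring

theorem f1_D1_cpow_int {s : ℂ} (hs : 1 < s.re) :
    IntegrableOn (fun t : ℝ => (t : ℂ) ^ (-s)) (Ioi 1) ∧
    ∫ t in Ioi (1 : ℝ), (t : ℂ) ^ (-s) = 1 / (s - 1) := by
  have h : (-s).re < -1 := by simpa using hs
  refine ⟨integrableOn_Ioi_cpow_of_lt h one_pos, ?_⟩
  rw [integral_Ioi_cpow_of_lt h one_pos]
  have hs1 : s - 1 ≠ 0 := by
    intro h0
    have : s = 1 := by linear_combination h0
    rw [this] at hs
    simp at hs
  have hs2 : -s + 1 ≠ 0 := by
    intro h0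
    apply hs1
    linear_combination -h0
  simp
  field_simp
  ring

theorem f1_D1_log_int {s : ℂ} (hs : 2 < s.re) :
    IntegrableOn (fun t : ℝ => (Real.log t : ℂ) * (t : ℂ) ^ (-s)) (Ioi 1) ∧
    ∫ t in Ioi (1 : ℝ), (Real.log t : ℂ) * (t : ℂ) ^ (-s) = 1 / (s - 1) ^ 2 := by
  have hs1 : s - 1 ≠ 0 := by
    intro h0
    have : s = 1 := by linear_combination h0
    rw [this] at hs
    norm_num at hs
  have hI : IntegrableOn (fun t : ℝ => (Real.log t : ℂ) * (t : ℂ) ^ (-s)) (Ioi 1) := by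
    have h1 : IntegrableOn (fun t : ℝ => t ^ (-(s.re - 1))) (Ioi 1) :=
      integrableOn_Ioi_rpow_of_lt (by linarith) one_pos
    refine Integrable.mono' h1 ?_ ?_
    · refine ContinuousOn.aestronglyMeasurable ?_ measurableSet_Ioi
      refine ContinuousOn.mul ?_ ?_
      · refine Complex.continuous_ofReal.comp_continuousOn ?_
        intro t ht
        exact (Real.continuousAt_log (lt_trans one_pos (mem_Ioi.1 ht)).ne').continuousWithinAt
      · intro t ht
        exact (Complex.continuousAt_ofReal_cpow_const _ _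
          (Or.inr (lt_trans one_pos (mem_Ioi.1 ht)).ne')).continuousWithinAt
    · refine (ae_restrict_iff' measurableSet_Ioi).2 (Eventually.of_forall fun t ht => ?_)
      have ht1 : (1 : ℝ) < t := ht
      have ht0 : (0 : ℝ) < t := by linarith
      rw [norm_mul, Complex.norm_real, Real.norm_eq_abs, Complex.norm_cpow_eq_rpow_re_of_pos ht0,
        abs_of_nonneg (Real.log_nonneg ht1.le)]
      have e1 : Real.log t ≤ t := (Real.log_le_sub_one_of_pos ht0).trans (by linarith)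
      calc Real.log t * t ^ (-s).re ≤ t * t ^ (-s).re := by gcongr
        _ = t ^ (-(s.re - 1)) := by
          nth_rewrite 1 [← Real.rpow_one t]
          rw [← Real.rpow_add ht0]
          congr 1
          simp
          ring
  refine ⟨hI, ?_⟩
  have hd : ∀ t ∈ Ioi (1 : ℝ), HasDerivAt (fun t : ℝ => -((Real.log t : ℂ) * (t : ℂ) ^ (-(s - 1)) /
      (s - 1)) - (t : ℂ) ^ (-(s - 1)) / (s - 1) ^ 2) ((Real.log t : ℂ) * (t : ℂ) ^ (-s)) t := by
    intro t ht
    have ht0 : (0 : ℝ) < t := lt_trans one_pos (mem_Ioi.1 ht)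
    have e1 := (Real.hasDerivAt_log ht0.ne').ofReal_comp
    have e2 := f1_D1_cpow_deriv (s - 1) ht0
    have e3 := ((e1.mul e2).div_const (s - 1)).neg.sub (e2.div_const ((s - 1) ^ 2))
    refine e3.congr_deriv ?_
    have e4 : (t : ℂ) ≠ 0 := by exact_mod_cast ht0.ne'
    have e5 : -(s - 1) - 1 = -s := by ring
    have e6 : (t : ℂ) ^ (-(s - 1)) = (t : ℂ) ^ (-s) * t := by
      rw [show -(s - 1) = -s + 1 by ring, Complex.cpow_add _ _ e4, Complex.cpow_one]
    rw [e5, e6]
    push_cast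
    field_simp
    ring
  have hc : ContinuousWithinAt (fun t : ℝ => -((Real.log t : ℂ) * (t : ℂ) ^ (-(s - 1)) /
      (s - 1)) - (t : ℂ) ^ (-(s - 1)) / (s - 1) ^ 2) (Ici 1) 1 := by
    refine ContinuousAt.continuousWithinAt ?_
    have e1 := ((Real.hasDerivAt_log one_ne_zero).ofReal_comp).continuousAt
    have e2 := (f1_D1_cpow_deriv (s - 1) one_pos).continuousAt
    exact ((e1.mul e2).div_const (s - 1)).neg.sub (e2.div_const ((s - 1) ^ 2))
  have ht : Tendsto (fun t : ℝ => -((Real.log t : ℂ) * (t : ℂ) ^ (-(s - 1)) /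
      (s - 1)) - (t : ℂ) ^ (-(s - 1)) / (s - 1) ^ 2) atTop (𝓝 0) := by
    have e0 : Tendsto (fun t : ℝ => (t : ℂ) ^ (-(s - 1))) atTop (𝓝 0) := by
      rw [tendsto_zero_iff_norm_tendsto_zero]
      have := f1_D1_cpow_tendsto (σ := 0) (s := s - 1) (by simp; linarith)
      simpa using this
    have e1 : Tendsto (fun t : ℝ => (Real.log t : ℂ) * (t : ℂ) ^ (-(s - 1))) atTop (𝓝 0) := by
      rw [tendsto_zero_iff_norm_tendsto_zero]
      have e2 := f1_D1_cpow_tendsto (σ := 1) (s := s - 1) (by simp; linarith)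
      refine squeeze_zero' (Eventually.of_forall fun t => norm_nonneg _) ?_ e2
      filter_upwards [eventually_ge_atTop (1 : ℝ)] with t ht
      have ht0 : (0 : ℝ) < t := by linarith
      rw [norm_mul, Complex.norm_real, Real.norm_eq_abs, abs_of_nonneg (Real.log_nonneg ht),
        Real.rpow_one]
      have e1 : Real.log t ≤ t := (Real.log_le_sub_one_of_pos ht0).trans (by linarith)
      gcongr
    have e3 := (e1.div_const (s - 1)).neg.sub (e0.div_const ((s - 1) ^ 2))
    simpa using e3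
  rw [integral_Ioi_of_hasDerivAt_of_tendsto hc hd hI ht]
  simp

/-- the transform of the error term near `1/2 + iκ` -/
theorem f1_D1_lim (hL : Differentiable ℂ L) {A B : ℝ}
    (hE : errorTerm L A B =o[atTop] fun T : ℝ => √T) (κ : ℝ) :
    Tendsto (fun η : ℝ => (η : ℂ) * f1_D1_P L A B (SP.pt κ η)) (𝓝[>] 0) (𝓝 0) := by
  rw [tendsto_zero_iff_norm_tendsto_zero, Metric.tendsto_nhds]
  intro c hc
  obtain ⟨D, hD0, hD⟩ := f1_D1_Ebound hL hE (c := c / 2) (by positivity)
  have h1 : Ioo (0 : ℝ) (c / (4 * D + 4)) ∈ 𝓝[>] (0 : ℝ) := Ioo_mem_nhdsGT (by positivity)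
  filter_upwards [h1] with η hη
  have hη0 : 0 < η := hη.1
  rw [Real.dist_eq, sub_zero, abs_of_nonneg (norm_nonneg _), norm_mul, Complex.norm_real,
    Real.norm_of_nonneg hη0.le]
  have hi1 : IntegrableOn (fun t : ℝ => c / 2 * t ^ (-1 - η)) (Ioi 1) :=
    (integrableOn_Ioi_rpow_of_lt (by linarith) one_pos).const_mul _
  have hi2 : IntegrableOn (fun t : ℝ => D * t ^ (-(3 / 2) - η)) (Ioi 1) :=
    (integrableOn_Ioi_rpow_of_lt (by linarith) one_pos).const_mul _
  have h2 : ‖f1_D1_P L A B (SP.pt κ η)‖ ≤ ∫ t in Ioi (1 : ℝ), (c / 2 * t ^ (-1 - η) +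
      D * t ^ (-(3 / 2) - η)) := by
    unfold f1_D1_P
    refine norm_integral_le_of_norm_le (hi1.add hi2) ?_
    refine (ae_restrict_iff' measurableSet_Ioi).2 (Eventually.of_forall fun t ht => ?_)
    have ht1 : (1 : ℝ) < t := ht
    have ht0 : (0 : ℝ) < t := by linarith
    rw [norm_mul, Complex.norm_real, Real.norm_eq_abs, Complex.norm_cpow_eq_rpow_re_of_pos ht0]
    have e1 : (-SP.pt κ η - 1).re = -(3 / 2) - η := by
      rw [Complex.sub_re, Complex.neg_re, SP.pt_re, Complex.one_re]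
      ring
    rw [e1]
    have e2 := hD t ht1.le
    rw [Real.sqrt_eq_rpow] at e2
    have e3 : t ^ (-1 - η) = t ^ (1 / 2 : ℝ) * t ^ (-(3 / 2) - η) := by
      rw [← Real.rpow_add ht0]
      congr 1
      ring
    rw [e3, ← mul_assoc, ← add_mul]
    gcongr
  rw [integral_add hi1 hi2, integral_const_mul, integral_const_mul,
    integral_Ioi_rpow_of_lt (by linarith) one_pos, integral_Ioi_rpow_of_lt (by linarith) one_pos,
    Real.one_rpow, Real.one_rpow] at h2
  have e1 : c / 2 * (-1 / (-1 - η + 1)) = c / 2 / η := by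
    have : (-1 : ℝ) - η + 1 = -η := by ring
    rw [this]
    field_simp
  have e2 : D * (-1 / (-(3 / 2) - η + 1)) ≤ 2 * D := by
    have : (-(3 / 2) : ℝ) - η + 1 = -(1 / 2 + η) := by ring
    rw [this, neg_div_neg_eq, one_div, mul_comm]
    apply mul_le_mul_of_nonneg_right _ hD0
    rw [inv_le_comm₀ (by positivity) (by norm_num)]
    linarith
  have e3 : ‖f1_D1_P L A B (SP.pt κ η)‖ ≤ c / 2 / η + 2 * D := by
    rw [e1] at h2
    linarith
  calc η * ‖f1_D1_P L A B (SP.pt κ η)‖ ≤ η * (c / 2 / η + 2 * D) := by gcongr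
    _ = c / 2 + 2 * D * η := by field_simp
    _ < c := by
      have e4 : η * (4 * D + 4) < c := by
        have := hη.2
        rwa [lt_div_iff₀ (by positivity)] at this
      nlinarith

/-- the second moment transform -/
theorem f1_D1_eq (hL : Differentiable ℂ L) {A B : ℝ}
    (hE : errorTerm L A B =o[atTop] fun T : ℝ => √T)
    (hg : ∀ α : ℝ, 9 / 8 < α →
      IntegrableOn (fun t : ℝ => (‖L (ha t)‖ ^ 2 + ‖L (ha (-t))‖ ^ 2) * t ^ (-α)) (Ici 1))
    {s : ℂ} (hs : 2 < s.re) :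
    ∫ t in Ioi (1 : ℝ), ((‖L (ha t)‖ ^ 2 : ℝ) : ℂ) * (t : ℂ) ^ (-s) =
      -(errorTerm L A B 1 : ℂ) + A * (1 / (s - 1) ^ 2) + (A + B) * (1 / (s - 1)) +
        s * f1_D1_P L A B s := by
  have hl : IntegrableOn (fun t : ℝ => ((‖L (ha t)‖ ^ 2 : ℝ) : ℂ) * (t : ℂ) ^ (-s)) (Ioi 1) := by
    have h1 := (hg s.re (by linarith)).mono_set Ioi_subset_Ici_self
    refine Integrable.mono' h1 ?_ ?_
    · refine ContinuousOn.aestronglyMeasurable ?_ measurableSet_Ioi
      refine ContinuousOn.mul ?_ ?_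
      · exact (Complex.continuous_ofReal.comp (f1_D1_lcont hL)).continuousOn
      · intro t ht
        exact (Complex.continuousAt_ofReal_cpow_const _ _
          (Or.inr (lt_trans one_pos (mem_Ioi.1 ht)).ne')).continuousWithinAt
    · refine (ae_restrict_iff' measurableSet_Ioi).2 (Eventually.of_forall fun t ht => ?_)
      have ht0 : (0 : ℝ) < t := lt_trans one_pos (mem_Ioi.1 ht)
      rw [norm_mul, Complex.norm_real, Real.norm_of_nonneg (by positivity),
        Complex.norm_cpow_eq_rpow_re_of_pos ht0, Complex.neg_re]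
      have : 0 ≤ ‖L (ha (-t))‖ ^ 2 := by positivity
      gcongr
      linarith
  have hc := f1_D1_cpow_int (s := s) (by linarith)
  have hlog := f1_D1_log_int hs
  have hP := f1_D1_int hL hE (s := s) (by linarith)
  have hder : ∀ t ∈ Ioi (1 : ℝ), HasDerivAt (fun t : ℝ => (errorTerm L A B t : ℂ) * (t : ℂ) ^ (-s))
      ((((‖L (ha t)‖ ^ 2 : ℝ) : ℂ) * (t : ℂ) ^ (-s) - (A * ((Real.log t : ℂ) * (t : ℂ) ^ (-s)) +
        (A + B) * (t : ℂ) ^ (-s))) - s * ((errorTerm L A B t : ℂ) * (t : ℂ) ^ (-s - 1))) t := by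
    intro t ht
    have ht0 : (0 : ℝ) < t := lt_trans one_pos (mem_Ioi.1 ht)
    have e1 := (f1_D1_Ederiv hL A B ht0).ofReal_comp
    have e2 := f1_D1_cpow_deriv s ht0
    refine (e1.mul e2).congr_deriv ?_
    push_cast
    ring
  have hcont : ContinuousWithinAt (fun t : ℝ => (errorTerm L A B t : ℂ) * (t : ℂ) ^ (-s))
      (Ici 1) 1 := by
    refine ContinuousAt.continuousWithinAt ?_
    exact ((f1_D1_Ederiv hL A B one_pos).ofReal_comp.continuousAt).mul
      (f1_D1_cpow_deriv s one_pos).continuousAt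
  have htend : Tendsto (fun t : ℝ => (errorTerm L A B t : ℂ) * (t : ℂ) ^ (-s)) atTop (𝓝 0) := by
    rw [tendsto_zero_iff_norm_tendsto_zero]
    obtain ⟨D, hD0, hD⟩ := f1_D1_Ebound hL hE one_pos
    have e2 := (f1_D1_cpow_tendsto (σ := 1) (s := s) (by linarith)).const_mul (1 + D)
    rw [mul_zero] at e2
    refine squeeze_zero' (Eventually.of_forall fun t => norm_nonneg _) ?_ e2
    filter_upwards [eventually_ge_atTop (1 : ℝ)] with t ht
    have ht0 : (0 : ℝ) < t := by linarith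
    rw [norm_mul, Complex.norm_real, Real.norm_eq_abs, Real.rpow_one, ← mul_assoc]
    have e3 := hD t ht
    have e4 : √t ≤ t := by
      rw [Real.sqrt_le_left ht0.le]
      nlinarith
    have e5 : |errorTerm L A B t| ≤ (1 + D) * t := by nlinarith
    gcongr
  have hint : IntegrableOn (fun t : ℝ => (((‖L (ha t)‖ ^ 2 : ℝ) : ℂ) * (t : ℂ) ^ (-s) -
      (A * ((Real.log t : ℂ) * (t : ℂ) ^ (-s)) +
        (A + B) * (t : ℂ) ^ (-s))) - s * ((errorTerm L A B t : ℂ) * (t : ℂ) ^ (-s - 1))) (Ioi 1) :=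
    (hl.sub ((hlog.1.const_mul _).add (hc.1.const_mul _))).sub (hP.const_mul _)
  have h1 := integral_Ioi_of_hasDerivAt_of_tendsto hcont hder hint htend
  have hi1 : IntegrableOn (fun t : ℝ => (A : ℂ) * ((Real.log t : ℂ) * (t : ℂ) ^ (-s)) +
      ((A : ℂ) + B) * (t : ℂ) ^ (-s)) (Ioi 1) := (hlog.1.const_mul _).add (hc.1.const_mul _)
  have hi2 : IntegrableOn (fun t : ℝ => ((‖L (ha t)‖ ^ 2 : ℝ) : ℂ) * (t : ℂ) ^ (-s) -
      ((A : ℂ) * ((Real.log t : ℂ) * (t : ℂ) ^ (-s)) + ((A : ℂ) + B) * (t : ℂ) ^ (-s))) (Ioi 1) :=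
    hl.sub hi1
  rw [integral_sub hi2 (hP.const_mul _), integral_sub hl hi1,
    integral_add (hlog.1.const_mul _) (hc.1.const_mul _), integral_const_mul, integral_const_mul,
    integral_const_mul, hlog.2, hc.2, Complex.ofReal_one, Complex.one_cpow] at h1
  unfold f1_D1_P
  linear_combination h1

theorem mp_cont1_pr (hL : Differentiable ℂ L) {A B : ℝ}
    (hE : errorTerm L A B =o[atTop] fun T : ℝ => √T)
    (hg : ∀ α : ℝ, 9 / 8 < α →
      IntegrableOn (fun t : ℝ => (‖L (ha t)‖ ^ 2 + ‖L (ha (-t))‖ ^ 2) * t ^ (-α)) (Ici 1)) :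
    ∃ m : ℂ → ℂ, DifferentiableOn ℂ m SP.QQ ∧
      (∀ κ : ℝ, 0 < κ → Tendsto (fun η : ℝ => (η : ℂ) * m (SP.pt κ η)) (𝓝[>] 0) (𝓝 0)) ∧
      ∀ s : ℂ, s ∈ SP.QQ → 2 < s.re →
        ∫ t in Ioi (1 : ℝ), ((‖L (ha t)‖ ^ 2 : ℝ) : ℂ) * (t : ℂ) ^ (-s) = m s := by
  refine ⟨fun s => -(errorTerm L A B 1 : ℂ) + A * (1 / (s - 1) ^ 2) + (A + B) * (1 / (s - 1)) +
        s * f1_D1_P L A B s, ?_, fun κ hκ => ?_, fun s _ hs => f1_D1_eq hL hE hg hs⟩
  · intro s hs
    refine DifferentiableAt.differentiableWithinAt ?_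
    have hs1 : s - 1 ≠ 0 := by
      intro h0
      have : s = 1 := by linear_combination h0
      have h2 := hs.2
      rw [this] at h2
      simp at h2
    have h1 := f1_D1_diff hL hE hs.1
    have h2 : DifferentiableAt ℂ (fun s : ℂ => 1 / (s - 1) ^ 2) s := by
      fun_prop (disch := exact pow_ne_zero _ hs1)
    have h3 : DifferentiableAt ℂ (fun s : ℂ => 1 / (s - 1)) s := by
      fun_prop (disch := exact hs1)
    exact (((differentiableAt_const _).add (h2.const_mul _)).add (h3.const_mul _)).add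
      (differentiableAt_id.mul h1)
  · have h1 := f1_D1_lim hL hE κ
    have hp : Tendsto (fun η : ℝ => SP.pt κ η) (𝓝[>] 0) (𝓝 (SP.pt κ 0)) := by
      refine Tendsto.mono_left ?_ nhdsWithin_le_nhds
      have : Continuous (fun η : ℝ => SP.pt κ η) := by
        unfold SP.pt
        fun_prop
      exact this.tendsto 0
    have hη : Tendsto (fun η : ℝ => (η : ℂ)) (𝓝[>] 0) (𝓝 0) := by
      refine Tendsto.mono_left ?_ nhdsWithin_le_nhds
      have := Complex.continuous_ofReal.tendsto (0 : ℝ)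
      simpa using this
    have hne : SP.pt κ 0 - 1 ≠ 0 := by
      intro h0
      have := congrArg Complex.im h0
      rw [Complex.sub_im, SP.pt_im] at this
      simp at this
      exact hκ.ne' this
    have h2 : Tendsto (fun η : ℝ => -(errorTerm L A B 1 : ℂ) + A * (1 / (SP.pt κ η - 1) ^ 2) +
        (A + B) * (1 / (SP.pt κ η - 1))) (𝓝[>] 0) (𝓝 (-(errorTerm L A B 1 : ℂ) +
        A * (1 / (SP.pt κ 0 - 1) ^ 2) + (A + B) * (1 / (SP.pt κ 0 - 1)))) := by
      have e1 : Tendsto (fun η : ℝ => 1 / (SP.pt κ η - 1)) (𝓝[>] 0) (𝓝 (1 / (SP.pt κ 0 - 1))) :=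
        tendsto_const_nhds.div (hp.sub_const 1) hne
      have e2 : Tendsto (fun η : ℝ => 1 / (SP.pt κ η - 1) ^ 2) (𝓝[>] 0)
          (𝓝 (1 / (SP.pt κ 0 - 1) ^ 2)) :=
        tendsto_const_nhds.div ((hp.sub_const 1).pow 2) (pow_ne_zero 2 hne)
      exact (tendsto_const_nhds.add (e2.const_mul _)).add (e1.const_mul _)
    have h3 := hη.mul h2
    have h4 := hp.mul h1
    rw [zero_mul] at h3
    rw [mul_zero] at h4
    have h5 := h3.add h4
    rw [add_zero] at h5
    refine h5.congr fun η => ?_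
    ring


end Pool.Agent.JO.FM1

namespace Pool.Agent.JO.FM1

theorem mp_cont1 : type_of% @mp_cont1_pr := @mp_cont1_pr

end Pool.Agent.JO.FM1
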