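import Pool.Agent.Lib_helper42.JO1.Defs
import Pool.Agent.Lib_helper45.JO.Defs2
import Pool.Agent.Lib_helper42.JO1F.K2
import Pool.Agent.Lib_helper42.JO1F.M3
import Pool.Agent.Lib_helper42.JO1F.M7
import Pool.Agent.Lib_helper42.JO1F.P3
import Pool.Agent.Lib_helper42.JO1F.P4
import Pool.Agent.Lib_helper42.JO1F.P5

/-! Project JO, part FM, weight 1, block D2: `F` near `0` and near `π` (after helper40) -/

set_option autoImplicit false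

namespace Pool.Agent.JO.FM1

open Complex Filter Topology MeasureTheory Set
open UpperHalfPlane hiding I
open Pool.Agent.JO.FM
open scoped MatrixGroups ComplexConjugate

theorem f1_d2_conj (t : ℝ) : conj (ha t) = ha (-t) := by
  unfold ha
  apply Complex.ext
  · simp
  · simp

theorem f1_d2_re (t : ℝ) : (ha t).re = 1 / 2 := by
  unfold ha
  simp

theorem f1_d2_sym {ν : ℂ} {ε : ℝ} (hν : ν.re = 0) {θ : ℝ}
    (h0 : 0 < θ) (h1 : θ < Real.pi) (t : ℝ) :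
    ‖G1 ν ε (ha t) ((Real.pi - θ : ℝ) : ℂ)‖ = ‖G1 ν (-ε) (ha (-t)) θ‖ := by
  have h := G1_conj (ν := ν) (ε := ε) hν (s := ha t) (θ := ((Real.pi - θ : ℝ) : ℂ))
    (by rw [f1_d2_re]; norm_num) (by rw [Complex.ofReal_re]; linarith)
    (by rw [Complex.ofReal_re]; linarith)
  rw [f1_d2_conj, Complex.conj_ofReal] at h
  have h3 : (Real.pi : ℂ) - ((Real.pi - θ : ℝ) : ℂ) = (θ : ℂ) := by
    push_cast
    ring
  rw [h3] at h
  have h2 := congrArg norm h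
  rwa [Complex.norm_conj] at h2

theorem f1_d2_half {h : ℝ → ℝ} (hh : Integrable h) :
    IntegrableOn (fun t => h t + h (-t)) (Ioi 0) ∧
      ∫ t, h t = ∫ t in Ioi (0 : ℝ), (h t + h (-t)) := by
  have h1 : Integrable (fun t => h (-t)) := hh.comp_neg
  refine ⟨hh.integrableOn.add h1.integrableOn, ?_⟩
  rw [integral_add hh.integrableOn h1.integrableOn, integral_comp_neg_Ioi, neg_zero,
    ← intervalIntegral.integral_Iic_add_Ioi (b := (0 : ℝ)) hh.integrableOn hh.integrableOn]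
  ring

theorem f1_d2_split {k : ℝ → ℝ} (hk : IntegrableOn k (Ioi 0)) :
    ∫ t in Ioi (0 : ℝ), k t = (∫ t in Ioc (0 : ℝ) 1, k t) + ∫ t in Ioi (1 : ℝ), k t := by
  rw [← Ioc_union_Ioi_eq_Ioi (zero_le_one (α := ℝ)), setIntegral_union]
  · exact (Ioc_disjoint_Ioi le_rfl)
  · exact measurableSet_Ioi
  · exact hk.mono_set Ioc_subset_Ioi_self
  · exact hk.mono_set (Ioi_subset_Ioi zero_le_one)

theorem f1_d2_tail {Φ Mn b : ℝ → ℝ} (hΦ : IntegrableOn Φ (Ioi 1)) (hM : ContinuousOn Mn (Ioi 1))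
    (hb : ∀ t, 1 < t → |Φ t - Mn t| ≤ b t) (hi : IntegrableOn b (Ioi 1)) :
    IntegrableOn Mn (Ioi 1) ∧
      |(∫ t in Ioi (1 : ℝ), Φ t) - ∫ t in Ioi (1 : ℝ), Mn t| ≤ ∫ t in Ioi (1 : ℝ), b t := by
  have hm := hM.aestronglyMeasurable (μ := volume) measurableSet_Ioi
  have hbd : ∀ᵐ t ∂(volume.restrict (Ioi (1 : ℝ))), ‖Φ t - Mn t‖ ≤ b t := by
    rw [ae_restrict_iff' measurableSet_Ioi]
    refine Eventually.of_forall fun t ht => ?_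
    rw [Real.norm_eq_abs]
    exact hb t ht
  have hD : IntegrableOn (fun t => Φ t - Mn t) (Ioi 1) :=
    Integrable.mono' hi (hΦ.aestronglyMeasurable.sub hm) hbd
  have h2 : IntegrableOn Mn (Ioi 1) := by
    have h3 := hΦ.sub hD
    refine h3.congr (Eventually.of_forall fun t => ?_)
    simp only [Pi.sub_apply]
    ring
  refine ⟨h2, ?_⟩
  rw [← integral_sub hΦ h2, ← Real.norm_eq_abs]
  exact norm_integral_le_of_norm_le hi hbd

theorem f1_d2_head {Φ k : ℝ → ℝ} {D : ℝ} (hk : Continuous k)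
    (hb : ∀ t, 0 ≤ t → t ≤ 1 → |Φ t| ≤ k t * D) :
    |∫ t in Ioc (0 : ℝ) 1, Φ t| ≤ (∫ t in Ioc (0 : ℝ) 1, k t) * D := by
  have h2 : IntegrableOn (fun t => k t) (Ioc 0 1) :=
    (hk.continuousOn.integrableOn_compact isCompact_Icc).mono_set Ioc_subset_Icc_self
  rw [← integral_mul_const, ← Real.norm_eq_abs]
  apply norm_integral_le_of_norm_le (h2.mul_const D)
  rw [ae_restrict_iff' measurableSet_Ioc]
  refine Eventually.of_forall fun t ht => ?_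
  rw [Real.norm_eq_abs]
  exact hb t ht.1.le ht.2

theorem f1_d2_Wp (ν : ℂ) {x : ℝ} (hx : 0 < x) :
    ContinuousOn (fun t : ℝ => ‖Wp ν (t * x)‖ ^ 2) (Ioi 1) := by
  intro t ht
  have ht' : (1 : ℝ) < t := ht
  have h1 : ContinuousAt (Wp ν) (t * x) := (Wp_deriv ν (by positivity)).continuousAt
  have h2 : ContinuousAt (fun t : ℝ => Wp ν (t * x)) t :=
    ContinuousAt.comp (f := fun t : ℝ => t * x) h1 (continuous_id.mul continuous_const).continuousAt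
  exact (h2.norm.pow 2).continuousWithinAt

theorem f1_d2_Vm (ν : ℂ) {x : ℝ} (hx : 0 < x) :
    ContinuousOn (fun t : ℝ => ‖ν * Vm ν (t * x)‖ ^ 2) (Ioi 1) := by
  intro t ht
  have ht' : (1 : ℝ) < t := ht
  have h1 : ContinuousAt (Vm ν) (t * x) := (Vm_deriv ν (by positivity)).continuousAt
  have h2 : ContinuousAt (fun t : ℝ => Vm ν (t * x)) t :=
    ContinuousAt.comp (f := fun t : ℝ => t * x) h1 (continuous_id.mul continuous_const).continuousAt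
  exact ((continuousAt_const.mul h2).norm.pow 2).continuousWithinAt

theorem f1_d2_L {L : ℂ → ℂ} (hL : Differentiable ℂ L) :
    Continuous (fun t : ℝ => ‖L (ha t)‖ ^ 2) := by
  have h1 : Continuous ha := by
    unfold ha
    fun_prop
  exact (hL.continuous.comp h1).norm.pow 2

theorem f1_d2_L' {L : ℂ → ℂ} (hL : Differentiable ℂ L) :
    Continuous (fun t : ℝ => ‖L (ha (-t))‖ ^ 2) :=
  (f1_d2_L hL).comp continuous_neg

theorem f1_d2_core {ν : ℂ} {ε : ℝ} (hν : ν.re = 0) (hε : ε = 1 ∨ ε = -1) {θ₀ : ℝ}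
    (hθ₀ : 0 < θ₀) (hθ₁ : θ₀ < Real.pi / 2) {kp km : ℝ → ℝ} (hkp : Continuous kp)
    (hkm : Continuous km) (hkp0 : ∀ t, 0 ≤ kp t) (hkm0 : ∀ t, 0 ≤ km t)
    (hgi : IntegrableOn (fun t : ℝ => (kp t + km t) * t ^ (-(5 / 4) : ℝ)) (Ioi 1)) :
    ∃ C : ℝ, ∀ θ : ℝ, 0 < θ → θ ≤ θ₀ →
      IntegrableOn (fun t => kp t * ‖G1 ν ε (ha t) θ‖ ^ 2 + km t * ‖G1 ν ε (ha (-t)) θ‖ ^ 2)
        (Ioi 0) →
      |(2 * Real.pi)⁻¹ * (∫ t in Ioi (0 : ℝ),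
          (kp t * ‖G1 ν ε (ha t) θ‖ ^ 2 + km t * ‖G1 ν ε (ha (-t)) θ‖ ^ 2)) -
        ∫ t in Ioi (1 : ℝ), (km t * (‖Wp ν (t * Real.tan θ)‖ ^ 2 / t) +
          kp t * (‖ν * Vm ν (t * Real.tan θ)‖ ^ 2 / t))| ≤ C * Real.tan θ ^ (3 / 4 : ℝ) := by
  obtain ⟨C₁, c, hc, hasym⟩ := Ph1_asymp hν hε hθ₀ hθ₁
  obtain ⟨C₂, hsm⟩ := Ph1_small hν hε hθ₀ hθ₁
  set I₁ : ℝ := ∫ t in Ioi (1 : ℝ), (kp t + km t) * t ^ (-(5 / 4) : ℝ) with hI₁
  set I₀ : ℝ := ∫ t in Ioc (0 : ℝ) 1, (kp t + km t) with hI₀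
  have hI₀0 : 0 ≤ I₀ := setIntegral_nonneg measurableSet_Ioc fun t _ => by
    have := hkp0 t; have := hkm0 t; linarith
  have hpi := Real.pi_pos
  refine ⟨(2 * Real.pi)⁻¹ * (I₀ * (|C₂| * Real.tan θ₀ ^ (1 / 4 : ℝ)) + |C₁| * I₁), ?_⟩
  intro θ hθ0 hθ1 hi2
  have hx : 0 < Real.tan θ :=
    Real.tan_pos_of_pos_of_lt_pi_div_two hθ0 (lt_of_le_of_lt hθ1 hθ₁)
  have hxx : Real.tan θ ≤ Real.tan θ₀ := by
    rcases hθ1.eq_or_lt with h | h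
    · rw [h]
    · exact (Real.tan_lt_tan_of_nonneg_of_lt_pi_div_two hθ0.le hθ₁ h).le
  set x : ℝ := Real.tan θ with hxd
  set Φ : ℝ → ℝ := fun t => kp t * ‖G1 ν ε (ha t) θ‖ ^ 2 + km t * ‖G1 ν ε (ha (-t)) θ‖ ^ 2 with hΦ
  set Mn : ℝ → ℝ := fun t => 2 * Real.pi / t * (km t * ‖Wp ν (t * x)‖ ^ 2 +
    kp t * ‖ν * Vm ν (t * x)‖ ^ 2) with hMn
  have hiH : IntegrableOn Φ (Ioc 0 1) := hi2.mono_set Ioc_subset_Ioi_self
  have hiT : IntegrableOn Φ (Ioi 1) := hi2.mono_set (Ioi_subset_Ioi zero_le_one)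
  have hMc : ContinuousOn Mn (Ioi 1) := by
    apply ContinuousOn.mul
    · exact continuousOn_const.div continuousOn_id fun t ht => by
        have : (1 : ℝ) < t := ht
        exact (by linarith : (0 : ℝ) < t).ne'
    · exact (hkm.continuousOn.mul (f1_d2_Wp ν hx)).add (hkp.continuousOn.mul (f1_d2_Vm ν hx))
  -- the tail
  have hbt : ∀ t, 1 < t → |Φ t - Mn t| ≤
      |C₁| * x ^ (3 / 4 : ℝ) * ((kp t + km t) * t ^ (-(5 / 4) : ℝ)) := by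
    intro t ht
    have ht0 : (0 : ℝ) < t := by linarith
    obtain ⟨h1, h2⟩ := hasym t θ ht.le hθ0 hθ1
    have e1 : (t * x) ^ (3 / 4 : ℝ) = t ^ (3 / 4 : ℝ) * x ^ (3 / 4 : ℝ) :=
      Real.mul_rpow ht0.le hx.le
    have e2 : Real.exp (-(c * (t * x))) ≤ 1 := by
      rw [Real.exp_le_one_iff]
      have : 0 < c * (t * x) := by positivity
      linarith
    have e3 : t ^ (3 / 4 : ℝ) / t ^ 2 = t ^ (-(5 / 4) : ℝ) := by
      rw [← Real.rpow_natCast t 2, ← Real.rpow_sub ht0]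
      norm_num
    have e4 : C₁ / t ^ 2 * (t * x) ^ (3 / 4 : ℝ) * Real.exp (-(c * (t * x))) ≤
        |C₁| * x ^ (3 / 4 : ℝ) * t ^ (-(5 / 4) : ℝ) := by
      calc C₁ / t ^ 2 * (t * x) ^ (3 / 4 : ℝ) * Real.exp (-(c * (t * x)))
          ≤ |C₁| / t ^ 2 * (t * x) ^ (3 / 4 : ℝ) * 1 := by
            apply mul_le_mul _ e2 (Real.exp_pos _).le (by positivity)
            apply mul_le_mul_of_nonneg_right _ (by positivity)
            apply div_le_div_of_nonneg_right (le_abs_self _) (by positivity)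
        _ = |C₁| * x ^ (3 / 4 : ℝ) * (t ^ (3 / 4 : ℝ) / t ^ 2) := by
            rw [e1]
            ring
        _ = _ := by rw [e3]
    have h3 := h1.trans e4
    have h4 := h2.trans e4
    have e5 : Φ t - Mn t =
        km t * (‖G1 ν ε (ha (-t)) θ‖ ^ 2 - 2 * Real.pi / t * ‖Wp ν (t * x)‖ ^ 2) +
        kp t * (‖G1 ν ε (ha t) θ‖ ^ 2 - 2 * Real.pi / t * ‖ν * Vm ν (t * x)‖ ^ 2) := by
      rw [hΦ, hMn]
      ring
    rw [e5]
    refine (abs_add_le _ _).trans ?_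
    rw [abs_mul, abs_mul, abs_of_nonneg (hkm0 t), abs_of_nonneg (hkp0 t)]
    calc _ ≤ km t * (|C₁| * x ^ (3 / 4 : ℝ) * t ^ (-(5 / 4) : ℝ)) +
          kp t * (|C₁| * x ^ (3 / 4 : ℝ) * t ^ (-(5 / 4) : ℝ)) :=
          add_le_add (mul_le_mul_of_nonneg_left h3 (hkm0 t))
            (mul_le_mul_of_nonneg_left h4 (hkp0 t))
      _ = _ := by ring
  have hit : IntegrableOn (fun t => |C₁| * x ^ (3 / 4 : ℝ) *
      ((kp t + km t) * t ^ (-(5 / 4) : ℝ))) (Ioi 1) := hgi.const_mul _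
  obtain ⟨hT1, hT2⟩ := f1_d2_tail hiT hMc hbt hit
  rw [integral_const_mul, ← hI₁] at hT2
  -- the head
  have hH := f1_d2_head (Φ := Φ) (k := fun t => kp t + km t) (D := |C₂| * x) (hkp.add hkm)
    (fun t h0 h1 => by
      have a1 := (hsm t θ (by rw [abs_of_nonneg h0]; exact h1) hθ0 hθ1).trans
        (mul_le_mul_of_nonneg_right (le_abs_self C₂) hx.le)
      have a2 := (hsm (-t) θ (by rw [abs_neg, abs_of_nonneg h0]; exact h1) hθ0 hθ1).trans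
        (mul_le_mul_of_nonneg_right (le_abs_self C₂) hx.le)
      have a3 : 0 ≤ Φ t := add_nonneg (mul_nonneg (hkp0 t) (by positivity))
        (mul_nonneg (hkm0 t) (by positivity))
      rw [abs_of_nonneg a3]
      calc Φ t ≤ kp t * (|C₂| * x) + km t * (|C₂| * x) :=
            add_le_add (mul_le_mul_of_nonneg_left a1 (hkp0 t))
              (mul_le_mul_of_nonneg_left a2 (hkm0 t))
        _ = _ := by ring)
  rw [← hI₀] at hH
  have hx4 : x ≤ Real.tan θ₀ ^ (1 / 4 : ℝ) * x ^ (3 / 4 : ℝ) := by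
    calc x = x ^ (1 / 4 : ℝ) * x ^ (3 / 4 : ℝ) := by
          rw [← Real.rpow_add hx]
          norm_num
      _ ≤ _ := mul_le_mul_of_nonneg_right (Real.rpow_le_rpow hx.le hxx (by norm_num))
          (by positivity)
  have hmain : ∫ t in Ioi (1 : ℝ), (km t * (‖Wp ν (t * x)‖ ^ 2 / t) +
      kp t * (‖ν * Vm ν (t * x)‖ ^ 2 / t)) = (2 * Real.pi)⁻¹ * ∫ t in Ioi (1 : ℝ), Mn t := by
    rw [← integral_const_mul]
    congr 1
    funext t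
    rw [hMn]
    field_simp
  rw [f1_d2_split hi2, hmain]
  have e4 : (2 * Real.pi)⁻¹ * ((∫ t in Ioc (0 : ℝ) 1, Φ t) + ∫ t in Ioi (1 : ℝ), Φ t) -
      (2 * Real.pi)⁻¹ * (∫ t in Ioi (1 : ℝ), Mn t) =
      (2 * Real.pi)⁻¹ * ((∫ t in Ioc (0 : ℝ) 1, Φ t) +
        ((∫ t in Ioi (1 : ℝ), Φ t) - ∫ t in Ioi (1 : ℝ), Mn t)) := by ring
  rw [e4, abs_mul, abs_of_pos (by positivity : (0 : ℝ) < (2 * Real.pi)⁻¹)]
  calc (2 * Real.pi)⁻¹ * |(∫ t in Ioc (0 : ℝ) 1, Φ t) +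
        ((∫ t in Ioi (1 : ℝ), Φ t) - ∫ t in Ioi (1 : ℝ), Mn t)|
      ≤ (2 * Real.pi)⁻¹ * (I₀ * (|C₂| * (Real.tan θ₀ ^ (1 / 4 : ℝ) * x ^ (3 / 4 : ℝ))) +
          |C₁| * x ^ (3 / 4 : ℝ) * I₁) := by
        apply mul_le_mul_of_nonneg_left _ (by positivity)
        refine (abs_add_le _ _).trans (add_le_add (hH.trans ?_) hT2)
        exact mul_le_mul_of_nonneg_left (mul_le_mul_of_nonneg_left hx4 (abs_nonneg _)) hI₀0
    _ = _ := by ring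

theorem phi_asymp1_pr {ν : ℂ} {ε : ℝ} {a : ℕ → ℂ} {f : ℍ → ℂ} {L : ℂ → ℂ}
    (F : Frame1 ν ε a f) (hL : LFun1 ν ε a f L) {θ₀ : ℝ} (hθ₀ : θ₀ ∈ SP.II) :
    ∃ C : ℝ, ∀ θ : ℝ, 0 < θ → θ ≤ θ₀ →
      ‖ray (phi f) θ - (((∫ t in Ioi (1 : ℝ),
        (‖L (ha (-t))‖ ^ 2 * (‖Wp ν (t * Real.tan θ)‖ ^ 2 / t) +
          ‖L (ha t)‖ ^ 2 * (‖ν * Vm ν (t * Real.tan θ)‖ ^ 2 / t)) : ℝ) : ℂ))‖ ≤
            C * Real.tan θ ^ (3 / 4 : ℝ) ∧
      ‖ray (phi f) (Real.pi - θ) - (((∫ t in Ioi (1 : ℝ),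
        (‖L (ha t)‖ ^ 2 * (‖Wp ν (t * Real.tan θ)‖ ^ 2 / t) +
          ‖L (ha (-t))‖ ^ 2 * (‖ν * Vm ν (t * Real.tan θ)‖ ^ 2 / t)) : ℝ) : ℂ))‖ ≤
            C * Real.tan θ ^ (3 / 4 : ℝ) := by
  have hgi : IntegrableOn (fun t : ℝ => (‖L (ha t)‖ ^ 2 + ‖L (ha (-t))‖ ^ 2) *
      t ^ (-(5 / 4) : ℝ)) (Ioi 1) :=
    (growth_int1 F hL (α := 5 / 4) (by norm_num)).mono_set Ioi_subset_Ici_self
  have hgi' : IntegrableOn (fun t : ℝ => (‖L (ha (-t))‖ ^ 2 + ‖L (ha t)‖ ^ 2) *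
      t ^ (-(5 / 4) : ℝ)) (Ioi 1) := by
    refine hgi.congr (Eventually.of_forall fun t => ?_)
    simp only
    rw [add_comm]
  have hε' : -ε = 1 ∨ -ε = -1 := by
    rcases F.eps with h | h
    · right; rw [h]
    · left; rw [h]; norm_num
  obtain ⟨C, hC⟩ := f1_d2_core (ν := ν) (ε := ε) F.nu F.eps hθ₀.1 hθ₀.2
    (kp := fun t => ‖L (ha t)‖ ^ 2) (km := fun t => ‖L (ha (-t))‖ ^ 2) (f1_d2_L hL.diff)
    (f1_d2_L' hL.diff) (fun t => by positivity) (fun t => by positivity) hgi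
  obtain ⟨C', hC'⟩ := f1_d2_core (ν := ν) (ε := -ε) F.nu hε' hθ₀.1 hθ₀.2
    (kp := fun t => ‖L (ha (-t))‖ ^ 2) (km := fun t => ‖L (ha t)‖ ^ 2) (f1_d2_L' hL.diff)
    (f1_d2_L hL.diff) (fun t => by positivity) (fun t => by positivity) hgi'
  refine ⟨max C C', fun θ h0 h1 => ?_⟩
  have hθπ : θ < Real.pi := by linarith [hθ₀.2, Real.pi_pos]
  have hx : 0 < Real.tan θ := Real.tan_pos_of_pos_of_lt_pi_div_two h0 (lt_of_le_of_lt h1 hθ₀.2)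
  have hxp : 0 ≤ Real.tan θ ^ (3 / 4 : ℝ) := by positivity
  constructor
  · obtain ⟨hint, hray⟩ := ray_phi1 F hL (θ := θ) ⟨h0, hθπ⟩
    obtain ⟨hi2, he2⟩ := f1_d2_half hint
    have h2 := hC θ h0 h1 hi2
    rw [hray, ← Complex.ofReal_sub, Complex.norm_real, Real.norm_eq_abs, he2]
    exact h2.trans (mul_le_mul_of_nonneg_right (le_max_left _ _) hxp)
  · obtain ⟨hint, hray⟩ := ray_phi1 F hL (θ := Real.pi - θ) ⟨by linarith, by linarith⟩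
    have e1 : ∀ t : ℝ, ‖L (ha t)‖ ^ 2 * ‖G1 ν ε (ha t) ((Real.pi - θ : ℝ) : ℂ)‖ ^ 2 =
        ‖L (ha t)‖ ^ 2 * ‖G1 ν (-ε) (ha (-t)) θ‖ ^ 2 := by
      intro t
      rw [f1_d2_sym F.nu h0 hθπ t]
    simp only [e1] at hint hray
    obtain ⟨hi2, he2⟩ := f1_d2_half hint
    simp only [neg_neg] at hi2 he2
    have e2 : ∀ t : ℝ, ‖L (ha t)‖ ^ 2 * ‖G1 ν (-ε) (ha (-t)) θ‖ ^ 2 +
        ‖L (ha (-t))‖ ^ 2 * ‖G1 ν (-ε) (ha t) θ‖ ^ 2 =
        ‖L (ha (-t))‖ ^ 2 * ‖G1 ν (-ε) (ha t) θ‖ ^ 2 +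
        ‖L (ha t)‖ ^ 2 * ‖G1 ν (-ε) (ha (-t)) θ‖ ^ 2 := fun t => add_comm _ _
    simp only [e2] at hi2 he2
    have h2 := hC' θ h0 h1 hi2
    rw [hray, ← Complex.ofReal_sub, Complex.norm_real, Real.norm_eq_abs, he2]
    exact h2.trans (mul_le_mul_of_nonneg_right (le_max_right _ _) hxp)

end Pool.Agent.JO.FM1

namespace Pool.Agent.JO.FM1

theorem phi_asymp1 : type_of% @phi_asymp1_pr := @phi_asymp1_pr

end Pool.Agent.JO.FM1
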