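import Pool.Agent.Lib_helper42.JO1.Defs
import Pool.Agent.Lib_helper45.JO.Defs2
import Pool.Agent.Lib_helper45.JOM.D3

/-! Project JO, part FM, weight 1, block D3 (helper81): the transform of a main term. -/

set_option autoImplicit false

namespace Pool.Agent.JO.FM1

open Complex Filter Topology MeasureTheory Set
open UpperHalfPlane hiding I
open Pool.Agent.JO.FM
open scoped MatrixGroups ComplexConjugate

/-- the function of `v = tan θ` -/
noncomputable def f1_d3_G (w g : ℝ → ℝ) (v : ℝ) : ℝ :=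
  ∫ t in Ioi (1 : ℝ), g t * (w (t * v) / t)

section
variable {w g : ℝ → ℝ}

theorem f1_d3_g_int (hg : ∀ α : ℝ, 9 / 8 < α → IntegrableOn (fun t : ℝ => g t * t ^ (-α)) (Ici 1))
    {α : ℝ} (hα : 9 / 8 < α) : IntegrableOn (fun t : ℝ => g t * t ^ (-α)) (Ioi 1) :=
  (hg α hα).mono_set Ioi_subset_Ici_self

theorem f1_d3_g_abs (hg : ∀ α : ℝ, 9 / 8 < α → IntegrableOn (fun t : ℝ => g t * t ^ (-α)) (Ici 1))
    {α : ℝ} (hα : 9 / 8 < α) : IntegrableOn (fun t : ℝ => |g t| * t ^ (-α)) (Ioi 1) := by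
  refine ((f1_d3_g_int hg hα).norm).congr ?_
  refine (ae_restrict_iff' measurableSet_Ioi).mpr (ae_of_all _ fun t ht => ?_)
  have h0 : (0 : ℝ) < t := lt_trans one_pos ht
  simp only [Real.norm_eq_abs, abs_mul, abs_of_pos (Real.rpow_pos_of_pos h0 _)]

theorem f1_d3_g_meas
    (hg : ∀ α : ℝ, 9 / 8 < α → IntegrableOn (fun t : ℝ => g t * t ^ (-α)) (Ici 1)) :
    AEStronglyMeasurable g (volume.restrict (Ioi 1)) := by
  have h1 := (f1_d3_g_int hg (α := 2) (by norm_num)).aestronglyMeasurable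
  have h2 : AEStronglyMeasurable (fun t : ℝ => t ^ (2 : ℝ)) (volume.restrict (Ioi 1)) := by
    refine (ContinuousOn.rpow_const continuousOn_id (fun t ht => Or.inl ?_)).aestronglyMeasurable
      measurableSet_Ioi
    exact (lt_trans one_pos ht).ne'
  refine (h1.mul h2).congr ?_
  refine (ae_restrict_iff' measurableSet_Ioi).mpr (ae_of_all _ fun t ht => ?_)
  have h0 : (0 : ℝ) < t := lt_trans one_pos ht
  show g t * t ^ (-2 : ℝ) * t ^ (2 : ℝ) = g t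
  rw [mul_assoc, ← Real.rpow_add h0]
  simp

theorem f1_d3_int_bound {C : ℝ} (hC0 : 0 ≤ C)
    (hC : ∀ x : ℝ, 0 < x → |w x| ≤ C * x ^ (3 / 4 : ℝ) * Real.exp (-(x / 2)))
    {t v : ℝ} (ht : 1 < t) (hv : 0 < v) :
    ‖g t * (w (t * v) / t)‖ ≤
      4 * C * v ^ (-(1 / 4) : ℝ) * Real.exp (-(v / 4)) * (|g t| * t ^ (-(5 / 4) : ℝ)) := by
  have h0 : (0 : ℝ) < t := lt_trans one_pos ht
  have hx : 0 < t * v := mul_pos h0 hv
  have h1 := hC (t * v) hx
  rw [norm_mul, norm_div, Real.norm_eq_abs, Real.norm_eq_abs, Real.norm_eq_abs, abs_of_pos h0]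
  have h2 : Real.exp (-(t * v / 4)) ≤ Real.exp (-(v / 4)) := by
    apply Real.exp_le_exp.2
    nlinarith
  have h3 : (t * v) ^ (3 / 4 : ℝ) * Real.exp (-(t * v / 2)) ≤
      4 * (t * v) ^ (-(1 / 4) : ℝ) * Real.exp (-(t * v / 4)) := by
    have e1 : (t * v) ^ (3 / 4 : ℝ) = (t * v) ^ (-(1 / 4) : ℝ) * (t * v) := by
      nth_rewrite 3 [← Real.rpow_one (t * v)]
      rw [← Real.rpow_add hx]
      norm_num
    have e2 : t * v ≤ 4 * Real.exp (t * v / 4) := by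
      have := Real.add_one_le_exp (t * v / 4)
      linarith
    have e3 : Real.exp (-(t * v / 2)) = Real.exp (-(t * v / 4)) * Real.exp (-(t * v / 4)) := by
      rw [← Real.exp_add]; congr 1; ring
    have e4 : Real.exp (t * v / 4) * Real.exp (-(t * v / 4)) = 1 := by
      rw [← Real.exp_add]; simp
    have hp : 0 < (t * v) ^ (-(1 / 4) : ℝ) := Real.rpow_pos_of_pos hx _
    calc (t * v) ^ (3 / 4 : ℝ) * Real.exp (-(t * v / 2)) =
          (t * v) ^ (-(1 / 4) : ℝ) * (t * v) * (Real.exp (-(t * v / 4)) *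
            Real.exp (-(t * v / 4))) := by rw [e1, e3]
      _ ≤ (t * v) ^ (-(1 / 4) : ℝ) * (4 * Real.exp (t * v / 4)) * (Real.exp (-(t * v / 4)) *
            Real.exp (-(t * v / 4))) := by gcongr
      _ = 4 * (t * v) ^ (-(1 / 4) : ℝ) * Real.exp (-(t * v / 4)) *
            (Real.exp (t * v / 4) * Real.exp (-(t * v / 4))) := by ring
      _ = _ := by rw [e4, mul_one]
  have h4 : (t * v) ^ (-(1 / 4) : ℝ) = t ^ (-(1 / 4) : ℝ) * v ^ (-(1 / 4) : ℝ) :=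
    Real.mul_rpow h0.le hv.le
  have h5 : t ^ (-(1 / 4) : ℝ) / t = t ^ (-(5 / 4) : ℝ) := by
    rw [div_eq_mul_inv, ← Real.rpow_neg_one t, ← Real.rpow_add h0]
    norm_num
  have hp1 : 0 < t ^ (-(1 / 4) : ℝ) := Real.rpow_pos_of_pos h0 _
  have hp2 : 0 < v ^ (-(1 / 4) : ℝ) := Real.rpow_pos_of_pos hv _
  have h6 : |w (t * v)| ≤ C * (4 * (t ^ (-(1 / 4) : ℝ) * v ^ (-(1 / 4) : ℝ)) *
      Real.exp (-(v / 4))) := by
    calc |w (t * v)| ≤ C * ((t * v) ^ (3 / 4 : ℝ) * Real.exp (-(t * v / 2))) := by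
          rw [← mul_assoc]; exact h1
      _ ≤ C * (4 * (t * v) ^ (-(1 / 4) : ℝ) * Real.exp (-(t * v / 4))) := by gcongr
      _ ≤ C * (4 * (t * v) ^ (-(1 / 4) : ℝ) * Real.exp (-(v / 4))) := by
          rw [h4]; gcongr
      _ = _ := by rw [h4]
  calc |g t| * (|w (t * v)| / t) ≤ |g t| * (C * (4 * (t ^ (-(1 / 4) : ℝ) * v ^ (-(1 / 4) : ℝ)) *
        Real.exp (-(v / 4))) / t) := by gcongr
    _ = 4 * C * v ^ (-(1 / 4) : ℝ) * Real.exp (-(v / 4)) * (|g t| *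
          (t ^ (-(1 / 4) : ℝ) / t)) := by ring
    _ = _ := by rw [h5]

theorem f1_d3_w_meas_mul (hw : ContinuousOn w (Ioi 0)) {v : ℝ} (hv : 0 < v) :
    AEStronglyMeasurable (fun t : ℝ => w (t * v) / t) (volume.restrict (Ioi 1)) := by
  refine ContinuousOn.aestronglyMeasurable ?_ measurableSet_Ioi
  refine ContinuousOn.div (hw.comp (by fun_prop) (fun t ht => ?_)) (by fun_prop) (fun t ht => ?_)
  · exact mul_pos (lt_trans one_pos ht) hv
  · exact (lt_trans one_pos ht).ne'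

theorem f1_d3_G_bound (hw : ContinuousOn w (Ioi 0))
    (hwb : ∃ C : ℝ, ∀ x : ℝ, 0 < x → |w x| ≤ C * x ^ (3 / 4 : ℝ) * Real.exp (-(x / 2)))
    (hg : ∀ α : ℝ, 9 / 8 < α → IntegrableOn (fun t : ℝ => g t * t ^ (-α)) (Ici 1)) :
    ∃ K : ℝ, 0 ≤ K ∧ (∀ v : ℝ, 0 < v →
      |f1_d3_G w g v| ≤ K * v ^ (-(1 / 4) : ℝ) * Real.exp (-(v / 4))) ∧
      ContinuousOn (f1_d3_G w g) (Ioi 0) := by
  obtain ⟨C₀, hC₀⟩ := hwb
  obtain ⟨C, hC0, hC⟩ : ∃ C : ℝ, 0 ≤ C ∧ ∀ x : ℝ, 0 < x →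
      |w x| ≤ C * x ^ (3 / 4 : ℝ) * Real.exp (-(x / 2)) := by
    refine ⟨|C₀|, abs_nonneg _, fun x hx => (hC₀ x hx).trans ?_⟩
    have := Real.rpow_pos_of_pos hx (3 / 4)
    gcongr
    exact le_abs_self _
  have hI := f1_d3_g_abs hg (α := 5 / 4) (by norm_num)
  have hI0 : 0 ≤ ∫ t in Ioi (1 : ℝ), |g t| * t ^ (-(5 / 4) : ℝ) := by
    refine setIntegral_nonneg measurableSet_Ioi (fun t ht => ?_)
    have h0 : (0 : ℝ) < t := lt_trans one_pos ht
    positivity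
  refine ⟨4 * C * ∫ t in Ioi (1 : ℝ), |g t| * t ^ (-(5 / 4) : ℝ), by positivity,
    fun v hv => ?_, ?_⟩
  · have h1 : ‖f1_d3_G w g v‖ ≤ ∫ t in Ioi (1 : ℝ), 4 * C * v ^ (-(1 / 4) : ℝ) *
        Real.exp (-(v / 4)) * (|g t| * t ^ (-(5 / 4) : ℝ)) := by
      refine norm_integral_le_of_norm_le (hI.const_mul _) ?_
      refine (ae_restrict_iff' measurableSet_Ioi).mpr (ae_of_all _ fun t ht => ?_)
      exact f1_d3_int_bound hC0 hC ht hv
    rw [Real.norm_eq_abs, integral_const_mul] at h1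
    refine h1.trans (le_of_eq ?_)
    ring
  · intro v hv
    have hv0 : (0 : ℝ) < v := hv
    have hc : ContinuousOn (f1_d3_G w g) (Ioi (v / 2)) := by
      refine continuousOn_of_dominated (bound := fun t => 4 * C * (v / 2) ^ (-(1 / 4) : ℝ) *
        (|g t| * t ^ (-(5 / 4) : ℝ))) ?_ ?_ (hI.const_mul _) ?_
      · intro x hx
        have hx0 : 0 < x := lt_trans (by positivity) hx
        exact (f1_d3_g_meas hg).mul (f1_d3_w_meas_mul hw hx0)
      · intro x hx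
        have hx0 : 0 < x := lt_trans (by positivity) hx
        refine (ae_restrict_iff' measurableSet_Ioi).mpr (ae_of_all _ fun t ht => ?_)
        refine (f1_d3_int_bound hC0 hC ht hx0).trans ?_
        have h0 : (0 : ℝ) < t := lt_trans one_pos ht
        have h2 : x ^ (-(1 / 4) : ℝ) ≤ (v / 2) ^ (-(1 / 4) : ℝ) :=
          Real.rpow_le_rpow_of_nonpos (by positivity) (le_of_lt hx) (by norm_num)
        have h3 : Real.exp (-(x / 4)) ≤ 1 := Real.exp_le_one_iff.2 (by linarith)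
        have h4 : 0 < x ^ (-(1 / 4) : ℝ) := Real.rpow_pos_of_pos hx0 _
        calc 4 * C * x ^ (-(1 / 4) : ℝ) * Real.exp (-(x / 4)) * (|g t| * t ^ (-(5 / 4) : ℝ)) ≤
              4 * C * x ^ (-(1 / 4) : ℝ) * 1 * (|g t| * t ^ (-(5 / 4) : ℝ)) := by gcongr
          _ ≤ 4 * C * (v / 2) ^ (-(1 / 4) : ℝ) * 1 * (|g t| * t ^ (-(5 / 4) : ℝ)) := by gcongr
          _ = _ := by ring
      · refine (ae_restrict_iff' measurableSet_Ioi).mpr (ae_of_all _ fun t ht => ?_)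
        have h0 : (0 : ℝ) < t := lt_trans one_pos ht
        refine continuousOn_const.mul (ContinuousOn.div_const ?_ _)
        exact hw.comp (by fun_prop) (fun x hx => mul_pos h0 (lt_trans (by positivity) hx))
    exact (hc.continuousAt (Ioi_mem_nhds (by linarith))).continuousWithinAt

theorem f1_d3_prod_meas (hw : ContinuousOn w (Ioi 0))
    (hg : ∀ α : ℝ, 9 / 8 < α → IntegrableOn (fun t : ℝ => g t * t ^ (-α)) (Ici 1)) (s : ℂ) :
    AEStronglyMeasurable (Function.uncurry fun (v t : ℝ) => (v : ℂ) ^ (s - 1) *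
      ((g t * (w (t * v) / t) : ℝ) : ℂ))
      ((volume.restrict (Ioi (0 : ℝ))).prod (volume.restrict (Ioi (1 : ℝ)))) := by
  have h1 : AEStronglyMeasurable (fun p : ℝ × ℝ => g p.2)
      ((volume.restrict (Ioi (0 : ℝ))).prod (volume.restrict (Ioi (1 : ℝ)))) :=
    (f1_d3_g_meas hg).comp_snd
  have h2 : AEStronglyMeasurable (fun p : ℝ × ℝ => (p.1 : ℂ) ^ (s - 1) *
      ((w (p.2 * p.1) / p.2 : ℝ) : ℂ))
      ((volume.restrict (Ioi (0 : ℝ))).prod (volume.restrict (Ioi (1 : ℝ)))) := by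
    rw [Measure.prod_restrict]
    refine ContinuousOn.aestronglyMeasurable ?_ (measurableSet_Ioi.prod measurableSet_Ioi)
    refine ContinuousOn.mul ?_ ?_
    · intro p hp
      have hp0 : (0 : ℝ) < p.1 := hp.1
      refine ContinuousAt.continuousWithinAt ?_
      refine ContinuousAt.cpow (by fun_prop) continuousAt_const (Or.inl ?_)
      simpa using hp0
    · refine Complex.continuous_ofReal.comp_continuousOn ?_
      refine ContinuousOn.div (hw.comp (by fun_prop) (fun p hp => ?_)) (by fun_prop)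
        (fun p hp => ?_)
      · have h2 : (1 : ℝ) < p.2 := hp.2
        have h3 : (0 : ℝ) < p.1 := hp.1
        exact mul_pos (lt_trans one_pos h2) h3
      · have h2 : (1 : ℝ) < p.2 := hp.2
        exact (lt_trans one_pos h2).ne'
  refine ((Complex.continuous_ofReal.comp_aestronglyMeasurable h1).mul h2).congr
    (ae_of_all _ fun p => ?_)
  simp only [Function.uncurry, Pi.mul_apply]
  push_cast
  ring

theorem f1_d3_mellin (hw : ContinuousOn w (Ioi 0))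
    (hwb : ∃ C : ℝ, ∀ x : ℝ, 0 < x → |w x| ≤ C * x ^ (3 / 4 : ℝ) * Real.exp (-(x / 2)))
    {s : ℂ} (hs : 0 < s.re) : MellinConvergent (fun x => ((w x : ℝ) : ℂ)) s := by
  obtain ⟨C, hC⟩ := hwb
  have hi := integrableOn_rpow_mul_exp_neg_mul_rpow (p := 1) (b := 1 / 2)
    (s := s.re - 1 + 3 / 4) (by linarith) one_pos (by norm_num)
  unfold MellinConvergent
  refine (hi.const_mul C).mono' ?_ ?_
  · refine ContinuousOn.aestronglyMeasurable ?_ measurableSet_Ioi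
    simp only [smul_eq_mul]
    refine ContinuousOn.mul ?_ (Complex.continuous_ofReal.comp_continuousOn hw)
    refine ContinuousOn.cpow_const (by fun_prop) (fun v hv => Or.inl ?_)
    have : (0 : ℝ) < v := hv
    simpa using this
  · refine (ae_restrict_iff' measurableSet_Ioi).mpr (ae_of_all _ fun x hx => ?_)
    have hx0 : (0 : ℝ) < x := hx
    rw [norm_smul, Complex.norm_cpow_eq_rpow_re_of_pos hx0, Complex.norm_real, Real.norm_eq_abs,
      Complex.sub_re, Complex.one_re, Real.rpow_add hx0, Real.rpow_one]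
    have hp : 0 < x ^ (s.re - 1) := Real.rpow_pos_of_pos hx0 _
    calc x ^ (s.re - 1) * |w x| ≤ x ^ (s.re - 1) * (C * x ^ (3 / 4 : ℝ) *
          Real.exp (-(x / 2))) := by
          gcongr
          exact hC x hx0
      _ = _ := by
          have : -(x / 2) = -(1 / 2) * x := by ring
          rw [this]
          ring

theorem f1_d3_fubini (hw : ContinuousOn w (Ioi 0))
    (hwb : ∃ C : ℝ, ∀ x : ℝ, 0 < x → |w x| ≤ C * x ^ (3 / 4 : ℝ) * Real.exp (-(x / 2)))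
    (hg : ∀ α : ℝ, 9 / 8 < α → IntegrableOn (fun t : ℝ => g t * t ^ (-α)) (Ici 1)) {s : ℂ}
    (hs : 1 < s.re) :
    IntegrableOn (fun v : ℝ => (v : ℂ) ^ (s - 1) * ((f1_d3_G w g v : ℝ) : ℂ)) (Ioi 0) ∧
    ∫ v in Ioi (0 : ℝ), (v : ℂ) ^ (s - 1) * ((f1_d3_G w g v : ℝ) : ℂ) =
      mellin (fun x => ((w x : ℝ) : ℂ)) s *
        ∫ t in Ioi (1 : ℝ), (g t : ℂ) * (t : ℂ) ^ (-(s + 1)) := by
  have hmc := f1_d3_mellin hw hwb (s := s) (by linarith)
  have hone : ∀ t : ℝ, 1 < t →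
      MellinConvergent (fun v => ((w (t * v) : ℝ) : ℂ)) s := fun t ht =>
    (MellinConvergent.comp_mul_left (f := fun x => ((w x : ℝ) : ℂ))
      (lt_trans one_pos ht)).2 hmc
  have hval : ∀ t : ℝ, 1 < t → mellin (fun v => ((w (t * v) : ℝ) : ℂ)) s =
      (t : ℂ) ^ (-s) * mellin (fun x => ((w x : ℝ) : ℂ)) s := fun t ht => by
    rw [mellin_comp_mul_left (fun x => ((w x : ℝ) : ℂ)) s (lt_trans one_pos ht), smul_eq_mul]
  have hF : ∀ t v : ℝ, (v : ℂ) ^ (s - 1) * ((g t * (w (t * v) / t) : ℝ) : ℂ) =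
      ((g t : ℂ) / t) * ((v : ℂ) ^ (s - 1) • ((w (t * v) : ℝ) : ℂ)) := by
    intro t v
    rw [smul_eq_mul]
    push_cast
    ring
  -- norms
  set M : ℝ := ∫ v in Ioi (0 : ℝ), v ^ (s.re - 1) * |w v| with hM
  have hnorm : ∀ t : ℝ, 1 < t → ∫ v in Ioi (0 : ℝ), ‖(v : ℂ) ^ (s - 1) *
      ((g t * (w (t * v) / t) : ℝ) : ℂ)‖ = M * (|g t| * t ^ (-(s.re + 1))) := by
    intro t ht
    have h0 : (0 : ℝ) < t := lt_trans one_pos ht
    have e1 : ∀ v ∈ Ioi (0 : ℝ), ‖(v : ℂ) ^ (s - 1) *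
        ((g t * (w (t * v) / t) : ℝ) : ℂ)‖ = (|g t| * t ^ (-(s.re - 1)) / t) *
          (fun x : ℝ => x ^ (s.re - 1) * |w x|) (t * v) := by
      intro v hv
      have hv0 : (0 : ℝ) < v := hv
      rw [norm_mul, Complex.norm_cpow_eq_rpow_re_of_pos hv0, Complex.norm_real, Real.norm_eq_abs,
        abs_mul, abs_div, abs_of_pos h0]
      simp only [Complex.sub_re, Complex.one_re]
      rw [Real.mul_rpow h0.le hv0.le]
      have h2 : t ^ (-(s.re - 1)) * t ^ (s.re - 1) = 1 := by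
        rw [← Real.rpow_add h0]; simp
      calc v ^ (s.re - 1) * (|g t| * (|w (t * v)| / t)) =
            (t ^ (-(s.re - 1)) * t ^ (s.re - 1)) * (v ^ (s.re - 1) * (|g t| *
              (|w (t * v)| / t))) := by rw [h2, one_mul]
        _ = _ := by ring
    rw [setIntegral_congr_fun measurableSet_Ioi e1, integral_const_mul,
      integral_comp_mul_left_Ioi (fun x : ℝ => x ^ (s.re - 1) * |w x|) 0 h0, mul_zero, ← hM,
      smul_eq_mul]
    have h3 : t ^ (-(s.re - 1)) / t * t⁻¹ = t ^ (-(s.re + 1)) := by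
      rw [div_eq_mul_inv, ← Real.rpow_neg_one t, ← Real.rpow_add h0, ← Real.rpow_add h0]
      congr 1
      ring
    rw [← h3]
    ring
  have hint : Integrable (Function.uncurry fun (v t : ℝ) => (v : ℂ) ^ (s - 1) *
      ((g t * (w (t * v) / t) : ℝ) : ℂ))
      ((volume.restrict (Ioi (0 : ℝ))).prod (volume.restrict (Ioi (1 : ℝ)))) := by
    rw [integrable_prod_iff' (f1_d3_prod_meas hw hg s)]
    constructor
    · refine (ae_restrict_iff' measurableSet_Ioi).mpr (ae_of_all _ fun t ht => ?_)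
      have h1 := (hone t ht)
      unfold MellinConvergent at h1
      refine (h1.const_mul ((g t : ℂ) / t)).congr (ae_of_all _ fun v => ?_)
      exact (hF t v).symm
    · refine ((f1_d3_g_abs hg (α := s.re + 1) (by linarith)).const_mul M).congr ?_
      refine (ae_restrict_iff' measurableSet_Ioi).mpr (ae_of_all _ fun t ht => ?_)
      exact (hnorm t ht).symm
  have hGeq : ∀ v : ℝ, ∫ t in Ioi (1 : ℝ), (v : ℂ) ^ (s - 1) *
      ((g t * (w (t * v) / t) : ℝ) : ℂ) = (v : ℂ) ^ (s - 1) * ((f1_d3_G w g v : ℝ) : ℂ) := by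
    intro v
    rw [integral_const_mul, integral_complex_ofReal]
    rfl
  constructor
  · have h1 := hint.integral_prod_left
    refine h1.congr (ae_of_all _ fun v => ?_)
    exact hGeq v
  · have h2 := integral_integral_swap hint
    rw [integral_congr_ae (ae_of_all _ fun v => (hGeq v).symm), h2]
    rw [← integral_const_mul]
    refine setIntegral_congr_fun measurableSet_Ioi (fun t ht => ?_)
    have htc : (t : ℂ) ≠ 0 := by
      have : (0 : ℝ) < t := lt_trans one_pos ht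
      exact_mod_cast this.ne'
    rw [integral_congr_ae (ae_of_all _ fun v => hF t v), integral_const_mul]
    have h3 := hval t ht
    unfold mellin at h3
    rw [h3]
    have h4 : (t : ℂ) ^ (-(s + 1)) = (t : ℂ) ^ (-s) / t := by
      have : -(s + 1) = -s - 1 := by ring
      rw [this, Complex.cpow_sub _ _ htc, Complex.cpow_one]
    unfold mellin
    rw [h4]
    ring

/-! ### change of variables -/

theorem f1_d3_tan_image {θ₀ : ℝ} (h : θ₀ ∈ SP.II) :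
    Real.tan '' Ioo 0 θ₀ = Ioo 0 (Real.tan θ₀) := by
  ext v
  constructor
  · rintro ⟨θ, hθ, rfl⟩
    refine ⟨Real.tan_pos_of_pos_of_lt_pi_div_two hθ.1 (hθ.2.trans h.2), ?_⟩
    exact Real.tan_lt_tan_of_nonneg_of_lt_pi_div_two hθ.1.le h.2 hθ.2
  · rintro ⟨h0, h1⟩
    refine ⟨Real.arctan v, ⟨Real.arctan_pos.2 h0, ?_⟩, Real.tan_arctan v⟩
    have := Real.arctan_strictMono h1
    rwa [Real.arctan_tan (by linarith [h.1, Real.pi_pos]) h.2] at this

theorem f1_d3_cov {θ₀ : ℝ} (h : θ₀ ∈ SP.II) (φ : ℝ → ℂ) :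
    (IntegrableOn φ (Ioo 0 (Real.tan θ₀)) ↔
      IntegrableOn (fun θ => (1 / Real.cos θ ^ 2 : ℝ) • φ (Real.tan θ)) (Ioo 0 θ₀)) ∧
    ∫ v in Ioo 0 (Real.tan θ₀), φ v =
      ∫ θ in Ioo 0 θ₀, (1 / Real.cos θ ^ 2 : ℝ) • φ (Real.tan θ) := by
  have hd : ∀ x ∈ Ioo (0 : ℝ) θ₀, HasDerivWithinAt Real.tan (1 / Real.cos x ^ 2) (Ioo 0 θ₀) x :=
    fun x hx => (Real.hasDerivAt_tan (SP.cos_pos' (θ := x)
      ⟨hx.1, hx.2.trans h.2⟩).ne').hasDerivWithinAt
  have hss : Ioo (0 : ℝ) θ₀ ⊆ Ioo (-(Real.pi / 2)) (Real.pi / 2) := fun x hx =>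
    ⟨by linarith [hx.1, Real.pi_pos], hx.2.trans h.2⟩
  have hinj : InjOn Real.tan (Ioo (0 : ℝ) θ₀) := Real.injOn_tan.mono hss
  have habs : ∀ x : ℝ, |1 / Real.cos x ^ 2| = 1 / Real.cos x ^ 2 := fun x =>
    abs_of_nonneg (by positivity)
  constructor
  · have := integrableOn_image_iff_integrableOn_abs_deriv_smul measurableSet_Ioo hd hinj φ
    rw [f1_d3_tan_image h] at this
    simpa only [habs] using this
  · have := integral_image_eq_integral_abs_deriv_smul measurableSet_Ioo hd hinj φ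
    rw [f1_d3_tan_image h] at this
    simpa only [habs] using this

theorem f1_d3_bb_diff : DifferentiableOn ℂ SP.bb {s | 0 < s.re} := by
  have h1 : DifferentiableOn ℂ (fun s : ℂ => Gamma s * Gamma s / Gamma (s + s)) {s | 0 < s.re} := by
    intro s hs
    have hs0 : 0 < s.re := hs
    have hne : ∀ m : ℕ, s ≠ -(m : ℂ) := by
      intro m hm
      rw [hm] at hs0
      simp at hs0
      linarith [(Nat.cast_nonneg m : (0 : ℝ) ≤ m)]
    have hs2 : 0 < (s + s).re := by rw [Complex.add_re]; linarith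
    have hne2 : ∀ m : ℕ, s + s ≠ -(m : ℂ) := by
      intro m hm
      rw [hm] at hs2
      simp at hs2
      linarith [(Nat.cast_nonneg m : (0 : ℝ) ≤ m)]
    have hd := Complex.differentiableAt_Gamma s hne
    have hd2 := Complex.differentiableAt_Gamma (s + s) hne2
    have hd3 : DifferentiableAt ℂ (fun s : ℂ => Gamma (s + s)) s :=
      DifferentiableAt.comp (g := Gamma) (f := fun s : ℂ => s + s) s hd2 (by fun_prop)
    exact ((hd.mul hd).div hd3 (Complex.Gamma_ne_zero_of_re_pos hs2)).differentiableWithinAt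
  refine h1.congr (fun s hs => ?_)
  have hs0 : 0 < s.re := hs
  have hs2 : 0 < (s + s).re := by rw [Complex.add_re]; linarith
  rw [SP.bb_eq, Complex.Gamma_mul_Gamma_eq_betaIntegral hs0 hs0,
    mul_div_cancel_left₀ _ (Complex.Gamma_ne_zero_of_re_pos hs2)]

/-- the domain -/
def f1_d3_U : Set ℂ := {s | 1 / 4 < s.re ∧ 0 < s.im}

theorem f1_d3_ball {s : ℂ} (hs : s ∈ f1_d3_U) : ∃ r : ℝ, 0 < r ∧ r ≤ 1 ∧ 1 / 4 < s.re - r ∧
    Metric.ball s r ⊆ f1_d3_U ∧ ∀ z ∈ Metric.ball s r, s.re - r < z.re ∧ z.re < s.re + 1 ∧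
      ‖z‖ ≤ ‖s‖ + 1 := by
  have h1 : 1 / 4 < s.re := hs.1
  have h2 : 0 < s.im := hs.2
  have hr0 : 0 < min (min ((s.re - 1 / 4) / 2) s.im) 1 :=
    lt_min (lt_min (by linarith) h2) one_pos
  set r := min (min ((s.re - 1 / 4) / 2) s.im) 1 with hr
  have ha : r ≤ (s.re - 1 / 4) / 2 := (min_le_left _ _).trans (min_le_left _ _)
  have hb : r ≤ s.im := (min_le_left _ _).trans (min_le_right _ _)
  have hc : r ≤ 1 := min_le_right _ _
  have hz : ∀ z ∈ Metric.ball s r, s.re - r < z.re ∧ z.re < s.re + 1 ∧ 0 < z.im ∧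
      ‖z‖ ≤ ‖s‖ + 1 := by
    intro z hz
    rw [Metric.mem_ball, dist_eq_norm] at hz
    have h3 := (Complex.abs_re_le_norm (z - s)).trans_lt hz
    have h4 := (Complex.abs_im_le_norm (z - s)).trans_lt hz
    rw [Complex.sub_re] at h3
    rw [Complex.sub_im] at h4
    have h5 := abs_lt.mp h3
    have h6 := abs_lt.mp h4
    refine ⟨by linarith [h5.1], by linarith [h5.2], by linarith [h6.1], ?_⟩
    have h7 : ‖z‖ ≤ ‖z - s‖ + ‖s‖ := by
      have := norm_add_le (z - s) s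
      simpa using this
    linarith
  refine ⟨r, hr0, hc, by linarith, fun z hz' => ?_, fun z hz' => ?_⟩
  · have := hz z hz'
    exact ⟨by linarith [this.1], this.2.2.1⟩
  · have := hz z hz'
    exact ⟨this.1, this.2.1, this.2.2.2⟩


/-! ### the first remainder -/

/-- the integrand of the first remainder -/
noncomputable def f1_d3_F1 (w g : ℝ → ℝ) (s : ℂ) (θ : ℝ) : ℂ :=
  (SP.ff s θ - SP.bb s * (Real.tan θ : ℂ) ^ s) *
    ((f1_d3_G w g (Real.tan θ) / Real.sin θ ^ 2 : ℝ) : ℂ)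

theorem f1_d3_tan_pos {θ₀ : ℝ} (h : θ₀ ∈ SP.II) {θ : ℝ} (hθ : θ ∈ Ioo 0 θ₀) : 0 < Real.tan θ :=
  Real.tan_pos_of_pos_of_lt_pi_div_two hθ.1 (hθ.2.trans h.2)

theorem f1_d3_tan_cont {θ₀ : ℝ} (h : θ₀ ∈ SP.II) : ContinuousOn Real.tan (Ioo 0 θ₀) :=
  fun x hx => (Real.hasDerivAt_tan (SP.cos_pos' (θ := x)
    ⟨hx.1, hx.2.trans h.2⟩).ne').continuousAt.continuousWithinAt

theorem f1_d3_tan_cpow_cont {θ₀ : ℝ} (h : θ₀ ∈ SP.II) (s : ℂ) :
    ContinuousOn (fun θ : ℝ => (Real.tan θ : ℂ) ^ s) (Ioo 0 θ₀) := by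
  refine ContinuousOn.cpow_const ?_ (fun θ hθ => Or.inl ?_)
  · exact Complex.continuous_ofReal.comp_continuousOn (f1_d3_tan_cont h)
  · show 0 < ((Real.tan θ : ℝ) : ℂ).re
    rw [Complex.ofReal_re]
    exact f1_d3_tan_pos h hθ

theorem f1_d3_F1_meas (hw : ContinuousOn w (Ioi 0))
    (hwb : ∃ C : ℝ, ∀ x : ℝ, 0 < x → |w x| ≤ C * x ^ (3 / 4 : ℝ) * Real.exp (-(x / 2)))
    (hg : ∀ α : ℝ, 9 / 8 < α → IntegrableOn (fun t : ℝ => g t * t ^ (-α)) (Ici 1))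
    {θ₀ : ℝ} (h : θ₀ ∈ SP.II) {s : ℂ} (hs : 0 < s.re) :
    ContinuousOn (f1_d3_F1 w g s) (Ioo 0 θ₀) := by
  unfold f1_d3_F1
  obtain ⟨K, hK0, hK, hKc⟩ := f1_d3_G_bound hw hwb hg
  have hff : ContinuousOn (fun θ => SP.ff s θ) (Ioo 0 θ₀) := fun θ hθ =>
    (SP.ff_hasDeriv (SP.sub_II h hθ) hs).continuousAt.continuousWithinAt
  refine (hff.sub (continuousOn_const.mul (f1_d3_tan_cpow_cont h s))).mul ?_
  refine Complex.continuous_ofReal.comp_continuousOn ?_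
  refine (hKc.comp (f1_d3_tan_cont h) (fun θ hθ => f1_d3_tan_pos h hθ)).div (by fun_prop)
    (fun θ hθ => ?_)
  have := SP.sin_pos' (SP.sub_II h hθ)
  positivity

theorem f1_d3_F1_dom (hw : ContinuousOn w (Ioi 0))
    (hwb : ∃ C : ℝ, ∀ x : ℝ, 0 < x → |w x| ≤ C * x ^ (3 / 4 : ℝ) * Real.exp (-(x / 2)))
    (hg : ∀ α : ℝ, 9 / 8 < α → IntegrableOn (fun t : ℝ => g t * t ^ (-α)) (Ici 1))
    {θ₀ : ℝ} (h : θ₀ ∈ SP.II) {s : ℂ} (hs : s ∈ f1_d3_U) : ∃ r > 0,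
    Metric.ball s r ⊆ f1_d3_U ∧
    ∃ b : ℝ → ℝ, IntegrableOn b (Ioo 0 θ₀) ∧ ∀ θ ∈ Ioo 0 θ₀, ∀ z ∈ Metric.ball s r,
      ‖f1_d3_F1 w g z θ‖ ≤ b θ := by
  obtain ⟨K, hK0, hK, hKc⟩ := f1_d3_G_bound hw hwb hg
  obtain ⟨r, hr0, hr1, hr2, hrU, hrz⟩ := f1_d3_ball hs
  obtain ⟨C, hC⟩ := ff_tan h (R := ‖s‖ + 1)
  set M : ℝ := max 1 (Real.tan θ₀) with hM
  set σ : ℝ := min (s.re - r) 1 with hσ
  have hσ1 : 1 / 4 < σ := lt_min hr2 (by norm_num)
  have hσ2 : σ ≤ 1 := min_le_right _ _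
  have hM1 : 1 ≤ M := le_max_left _ _
  have hcos0 := SP.cos_pos' h
  refine ⟨r, hr0, hrU, fun θ => |C| * M ^ (‖s‖ + 1) * K / Real.cos θ₀ ^ 2 *
    θ ^ (σ - 5 / 4), (SP.integ_rpow (by linarith) h.1).const_mul _, fun θ hθ z hz => ?_⟩
  have hII := SP.sub_II h hθ
  have ht := f1_d3_tan_pos h hθ
  obtain ⟨hz1, hz2, hz3⟩ := hrz z hz
  have hzσ : σ ≤ z.re := (min_le_left _ _).trans hz1.le
  have h1 := (hC z θ (by linarith) (by linarith) hz3 hθ.1 hθ.2.le).1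
  have htM : Real.tan θ ≤ M :=
    (Real.tan_lt_tan_of_nonneg_of_lt_pi_div_two hθ.1.le h.2 hθ.2).le.trans (le_max_right _ _)
  have h2 : Real.tan θ ^ (z.re + 1) ≤ Real.tan θ ^ (σ + 1) * M ^ (‖s‖ + 1) := by
    have e : z.re + 1 = (σ + 1) + (z.re - σ) := by ring
    rw [e, Real.rpow_add ht]
    refine mul_le_mul_of_nonneg_left ?_ (Real.rpow_pos_of_pos ht _).le
    calc Real.tan θ ^ (z.re - σ) ≤ M ^ (z.re - σ) :=
          Real.rpow_le_rpow ht.le htM (by linarith)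
      _ ≤ M ^ (‖s‖ + 1) := by
          refine Real.rpow_le_rpow_of_exponent_le hM1 ?_
          have := Complex.re_le_norm z
          linarith
  have hG := hK (Real.tan θ) ht
  have hG2 : |f1_d3_G w g (Real.tan θ)| ≤ K * Real.tan θ ^ (-(1 / 4) : ℝ) := by
    refine hG.trans ?_
    have : Real.exp (-(Real.tan θ / 4)) ≤ 1 := Real.exp_le_one_iff.2 (by linarith)
    have h5 : 0 < Real.tan θ ^ (-(1 / 4) : ℝ) := Real.rpow_pos_of_pos ht _
    calc _ ≤ K * Real.tan θ ^ (-(1 / 4) : ℝ) * 1 := by gcongr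
      _ = _ := by ring
  have hcos : Real.cos θ₀ ≤ Real.cos θ :=
    Real.cos_le_cos_of_nonneg_of_le_pi hθ.1.le (by linarith [h.2, Real.pi_pos]) hθ.2.le
  have hcosp := SP.cos_pos' hII
  have hsinp := SP.sin_pos' hII
  have hsin : Real.cos θ₀ * Real.tan θ ≤ Real.sin θ := by
    have : Real.sin θ = Real.cos θ * Real.tan θ := by
      rw [Real.tan_eq_sin_div_cos]
      field_simp
    rw [this]
    gcongr
  have h3 : ‖((f1_d3_G w g (Real.tan θ) / Real.sin θ ^ 2 : ℝ) : ℂ)‖ ≤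
      K * Real.tan θ ^ (-(1 / 4) : ℝ) / (Real.cos θ₀ * Real.tan θ) ^ 2 := by
    rw [Complex.norm_real, Real.norm_eq_abs, abs_div, abs_of_nonneg (sq_nonneg (Real.sin θ))]
    have h5 : 0 < Real.tan θ ^ (-(1 / 4) : ℝ) := Real.rpow_pos_of_pos ht _
    gcongr
  have h4 : Real.tan θ ^ (σ - 5 / 4) ≤ θ ^ (σ - 5 / 4) :=
    Real.rpow_le_rpow_of_nonpos hθ.1 (Real.lt_tan hθ.1 hII.2).le (by linarith)
  have h6 : Real.tan θ ^ (σ + 1) * Real.tan θ ^ (-(1 / 4) : ℝ) / Real.tan θ ^ 2 =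
      Real.tan θ ^ (σ - 5 / 4) := by
    rw [← Real.rpow_natCast (Real.tan θ) 2, ← Real.rpow_add ht, ← Real.rpow_sub ht]
    congr 1
    push_cast
    ring
  have hp1 : 0 < Real.tan θ ^ (σ + 1) := Real.rpow_pos_of_pos ht _
  have hp2 : 0 < M ^ (‖s‖ + 1) := Real.rpow_pos_of_pos (by linarith) _
  unfold f1_d3_F1
  rw [norm_mul]
  calc ‖SP.ff z θ - SP.bb z * (Real.tan θ : ℂ) ^ z‖ *
        ‖((f1_d3_G w g (Real.tan θ) / Real.sin θ ^ 2 : ℝ) : ℂ)‖ ≤
        (|C| * (Real.tan θ ^ (σ + 1) * M ^ (‖s‖ + 1))) *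
          (K * Real.tan θ ^ (-(1 / 4) : ℝ) / (Real.cos θ₀ * Real.tan θ) ^ 2) := by
        refine mul_le_mul ?_ h3 (norm_nonneg _) (by positivity)
        refine h1.trans ?_
        calc C * Real.tan θ ^ (z.re + 1) ≤ |C| * Real.tan θ ^ (z.re + 1) :=
              mul_le_mul_of_nonneg_right (le_abs_self C) (Real.rpow_pos_of_pos ht _).le
          _ ≤ _ := by gcongr
    _ = |C| * M ^ (‖s‖ + 1) * K / Real.cos θ₀ ^ 2 *
          (Real.tan θ ^ (σ + 1) * Real.tan θ ^ (-(1 / 4) : ℝ) / Real.tan θ ^ 2) := by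
        rw [mul_pow]
        field_simp
    _ ≤ |C| * M ^ (‖s‖ + 1) * K / Real.cos θ₀ ^ 2 * θ ^ (σ - 5 / 4) := by
        rw [h6]
        gcongr

theorem f1_d3_H1_diff (hw : ContinuousOn w (Ioi 0))
    (hwb : ∃ C : ℝ, ∀ x : ℝ, 0 < x → |w x| ≤ C * x ^ (3 / 4 : ℝ) * Real.exp (-(x / 2)))
    (hg : ∀ α : ℝ, 9 / 8 < α → IntegrableOn (fun t : ℝ => g t * t ^ (-α)) (Ici 1))
    {θ₀ : ℝ} (h : θ₀ ∈ SP.II) :
    DifferentiableOn ℂ (fun s => ∫ θ in Ioo 0 θ₀, f1_d3_F1 w g s θ) f1_d3_U := by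
  refine SP.hol_int (volume.restrict (Ioo 0 θ₀)) (fun s θ => f1_d3_F1 w g s θ) f1_d3_U ?_ ?_ ?_
  · intro s hs
    exact (f1_d3_F1_meas hw hwb hg h (by linarith [hs.1] : 0 < s.re)).aestronglyMeasurable
      measurableSet_Ioo
  · refine (ae_restrict_iff' measurableSet_Ioo).mpr (ae_of_all _ fun θ hθ => ?_)
    have hII := SP.sub_II h hθ
    have hsub : f1_d3_U ⊆ {s : ℂ | 0 < s.re} := fun s hs => by
      have := hs.1
      show 0 < s.re
      linarith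
    unfold f1_d3_F1
    refine (((SP.ff_diff hII).mono hsub).sub ((f1_d3_bb_diff.mono hsub).mul ?_)).mul_const _
    have hne : ((Real.tan θ : ℝ) : ℂ) ≠ 0 := by exact_mod_cast (f1_d3_tan_pos h hθ).ne'
    have h1 : Differentiable ℂ (fun s : ℂ => ((Real.tan θ : ℝ) : ℂ) ^ s) :=
      differentiable_id.const_cpow (Or.inl hne)
    exact h1.differentiableOn
  · intro s hs
    obtain ⟨r, hr, hrU, b, hb, hbd⟩ := f1_d3_F1_dom hw hwb hg h hs
    exact ⟨r, hr, hrU, b, hb, (ae_restrict_iff' measurableSet_Ioo).mpr (ae_of_all _ hbd)⟩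

theorem f1_d3_F1_int (hw : ContinuousOn w (Ioi 0))
    (hwb : ∃ C : ℝ, ∀ x : ℝ, 0 < x → |w x| ≤ C * x ^ (3 / 4 : ℝ) * Real.exp (-(x / 2)))
    (hg : ∀ α : ℝ, 9 / 8 < α → IntegrableOn (fun t : ℝ => g t * t ^ (-α)) (Ici 1))
    {θ₀ : ℝ} (h : θ₀ ∈ SP.II) {s : ℂ} (hs : s ∈ f1_d3_U) :
    IntegrableOn (f1_d3_F1 w g s) (Ioo 0 θ₀) := by
  obtain ⟨r, hr, hrU, b, hb, hbd⟩ := f1_d3_F1_dom hw hwb hg h hs
  refine hb.mono' ((f1_d3_F1_meas hw hwb hg h
    (by linarith [hs.1] : 0 < s.re)).aestronglyMeasurable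
    measurableSet_Ioo) ((ae_restrict_iff' measurableSet_Ioo).mpr (ae_of_all _ fun θ hθ => ?_))
  exact hbd θ hθ s (Metric.mem_ball_self hr)

/-! ### the second remainder -/

/-- the integrand of the second remainder -/
noncomputable def f1_d3_F2 (w g : ℝ → ℝ) (s : ℂ) (v : ℝ) : ℂ :=
  (v : ℂ) ^ (s - 1 - 1) * ((f1_d3_G w g v : ℝ) : ℂ)

theorem f1_d3_H2_diff (hw : ContinuousOn w (Ioi 0))
    (hwb : ∃ C : ℝ, ∀ x : ℝ, 0 < x → |w x| ≤ C * x ^ (3 / 4 : ℝ) * Real.exp (-(x / 2)))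
    (hg : ∀ α : ℝ, 9 / 8 < α → IntegrableOn (fun t : ℝ => g t * t ^ (-α)) (Ici 1))
    {v₀ : ℝ} (h : 0 < v₀) :
    DifferentiableOn ℂ (fun s => ∫ v in Ioi v₀, f1_d3_F2 w g s v) f1_d3_U := by
  obtain ⟨K, hK0, hK, hKc⟩ := f1_d3_G_bound hw hwb hg
  refine SP.hol_int (volume.restrict (Ioi v₀)) (fun s v => f1_d3_F2 w g s v) f1_d3_U ?_ ?_ ?_
  · intro s hs
    refine ContinuousOn.aestronglyMeasurable ?_ measurableSet_Ioi
    unfold f1_d3_F2
    refine ContinuousOn.mul ?_ ?_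
    · refine ContinuousOn.cpow_const (by fun_prop) (fun v hv => Or.inl ?_)
      have : (0 : ℝ) < v := h.trans hv
      simpa using this
    · exact Complex.continuous_ofReal.comp_continuousOn
        (hKc.mono (fun v hv => h.trans hv))
  · refine (ae_restrict_iff' measurableSet_Ioi).mpr (ae_of_all _ fun v hv => ?_)
    have hv0 : (0 : ℝ) < v := h.trans hv
    have hne : ((v : ℝ) : ℂ) ≠ 0 := by exact_mod_cast hv0.ne'
    have h1 : Differentiable ℂ (fun s : ℂ => ((v : ℝ) : ℂ) ^ (s - 1 - 1)) :=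
      ((differentiable_id.sub_const 1).sub_const 1).const_cpow (Or.inl hne)
    unfold f1_d3_F2
    exact h1.differentiableOn.mul_const _
  · intro s hs
    obtain ⟨r, hr0, hr1, hr2, hrU, hrz⟩ := f1_d3_ball hs
    have hN : -1 < s.re + 1 := by linarith [hs.1]
    have i1 := integrableOn_rpow_mul_exp_neg_mul_rpow (p := 1) (b := 1 / 4) hN one_pos
      (by norm_num)
    have i0 := integrableOn_rpow_mul_exp_neg_mul_rpow (p := 1) (b := 1 / 4) (s := 0)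
      (by norm_num) one_pos (by norm_num)
    have i2 : IntegrableOn (fun v : ℝ => K * v₀ ^ (-2 : ℝ) *
      (v ^ (0 : ℝ) * Real.exp (-(1 / 4) * v ^ (1 : ℝ)) +
        v ^ (s.re + 1) * Real.exp (-(1 / 4) * v ^ (1 : ℝ)))) (Ioi 0) :=
      (i0.add i1).const_mul _
    refine ⟨r, hr0, hrU, fun v => K * v₀ ^ (-2 : ℝ) *
      (v ^ (0 : ℝ) * Real.exp (-(1 / 4) * v ^ (1 : ℝ)) +
        v ^ (s.re + 1) * Real.exp (-(1 / 4) * v ^ (1 : ℝ))),
      i2.mono_set (Ioi_subset_Ioi h.le),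
      (ae_restrict_iff' measurableSet_Ioi).mpr (ae_of_all _ fun v hv z hz => ?_)⟩
    have hv0 : (0 : ℝ) < v := h.trans hv
    obtain ⟨hz1, hz2, -⟩ := hrz z hz
    unfold f1_d3_F2
    rw [norm_mul, Complex.norm_cpow_eq_rpow_re_of_pos hv0, Complex.norm_real, Real.norm_eq_abs,
      Complex.sub_re, Complex.sub_re, Complex.one_re]
    have hG := hK v hv0
    have e1 : v ^ (z.re - 1 - 1) * v ^ (-(1 / 4) : ℝ) = v ^ (-2 : ℝ) * v ^ (z.re - 1 / 4) := by
      rw [← Real.rpow_add hv0, ← Real.rpow_add hv0]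
      congr 1
      ring
    have e2 : v ^ (-2 : ℝ) ≤ v₀ ^ (-2 : ℝ) :=
      Real.rpow_le_rpow_of_nonpos h (le_of_lt hv) (by norm_num)
    have e3 : v ^ (z.re - 1 / 4) ≤ v ^ (0 : ℝ) + v ^ (s.re + 1) := by
      have hp : 0 < v ^ (s.re + 1) := Real.rpow_pos_of_pos hv0 _
      rw [Real.rpow_zero]
      rcases le_total v 1 with hv1 | hv1
      · have := Real.rpow_le_one hv0.le hv1 (by linarith : 0 ≤ z.re - 1 / 4)
        linarith
      · have := Real.rpow_le_rpow_of_exponent_le hv1 (by linarith : z.re - 1 / 4 ≤ s.re + 1)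
        linarith
    have e4 : Real.exp (-(v / 4)) = Real.exp (-(1 / 4) * v ^ (1 : ℝ)) := by
      rw [Real.rpow_one]
      congr 1
      ring
    have hp0 : 0 < v ^ (z.re - 1 - 1) := Real.rpow_pos_of_pos hv0 _
    have hp2 : 0 < v ^ (z.re - 1 / 4) := Real.rpow_pos_of_pos hv0 _
    have hp3 : 0 < v₀ ^ (-2 : ℝ) := Real.rpow_pos_of_pos h _
    calc v ^ (z.re - 1 - 1) * |f1_d3_G w g v| ≤ v ^ (z.re - 1 - 1) *
          (K * v ^ (-(1 / 4) : ℝ) * Real.exp (-(v / 4))) := by gcongr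
      _ = K * (v ^ (z.re - 1 - 1) * v ^ (-(1 / 4) : ℝ)) * Real.exp (-(v / 4)) := by ring
      _ = K * (v ^ (-2 : ℝ) * v ^ (z.re - 1 / 4)) * Real.exp (-(1 / 4) * v ^ (1 : ℝ)) := by
          rw [e1, e4]
      _ ≤ K * (v₀ ^ (-2 : ℝ) * (v ^ (0 : ℝ) + v ^ (s.re + 1))) *
          Real.exp (-(1 / 4) * v ^ (1 : ℝ)) := by gcongr
      _ = _ := by ring

end

/-- D3: the transform of a main term -/
theorem Dt_main1_pr {w : ℝ → ℝ} (hw : ContinuousOn w (Ioi 0))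
    (hwb : ∃ C : ℝ, ∀ x : ℝ, 0 < x → |w x| ≤ C * x ^ (3 / 4 : ℝ) * Real.exp (-(x / 2)))
    {θ₀ : ℝ} (hθ₀ : θ₀ ∈ SP.II) {g : ℝ → ℝ}
    (hg : ∀ α : ℝ, 9 / 8 < α → IntegrableOn (fun t : ℝ => g t * t ^ (-α)) (Ici 1)) :
    ∃ H : ℂ → ℂ, DifferentiableOn ℂ H {s | 1 / 4 < s.re ∧ 0 < s.im} ∧
      ∀ s : ℂ, 2 < s.re → 0 < s.im →
        Dt (fun θ => ((∫ t in Ioi (1 : ℝ), g t * (w (t * Real.tan θ) / t) : ℝ) : ℂ)) θ₀ s =
        SP.bb s * (∫ x in Ioi (0 : ℝ), (w x : ℂ) * (x : ℂ) ^ (s - 2)) *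
          (∫ t in Ioi (1 : ℝ), (g t : ℂ) * (t : ℂ) ^ (-s)) + H s := by
  have hv₀ : 0 < Real.tan θ₀ := Real.tan_pos_of_pos_of_lt_pi_div_two hθ₀.1 hθ₀.2
  have hsub : f1_d3_U ⊆ {s : ℂ | 0 < s.re} := fun s hs => by
    have := hs.1
    show 0 < s.re
    linarith
  refine ⟨fun s => (∫ θ in Ioo 0 θ₀, f1_d3_F1 w g s θ) -
    SP.bb s * ∫ v in Ioi (Real.tan θ₀), f1_d3_F2 w g s v, ?_, fun s hs hs' => ?_⟩
  · exact (f1_d3_H1_diff hw hwb hg hθ₀).sub ((f1_d3_bb_diff.mono hsub).mul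
      (f1_d3_H2_diff hw hwb hg hv₀))
  · have hsU : s ∈ f1_d3_U := ⟨by linarith, hs'⟩
    have hs1 : 1 < (s - 1).re := by
      rw [Complex.sub_re, Complex.one_re]; linarith
    obtain ⟨hFi, hFe⟩ := f1_d3_fubini hw hwb hg hs1
    have hF2i : IntegrableOn (f1_d3_F2 w g s) (Ioi 0) := hFi
    have hF2e : ∫ v in Ioi (0 : ℝ), f1_d3_F2 w g s v =
        (∫ x in Ioi (0 : ℝ), (w x : ℂ) * (x : ℂ) ^ (s - 2)) *
          ∫ t in Ioi (1 : ℝ), (g t : ℂ) * (t : ℂ) ^ (-s) := by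
      have e1 : mellin (fun x => ((w x : ℝ) : ℂ)) (s - 1) =
          ∫ x in Ioi (0 : ℝ), (w x : ℂ) * (x : ℂ) ^ (s - 2) := by
        unfold mellin
        refine integral_congr_ae (ae_of_all _ fun x => ?_)
        simp only [smul_eq_mul]
        have : s - 1 - 1 = s - 2 := by ring
        rw [this, mul_comm]
      have e2 : -(s - 1 + 1) = -s := by ring
      rw [← e1, ← e2]
      exact hFe
    have hsplit : ∫ v in Ioi (0 : ℝ), f1_d3_F2 w g s v =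
        (∫ v in Ioo 0 (Real.tan θ₀), f1_d3_F2 w g s v) +
          ∫ v in Ioi (Real.tan θ₀), f1_d3_F2 w g s v := by
      rw [← integral_Ioc_eq_integral_Ioo, ← setIntegral_union Ioc_disjoint_Ioi_same
        measurableSet_Ioi (hF2i.mono_set Ioc_subset_Ioi_self)
        (hF2i.mono_set (Ioi_subset_Ioi hv₀.le)), Ioc_union_Ioi_eq_Ioi hv₀.le]
    obtain ⟨hcov1, hcov2⟩ := f1_d3_cov hθ₀ (f1_d3_F2 w g s)
    have hF2c : IntegrableOn (fun θ => (1 / Real.cos θ ^ 2 : ℝ) • f1_d3_F2 w g s (Real.tan θ))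
        (Ioo 0 θ₀) := hcov1.1 (hF2i.mono_set Ioo_subset_Ioi_self)
    have e : ∀ θ ∈ Ioo 0 θ₀, SP.ff s θ *
          ((∫ t in Ioi (1 : ℝ), g t * (w (t * Real.tan θ) / t) : ℝ) : ℂ) /
            ((Real.sin θ : ℝ) : ℂ) ^ 2 =
        f1_d3_F1 w g s θ + SP.bb s *
          ((1 / Real.cos θ ^ 2 : ℝ) • f1_d3_F2 w g s (Real.tan θ)) := by
      intro θ hθ
      have hc : ((Real.cos θ : ℝ) : ℂ) ≠ 0 := by
        exact_mod_cast (SP.cos_pos' (SP.sub_II hθ₀ hθ)).ne'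
      have hsn : ((Real.sin θ : ℝ) : ℂ) ≠ 0 := by
        exact_mod_cast (SP.sin_pos' (SP.sub_II hθ₀ hθ)).ne'
      have htn : ((Real.tan θ : ℝ) : ℂ) ≠ 0 := by
        exact_mod_cast (f1_d3_tan_pos hθ₀ hθ).ne'
      have e1 : (∫ t in Ioi (1 : ℝ), g t * (w (t * Real.tan θ) / t) : ℝ) =
        f1_d3_G w g (Real.tan θ) := rfl
      rw [e1]
      unfold f1_d3_F1 f1_d3_F2
      have e2 : ((Real.tan θ : ℝ) : ℂ) ^ (s - 1 - 1) =
          ((Real.tan θ : ℝ) : ℂ) ^ s * (((Real.cos θ : ℝ) : ℂ) ^ 2 / ((Real.sin θ : ℝ) : ℂ) ^ 2) := by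
        rw [Complex.cpow_sub _ _ htn, Complex.cpow_sub _ _ htn, Complex.cpow_one]
        have e3 : ((Real.tan θ : ℝ) : ℂ) = ((Real.sin θ : ℝ) : ℂ) / ((Real.cos θ : ℝ) : ℂ) := by
          rw [Real.tan_eq_sin_div_cos, Complex.ofReal_div]
        generalize ((Real.tan θ : ℝ) : ℂ) ^ s = Q
        rw [e3]
        field_simp
      rw [e2, Complex.real_smul, Complex.ofReal_div, Complex.ofReal_div, Complex.ofReal_pow,
        Complex.ofReal_pow, Complex.ofReal_one]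
      generalize ((Real.tan θ : ℝ) : ℂ) ^ s = Q
      field_simp
      ring
    unfold Dt
    rw [setIntegral_congr_fun measurableSet_Ioo e,
      integral_add (f1_d3_F1_int hw hwb hg hθ₀ hsU) (hF2c.const_mul _), integral_const_mul,
      ← hcov2]
    linear_combination (SP.bb s) * (hF2e - hsplit)

end Pool.Agent.JO.FM1

namespace Pool.Agent.JO.FM1

theorem Dt_main1 : type_of% @Dt_main1_pr := @Dt_main1_pr

end Pool.Agent.JO.FM1
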