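import Pool.Agent.Lib_helper42.JO1.Defs
import Pool.Agent.Lib_helper45.JO.Defs2
import Pool.Agent.Lib_helper42.JO1F.K1
import Pool.Agent.Lib_helper87.JOL.KDV
import Pool.Agent.Lib_helper87.JOL.KPR

/-!
-/

set_option autoImplicit false

namespace Pool.Agent.JO.FM1

open Complex Filter Topology MeasureTheory Set
open UpperHalfPlane hiding I
open Pool.Agent.JO.FM
open scoped MatrixGroups ComplexConjugate

theorem f1_k8_re {ν : ℂ} (h : ν.re = 0) :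
    |(ν + 1 / 2).re| = 1 / 2 ∧ |(ν - 1 / 2).re| = 1 / 2 := by
  have h1 : ((1 : ℂ) / 2).re = 1 / 2 := by norm_num
  rw [Complex.add_re, Complex.sub_re, h, h1, zero_add, zero_sub, abs_neg]
  refine ⟨?_, ?_⟩ <;> rw [abs_of_pos (by norm_num)]

theorem f1_k8_conj {ν : ℂ} (h : ν.re = 0) (x : ℝ) :
    conj (KK (ν + 1 / 2) x) = KK (ν - 1 / 2) x ∧ conj (KK (ν - 1 / 2) x) = KK (ν + 1 / 2) x := by
  have h1 : conj ν = -ν := by
    apply Complex.ext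
    · simp [h]
    · simp
  have hhalf : conj ((1 : ℂ) / 2) = 1 / 2 := by
    rw [map_div₀, map_one, map_ofNat]
  constructor
  · rw [Pool.Agent.JOL.kdv_conj, map_add, h1, hhalf,
      show -ν + 1 / 2 = -(ν - 1 / 2) by ring, Pool.Agent.JOL.kdv_neg]
  · rw [Pool.Agent.JOL.kdv_conj, map_sub, h1, hhalf,
      show -ν - 1 / 2 = -(ν + 1 / 2) by ring, Pool.Agent.JOL.kdv_neg]

theorem f1_k8_sq (z : ℂ) : ((‖z‖ ^ 2 : ℝ) : ℂ) = z * conj z := by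
  rw [Complex.mul_conj, Complex.normSq_eq_norm_sq]

theorem f1_k8_pow {x : ℝ} (hx : 0 < x) (s : ℂ) :
    (x : ℂ) ^ ((s + 1) - 1) = (x : ℂ) ^ 2 * (x : ℂ) ^ (s - 2) := by
  have hxc : (x : ℂ) ≠ 0 := by exact_mod_cast hx.ne'
  rw [show (s + 1) - 1 = (2 : ℂ) + (s - 2) by ring, Complex.cpow_add _ _ hxc]
  congr 1
  exact_mod_cast Complex.cpow_natCast (x : ℂ) 2

/-- the three basic transforms -/
theorem f1_k8_S {ν : ℂ} (h : ν.re = 0) {s : ℂ} (hs : 0 < s.re) :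
    4 * ∫ x in Ioi (0 : ℝ), KK (ν + 1 / 2) x * KK (ν - 1 / 2) x * (x : ℂ) ^ ((s + 1) - 1) =
      kS ν s := by
  obtain ⟨r1, r2⟩ := f1_k8_re h
  have hre : (s + 1).re = s.re + 1 := by rw [Complex.add_re, Complex.one_re]
  have hs0 : s ≠ 0 := by
    intro h0
    rw [h0, Complex.zero_re] at hs
    exact lt_irrefl _ hs
  have hG : Gamma s ≠ 0 := Complex.Gamma_ne_zero_of_re_pos hs
  rw [Pool.Agent.JOL.kpr_mellin _ _ _ (by rw [r1, r2, hre]; linarith), kS,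
    show (s + 1 + (ν + 1 / 2) + (ν - 1 / 2)) / 2 = (s + 1) / 2 + ν by ring,
    show (s + 1 - (ν + 1 / 2) - (ν - 1 / 2)) / 2 = (s + 1) / 2 - ν by ring,
    show (s + 1 + (ν + 1 / 2) - (ν - 1 / 2)) / 2 = s / 2 + 1 by ring,
    show (s + 1 - (ν + 1 / 2) + (ν - 1 / 2)) / 2 = s / 2 by ring,
    Complex.Gamma_add_one (s / 2) (div_ne_zero hs0 two_ne_zero), Complex.Gamma_add_one s hs0,
    show s - 1 = (s + 1 - 3) + 1 by ring, Complex.cpow_add _ _ two_ne_zero, Complex.cpow_one]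
  field_simp
  ring

theorem f1_k8_D {ν : ℂ} (h : ν.re = 0) {s : ℂ} (hs : 0 < s.re) :
    2 * ((∫ x in Ioi (0 : ℝ), KK (ν + 1 / 2) x * KK (ν + 1 / 2) x * (x : ℂ) ^ ((s + 1) - 1)) +
      ∫ x in Ioi (0 : ℝ), KK (ν - 1 / 2) x * KK (ν - 1 / 2) x * (x : ℂ) ^ ((s + 1) - 1)) =
      kD ν s := by
  obtain ⟨r1, r2⟩ := f1_k8_re h
  have hre : (s + 1).re = s.re + 1 := by rw [Complex.add_re, Complex.one_re]
  have hs0 : s ≠ 0 := by
    intro h0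
    rw [h0, Complex.zero_re] at hs
    exact lt_irrefl _ hs
  have hG : Gamma s ≠ 0 := Complex.Gamma_ne_zero_of_re_pos hs
  have hp : s / 2 + ν ≠ 0 := by
    intro h0
    have h1 := congrArg Complex.re h0
    rw [Complex.add_re, Complex.div_ofNat_re, h, Complex.zero_re] at h1
    linarith
  have hm : s / 2 - ν ≠ 0 := by
    intro h0
    have h1 := congrArg Complex.re h0
    rw [Complex.sub_re, Complex.div_ofNat_re, h, Complex.zero_re] at h1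
    linarith
  rw [Pool.Agent.JOL.kpr_mellin _ _ _ (by rw [r1, hre]; linarith),
    Pool.Agent.JOL.kpr_mellin _ _ _ (by rw [r2, hre]; linarith), kD,
    show (s + 1 + (ν + 1 / 2) + (ν + 1 / 2)) / 2 = (s / 2 + ν) + 1 by ring,
    show (s + 1 - (ν + 1 / 2) - (ν + 1 / 2)) / 2 = s / 2 - ν by ring,
    show (s + 1 + (ν + 1 / 2) - (ν + 1 / 2)) / 2 = (s + 1) / 2 by ring,
    show (s + 1 - (ν + 1 / 2) + (ν + 1 / 2)) / 2 = (s + 1) / 2 by ring,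
    show (s + 1 + (ν - 1 / 2) + (ν - 1 / 2)) / 2 = s / 2 + ν by ring,
    show (s + 1 - (ν - 1 / 2) - (ν - 1 / 2)) / 2 = (s / 2 - ν) + 1 by ring,
    show (s + 1 + (ν - 1 / 2) - (ν - 1 / 2)) / 2 = (s + 1) / 2 by ring,
    show (s + 1 - (ν - 1 / 2) + (ν - 1 / 2)) / 2 = (s + 1) / 2 by ring,
    Complex.Gamma_add_one _ hp, Complex.Gamma_add_one _ hm, Complex.Gamma_add_one s hs0,
    show s - 1 = (s + 1 - 3) + 1 by ring, Complex.cpow_add _ _ two_ne_zero, Complex.cpow_one]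
  field_simp
  ring

theorem f1_k8_ints {ν : ℂ} (h : ν.re = 0) {s : ℂ} (hs : 0 < s.re) :
    IntegrableOn (fun x : ℝ => KK (ν + 1 / 2) x * KK (ν - 1 / 2) x * (x : ℂ) ^ ((s + 1) - 1))
      (Ioi 0) ∧
    IntegrableOn (fun x : ℝ => KK (ν + 1 / 2) x * KK (ν + 1 / 2) x * (x : ℂ) ^ ((s + 1) - 1))
      (Ioi 0) ∧
    IntegrableOn (fun x : ℝ => KK (ν - 1 / 2) x * KK (ν - 1 / 2) x * (x : ℂ) ^ ((s + 1) - 1))
      (Ioi 0) := by
  obtain ⟨r1, r2⟩ := f1_k8_re h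
  have hre : (s + 1).re = s.re + 1 := by rw [Complex.add_re, Complex.one_re]
  exact ⟨Pool.Agent.JOL.kpr_int _ _ _ (by rw [r1, r2, hre]; linarith),
    Pool.Agent.JOL.kpr_int _ _ _ (by rw [r1, hre]; linarith),
    Pool.Agent.JOL.kpr_int _ _ _ (by rw [r2, hre]; linarith)⟩

theorem wp_mellin_pr {ν : ℂ} (hν : ν.re = 0) {s : ℂ} (hs : 0 < s.re) :
    IntegrableOn (fun x : ℝ => ((‖Wp ν x‖ ^ 2 : ℝ) : ℂ) * (x : ℂ) ^ (s - 2)) (Ioi 0) ∧
    ∫ x in Ioi (0 : ℝ), ((‖Wp ν x‖ ^ 2 : ℝ) : ℂ) * (x : ℂ) ^ (s - 2) = kp ν s := by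
  obtain ⟨i1, i2, i3⟩ := f1_k8_ints hν hs
  have e1 : EqOn (fun x : ℝ => ((‖Wp ν x‖ ^ 2 : ℝ) : ℂ) * (x : ℂ) ^ (s - 2))
      (fun x : ℝ => 2 * (KK (ν + 1 / 2) x * KK (ν - 1 / 2) x * (x : ℂ) ^ ((s + 1) - 1)) +
        (KK (ν + 1 / 2) x * KK (ν + 1 / 2) x * (x : ℂ) ^ ((s + 1) - 1) +
          KK (ν - 1 / 2) x * KK (ν - 1 / 2) x * (x : ℂ) ^ ((s + 1) - 1))) (Ioi 0) := by
    intro x hx
    have hx0 : 0 < x := hx
    obtain ⟨c1, c2⟩ := f1_k8_conj hν x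
    simp only
    rw [f1_k8_sq, Wp, map_mul, map_add, c1, c2, Complex.conj_ofReal, f1_k8_pow hx0 s]
    ring
  have e2 : IntegrableOn (fun x : ℝ =>
      2 * (KK (ν + 1 / 2) x * KK (ν - 1 / 2) x * (x : ℂ) ^ ((s + 1) - 1)) +
        (KK (ν + 1 / 2) x * KK (ν + 1 / 2) x * (x : ℂ) ^ ((s + 1) - 1) +
          KK (ν - 1 / 2) x * KK (ν - 1 / 2) x * (x : ℂ) ^ ((s + 1) - 1))) (Ioi 0) :=
    (i1.const_mul 2).add (i2.add i3)
  refine ⟨e2.congr_fun e1.symm measurableSet_Ioi, ?_⟩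
  rw [setIntegral_congr_fun measurableSet_Ioi e1]
  have e3 : ∫ x in Ioi (0 : ℝ),
      (2 * (KK (ν + 1 / 2) x * KK (ν - 1 / 2) x * (x : ℂ) ^ ((s + 1) - 1)) +
        (KK (ν + 1 / 2) x * KK (ν + 1 / 2) x * (x : ℂ) ^ ((s + 1) - 1) +
          KK (ν - 1 / 2) x * KK (ν - 1 / 2) x * (x : ℂ) ^ ((s + 1) - 1))) =
      (∫ x in Ioi (0 : ℝ), 2 * (KK (ν + 1 / 2) x * KK (ν - 1 / 2) x *
        (x : ℂ) ^ ((s + 1) - 1))) + ∫ x in Ioi (0 : ℝ),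
        (KK (ν + 1 / 2) x * KK (ν + 1 / 2) x * (x : ℂ) ^ ((s + 1) - 1) +
          KK (ν - 1 / 2) x * KK (ν - 1 / 2) x * (x : ℂ) ^ ((s + 1) - 1)) :=
    integral_add (i1.const_mul 2) (i2.add i3)
  have e4 : ∫ x in Ioi (0 : ℝ),
        (KK (ν + 1 / 2) x * KK (ν + 1 / 2) x * (x : ℂ) ^ ((s + 1) - 1) +
          KK (ν - 1 / 2) x * KK (ν - 1 / 2) x * (x : ℂ) ^ ((s + 1) - 1)) =
      (∫ x in Ioi (0 : ℝ), KK (ν + 1 / 2) x * KK (ν + 1 / 2) x * (x : ℂ) ^ ((s + 1) - 1)) +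
        ∫ x in Ioi (0 : ℝ), KK (ν - 1 / 2) x * KK (ν - 1 / 2) x * (x : ℂ) ^ ((s + 1) - 1) :=
    integral_add i2 i3
  rw [e3, e4, integral_const_mul, kp, ← f1_k8_S hν hs, ← f1_k8_D hν hs]
  ring

theorem wm_mellin_pr {ν : ℂ} (hν : ν.re = 0) {s : ℂ} (hs : 0 < s.re) :
    IntegrableOn (fun x : ℝ => ((‖ν * Vm ν x‖ ^ 2 : ℝ) : ℂ) * (x : ℂ) ^ (s - 2)) (Ioi 0) ∧
    ∫ x in Ioi (0 : ℝ), ((‖ν * Vm ν x‖ ^ 2 : ℝ) : ℂ) * (x : ℂ) ^ (s - 2) = km ν s := by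
  obtain ⟨i1, i2, i3⟩ := f1_k8_ints hν hs
  have e1 : EqOn (fun x : ℝ => ((‖ν * Vm ν x‖ ^ 2 : ℝ) : ℂ) * (x : ℂ) ^ (s - 2))
      (fun x : ℝ => 2 * (KK (ν + 1 / 2) x * KK (ν - 1 / 2) x * (x : ℂ) ^ ((s + 1) - 1)) -
        (KK (ν + 1 / 2) x * KK (ν + 1 / 2) x * (x : ℂ) ^ ((s + 1) - 1) +
          KK (ν - 1 / 2) x * KK (ν - 1 / 2) x * (x : ℂ) ^ ((s + 1) - 1))) (Ioi 0) := by
    intro x hx
    have hx0 : 0 < x := hx
    obtain ⟨c1, c2⟩ := f1_k8_conj hν x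
    simp only
    rw [f1_k8_sq, (Vm_eq ν hx0).2, map_mul, map_sub, c1, c2, Complex.conj_ofReal,
      f1_k8_pow hx0 s]
    ring
  have e2 : IntegrableOn (fun x : ℝ =>
      2 * (KK (ν + 1 / 2) x * KK (ν - 1 / 2) x * (x : ℂ) ^ ((s + 1) - 1)) -
        (KK (ν + 1 / 2) x * KK (ν + 1 / 2) x * (x : ℂ) ^ ((s + 1) - 1) +
          KK (ν - 1 / 2) x * KK (ν - 1 / 2) x * (x : ℂ) ^ ((s + 1) - 1))) (Ioi 0) :=
    (i1.const_mul 2).sub (i2.add i3)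
  refine ⟨e2.congr_fun e1.symm measurableSet_Ioi, ?_⟩
  rw [setIntegral_congr_fun measurableSet_Ioi e1]
  have e3 : ∫ x in Ioi (0 : ℝ),
      (2 * (KK (ν + 1 / 2) x * KK (ν - 1 / 2) x * (x : ℂ) ^ ((s + 1) - 1)) -
        (KK (ν + 1 / 2) x * KK (ν + 1 / 2) x * (x : ℂ) ^ ((s + 1) - 1) +
          KK (ν - 1 / 2) x * KK (ν - 1 / 2) x * (x : ℂ) ^ ((s + 1) - 1))) =
      (∫ x in Ioi (0 : ℝ), 2 * (KK (ν + 1 / 2) x * KK (ν - 1 / 2) x *
        (x : ℂ) ^ ((s + 1) - 1))) - ∫ x in Ioi (0 : ℝ),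
        (KK (ν + 1 / 2) x * KK (ν + 1 / 2) x * (x : ℂ) ^ ((s + 1) - 1) +
          KK (ν - 1 / 2) x * KK (ν - 1 / 2) x * (x : ℂ) ^ ((s + 1) - 1)) :=
    integral_sub (i1.const_mul 2) (i2.add i3)
  have e4 : ∫ x in Ioi (0 : ℝ),
        (KK (ν + 1 / 2) x * KK (ν + 1 / 2) x * (x : ℂ) ^ ((s + 1) - 1) +
          KK (ν - 1 / 2) x * KK (ν - 1 / 2) x * (x : ℂ) ^ ((s + 1) - 1)) =
      (∫ x in Ioi (0 : ℝ), KK (ν + 1 / 2) x * KK (ν + 1 / 2) x * (x : ℂ) ^ ((s + 1) - 1)) +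
        ∫ x in Ioi (0 : ℝ), KK (ν - 1 / 2) x * KK (ν - 1 / 2) x * (x : ℂ) ^ ((s + 1) - 1) :=
    integral_add i2 i3
  rw [e3, e4, integral_const_mul, km, ← f1_k8_S hν hs, ← f1_k8_D hν hs]
  ring

theorem f1_k8_gam {f : ℂ → ℂ} {s : ℂ} (hf : DifferentiableAt ℂ f s) (h : 0 < (f s).re) :
    DifferentiableAt ℂ (fun s => Complex.Gamma (f s)) s := by
  refine DifferentiableAt.comp (g := Complex.Gamma) s (Complex.differentiableAt_Gamma _ ?_) hf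
  intro m hm
  have h1 := congrArg Complex.re hm
  rw [Complex.neg_re, Complex.natCast_re] at h1
  have h2 : (0 : ℝ) ≤ m := Nat.cast_nonneg m
  linarith

theorem kpm_diff_pr {ν : ℂ} (hν : ν.re = 0) :
    DifferentiableOn ℂ (kp ν) {s | 0 < s.re} ∧ DifferentiableOn ℂ (km ν) {s | 0 < s.re} := by
  have key : ∀ s : ℂ, 0 < s.re → DifferentiableAt ℂ (kS ν) s ∧ DifferentiableAt ℂ (kD ν) s := by
    intro s hs
    have q1 : (s / 2).re = s.re / 2 := by rw [Complex.div_ofNat_re]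
    have q2 : ((s + 1) / 2).re = (s.re + 1) / 2 := by
      rw [Complex.div_ofNat_re, Complex.add_re, Complex.one_re]
    have l1 : DifferentiableAt ℂ (fun s : ℂ => s / 2) s := by fun_prop
    have l2 : DifferentiableAt ℂ (fun s : ℂ => (s + 1) / 2) s := by fun_prop
    have l3 : DifferentiableAt ℂ (fun s : ℂ => s) s := differentiableAt_id
    have d1 := f1_k8_gam l1 (by rw [q1]; linarith)
    have d2 := f1_k8_gam l2 (by rw [q2]; linarith)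
    have d3 := f1_k8_gam (l1.add_const ν) (by rw [Complex.add_re, q1, hν]; linarith)
    have d4 := f1_k8_gam (l1.sub_const ν) (by rw [Complex.sub_re, q1, hν]; linarith)
    have d5 := f1_k8_gam (l2.add_const ν) (by rw [Complex.add_re, q2, hν]; linarith)
    have d6 := f1_k8_gam (l2.sub_const ν) (by rw [Complex.sub_re, q2, hν]; linarith)
    have d7 := f1_k8_gam l3 hs
    have hG : Gamma s ≠ 0 := Complex.Gamma_ne_zero_of_re_pos hs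
    have dt : DifferentiableAt ℂ (fun s : ℂ => (2 : ℂ) ^ (s - 1)) s :=
      DifferentiableAt.const_cpow (by fun_prop) (Or.inl two_ne_zero)
    constructor
    · unfold kS
      exact (((dt.mul (d1.pow 2)).mul d5).mul d6).div d7 hG
    · unfold kD
      exact (((dt.mul (d2.pow 2)).mul d3).mul d4).div d7 hG
  constructor
  · intro s hs
    unfold kp
    exact (((key s hs).1.add (key s hs).2).div_const 2).differentiableWithinAt
  · intro s hs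
    unfold km
    exact (((key s hs).1.sub (key s hs).2).div_const 2).differentiableWithinAt

end Pool.Agent.JO.FM1

namespace Pool.Agent.JO.FM1

theorem wp_mellin : type_of% @wp_mellin_pr := @wp_mellin_pr
theorem wm_mellin : type_of% @wm_mellin_pr := @wm_mellin_pr
theorem kpm_diff : type_of% @kpm_diff_pr := @kpm_diff_pr

end Pool.Agent.JO.FM1
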