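import Pool.Agent.Lib_helper42.JO1.Defs
import Pool.Agent.Lib_helper45.JO.Defs2
import Pool.Agent.Lib_helper42.JO1F.D2
import Pool.Agent.Lib_helper42.JO1F.D3
import Pool.Agent.Lib_helper42.JO1F.K2
import Pool.Agent.Lib_helper42.JO1F.K4
import Pool.Agent.Lib_helper42.JO1F.K8
import Pool.Agent.Lib_helper42.JO1F.P5
import Pool.Agent.Lib_helper45.JOM.D4D

/-!
-/

set_option autoImplicit false
set_option linter.unusedSectionVars false

namespace Pool.Agent.JO.FM1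

open Complex Filter Topology MeasureTheory Set
open UpperHalfPlane hiding I
open Pool.Agent.JO.FM
open scoped MatrixGroups ComplexConjugate

/-! ### measurability -/

theorem f1_D4_KK_meas (ν : ℂ) : Measurable (KK ν) := by
  have h1 : Continuous (fun p : ℝ × ℝ => cexp (-(p.1 : ℂ) * (Real.cosh p.2 : ℝ) + ν * p.2)) := by
    fun_prop
  have h2 := (h1.stronglyMeasurable).integral_prod_right' (ν := (volume : Measure ℝ))
  exact (h2.measurable).const_mul _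

theorem f1_D4_Wp_meas (ν : ℂ) : Measurable (Wp ν) :=
  Complex.measurable_ofReal.mul ((f1_D4_KK_meas _).add (f1_D4_KK_meas _))

theorem f1_D4_SS_cont (ν : ℂ) : Continuous (SS ν) := by
  unfold SS
  by_cases h : ν = 0
  · simp only [h, if_true]
    exact Complex.continuous_ofReal
  · simp only [h, if_false]
    exact (Complex.continuous_sinh.comp (by fun_prop)).div_const _

theorem f1_D4_Vm_meas (ν : ℂ) : Measurable (Vm ν) := by
  have hS := f1_D4_SS_cont ν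
  have h1 : Continuous (fun p : ℝ × ℝ => cexp (-(p.1 : ℂ) * (Real.cosh p.2 : ℝ)) *
      (SS ν p.2 * (Real.sinh (p.2 / 2) : ℝ))) := by
    have h2 : Continuous (fun p : ℝ × ℝ => SS ν p.2) := hS.comp continuous_snd
    have h3 : Continuous (fun p : ℝ × ℝ => ((Real.sinh (p.2 / 2) : ℝ) : ℂ)) := by fun_prop
    have h4 : Continuous (fun p : ℝ × ℝ => cexp (-(p.1 : ℂ) * (Real.cosh p.2 : ℝ))) := by fun_prop
    exact h4.mul (h2.mul h3)
  have h2 := (h1.stronglyMeasurable).integral_prod_right' (ν := (volume : Measure ℝ))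
  exact Complex.measurable_ofReal.mul h2.measurable

theorem f1_D4_tan_meas : Measurable Real.tan := by
  have h : Real.tan = fun x => Real.sin x / Real.cos x := by
    funext x
    exact Real.tan_eq_sin_div_cos x
  rw [h]
  exact Real.measurable_sin.div Real.measurable_cos

theorem f1_D4_G_meas {w : ℝ → ℝ} (hw : Measurable w) {g : ℝ → ℝ} {θ₀ : ℝ}
    (hg : AEStronglyMeasurable g (volume.restrict (Ioi 1))) :
    AEStronglyMeasurable
      (fun θ : ℝ => ((∫ t in Ioi (1 : ℝ), g t * (w (t * Real.tan θ) / t) : ℝ) : ℂ))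
      (volume.restrict (Ioo 0 θ₀)) := by
  have h1 : AEStronglyMeasurable (fun p : ℝ × ℝ => g p.2 * (w (p.2 * Real.tan p.1) / p.2))
      ((volume.restrict (Ioo 0 θ₀)).prod (volume.restrict (Ioi 1))) := by
    refine (hg.comp_snd).mul (Measurable.aestronglyMeasurable ?_)
    refine Measurable.div ?_ measurable_snd
    exact hw.comp (measurable_snd.mul (f1_D4_tan_meas.comp measurable_fst))
  have h2 := h1.integral_prod_right'
  exact Complex.continuous_ofReal.comp_aestronglyMeasurable h2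

theorem f1_D4_ofC : ContinuousOn (ofComplex : ℂ → ℍ) {z : ℂ | 0 < z.im} := by
  intro z hz
  have h1 : ContinuousAt (ofComplex : ℂ → ℍ) ((⟨z, hz⟩ : ℍ) : ℂ) := by
    have h2 := (contMDiffAt_ofComplex (n := 0) (z := z) hz).continuousAt
    exact h2
  exact h1.continuousWithinAt

theorem f1_D4_ray_meas {f : ℍ → ℂ} (hf : Continuous f) {θ₀ : ℝ} {c : ℝ → ℝ} (hc : Continuous c)
    (hc2 : ∀ θ ∈ Ioo 0 θ₀, 0 < Real.sin (c θ)) :
    AEStronglyMeasurable (fun θ => ray (phi f) (c θ)) (volume.restrict (Ioo 0 θ₀)) := by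
  have h1 : AEStronglyMeasurable
      (fun p : ℝ × ℝ => phi f (ofComplex (p.2 * cexp (c p.1 * Complex.I))) / p.2)
      ((volume.restrict (Ioo 0 θ₀)).prod (volume.restrict (Ioi 0))) := by
    rw [Measure.prod_restrict]
    refine ContinuousOn.aestronglyMeasurable ?_ (measurableSet_Ioo.prod measurableSet_Ioi)
    have hcc : ContinuousOn (fun p : ℝ × ℝ => ((p.2 : ℝ) : ℂ) * cexp ((c p.1 : ℂ) * Complex.I))
        (Ioo 0 θ₀ ×ˢ Ioi 0) := by fun_prop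
    have hm : MapsTo (fun p : ℝ × ℝ => ((p.2 : ℝ) : ℂ) * cexp ((c p.1 : ℂ) * Complex.I))
        (Ioo 0 θ₀ ×ˢ Ioi 0) {z | 0 < z.im} := by
      intro p hp
      have h2 : 0 < Real.sin (c p.1) := hc2 _ hp.1
      have h3 : (0 : ℝ) < p.2 := hp.2
      have h4 : (((p.2 : ℝ) : ℂ) * cexp ((c p.1 : ℂ) * Complex.I)).im =
          p.2 * Real.sin (c p.1) := by
        rw [Complex.im_ofReal_mul, Complex.exp_ofReal_mul_I_im]
      have h5 : 0 < p.2 * Real.sin (c p.1) := by positivity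
      rw [← h4] at h5
      exact h5
    have h5 := (hf.comp_continuousOn f1_D4_ofC).comp hcc hm
    refine ContinuousOn.div ?_ (by fun_prop) (fun p hp => ?_)
    · unfold phi
      exact Complex.continuous_ofReal.comp_continuousOn ((h5.norm).pow 2)
    · have h3 : (0 : ℝ) < p.2 := hp.2
      exact_mod_cast h3.ne'
  exact h1.integral_prod_right'

/-! ### integrability -/

theorem f1_D4_int {θ₀ D : ℝ} (hθ₀ : θ₀ ∈ SP.II) {y : ℝ → ℂ}
    (hm : AEStronglyMeasurable y (volume.restrict (Ioo 0 θ₀)))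
    (hy : ∀ θ : ℝ, 0 < θ → θ < θ₀ → ‖y θ‖ ≤ D * θ ^ (-(1 / 4) : ℝ)) {s : ℂ} (hs : 2 < s.re) :
    IntegrableOn (fun θ => SP.ff s θ * y θ / ((Real.sin θ : ℝ) : ℂ) ^ 2) (Ioo 0 θ₀) := by
  have h1 : IntegrableOn (fun θ : ℝ => D * θ ^ (-(1 / 4) : ℝ)) (Ioo 0 θ₀) :=
    (SP.integ_rpow (by norm_num) hθ₀.1).const_mul D
  refine Integrable.mono' h1 ?_ ?_
  · have hf : AEStronglyMeasurable (fun θ => SP.ff s θ) (volume.restrict (Ioo 0 θ₀)) :=
      ((SP.cont_ff (by linarith)).mono (fun θ h => SP.sub_II hθ₀ h)).aestronglyMeasurable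
        measurableSet_Ioo
    have hsin : AEStronglyMeasurable (fun θ : ℝ => ((Real.sin θ : ℝ) : ℂ) ^ 2)
        (volume.restrict (Ioo 0 θ₀)) :=
      (SP.cont_sin2.mono (fun θ h => SP.sub_II hθ₀ h)).aestronglyMeasurable measurableSet_Ioo
    exact ((hf.mul hm).aemeasurable.div hsin.aemeasurable).aestronglyMeasurable
  · refine (ae_restrict_iff' measurableSet_Ioo).2 (ae_of_all _ fun θ hθ => ?_)
    have hII := SP.sub_II hθ₀ hθ
    have hS := SP.sin_pos' hII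
    have h2 := SP.ff_norm_le hII (s := s) (by linarith)
    have h3 : ‖((Real.sin θ : ℝ) : ℂ) ^ 2‖ = Real.sin θ ^ 2 := by
      rw [norm_pow, Complex.norm_real, Real.norm_of_nonneg hS.le]
    rw [norm_div, norm_mul, h3, div_le_iff₀ (by positivity)]
    have h4 : Real.sin θ ^ s.re ≤ Real.sin θ ^ 2 := by
      rw [← Real.rpow_natCast]
      exact Real.rpow_le_rpow_of_exponent_ge hS (Real.sin_le_one _) (by push_cast; linarith)
    have h5 : 2 / s.re ≤ 1 := by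
      rw [div_le_one (by linarith)]
      linarith
    have h6 : ‖SP.ff s θ‖ ≤ Real.sin θ ^ 2 := by
      refine h2.trans ?_
      calc 2 / s.re * Real.sin θ ^ s.re ≤ 1 * Real.sin θ ^ 2 :=
            mul_le_mul h5 h4 (Real.rpow_nonneg hS.le _) zero_le_one
        _ = _ := one_mul _
    have h7 := hy θ hθ.1 hθ.2
    calc ‖SP.ff s θ‖ * ‖y θ‖ ≤ Real.sin θ ^ 2 * (D * θ ^ (-(1 / 4) : ℝ)) :=
          mul_le_mul h6 h7 (norm_nonneg _) (by positivity)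
      _ = _ := mul_comm _ _

theorem f1_D4_exp {x : ℝ} (hx : 0 < x) : x ^ (1 / 4 : ℝ) ≤ Real.exp x := by
  rcases le_or_gt 1 x with h | h
  · calc x ^ (1 / 4 : ℝ) ≤ x ^ (1 : ℝ) := Real.rpow_le_rpow_of_exponent_le h (by norm_num)
      _ = x := Real.rpow_one x
      _ ≤ Real.exp x := by linarith [Real.add_one_le_exp x]
  · calc x ^ (1 / 4 : ℝ) ≤ 1 := Real.rpow_le_one hx.le h.le (by norm_num)
      _ ≤ Real.exp x := Real.one_le_exp hx.le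

theorem f1_D4_rpow_ge {θ₀ : ℝ} (hθ₀ : θ₀ ∈ SP.II) {θ : ℝ} (h0 : 0 < θ) (h1 : θ < θ₀) :
    1 ≤ 2 * θ ^ (-(1 / 4) : ℝ) := by
  have h2 : θ < 2 := (SP.lt_two ⟨h0, h1.trans hθ₀.2⟩)
  have h3 : (2 : ℝ) ^ (-(1 / 4) : ℝ) ≤ θ ^ (-(1 / 4) : ℝ) :=
    Real.rpow_le_rpow_of_nonpos h0 h2.le (by norm_num)
  have h4 : (2 : ℝ) ^ (-1 : ℝ) ≤ (2 : ℝ) ^ (-(1 / 4) : ℝ) :=
    Real.rpow_le_rpow_of_exponent_le (by norm_num) (by norm_num)
  rw [Real.rpow_neg_one] at h4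
  linarith

/-- the two weights -/
theorem f1_D4_W {w : ℝ → ℂ} (hw : ∀ x : ℝ, 0 < x →
    ‖w x‖ ≤ √(2 * Real.pi * x) * Real.exp (-x)) {x : ℝ} (hx : 0 < x) :
    |‖w x‖ ^ 2| ≤ 2 * Real.pi * x ^ (3 / 4 : ℝ) * Real.exp (-(x / 2)) ∧
    |‖w x‖ ^ 2| ≤ 2 * Real.pi * x ^ (-(1 / 4) : ℝ) := by
  have h1 : |‖w x‖ ^ 2| ≤ 2 * Real.pi * x * Real.exp (-(2 * x)) := by
    rw [abs_of_nonneg (by positivity)]
    calc ‖w x‖ ^ 2 ≤ (√(2 * Real.pi * x) * Real.exp (-x)) ^ 2 :=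
          pow_le_pow_left₀ (norm_nonneg _) (hw x hx) 2
      _ = _ := by
          rw [mul_pow, Real.sq_sqrt (by positivity), ← Real.exp_nat_mul]
          congr 2
          push_cast
          ring
  have h2 := f1_D4_exp hx
  have h3 : x = x ^ (3 / 4 : ℝ) * x ^ (1 / 4 : ℝ) := by
    rw [← Real.rpow_add hx]
    norm_num
  have h4 : x = x ^ (-(1 / 4) : ℝ) * (x * x ^ (1 / 4 : ℝ)) := by
    have : x ^ (-(1 / 4) : ℝ) * x ^ (1 / 4 : ℝ) = 1 := by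
      rw [← Real.rpow_add hx]
      norm_num
    calc x = x * (x ^ (-(1 / 4) : ℝ) * x ^ (1 / 4 : ℝ)) := by rw [this, mul_one]
      _ = _ := by ring
  have h5 : x ≤ Real.exp x := by linarith [Real.add_one_le_exp x]
  have p1 : 0 < x ^ (3 / 4 : ℝ) := Real.rpow_pos_of_pos hx _
  have p2 : 0 < x ^ (-(1 / 4) : ℝ) := Real.rpow_pos_of_pos hx _
  have p3 : 0 < x ^ (1 / 4 : ℝ) := Real.rpow_pos_of_pos hx _
  constructor
  · refine h1.trans ?_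
    have e1 : Real.exp x * Real.exp (-(2 * x)) = Real.exp (-x) := by
      rw [← Real.exp_add]
      congr 1
      ring
    have e2 : Real.exp (-x) ≤ Real.exp (-(x / 2)) := Real.exp_le_exp.2 (by linarith)
    calc 2 * Real.pi * x * Real.exp (-(2 * x))
        = 2 * Real.pi * x ^ (3 / 4 : ℝ) * (x ^ (1 / 4 : ℝ) * Real.exp (-(2 * x))) := by
          nth_rewrite 1 [h3]
          ring
      _ ≤ 2 * Real.pi * x ^ (3 / 4 : ℝ) * (Real.exp x * Real.exp (-(2 * x))) := by gcongr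
      _ ≤ _ := by
          rw [e1]
          gcongr
  · refine h1.trans ?_
    have e1 : Real.exp x * Real.exp x * Real.exp (-(2 * x)) = 1 := by
      rw [← Real.exp_add, ← Real.exp_add, show x + x + -(2 * x) = 0 by ring, Real.exp_zero]
    calc 2 * Real.pi * x * Real.exp (-(2 * x))
        = 2 * Real.pi * x ^ (-(1 / 4) : ℝ) * (x * x ^ (1 / 4 : ℝ) * Real.exp (-(2 * x))) := by
          nth_rewrite 1 [h4]
          ring
      _ ≤ 2 * Real.pi * x ^ (-(1 / 4) : ℝ) * (Real.exp x * Real.exp x * Real.exp (-(2 * x))) := by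
          gcongr
      _ = _ := by rw [e1, mul_one]

theorem f1_D4_pt {w : ℝ → ℝ} {D : ℝ} (hw : ∀ x : ℝ, 0 < x → |w x| ≤ D * x ^ (-(1 / 4) : ℝ))
    {v t g : ℝ} (hv : 0 < v) (ht : 1 < t) :
    ‖g * (w (t * v) / t)‖ ≤ D * v ^ (-(1 / 4) : ℝ) * ‖g * t ^ (-(5 / 4) : ℝ)‖ := by
  have ht0 : 0 < t := one_pos.trans ht
  have h3 : t ^ (-(5 / 4) : ℝ) = t ^ (-(1 / 4) : ℝ) / t := by
    rw [eq_div_iff ht0.ne']
    nth_rewrite 2 [← Real.rpow_one t]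
    rw [← Real.rpow_add ht0]
    norm_num
  have h4 := hw (t * v) (by positivity)
  rw [Real.mul_rpow ht0.le hv.le] at h4
  rw [norm_mul, norm_mul, norm_div, Real.norm_of_nonneg ht0.le,
    Real.norm_of_nonneg (Real.rpow_nonneg ht0.le _), Real.norm_eq_abs (w _)]
  calc ‖g‖ * (|w (t * v)| / t)
      ≤ ‖g‖ * (D * (t ^ (-(1 / 4) : ℝ) * v ^ (-(1 / 4) : ℝ)) / t) := by gcongr
    _ = _ := by
        rw [h3]
        ring

theorem f1_D4_gint {w : ℝ → ℝ} (hwm : Measurable w) {D : ℝ}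
    (hw : ∀ x : ℝ, 0 < x → |w x| ≤ D * x ^ (-(1 / 4) : ℝ)) {g : ℝ → ℝ}
    (hgm : AEStronglyMeasurable g (volume.restrict (Ioi 1)))
    (hg : IntegrableOn (fun t : ℝ => g t * t ^ (-(5 / 4) : ℝ)) (Ioi 1)) {v : ℝ} (hv : 0 < v) :
    IntegrableOn (fun t : ℝ => g t * (w (t * v) / t)) (Ioi 1) := by
  refine Integrable.mono' (hg.norm.const_mul (D * v ^ (-(1 / 4) : ℝ))) ?_ ?_
  · refine hgm.mul (Measurable.aestronglyMeasurable ?_)
    exact (hwm.comp (measurable_id.mul_const v)).div measurable_id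
  · refine (ae_restrict_iff' measurableSet_Ioi).2 (ae_of_all _ fun t ht => ?_)
    exact f1_D4_pt hw hv ht

/-- the bound of the main term -/
theorem f1_D4_G_bound {w : ℝ → ℝ} {D : ℝ} (hD : 0 ≤ D)
    (hw : ∀ x : ℝ, 0 < x → |w x| ≤ D * x ^ (-(1 / 4) : ℝ)) {g : ℝ → ℝ} {θ₀ : ℝ}
    (hθ₀ : θ₀ ∈ SP.II) (hg : IntegrableOn (fun t : ℝ => g t * t ^ (-(5 / 4) : ℝ)) (Ioi 1)) :
    ∃ D' : ℝ, ∀ θ : ℝ, 0 < θ → θ < θ₀ →
      ‖((∫ t in Ioi (1 : ℝ), g t * (w (t * Real.tan θ) / t) : ℝ) : ℂ)‖ ≤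
        D' * θ ^ (-(1 / 4) : ℝ) := by
  refine ⟨D * ∫ t in Ioi (1 : ℝ), ‖g t * t ^ (-(5 / 4) : ℝ)‖, fun θ h0 h1 => ?_⟩
  have hII : θ ∈ SP.II := ⟨h0, h1.trans hθ₀.2⟩
  have htan : θ < Real.tan θ := Real.lt_tan h0 hII.2
  have hv : 0 < Real.tan θ := h0.trans htan
  have hv4 : Real.tan θ ^ (-(1 / 4) : ℝ) ≤ θ ^ (-(1 / 4) : ℝ) :=
    Real.rpow_le_rpow_of_nonpos h0 htan.le (by norm_num)
  have hI : 0 ≤ ∫ t in Ioi (1 : ℝ), ‖g t * t ^ (-(5 / 4) : ℝ)‖ :=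
    integral_nonneg fun t => norm_nonneg _
  rw [Complex.norm_real]
  have h2 : ‖∫ t in Ioi (1 : ℝ), g t * (w (t * Real.tan θ) / t)‖ ≤
      ∫ t in Ioi (1 : ℝ), D * Real.tan θ ^ (-(1 / 4) : ℝ) * ‖g t * t ^ (-(5 / 4) : ℝ)‖ := by
    refine norm_integral_le_of_norm_le (hg.norm.const_mul _) ?_
    exact (ae_restrict_iff' measurableSet_Ioi).2 (ae_of_all _ fun t ht => f1_D4_pt hw hv ht)
  rw [integral_const_mul] at h2
  refine h2.trans ?_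
  calc D * Real.tan θ ^ (-(1 / 4) : ℝ) * ∫ t in Ioi (1 : ℝ), ‖g t * t ^ (-(5 / 4) : ℝ)‖
      ≤ D * θ ^ (-(1 / 4) : ℝ) * ∫ t in Ioi (1 : ℝ), ‖g t * t ^ (-(5 / 4) : ℝ)‖ := by gcongr
    _ = _ := by ring

/-- one of the two transforms -/
theorem f1_D4_one {ν : ℂ} (hν : ν.re = 0) {θ₀ : ℝ} (hθ₀ : θ₀ ∈ SP.II) {R : ℝ → ℂ}
    (hR : AEStronglyMeasurable R (volume.restrict (Ioo 0 θ₀))) {l1 l2 : ℝ → ℝ}
    (hc1 : Continuous l1) (hc2 : Continuous l2)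
    (hg1 : ∀ α : ℝ, 9 / 8 < α → IntegrableOn (fun t : ℝ => l1 t * t ^ (-α)) (Ici 1))
    (hg2 : ∀ α : ℝ, 9 / 8 < α → IntegrableOn (fun t : ℝ => l2 t * t ^ (-α)) (Ici 1)) {C : ℝ}
    (hC : ∀ θ : ℝ, 0 < θ → θ ≤ θ₀ → ‖R θ - (((∫ t in Ioi (1 : ℝ),
        (l1 t * (‖Wp ν (t * Real.tan θ)‖ ^ 2 / t) +
          l2 t * (‖ν * Vm ν (t * Real.tan θ)‖ ^ 2 / t)) : ℝ) : ℂ))‖ ≤
            C * Real.tan θ ^ (3 / 4 : ℝ)) :
    ∃ H : ℂ → ℂ, DifferentiableOn ℂ H {s | 1 / 4 < s.re ∧ 0 < s.im} ∧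
      ∀ s : ℂ, 2 < s.re → 0 < s.im →
        Dt R θ₀ s = SP.bb s *
          (kp ν s * (∫ t in Ioi (1 : ℝ), ((l1 t : ℝ) : ℂ) * (t : ℂ) ^ (-s)) +
            km ν s * (∫ t in Ioi (1 : ℝ), ((l2 t : ℝ) : ℂ) * (t : ℂ) ^ (-s))) + H s := by
  set w1 : ℝ → ℝ := fun x => ‖Wp ν x‖ ^ 2 with hw1
  set w2 : ℝ → ℝ := fun x => ‖ν * Vm ν x‖ ^ 2 with hw2
  have hm1 : Measurable w1 := (f1_D4_Wp_meas ν).norm.pow_const 2
  have hm2 : Measurable w2 := ((f1_D4_Vm_meas ν).const_mul ν).norm.pow_const 2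
  have hb1 : ∀ x : ℝ, 0 < x → |w1 x| ≤ 2 * Real.pi * x ^ (3 / 4 : ℝ) * Real.exp (-(x / 2)) ∧
      |w1 x| ≤ 2 * Real.pi * x ^ (-(1 / 4) : ℝ) := fun x hx =>
    f1_D4_W (w := Wp ν) (fun x hx => (Wp_le hν hx).1) hx
  have hb2 : ∀ x : ℝ, 0 < x → |w2 x| ≤ 2 * Real.pi * x ^ (3 / 4 : ℝ) * Real.exp (-(x / 2)) ∧
      |w2 x| ≤ 2 * Real.pi * x ^ (-(1 / 4) : ℝ) := fun x hx =>
    f1_D4_W (w := fun x => ν * Vm ν x) (fun x hx => (Wp_le hν hx).2) hx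
  have hcw1 : ContinuousOn w1 (Ioi 0) := fun x hx =>
    ((Wp_deriv ν (x := x) hx).continuousAt.norm.pow 2).continuousWithinAt
  have hcw2 : ContinuousOn w2 (Ioi 0) := fun x hx =>
    ((((Vm_deriv ν (x := x) hx).continuousAt).const_mul ν).norm.pow 2).continuousWithinAt
  obtain ⟨H₁, hH₁, hD₁⟩ := Dt_main1 hcw1 ⟨2 * Real.pi, fun x hx => (hb1 x hx).1⟩ hθ₀ hg1
  obtain ⟨H₂, hH₂, hD₂⟩ := Dt_main1 hcw2 ⟨2 * Real.pi, fun x hx => (hb2 x hx).1⟩ hθ₀ hg2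
  set G1' : ℝ → ℂ := fun θ => ((∫ t in Ioi (1 : ℝ), l1 t * (w1 (t * Real.tan θ) / t) : ℝ) : ℂ)
    with hG1
  set G2' : ℝ → ℂ := fun θ => ((∫ t in Ioi (1 : ℝ), l2 t * (w2 (t * Real.tan θ) / t) : ℝ) : ℂ)
    with hG2
  set y : ℝ → ℂ := fun θ => R θ - (G1' θ + G2' θ) with hy
  have hgm1 : AEStronglyMeasurable l1 (volume.restrict (Ioi 1)) := hc1.aestronglyMeasurable
  have hgm2 : AEStronglyMeasurable l2 (volume.restrict (Ioi 1)) := hc2.aestronglyMeasurable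
  have hi1 := (hg1 (5 / 4) (by norm_num)).mono_set Ioi_subset_Ici_self
  have hi2 := (hg2 (5 / 4) (by norm_num)).mono_set Ioi_subset_Ici_self
  have hpi : 0 ≤ 2 * Real.pi := by positivity
  have hmG1 : AEStronglyMeasurable G1' (volume.restrict (Ioo 0 θ₀)) := f1_D4_G_meas hm1 hgm1
  have hmG2 : AEStronglyMeasurable G2' (volume.restrict (Ioo 0 θ₀)) := f1_D4_G_meas hm2 hgm2
  have hmy : AEStronglyMeasurable y (volume.restrict (Ioo 0 θ₀)) := hR.sub (hmG1.add hmG2)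
  obtain ⟨D1, hGb1⟩ := f1_D4_G_bound hpi (fun x hx => (hb1 x hx).2) hθ₀ hi1
  obtain ⟨D2, hGb2⟩ := f1_D4_G_bound hpi (fun x hx => (hb2 x hx).2) hθ₀ hi2
  have hyb : ∀ θ : ℝ, 0 < θ → θ < θ₀ → ‖y θ‖ ≤ C * Real.tan θ ^ (3 / 4 : ℝ) := by
    intro θ h0 h1
    have hv : 0 < Real.tan θ := Real.tan_pos_of_pos_of_lt_pi_div_two h0 (h1.trans hθ₀.2)
    have h2 := hC θ h0 h1.le
    have h3 : y θ = R θ - (((∫ t in Ioi (1 : ℝ),
        (l1 t * (‖Wp ν (t * Real.tan θ)‖ ^ 2 / t) +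
          l2 t * (‖ν * Vm ν (t * Real.tan θ)‖ ^ 2 / t)) : ℝ) : ℂ)) := by
      rw [integral_add (f1_D4_gint hm1 (fun x hx => (hb1 x hx).2) hgm1 hi1 hv)
        (f1_D4_gint hm2 (fun x hx => (hb2 x hx).2) hgm2 hi2 hv)]
      simp only [hy, hG1, hG2]
      push_cast
      ring
    rw [h3]
    exact h2
  have hC0 : 0 ≤ C := by
    have h1 := hyb (θ₀ / 2) (by linarith [hθ₀.1]) (by linarith [hθ₀.1])
    have hv : 0 < Real.tan (θ₀ / 2) :=
      Real.tan_pos_of_pos_of_lt_pi_div_two (by linarith [hθ₀.1]) (by linarith [hθ₀.1, hθ₀.2])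
    have h2 : 0 < Real.tan (θ₀ / 2) ^ (3 / 4 : ℝ) := Real.rpow_pos_of_pos hv _
    by_contra hcon
    push Not at hcon
    have h3 := norm_nonneg (y (θ₀ / 2))
    nlinarith
  have hyb' : ∀ θ : ℝ, 0 < θ → θ < θ₀ →
      ‖y θ‖ ≤ (2 * (C * Real.tan θ₀ ^ (3 / 4 : ℝ))) * θ ^ (-(1 / 4) : ℝ) := by
    intro θ h0 h1
    have h2 : Real.tan θ ≤ Real.tan θ₀ :=
      (Real.tan_lt_tan_of_nonneg_of_lt_pi_div_two h0.le hθ₀.2 h1).le
    have h3 : 0 ≤ Real.tan θ := (Real.tan_pos_of_pos_of_lt_pi_div_two h0 (h1.trans hθ₀.2)).le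
    have h4 : Real.tan θ ^ (3 / 4 : ℝ) ≤ Real.tan θ₀ ^ (3 / 4 : ℝ) :=
      Real.rpow_le_rpow h3 h2 (by norm_num)
    have h5 := f1_D4_rpow_ge hθ₀ h0 h1
    have h6 : 0 ≤ C * Real.tan θ₀ ^ (3 / 4 : ℝ) :=
      mul_nonneg hC0 (Real.rpow_nonneg (h3.trans h2) _)
    calc ‖y θ‖ ≤ C * Real.tan θ ^ (3 / 4 : ℝ) := hyb θ h0 h1
      _ ≤ C * Real.tan θ₀ ^ (3 / 4 : ℝ) := mul_le_mul_of_nonneg_left h4 hC0
      _ ≤ C * Real.tan θ₀ ^ (3 / 4 : ℝ) * (2 * θ ^ (-(1 / 4) : ℝ)) :=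
          le_mul_of_one_le_right h6 h5
      _ = _ := by ring
  refine ⟨fun s => H₁ s + H₂ s + Dt y θ₀ s, ?_, ?_⟩
  · have hb4 : DifferentiableOn ℂ (Dt y θ₀) {s : ℂ | 1 / 4 < s.re ∧ 0 < s.im} := by
      refine (Dt_err hθ₀ hmy (α := 3 / 4) (by norm_num) hyb).mono (fun s hs => ⟨?_, hs.2⟩)
      have h1 : max (0 : ℝ) (1 - 3 / 4) = 1 / 4 := by
        rw [max_eq_right] <;> norm_num
      rw [h1]
      exact hs.1
    exact (hH₁.add hH₂).add hb4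
  · intro s hs1 hs2
    have i1 := f1_D4_int hθ₀ hmG1 hGb1 hs1
    have i2 := f1_D4_int hθ₀ hmG2 hGb2 hs1
    have i3 := f1_D4_int hθ₀ hmy hyb' hs1
    have i12 : IntegrableOn (fun θ => SP.ff s θ * G1' θ / ((Real.sin θ : ℝ) : ℂ) ^ 2 +
        SP.ff s θ * G2' θ / ((Real.sin θ : ℝ) : ℂ) ^ 2) (Ioo 0 θ₀) := i1.add i2
    have hsplit : Dt R θ₀ s = Dt G1' θ₀ s + Dt G2' θ₀ s + Dt y θ₀ s := by
      unfold Dt
      rw [← integral_add i1 i2, ← integral_add i12 i3]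
      refine setIntegral_congr_fun measurableSet_Ioo (fun θ _ => ?_)
      simp only [hy]
      ring
    have e1 := (wp_mellin hν (s := s) (by linarith)).2
    have e2 := (wm_mellin hν (s := s) (by linarith)).2
    have d1 := hD₁ s hs1 hs2
    have d2 := hD₂ s hs1 hs2
    simp only [hw1] at d1
    simp only [hw2] at d2
    rw [e1] at d1
    rw [e2] at d2
    rw [hsplit]
    simp only [hG1, hG2, hw1, hw2]
    rw [d1, d2]
    ring

variable {ν : ℂ} {ε : ℝ} {a : ℕ → ℂ} {f : ℍ → ℂ} {L : ℂ → ℂ}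

/-- D4: the transforms of `F` and of its reflection -/
theorem Dt_phi1_pr (F : Frame1 ν ε a f) (hL : LFun1 ν ε a f L) {θ₀ : ℝ} (hθ₀ : θ₀ ∈ SP.II) :
    ∃ H₁ H₂ : ℂ → ℂ, DifferentiableOn ℂ H₁ {s | 1 / 4 < s.re ∧ 0 < s.im} ∧
      DifferentiableOn ℂ H₂ {s | 1 / 4 < s.re ∧ 0 < s.im} ∧
      ∀ s : ℂ, 2 < s.re → 0 < s.im →
        Dt (ray (phi f)) θ₀ s = SP.bb s *
          (kp ν s * (∫ t in Ioi (1 : ℝ), ((‖L (ha (-t))‖ ^ 2 : ℝ) : ℂ) * (t : ℂ) ^ (-s)) +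
            km ν s * (∫ t in Ioi (1 : ℝ), ((‖L (ha t)‖ ^ 2 : ℝ) : ℂ) * (t : ℂ) ^ (-s))) + H₁ s ∧
        Dt (fun θ => ray (phi f) (Real.pi - θ)) θ₀ s = SP.bb s *
          (kp ν s * (∫ t in Ioi (1 : ℝ), ((‖L (ha t)‖ ^ 2 : ℝ) : ℂ) * (t : ℂ) ^ (-s)) +
            km ν s * (∫ t in Ioi (1 : ℝ), ((‖L (ha (-t))‖ ^ 2 : ℝ) : ℂ) * (t : ℂ) ^ (-s))) +
              H₂ s := by
  obtain ⟨C, hC⟩ := phi_asymp1 F hL hθ₀
  have hLc : Continuous L := hL.diff.continuous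
  have hha : Continuous ha := by
    unfold ha
    fun_prop
  have hcp : Continuous (fun t : ℝ => ‖L (ha t)‖ ^ 2) := (hLc.comp hha).norm.pow 2
  have hcm : Continuous (fun t : ℝ => ‖L (ha (-t))‖ ^ 2) :=
    (hLc.comp (hha.comp continuous_neg)).norm.pow 2
  have hrpow : ∀ α : ℝ, ContinuousOn (fun t : ℝ => t ^ α) (Ici (1 : ℝ)) := fun α =>
    ContinuousOn.rpow_const continuousOn_id (fun t ht => Or.inl (by
      have : (1 : ℝ) ≤ t := ht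
      exact (lt_of_lt_of_le one_pos this).ne'))
  have hgp : ∀ α : ℝ, 9 / 8 < α → IntegrableOn (fun t : ℝ => ‖L (ha t)‖ ^ 2 * t ^ (-α))
      (Ici 1) := by
    intro α hα
    refine Integrable.mono' (growth_int1 F hL hα) ?_ ?_
    · exact (hcp.continuousOn.mul (hrpow _)).aestronglyMeasurable measurableSet_Ici
    · refine (ae_restrict_iff' measurableSet_Ici).2 (ae_of_all _ fun t ht => ?_)
      have ht0 : (0 : ℝ) < t := lt_of_lt_of_le one_pos ht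
      rw [Real.norm_of_nonneg (by positivity)]
      have : 0 ≤ ‖L (ha (-t))‖ ^ 2 := by positivity
      gcongr
      linarith
  have hgm : ∀ α : ℝ, 9 / 8 < α → IntegrableOn (fun t : ℝ => ‖L (ha (-t))‖ ^ 2 * t ^ (-α))
      (Ici 1) := by
    intro α hα
    refine Integrable.mono' (growth_int1 F hL hα) ?_ ?_
    · exact (hcm.continuousOn.mul (hrpow _)).aestronglyMeasurable measurableSet_Ici
    · refine (ae_restrict_iff' measurableSet_Ici).2 (ae_of_all _ fun t ht => ?_)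
      have ht0 : (0 : ℝ) < t := lt_of_lt_of_le one_pos ht
      rw [Real.norm_of_nonneg (by positivity)]
      have : 0 ≤ ‖L (ha t)‖ ^ 2 := by positivity
      gcongr
      linarith
  have hm1 : AEStronglyMeasurable (ray (phi f)) (volume.restrict (Ioo 0 θ₀)) :=
    f1_D4_ray_meas F.cont (c := fun θ => θ) continuous_id fun θ hθ =>
      SP.sin_pos' (SP.sub_II hθ₀ hθ)
  have hm2 : AEStronglyMeasurable (fun θ => ray (phi f) (Real.pi - θ))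
      (volume.restrict (Ioo 0 θ₀)) :=
    f1_D4_ray_meas F.cont (c := fun θ => Real.pi - θ) (by fun_prop) fun θ hθ => by
      rw [Real.sin_pi_sub]
      exact SP.sin_pos' (SP.sub_II hθ₀ hθ)
  obtain ⟨H₁, hH₁, hD₁⟩ := f1_D4_one F.nu hθ₀ hm1 hcm hcp hgm hgp
    (fun θ h0 h1 => (hC θ h0 h1).1)
  obtain ⟨H₂, hH₂, hD₂⟩ := f1_D4_one F.nu hθ₀ hm2 hcp hcm hgp hgm
    (fun θ h0 h1 => (hC θ h0 h1).2)
  exact ⟨H₁, H₂, hH₁, hH₂, fun s hs1 hs2 => ⟨hD₁ s hs1 hs2, hD₂ s hs1 hs2⟩⟩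


end Pool.Agent.JO.FM1

namespace Pool.Agent.JO.FM1

theorem Dt_phi1 : type_of% @Dt_phi1_pr := @Dt_phi1_pr

end Pool.Agent.JO.FM1
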