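import Pool.Agent.Lib_helper42.JO1.Defs
import Pool.Agent.Lib_helper45.JO.Defs2
import Pool.Agent.Lib_helper42.JO1F.D1
import Pool.Agent.Lib_helper42.JO1F.D4
import Pool.Agent.Lib_helper42.JO1F.K8
import Pool.Agent.Lib_helper42.JO1F.P5

/-! JO, Maass frame, weight 1, block D5 -/

set_option autoImplicit false

namespace Pool.Agent.JO.FM1

open Complex Filter Topology MeasureTheory Set
open UpperHalfPlane hiding I
open Pool.Agent.JO.FM
open scoped MatrixGroups ComplexConjugate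

theorem f1_d5_gam {s : ℂ} (hs : 0 < s.re) : DifferentiableAt ℂ Gamma s := by
  refine Complex.differentiableAt_Gamma s fun m h => ?_
  rw [h] at hs
  simp only [neg_re, natCast_re] at hs
  have : (0 : ℝ) ≤ m := Nat.cast_nonneg m
  linarith

theorem f1_d5_bb : DifferentiableOn ℂ SP.bb {s | 0 < s.re} := by
  intro s hs
  have hs' : 0 < s.re := hs
  have h1 : DifferentiableAt ℂ (fun s : ℂ => Gamma s * Gamma s / Gamma (s + s)) s := by
    have h2 : 0 < (s + s).re := by rw [add_re]; linarith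
    refine DifferentiableAt.div ((f1_d5_gam hs').mul (f1_d5_gam hs')) ?_
      (Gamma_ne_zero_of_re_pos h2)
    exact DifferentiableAt.comp s (f1_d5_gam h2) (differentiableAt_id.add differentiableAt_id)
  refine (h1.congr_of_eventuallyEq ?_).differentiableWithinAt
  have ho : IsOpen {s : ℂ | 0 < s.re} := isOpen_lt continuous_const Complex.continuous_re
  filter_upwards [ho.mem_nhds hs] with z hz
  have hz' : 0 < z.re := hz
  have h2 : 0 < (z + z).re := by rw [add_re]; linarith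
  rw [SP.bb_eq, Complex.Gamma_mul_Gamma_eq_betaIntegral hz' hz',
    mul_div_cancel_left₀ _ (Gamma_ne_zero_of_re_pos h2)]

section

variable {ν : ℂ} {ε : ℝ} {a : ℕ → ℂ} {f : ℍ → ℂ} {L : ℂ → ℂ}

/-- D5: FM2a -/
theorem fm2a1_pr (F : Frame1 ν ε a f) (hL : LFun1 ν ε a f L) {A B : ℝ}
    (hE : errorTerm L A B =o[atTop] fun T : ℝ => √T) {θ₀ : ℝ} (hθ₀ : θ₀ ∈ SP.II) :
    ∃ M : ℂ → ℂ, DifferentiableOn ℂ M SP.QQ ∧
      (∀ κ : ℝ, 0 < κ → Tendsto (fun η : ℝ => (η : ℂ) * M (SP.pt κ η)) (𝓝[>] 0) (𝓝 0)) ∧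
      ∀ s : ℂ, s ∈ SP.QQ → 2 < s.re →
        km ν s * Dt (ray (phi f)) θ₀ s -
          kp ν s * Dt (fun θ => ray (phi f) (Real.pi - θ)) θ₀ s = M s := by
  obtain ⟨m, hm1, hm2, hm3⟩ := mp_cont1 hL.diff hE (fun α hα => growth_int1 F hL hα)
  obtain ⟨H1, H2, hH1, hH2, hD⟩ := Dt_phi1 F hL hθ₀
  have hν := F.nu
  set S : Set ℂ := {s | 1 / 4 < s.re ∧ 0 < s.im} with hS
  have hSo : IsOpen S :=
    (isOpen_lt continuous_const Complex.continuous_re).inter
      (isOpen_lt continuous_const Complex.continuous_im)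
  have hQS : SP.QQ ⊆ S := fun s hs => ⟨by linarith [hs.1], hs.2⟩
  have hkp : DifferentiableOn ℂ (kp ν) S := (kpm_diff hν).1.mono fun s hs => by
    change 0 < s.re
    linarith [hs.1]
  have hkm : DifferentiableOn ℂ (km ν) S := (kpm_diff hν).2.mono fun s hs => by
    change 0 < s.re
    linarith [hs.1]
  have hb : DifferentiableOn ℂ SP.bb S := f1_d5_bb.mono fun s hs => by
    change 0 < s.re
    linarith [hs.1]
  set P : ℂ → ℂ := fun s => SP.bb s * (km ν s * km ν s - kp ν s * kp ν s) with hP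
  set Q : ℂ → ℂ := fun s => km ν s * H1 s - kp ν s * H2 s with hQ
  have hPd : DifferentiableOn ℂ P S := hb.mul ((hkm.mul hkm).sub (hkp.mul hkp))
  have hQd : DifferentiableOn ℂ Q S := (hkm.mul hH1).sub (hkp.mul hH2)
  refine ⟨fun s => P s * m s + Q s, ?_, ?_, ?_⟩
  · exact ((hPd.mono hQS).mul hm1).add (hQd.mono hQS)
  · intro κ hκ
    have hpt : SP.pt κ 0 ∈ S := by
      constructor
      · change 1 / 4 < (SP.pt κ 0).re
        simp [SP.pt]
        norm_num
      · change 0 < (SP.pt κ 0).im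
        simp [SP.pt]
        exact hκ
    have hc : Tendsto (SP.pt κ) (𝓝[>] 0) (𝓝 (SP.pt κ 0)) := by
      have h1 : Continuous (SP.pt κ) := by
        unfold SP.pt
        fun_prop
      exact (h1.tendsto 0).mono_left nhdsWithin_le_nhds
    have hPc : Tendsto (fun η => P (SP.pt κ η)) (𝓝[>] 0) (𝓝 (P (SP.pt κ 0))) :=
      ((hPd.differentiableAt (hSo.mem_nhds hpt)).continuousAt.tendsto).comp hc
    have hQc : Tendsto (fun η => Q (SP.pt κ η)) (𝓝[>] 0) (𝓝 (Q (SP.pt κ 0))) :=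
      ((hQd.differentiableAt (hSo.mem_nhds hpt)).continuousAt.tendsto).comp hc
    have hη : Tendsto (fun η : ℝ => (η : ℂ)) (𝓝[>] 0) (𝓝 0) := by
      have h1 : Tendsto (fun η : ℝ => (η : ℂ)) (𝓝 0) (𝓝 ((0 : ℝ) : ℂ)) :=
        Complex.continuous_ofReal.tendsto 0
      rw [Complex.ofReal_zero] at h1
      exact h1.mono_left nhdsWithin_le_nhds
    have h3 := (hPc.mul (hm2 κ hκ)).add (hη.mul hQc)
    rw [mul_zero, zero_mul, add_zero] at h3
    refine h3.congr fun η => ?_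
    ring
  · intro s hs hs2
    have e0 := hm3 s hs hs2
    obtain ⟨e1, e2⟩ := hD s hs2 hs.2
    rw [e1, e2, e0]
    simp only [hP, hQ]
    ring

end


end Pool.Agent.JO.FM1

namespace Pool.Agent.JO.FM1

theorem fm2a1 : type_of% @fm2a1_pr := @fm2a1_pr

end Pool.Agent.JO.FM1
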