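import Pool.Agent.Lib_helper42.JO1.Defs
import Pool.Agent.Lib_helper45.JO.Defs2

/-! Project JO, part FM, weight 1, block M1: summability of the Dirichlet series. -/

set_option autoImplicit false

namespace Pool.Agent.JO.FM1

open Complex Filter Topology MeasureTheory Set
open UpperHalfPlane hiding I
open Pool.Agent.JO.FM
open scoped MatrixGroups ComplexConjugate

variable {ν : ℂ} {ε : ℝ} {a : ℕ → ℂ} {f : ℍ → ℂ} {L : ℂ → ℂ}

/-- dyadic bounds give summability with a small negative power -/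
theorem f1_m1_dyadic {g : ℕ → ℝ} (h0 : ∀ n, 0 ≤ g n) (hg0 : g 0 = 0) {C : ℝ}
    (hC : ∀ M : ℕ, 0 < M → ∑ m ∈ Finset.Icc M (2 * M), g m ≤ C) {δ : ℝ} (hδ : 0 < δ) :
    Summable (fun n : ℕ => g n * (n : ℝ) ^ (-δ)) := by
  have hC0 : 0 ≤ C := le_trans (Finset.sum_nonneg (fun i _ => h0 i)) (hC 1 one_pos)
  set r : ℝ := (2 : ℝ) ^ (-δ) with hr
  have hr0 : 0 < r := Real.rpow_pos_of_pos two_pos _
  have hr1 : r < 1 := Real.rpow_lt_one_of_one_lt_of_neg one_lt_two (neg_neg_of_pos hδ)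
  have hnn : ∀ n : ℕ, 0 ≤ g n * (n : ℝ) ^ (-δ) := fun n =>
    mul_nonneg (h0 n) (Real.rpow_nonneg (Nat.cast_nonneg _) _)
  have hblock : ∀ k : ℕ, ∑ n ∈ Finset.Ico (2 ^ k) (2 ^ (k + 1)), g n * (n : ℝ) ^ (-δ) ≤
      C * r ^ k := by
    intro k
    have h1 : ∀ n ∈ Finset.Ico (2 ^ k) (2 ^ (k + 1)), g n * (n : ℝ) ^ (-δ) ≤ g n * r ^ k := by
      intro n hn
      rw [Finset.mem_Ico] at hn
      have h2 : ((2 : ℝ) ^ k) ≤ (n : ℝ) := by exact_mod_cast hn.1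
      have h3 : (n : ℝ) ^ (-δ) ≤ ((2 : ℝ) ^ k) ^ (-δ) :=
        Real.rpow_le_rpow_of_nonpos (by positivity) h2 (by linarith)
      have h4 : ((2 : ℝ) ^ k) ^ (-δ) = r ^ k := by
        rw [hr, ← Real.rpow_natCast, ← Real.rpow_natCast, ← Real.rpow_mul two_pos.le,
          ← Real.rpow_mul two_pos.le, mul_comm]
      rw [h4] at h3
      exact mul_le_mul_of_nonneg_left h3 (h0 n)
    have h5 : ∑ n ∈ Finset.Ico (2 ^ k) (2 ^ (k + 1)), g n ≤ C := by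
      refine le_trans (Finset.sum_le_sum_of_subset_of_nonneg ?_ (fun i _ _ => h0 i))
        (hC (2 ^ k) (by positivity))
      intro n hn
      rw [Finset.mem_Ico] at hn
      rw [Finset.mem_Icc]
      exact ⟨hn.1, by rw [pow_succ] at hn; omega⟩
    calc ∑ n ∈ Finset.Ico (2 ^ k) (2 ^ (k + 1)), g n * (n : ℝ) ^ (-δ)
        ≤ ∑ n ∈ Finset.Ico (2 ^ k) (2 ^ (k + 1)), g n * r ^ k := Finset.sum_le_sum h1
      _ = (∑ n ∈ Finset.Ico (2 ^ k) (2 ^ (k + 1)), g n) * r ^ k := by rw [Finset.sum_mul]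
      _ ≤ C * r ^ k := mul_le_mul_of_nonneg_right h5 (by positivity)
  have hsum : ∀ k : ℕ, ∑ n ∈ Finset.Ico 0 (2 ^ k), g n * (n : ℝ) ^ (-δ) ≤
      C * ∑ j ∈ Finset.range k, r ^ j := by
    intro k
    induction k with
    | zero => simp [hg0]
    | succ k ih =>
      rw [← Finset.sum_Ico_consecutive _ (Nat.zero_le (2 ^ k))
        (Nat.pow_le_pow_right two_pos (Nat.le_succ k)), Finset.sum_range_succ, mul_add]
      exact add_le_add ih (hblock k)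
  have hgeo : Summable (fun j : ℕ => r ^ j) := summable_geometric_of_lt_one hr0.le hr1
  refine summable_of_sum_range_le (c := C * ∑' j : ℕ, r ^ j) hnn (fun N => ?_)
  have h6 : Finset.range N ⊆ Finset.Ico 0 (2 ^ N) := by
    intro n hn
    rw [Finset.mem_range] at hn
    rw [Finset.mem_Ico]
    exact ⟨Nat.zero_le _, lt_trans hn N.lt_two_pow_self⟩
  calc ∑ n ∈ Finset.range N, g n * (n : ℝ) ^ (-δ)
      ≤ ∑ n ∈ Finset.Ico 0 (2 ^ N), g n * (n : ℝ) ^ (-δ) :=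
        Finset.sum_le_sum_of_subset_of_nonneg h6 (fun i _ _ => hnn i)
    _ ≤ C * ∑ j ∈ Finset.range N, r ^ j := hsum N
    _ ≤ C * ∑' j : ℕ, r ^ j :=
        mul_le_mul_of_nonneg_left (hgeo.sum_le_tsum _ (fun i _ => by positivity)) hC0

theorem f1_m1_cf (ν : ℂ) (ε : ℝ) (a : ℕ → ℂ) {n : ℕ} (hn : n ≠ 0) :
    ‖a n‖ = √(n : ℝ) * ‖cf1 ν ε a (n : ℤ)‖ := by
  have hn' : (0 : ℝ) < √(n : ℝ) := Real.sqrt_pos.2 (by exact_mod_cast Nat.pos_of_ne_zero hn)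
  unfold cf1
  rw [if_neg (by exact_mod_cast hn), if_neg (by simp)]
  simp only [Int.natAbs_natCast, one_mul, norm_mul, norm_inv, Complex.norm_real, Real.norm_eq_abs,
    abs_of_pos hn']
  field_simp

theorem lsummable1_pr (F : Frame1 ν ε a f) {s : ℂ} (hs : 1 < s.re) : LSeriesSummable a s := by
  obtain ⟨C, hC⟩ := F.expn.dyad
  set δ : ℝ := s.re - 1 with hδ
  have hδ0 : 0 < δ := by rw [hδ]; linarith
  have h1 : Summable (fun n : ℕ => ‖cf1 ν ε a (n : ℤ)‖ ^ 2 * (n : ℝ) ^ (-δ)) := by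
    refine f1_m1_dyadic (g := fun n : ℕ => ‖cf1 ν ε a (n : ℤ)‖ ^ 2) (fun n => by positivity) ?_
      (C := C) (fun M hM => ?_) hδ0
    · simp [cf1]
    · refine le_trans (Finset.sum_le_sum (fun m _ => ?_)) (hC M hM)
      have : 0 ≤ ‖cf1 ν ε a (-(m : ℤ))‖ ^ 2 := by positivity
      linarith
  have h2 : Summable (fun n : ℕ => (n : ℝ) ^ (-s.re)) := Real.summable_nat_rpow.2 (by linarith)
  have h3 : Summable (fun n : ℕ => (1 / 2) *
      (‖cf1 ν ε a (n : ℤ)‖ ^ 2 * (n : ℝ) ^ (-δ) + (n : ℝ) ^ (-s.re))) := (h1.add h2).mul_left _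
  unfold LSeriesSummable
  refine Summable.of_norm_bounded h3 (fun n => ?_)
  rcases eq_or_ne n 0 with rfl | hn
  · rw [LSeries.term_zero, norm_zero]
    positivity
  have hnp : (0 : ℝ) < (n : ℝ) := by exact_mod_cast Nat.pos_of_ne_zero hn
  rw [LSeries.norm_term_eq, if_neg hn, f1_m1_cf ν ε a hn]
  set B : ℝ := ‖cf1 ν ε a (n : ℤ)‖ with hB
  have e1 : √(n : ℝ) * B / (n : ℝ) ^ s.re =
      (B * (n : ℝ) ^ (-(δ / 2))) * (n : ℝ) ^ (-(s.re / 2)) := by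
    rw [Real.sqrt_eq_rpow, div_eq_mul_inv, ← Real.rpow_neg hnp.le]
    have : (n : ℝ) ^ (1 / 2 : ℝ) * (n : ℝ) ^ (-s.re) =
        (n : ℝ) ^ (-(δ / 2)) * (n : ℝ) ^ (-(s.re / 2)) := by
      rw [← Real.rpow_add hnp, ← Real.rpow_add hnp]
      congr 1
      rw [hδ]
      ring
    linear_combination B * this
  have e2 : (B * (n : ℝ) ^ (-(δ / 2))) ^ 2 = B ^ 2 * (n : ℝ) ^ (-δ) := by
    rw [mul_pow, ← Real.rpow_natCast ((n : ℝ) ^ (-(δ / 2))) 2, ← Real.rpow_mul hnp.le]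
    congr 2
    push_cast
    ring
  have e3 : ((n : ℝ) ^ (-(s.re / 2))) ^ 2 = (n : ℝ) ^ (-s.re) := by
    rw [← Real.rpow_natCast ((n : ℝ) ^ (-(s.re / 2))) 2, ← Real.rpow_mul hnp.le]
    congr 1
    push_cast
    ring
  rw [e1, ← e2, ← e3]
  nlinarith [sq_nonneg (B * (n : ℝ) ^ (-(δ / 2)) - (n : ℝ) ^ (-(s.re / 2)))]


end Pool.Agent.JO.FM1

namespace Pool.Agent.JO.FM1

theorem lsummable1 : type_of% @lsummable1_pr := @lsummable1_pr

end Pool.Agent.JO.FM1
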