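import Pool.Agent.Lib_helper42.JO1.Defs
import Pool.Agent.Lib_helper45.JO.Defs2
import Pool.Agent.Lib_helper42.JO1F.K1
import Pool.Agent.Lib_helper42.JO1F.M1
import Pool.Agent.Lib_helper98.H4F.GG

/-!
-/

set_option autoImplicit false

namespace Pool.Agent.JO.FM1

open Complex Filter Topology MeasureTheory Set
open UpperHalfPlane hiding I
open Pool.Agent.JO.FM
open scoped MatrixGroups ComplexConjugate

theorem f1_m4_int_exp {c : ℝ} (hc : 0 < c) : Integrable (fun u : ℝ => Real.exp (-(c * |u|))) := by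
  have h1 : IntegrableOn (fun u : ℝ => Real.exp (-(c * |u|))) (Ioi 0) := by
    have h := integrableOn_exp_mul_Ioi (a := -c) (by linarith) 0
    refine h.congr_fun (fun u hu => ?_) measurableSet_Ioi
    have hu' : 0 < u := hu
    simp only [abs_of_pos hu']
    ring_nf
  have h2 : IntegrableOn (fun u : ℝ => Real.exp (-(c * |u|))) (Iic 0) := by
    have h := integrableOn_exp_mul_Iic (a := c) hc 0
    refine h.congr_fun (fun u hu => ?_) measurableSet_Iic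
    have hu' : u ≤ 0 := hu
    simp only [abs_of_nonpos hu']
    ring_nf
  have h3 := h2.union h1
  rwa [Iic_union_Ioi, integrableOn_univ] at h3

theorem f1_m4_cosh_low (u : ℝ) : Real.exp |u| / 2 ≤ Real.cosh u := by
  rw [← Real.cosh_abs u, Real.cosh_eq]
  have := Real.exp_pos (-|u|)
  linarith

/-- the base -/
noncomputable def f1_m4_A (θ τ u : ℝ) : ℂ :=
  Complex.sin θ * (Real.cosh u : ℝ) - τ * (I * Complex.cos θ)

theorem f1_m4_A_re (θ τ u : ℝ) : (f1_m4_A θ τ u).re = Real.sin θ * Real.cosh u := by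
  unfold f1_m4_A
  rw [← Complex.ofReal_sin, ← Complex.ofReal_cos, ← Complex.ofReal_mul, Complex.sub_re,
    Complex.ofReal_re, Complex.re_ofReal_mul, Complex.mul_re]
  simp

theorem f1_m4_A_pos {θ : ℝ} (hθ : θ ∈ Ioo 0 Real.pi) (τ u : ℝ) : 0 < (f1_m4_A θ τ u).re := by
  rw [f1_m4_A_re]
  exact mul_pos (Real.sin_pos_of_mem_Ioo hθ) (Real.cosh_pos u)

/-- the integrand of the double integral -/
noncomputable def f1_m4_Phi (ν s : ℂ) (θ κ τ r u : ℝ) : ℂ :=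
  (r : ℂ) ^ (s - 1) * cexp (-(((κ : ℂ) * f1_m4_A θ τ u) * r)) * cexp (ν * u)

theorem f1_m4_Phi_norm (ν s : ℂ) {θ κ τ r u : ℝ} (hr : 0 < r) :
    ‖f1_m4_Phi ν s θ κ τ r u‖ =
      r ^ (s.re - 1) * Real.exp (-((κ * (Real.sin θ * Real.cosh u)) * r)) * Real.exp (ν.re * u) := by
  unfold f1_m4_Phi
  rw [norm_mul, norm_mul, norm_cpow_eq_rpow_re_of_pos hr, Complex.norm_exp, Complex.norm_exp]
  have e1 : (-(((κ : ℂ) * f1_m4_A θ τ u) * r)).re = -((κ * (Real.sin θ * Real.cosh u)) * r) := by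
    rw [Complex.neg_re, Complex.re_mul_ofReal, Complex.re_ofReal_mul, f1_m4_A_re]
  have e2 : (ν * (u : ℂ)).re = ν.re * u := by simp
  rw [e1, e2, Complex.sub_re, Complex.one_re]

theorem f1_m4_gam {c x : ℝ} (hc : 0 < c) (hx : 0 < x) :
    ∫ r in Ioi (0 : ℝ), r ^ (x - 1) * Real.exp (-(c * r)) = c ^ (-x) * Real.Gamma x := by
  rw [Real.integral_rpow_mul_exp_neg_mul_Ioi hx hc, one_div, Real.inv_rpow hc.le, Real.rpow_neg hc.le]

theorem f1_m4_norm_int (ν s : ℂ) {θ κ τ u : ℝ} (hθ : θ ∈ Ioo 0 Real.pi) (hκ : 0 < κ)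
    (hs : 0 < s.re) :
    IntegrableOn (fun r : ℝ => ‖f1_m4_Phi ν s θ κ τ r u‖) (Ioi 0) ∧
    ∫ r in Ioi (0 : ℝ), ‖f1_m4_Phi ν s θ κ τ r u‖ =
      κ ^ (-s.re) * (Real.Gamma s.re * ((Real.sin θ * Real.cosh u) ^ (-s.re) *
        Real.exp (ν.re * u))) := by
  have hsin : 0 < Real.sin θ := Real.sin_pos_of_mem_Ioo hθ
  have hch := Real.cosh_pos u
  have hc : 0 < κ * (Real.sin θ * Real.cosh u) := by positivity
  have e : EqOn (fun r : ℝ => ‖f1_m4_Phi ν s θ κ τ r u‖) (fun r : ℝ =>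
      r ^ (s.re - 1) * Real.exp (-((κ * (Real.sin θ * Real.cosh u)) * r)) *
        Real.exp (ν.re * u)) (Ioi 0) :=
    fun r hr => f1_m4_Phi_norm ν s hr
  refine ⟨?_, ?_⟩
  · rw [integrableOn_congr_fun e measurableSet_Ioi]
    exact (H4.gg_int hs hc).mul_const _
  · rw [setIntegral_congr_fun measurableSet_Ioi e, integral_mul_const, f1_m4_gam hc hs,
      Real.mul_rpow hκ.le (by positivity)]
    ring

theorem f1_m4_Phi_meas (ν s : ℂ) (θ κ τ : ℝ) :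
    Measurable (fun p : ℝ × ℝ => f1_m4_Phi ν s θ κ τ p.1 p.2) := by
  unfold f1_m4_Phi f1_m4_A
  have h1 : Measurable (fun p : ℝ × ℝ => ((p.1 : ℝ) : ℂ) ^ (s - 1)) :=
    (Complex.measurable_ofReal.comp measurable_fst).pow_const _
  have h2 : Continuous (fun p : ℝ × ℝ => cexp (-(((κ : ℂ) * (Complex.sin θ * (Real.cosh p.2 : ℝ) -
      τ * (I * Complex.cos θ))) * p.1))) := by
    have : Continuous (fun p : ℝ × ℝ => ((Real.cosh p.2 : ℝ) : ℂ)) :=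
      Complex.continuous_ofReal.comp (Real.continuous_cosh.comp continuous_snd)
    fun_prop
  have h3 : Continuous (fun p : ℝ × ℝ => cexp (ν * p.2)) := by fun_prop
  exact (h1.mul h2.measurable).mul h3.measurable

theorem f1_m4_u_int {ν s : ℂ} (hs : |ν.re| < s.re) {θ : ℝ} (hθ : θ ∈ Ioo 0 Real.pi) :
    Integrable (fun u : ℝ => (Real.sin θ * Real.cosh u) ^ (-s.re) * Real.exp (ν.re * u)) := by
  have hsin : 0 < Real.sin θ := Real.sin_pos_of_mem_Ioo hθ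
  have hs0 : 0 < s.re := lt_of_le_of_lt (abs_nonneg _) hs
  refine Integrable.mono' ((f1_m4_int_exp (c := s.re - |ν.re|) (by linarith)).const_mul
    (Real.sin θ ^ (-s.re) * 2 ^ s.re)) ?_ (ae_of_all _ fun u => ?_)
  · refine Continuous.aestronglyMeasurable ?_
    refine Continuous.mul ?_ (by fun_prop)
    refine Continuous.rpow_const (continuous_const.mul Real.continuous_cosh) fun u => Or.inl ?_
    have := Real.cosh_pos u
    positivity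
  · have hch := Real.cosh_pos u
    rw [Real.norm_of_nonneg (by positivity), Real.mul_rpow hsin.le hch.le]
    have h6 : Real.cosh u ^ (-s.re) ≤ 2 ^ s.re * Real.exp (-(s.re * |u|)) := by
      have h7 : Real.cosh u ^ (-s.re) ≤ (Real.exp |u| / 2) ^ (-s.re) :=
        Real.rpow_le_rpow_of_nonpos (by positivity) (f1_m4_cosh_low u) (by linarith)
      refine h7.trans (le_of_eq ?_)
      rw [Real.div_rpow (Real.exp_pos _).le (by norm_num), ← Real.exp_mul,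
        Real.rpow_neg (by norm_num : (0 : ℝ) ≤ 2), div_inv_eq_mul, mul_comm]
      congr 2
      ring
    have h8 : Real.exp (ν.re * u) ≤ Real.exp (|ν.re| * |u|) :=
      Real.exp_le_exp.mpr (by rw [← abs_mul]; exact le_abs_self _)
    calc Real.sin θ ^ (-s.re) * Real.cosh u ^ (-s.re) * Real.exp (ν.re * u)
        ≤ Real.sin θ ^ (-s.re) * (2 ^ s.re * Real.exp (-(s.re * |u|))) *
          Real.exp (|ν.re| * |u|) := by
          gcongr
      _ = Real.sin θ ^ (-s.re) * 2 ^ s.re *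
          (Real.exp (-(s.re * |u|)) * Real.exp (|ν.re| * |u|)) := by ring
      _ = _ := by
          rw [← Real.exp_add]
          congr 2
          ring

theorem f1_m4_prod_int {ν s : ℂ} (hs : |ν.re| < s.re) {θ : ℝ} (hθ : θ ∈ Ioo 0 Real.pi)
    {κ : ℝ} (hκ : 0 < κ) (τ : ℝ) :
    Integrable (fun p : ℝ × ℝ => f1_m4_Phi ν s θ κ τ p.1 p.2)
      ((volume.restrict (Ioi (0 : ℝ))).prod volume) := by
  have hs0 : 0 < s.re := lt_of_le_of_lt (abs_nonneg _) hs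
  rw [integrable_prod_iff' (f1_m4_Phi_meas ν s θ κ τ).aestronglyMeasurable]
  refine ⟨ae_of_all _ fun u => ?_, ?_⟩
  · rw [← integrable_norm_iff]
    · exact (f1_m4_norm_int ν s hθ hκ hs0).1
    · exact ((f1_m4_Phi_meas ν s θ κ τ).comp
        (measurable_id.prodMk measurable_const)).aestronglyMeasurable
  · have e : (fun u : ℝ => ∫ r in Ioi (0 : ℝ), ‖f1_m4_Phi ν s θ κ τ r u‖) = fun u : ℝ =>
        κ ^ (-s.re) * (Real.Gamma s.re * ((Real.sin θ * Real.cosh u) ^ (-s.re) *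
          Real.exp (ν.re * u))) :=
      funext fun u => (f1_m4_norm_int ν s hθ hκ hs0).2
    rw [e]
    exact ((f1_m4_u_int hs hθ).const_mul _).const_mul _

/-- the constant -/
noncomputable def f1_m4_D (ν s : ℂ) (θ : ℝ) : ℝ :=
  Real.Gamma s.re * ∫ u : ℝ, (Real.sin θ * Real.cosh u) ^ (-s.re) * Real.exp (ν.re * u)

theorem f1_m4_norm_le {ν s : ℂ} (hs : |ν.re| < s.re) {θ : ℝ} (hθ : θ ∈ Ioo 0 Real.pi)
    {κ : ℝ} (hκ : 0 < κ) (τ : ℝ) :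
    ∫ r in Ioi (0 : ℝ), ‖∫ u : ℝ, f1_m4_Phi ν s θ κ τ r u‖ ≤ κ ^ (-s.re) * f1_m4_D ν s θ := by
  have hs0 : 0 < s.re := lt_of_le_of_lt (abs_nonneg _) hs
  have hi := f1_m4_prod_int hs hθ hκ τ
  have h1 : ∫ r in Ioi (0 : ℝ), ‖∫ u : ℝ, f1_m4_Phi ν s θ κ τ r u‖ ≤
      ∫ r in Ioi (0 : ℝ), ∫ u : ℝ, ‖f1_m4_Phi ν s θ κ τ r u‖ := by
    refine integral_mono_of_nonneg (ae_of_all _ fun r => norm_nonneg _) hi.norm.integral_prod_left
      (ae_of_all _ fun r => norm_integral_le_integral_norm _)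
  refine h1.trans (le_of_eq ?_)
  have hn : Integrable (Function.uncurry fun r u : ℝ => ‖f1_m4_Phi ν s θ κ τ r u‖)
      ((volume.restrict (Ioi (0 : ℝ))).prod volume) := hi.norm
  rw [integral_integral_swap hn]
  have e : (fun u : ℝ => ∫ r in Ioi (0 : ℝ), ‖f1_m4_Phi ν s θ κ τ r u‖) = fun u : ℝ =>
        κ ^ (-s.re) * (Real.Gamma s.re * ((Real.sin θ * Real.cosh u) ^ (-s.re) *
          Real.exp (ν.re * u))) :=
      funext fun u => (f1_m4_norm_int ν s hθ hκ hs0).2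
  rw [e, integral_const_mul, integral_const_mul]
  rfl

theorem f1_m4_mul_cpow {κ : ℝ} (hκ : 0 < κ) {A : ℂ} (hA : A ≠ 0) (w : ℂ) :
    ((κ : ℂ) * A) ^ w = (κ : ℂ) ^ w * A ^ w := by
  have hκc : (κ : ℂ) ≠ 0 := Complex.ofReal_ne_zero.mpr hκ.ne'
  rw [Complex.cpow_def_of_ne_zero (mul_ne_zero hκc hA), Complex.cpow_def_of_ne_zero hκc,
    Complex.cpow_def_of_ne_zero hA, Complex.log_ofReal_mul hκ hA, ← Complex.exp_add,
    ← Complex.ofReal_log hκ.le]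
  congr 1
  ring

theorem f1_m4_val {ν s : ℂ} (hs : |ν.re| < s.re) {θ : ℝ} (hθ : θ ∈ Ioo 0 Real.pi)
    {κ : ℝ} (hκ : 0 < κ) (τ : ℝ) :
    ∫ r in Ioi (0 : ℝ), ∫ u : ℝ, f1_m4_Phi ν s θ κ τ r u =
      Gamma s * (κ : ℂ) ^ (-s) * ∫ u : ℝ, cexp (ν * u) * f1_m4_A θ τ u ^ (-s) := by
  have hs0 : 0 < s.re := lt_of_le_of_lt (abs_nonneg _) hs
  have hi : Integrable (Function.uncurry fun r u : ℝ => f1_m4_Phi ν s θ κ τ r u)
      ((volume.restrict (Ioi (0 : ℝ))).prod volume) := f1_m4_prod_int hs hθ hκ τ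
  rw [integral_integral_swap hi, ← integral_const_mul]
  congr 1
  funext u
  have hA := f1_m4_A_pos hθ τ u
  have hA0 : f1_m4_A θ τ u ≠ 0 := by
    intro h
    rw [h] at hA
    simp at hA
  have hκA : 0 < ((κ : ℂ) * f1_m4_A θ τ u).re := by
    rw [Complex.re_ofReal_mul]
    exact mul_pos hκ hA
  have h1 : ∫ r in Ioi (0 : ℝ), f1_m4_Phi ν s θ κ τ r u =
      (∫ r : ℝ in Set.Ioi 0, (r : ℂ) ^ (s - 1) *
        cexp (-(((κ : ℂ) * f1_m4_A θ τ u) * r))) * cexp (ν * u) := by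
    rw [← integral_mul_const]
    rfl
  rw [h1, H4.gg_integral hs0 hκA, one_div, Complex.inv_cpow, ← Complex.cpow_neg,
    f1_m4_mul_cpow hκ hA0]
  · ring
  · intro harg
    have h2 : ((κ : ℂ) * f1_m4_A θ τ u) ∈ Complex.slitPlane := Or.inl hκA
    exact (Complex.mem_slitPlane_iff_arg.mp h2).1 harg

/-- one half of a term -/
noncomputable def f1_m4_U (μ s : ℂ) (θ κ τ r : ℝ) : ℂ :=
  ((κ * Real.sin θ : ℝ) : ℂ) * (1 / 2) * ∫ u : ℝ, f1_m4_Phi μ (s + 1 / 2) θ κ τ r u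

theorem f1_m4_KK (μ s : ℂ) {θ : ℝ} {κ : ℝ} (τ : ℝ) {r : ℝ} (hr : 0 < r) :
    ((κ * (r * Real.sin θ) : ℝ) : ℂ) * KK μ (κ * (r * Real.sin θ)) *
      cexp ((τ * κ * (r * Real.cos θ) : ℝ) * I) * (r : ℂ) ^ (s - 3 / 2) =
      f1_m4_U μ s θ κ τ r := by
  have hrc : (r : ℂ) ≠ 0 := Complex.ofReal_ne_zero.mpr hr.ne'
  unfold f1_m4_U KK
  have e2 : (r : ℂ) * (r : ℂ) ^ (s - 3 / 2) = (r : ℂ) ^ (s + 1 / 2 - 1) := by
    have h1 : s + 1 / 2 - 1 = 1 + (s - 3 / 2) := by ring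
    rw [h1, Complex.cpow_add _ _ hrc, Complex.cpow_one]
  have e3 : ∫ u : ℝ, f1_m4_Phi μ (s + 1 / 2) θ κ τ r u = (r : ℂ) ^ (s + 1 / 2 - 1) *
      (cexp ((τ * κ * (r * Real.cos θ) : ℝ) * I) *
        ∫ u : ℝ, cexp (-((κ * (r * Real.sin θ) : ℝ) : ℂ) * (Real.cosh u : ℝ) + μ * u)) := by
    rw [← integral_const_mul, ← integral_const_mul]
    congr 1
    funext u
    unfold f1_m4_Phi f1_m4_A
    rw [mul_assoc, ← Complex.exp_add, ← Complex.exp_add]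
    congr 2
    push_cast
    ring
  rw [e3, ← e2]
  push_cast
  ring

theorem f1_m4_U_int {μ s : ℂ} (hs : |μ.re| < s.re + 1 / 2) {θ : ℝ} (hθ : θ ∈ Ioo 0 Real.pi)
    {κ : ℝ} (hκ : 0 < κ) (τ : ℝ) : IntegrableOn (f1_m4_U μ s θ κ τ) (Ioi 0) := by
  have hs' : |μ.re| < (s + 1 / 2).re := by
    rw [Complex.add_re]
    norm_num
    linarith
  have hi := (f1_m4_prod_int hs' hθ hκ τ).integral_prod_left
  exact hi.const_mul _

theorem f1_m4_U_norm {μ s : ℂ} (hs : |μ.re| < s.re + 1 / 2) {θ : ℝ} (hθ : θ ∈ Ioo 0 Real.pi)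
    {κ : ℝ} (hκ : 0 < κ) (τ : ℝ) :
    ∫ r in Ioi (0 : ℝ), ‖f1_m4_U μ s θ κ τ r‖ ≤
      κ * Real.sin θ * (1 / 2) * (κ ^ (-(s.re + 1 / 2)) * f1_m4_D μ (s + 1 / 2) θ) := by
  have hsr : (s + 1 / 2).re = s.re + 1 / 2 := by
    rw [Complex.add_re]
    norm_num
  have hs' : |μ.re| < (s + 1 / 2).re := by rw [hsr]; exact hs
  have hsin : 0 < Real.sin θ := Real.sin_pos_of_mem_Ioo hθ
  have h1 := f1_m4_norm_le hs' hθ hκ τ
  rw [hsr] at h1
  have e : ∀ r : ℝ, ‖f1_m4_U μ s θ κ τ r‖ =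
      κ * Real.sin θ * (1 / 2) * ‖∫ u : ℝ, f1_m4_Phi μ (s + 1 / 2) θ κ τ r u‖ := by
    intro r
    unfold f1_m4_U
    rw [norm_mul, norm_mul, Complex.norm_real, Real.norm_of_nonneg (by positivity)]
    norm_num
  rw [integral_congr_ae (Eventually.of_forall e), integral_const_mul]
  exact mul_le_mul_of_nonneg_left h1 (by positivity)

theorem f1_m4_U_val {μ s : ℂ} (hs : |μ.re| < s.re + 1 / 2) {θ : ℝ} (hθ : θ ∈ Ioo 0 Real.pi)
    {κ : ℝ} (hκ : 0 < κ) (τ : ℝ) :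
    ∫ r in Ioi (0 : ℝ), f1_m4_U μ s θ κ τ r =
      ((κ * Real.sin θ : ℝ) : ℂ) * (1 / 2) * (Gamma (s + 1 / 2) * (κ : ℂ) ^ (-(s + 1 / 2)) *
        ∫ u : ℝ, cexp (μ * u) * f1_m4_A θ τ u ^ (-(s + 1 / 2))) := by
  have hs' : |μ.re| < (s + 1 / 2).re := by
    rw [Complex.add_re]
    norm_num
    linarith
  unfold f1_m4_U
  rw [integral_const_mul, f1_m4_val hs' hθ hκ τ]

section

variable {ν : ℂ} {ε : ℝ} {a : ℕ → ℂ} {f : ℍ → ℂ} {L : ℂ → ℂ}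

/-- the terms -/
noncomputable def f1_m4_T (ν : ℂ) (ε : ℝ) (a : ℕ → ℂ) (s : ℂ) (θ : ℝ) (m : ℤ) (r : ℝ) : ℂ :=
  cf1 ν ε a m * Wz ν m (2 * Real.pi * |(m : ℝ)| * (r * Real.sin θ) / (1 : ℕ)) *
    cexp ((2 * Real.pi * m * (r * Real.cos θ) / (1 : ℕ) : ℝ) * I) * (r : ℂ) ^ (s - 3 / 2)

theorem f1_m4_pr {r θ : ℝ} : pr r θ = pz (r * Real.cos θ) (r * Real.sin θ) := by
  unfold pr pz
  congr 1
  rw [Complex.exp_mul_I]
  push_cast
  ring

theorem f1_m4_T_pos (s : ℂ) {θ : ℝ} {n : ℕ} (hn : 0 < n) {r : ℝ} (hr : 0 < r) :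
    f1_m4_T ν ε a s θ (n : ℤ) r = a n * ((√(n : ℝ) : ℝ) : ℂ)⁻¹ *
      (f1_m4_U (ν + 1 / 2) s θ (2 * Real.pi * n) 1 r +
        f1_m4_U (ν - 1 / 2) s θ (2 * Real.pi * n) 1 r) := by
  have hnr : (0 : ℝ) < n := by exact_mod_cast hn
  rw [← f1_m4_KK (ν + 1 / 2) s 1 hr, ← f1_m4_KK (ν - 1 / 2) s 1 hr]
  unfold f1_m4_T
  have hcf : cf1 ν ε a (n : ℤ) = a n * ((√(n : ℝ) : ℝ) : ℂ)⁻¹ := by
    unfold cf1
    rw [if_neg (by omega), if_neg (by omega), Int.natAbs_natCast]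
    ring
  have hW : ∀ x : ℝ, Wz ν (n : ℤ) x = x * (KK (ν + 1 / 2) x + KK (ν - 1 / 2) x) := by
    intro x
    unfold Wz
    rw [if_pos (by omega)]
    rfl
  have habs : |((n : ℤ) : ℝ)| = n := by push_cast; exact abs_of_pos hnr
  rw [hcf, hW, habs, Nat.cast_one, div_one, div_one, one_mul]
  have e : 2 * Real.pi * ((n : ℤ) : ℝ) * (r * Real.cos θ) =
      2 * Real.pi * (n : ℝ) * (r * Real.cos θ) := by push_cast; ring
  rw [e]
  ring

theorem f1_m4_T_neg (s : ℂ) {θ : ℝ} (hθ : θ ∈ Ioo 0 Real.pi) {n : ℕ} (hn : 0 < n) {r : ℝ}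
    (hr : 0 < r) :
    f1_m4_T ν ε a s θ (-(n : ℤ)) r = ε * a n * ((√(n : ℝ) : ℝ) : ℂ)⁻¹ *
      (f1_m4_U (ν + 1 / 2) s θ (2 * Real.pi * n) (-1) r -
        f1_m4_U (ν - 1 / 2) s θ (2 * Real.pi * n) (-1) r) := by
  have hnr : (0 : ℝ) < n := by exact_mod_cast hn
  have hsin : 0 < Real.sin θ := Real.sin_pos_of_mem_Ioo hθ
  rw [← f1_m4_KK (ν + 1 / 2) s (-1) hr, ← f1_m4_KK (ν - 1 / 2) s (-1) hr]
  unfold f1_m4_T
  have hcf : cf1 ν ε a (-(n : ℤ)) = (ε * ν) * a n * ((√(n : ℝ) : ℝ) : ℂ)⁻¹ := by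
    unfold cf1
    rw [if_neg (by omega), if_pos (by omega), Int.natAbs_neg, Int.natAbs_natCast]
  have hW : Wz ν (-(n : ℤ)) = Vm ν := by
    funext x
    unfold Wz
    rw [if_neg (by omega)]
  have habs : |((-(n : ℤ) : ℤ) : ℝ)| = n := by push_cast; rw [abs_neg]; exact abs_of_pos hnr
  have hx : 0 < 2 * Real.pi * (n : ℝ) * (r * Real.sin θ) := by positivity
  have hV := (Vm_eq ν hx).2
  rw [hcf, hW, habs, Nat.cast_one, div_one, div_one]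
  have e : 2 * Real.pi * ((-(n : ℤ) : ℤ) : ℝ) * (r * Real.cos θ) =
      -1 * (2 * Real.pi * (n : ℝ)) * (r * Real.cos θ) := by push_cast; ring
  rw [e]
  have h1 : ∀ (c d w v p : ℂ), ε * c * w * v * d * p = ε * c * w * ((v * d) * p) := by
    intro c d w v p; ring
  calc (ε * ν) * a n * ((√(n : ℝ) : ℝ) : ℂ)⁻¹ * Vm ν (2 * Real.pi * (n : ℝ) * (r * Real.sin θ)) *
        cexp ((-1 * (2 * Real.pi * (n : ℝ)) * (r * Real.cos θ) : ℝ) * I) *
        (r : ℂ) ^ (s - 3 / 2) = ε * a n * ((√(n : ℝ) : ℝ) : ℂ)⁻¹ *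
          ((ν * Vm ν (2 * Real.pi * (n : ℝ) * (r * Real.sin θ))) *
        cexp ((-1 * (2 * Real.pi * (n : ℝ)) * (r * Real.cos θ) : ℝ) * I) *
        (r : ℂ) ^ (s - 3 / 2)) := by ring
    _ = _ := by
        rw [hV]
        ring

/-- the values -/
noncomputable def f1_m4_G (μ s : ℂ) (θ τ : ℝ) : ℂ :=
  ((2 * Real.pi : ℝ) : ℂ) ^ (1 / 2 - s) * Gamma (s + 1 / 2) * Complex.sin θ * (1 / 2) *
    ∫ u : ℝ, cexp (μ * u) * f1_m4_A θ τ u ^ (-(s + 1 / 2))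

theorem f1_m4_const {s : ℂ} {θ : ℝ} {n : ℕ} (hn : 0 < n) (x J : ℂ) :
    (x * ((√(n : ℝ) : ℝ) : ℂ)⁻¹) * (((2 * Real.pi * (n : ℝ) * Real.sin θ : ℝ) : ℂ) * (1 / 2) *
      (Gamma (s + 1 / 2) * ((2 * Real.pi * (n : ℝ) : ℝ) : ℂ) ^ (-(s + 1 / 2)) * J)) =
    x / (n : ℂ) ^ s * (((2 * Real.pi : ℝ) : ℂ) ^ (1 / 2 - s) * Gamma (s + 1 / 2) *
      Complex.sin θ * (1 / 2) * J) := by
  have hnr : (0 : ℝ) < n := by exact_mod_cast hn
  have h2pi : (0 : ℝ) < 2 * Real.pi := by positivity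
  have h2pc : ((2 * Real.pi : ℝ) : ℂ) ≠ 0 := Complex.ofReal_ne_zero.mpr h2pi.ne'
  have hnc : ((n : ℝ) : ℂ) ≠ 0 := Complex.ofReal_ne_zero.mpr hnr.ne'
  have hsn : ((√(n : ℝ) : ℝ) : ℂ) ≠ 0 :=
    Complex.ofReal_ne_zero.mpr (Real.sqrt_pos.mpr hnr).ne'
  have e2 : ((2 * Real.pi * (n : ℝ) : ℝ) : ℂ) ^ (-(s + 1 / 2)) =
      ((2 * Real.pi : ℝ) : ℂ) ^ (-(s + 1 / 2)) * (((n : ℝ) : ℂ) ^ s)⁻¹ *
        ((√(n : ℝ) : ℝ) : ℂ)⁻¹ := by
    rw [Complex.ofReal_mul, Complex.mul_cpow_ofReal_nonneg h2pi.le hnr.le, neg_add,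
      Complex.cpow_add _ _ hnc, Complex.cpow_neg (((n : ℝ)) : ℂ) s,
      Complex.cpow_neg (((n : ℝ)) : ℂ) (1 / 2), Real.sqrt_eq_rpow, Complex.ofReal_cpow hnr.le]
    norm_num
    ring
  have e4 : ((2 * Real.pi : ℝ) : ℂ) ^ (1 / 2 - s) =
      ((2 * Real.pi : ℝ) : ℂ) * ((2 * Real.pi : ℝ) : ℂ) ^ (-(s + 1 / 2)) := by
    have h1 : (1 / 2 - s) = 1 + (-(s + 1 / 2)) := by ring
    rw [h1, Complex.cpow_add _ _ h2pc, Complex.cpow_one]
  have e5 : ((√(n : ℝ) : ℝ) : ℂ) * ((√(n : ℝ) : ℝ) : ℂ) = ((n : ℝ) : ℂ) := by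
    rw [← Complex.ofReal_mul, Real.mul_self_sqrt hnr.le]
  rw [e2, e4, ← Complex.ofReal_sin]
  have e6 : (((n : ℝ) : ℂ)) = (n : ℂ) := by push_cast; rfl
  rw [← e6]
  have hns : ((n : ℝ) : ℂ) ^ s ≠ 0 := by
    rw [Ne, Complex.cpow_eq_zero_iff]
    tauto
  have e7 : ((2 * Real.pi * (n : ℝ) * Real.sin θ : ℝ) : ℂ) =
      ((2 * Real.pi : ℝ) : ℂ) * (((√(n : ℝ) : ℝ) : ℂ) * ((√(n : ℝ) : ℝ) : ℂ)) *
        ((Real.sin θ : ℝ) : ℂ) := by
    rw [e5]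
    push_cast
    ring
  rw [e7]
  generalize ((√(n : ℝ) : ℝ) : ℂ) = w at hsn ⊢
  generalize ((n : ℝ) : ℂ) ^ s = p at hns ⊢
  generalize ((2 * Real.pi : ℝ) : ℂ) ^ (-(s + 1 / 2)) = q
  field_simp

theorem f1_m4_re (hν : ν.re = 0) {s : ℂ} (hs : 0 < s.re) :
    |(ν + 1 / 2).re| < s.re + 1 / 2 ∧ |(ν - 1 / 2).re| < s.re + 1 / 2 := by
  have e1 : (ν + 1 / 2).re = 1 / 2 := by
    rw [Complex.add_re, hν]; norm_num
  have e2 : (ν - 1 / 2).re = -(1 / 2) := by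
    rw [Complex.sub_re, hν]; norm_num
  rw [e1, e2, abs_neg, abs_of_pos (by norm_num)]
  constructor <;> linarith

theorem f1_m4_zero (s : ℂ) (θ r : ℝ) : f1_m4_T ν ε a s θ 0 r = 0 := by
  unfold f1_m4_T cf1
  rw [if_pos rfl]
  ring

theorem f1_m4_intT {s : ℂ} (hν : ν.re = 0) (hs : 0 < s.re) {θ : ℝ} (hθ : θ ∈ Ioo 0 Real.pi)
    (m : ℤ) : IntegrableOn (f1_m4_T ν ε a s θ m) (Ioi 0) := by
  obtain ⟨r1, r2⟩ := f1_m4_re hν hs
  by_cases hm : m = 0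
  · have : EqOn (f1_m4_T ν ε a s θ m) (fun _ => 0) (Ioi 0) := by
      intro r _
      rw [hm]
      exact f1_m4_zero s θ r
    rw [integrableOn_congr_fun this measurableSet_Ioi]
    exact integrableOn_zero
  · obtain ⟨n, rfl | rfl⟩ := m.eq_nat_or_neg
    · have hn : 0 < n := by omega
      have hκ : 0 < 2 * Real.pi * (n : ℝ) := by
        have : (0 : ℝ) < n := by exact_mod_cast hn
        positivity
      have e : EqOn (f1_m4_T ν ε a s θ (n : ℤ)) (fun r => a n * ((√(n : ℝ) : ℝ) : ℂ)⁻¹ *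
          (f1_m4_U (ν + 1 / 2) s θ (2 * Real.pi * n) 1 r +
            f1_m4_U (ν - 1 / 2) s θ (2 * Real.pi * n) 1 r)) (Ioi 0) :=
        fun r hr => f1_m4_T_pos s hn hr
      rw [integrableOn_congr_fun e measurableSet_Ioi]
      exact ((f1_m4_U_int r1 hθ hκ 1).add (f1_m4_U_int r2 hθ hκ 1)).const_mul _
    · have hn : 0 < n := by omega
      have hκ : 0 < 2 * Real.pi * (n : ℝ) := by
        have : (0 : ℝ) < n := by exact_mod_cast hn
        positivity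
      have e : EqOn (f1_m4_T ν ε a s θ (-(n : ℤ))) (fun r => ε * a n *
          ((√(n : ℝ) : ℝ) : ℂ)⁻¹ * (f1_m4_U (ν + 1 / 2) s θ (2 * Real.pi * n) (-1) r -
            f1_m4_U (ν - 1 / 2) s θ (2 * Real.pi * n) (-1) r)) (Ioi 0) :=
        fun r hr => f1_m4_T_neg s hθ hn hr
      rw [integrableOn_congr_fun e measurableSet_Ioi]
      exact ((f1_m4_U_int r1 hθ hκ (-1)).sub (f1_m4_U_int r2 hθ hκ (-1))).const_mul _

theorem f1_m4_bound {s : ℂ} (hν : ν.re = 0) (hs : 0 < s.re) {θ : ℝ} (hθ : θ ∈ Ioo 0 Real.pi)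
    {n : ℕ} (hn : 0 < n) (τ : ℝ) {g : ℝ → ℂ} {c : ℝ} (hc : c = ‖a n‖)
    (hg : ∀ r : ℝ, 0 < r → ‖g r‖ ≤ c * (√(n : ℝ))⁻¹ *
      (‖f1_m4_U (ν + 1 / 2) s θ (2 * Real.pi * n) τ r‖ +
        ‖f1_m4_U (ν - 1 / 2) s θ (2 * Real.pi * n) τ r‖)) :
    ∫ r in Ioi (0 : ℝ), ‖g r‖ ≤ ((2 * Real.pi) ^ (1 / 2 - s.re) * Real.sin θ * (1 / 2) *
      (f1_m4_D (ν + 1 / 2) (s + 1 / 2) θ + f1_m4_D (ν - 1 / 2) (s + 1 / 2) θ)) *
        ‖LSeries.term a s n‖ := by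
  obtain ⟨r1, r2⟩ := f1_m4_re hν hs
  have hnr : (0 : ℝ) < n := by exact_mod_cast hn
  have hκ : 0 < 2 * Real.pi * (n : ℝ) := by positivity
  have i1 := (f1_m4_U_int r1 hθ hκ τ).norm
  have i2 := (f1_m4_U_int r2 hθ hκ τ).norm
  have h1 : ∫ r in Ioi (0 : ℝ), ‖g r‖ ≤ ∫ r in Ioi (0 : ℝ), c * (√(n : ℝ))⁻¹ *
      (‖f1_m4_U (ν + 1 / 2) s θ (2 * Real.pi * n) τ r‖ +
        ‖f1_m4_U (ν - 1 / 2) s θ (2 * Real.pi * n) τ r‖) := by
    refine integral_mono_of_nonneg (ae_of_all _ fun r => norm_nonneg _) ((i1.add i2).const_mul _) ?_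
    exact (ae_restrict_iff' measurableSet_Ioi).2 (Eventually.of_forall fun r hr => hg r hr)
  refine h1.trans ?_
  rw [integral_const_mul, integral_add i1 i2]
  have u1 := f1_m4_U_norm r1 hθ hκ τ
  have u2 := f1_m4_U_norm r2 hθ hκ τ
  have hc0 : 0 ≤ c := by rw [hc]; exact norm_nonneg _
  refine (mul_le_mul_of_nonneg_left (add_le_add u1 u2) (by positivity)).trans (le_of_eq ?_)
  rw [LSeries.norm_term_eq, if_neg hn.ne', ← hc]
  have e2 : (2 * Real.pi * (n : ℝ)) ^ (-(s.re + 1 / 2)) =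
      (2 * Real.pi) ^ (-(s.re + 1 / 2)) * ((n : ℝ) ^ s.re)⁻¹ * (√(n : ℝ))⁻¹ := by
    rw [Real.mul_rpow (by positivity) hnr.le, Real.rpow_neg hnr.le, Real.rpow_add hnr, mul_inv,
      ← Real.sqrt_eq_rpow]
    ring
  have e4 : (2 * Real.pi : ℝ) ^ (1 / 2 - s.re) = (2 * Real.pi) * (2 * Real.pi) ^ (-(s.re + 1 / 2)) := by
    have h3 : (1 / 2 - s.re) = 1 + (-(s.re + 1 / 2)) := by ring
    rw [h3, Real.rpow_add (by positivity), Real.rpow_one]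
  have e5 : √(n : ℝ) * √(n : ℝ) = n := Real.mul_self_sqrt hnr.le
  have hsq : √(n : ℝ) ≠ 0 := (Real.sqrt_pos.mpr hnr).ne'
  have hps : (n : ℝ) ^ s.re ≠ 0 := (Real.rpow_pos_of_pos hnr _).ne'
  rw [e2, e4]
  have e6 : 2 * Real.pi * (n : ℝ) = 2 * Real.pi * (√(n : ℝ) * √(n : ℝ)) := by rw [e5]
  rw [e6]
  generalize (2 * Real.pi) ^ (-(s.re + 1 / 2)) = q
  generalize (n : ℝ) ^ s.re = p at hps ⊢
  generalize √(n : ℝ) = w at hsq ⊢
  field_simp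

theorem f1_m4_normT {s : ℂ} (hν : ν.re = 0) (hε : ε = 1 ∨ ε = -1) (hs : 0 < s.re) {θ : ℝ}
    (hθ : θ ∈ Ioo 0 Real.pi) (m : ℤ) :
    ∫ r in Ioi (0 : ℝ), ‖f1_m4_T ν ε a s θ m r‖ ≤
      ((2 * Real.pi) ^ (1 / 2 - s.re) * Real.sin θ * (1 / 2) *
      (f1_m4_D (ν + 1 / 2) (s + 1 / 2) θ + f1_m4_D (ν - 1 / 2) (s + 1 / 2) θ)) *
        ‖LSeries.term a s m.natAbs‖ := by
  by_cases hm : m = 0
  · have : EqOn (fun r => ‖f1_m4_T ν ε a s θ m r‖) (fun _ => 0) (Ioi 0) := by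
      intro r _
      simp only
      rw [hm, f1_m4_zero, norm_zero]
    rw [setIntegral_congr_fun measurableSet_Ioi this, hm]
    simp
  · have hεn : ‖(ε : ℂ)‖ = 1 := by rcases hε with rfl | rfl <;> simp
    obtain ⟨n, rfl | rfl⟩ := m.eq_nat_or_neg
    · have hn : 0 < n := by omega
      rw [Int.natAbs_natCast]
      refine f1_m4_bound hν hs hθ hn 1 rfl fun r hr => ?_
      rw [f1_m4_T_pos s hn hr, norm_mul, norm_mul, norm_inv, Complex.norm_real,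
        Real.norm_of_nonneg (Real.sqrt_nonneg _)]
      exact mul_le_mul_of_nonneg_left (norm_add_le _ _) (by positivity)
    · have hn : 0 < n := by omega
      rw [Int.natAbs_neg, Int.natAbs_natCast]
      refine f1_m4_bound hν hs hθ hn (-1) rfl fun r hr => ?_
      rw [f1_m4_T_neg s hθ hn hr, norm_mul, norm_mul, norm_mul, hεn, one_mul, norm_inv,
        Complex.norm_real, Real.norm_of_nonneg (Real.sqrt_nonneg _)]
      exact mul_le_mul_of_nonneg_left (norm_sub_le _ _) (by positivity)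

theorem f1_m4_valT {s : ℂ} (hν : ν.re = 0) (hs : 0 < s.re) {θ : ℝ} (hθ : θ ∈ Ioo 0 Real.pi)
    {n : ℕ} (hn : 0 < n) :
    ∫ r in Ioi (0 : ℝ), f1_m4_T ν ε a s θ (n : ℤ) r = LSeries.term a s n *
      (f1_m4_G (ν + 1 / 2) s θ 1 + f1_m4_G (ν - 1 / 2) s θ 1) ∧
    ∫ r in Ioi (0 : ℝ), f1_m4_T ν ε a s θ (-(n : ℤ)) r =
      LSeries.term a s n * (ε * (f1_m4_G (ν + 1 / 2) s θ (-1) - f1_m4_G (ν - 1 / 2) s θ (-1))) := by
  obtain ⟨r1, r2⟩ := f1_m4_re hν hs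
  have hnr : (0 : ℝ) < n := by exact_mod_cast hn
  have hκ : 0 < 2 * Real.pi * (n : ℝ) := by positivity
  constructor
  · rw [setIntegral_congr_fun measurableSet_Ioi (fun r hr => f1_m4_T_pos s hn hr),
      integral_const_mul, integral_add (f1_m4_U_int r1 hθ hκ 1) (f1_m4_U_int r2 hθ hκ 1),
      f1_m4_U_val r1 hθ hκ 1, f1_m4_U_val r2 hθ hκ 1, mul_add, f1_m4_const hn, f1_m4_const hn,
      LSeries.term_of_ne_zero hn.ne']
    unfold f1_m4_G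
    ring
  · rw [setIntegral_congr_fun measurableSet_Ioi (fun r hr => f1_m4_T_neg s hθ hn hr),
      integral_const_mul, integral_sub (f1_m4_U_int r1 hθ hκ (-1)) (f1_m4_U_int r2 hθ hκ (-1)),
      f1_m4_U_val r1 hθ hκ (-1), f1_m4_U_val r2 hθ hκ (-1), mul_sub, f1_m4_const hn,
      f1_m4_const hn, LSeries.term_of_ne_zero hn.ne']
    unfold f1_m4_G
    ring

theorem f1_m4_cosh_exp (u : ℝ) :
    ((Real.cosh (u / 2) : ℝ) : ℂ) = (cexp ((1 / 2 : ℂ) * u) + cexp (-(1 / 2 : ℂ) * u)) / 2 ∧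
    ((Real.sinh (u / 2) : ℝ) : ℂ) = (cexp ((1 / 2 : ℂ) * u) - cexp (-(1 / 2 : ℂ) * u)) / 2 := by
  have e1 : cexp ((1 / 2 : ℂ) * u) = ((Real.exp (u / 2) : ℝ) : ℂ) := by
    push_cast
    congr 1
    ring
  have e2 : cexp (-(1 / 2 : ℂ) * u) = ((Real.exp (-(u / 2)) : ℝ) : ℂ) := by
    push_cast
    congr 1
    ring
  rw [e1, e2, Real.cosh_eq, Real.sinh_eq]
  push_cast
  exact ⟨rfl, rfl⟩

theorem f1_m4_AJ {μ s : ℂ} (hs : |μ.re| < s.re + 1 / 2) {θ : ℝ} (hθ : θ ∈ Ioo 0 Real.pi)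
    (τ : ℝ) : Integrable (fun u : ℝ => cexp (μ * u) * f1_m4_A θ τ u ^ (-(s + 1 / 2))) := by
  have hs' : |μ.re| < (s + 1 / 2).re := by
    rw [Complex.add_re]
    norm_num
    linarith
  have hs0 : 0 < (s + 1 / 2).re := lt_of_le_of_lt (abs_nonneg _) hs'
  have hi := (f1_m4_prod_int hs' hθ (κ := 1) one_pos τ).integral_prod_right
  have e : (fun u : ℝ => ∫ r in Ioi (0 : ℝ), f1_m4_Phi μ (s + 1 / 2) θ 1 τ r u) = fun u : ℝ =>
      Gamma (s + 1 / 2) * (cexp (μ * u) * f1_m4_A θ τ u ^ (-(s + 1 / 2))) := by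
    funext u
    have hA := f1_m4_A_pos hθ τ u
    have hκA : 0 < (((1 : ℝ) : ℂ) * f1_m4_A θ τ u).re := by
      rw [Complex.re_ofReal_mul, one_mul]
      exact hA
    have h1 : ∫ r in Ioi (0 : ℝ), f1_m4_Phi μ (s + 1 / 2) θ 1 τ r u =
        (∫ r : ℝ in Set.Ioi 0, (r : ℂ) ^ (s + 1 / 2 - 1) *
          cexp (-((((1 : ℝ) : ℂ) * f1_m4_A θ τ u) * r))) * cexp (μ * u) := by
      rw [← integral_mul_const]
      rfl
    rw [h1, H4.gg_integral hs0 hκA, one_div, Complex.inv_cpow, ← Complex.cpow_neg,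
      Complex.ofReal_one, one_mul]
    · ring
    · intro harg
      have h2 : (((1 : ℝ) : ℂ) * f1_m4_A θ τ u) ∈ Complex.slitPlane := Or.inl hκA
      exact (Complex.mem_slitPlane_iff_arg.mp h2).1 harg
  have hi' : Integrable (fun u : ℝ => ∫ r in Ioi (0 : ℝ), f1_m4_Phi μ (s + 1 / 2) θ 1 τ r u) := hi
  rw [e] at hi'
  have hG : Gamma (s + 1 / 2) ≠ 0 := Complex.Gamma_ne_zero_of_re_pos hs0
  refine (hi'.const_mul (Gamma (s + 1 / 2))⁻¹).congr (ae_of_all _ fun u => ?_)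
  simp only
  rw [← mul_assoc, inv_mul_cancel₀ hG, one_mul]

theorem f1_m4_Gs {s : ℂ} (hν : ν.re = 0) (hs : 0 < s.re) {θ : ℝ} (hθ : θ ∈ Ioo 0 Real.pi) :
    (f1_m4_G (ν + 1 / 2) s θ 1 + f1_m4_G (ν - 1 / 2) s θ 1) +
      ε * (f1_m4_G (ν + 1 / 2) s θ (-1) - f1_m4_G (ν - 1 / 2) s θ (-1)) = G1 ν ε s θ := by
  obtain ⟨r1, r2⟩ := f1_m4_re hν hs
  have j1 := f1_m4_AJ r1 hθ 1
  have j2 := f1_m4_AJ r2 hθ 1
  have j3 := f1_m4_AJ r1 hθ (-1)
  have j4 := f1_m4_AJ r2 hθ (-1)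
  have e : ∫ u : ℝ, g1i ν ε s θ u = (1 / 2) *
      (((∫ u : ℝ, cexp ((ν + 1 / 2) * u) * f1_m4_A θ 1 u ^ (-(s + 1 / 2))) +
        ∫ u : ℝ, cexp ((ν - 1 / 2) * u) * f1_m4_A θ 1 u ^ (-(s + 1 / 2))) +
      ε * ((∫ u : ℝ, cexp ((ν + 1 / 2) * u) * f1_m4_A θ (-1) u ^ (-(s + 1 / 2))) -
        ∫ u : ℝ, cexp ((ν - 1 / 2) * u) * f1_m4_A θ (-1) u ^ (-(s + 1 / 2)))) := by
    have k1 : Integrable (fun u : ℝ => cexp ((ν + 1 / 2) * u) * f1_m4_A θ 1 u ^ (-(s + 1 / 2)) +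
        cexp ((ν - 1 / 2) * u) * f1_m4_A θ 1 u ^ (-(s + 1 / 2))) := j1.add j2
    have k2 : Integrable (fun u : ℝ => (ε : ℂ) * (cexp ((ν + 1 / 2) * u) *
        f1_m4_A θ (-1) u ^ (-(s + 1 / 2)) -
        cexp ((ν - 1 / 2) * u) * f1_m4_A θ (-1) u ^ (-(s + 1 / 2)))) := (j3.sub j4).const_mul _
    rw [← integral_add j1 j2, ← integral_sub j3 j4, ← integral_const_mul,
      ← integral_add k1 k2, ← integral_const_mul]
    congr 1
    funext u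
    unfold g1i f1_m4_A
    rw [(f1_m4_cosh_exp u).1, (f1_m4_cosh_exp u).2]
    have e1 : -s - 1 / 2 = -(s + 1 / 2) := by ring
    have e2 : cexp ((ν + 1 / 2) * u) = cexp (ν * u) * cexp ((1 / 2 : ℂ) * u) := by
      rw [← Complex.exp_add]; congr 1; ring
    have e3 : cexp ((ν - 1 / 2) * u) = cexp (ν * u) * cexp (-(1 / 2 : ℂ) * u) := by
      rw [← Complex.exp_add]; congr 1; ring
    have e4 : Complex.sin θ * ((Real.cosh u : ℝ) : ℂ) - ((1 : ℝ) : ℂ) * (I * Complex.cos θ) =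
        Complex.sin θ * ((Real.cosh u : ℝ) : ℂ) - I * Complex.cos θ := by
      push_cast; ring
    have e5 : Complex.sin θ * ((Real.cosh u : ℝ) : ℂ) - ((-1 : ℝ) : ℂ) * (I * Complex.cos θ) =
        Complex.sin θ * ((Real.cosh u : ℝ) : ℂ) + I * Complex.cos θ := by
      push_cast; ring
    rw [e1, e2, e3, e4, e5]
    ring
  unfold G1
  rw [e]
  unfold f1_m4_G
  ring

/-- M4: the ray transform for `Re s > 1` -/
theorem Mf1_eq_pr (F : Frame1 ν ε a f) {s : ℂ} (hs : 1 < s.re) {θ : ℝ} (hθ : θ ∈ Ioo 0 Real.pi) :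
    Mf f s θ = LSeries a s * G1 ν ε s θ := by
  have hν := F.nu
  have hs0 : 0 < s.re := by linarith
  have hsum := lsummable1 F hs
  have hsin : 0 < Real.sin θ := Real.sin_pos_of_mem_Ioo hθ
  have hn : Summable (fun n : ℕ => ‖LSeries.term a s n‖) := hsum.norm
  have hnZ : Summable (fun m : ℤ => ‖LSeries.term a s m.natAbs‖) := by
    rw [summable_int_iff_summable_nat_and_neg]
    constructor
    · simpa using hn
    · simpa using hn
  have hS : Summable (fun m : ℤ => ∫ r in Ioi (0 : ℝ), ‖f1_m4_T ν ε a s θ m r‖) :=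
    Summable.of_nonneg_of_le (fun m => integral_nonneg fun r => norm_nonneg _)
      (fun m => f1_m4_normT hν F.eps hs0 hθ m) (hnZ.mul_left _)
  have h1 := hasSum_integral_of_summable_integral_norm
    (fun m : ℤ => f1_m4_intT (ε := ε) (a := a) hν hs0 hθ m) hS
  -- the sum of the terms
  have h2 : ∫ r in Ioi (0 : ℝ), ∑' m : ℤ, f1_m4_T ν ε a s θ m r = Mf f s θ := by
    unfold Mf
    refine setIntegral_congr_fun measurableSet_Ioi fun r hr => ?_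
    have hr' : 0 < r := hr
    have h3 := (F.expn.hasSum (r * Real.cos θ) (r * Real.sin θ) (by positivity)).mul_right
      ((r : ℂ) ^ (s - 3 / 2))
    rw [f1_m4_pr]
    exact h3.tsum_eq
  rw [h2] at h1
  -- the values
  have hT : HasSum (LSeries.term a s) (LSeries a s) := hsum.hasSum
  have hZ : HasSum (fun m : ℤ => ∫ r in Ioi (0 : ℝ), f1_m4_T ν ε a s θ m r)
      (LSeries a s * (f1_m4_G (ν + 1 / 2) s θ 1 + f1_m4_G (ν - 1 / 2) s θ 1) +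
        LSeries a s * (ε * (f1_m4_G (ν + 1 / 2) s θ (-1) - f1_m4_G (ν - 1 / 2) s θ (-1)))) := by
    refine HasSum.of_nat_of_neg_add_one ?_ ?_
    · have e : (fun n : ℕ => ∫ r in Ioi (0 : ℝ), f1_m4_T ν ε a s θ (n : ℤ) r) =
          fun n : ℕ => LSeries.term a s n *
            (f1_m4_G (ν + 1 / 2) s θ 1 + f1_m4_G (ν - 1 / 2) s θ 1) := by
        funext n
        rcases Nat.eq_zero_or_pos n with rfl | hn0
        · have h0 : EqOn (f1_m4_T ν ε a s θ ((0 : ℕ) : ℤ)) (fun _ => 0) (Ioi 0) := by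
            intro r _
            exact f1_m4_zero s θ r
          rw [setIntegral_congr_fun measurableSet_Ioi h0]
          simp
        · exact (f1_m4_valT (ε := ε) (a := a) hν hs0 hθ hn0).1
      rw [e]
      exact hT.mul_right _
    · have e : (fun n : ℕ => ∫ r in Ioi (0 : ℝ), f1_m4_T ν ε a s θ (-((n : ℤ) + 1)) r) =
          fun n : ℕ => LSeries.term a s (n + 1) *
            (ε * (f1_m4_G (ν + 1 / 2) s θ (-1) - f1_m4_G (ν - 1 / 2) s θ (-1))) := by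
        funext n
        have h3 := (f1_m4_valT (ε := ε) (a := a) hν hs0 hθ (Nat.succ_pos n)).2
        have h4 : (-(((n.succ : ℕ)) : ℤ)) = -((n : ℤ) + 1) := by push_cast; rfl
        rw [h4] at h3
        exact h3
      rw [e]
      refine HasSum.mul_right _ ?_
      rw [hasSum_nat_add_iff (f := LSeries.term a s) 1, Finset.sum_range_one, LSeries.term_zero,
        add_zero]
      exact hT
  rw [h1.unique hZ, ← f1_m4_Gs hν hs0 hθ]
  ring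


end

end Pool.Agent.JO.FM1

namespace Pool.Agent.JO.FM1

theorem Mf1_eq : type_of% @Mf1_eq_pr := @Mf1_eq_pr

end Pool.Agent.JO.FM1
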