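import Pool.Agent.Lib_helper42.JO1.Defs
import Pool.Agent.Lib_helper45.JO.Defs2

/-!
-/

set_option autoImplicit false

namespace Pool.Agent.JO.FM1

open Complex Filter Topology MeasureTheory Set Asymptotics
open UpperHalfPlane hiding I
open Pool.Agent.JO.FM
open scoped MatrixGroups ComplexConjugate

/-! ## points on rays -/

/-- the point `r e^{iθ}` as a complex number -/
noncomputable def f1_M5_w (r θ : ℝ) : ℂ := (r : ℂ) * cexp (θ * I)

theorem f1_M5_w_re (r θ : ℝ) : (f1_M5_w r θ).re = r * Real.cos θ := by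
  unfold f1_M5_w
  rw [Complex.re_ofReal_mul, Complex.exp_ofReal_mul_I_re]

theorem f1_M5_w_im (r θ : ℝ) : (f1_M5_w r θ).im = r * Real.sin θ := by
  unfold f1_M5_w
  rw [Complex.im_ofReal_mul, Complex.exp_ofReal_mul_I_im]

theorem f1_M5_w_pos {r θ : ℝ} (hr : 0 < r) (hθ : θ ∈ Ioo 0 Real.pi) : 0 < (f1_M5_w r θ).im := by
  rw [f1_M5_w_im]
  exact mul_pos hr (Real.sin_pos_of_mem_Ioo hθ)

theorem f1_M5_w_norm {r : ℝ} (θ : ℝ) (hr : 0 < r) : ‖f1_M5_w r θ‖ = r := by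
  unfold f1_M5_w
  rw [norm_mul, Complex.norm_exp_ofReal_mul_I, mul_one, Complex.norm_real, Real.norm_eq_abs,
    abs_of_pos hr]

theorem f1_M5_pr_coe {r θ : ℝ} (hr : 0 < r) (hθ : θ ∈ Ioo 0 Real.pi) :
    ((pr r θ : ℍ) : ℂ) = f1_M5_w r θ := by
  unfold pr
  have h : 0 < ((r : ℂ) * cexp (θ * I)).im := f1_M5_w_pos hr hθ
  rw [ofComplex_apply_of_im_pos h]
  rfl

theorem f1_M5_pr_re {r θ : ℝ} (hr : 0 < r) (hθ : θ ∈ Ioo 0 Real.pi) :
    (pr r θ).re = r * Real.cos θ := by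
  have h : ((pr r θ : ℍ) : ℂ).re = r * Real.cos θ := by
    rw [f1_M5_pr_coe hr hθ, f1_M5_w_re]
  exact h

theorem f1_M5_pr_im {r θ : ℝ} (hr : 0 < r) (hθ : θ ∈ Ioo 0 Real.pi) :
    (pr r θ).im = r * Real.sin θ := by
  have h : ((pr r θ : ℍ) : ℂ).im = r * Real.sin θ := by
    rw [f1_M5_pr_coe hr hθ, f1_M5_w_im]
  exact h

theorem f1_M5_pr_normSq {r θ : ℝ} (hr : 0 < r) (hθ : θ ∈ Ioo 0 Real.pi) :
    normSq ((pr r θ : ℍ) : ℂ) = r ^ 2 := by
  rw [f1_M5_pr_coe hr hθ, Complex.normSq_eq_norm_sq, f1_M5_w_norm θ hr]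

/-! ## the function which bounds everything -/

/-- two-sided exponential decay -/
noncomputable def f1_M5_g (κ r : ℝ) : ℝ := Real.exp (-(κ * (r + r⁻¹)))

theorem f1_M5_min {x C κ r : ℝ} (hx : 0 ≤ x) (h1 : x ≤ C * Real.exp (-(κ * r)))
    (h2 : x ≤ C * Real.exp (-(κ * r⁻¹))) : x ≤ C * f1_M5_g (κ / 2) r := by
  have hC : 0 ≤ C := by
    by_contra hC
    have : C * Real.exp (-(κ * r)) < 0 := mul_neg_of_neg_of_pos (by linarith) (Real.exp_pos _)
    linarith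
  have h3 : x ^ 2 ≤ (C * f1_M5_g (κ / 2) r) ^ 2 := by
    have h4 : x * x ≤ (C * Real.exp (-(κ * r))) * (C * Real.exp (-(κ * r⁻¹))) :=
      mul_le_mul h1 h2 hx (by positivity)
    have h5 : (C * f1_M5_g (κ / 2) r) ^ 2 =
        (C * Real.exp (-(κ * r))) * (C * Real.exp (-(κ * r⁻¹))) := by
      unfold f1_M5_g
      have h6 : Real.exp (-(κ / 2 * (r + r⁻¹))) ^ 2 =
          Real.exp (-(κ * r)) * Real.exp (-(κ * r⁻¹)) := by
        rw [← Real.exp_add, ← Real.exp_nat_mul]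
        congr 1
        push_cast
        ring
      rw [mul_pow, h6]
      ring
    rw [h5, sq]
    exact h4
  exact (pow_le_pow_iff_left₀ hx (mul_nonneg hC (Real.exp_pos _).le) two_ne_zero).1 h3

theorem f1_M5_top {κ : ℝ} (hκ : 0 < κ) (a : ℝ) : f1_M5_g κ =O[atTop] (fun r : ℝ => r ^ (-a)) := by
  have h1 : f1_M5_g κ =O[atTop] (fun r : ℝ => Real.exp (-κ * r)) := by
    refine IsBigO.of_bound 1 ?_
    filter_upwards [eventually_gt_atTop (0 : ℝ)] with r hr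
    unfold f1_M5_g
    rw [Real.norm_of_nonneg (Real.exp_pos _).le, Real.norm_of_nonneg (Real.exp_pos _).le, one_mul]
    refine Real.exp_le_exp.2 ?_
    have : 0 < κ * r⁻¹ := by positivity
    nlinarith
  exact h1.trans (isLittleO_exp_neg_mul_rpow_atTop hκ _).isBigO

theorem f1_M5_bot {κ : ℝ} (hκ : 0 < κ) (b : ℝ) : f1_M5_g κ =O[𝓝[>] 0] (fun r : ℝ => r ^ (-b)) := by
  have h1 : f1_M5_g κ =O[𝓝[>] 0] (fun r : ℝ => Real.exp (-κ * r⁻¹)) := by
    refine IsBigO.of_bound 1 ?_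
    filter_upwards [self_mem_nhdsWithin] with r hr
    have hr' : (0 : ℝ) < r := hr
    unfold f1_M5_g
    rw [Real.norm_of_nonneg (Real.exp_pos _).le, Real.norm_of_nonneg (Real.exp_pos _).le, one_mul]
    refine Real.exp_le_exp.2 ?_
    have : 0 < κ * r := by positivity
    nlinarith
  have h2 : (fun r : ℝ => Real.exp (-κ * r⁻¹)) =O[𝓝[>] 0] (fun r : ℝ => r⁻¹ ^ b) :=
    ((isLittleO_exp_neg_mul_rpow_atTop hκ b).isBigO.comp_tendsto
      (tendsto_inv_nhdsGT_zero (𝕜 := ℝ)))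
  refine (h1.trans h2).trans (IsBigO.of_bound 1 ?_)
  filter_upwards [self_mem_nhdsWithin] with r hr
  have hr' : (0 : ℝ) < r := hr
  rw [one_mul, Real.inv_rpow hr'.le, Real.rpow_neg hr'.le]

theorem f1_M5_g_cont (κ : ℝ) : ContinuousOn (f1_M5_g κ) (Ioi 0) := by
  unfold f1_M5_g
  refine ContinuousOn.rexp (ContinuousOn.neg (ContinuousOn.mul continuousOn_const
    (continuousOn_id.add (continuousOn_id.inv₀ fun x hx => ?_))))
  exact (ne_of_gt hx)

theorem f1_M5_norm_g (κ r : ℝ) : ‖f1_M5_g κ r‖ = f1_M5_g κ r := Real.norm_of_nonneg (Real.exp_pos _).le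

/-- a continuous function with two-sided exponential decay has an entire Mellin transform -/
theorem f1_M5_mellin {h : ℝ → ℂ} {K κ : ℝ} (hκ : 0 < κ) (hc : ContinuousOn h (Ioi 0))
    (hb : ∀ r : ℝ, 0 < r → ‖h r‖ ≤ K * f1_M5_g κ r) (s : ℂ) :
    MellinConvergent h s ∧ DifferentiableAt ℂ (mellin h) s := by
  have hloc : LocallyIntegrableOn h (Ioi 0) := hc.locallyIntegrableOn measurableSet_Ioi
  have htop : h =O[atTop] (fun r : ℝ => r ^ (-(s.re + 1))) := by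
    refine IsBigO.trans ?_ (f1_M5_top hκ (s.re + 1))
    refine IsBigO.of_bound K ?_
    filter_upwards [eventually_gt_atTop (0 : ℝ)] with r hr
    rw [f1_M5_norm_g]
    exact hb r hr
  have hbot : h =O[𝓝[>] 0] (fun r : ℝ => r ^ (-(s.re - 1))) := by
    refine IsBigO.trans ?_ (f1_M5_bot hκ (s.re - 1))
    refine IsBigO.of_bound K ?_
    filter_upwards [self_mem_nhdsWithin] with r hr
    rw [f1_M5_norm_g]
    exact hb r hr
  exact ⟨mellinConvergent_of_isBigO_rpow hloc htop (by linarith) hbot (by linarith),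
    mellin_differentiableAt_of_isBigO_rpow hloc htop (by linarith) hbot (by linarith)⟩

/-- the shifted form used for `Mf` -/
theorem f1_M5_shift (h : ℝ → ℂ) (s : ℂ) :
    ∫ r in Ioi (0 : ℝ), h r * (r : ℂ) ^ (s - 3 / 2) = mellin h (s - 1 / 2) := by
  unfold mellin
  refine setIntegral_congr_fun measurableSet_Ioi fun r _ => ?_
  show h r * (r : ℂ) ^ (s - 3 / 2) = (r : ℂ) ^ (s - 1 / 2 - 1) • h r
  rw [smul_eq_mul, mul_comm]
  congr 2
  ring

theorem f1_M5_shift_int {h : ℝ → ℂ} {s : ℂ} (hc : MellinConvergent h (s - 1 / 2)) :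
    IntegrableOn (fun r : ℝ => h r * (r : ℂ) ^ (s - 3 / 2)) (Ioi 0) := by
  refine (integrableOn_congr_fun (fun r _ => ?_) measurableSet_Ioi).1 hc
  show (r : ℂ) ^ (s - 1 / 2 - 1) • h r = h r * (r : ℂ) ^ (s - 3 / 2)
  rw [smul_eq_mul, mul_comm]
  congr 2
  ring

theorem f1_M5_entire {h : ℝ → ℂ} {K κ : ℝ} (hκ : 0 < κ) (hc : ContinuousOn h (Ioi 0))
    (hb : ∀ r : ℝ, 0 < r → ‖h r‖ ≤ K * f1_M5_g κ r) :
    Differentiable ℂ (fun s : ℂ => ∫ r in Ioi (0 : ℝ), h r * (r : ℂ) ^ (s - 3 / 2)) := by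
  intro s
  have h1 : (fun s : ℂ => ∫ r in Ioi (0 : ℝ), h r * (r : ℂ) ^ (s - 3 / 2)) =
      fun s : ℂ => mellin h (s - 1 / 2) := funext fun s => f1_M5_shift h s
  rw [h1]
  have h2 : HasDerivAt (fun s : ℂ => s - 1 / 2) 1 s := (hasDerivAt_id s).sub_const _
  have h3 := (f1_M5_mellin hκ hc hb (s - 1 / 2)).2.hasDerivAt
  exact (HasDerivAt.comp s h3 h2).differentiableAt

/-! ## the block -/

theorem f1_M5_f_cont {f : ℍ → ℂ} (hf : Continuous f) {θ : ℝ}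
    (hθ : θ ∈ Ioo 0 Real.pi) : ContinuousOn (fun r : ℝ => f (pr r θ)) (Ioi 0) := by
  have h2 : Continuous (fun r : ℝ => f1_M5_w r θ) := by
    unfold f1_M5_w
    fun_prop
  intro r hr
  have h3 : ContinuousAt (fun z : ℂ => ofComplex z) (f1_M5_w r θ) :=
    (contMDiffAt_ofComplex (n := 0) (f1_M5_w_pos hr hθ)).continuousAt
  have h4 : ContinuousAt (fun r : ℝ => ofComplex (f1_M5_w r θ)) r :=
    ContinuousAt.comp (f := fun r : ℝ => f1_M5_w r θ) h3 h2.continuousAt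
  have h5 : ContinuousAt (fun r : ℝ => f (pr r θ)) r :=
    ContinuousAt.comp (f := fun r : ℝ => ofComplex (f1_M5_w r θ)) hf.continuousAt h4
  exact h5.continuousWithinAt

variable {ν : ℂ} {ε : ℝ} {a : ℕ → ℂ} {f : ℍ → ℂ} {L : ℂ → ℂ}

theorem f1_M5_f_bd (F : Frame1 ν ε a f) : ∃ C c : ℝ, 0 < c ∧ ∀ r θ : ℝ, 0 < r →
    θ ∈ Ioo 0 Real.pi → ‖f (pr r θ)‖ ≤ C * f1_M5_g (c * Real.sin θ) r := by
  obtain ⟨C, c, hc, h⟩ := F.dec
  refine ⟨C, c / 2, by positivity, fun r θ hr hθ => ?_⟩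
  obtain ⟨h1, h2⟩ := h (pr r θ)
  rw [f1_M5_pr_im hr hθ] at h1 h2
  rw [f1_M5_pr_normSq hr hθ] at h2
  have e1 : c / 2 * Real.sin θ = c * Real.sin θ / 2 := by ring
  rw [e1]
  refine f1_M5_min (norm_nonneg _) ?_ ?_
  · refine h1.trans_eq ?_
    congr 2
    ring
  · refine h2.trans_eq ?_
    have : r ≠ 0 := hr.ne'
    congr 2
    field_simp

/-- M5: everything converges -/
theorem Mf1_entire_pr (F : Frame1 ν ε a f) {θ : ℝ} (hθ : θ ∈ Ioo 0 Real.pi) :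
    Differentiable ℂ (fun s => Mf f s θ) := by
  obtain ⟨C, c, hc, hb⟩ := f1_M5_f_bd F
  have hs : 0 < Real.sin θ := Real.sin_pos_of_mem_Ioo hθ
  exact f1_M5_entire (mul_pos hc hs) (f1_M5_f_cont F.cont hθ) (fun r hr => hb r θ hr hθ)

end Pool.Agent.JO.FM1

namespace Pool.Agent.JO.FM1

theorem Mf1_entire : type_of% @Mf1_entire_pr := @Mf1_entire_pr

end Pool.Agent.JO.FM1
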