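import Pool.Agent.Lib_helper42.JO1.Defs
import Pool.Agent.Lib_helper45.JO.Defs2
import Pool.Agent.Lib_helper42.JO1F.M1
import Pool.Agent.Lib_helper42.JO1F.M2
import Pool.Agent.Lib_helper42.JO1F.M3
import Pool.Agent.Lib_helper42.JO1F.M4
import Pool.Agent.Lib_helper42.JO1F.M5

/-!
-/

set_option autoImplicit false

namespace Pool.Agent.JO.FM1

open Complex Filter Topology MeasureTheory Set
open UpperHalfPlane hiding I
open Pool.Agent.JO.FM
open scoped MatrixGroups ComplexConjugate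

section

variable {ν : ℂ} {ε : ℝ} {a : ℕ → ℂ} {f : ℍ → ℂ} {L : ℂ → ℂ}

theorem f1_m6_pow_ne {z w : ℂ} (hz : z ≠ 0) : z ^ w ≠ 0 := by
  rw [Ne, Complex.cpow_eq_zero_iff]
  tauto

theorem f1_m6_diff_pow {z : ℂ} (hz : z ≠ 0) {g : ℂ → ℂ} (hg : Differentiable ℂ g) :
    Differentiable ℂ (fun s => z ^ (g s)) := fun s =>
  (hg s).const_cpow (Or.inl hz)

theorem f1_m6_diff_inv_Gamma {g : ℂ → ℂ} (hg : Differentiable ℂ g) :
    Differentiable ℂ (fun s => (Gamma (g s))⁻¹) :=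
  Complex.differentiable_one_div_Gamma.comp hg

/-- the identity theorem on the half plane -/
theorem f1_m6_ident {c : ℝ} (hc : c < 1) {u v : ℂ → ℂ} (hu : DifferentiableOn ℂ u {s | c < s.re})
    (hv : DifferentiableOn ℂ v {s | c < s.re}) (h : ∀ s : ℂ, 1 < s.re → u s = v s) :
    ∀ s : ℂ, c < s.re → u s = v s := by
  have ho : IsOpen {s : ℂ | c < s.re} := isOpen_lt continuous_const Complex.continuous_re
  have hu' : AnalyticOnNhd ℂ u {s | c < s.re} := hu.analyticOnNhd ho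
  have hv' : AnalyticOnNhd ℂ v {s | c < s.re} := hv.analyticOnNhd ho
  have hpc : IsPreconnected {s : ℂ | c < s.re} := (convex_halfSpace_re_gt c).isPreconnected
  have h2 : (2 : ℂ) ∈ {s : ℂ | c < s.re} := by
    show c < (2 : ℂ).re
    norm_num
    linarith
  have hev : u =ᶠ[𝓝 (2 : ℂ)] v := by
    have : {s : ℂ | 1 < s.re} ∈ 𝓝 (2 : ℂ) :=
      (isOpen_lt continuous_const Complex.continuous_re).mem_nhds (by norm_num)
    filter_upwards [this] with s hs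
    exact h s hs
  intro s hs
  exact hu'.eqOn_of_preconnected_of_eventuallyEq hv' hpc h2 hev hs

theorem f1_m6_alg {c p x y : ℂ} (hc : c ≠ 0) (hp : p ≠ 0) (hx : x ≠ 0) (hy : y ≠ 0) (l : ℂ) :
    l * (c * p * x * y) * (c * p)⁻¹ * x⁻¹ * y⁻¹ = l := by
  field_simp

theorem L1_exists_pr (F : Frame1 ν ε a f) : ∃ L : ℂ → ℂ, LFun1 ν ε a f L := by
  have hν := F.nu
  have hε := F.eps
  have hpi : ((2 * Real.pi : ℝ) : ℂ) ≠ 0 := by
    exact_mod_cast (by positivity : (2 * Real.pi : ℝ) ≠ 0)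
  have h2 : (2 : ℂ) ≠ 0 := two_ne_zero
  have hθ : Real.pi / 2 ∈ Ioo 0 Real.pi := ⟨by positivity, by linarith [Real.pi_pos]⟩
  set L : ℂ → ℂ := fun s => Mf f s (Real.pi / 2) * (((2 * Real.pi : ℝ) : ℂ) ^ (1 / 2 - s) *
      (2 : ℂ) ^ (s - 1 / 2))⁻¹ * (Gamma ((s + 1 / 2 + ν + ε / 2) / 2))⁻¹ *
      (Gamma ((s + 1 / 2 - ν - ε / 2) / 2))⁻¹ with hL
  have hd : Differentiable ℂ L := by
    refine (((Mf1_entire F hθ).mul (Differentiable.inv ?_ ?_)).mul
        (f1_m6_diff_inv_Gamma (by fun_prop))).mul (f1_m6_diff_inv_Gamma (by fun_prop))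
    · exact (f1_m6_diff_pow hpi (by fun_prop)).mul (f1_m6_diff_pow h2 (by fun_prop))
    · exact fun s => mul_ne_zero (f1_m6_pow_ne hpi) (f1_m6_pow_ne h2)
  have h1 : ∀ s : ℂ, 1 < s.re → L s = LSeries a s := by
    intro s hs
    have r1 : ((s + 1 / 2 + ν + ε / 2) / 2).re = (s.re + 1 / 2 + ε / 2) / 2 := by
      have e0 : (ε : ℂ) / 2 = ((ε / 2 : ℝ) : ℂ) := by push_cast; ring
      rw [e0, Complex.div_ofNat_re, Complex.add_re, Complex.add_re, Complex.add_re, hν,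
        Complex.ofReal_re]
      norm_num
    have r2 : ((s + 1 / 2 - ν - ε / 2) / 2).re = (s.re + 1 / 2 - ε / 2) / 2 := by
      have e0 : (ε : ℂ) / 2 = ((ε / 2 : ℝ) : ℂ) := by push_cast; ring
      rw [e0, Complex.div_ofNat_re, Complex.sub_re, Complex.sub_re, Complex.add_re, hν,
        Complex.ofReal_re]
      norm_num
    have e1 : Gamma ((s + 1 / 2 + ν + ε / 2) / 2) ≠ 0 := Complex.Gamma_ne_zero_of_re_pos (by
      rw [r1]
      rcases hε with rfl | rfl <;> linarith)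
    have e2 : Gamma ((s + 1 / 2 - ν - ε / 2) / 2) ≠ 0 := Complex.Gamma_ne_zero_of_re_pos (by
      rw [r2]
      rcases hε with rfl | rfl <;> linarith)
    have e3 : ((2 * Real.pi : ℝ) : ℂ) ^ (1 / 2 - s) ≠ 0 := f1_m6_pow_ne hpi
    have e4 : (2 : ℂ) ^ (s - 1 / 2) ≠ 0 := f1_m6_pow_ne h2
    have h5 : L s = Mf f s (Real.pi / 2) * (((2 * Real.pi : ℝ) : ℂ) ^ (1 / 2 - s) *
      (2 : ℂ) ^ (s - 1 / 2))⁻¹ * (Gamma ((s + 1 / 2 + ν + ε / 2) / 2))⁻¹ *
      (Gamma ((s + 1 / 2 - ν - ε / 2) / 2))⁻¹ := rfl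
    rw [h5, Mf1_eq F hs hθ, G1_half hν hε (by linarith)]
    exact f1_m6_alg e3 e4 e1 e2 _
  refine ⟨L, hd, fun s hs => ⟨lsummable1 F hs, h1 s hs⟩, ?_⟩
  intro s θ hs hθ'
  refine f1_m6_ident (c := 0) zero_lt_one (u := fun s => Mf f s θ)
    (v := fun s => L s * G1 ν ε s θ) ((Mf1_entire F hθ').differentiableOn)
    (hd.differentiableOn.mul (G1_diff_s hν (by simpa using hθ'.1) (by simpa using hθ'.2))) ?_ s hs
  intro s hs
  rw [Mf1_eq F hs hθ', h1 s hs]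


end

end Pool.Agent.JO.FM1

namespace Pool.Agent.JO.FM1

theorem L1_exists : type_of% @L1_exists_pr := @L1_exists_pr

end Pool.Agent.JO.FM1
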