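import Pool.Agent.Lib_helper42.JO1.Defs
import Pool.Agent.Lib_helper45.JO.Defs2
import Pool.Agent.Lib_helper42.JO1F.K8
import Pool.Agent.Lib_helper42.JO1F.PH1
import Pool.Agent.Lib_helper45.JOM.PH2
import Pool.Agent.Lib_helper45.JOM.PH3

/-! Project JO, weight 1: block PH2, the phase step (adapted from the weight 0 block PH4 by
helper73) -/

set_option autoImplicit false

namespace Pool.Agent.JO.FM1

open Complex Filter Topology MeasureTheory Set
open UpperHalfPlane hiding I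
open Pool.Agent.JO.FM
open scoped MatrixGroups ComplexConjugate

theorem f1_ph2_congr {ι : Type*} {lam : ι → ℝ} {c c' : ι → ℝ → ℂ} {G G' : ℝ → ℂ} {A C : ℝ}
    (H : SP.SolFam lam c c' G A C) (h : ∀ θ ∈ SP.II, G' θ = G θ) :
    SP.SolFam lam c c' G' A C :=
  { H with
    hG := fun θ hθ => by rw [h θ hθ]; exact H.hG θ hθ
    cG := H.cG.congr h }

/-- the limit at `π/2` from the left of a function continuous there -/
theorem f1_ph2_left {f : ℝ → ℂ} (h : ContinuousAt f (Real.pi / 2)) :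
    Tendsto f (𝓝[<] (Real.pi / 2)) (𝓝 (f (Real.pi / 2))) :=
  h.tendsto.mono_left nhdsWithin_le_nhds

theorem f1_ph2_refl {f : ℝ → ℂ} (h : ContinuousAt f (Real.pi / 2)) :
    Tendsto (fun θ => f (Real.pi - θ)) (𝓝[<] (Real.pi / 2)) (𝓝 (f (Real.pi / 2))) := by
  have h1 : Tendsto (fun θ : ℝ => Real.pi - θ) (𝓝 (Real.pi / 2)) (𝓝 (Real.pi / 2)) := by
    have : Continuous (fun θ : ℝ => Real.pi - θ) := by fun_prop
    have h2 := this.tendsto (Real.pi / 2)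
    have h3 : Real.pi - Real.pi / 2 = Real.pi / 2 := by ring
    rwa [h3] at h2
  exact (h.tendsto.comp h1).mono_left nhdsWithin_le_nhds

theorem f1_ph2_ev : ∀ᶠ θ in 𝓝[<] (Real.pi / 2), θ ∈ SP.II :=
  Ioo_mem_nhdsLT (by positivity)

/-- real sums -/
theorem f1_ph2_real {ι : Type*} [Countable ι] {lam : ι → ℝ} {c c' : ι → ℝ → ℂ} {G : ℝ → ℂ}
    {A C : ℝ} (hinj : Function.Injective lam) (H : SP.SolFam lam c c' G A C)
    (hG : ∀ θ ∈ SP.II, (G θ).im = 0) (i : ι) (hi : 1 / 4 < lam i) :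
    ∀ θ ∈ SP.II, conj (c i θ) = c i θ ∧ conj (c' i θ) = c' i θ := by
  intro θ hθ
  have H2 := f1_ph2_congr H.conj (G' := G) (fun θ hθ => (Complex.conj_eq_iff_im.2 (hG θ hθ)).symm)
  have := sol_unique hinj H H2 i hi hθ
  exact ⟨this.1.symm, this.2.symm⟩

theorem f1_ph2_real_lim {f : ℝ → ℂ} (h : ContinuousAt f (Real.pi / 2))
    (hf : ∀ θ ∈ SP.II, conj (f θ) = f θ) : (f (Real.pi / 2)).im = 0 := by
  have h1 := f1_ph2_left h
  have h2 : Tendsto (fun θ => conj (f θ)) (𝓝[<] (Real.pi / 2)) (𝓝 (conj (f (Real.pi / 2)))) :=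
    (Complex.continuous_conj.tendsto _).comp h1
  have h3 : Tendsto f (𝓝[<] (Real.pi / 2)) (𝓝 (conj (f (Real.pi / 2)))) := by
    refine h2.congr' ?_
    filter_upwards [f1_ph2_ev] with θ hθ
    exact hf θ hθ
  exact Complex.conj_eq_iff_im.1 (tendsto_nhds_unique h3 h1)

/-- the Wronskian is constant -/
theorem f1_ph2_ww {ι : Type*} {lam : ι → ℝ} {c c' : ι → ℝ → ℂ} {G : ℝ → ℂ}
    {A C : ℝ} (H : SP.SolFam lam c c' G A C) (i : ι) {κ : ℝ} (hi : lam i = 1 / 4 + κ ^ 2)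
    (hc : ContinuousAt (c i) (Real.pi / 2)) (hc' : ContinuousAt (c' i) (Real.pi / 2)) {θ : ℝ}
    (hθ : θ ∈ SP.II) : SP.ww c c' i (SP.pt κ 0) θ =
      fpH (SP.pt κ 0) * c i (Real.pi / 2) - ffH (SP.pt κ 0) * c' i (Real.pi / 2) := by
  have hre : 0 < (SP.pt κ 0).re := by
    rw [SP.pt_re]
    norm_num
  have hz : (lam i : ℂ) - SP.pt κ 0 * (1 - SP.pt κ 0) = 0 := by
    rw [SP.den_pt, hi]
    push_cast
    ring
  have hd : ∀ t ∈ SP.II, HasDerivAt (SP.ww c c' i (SP.pt κ 0)) 0 t := by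
    intro t ht
    have := SP.ww_deriv H ht hre i
    rwa [hz, zero_mul] at this
  have hconst : ∀ t ∈ SP.II, SP.ww c c' i (SP.pt κ 0) t = SP.ww c c' i (SP.pt κ 0) θ := by
    intro t ht
    refine (convex_Ioo (0 : ℝ) (Real.pi / 2)).is_const_of_fderivWithin_eq_zero (𝕜 := ℝ)
      (fun u hu => (hd u hu).differentiableAt.differentiableWithinAt) (fun u hu => ?_) ht hθ
    have h1 : HasFDerivWithinAt (SP.ww c c' i (SP.pt κ 0)) (0 : ℝ →L[ℝ] ℂ)
        (Ioo (0 : ℝ) (Real.pi / 2)) u := by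
      have := (hd u hu).hasFDerivAt.hasFDerivWithinAt (s := Ioo (0 : ℝ) (Real.pi / 2))
      simpa using this
    exact h1.fderivWithin (isOpen_Ioo.uniqueDiffWithinAt hu)
  obtain ⟨f1, f2⟩ := ff_half hre
  have h3 : Tendsto (SP.ww c c' i (SP.pt κ 0)) (𝓝[<] (Real.pi / 2))
      (𝓝 (fpH (SP.pt κ 0) * c i (Real.pi / 2) - ffH (SP.pt κ 0) * c' i (Real.pi / 2))) :=
    (f2.mul (f1_ph2_left hc)).sub (f1.mul (f1_ph2_left hc'))
  have h4 : Tendsto (SP.ww c c' i (SP.pt κ 0)) (𝓝[<] (Real.pi / 2))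
      (𝓝 (SP.ww c c' i (SP.pt κ 0) θ)) := by
    refine tendsto_const_nhds.congr' ?_
    filter_upwards [f1_ph2_ev] with t ht
    exact (hconst t ht).symm
  exact tendsto_nhds_unique h4 h3

/-- a real solution with vanishing Wronskian vanishes -/
theorem f1_ph2_zero {ι : Type*} {c c' : ι → ℝ → ℂ} (i : ι) {κ : ℝ} (hκ : κ ≠ 0) {θ : ℝ}
    (hθ : θ ∈ SP.II) (h : SP.ww c c' i (SP.pt κ 0) θ = 0) (h1 : conj (c i θ) = c i θ)
    (h2 : conj (c' i θ) = c' i θ) : c i θ = 0 := by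
  have hpt : SP.pt κ 0 = 1 / 2 + Complex.I * κ := by unfold SP.pt; push_cast; ring
  rw [hpt] at h
  have h3 : conj (SP.fp (1 / 2 + Complex.I * κ) θ) * c i θ -
      conj (SP.ff (1 / 2 + Complex.I * κ) θ) * c' i θ = 0 := by
    have := congrArg conj h
    simpa only [SP.ww, map_sub, map_mul, h1, h2, map_zero] using this
  have h4 : SP.fp (1 / 2 + Complex.I * κ) θ * c i θ -
      SP.ff (1 / 2 + Complex.I * κ) θ * c' i θ = 0 := h
  have h5 : SP.wr (1 / 2 + Complex.I * κ) θ * c i θ = 0 := by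
    unfold SP.wr
    linear_combination (conj (SP.ff (1 / 2 + Complex.I * κ) θ)) * h4 -
      SP.ff (1 / 2 + Complex.I * κ) θ * h3
  exact (mul_eq_zero.mp h5).resolve_left (SP.wr_ne hκ hθ)

/-- the limit of `η` times the sum -/
theorem f1_ph2_lim {ι : Type*} {lam : ι → ℝ} {c c' : ι → ℝ → ℂ} {G : ℝ → ℂ}
    {A C : ℝ} (hinj : Function.Injective lam) (H : SP.SolFam lam c c' G A C) {θ₀ : ℝ}
    (h0 : θ₀ ∈ SP.II) {κ : ℝ} (hκ : 0 < κ) (j : ι) (hj : lam j = 1 / 4 + κ ^ 2) :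
    Tendsto (fun η : ℝ => (η : ℂ) * ∑' i, SP.ww c c' i (SP.pt κ η) θ₀ /
      ((lam i : ℂ) - SP.pt κ η * (1 - SP.pt κ η))) (𝓝[>] 0)
      (𝓝 (SP.ww c c' j (SP.pt κ 0) θ₀ / (2 * κ * Complex.I))) := by
  have h := H.lim_L h0 hκ
  rw [tsum_eq_single j (fun i hi => if_neg fun h => hi (hinj (h.trans hj.symm))), if_pos hj] at h
  exact h

theorem phase_step1_pr {ν : ℂ} (hν : ν.re = 0) : ∃ Λ₀ : ℝ, 1 / 4 ≤ Λ₀ ∧
    ∀ (ι : Type) [Countable ι] (lam : ι → ℝ) (c c' : ι → ℝ → ℂ) (G : ℝ → ℂ) (A C : ℝ)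
      (M : ℂ → ℂ) (θ₀ R : ℝ), Function.Injective lam →
    SP.SolFam lam c c' G A C →
    SP.SolFam lam (fun i θ => c i (Real.pi - θ)) (fun i θ => -c' i (Real.pi - θ))
      (fun θ => G (Real.pi - θ)) A C →
    (∀ i, ContinuousAt (c i) (Real.pi / 2) ∧ ContinuousAt (c' i) (Real.pi / 2)) →
    (∀ θ ∈ SP.II, (G θ).im = 0 ∧ (G (Real.pi - θ)).im = 0) →
    θ₀ ∈ SP.II → DifferentiableOn ℂ M SP.QQ →
    (∀ κ : ℝ, 0 < κ → Tendsto (fun η : ℝ => (η : ℂ) * M (SP.pt κ η)) (𝓝[>] 0) (𝓝 0)) →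
    (∀ s : ℂ, s ∈ SP.QQ → R < s.re →
      km ν s * Dt G θ₀ s - kp ν s * Dt (fun θ => G (Real.pi - θ)) θ₀ s = M s) →
    ∀ i, Λ₀ < lam i → ∀ θ ∈ SP.II, c i θ = 0 ∧ c i (Real.pi - θ) = 0 := by
  obtain ⟨κ₀, hκ₀, hph⟩ := kap1_phase hν
  refine ⟨1 / 4 + κ₀ ^ 2, by nlinarith [sq_nonneg κ₀], ?_⟩
  intro ι _ lam c c' G A C M θ₀ R hinj H₁ H₂ hcont hG h0 hM hMlim hrel j hj θ hθ
  -- the spectral parameter
  have hj4 : 1 / 4 < lam j := by nlinarith [sq_nonneg κ₀]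
  set κ : ℝ := Real.sqrt (lam j - 1 / 4) with hκ
  have hκ1 : κ₀ ≤ κ := by
    rw [hκ]
    apply Real.le_sqrt_of_sq_le
    linarith
  have hκ0 : 0 < κ := hκ₀.trans_le hκ1
  have hj' : lam j = 1 / 4 + κ ^ 2 := by
    rw [hκ, Real.sq_sqrt (by linarith)]
    ring
  -- the reflected family
  set d : ι → ℝ → ℂ := fun i θ => c i (Real.pi - θ) with hd
  set d' : ι → ℝ → ℂ := fun i θ => -c' i (Real.pi - θ) with hd'
  have hpp : Real.pi - Real.pi / 2 = Real.pi / 2 := by ring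
  have hrefl : ContinuousAt (fun θ : ℝ => Real.pi - θ) (Real.pi / 2) := by fun_prop
  have hdc : ContinuousAt (d j) (Real.pi / 2) := by
    have h1 : ContinuousAt (c j) (Real.pi - Real.pi / 2) := by rw [hpp]; exact (hcont j).1
    exact ContinuousAt.comp (g := c j) (f := fun θ : ℝ => Real.pi - θ) h1 hrefl
  have hdc' : ContinuousAt (d' j) (Real.pi / 2) := by
    have h1 : ContinuousAt (c' j) (Real.pi - Real.pi / 2) := by rw [hpp]; exact (hcont j).2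
    exact (ContinuousAt.comp (g := c' j) (f := fun θ : ℝ => Real.pi - θ) h1 hrefl).neg
  have hdv : d j (Real.pi / 2) = c j (Real.pi / 2) := by
    rw [hd]; simp only; rw [hpp]
  have hdv' : d' j (Real.pi / 2) = -c' j (Real.pi / 2) := by
    rw [hd']; simp only; rw [hpp]
  -- reality
  have hcr := f1_ph2_real hinj H₁ (fun θ hθ => (hG θ hθ).1) j hj4
  have hdr := f1_ph2_real hinj H₂ (fun θ hθ => (hG θ hθ).2) j hj4
  have hcim := f1_ph2_real_lim (hcont j).1 (fun θ hθ => (hcr θ hθ).1)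
  have hdim := f1_ph2_real_lim (hcont j).2 (fun θ hθ => (hcr θ hθ).2)
  -- the identity on the quadrant
  set L₁ : ℂ → ℂ := fun s => ∑' i, SP.ww c c' i s θ₀ / ((lam i : ℂ) - s * (1 - s)) with hL₁
  set L₂ : ℂ → ℂ := fun s => ∑' i, SP.ww d d' i s θ₀ / ((lam i : ℂ) - s * (1 - s)) with hL₂
  obtain ⟨hkp', hkm'⟩ := kpm_diff hν
  have hopenr : IsOpen {s : ℂ | 0 < s.re} := isOpen_lt continuous_const Complex.continuous_re
  have hkp : DifferentiableOn ℂ (kp ν) SP.QQ := hkp'.mono fun s hs => by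
    have := hs.1
    show 0 < s.re
    linarith
  have hkm : DifferentiableOn ℂ (km ν) SP.QQ := hkm'.mono fun s hs => by
    have := hs.1
    show 0 < s.re
    linarith
  have hkpc : ∀ s : ℂ, 0 < s.re → 0 < s.im → ContinuousAt (kp ν) s := fun s h1 _ =>
    (hkp'.differentiableAt (hopenr.mem_nhds h1)).continuousAt
  have hkmc : ∀ s : ℂ, 0 < s.re → 0 < s.im → ContinuousAt (km ν) s := fun s h1 _ =>
    (hkm'.differentiableAt (hopenr.mem_nhds h1)).continuousAt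
  have hid : ∀ s ∈ SP.QQ, km ν s * L₁ s - kp ν s * L₂ s = M s := by
    have hl : DifferentiableOn ℂ (fun s => km ν s * L₁ s - kp ν s * L₂ s) SP.QQ :=
      (hkm.mul (H₁.diff_L h0)).sub (hkp.mul (H₂.diff_L h0))
    have hl' := hl.analyticOnNhd SP.QQ_open
    have hM' := hM.analyticOnNhd SP.QQ_open
    set B : ℝ := max R (A + 2) with hB
    set z₀ : ℂ := ((|B| + 1 : ℝ) : ℂ) + Complex.I with hz₀
    have hz1 : z₀.re = |B| + 1 := by rw [hz₀]; simp
    have hz2 : z₀.im = 1 := by rw [hz₀]; simp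
    have hzQ : z₀ ∈ SP.QQ := ⟨by rw [hz1]; linarith [abs_nonneg B], by rw [hz2]; norm_num⟩
    have hopen : IsOpen ({s : ℂ | B < s.re} ∩ SP.QQ) :=
      (isOpen_lt continuous_const Complex.continuous_re).inter SP.QQ_open
    have hev : (fun s => km ν s * L₁ s - kp ν s * L₂ s) =ᶠ[𝓝 z₀] M := by
      filter_upwards [hopen.mem_nhds ⟨show B < z₀.re by
        rw [hz1]
        linarith [le_abs_self B], hzQ⟩] with s hs
      have hsB : B < s.re := hs.1
      have hs1 : R < s.re := (le_max_left _ _).trans_lt hsB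
      have hs2 : A + 2 ≤ s.re := ((le_max_right _ _).trans_lt hsB).le
      rw [← hrel s hs.2 hs1, hL₁, hL₂]
      simp only
      rw [H₁.sum_eq h0 hs2 hs.2.2, H₂.sum_eq h0 hs2 hs.2.2]
      rfl
    exact hl'.eqOn_of_preconnected_of_eventuallyEq hM' SP.QQ_conn hzQ hev
  -- the limit
  have hpt := SP.pt_tendsto κ
  have t1 : Tendsto (fun η : ℝ => kp ν (SP.pt κ η)) (𝓝[>] 0) (𝓝 (kp ν (SP.pt κ 0))) :=
    (hkpc _ (by rw [SP.pt_re]; norm_num) (by rw [SP.pt_im]; exact hκ0)).tendsto.comp hpt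
  have t2 : Tendsto (fun η : ℝ => km ν (SP.pt κ η)) (𝓝[>] 0) (𝓝 (km ν (SP.pt κ 0))) :=
    (hkmc _ (by rw [SP.pt_re]; norm_num) (by rw [SP.pt_im]; exact hκ0)).tendsto.comp hpt
  have t3 := f1_ph2_lim hinj H₁ h0 hκ0 j hj'
  have t4 := f1_ph2_lim hinj H₂ h0 hκ0 j hj'
  have t5 := (t2.mul t3).sub (t1.mul t4)
  have t6 := hMlim κ hκ0
  have t7 : Tendsto (fun η : ℝ => (η : ℂ) * M (SP.pt κ η)) (𝓝[>] 0)
      (𝓝 (km ν (SP.pt κ 0) * (SP.ww c c' j (SP.pt κ 0) θ₀ / (2 * κ * Complex.I)) -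
        kp ν (SP.pt κ 0) * (SP.ww d d' j (SP.pt κ 0) θ₀ / (2 * κ * Complex.I)))) := by
    refine t5.congr' ?_
    filter_upwards [self_mem_nhdsWithin] with η hη
    have hη0 : (0 : ℝ) < η := hη
    rw [← hid (SP.pt κ η) ⟨by rw [SP.pt_re]; linarith, by rw [SP.pt_im]; exact hκ0⟩, hL₁, hL₂]
    ring
  have t8 := tendsto_nhds_unique t7 t6
  have hκc : (κ : ℂ) ≠ 0 := by exact_mod_cast hκ0.ne'
  have h5 : (2 * κ * Complex.I : ℂ) ≠ 0 := mul_ne_zero (mul_ne_zero two_ne_zero hκc) Complex.I_ne_zero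
  rw [f1_ph2_ww H₁ j hj' (hcont j).1 (hcont j).2 h0,
    f1_ph2_ww H₂ j hj' hdc hdc' h0, hdv, hdv'] at t8
  -- the phases
  set X : ℂ := kD ν (SP.pt κ 0) * fpH (SP.pt κ 0) with hX
  set Y : ℂ := kS ν (SP.pt κ 0) * ffH (SP.pt κ 0) with hY
  set a : ℂ := c j (Real.pi / 2) with ha
  set b : ℂ := c' j (Real.pi / 2) with hb
  have hXY : X * a + Y * b = 0 := by
    have h6 : (X * a + Y * b) / (2 * κ * Complex.I) = 0 := by
      rw [← neg_eq_zero, ← t8, hX, hY]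
      unfold km kp
      ring
    exact (div_eq_zero_iff.1 h6).resolve_right h5
  have hphκ : (X * conj Y).im ≠ 0 := hph κ hκ1
  have hare : a = ((a.re : ℝ) : ℂ) := by
    apply Complex.ext
    · simp
    · simpa using hcim
  have hbre : b = ((b.re : ℝ) : ℂ) := by
    apply Complex.ext
    · simp
    · simpa using hdim
  have h7 : (X * conj Y) * a + (Y * conj Y) * b = 0 := by linear_combination (conj Y) * hXY
  rw [Complex.mul_conj, hare, hbre] at h7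
  have h8 := congrArg Complex.im h7
  rw [Complex.add_im, Complex.im_mul_ofReal, Complex.zero_im, ← Complex.ofReal_mul,
    Complex.ofReal_im, add_zero] at h8
  have ha0 : a = 0 := by
    rw [hare, (mul_eq_zero.1 h8).resolve_left hphκ, Complex.ofReal_zero]
  have hYne : Y ≠ 0 := by
    intro h
    apply hphκ
    rw [h]
    simp
  have hb0 : b = 0 := by
    rw [ha0, mul_zero, zero_add] at hXY
    exact (mul_eq_zero.1 hXY).resolve_left hYne
  constructor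
  · refine f1_ph2_zero j hκ0.ne' hθ ?_ (hcr θ hθ).1 (hcr θ hθ).2
    rw [f1_ph2_ww H₁ j hj' (hcont j).1 (hcont j).2 hθ, ← ha, ← hb, ha0, hb0]
    ring
  · refine f1_ph2_zero (c := d) (c' := d') j hκ0.ne' hθ ?_ (hdr θ hθ).1 (hdr θ hθ).2
    rw [f1_ph2_ww H₂ j hj' hdc hdc' hθ, hdv, hdv', ha0, hb0]
    ring


end Pool.Agent.JO.FM1

namespace Pool.Agent.JO.FM1

theorem phase_step1 : type_of% @phase_step1_pr := @phase_step1_pr

end Pool.Agent.JO.FM1
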