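import Pool.Agent.Lib_helper42.JO1F.A1
import Pool.Agent.Lib_helper42.JO1F.A10
import Pool.Agent.Lib_helper42.JO1F.A11
import Pool.Agent.Lib_helper42.JO1F.A12
import Pool.Agent.Lib_helper42.JO1F.A13
import Pool.Agent.Lib_helper42.JO1F.A14
import Pool.Agent.Lib_helper42.JO1F.A15
import Pool.Agent.Lib_helper42.JO1F.A16
import Pool.Agent.Lib_helper42.JO1F.A2
import Pool.Agent.Lib_helper42.JO1F.A3
import Pool.Agent.Lib_helper42.JO1F.A4
import Pool.Agent.Lib_helper42.JO1F.A5
import Pool.Agent.Lib_helper42.JO1F.A6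
import Pool.Agent.Lib_helper42.JO1F.A7
import Pool.Agent.Lib_helper42.JO1F.A8
import Pool.Agent.Lib_helper42.JO1F.A9
import Pool.Agent.Lib_helper42.JO1F.C1
import Pool.Agent.Lib_helper42.JO1F.C10
import Pool.Agent.Lib_helper42.JO1F.C11
import Pool.Agent.Lib_helper42.JO1F.C12
import Pool.Agent.Lib_helper42.JO1F.C2
import Pool.Agent.Lib_helper42.JO1F.C3
import Pool.Agent.Lib_helper42.JO1F.C4
import Pool.Agent.Lib_helper42.JO1F.C5
import Pool.Agent.Lib_helper42.JO1F.C6
import Pool.Agent.Lib_helper42.JO1F.C7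
import Pool.Agent.Lib_helper42.JO1F.C8
import Pool.Agent.Lib_helper42.JO1F.C8A
import Pool.Agent.Lib_helper42.JO1F.C9
import Pool.Agent.Lib_helper42.JO1F.D1
import Pool.Agent.Lib_helper42.JO1F.D2
import Pool.Agent.Lib_helper42.JO1F.D3
import Pool.Agent.Lib_helper42.JO1F.D4
import Pool.Agent.Lib_helper42.JO1F.D5
import Pool.Agent.Lib_helper42.JO1F.K1
import Pool.Agent.Lib_helper42.JO1F.K2
import Pool.Agent.Lib_helper42.JO1F.K3
import Pool.Agent.Lib_helper42.JO1F.K4
import Pool.Agent.Lib_helper42.JO1F.K5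
import Pool.Agent.Lib_helper42.JO1F.K6
import Pool.Agent.Lib_helper42.JO1F.K7
import Pool.Agent.Lib_helper42.JO1F.K8
import Pool.Agent.Lib_helper42.JO1F.M1
import Pool.Agent.Lib_helper42.JO1F.M2
import Pool.Agent.Lib_helper42.JO1F.M3
import Pool.Agent.Lib_helper42.JO1F.M4
import Pool.Agent.Lib_helper42.JO1F.M5
import Pool.Agent.Lib_helper42.JO1F.M6
import Pool.Agent.Lib_helper42.JO1F.M7
import Pool.Agent.Lib_helper42.JO1F.M8
import Pool.Agent.Lib_helper42.JO1F.M9
import Pool.Agent.Lib_helper42.JO1F.O1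
import Pool.Agent.Lib_helper42.JO1F.O2
import Pool.Agent.Lib_helper42.JO1F.P1
import Pool.Agent.Lib_helper42.JO1F.P2
import Pool.Agent.Lib_helper42.JO1F.P3
import Pool.Agent.Lib_helper42.JO1F.P4
import Pool.Agent.Lib_helper42.JO1F.P5
import Pool.Agent.Lib_helper42.JO1F.PH1
import Pool.Agent.Lib_helper42.JO1F.PH2

/-!
# Project JO, part FM, weight 1: all blocks

The statements are those of `Pool.Agent.Lib_helper42.JO1.W10`, with proofs.
-/
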