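import Pool.Agent.Lib_helper42.JO1F.FM1
import Pool.Agent.Lib_helper42.JO1.Iface
import Pool.Agent.Lib_helper84.JO.Contra

/-!
# Project JO: top level of the Maass half, weight 1
-/

set_option autoImplicit false

namespace Pool.Agent.JO.FM1

open Complex Filter Topology MeasureTheory Set
open UpperHalfPlane hiding I
open Pool.Agent.JO.FM
open Pool.Agent.Lib_helper37.JO (HJ HJ1 strip)
open scoped MatrixGroups ComplexConjugate

/-- **Reduction of the Maass half, weight 1.** -/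
theorem maass_top1 (hHol : HolStatement) (Zf : ∀ N : ℕ, ZMod N × ZMod N → ℝ → ℝ → ℂ)
    (hSE : ∀ (N : ℕ) [NeZero N], SEMaass1 N (Zf N))
    (hdec : ∀ (N : ℕ) [NeZero N] (χ : DirichletCharacter ℂ N) (u : ℍ → ℂ) (a : ℕ → ℂ) (ν : ℂ)
      (ε : ℝ), WForm N χ 1 a u → Cusp1 N ν u → Frame1 ν ε a u → aMDec N u)
    (hB : ∀ (N : ℕ) [NeZero N] (χ : DirichletCharacter ℂ N) (u : ℍ → ℂ) (a : ℕ → ℂ) (ν : ℂ)
      (ε : ℝ), WForm N χ 1 a u → Cusp1 N ν u → Frame1 ν ε a u → BConcl2 (N := N) (Zf N) 1 u)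
    (N : ℕ) [NeZero N] (χ : DirichletCharacter ℂ N) (ev : ℝ) (f : ℍ → ℂ) (a : ℕ → ℂ)
    (h : IsHeckeMaass N χ 1 ev f a) : OmegaConclusion a := by
  have hev : 1 / 4 ≤ ev := by
    rcases h.weight with h1 | h1
    · exact absurd h1.1 (by norm_num)
    · exact h1.2
  rcases hev.eq_or_lt with h14 | h14
  · subst h14
    exact quarter hHol h
  obtain ⟨ν, ε, u, -, hW, hc, F⟩ := frame1_exists h h14
  obtain ⟨L, hL⟩ := L1_exists F
  refine ⟨L, hL.diff, hL.ser, fun A B => ?_⟩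
  by_contra hno
  have hE := isLittleO_of_not_isOmegaSqrt hno
  obtain ⟨R, hR, hdecomp, hRb⟩ := hSE N χ u a ν ε hW hc F (hdec N χ u a ν ε hW hc F)
    (fun θ₀ hθ₀ => by
      obtain ⟨M, hM1, hM2, hM3⟩ := fm2a1 F hL hE hθ₀
      exact ⟨M, 2, hM1, hM2, hM3⟩)
  obtain ⟨hFd, hFb⟩ := hB N χ u a ν ε hW hc F
  obtain ⟨hC1, hC2⟩ := FC1_diff F hL
  have hst : {θ : ℂ | 0 < θ.re ∧ θ.re < Real.pi} = strip := rfl
  rw [hst] at hC1
  have hall : Set.EqOn (FC1 ν ε L) (fun θ => Fct (N := N) (Zf N) u θ + R θ) strip :=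
    eqOn_strip hC1 (hFd.add hR) fun θ hθ => (hC2 θ hθ).trans (hdecomp θ hθ)
  obtain ⟨η, hη, hun⟩ := fm2b1 hW hc F hL
  set r : ℝ := min (η / 2) (1 / 2) with hr
  have hr0 : 0 < r := by
    rw [hr]
    exact lt_min (by linarith) (by norm_num)
  refine hun r hr0 ?_
  obtain ⟨C₁, hC₁⟩ := hFb (η / 2) (η + 1) (by linarith)
  obtain ⟨C₂, hC₂⟩ := hRb (η / 2) (η + 1) (by linarith)
  have key : ∀ θ : ℂ, θ ∈ strip → η / 2 ≤ |θ.im| → |θ.im| ≤ η + 1 →
      min θ.re (Real.pi - θ.re) ≤ 1 → 0 < min θ.re (Real.pi - θ.re) →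
      ‖FC1 ν ε L θ‖ ≤ (C₁ + |C₂|) / min θ.re (Real.pi - θ.re) := by
    intro θ hθ h1 h2 h3 h4
    rw [hall hθ]
    have h5 := hC₁ θ hθ h1 h2
    have h6 := hC₂ θ hθ h1 h2
    rw [pow_one] at h5
    have h7 : ‖R θ‖ ≤ |C₂| * (min θ.re (Real.pi - θ.re))⁻¹ := by
      have h8 : 1 ≤ (min θ.re (Real.pi - θ.re))⁻¹ := (one_le_inv₀ h4).2 h3
      calc ‖R θ‖ ≤ |C₂| := h6.trans (le_abs_self _)
        _ = |C₂| * 1 := (mul_one _).symm
        _ ≤ _ := mul_le_mul_of_nonneg_left h8 (abs_nonneg _)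
    calc ‖Fct (N := N) (Zf N) u θ + R θ‖ ≤ _ := norm_add_le _ _
      _ ≤ _ := add_le_add h5 h7
      _ = _ := by rw [div_eq_mul_inv]; ring
  refine ⟨C₁ + |C₂|, fun θ hθ0 hθ => ?_⟩
  have h1 : |θ.re| ≤ ‖θ - η * I‖ := by
    have := Complex.abs_re_le_norm (θ - η * I)
    simpa using this
  have h2 : |θ.im - η| ≤ ‖θ - η * I‖ := by
    have := Complex.abs_im_le_norm (θ - η * I)
    simpa using this
  have hpi := Real.pi_gt_three
  have hre : θ.re < 1 := by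
    have h3 : r ≤ 1 / 2 := min_le_right _ _
    have h4 := le_abs_self θ.re
    linarith
  have him1 : η / 2 ≤ θ.im := by
    have h3 : r ≤ η / 2 := min_le_left _ _
    have h4 := (abs_le.1 (h2.trans hθ.le)).1
    linarith
  have him2 : θ.im ≤ η + 1 := by
    have h3 : r ≤ 1 / 2 := min_le_right _ _
    have h4 := (abs_le.1 (h2.trans hθ.le)).2
    linarith
  have hmem : θ ∈ strip := ⟨hθ0, by linarith⟩
  have hmin : min θ.re (Real.pi - θ.re) = θ.re := min_eq_left (by linarith)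
  have habs : |θ.im| = θ.im := abs_of_pos (by linarith)
  have e1 : ((Real.pi : ℂ) - θ).re = Real.pi - θ.re := by simp
  have e2 : ((Real.pi : ℂ) - θ).im = -θ.im := by simp
  have hmem' : (Real.pi : ℂ) - θ ∈ strip := by
    constructor
    · rw [e1]; linarith
    · rw [e1]; linarith
  have hmin' : min ((Real.pi : ℂ) - θ).re (Real.pi - ((Real.pi : ℂ) - θ).re) = θ.re := by
    rw [e1, sub_sub_cancel]
    exact min_eq_right (by linarith)
  constructor
  · have := key θ hmem (by rw [habs]; exact him1) (by rw [habs]; exact him2)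
      (by rw [hmin]; exact hre.le) (by rw [hmin]; exact hθ0)
    rwa [hmin] at this
  · have := key ((Real.pi : ℂ) - θ) hmem' (by rw [e2, abs_neg, habs]; exact him1)
      (by rw [e2, abs_neg, habs]; exact him2) (by rw [hmin']; exact hre.le)
      (by rw [hmin']; exact hθ0)
    rwa [hmin'] at this

end Pool.Agent.JO.FM1
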